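import Pool.Agent.Lib.MP_5e7226_co.RT.IIDefs
import Pool.Agent.Lib.MP_5e7226_co.RG.Defs
import Pool.Agent.Lib.MP_5e7226_co.HX.Geo

set_option autoImplicit false

/-! The definitions of the bridge rows. -/

namespace Pool.Agent.Lib.MP_5e7226_co.RT

/-- The space. -/
abbrev E3 := EuclideanSpace ℝ (Fin 3)

/-- The coordinates `ℝ^3 ≃ ℂ × ℝ`. -/
def toQ (x : Fin 3 → ℝ) : Q3 := (⟨x 0, x 1⟩, x 2)

/-- Back. -/
def ofQ (q : Q3) : Fin 3 → ℝ := ![q.1.re, q.1.im, q.2]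

/-- The body `K` about `o` in the coordinates of the basis `b`. -/
def cb (b : Module.Basis (Fin 3) ℝ E3) (o : E3) (K : Set E3) : Set Q3 :=
  {q | o + ∑ i, ofQ q i • b i ∈ K}

/-- The polar body. -/
def pol (K : Set Q3) : Set Q3 := {u | ∀ x ∈ K, pr u x ≤ 1}

/-- `g` is a symmetry of `K` about `o` which is, in suitable coordinates, a rotation by an angle
different from `0` and `π`. -/
def RotSym (K : Set E3) (o : E3) (g : E3 →ₗ[ℝ] E3) : Prop :=
  (∀ x, o + x ∈ K ↔ o + g x ∈ K) ∧ 0 < LinearMap.det g ∧ ∃ x, g (g x) ≠ x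

end Pool.Agent.Lib.MP_5e7226_co.RT
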