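import Pool.Agent.Lib.MP_5e7226_co.CS.ProjFinal
import Pool.Agent.Lib.MP_5e7226_co.RT.MDefs
import Pool.Agent.Lib.MP_5e7226_co.IN.Res
import Pool.Agent.Lib.MP_5e7226_co.HX.Pts

set_option autoImplicit false

/-! Any non-trivial linear symmetry of a body in `E^3`: the bound `8`, for both functionals. -/

namespace Pool.Agent.Lib.MP_5e7226_co.RT

theorem any_image {K : Set E3} {o : E3} (hcomp : IsCompact K) (hint : (interior K).Nonempty)
    {g : E3 →ₗ[ℝ] E3} (hg : ∀ x, o + x ∈ K ↔ o + g x ∈ K) :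
    (fun x => o + g (x - o)) '' K = K := by
  obtain ⟨g', hg'⟩ := IN.exists_equiv hcomp hint g.isLinear hg
  ext y
  constructor
  · rintro ⟨x, hx, rfl⟩
    exact (hg (x - o)).1 (by simpa using hx)
  · intro hy
    refine ⟨o + g'.symm (y - o), ?_, ?_⟩
    · rw [hg, ← hg', LinearEquiv.apply_symm_apply]
      simpa using hy
    · simp only
      rw [add_sub_cancel_left, ← hg', LinearEquiv.apply_symm_apply]
      simp

theorem any8 {K : Set E3} {o : E3} (hconv : Convex ℝ K) (hcomp : IsCompact K)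
    (ho : o ∈ interior K) {g : E3 →ₗ[ℝ] E3} (hg : ∀ x, o + x ∈ K ↔ o + g x ∈ K)
    (hne : ∃ x, g x ≠ x) : RG.SeparatedBy K o 8 ∧ RG.IlluminatedBy K 8 := by
  have himg := any_image hcomp ⟨o, ho⟩ hg
  constructor
  · refine CS.final K hconv hcomp o ho g g.isLinear himg ?_
    intro h
    obtain ⟨x, hx⟩ := hne
    exact hx (by rw [h]; rfl)
  · let G : E3 →ᵃ[ℝ] E3 :=
      { toFun := fun x => o + g (x - o)
        linear := g
        map_vadd' := by
          intro p v
          simp only [vadd_eq_add, map_sub, map_add]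
          abel }
    have h1 : Illum K 8 := by
      refine CS.illum_sym (by simp) hconv hcomp ⟨o, ho⟩ G himg ?_
      obtain ⟨x, hx⟩ := hne
      refine ⟨o + x, fun h => hx ?_⟩
      have h2 : o + g (o + x - o) = o + x := h
      rw [add_sub_cancel_left] at h2
      exact add_left_cancel h2
    obtain ⟨d, hd⟩ := h1
    exact HX.points_of_dirs hcomp ⟨d, fun q hq => hd q (hcomp.isClosed.frontier_subset hq)⟩

end Pool.Agent.Lib.MP_5e7226_co.RT
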