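import Pool.Agent.Lib.MP_5e7226_co.RT.TmpDefs

/-!
# MP_5e7226, E^3 rotations, case (II): definitions
-/

set_option autoImplicit false

open Set Filter Topology
open scoped Real

namespace Pool.Agent.Lib.MP_5e7226_co.RT

def Par (K : Set Q3) : Prop :=
  ∃ (c v₁ v₂ v₃ : Q3), LinearIndependent ℝ ![v₁, v₂, v₃] ∧
    K = {x | ∃ s₁ s₂ s₃ : ℝ, |s₁| ≤ 1 ∧ |s₂| ≤ 1 ∧ |s₃| ≤ 1 ∧
      x = c + s₁ • v₁ + s₂ • v₂ + s₃ • v₃}

/-- The top face is one point, at the height `h`. -/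
structure Top (K : Set Q3) (h : ℝ) : Prop where
  pos : 0 < h
  mem : ((0 : ℂ), h) ∈ K
  le : ∀ x ∈ K, x.2 ≤ h
  eq : ∀ x ∈ K, x.2 = h → x.1 = 0

/-- The bottom face is one point, at the height `-h'`. -/
structure Bot (K : Set Q3) (h' : ℝ) : Prop where
  pos : 0 < h'
  mem : ((0 : ℂ), -h') ∈ K
  le : ∀ x ∈ K, -h' ≤ x.2
  eq : ∀ x ∈ K, x.2 = -h' → x.1 = 0

/-- The normals of a mixed point (helper29's interface). -/
structure Fan (K : Set Q3) (t r z a b al be h : ℝ) : Prop where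
  rpos : 0 < r
  mem : ((r : ℂ) * eA t, z) ∈ K
  na : Nm K ((r : ℂ) * eA t, z) (eA a, al)
  nb : Nm K ((r : ℂ) * eA t, z) (eA b, be)
  nh : Nm K ((r : ℂ) * eA t, z) (eA h, 0)
  ta : t - π / 3 ≤ a
  ah : a ≤ h
  hb : h ≤ b
  bt : b ≤ t + π / 3
  all : ∀ n, Nm K ((r : ℂ) * eA t, z) n → ∃ s θ : ℝ, 0 < s ∧ a ≤ θ ∧ θ ≤ b ∧ n.1 = (s : ℂ) * eA θ

/-- A full mixed point (helper29's interface). -/
structure Full (K : Set Q3) (t r z s : ℝ) : Prop where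
  rpos : 0 < r
  mem : ((r : ℂ) * eA t, z) ∈ K
  hor : ∃ h, Nm K ((r : ℂ) * eA t, z) (eA h, 0)
  np : Nm K ((r : ℂ) * eA t, z) (eA (t + π / 3), s)
  nm : Nm K ((r : ℂ) * eA t, z) (eA (t - π / 3), s)

/-- Rotation by the angle `t`. -/
noncomputable def ro (t : ℝ) (K : Set Q3) : Set Q3 := {x | (eA (-t) * x.1, x.2) ∈ K}

/-- The mirror image. -/
noncomputable def mi (K : Set Q3) : Set Q3 := {x | ((starRingEnd ℂ) x.1, x.2) ∈ K}

/-- The normal form: `x = (a, X)`, `y = (b e_60, Y)`, `a ≤ b`, `x` is full with upward slope,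
`y` is full with downward slope. -/
structure P6 (K : Set Q3) (h h' a b X Y σ τ : ℝ) : Prop where
  rb : RB 3 K
  top : Top K h
  bot : Bot K h'
  a0 : 0 < a
  ab : a ≤ b
  s0 : 0 < σ
  t0 : 0 < τ
  mx : Mx K ((a : ℂ), X)
  my : Mx K ((b : ℂ) * eA (π / 3), Y)
  nx : Nm K ((a : ℂ), X) (eA (π / 3), σ)
  ny : Nm K ((b : ℂ) * eA (π / 3), Y) (1, -τ)
  nt : ∀ x ∈ K, ∀ ρ t : ℝ, 0 < ρ → x.1 = (ρ : ℂ) * eA t → ¬ Nm K x (eA (t + π / 3), 0)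

/-- The three horizontals `e_60` serve every mixed point except the rotates of `x`. -/
def HS (K : Set Q3) (a X : ℝ) : Prop := ∀ w, Mx K w →
  (∃ j : ℤ, w = ((a : ℂ) * eA (2 * π / 3 * j), X)) ∨
  ∃ j : ℤ, Sv K w (eA (π / 3 + 2 * π / 3 * j), 0)

end Pool.Agent.Lib.MP_5e7226_co.RT
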