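import Pool.Agent.Lib.MP_5e7226_co.RT.MDefs
import Pool.Agent.Lib.MP_5e7226_co.R3Final

/-!
# MP_5e7226_co, RT, row N1: a symmetry gives a rotation by `2π/p` in coordinates
-/

set_option autoImplicit false

open Set Filter Topology
open scoped Real

namespace Pool.Agent.Lib.MP_5e7226_co.RT

/-- From a rotation by any angle: a rotation by `2π/p`. -/
theorem exists_p {K : Set Q3} (hcpt : IsCompact K) (hconv : Convex ℝ K)
    (h0 : (0 : Q3) ∈ interior K) {z₀ : ℂ} (hz : ‖z₀‖ = 1) (hz2 : z₀ ^ 2 ≠ 1)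
    (hinv : RotInv z₀ K) (hinv' : RotInv z₀⁻¹ K) : ∃ p, RB p K := by
  have hpi := Real.pi_pos
  set θ := Complex.arg z₀ with hθ
  have hz₀ : z₀ = eA θ := by
    have := Complex.norm_mul_exp_arg_mul_I z₀
    rw [hz, Complex.ofReal_one, one_mul] at this
    rw [eA_eq_exp, hθ, this]
  have hz₀' : z₀⁻¹ = eA (-θ) := by
    rw [hz₀]
    have e1 : eA θ * eA (-θ) = 1 := by rw [← eA_add, add_neg_cancel, eA_zero]
    exact inv_eq_of_mul_eq_one_right e1
  have hθS : θ ∈ rotGroup K := by
    constructor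
    · intro y hy; rw [← hz₀]; exact hinv y hy
    · intro y hy; rw [← hz₀']; exact hinv' y hy
  have hpiS : 2 * Real.pi ∈ rotGroup K := by
    constructor
    · intro y hy; rw [eA_two_pi, one_mul]; exact hy
    · intro y hy
      have : eA (-(2 * Real.pi)) = 1 := by
        have := eA_add_int 0 (-1)
        rw [eA_zero] at this
        simpa using this
      rw [this, one_mul]; exact hy
  rcases AddSubgroup.dense_or_cyclic (rotGroup K) with hd | ⟨a, ha⟩
  · have huniv : (rotGroup K : Set ℝ) = univ := by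
      rw [← (rotGroup_closed hcpt.isClosed).closure_eq]
      exact hd.closure_eq
    have hmem : 2 * Real.pi / (3 : ℕ) ∈ rotGroup K := by
      have : 2 * Real.pi / (3 : ℕ) ∈ (rotGroup K : Set ℝ) := by rw [huniv]; exact mem_univ _
      exact this
    exact ⟨3, le_refl _, hcpt, hconv, h0, hmem.1⟩
  · have hθS' := hθS
    have hpiS' := hpiS
    rw [ha] at hθS' hpiS'
    obtain ⟨m, hm⟩ := AddSubgroup.mem_closure_singleton.mp hθS'
    obtain ⟨n, hn⟩ := AddSubgroup.mem_closure_singleton.mp hpiS'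
    rw [zsmul_eq_mul] at hm hn
    have hn0 : n ≠ 0 := by
      rintro rfl
      simp at hn
    have hcast : ((n.natAbs : ℕ) : ℝ) = |(n : ℝ)| := by
      rw [← Int.cast_abs, Int.abs_eq_natAbs]; simp
    have hpow : z₀ ^ n.natAbs = 1 := by
      rw [hz₀, eA_pow, ← hm, hcast]
      rcases abs_cases (n : ℝ) with ⟨h, _⟩ | ⟨h, _⟩
      · rw [h]
        have : (n : ℝ) * (m * a) = 0 + 2 * Real.pi * m := by rw [← hn]; ring
        rw [this, eA_add_int, eA_zero]
      · rw [h]
        have : -(n : ℝ) * (m * a) = 0 + 2 * Real.pi * ((-m : ℤ) : ℝ) := by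
          rw [← hn]; push_cast; ring
        rw [this, eA_add_int, eA_zero]
    have h3 : 3 ≤ n.natAbs := by
      have hpos : 0 < n.natAbs := Int.natAbs_pos.mpr hn0
      by_contra hcon
      push Not at hcon
      interval_cases h : n.natAbs
      · apply hz2
        rw [pow_one] at hpow
        rw [hpow]; norm_num
      · exact hz2 hpow
    have haS : a ∈ rotGroup K := by
      rw [ha]; exact AddSubgroup.mem_closure_singleton_self a
    have hmem : 2 * Real.pi / (n.natAbs : ℕ) ∈ rotGroup K := by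
      rw [hcast, ← hn]
      have hn' : (n : ℝ) ≠ 0 := by exact_mod_cast hn0
      rcases abs_cases (n : ℝ) with ⟨h, _⟩ | ⟨h, _⟩
      · rw [h]
        have : (n : ℝ) * a / n = a := by field_simp
        rw [this]; exact haS
      · rw [h]
        have : (n : ℝ) * a / (-n) = -a := by field_simp
        rw [this]; exact neg_mem haS
    exact ⟨n.natAbs, h3, hcpt, hconv, h0, hmem.1⟩

/-- The coordinates of `ℂ × ℝ`. -/
noncomputable def n1E : Q3 ≃ₗ[ℝ] (Fin 3 → ℝ) where
  toFun := ofQ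
  invFun := toQ
  map_add' x y := by
    ext i; fin_cases i <;> simp [ofQ]
  map_smul' c x := by
    ext i; fin_cases i <;> simp [ofQ]
  left_inv x := by
    ext <;> simp [ofQ, toQ]
  right_inv x := by
    ext i; fin_cases i <;> simp [ofQ, toQ]

lemma n1_cb (Φ : Q3 ≃ₗ[ℝ] E3) (o : E3) (K : Set E3) :
    cb (Module.Basis.ofEquivFun (Φ.symm.trans n1E)) o K = {q | o + Φ q ∈ K} := by
  ext q
  show (o + ∑ i, ofQ q i • (Module.Basis.ofEquivFun (Φ.symm.trans n1E)) i ∈ K) ↔ o + Φ q ∈ K
  have h : ∑ i, ofQ q i • (Module.Basis.ofEquivFun (Φ.symm.trans n1E)) i = Φ q := by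
    rw [← Module.Basis.equivFun_symm_apply, Module.Basis.equivFun_ofEquivFun]
    have : (Φ.symm.trans n1E).symm (ofQ q) = Φ (n1E.symm (n1E q)) := rfl
    rw [this, LinearEquiv.symm_apply_apply]
  rw [h]

/-- A linear symmetry with positive determinant and `g ∘ g ≠ id` gives a rotation in coordinates
(`exists_coords`, `pbd_of_image`, `rotGroup`, `AddSubgroup.dense_or_cyclic` as in `sep_of_rot`). -/
theorem exists_RB {K : Set E3} {o : E3} (hconv : Convex ℝ K) (hcomp : IsCompact K)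
    (ho : o ∈ interior K) {g : E3 →ₗ[ℝ] E3} (hg : RotSym K o g) :
    ∃ (b : Module.Basis (Fin 3) ℝ E3) (p : ℕ), RB p (cb b o K) := by
  obtain ⟨hsym, hdet, x₁, hx₁⟩ := hg
  have hinjsurj : Function.Bijective g := by
    have hu : IsUnit (LinearMap.det g) := isUnit_iff_ne_zero.2 hdet.ne'
    exact (Module.End.isUnit_iff g).1 ((LinearMap.isUnit_iff_isUnit_det g).2 hu)
  set K₁ : Set E3 := {x | o + x ∈ K} with hK₁
  have hK₁e : K₁ = (Homeomorph.addLeft o) ⁻¹' K := rfl
  have hK₁c : IsCompact K₁ := by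
    rw [hK₁e]; exact (Homeomorph.addLeft o).isCompact_preimage.2 hcomp
  have hK₁i : (0 : E3) ∈ interior K₁ := by
    rw [hK₁e, ← (Homeomorph.addLeft o).preimage_interior]
    simpa using ho
  have hgK : g '' K₁ = K₁ := by
    ext y
    constructor
    · rintro ⟨x, hx, rfl⟩
      exact (hsym x).1 hx
    · intro hy
      obtain ⟨x, rfl⟩ := hinjsurj.2 y
      exact ⟨x, (hsym x).2 hy, rfl⟩
  have hdim : Module.finrank ℝ E3 = 3 := by simp
  have hA2 : g ^ 2 ≠ 1 := by
    intro h
    apply hx₁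
    have := congrArg (fun f : E3 →ₗ[ℝ] E3 => f x₁) h
    simpa [pow_succ] using this
  obtain ⟨Φ, z₀, hz1, hz2, hΦ⟩ := exists_coords hdim (pbd_of_image hK₁c hK₁i hgK) hdet hA2
  have hz0 : z₀ ≠ 0 := by
    intro h; rw [h] at hz1; simp at hz1
  refine ⟨Module.Basis.ofEquivFun (Φ.symm.trans n1E), ?_⟩
  rw [n1_cb]
  let Ψ := Φ.toContinuousLinearEquiv
  have hC : {q : Q3 | o + Φ q ∈ K} = Ψ.toHomeomorph ⁻¹' K₁ := rfl
  apply exists_p _ _ _ hz1 hz2
  · intro q hq
    have h1 : o + Φ q ∈ K := hq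
    show o + Φ (z₀ * q.1, q.2) ∈ K
    rw [hΦ]
    exact (hsym _).1 h1
  · intro q hq
    have h1 : o + Φ q ∈ K := hq
    show o + Φ (z₀⁻¹ * q.1, q.2) ∈ K
    rw [hsym, ← hΦ]
    simp only
    rw [← mul_assoc, mul_inv_cancel₀ hz0, one_mul]
    exact h1
  · rw [hC]; exact Ψ.toHomeomorph.isCompact_preimage.2 hK₁c
  · have h1 : Convex ℝ K₁ := by
      rw [hK₁e]
      have := hconv.translate_preimage_right o
      exact this
    exact h1.linear_preimage Φ.toLinearMap
  · rw [hC, ← Ψ.toHomeomorph.preimage_interior]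
    simpa using hK₁i

end Pool.Agent.Lib.MP_5e7226_co.RT
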