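import Pool.Agent.Lib.MP_5e7226_co.RT.MDefs

/-!
# MP_5e7226_co, RT: the polar body of a rotation body (row N2, `RB_pol`)
-/

set_option autoImplicit false

open Set Filter Topology
open scoped Real

namespace Pool.Agent.Lib.MP_5e7226_co.RT

theorem n2_rot_iter {p : ℕ} {K : Set Q3} (hK : RB p K) {x : Q3} (hx : x ∈ K) (k : ℕ) :
    ((eA (2 * Real.pi / p * (k : ℝ)) * x.1, x.2) : Q3) ∈ K := by
  induction k with
  | zero => simpa [eA_zero] using hx
  | succ n ih =>
    have h1 := hK.rot _ ih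
    have h2 : eA (2 * Real.pi / p * ((n + 1 : ℕ) : ℝ)) =
        eA (2 * Real.pi / p) * eA (2 * Real.pi / p * (n : ℝ)) := by
      rw [← eA_add]
      congr 1
      push_cast
      ring
    rw [h2, mul_assoc]
    exact h1

theorem n2_pr_le (u x : Q3) : pr u x ≤ 2 * (‖u‖ * ‖x‖) := by
  have h1 : dotC u.1 x.1 ≤ ‖u.1‖ * ‖x.1‖ := dotC_le _ _
  have h2 : ‖u.1‖ ≤ ‖u‖ := norm_fst_le u
  have h3 : ‖x.1‖ ≤ ‖x‖ := norm_fst_le x
  have h4 : ‖u.2‖ ≤ ‖u‖ := norm_snd_le u
  have h5 : ‖x.2‖ ≤ ‖x‖ := norm_snd_le x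
  have h6 : ‖u.1‖ * ‖x.1‖ ≤ ‖u‖ * ‖x‖ := mul_le_mul h2 h3 (norm_nonneg _) (norm_nonneg _)
  have h7 : u.2 * x.2 ≤ ‖u.2‖ * ‖x.2‖ := by
    rw [Real.norm_eq_abs, Real.norm_eq_abs, ← abs_mul]
    exact le_abs_self _
  have h8 : ‖u.2‖ * ‖x.2‖ ≤ ‖u‖ * ‖x‖ := mul_le_mul h4 h5 (norm_nonneg _) (norm_nonneg _)
  unfold pr
  linarith

theorem n2_pr_continuous (x : Q3) : Continuous fun u : Q3 => pr u x := by
  unfold pr dotC
  fun_prop

/-- A small ball inside of `K` bounds the polar body. -/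
theorem n2_bound {K : Set Q3} (h0 : (0 : Q3) ∈ interior K) :
    ∃ C : ℝ, ∀ u ∈ pol K, ‖u‖ ≤ C := by
  obtain ⟨δ, hδ, hball⟩ := Metric.mem_nhds_iff.1 (mem_interior_iff_mem_nhds.1 h0)
  refine ⟨2 / δ, fun u hu => ?_⟩
  have e1 : δ / 2 * ‖u.1‖ ≤ 1 := by
    by_cases h1 : u.1 = 0
    · rw [h1]; simp
    · have hpos : 0 < ‖u.1‖ := norm_pos_iff.2 h1
      have hy : (((δ / 2 / ‖u.1‖ : ℝ) : ℂ) * u.1, (0 : ℝ)) ∈ K := by
        apply hball
        rw [mem_ball_zero_iff, Prod.norm_def]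
        refine max_lt ?_ (by simpa using hδ)
        show ‖((δ / 2 / ‖u.1‖ : ℝ) : ℂ) * u.1‖ < δ
        rw [norm_mul, Complex.norm_real, Real.norm_eq_abs, abs_of_pos (by positivity),
          div_mul_cancel₀ _ hpos.ne']
        linarith
      have h2 := hu _ hy
      simp only [pr, mul_zero, add_zero] at h2
      rw [dotC_ofReal_right, dotC_self] at h2
      have h3 : δ / 2 / ‖u.1‖ * ‖u.1‖ ^ 2 = δ / 2 * ‖u.1‖ := by
        field_simp
      rwa [h3] at h2
  have e2 : δ / 2 * ‖u.2‖ ≤ 1 := by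
    have hy : ∀ c : ℝ, |c| ≤ δ / 2 → ((0 : ℂ), c) ∈ K := by
      intro c hc
      apply hball
      rw [mem_ball_zero_iff, Prod.norm_def]
      refine max_lt (by simpa using hδ) ?_
      show ‖c‖ < δ
      rw [Real.norm_eq_abs]
      linarith
    rcases le_total 0 u.2 with h1 | h1
    · have h2 := hu _ (hy (δ / 2) (by rw [abs_of_pos (by positivity)]))
      simp only [pr, dotC_zero_right, zero_add] at h2
      rw [Real.norm_eq_abs, abs_of_nonneg h1]
      linarith
    · have h2 := hu _ (hy (-(δ / 2)) (by rw [abs_neg, abs_of_pos (by positivity)]))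
      simp only [pr, dotC_zero_right, zero_add] at h2
      rw [Real.norm_eq_abs, abs_of_nonpos h1]
      linarith
  have h3 : ‖u‖ = max ‖u.1‖ ‖u.2‖ := Prod.norm_def u
  rw [h3]
  refine max_le ?_ ?_
  · rw [le_div_iff₀ hδ]
    linarith
  · rw [le_div_iff₀ hδ]
    linarith

theorem RB_pol {p : ℕ} {K : Set Q3} (hK : RB p K) : RB p (pol K) := by
  have hp3 := hK.p3
  have hp0 : (0 : ℝ) < p := by
    have : (3 : ℝ) ≤ p := by exact_mod_cast hp3
    linarith
  refine ⟨hp3, ?_, ?_, ?_, ?_⟩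
  · -- compact
    obtain ⟨C, hC⟩ := n2_bound hK.zero
    have hcl : IsClosed (pol K) := by
      have h1 : pol K = ⋂ x ∈ K, {u : Q3 | pr u x ≤ 1} := by
        ext u
        simp [pol]
      rw [h1]
      exact isClosed_biInter fun x _ => isClosed_le (n2_pr_continuous x) continuous_const
    refine Metric.isCompact_of_isClosed_isBounded hcl ?_
    refine (Metric.isBounded_closedBall (x := (0 : Q3)) (r := C)).subset fun u hu => ?_
    rw [mem_closedBall_zero_iff]
    exact hC u hu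
  · -- convex
    intro u hu v hv a b ha hb hab x hx
    have h1 := hu x hx
    have h2 := hv x hx
    have h3 : pr (a • u + b • v) x = a * pr u x + b * pr v x := by
      simp only [pr, dotC, Prod.fst_add, Prod.snd_add, Prod.smul_fst, Prod.smul_snd,
        Complex.add_re, Complex.add_im, Complex.real_smul, Complex.mul_re, Complex.mul_im,
        Complex.ofReal_re, Complex.ofReal_im, smul_eq_mul]
      ring
    rw [h3]
    calc a * pr u x + b * pr v x ≤ a * 1 + b * 1 :=
          add_le_add (mul_le_mul_of_nonneg_left h1 ha) (mul_le_mul_of_nonneg_left h2 hb)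
      _ = 1 := by rw [mul_one, mul_one, hab]
  · -- the origin
    obtain ⟨R, hR⟩ := hK.comp.isBounded.exists_norm_le
    rw [mem_interior_iff_mem_nhds, Metric.mem_nhds_iff]
    refine ⟨1 / (2 * (|R| + 1)), by positivity, fun u hu x hx => ?_⟩
    rw [mem_ball_zero_iff] at hu
    have h1 := n2_pr_le u x
    have h2 : ‖x‖ ≤ |R| + 1 := (hR x hx).trans ((le_abs_self R).trans (by linarith))
    have h3 : ‖u‖ * ‖x‖ ≤ 1 / (2 * (|R| + 1)) * (|R| + 1) :=
      mul_le_mul hu.le h2 (norm_nonneg _) (by positivity)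
    have h4 : 1 / (2 * (|R| + 1)) * (|R| + 1) = 1 / 2 := by
      have : |R| + 1 ≠ 0 := by positivity
      field_simp
    rw [h4] at h3
    linarith
  · -- the rotation
    intro u hu x hx
    have h1 := n2_rot_iter hK hx (p - 1)
    have h2 := hu _ h1
    have h3 : eA (2 * Real.pi / p) * (eA (2 * Real.pi / p * ((p - 1 : ℕ) : ℝ)) * x.1) = x.1 := by
      rw [← mul_assoc, ← eA_add]
      have h4 : 2 * Real.pi / p + 2 * Real.pi / p * ((p - 1 : ℕ) : ℝ) = 2 * Real.pi := by
        rw [Nat.cast_sub (by omega)]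
        push_cast
        field_simp
        ring
      rw [h4]
      have h5 : eA (2 * Real.pi) = 1 := by
        apply Complex.ext
        · simp
        · simp
      rw [h5, one_mul]
    have h4 : pr ((eA (2 * Real.pi / p) * u.1, u.2) : Q3) x =
        pr u (eA (2 * Real.pi / p * ((p - 1 : ℕ) : ℝ)) * x.1, x.2) := by
      unfold pr
      have h5 : dotC (eA (2 * Real.pi / p) * u.1) x.1 =
          dotC u.1 (eA (2 * Real.pi / p * ((p - 1 : ℕ) : ℝ)) * x.1) := by
        conv_lhs => rw [← h3]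
        rw [dotC_mul_mul, norm_eA, one_pow, one_mul]
      show dotC (eA (2 * Real.pi / p) * u.1) x.1 + u.2 * x.2 = _
      rw [h5]
    rw [h4]
    exact h2

end Pool.Agent.Lib.MP_5e7226_co.RT
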