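import Pool.Agent.Lib.MP_5e7226_co.RT.MDefs
import Pool.Agent.Lib.MP_5e7226_co.HX.Pts

/-!
# MP_5e7226_co, RT: rows N2 (illum_of_served, sep_of_served)
-/

set_option autoImplicit false

open Set Filter Topology
open scoped Real
open Pool.Agent.Lib.MP_5e7226_co.DX (co fu GK swp Works pairing sum_co co_sum)

namespace Pool.Agent.Lib.MP_5e7226_co.RT

theorem n2_ofQ_toQ (x : Fin 3 → ℝ) : ofQ (toQ x) = x := by
  funext i
  fin_cases i <;> simp [ofQ, toQ]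

theorem n2_pr (f x : Fin 3 → ℝ) : pr (toQ f) (toQ x) = ∑ i, f i * x i := by
  simp [pr, toQ, dotC, Fin.sum_univ_three]

theorem n2_pr_ofQ (f : Fin 3 → ℝ) (q : Q3) : pr (toQ f) q = ∑ i, f i * ofQ q i := by
  simp [pr, toQ, ofQ, dotC, Fin.sum_univ_three]

theorem n2_pr_comm (n x : Q3) : pr n x = pr x n := by
  simp only [pr, dotC]; ring

theorem n2_mem {b : Module.Basis (Fin 3) ℝ E3} {o : E3} {K : Set E3} {p : E3} (hp : p ∈ K) :
    toQ (co b o p) ∈ cb b o K := by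
  simp only [cb, Set.mem_ofPred_eq, n2_ofQ_toQ]
  rw [sum_co]
  simpa using hp

theorem n2_fun {b : Module.Basis (Fin 3) ℝ E3} {o : E3} (f : E3 →L[ℝ] ℝ) (y : Q3) :
    pr (toQ (fu b f)) y = f (o + ∑ i, ofQ y i • b i) - f o := by
  rw [n2_pr_ofQ, pairing b o f, co_sum]

theorem n2_one {b : Module.Basis (Fin 3) ℝ E3} {o : E3} {K : Set E3} {x u : Fin 3 → ℝ}
    (h : (x, u) ∈ GK b o K) : pr (toQ u) (toQ x) = 1 := by
  rw [n2_pr]
  exact HX.one_GK b _ h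

theorem n2_pr_zero (x : Q3) : pr 0 x = 0 := by
  simp [pr, dotC]

theorem n2_nm {b : Module.Basis (Fin 3) ℝ E3} {o : E3} {K : Set E3} {x u : Fin 3 → ℝ}
    (h : (x, u) ∈ GK b o K) : Nm (cb b o K) (toQ x) (toQ u) := by
  have h1 := n2_one h
  refine ⟨?_, ?_⟩
  · intro h0
    rw [h0, n2_pr_zero] at h1
    exact zero_ne_one h1
  · intro y hy
    rw [h1]
    obtain ⟨p, hp, f, hf, _, heq⟩ := h
    obtain ⟨rfl, rfl⟩ := Prod.mk.inj heq
    rw [n2_fun (o := o)]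
    exact hf _ hy

theorem n2_pol {b : Module.Basis (Fin 3) ℝ E3} {o : E3} {K : Set E3} {x u : Fin 3 → ℝ}
    (h : (x, u) ∈ GK b o K) : toQ u ∈ pol (cb b o K) := by
  intro y hy
  have h1 := n2_one h
  have h2 := (n2_nm h).2 y hy
  rw [h1] at h2
  exact h2

theorem n2_cb {b : Module.Basis (Fin 3) ℝ E3} {o : E3} {K : Set E3} {x u : Fin 3 → ℝ}
    (h : (x, u) ∈ GK b o K) : toQ x ∈ cb b o K := by
  obtain ⟨p, hp, f, hf, _, heq⟩ := h
  obtain ⟨rfl, rfl⟩ := Prod.mk.inj heq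
  exact n2_mem hp

theorem n2_nm_pol {b : Module.Basis (Fin 3) ℝ E3} {o : E3} {K : Set E3} {x u : Fin 3 → ℝ}
    (h : (x, u) ∈ GK b o K) : Nm (pol (cb b o K)) (toQ u) (toQ x) := by
  have h1 := n2_one h
  refine ⟨?_, ?_⟩
  · intro h0
    rw [h0, n2_pr_comm, n2_pr_zero] at h1
    exact zero_ne_one h1
  · intro m hm
    rw [n2_pr_comm (toQ x) (toQ u), h1, n2_pr_comm]
    exact hm _ (n2_cb h)

theorem illum_of_served {K : Set E3} {o : E3} {b : Module.Basis (Fin 3) ℝ E3} (hK : HX.Body o K) {N : ℕ}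
    (h : Served (cb b o K) N) : RG.IlluminatedBy K N := by
  obtain ⟨v, hv⟩ := h
  refine HX.points_of_dirs hK.compact (HX.illum_dirs (b := b) hK (fun i => ofQ (v i)) ?_)
  rintro ⟨x, u⟩ hq
  obtain ⟨i, hi⟩ := hv _ (n2_cb hq)
  refine ⟨i, ?_⟩
  intro u' hu'
  have h1 := hi _ (n2_nm hu')
  rw [n2_pr_ofQ] at h1
  exact h1

theorem sep_of_served {K : Set E3} {o : E3} {b : Module.Basis (Fin 3) ℝ E3} (hK : HX.Body o K) {N : ℕ}
    (h : Served (pol (cb b o K)) N) : RG.SeparatedBy K o N := by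
  obtain ⟨v, hv⟩ := h
  refine sep_to_hyperplanes hK.compact o (HX.sep_of_works (b := b) hK (fun i => ofQ (v i)) ?_ (by simp))
  rintro ⟨u, x⟩ hq
  obtain ⟨i, hi⟩ := hv _ (n2_pol hq)
  refine ⟨i, ?_⟩
  intro x' hx'
  have h1 := hi _ (n2_nm_pol hx')
  rw [n2_pr_ofQ] at h1
  exact h1

end Pool.Agent.Lib.MP_5e7226_co.RT
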