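import Pool.Agent.Lib.MP_5e7226_co.RT.MDefs

/-! Row N3 (helper42): affine cubes. -/

set_option autoImplicit false

open Set Filter Topology
open scoped Real

namespace Pool.Agent.Lib.MP_5e7226_co.RT

/-- Coordinates. -/
noncomputable def n3_L (b : Module.Basis (Fin 3) ℝ E3) : Q3 →ₗ[ℝ] E3 where
  toFun q := ∑ i, ofQ q i • b i
  map_add' p q := by
    simp only [Fin.sum_univ_three, ofQ, Matrix.cons_val_zero, Matrix.cons_val_one, Matrix.cons_val,
      Prod.fst_add, Prod.snd_add, Complex.add_re, Complex.add_im, add_smul]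
    abel
  map_smul' c q := by
    simp only [Fin.sum_univ_three, ofQ, Matrix.cons_val_zero, Matrix.cons_val_one, Matrix.cons_val,
      Prod.smul_fst, Prod.smul_snd, Complex.smul_re, Complex.smul_im, smul_eq_mul, smul_add,
      smul_smul, RingHom.id_apply]

lemma n3_ofQ_toQ (x : Fin 3 → ℝ) : ofQ (toQ x) = x := by
  funext i
  fin_cases i <;> rfl

lemma n3_toQ_ofQ (q : Q3) : toQ (ofQ q) = q := rfl

lemma n3_inj (b : Module.Basis (Fin 3) ℝ E3) : Function.Injective (n3_L b) := by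
  intro p q h
  have h1 : b.equivFun.symm (ofQ p) = b.equivFun.symm (ofQ q) := by
    rw [Module.Basis.equivFun_symm_apply, Module.Basis.equivFun_symm_apply]
    exact h
  have h2 : ofQ p = ofQ q := b.equivFun.symm.injective h1
  rw [← n3_toQ_ofQ p, ← n3_toQ_ofQ q, h2]

lemma n3_surj (b : Module.Basis (Fin 3) ℝ E3) : Function.Surjective (n3_L b) := by
  intro x
  refine ⟨toQ (b.equivFun x), ?_⟩
  show ∑ i, ofQ (toQ (b.equivFun x)) i • b i = x
  rw [n3_ofQ_toQ]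
  exact b.sum_equivFun x

set_option linter.unusedVariables false in
theorem cube_of_par {K : Set E3} {o : E3} {b : Module.Basis (Fin 3) ℝ E3} (hK : HX.Body o K)
    (h : Par (cb b o K)) : RG.IsAffineCube K := by
  obtain ⟨c, v₁, v₂, v₃, hli, hE⟩ := h
  refine ⟨o + n3_L b c, ![n3_L b v₁, n3_L b v₂, n3_L b v₃], ?_, ?_⟩
  · have h1 := hli.map' (n3_L b) (LinearMap.ker_eq_bot.2 (n3_inj b))
    have h2 : (⇑(n3_L b) ∘ ![v₁, v₂, v₃]) = ![n3_L b v₁, n3_L b v₂, n3_L b v₃] := by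
      funext i
      fin_cases i <;> rfl
    rw [h2] at h1
    exact h1
  · ext x
    obtain ⟨q, hq⟩ := n3_surj b (x - o)
    have hx : x = o + n3_L b q := by rw [hq]; abel
    have h2 : x ∈ K ↔ q ∈ cb b o K := by
      rw [hx]; rfl
    rw [h2, hE]
    constructor
    · rintro ⟨s₁, s₂, s₃, h₁, h₂, h₃, he⟩
      refine ⟨![s₁, s₂, s₃], ?_, ?_⟩
      · intro i
        fin_cases i
        · exact h₁
        · exact h₂
        · exact h₃
      · rw [hx, he]
        simp only [map_add, map_smul, Fin.sum_univ_three, Matrix.cons_val_zero, Matrix.cons_val_one,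
          Matrix.cons_val]
        abel
    · rintro ⟨s, hs, he⟩
      refine ⟨s 0, s 1, s 2, hs 0, hs 1, hs 2, ?_⟩
      apply n3_inj b
      rw [hq, he]
      simp only [map_add, map_smul, Fin.sum_univ_three, Matrix.cons_val_zero, Matrix.cons_val_one,
        Matrix.cons_val]
      abel

/-- The sign. -/
noncomputable def n3_e (s : ℝ) : ℝ := if 0 ≤ s then 1 else -1

lemma n3_sign {s a : ℝ} (h : ∀ s', |s'| ≤ 1 → s' * a ≤ s * a) : 0 ≤ n3_e s * a := by
  unfold n3_e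
  split_ifs with h0
  · have h1 := h (-1) (by norm_num)
    nlinarith
  · have h1 := h 1 (by norm_num)
    nlinarith

lemma n3_pr_lin (n : Q3) : ∃ f : Q3 →ₗ[ℝ] ℝ, ∀ x, f x = pr n x := by
  refine ⟨{ toFun := fun x => pr n x, map_add' := ?_, map_smul' := ?_ }, fun x => rfl⟩
  · intro x y
    simp [pr, dotC]; ring
  · intro c x
    simp [pr, dotC]; ring

lemma n3_pr_self {n : Q3} (h : pr n n = 0) : n = 0 := by
  unfold pr dotC at h
  have h1 : n.1.re = 0 := by nlinarith [sq_nonneg n.1.re, sq_nonneg n.1.im, sq_nonneg n.2]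
  have h2 : n.1.im = 0 := by nlinarith [sq_nonneg n.1.re, sq_nonneg n.1.im, sq_nonneg n.2]
  have h3 : n.2 = 0 := by nlinarith [sq_nonneg n.1.re, sq_nonneg n.1.im, sq_nonneg n.2]
  exact Prod.ext (Complex.ext h1 h2) h3

theorem served8_of_par {K : Set Q3} (h : Par K) : Served K 8 := by
  obtain ⟨c, v₁, v₂, v₃, hli, hE⟩ := h
  have key : ∀ x ∈ K, ∃ a₁ a₂ a₃ : ℝ, (a₁ = 1 ∨ a₁ = -1) ∧ (a₂ = 1 ∨ a₂ = -1) ∧ (a₃ = 1 ∨ a₃ = -1) ∧
      Sv K x (a₁ • v₁ + a₂ • v₂ + a₃ • v₃) := by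
    intro x hx
    have hx' := hx
    rw [hE] at hx'
    obtain ⟨s₁, s₂, s₃, h₁, h₂, h₃, he⟩ := hx'
    refine ⟨n3_e s₁, n3_e s₂, n3_e s₃, by unfold n3_e; split_ifs <;> simp,
      by unfold n3_e; split_ifs <;> simp, by unfold n3_e; split_ifs <;> simp, ?_⟩
    intro n hn
    obtain ⟨f, hf⟩ := n3_pr_lin n
    have hmem : ∀ t₁ t₂ t₃ : ℝ, |t₁| ≤ 1 → |t₂| ≤ 1 → |t₃| ≤ 1 →
        t₁ * f v₁ + t₂ * f v₂ + t₃ * f v₃ ≤ s₁ * f v₁ + s₂ * f v₂ + s₃ * f v₃ := by
      intro t₁ t₂ t₃ k₁ k₂ k₃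
      have h1 : c + t₁ • v₁ + t₂ • v₂ + t₃ • v₃ ∈ K := by
        rw [hE]; exact ⟨t₁, t₂, t₃, k₁, k₂, k₃, rfl⟩
      have h2 := hn.2 _ h1
      rw [← hf, ← hf, he] at h2
      simp only [map_add, map_smul, smul_eq_mul] at h2
      linarith
    have p1 : 0 ≤ n3_e s₁ * f v₁ := n3_sign fun s' hs' => by
      have := hmem s' s₂ s₃ hs' h₂ h₃; linarith
    have p2 : 0 ≤ n3_e s₂ * f v₂ := n3_sign fun s' hs' => by
      have := hmem s₁ s' s₃ h₁ hs' h₃; linarith
    have p3 : 0 ≤ n3_e s₃ * f v₃ := n3_sign fun s' hs' => by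
      have := hmem s₁ s₂ s' h₁ h₂ hs'; linarith
    rw [← hf]
    simp only [map_add, map_smul, smul_eq_mul]
    by_contra hneg
    have hz1 : n3_e s₁ * f v₁ = 0 := by linarith
    have hz2 : n3_e s₂ * f v₂ = 0 := by linarith
    have hz3 : n3_e s₃ * f v₃ = 0 := by linarith
    have hne : ∀ s : ℝ, n3_e s ≠ 0 := by
      intro s; unfold n3_e; split_ifs <;> norm_num
    have z1 : f v₁ = 0 := (mul_eq_zero.1 hz1).resolve_left (hne _)
    have z2 : f v₂ = 0 := (mul_eq_zero.1 hz2).resolve_left (hne _)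
    have z3 : f v₃ = 0 := (mul_eq_zero.1 hz3).resolve_left (hne _)
    have hcard : Fintype.card (Fin 3) = Module.finrank ℝ Q3 := by
      rw [Module.finrank_prod, Complex.finrank_real_complex, Module.finrank_self]
      rfl
    let B := basisOfLinearIndependentOfCardEqFinrank hli hcard
    have hf0 : f = 0 := by
      apply B.ext
      intro i
      rw [coe_basisOfLinearIndependentOfCardEqFinrank]
      fin_cases i
      · simpa using z1
      · simpa using z2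
      · simpa using z3
    apply hn.1
    apply n3_pr_self
    rw [← hf, hf0]
    rfl
  refine ⟨fun i : Fin 8 => (![1, 1, 1, 1, -1, -1, -1, -1] i : ℝ) • v₁ +
    (![1, 1, -1, -1, 1, 1, -1, -1] i : ℝ) • v₂ + (![1, -1, 1, -1, 1, -1, 1, -1] i : ℝ) • v₃, ?_⟩
  intro x hx
  obtain ⟨a₁, a₂, a₃, h1, h2, h3, hs⟩ := key x hx
  rcases h1 with rfl | rfl <;> rcases h2 with rfl | rfl <;> rcases h3 with rfl | rfl
  · exact ⟨0, hs⟩
  · exact ⟨1, hs⟩
  · exact ⟨2, hs⟩
  · exact ⟨3, hs⟩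
  · exact ⟨4, hs⟩
  · exact ⟨5, hs⟩
  · exact ⟨6, hs⟩
  · exact ⟨7, hs⟩

end Pool.Agent.Lib.MP_5e7226_co.RT
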