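import Pool.Agent.Lib.MP_5e7226_co.RT.MDefs

set_option autoImplicit false

/-! Row N3, `cross_of_par` (helper78). -/

open Set Filter Topology

namespace Pool.Agent.Lib.MP_5e7226_co.RT

section N3c

private lemma n3c_pr (n x : Q3) : pr n x = n.1.re * x.1.re + n.1.im * x.1.im + n.2 * x.2 := rfl

private lemma n3c_comm (n x : Q3) : pr n x = pr x n := by
  rw [n3c_pr, n3c_pr]
  ring

private lemma n3c_add (n m x : Q3) : pr (n + m) x = pr n x + pr m x := by
  simp only [n3c_pr, Prod.fst_add, Prod.snd_add, Complex.add_re, Complex.add_im]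
  ring

private lemma n3c_smul (a : ℝ) (n x : Q3) : pr (a • n) x = a * pr n x := by
  simp only [n3c_pr, Prod.smul_fst, Prod.smul_snd, Complex.real_smul, Complex.mul_re,
    Complex.mul_im, Complex.ofReal_re, Complex.ofReal_im, smul_eq_mul]
  ring

private lemma n3c_ext {y y' : Q3} (h : ∀ x, pr y x = pr y' x) : y = y' := by
  have h1 := h (1, 0)
  have h2 := h (Complex.I, 0)
  have h3 := h (0, 1)
  simp only [n3c_pr, Complex.one_re, Complex.one_im, Complex.I_re, Complex.I_im,
    Complex.zero_re, Complex.zero_im, mul_one, mul_zero, add_zero, zero_add] at h1 h2 h3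
  exact Prod.ext (Complex.ext h1 h2) h3

/-- The linear map of the coordinates. -/
private noncomputable def n3c_L (b : Module.Basis (Fin 3) ℝ E3) : Q3 →ₗ[ℝ] E3 where
  toFun q := ∑ i, ofQ q i • b i
  map_add' p q := by
    simp only [Fin.sum_univ_three]
    show (p.1.re + q.1.re) • b 0 + (p.1.im + q.1.im) • b 1 + (p.2 + q.2) • b 2 =
      (p.1.re • b 0 + p.1.im • b 1 + p.2 • b 2) + (q.1.re • b 0 + q.1.im • b 1 + q.2 • b 2)
    module
  map_smul' a q := by
    simp only [Fin.sum_univ_three, RingHom.id_apply]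
    have h1 : (a • q).1.re = a * q.1.re := by simp
    have h2 : (a • q).1.im = a * q.1.im := by simp
    have h3 : (a • q).2 = a * q.2 := by simp
    show (a • q).1.re • b 0 + (a • q).1.im • b 1 + (a • q).2 • b 2 =
      a • (q.1.re • b 0 + q.1.im • b 1 + q.2 • b 2)
    rw [h1, h2, h3]
    module

private lemma n3c_L_apply (b : Module.Basis (Fin 3) ℝ E3) (q : Q3) :
    n3c_L b q = q.1.re • b 0 + q.1.im • b 1 + q.2 • b 2 := by
  show ∑ i, ofQ q i • b i = _
  simp only [Fin.sum_univ_three]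
  rfl

private lemma n3c_mem (b : Module.Basis (Fin 3) ℝ E3) (o : E3) (K : Set E3) (q : Q3) :
    q ∈ cb b o K ↔ o + n3c_L b q ∈ K := Iff.rfl

private lemma n3c_surj (b : Module.Basis (Fin 3) ℝ E3) (x : E3) : ∃ q, n3c_L b q = x := by
  refine ⟨(⟨b.repr x 0, b.repr x 1⟩, b.repr x 2), ?_⟩
  rw [n3c_L_apply]
  have h := b.sum_repr x
  rw [Fin.sum_univ_three] at h
  exact h

private lemma n3c_inj (b : Module.Basis (Fin 3) ℝ E3) {q : Q3} (h : n3c_L b q = 0) : q = 0 := by
  rw [n3c_L_apply] at h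
  have h1 := Fintype.linearIndependent_iff.1 b.linearIndependent ![q.1.re, q.1.im, q.2] (by
    rw [Fin.sum_univ_three]
    exact h)
  exact Prod.ext (Complex.ext (h1 0) (h1 1)) (h1 2)

private lemma n3c_rep (b : Module.Basis (Fin 3) ℝ E3) (f : E3 →L[ℝ] ℝ) (q : Q3) :
    pr (⟨f (b 0), f (b 1)⟩, f (b 2)) q = f (n3c_L b q) := by
  rw [n3c_L_apply, n3c_pr, map_add, map_add, map_smul, map_smul, map_smul]
  simp only [smul_eq_mul]
  ring

/-- Half of the bipolar theorem. -/
private lemma n3c_bip {K : Set E3} {o : E3} (b : Module.Basis (Fin 3) ℝ E3) (hK : HX.Body o K)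
    {y : Q3} (h : ∀ u ∈ pol (cb b o K), pr u y ≤ 1) : o + n3c_L b y ∈ K := by
  by_contra hx
  obtain ⟨f, c, hf1, hf2⟩ := geometric_hahn_banach_closed_point hK.convex hK.compact.isClosed hx
  have ho := hf1 o (interior_subset hK.ho)
  have hp : 0 < c - f o := by linarith
  set g : E3 →L[ℝ] ℝ := (c - f o)⁻¹ • f with hg
  have h1 : ((⟨g (b 0), g (b 1)⟩, g (b 2)) : Q3) ∈ pol (cb b o K) := by
    intro x hx
    rw [n3c_rep, hg]
    show (c - f o)⁻¹ * f (n3c_L b x) ≤ 1
    have h2 := hf1 _ ((n3c_mem b o K x).1 hx)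
    rw [map_add] at h2
    rw [inv_mul_le_iff₀ hp]
    linarith
  have h2 := h _ h1
  rw [n3c_rep, hg] at h2
  have h3 : (c - f o)⁻¹ * f (n3c_L b y) ≤ 1 := h2
  rw [inv_mul_le_iff₀ hp] at h3
  rw [map_add] at hf2
  linarith

private lemma n3c_unb {K : Set E3} {o : E3} (b : Module.Basis (Fin 3) ℝ E3) (hK : HX.Body o K)
    {y : Q3} (h : ∀ t : ℝ, 0 < t → o + n3c_L b (t • y) ∈ K) : y = 0 := by
  by_contra hy
  have h0 : n3c_L b y ≠ 0 := fun h0 => hy (n3c_inj b h0)
  have hn : 0 < ‖n3c_L b y‖ := norm_pos_iff.2 h0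
  obtain ⟨R, hR⟩ := hK.compact.isBounded.exists_norm_le
  have ht : 0 < (|R| + ‖o‖ + 1) / ‖n3c_L b y‖ := by positivity
  have h1 := hR _ (h _ ht)
  rw [map_smul] at h1
  have h2 : ‖((|R| + ‖o‖ + 1) / ‖n3c_L b y‖) • n3c_L b y‖ = |R| + ‖o‖ + 1 := by
    rw [norm_smul, Real.norm_of_nonneg ht.le, div_mul_cancel₀ _ hn.ne']
  have h3 : ‖((|R| + ‖o‖ + 1) / ‖n3c_L b y‖) • n3c_L b y‖ ≤
      ‖o + ((|R| + ‖o‖ + 1) / ‖n3c_L b y‖) • n3c_L b y‖ + ‖o‖ := by
    have := norm_sub_le (o + ((|R| + ‖o‖ + 1) / ‖n3c_L b y‖) • n3c_L b y) o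
    rwa [add_sub_cancel_left] at this
  have h4 := le_abs_self R
  linarith

/-- The dual basis. -/
private lemma n3c_dual {v : Fin 3 → Q3} (hv : LinearIndependent ℝ v) :
    ∃ w : Fin 3 → Q3, (∀ i j, pr (w i) (v j) = if i = j then 1 else 0) ∧
      ∀ y, y = ∑ i, pr y (v i) • w i := by
  have hcard : Fintype.card (Fin 3) = Module.finrank ℝ Q3 := by
    rw [Module.finrank_prod, Complex.finrank_real_complex, Module.finrank_self, Fintype.card_fin]
  set B := basisOfLinearIndependentOfCardEqFinrank hv hcard with hB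
  have hBv : ∀ i, B i = v i := fun i => by
    rw [hB, coe_basisOfLinearIndependentOfCardEqFinrank]
  have hw : ∀ (i : Fin 3) (x : Q3),
      pr (⟨B.coord i (1, 0), B.coord i (Complex.I, 0)⟩, B.coord i (0, 1)) x = B.coord i x := by
    intro i x
    have h1 : x = x.1.re • ((1 : ℂ), (0 : ℝ)) + x.1.im • (Complex.I, (0 : ℝ)) +
        x.2 • ((0 : ℂ), (1 : ℝ)) := by
      refine Prod.ext (Complex.ext ?_ ?_) ?_ <;> simp
    conv_rhs => rw [h1]
    rw [map_add, map_add, map_smul, map_smul, map_smul, n3c_pr]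
    simp only [smul_eq_mul]
    ring
  refine ⟨fun i => (⟨B.coord i (1, 0), B.coord i (Complex.I, 0)⟩, B.coord i (0, 1)), ?_, ?_⟩
  · intro i j
    rw [hw, ← hBv j, Module.Basis.coord_apply, Module.Basis.repr_self, Finsupp.single_apply]
    simp only [eq_comm]
  · intro y
    refine n3c_ext fun x => ?_
    rw [Fin.sum_univ_three, n3c_add, n3c_add, n3c_smul, n3c_smul, n3c_smul, hw, hw, hw]
    have h1 := B.sum_repr x
    rw [Fin.sum_univ_three, hBv, hBv, hBv] at h1
    conv_lhs => rw [← h1]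
    rw [n3c_comm, n3c_add, n3c_add, n3c_smul, n3c_smul, n3c_smul, n3c_comm (v 0), n3c_comm (v 1),
      n3c_comm (v 2)]
    simp only [Module.Basis.coord_apply]
    ring

theorem cross_of_par {K : Set E3} {o : E3} {b : Module.Basis (Fin 3) ℝ E3} (hK : HX.Body o K)
    (h : Par (pol (cb b o K))) : RG.IsCrossBody K o := by
  obtain ⟨c, v₁, v₂, v₃, hli, hP⟩ := h
  obtain ⟨w, hwv, hexp⟩ := n3c_dual hli
  set v : Fin 3 → Q3 := ![v₁, v₂, v₃] with hv
  have hv0 : v 0 = v₁ := rfl
  have hv1 : v 1 = v₂ := rfl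
  have hv2 : v 2 = v₃ := rfl
  -- the points of the parallelepiped
  have hmem : ∀ s : Fin 3 → ℝ, (∀ i, |s i| ≤ 1) → c + s 0 • v 0 + s 1 • v 1 + s 2 • v 2 ∈
      pol (cb b o K) := by
    intro s hs
    rw [hP]
    exact ⟨s 0, s 1, s 2, hs 0, hs 1, hs 2, rfl⟩
  have hval : ∀ u ∈ pol (cb b o K), ∀ i, |pr u (w i) - pr c (w i)| ≤ 1 := by
    intro u hu i
    rw [hP] at hu
    obtain ⟨s₁, s₂, s₃, h1, h2, h3, rfl⟩ := hu
    rw [n3c_add, n3c_add, n3c_add, n3c_smul, n3c_smul, n3c_smul, ← hv0, ← hv1, ← hv2,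
      n3c_comm (v 0), n3c_comm (v 1), n3c_comm (v 2), hwv, hwv, hwv]
    fin_cases i
    · simpa using h1
    · simpa using h2
    · simpa using h3
  set γ : Fin 3 → ℝ := fun i => pr c (w i) with hγ
  have hw0 : ∀ i, w i ≠ 0 := by
    intro i h0
    have h1 := hwv i i
    rw [h0, if_pos rfl] at h1
    have h2 : pr (0 : Q3) (v i) = 0 := by
      rw [n3c_pr]
      simp
    linarith
  have hneg : ∀ i (u : Q3), pr u (-(w i)) = -pr u (w i) := by
    intro i u
    have h1 : -(w i) = (-1 : ℝ) • w i := by simp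
    rw [h1, n3c_comm, n3c_smul, n3c_comm]
    ring
  have hγ1 : ∀ i, 0 < 1 + γ i := by
    intro i
    by_contra hcon
    rw [not_lt] at hcon
    refine hw0 i (n3c_unb b hK fun t ht => n3c_bip b hK fun u hu => ?_)
    rw [n3c_comm, n3c_smul, n3c_comm]
    have h1 := (abs_le.1 (hval u hu i)).2
    have h2 : pr u (w i) ≤ 0 := by
      have : pr c (w i) = γ i := rfl
      linarith
    have h3 : t * pr u (w i) ≤ 0 := mul_nonpos_of_nonneg_of_nonpos ht.le h2
    linarith
  have hγ2 : ∀ i, 0 < 1 - γ i := by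
    intro i
    by_contra hcon
    rw [not_lt] at hcon
    refine hw0 i (neg_eq_zero.1 (n3c_unb b hK fun t ht => n3c_bip b hK fun u hu => ?_))
    rw [n3c_comm, n3c_smul, n3c_comm, hneg]
    have h1 := (abs_le.1 (hval u hu i)).1
    have h2 : -pr u (w i) ≤ 0 := by
      have : pr c (w i) = γ i := rfl
      linarith
    have h3 : t * -pr u (w i) ≤ 0 := mul_nonpos_of_nonneg_of_nonpos ht.le h2
    linarith
  have hplus : ∀ i, o + n3c_L b ((1 + γ i)⁻¹ • w i) ∈ K := by
    intro i
    refine n3c_bip b hK fun u hu => ?_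
    rw [n3c_comm, n3c_smul, n3c_comm, inv_mul_le_iff₀ (hγ1 i)]
    have h1 := (abs_le.1 (hval u hu i)).2
    have : pr c (w i) = γ i := rfl
    linarith
  have hminus : ∀ i, o + n3c_L b ((1 - γ i)⁻¹ • (-(w i))) ∈ K := by
    intro i
    refine n3c_bip b hK fun u hu => ?_
    rw [n3c_comm, n3c_smul, n3c_comm, hneg, inv_mul_le_iff₀ (hγ2 i)]
    have h1 := (abs_le.1 (hval u hu i)).1
    have : pr c (w i) = γ i := rfl
    linarith
  have htv : ∀ i, o - ((1 + γ i) / (1 - γ i)) • n3c_L b ((1 + γ i)⁻¹ • w i) =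
      o + n3c_L b ((1 - γ i)⁻¹ • (-(w i))) := by
    intro i
    rw [map_smul, map_smul, map_neg, smul_smul]
    have h1 : (1 + γ i) / (1 - γ i) * (1 + γ i)⁻¹ = (1 - γ i)⁻¹ := by
      have := (hγ1 i).ne'
      have := (hγ2 i).ne'
      field_simp
    rw [h1, smul_neg, sub_eq_add_neg]
  refine ⟨fun i => n3c_L b ((1 + γ i)⁻¹ • w i), fun i => (1 + γ i) / (1 - γ i), ?_,
    fun i => div_pos (hγ1 i) (hγ2 i), ?_⟩
  · rw [Fintype.linearIndependent_iff]
    intro g hg i
    rw [Fin.sum_univ_three, ← map_smul, ← map_smul, ← map_smul, ← map_add, ← map_add] at hg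
    have h1 := n3c_inj b hg
    have h2 : pr (g 0 • (1 + γ 0)⁻¹ • w 0 + g 1 • (1 + γ 1)⁻¹ • w 1 + g 2 • (1 + γ 2)⁻¹ • w 2) (v i)
        = 0 := by
      rw [h1, n3c_pr]
      simp
    rw [n3c_add, n3c_add, n3c_smul, n3c_smul, n3c_smul, n3c_smul, n3c_smul, n3c_smul, hwv, hwv,
      hwv] at h2
    have h3 := (inv_pos.2 (hγ1 i)).ne'
    have h4 : g i * (1 + γ i)⁻¹ = 0 := by
      fin_cases i
      · simpa using h2
      · simpa using h2
      · simpa using h2
    exact (mul_eq_zero.1 h4).resolve_right h3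
  · set S : Set E3 := ⋃ i, ({o + n3c_L b ((1 + γ i)⁻¹ • w i),
      o - ((1 + γ i) / (1 - γ i)) • n3c_L b ((1 + γ i)⁻¹ • w i)} : Set E3) with hS
    have hSp : ∀ i, o + n3c_L b ((1 + γ i)⁻¹ • w i) ∈ convexHull ℝ S := fun i =>
      subset_convexHull ℝ S (mem_iUnion.2 ⟨i, Or.inl rfl⟩)
    have hSm : ∀ i, o + n3c_L b ((1 - γ i)⁻¹ • (-(w i))) ∈ convexHull ℝ S := fun i =>
      subset_convexHull ℝ S (mem_iUnion.2 ⟨i, Or.inr (htv i).symm⟩)
    have hH : Convex ℝ (convexHull ℝ S) := convex_convexHull ℝ S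
    apply Set.Subset.antisymm
    · intro x hx
      obtain ⟨q, hq⟩ := n3c_surj b (x - o)
      have hxo : x = o + n3c_L b q := by
        rw [hq]
        abel
      have hqK : q ∈ cb b o K := by
        rw [n3c_mem, ← hxo]
        exact hx
      set a : Fin 3 → ℝ := fun i => pr q (v i) with ha
      set s : Fin 3 → ℝ := fun i => if 0 ≤ a i then 1 else -1 with hs
      have hs1 : ∀ i, |s i| ≤ 1 := by
        intro i
        by_cases h0 : 0 ≤ a i
        · simp [hs, h0]
        · simp [hs, h0]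
      have hsa : ∀ i, s i * a i = |a i| := by
        intro i
        by_cases h0 : 0 ≤ a i
        · simp only [hs, h0, if_true, one_mul]
          rw [abs_of_nonneg h0]
        · simp only [hs, h0, if_false]
          rw [abs_of_neg (not_le.1 h0)]
          ring
      have h1 := (hmem s hs1) q hqK
      have hqe := hexp q
      rw [Fin.sum_univ_three] at hqe
      have hcq : pr c q = a 0 * γ 0 + a 1 * γ 1 + a 2 * γ 2 := by
        rw [n3c_comm]
        conv_lhs => rw [hqe]
        rw [n3c_add, n3c_add, n3c_smul, n3c_smul, n3c_smul, n3c_comm (w 0), n3c_comm (w 1),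
          n3c_comm (w 2)]
      rw [n3c_add, n3c_add, n3c_add, n3c_smul, n3c_smul, n3c_smul, hcq, n3c_comm (v 0),
        n3c_comm (v 1), n3c_comm (v 2)] at h1
      have h2 : a 0 * γ 0 + a 1 * γ 1 + a 2 * γ 2 + s 0 * a 0 + s 1 * a 1 + s 2 * a 2 ≤ 1 := h1
      rw [hsa, hsa, hsa] at h2
      set lam : Fin 3 → ℝ := fun i => |a i| + a i * γ i with hlam
      have hl0 : ∀ i, 0 ≤ lam i := by
        intro i
        have h3 : |a i * γ i| ≤ |a i| := by
          rw [abs_mul]
          have h4 : |γ i| ≤ 1 := abs_le.2 ⟨by linarith [hγ1 i], by linarith [hγ2 i]⟩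
          exact mul_le_of_le_one_right (abs_nonneg _) h4
        have h5 := neg_abs_le (a i * γ i)
        show 0 ≤ |a i| + a i * γ i
        linarith
      have hpt : ∀ i, ∃ p ∈ convexHull ℝ S, lam i • p = lam i • o + a i • n3c_L b (w i) := by
        intro i
        by_cases h0 : 0 ≤ a i
        · refine ⟨_, hSp i, ?_⟩
          have h3 : lam i * (1 + γ i)⁻¹ = a i := by
            show (|a i| + a i * γ i) * (1 + γ i)⁻¹ = a i
            rw [abs_of_nonneg h0]
            have := (hγ1 i).ne'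
            field_simp
          rw [smul_add, map_smul, smul_smul, h3]
        · refine ⟨_, hSm i, ?_⟩
          have h3 : lam i * (1 - γ i)⁻¹ = -a i := by
            show (|a i| + a i * γ i) * (1 - γ i)⁻¹ = -a i
            rw [abs_of_neg (not_le.1 h0)]
            have := (hγ2 i).ne'
            field_simp
            ring
          rw [smul_add, map_smul, map_neg, smul_smul, h3, smul_neg, neg_smul, neg_neg]
      have hoH : o ∈ convexHull ℝ S := by
        have h3 := hH (hSp 0) (hSm 0) (a := (1 + γ 0) / 2) (b := (1 - γ 0) / 2)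
          (by linarith [hγ1 0]) (by linarith [hγ2 0]) (by ring)
        have h4 : ((1 + γ 0) / 2) • (o + n3c_L b ((1 + γ 0)⁻¹ • w 0)) +
            ((1 - γ 0) / 2) • (o + n3c_L b ((1 - γ 0)⁻¹ • (-(w 0)))) = o := by
          rw [smul_add, smul_add, map_smul, map_smul, map_neg, smul_smul, smul_smul]
          have h5 : (1 + γ 0) / 2 * (1 + γ 0)⁻¹ = 1 / 2 := by
            have := (hγ1 0).ne'
            field_simp
          have h6 : (1 - γ 0) / 2 * (1 - γ 0)⁻¹ = 1 / 2 := by
            have := (hγ2 0).ne'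
            field_simp
          rw [h5, h6]
          module
        rwa [h4] at h3
      obtain ⟨p₀, hp₀, e₀⟩ := hpt 0
      obtain ⟨p₁, hp₁, e₁⟩ := hpt 1
      obtain ⟨p₂, hp₂, e₂⟩ := hpt 2
      have hsum : lam 0 + lam 1 + lam 2 ≤ 1 := by
        show (|a 0| + a 0 * γ 0) + (|a 1| + a 1 * γ 1) + (|a 2| + a 2 * γ 2) ≤ 1
        linarith
      have h3 := hH.sum_mem (t := (Finset.univ : Finset (Fin 4)))
        (w := ![1 - (lam 0 + lam 1 + lam 2), lam 0, lam 1, lam 2]) (z := ![o, p₀, p₁, p₂])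
        (by
          intro i _
          fin_cases i
          · show 0 ≤ 1 - (lam 0 + lam 1 + lam 2)
            linarith
          · exact hl0 0
          · exact hl0 1
          · exact hl0 2)
        (by
          rw [Fin.sum_univ_four]
          show 1 - (lam 0 + lam 1 + lam 2) + lam 0 + lam 1 + lam 2 = 1
          ring)
        (by
          intro i _
          fin_cases i
          · exact hoH
          · exact hp₀
          · exact hp₁
          · exact hp₂)
      rw [Fin.sum_univ_four] at h3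
      have h4 : (1 - (lam 0 + lam 1 + lam 2)) • o + lam 0 • p₀ + lam 1 • p₁ + lam 2 • p₂ =
          o + n3c_L b q := by
        rw [e₀, e₁, e₂]
        conv_rhs => rw [hqe]
        rw [map_add, map_add, map_smul, map_smul, map_smul]
        show _ = o + (a 0 • n3c_L b (w 0) + a 1 • n3c_L b (w 1) + a 2 • n3c_L b (w 2))
        module
      rw [hxo, ← h4]
      exact h3
    · refine convexHull_min ?_ hK.convex
      intro x hx
      obtain ⟨i, hi⟩ := mem_iUnion.1 hx
      rcases hi with hi | hi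
      · rw [hi]
        exact hplus i
      · rw [mem_singleton_iff] at hi
        rw [hi, htv i]
        exact hminus i

end N3c

end Pool.Agent.Lib.MP_5e7226_co.RT
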