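import Pool.Agent.Lib.MP_5e7226_co.RT.Core
import Pool.Agent.Lib.MP_5e7226_co.RT.N1
import Pool.Agent.Lib.MP_5e7226_co.RT.N2
import Pool.Agent.Lib.MP_5e7226_co.RT.Pol
import Pool.Agent.Lib.MP_5e7226_co.RT.N3
import Pool.Agent.Lib.MP_5e7226_co.RT.N3c
import Pool.Agent.Lib.MP_5e7226_co.TR.Main

set_option autoImplicit false

/-! Bodies in `E^3` with a rotation: the theorem. -/

namespace Pool.Agent.Lib.MP_5e7226_co.RT

/-- Both parts of the conjecture, for both functionals. -/
theorem good_of_rot {K : Set E3} {o : E3} (hconv : Convex ℝ K) (hcomp : IsCompact K)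
    (ho : o ∈ interior K) {g : E3 →ₗ[ℝ] E3} (hg : RotSym K o g) : RG.Good K o := by
  obtain ⟨b, p, hB⟩ := exists_RB hconv hcomp ho hg
  have hK : HX.Body o K := ⟨hconv, hcomp, ho⟩
  have h1 := core hB
  have h2 := core (RB_pol hB)
  refine ⟨?_, ?_, ?_, ?_⟩
  · rcases h2 with h | h
    · exact TR.sep_mono (by norm_num) (sep_of_served hK h)
    · exact sep_of_served hK (served8_of_par h)
  · intro hn
    rcases h2 with h | h
    · exact absurd (sep_of_served hK h) hn
    · exact cross_of_par hK h
  · rcases h1 with h | h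
    · exact TR.illum_mono (by norm_num) (by norm_num) (illum_of_served hK h)
    · exact illum_of_served hK (served8_of_par h)
  · intro hn
    rcases h1 with h | h
    · exact absurd (illum_of_served hK h) hn
    · exact cube_of_par hK h

end Pool.Agent.Lib.MP_5e7226_co.RT
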