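import Mathlib

/-! # MP_5e7226: five pairwise disjoint arcs of a body with a 3-fold axis (real-number part) -/

set_option autoImplicit false

open Real

namespace Pool.Agent.Lib.MP_5e7226_co.RTC


/-- `κ` is the angle of the outer normal of the chord from `ri e^{i ti}` to `rj e^{i tj}`. -/
structure Chord (ti tj ri rj κ : ℝ) : Prop where
  lo : tj - π / 2 < κ
  hi : κ < ti + π / 2
  eq : ∃ ρ : ℝ, 0 < ρ ∧ ∀ θ, rj * cos (θ - tj) - ri * cos (θ - ti) = ρ * sin (θ - κ)

/-- c1a -/
theorem chord_exists {ti tj ri rj : ℝ} (hri : 0 < ri) (hrj : 0 < rj) (h1 : ti < tj)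
    (h2 : tj < ti + π) : ∃ κ, Chord ti tj ri rj κ := by
  have hpi := Real.pi_pos
  have hs : 0 < sin (tj - ti) := sin_pos_of_pos_of_lt_pi (by linarith) (by linarith)
  set f : ℝ → ℝ := fun θ => rj * cos (θ - tj) - ri * cos (θ - ti) with hf
  have hfc : Continuous f := by
    rw [hf]; fun_prop
  have f1 : f (ti + π / 2) = rj * sin (tj - ti) := by
    simp only [hf]
    have e1 : ti + π / 2 - tj = π / 2 - (tj - ti) := by ring
    have e2 : ti + π / 2 - ti = π / 2 := by ring
    rw [e1, e2, cos_pi_div_two_sub, cos_pi_div_two]; ring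
  have f2 : f (tj - π / 2) = - (ri * sin (tj - ti)) := by
    simp only [hf]
    have e1 : tj - π / 2 - tj = - (π / 2) := by ring
    have e2 : tj - π / 2 - ti = (tj - ti) - π / 2 := by ring
    rw [e1, e2, cos_neg, cos_pi_div_two, cos_sub_pi_div_two]; ring
  have hle : tj - π / 2 ≤ ti + π / 2 := by linarith
  have hf1 : 0 < f (ti + π / 2) := by rw [f1]; positivity
  have hf2 : f (tj - π / 2) < 0 := by
    rw [f2]; have := mul_pos hri hs; linarith
  obtain ⟨κ, hκ, hκ0⟩ := intermediate_value_Icc hle hfc.continuousOn ⟨hf2.le, hf1.le⟩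
  have hk1 : tj - π / 2 < κ := by
    rcases lt_or_eq_of_le hκ.1 with h | h
    · exact h
    · rw [← h] at hκ0; linarith
  have hk2 : κ < ti + π / 2 := by
    rcases lt_or_eq_of_le hκ.2 with h | h
    · exact h
    · rw [h] at hκ0; linarith
  have hexp : ∀ θ, f θ = (ri * sin (κ - ti) - rj * sin (κ - tj)) * sin (θ - κ) := by
    intro θ
    have e1 : θ - tj = (θ - κ) + (κ - tj) := by ring
    have e2 : θ - ti = (θ - κ) + (κ - ti) := by ring
    have h0 : rj * cos (κ - tj) - ri * cos (κ - ti) = 0 := hκ0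
    simp only [hf]
    rw [e1, e2, cos_add, cos_add]
    have e3 : θ - κ + (κ - tj) - (κ - tj) = θ - κ := by ring
    linear_combination cos (θ - κ) * h0
  refine ⟨κ, hk1, hk2, ri * sin (κ - ti) - rj * sin (κ - tj), ?_, hexp⟩
  have h3 := hexp (ti + π / 2)
  have hs2 : 0 < sin (ti + π / 2 - κ) := sin_pos_of_pos_of_lt_pi (by linarith) (by linarith)
  rw [h3] at hf1
  exact (pos_iff_pos_of_mul_pos hf1).mpr hs2

/-- c1b -/
theorem Chord.le_of_nonpos {ti tj ri rj κ θ : ℝ} (h : Chord ti tj ri rj κ) (h1 : |θ - κ| < π)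
    (h2 : rj * cos (θ - tj) ≤ ri * cos (θ - ti)) : θ ≤ κ := by
  obtain ⟨ρ, hρ, he⟩ := h.eq
  by_contra hc
  rw [not_le] at hc
  rw [abs_lt] at h1
  have hs : 0 < sin (θ - κ) := sin_pos_of_pos_of_lt_pi (by linarith) (by linarith [h1.2])
  have := he θ
  have := mul_pos hρ hs
  linarith

theorem Chord.le_of_nonneg {ti tj ri rj κ θ : ℝ} (h : Chord ti tj ri rj κ) (h1 : |θ - κ| < π)
    (h2 : ri * cos (θ - ti) ≤ rj * cos (θ - tj)) : κ ≤ θ := by
  obtain ⟨ρ, hρ, he⟩ := h.eq
  by_contra hc
  rw [not_le] at hc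
  rw [abs_lt] at h1
  have hs : 0 < sin (κ - θ) := sin_pos_of_pos_of_lt_pi (by linarith) (by linarith [h1.1])
  have e := he θ
  have h4 := mul_pos hρ hs
  have e2 : sin (θ - κ) = - sin (κ - θ) := by rw [← sin_neg]; ring_nf
  rw [e2] at e
  nlinarith

/-- c1c -/
theorem Chord.unique {ti tj ri rj κ κ' : ℝ} (h12 : ti ≤ tj) (h : Chord ti tj ri rj κ)
    (h' : Chord ti tj ri rj κ') : κ = κ' := by
  have a1 := h.lo
  have a2 := h.hi
  have b1 := h'.lo
  have b2 := h'.hi
  have hpi := Real.pi_pos
  have hab : |κ' - κ| < π := by rw [abs_lt]; constructor <;> linarith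
  obtain ⟨ρ, hρ, he⟩ := h'.eq
  have e0 := he κ'
  have e1 : sin (κ' - κ') = 0 := by simp
  rw [e1, mul_zero] at e0
  have i1 : κ' ≤ κ := h.le_of_nonpos hab (by linarith)
  have i2 : κ ≤ κ' := h.le_of_nonneg hab (by linarith)
  exact le_antisymm i2 i1

/-- c2a : the three chords of three points in weakly convex position. -/
theorem chord_K1 {t1 t2 t3 r1 r2 r3 κ12 κ13 κ23 h : ℝ} (h12 : Chord t1 t2 r1 r2 κ12)
    (h13 : Chord t1 t3 r1 r3 κ13) (h23 : Chord t2 t3 r2 r3 κ23) (ht : t1 < t2) (ht' : t2 < t3)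
    (hh : t2 - π / 3 ≤ h) (hh' : h ≤ t2 + π / 3) (s1 : r1 * cos (h - t1) ≤ r2 * cos (h - t2))
    (s3 : r3 * cos (h - t3) ≤ r2 * cos (h - t2)) :
    κ12 ≤ κ13 ∧ κ13 ≤ κ23 ∧ (κ12 = κ13 → κ13 = κ23) ∧ (κ13 = κ23 → κ12 = κ13) := by
  have hpi := Real.pi_pos
  have a1 := h12.lo
  have a2 := h12.hi
  have b1 := h13.lo
  have b2 := h13.hi
  have c1 := h23.lo
  have c2 := h23.hi
  have i1 : κ12 ≤ h := h12.le_of_nonneg (by rw [abs_lt]; constructor <;> linarith) s1
  have i2 : h ≤ κ23 := h23.le_of_nonpos (by rw [abs_lt]; constructor <;> linarith) s3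
  obtain ⟨ρ, hρ, he⟩ := h12.eq
  obtain ⟨σ, hσ, hf⟩ := h23.eq
  obtain ⟨τ, hτ, hg⟩ := h13.eq
  have e0 := hg κ13
  have e1 : sin (κ13 - κ13) = 0 := by simp
  rw [e1, mul_zero] at e0
  have key : ρ * sin (κ13 - κ12) + σ * sin (κ13 - κ23) = 0 := by
    have u1 := he κ13
    have u2 := hf κ13
    linarith
  have l1 : κ12 ≤ κ13 := by
    by_contra hc
    rw [not_le] at hc
    have p1 : sin (κ13 - κ12) < 0 := sin_neg_of_neg_of_neg_pi_lt (by linarith) (by linarith)
    have p2 : sin (κ13 - κ23) < 0 := sin_neg_of_neg_of_neg_pi_lt (by linarith) (by linarith)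
    have q1 := mul_neg_of_pos_of_neg hρ p1
    have q2 := mul_neg_of_pos_of_neg hσ p2
    linarith
  have l2 : κ13 ≤ κ23 := by
    by_contra hc
    rw [not_le] at hc
    have p1 : 0 < sin (κ13 - κ12) := sin_pos_of_pos_of_lt_pi (by linarith) (by linarith)
    have p2 : 0 < sin (κ13 - κ23) := sin_pos_of_pos_of_lt_pi (by linarith) (by linarith)
    have q1 := mul_pos hρ p1
    have q2 := mul_pos hσ p2
    linarith
  refine ⟨l1, l2, ?_, ?_⟩
  · intro h0
    rcases lt_or_eq_of_le l2 with h3 | h3
    · exfalso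
      have p2 : sin (κ13 - κ23) < 0 := sin_neg_of_neg_of_neg_pi_lt (by linarith) (by linarith)
      have q2 := mul_neg_of_pos_of_neg hσ p2
      rw [h0, e1] at key
      linarith
    · exact h3
  · intro h0
    rcases lt_or_eq_of_le l1 with h3 | h3
    · exfalso
      have p1 : 0 < sin (κ13 - κ12) := sin_pos_of_pos_of_lt_pi (by linarith) (by linarith)
      have q1 := mul_pos hρ p1
      rw [← h0, e1] at key
      linarith
    · exact h3

/-- c2b -/
theorem chord_K2 {t r κ : ℝ} (h : Chord t (t + 2 * (π / 3)) r r κ) : κ = t + π / 3 := by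
  have hpi := Real.pi_pos
  have a1 := h.lo
  have a2 := h.hi
  have e : r * cos (t + π / 3 - (t + 2 * (π / 3))) = r * cos (t + π / 3 - t) := by
    have e1 : t + π / 3 - (t + 2 * (π / 3)) = - (π / 3) := by ring
    have e2 : t + π / 3 - t = π / 3 := by ring
    rw [e1, e2, cos_neg]
  have hab : |t + π / 3 - κ| < π := by rw [abs_lt]; constructor <;> linarith
  exact le_antisymm (h.le_of_nonneg hab (by linarith)) (h.le_of_nonpos hab (by linarith))


/-- The combinatorial data. -/
structure Dat (u : ℝ) (tau z a b : ℤ → ℝ) (κ : ℤ → ℤ → ℝ) : Prop where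
  mono : ∀ k, tau k < tau (k + 1)
  tp : ∀ k, tau (k + 5) = tau k + 2 * u
  zp : ∀ k, z (k + 5) = z k
  ap : ∀ k, a (k + 5) = a k + 2 * u
  bp : ∀ k, b (k + 5) = b k + 2 * u
  kp : ∀ i j, i < j → j ≤ i + 5 → κ (i + 5) (j + 5) = κ i j + 2 * u
  K1 : ∀ i j l, i < j → j < l → l ≤ i + 5 → κ i j ≤ κ i l ∧ κ i l ≤ κ j l ∧
    (κ i j = κ i l → κ i l = κ j l) ∧ (κ i l = κ j l → κ i j = κ i l)
  K2 : ∀ i, κ i (i + 5) = tau i + u
  Db : ∀ k, (∀ j, k < j → j ≤ k + 5 → z k ≤ z j → b k ≤ κ k j) ∨
    (∀ j, k < j → j ≤ k + 5 → z j ≤ z k → b k ≤ κ k j)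
  Da : ∀ k, (∀ j, k - 5 ≤ j → j < k → z k ≤ z j → κ j k ≤ a k) ∨
    (∀ j, k - 5 ≤ j → j < k → z j ≤ z k → κ j k ≤ a k)
  C : ∀ k, u ≤ b k - a (k + 2)

section

variable {u : ℝ} {tau z a b : ℤ → ℝ} {κ : ℤ → ℤ → ℝ}

/-- c4a : reflection and shift of the data -/
theorem Dat.refl (D : Dat u tau z a b κ) :
    Dat u (fun k => -tau (-k)) (fun k => z (-k)) (fun k => -b (-k)) (fun k => -a (-k))
      (fun i j => -κ (-j) (-i)) where
  mono k := by
    have h := D.mono (-(k + 1))
    have e : -(k + 1) + 1 = -k := by ring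
    rw [e] at h
    simpa using h
  tp k := by
    have h := D.tp (-(k + 5))
    have e : -(k + 5) + 5 = -k := by ring
    rw [e] at h
    linarith
  zp k := by
    have h := D.zp (-(k + 5))
    have e : -(k + 5) + 5 = -k := by ring
    rw [e] at h
    exact h.symm
  ap k := by
    have h := D.bp (-(k + 5))
    have e : -(k + 5) + 5 = -k := by ring
    rw [e] at h
    linarith
  bp k := by
    have h := D.ap (-(k + 5))
    have e : -(k + 5) + 5 = -k := by ring
    rw [e] at h
    linarith
  kp i j hij hji := by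
    have h := D.kp (-(j + 5)) (-(i + 5)) (by omega) (by omega)
    have e : -(j + 5) + 5 = -j := by ring
    have e' : -(i + 5) + 5 = -i := by ring
    rw [e, e'] at h
    linarith
  K1 i j l hij hjl hli := by
    obtain ⟨h1, h2, h3, h4⟩ := D.K1 (-l) (-j) (-i) (by omega) (by omega) (by omega)
    refine ⟨by simpa using h2, by simpa using h1, ?_, ?_⟩
    · intro h
      have := h4 (by simpa using h.symm)
      simpa using this.symm
    · intro h
      have := h3 (by simpa using h.symm)
      simpa using this.symm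
  K2 i := by
    have h := D.K2 (-(i + 5))
    have h' := D.tp (-(i + 5))
    have e : -(i + 5) + 5 = -i := by ring
    rw [e] at h h'
    linarith
  Db k := by
    rcases D.Da (-k) with h | h
    · left
      intro j h1 h2 h3
      have := h (-j) (by omega) (by omega) h3
      linarith
    · right
      intro j h1 h2 h3
      have := h (-j) (by omega) (by omega) h3
      linarith
  Da k := by
    rcases D.Db (-k) with h | h
    · left
      intro j h1 h2 h3
      have := h (-j) (by omega) (by omega) h3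
      linarith
    · right
      intro j h1 h2 h3
      have := h (-j) (by omega) (by omega) h3
      linarith
  C k := by
    have h := D.C (-(k + 2))
    have e : -(k + 2) + 2 = -k := by ring
    rw [e] at h
    linarith

theorem Dat.shift (D : Dat u tau z a b κ) (m : ℤ) :
    Dat u (fun k => tau (k + m)) (fun k => z (k + m)) (fun k => a (k + m)) (fun k => b (k + m))
      (fun i j => κ (i + m) (j + m)) where
  mono k := by
    have h := D.mono (k + m)
    have e : k + 1 + m = k + m + 1 := by ring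
    simp only [e]; exact h
  tp k := by
    have e : k + 5 + m = k + m + 5 := by ring
    simp only [e]; exact D.tp _
  zp k := by
    have e : k + 5 + m = k + m + 5 := by ring
    simp only [e]; exact D.zp _
  ap k := by
    have e : k + 5 + m = k + m + 5 := by ring
    simp only [e]; exact D.ap _
  bp k := by
    have e : k + 5 + m = k + m + 5 := by ring
    simp only [e]; exact D.bp _
  kp i j hij hji := by
    have e : i + 5 + m = i + m + 5 := by ring
    have e' : j + 5 + m = j + m + 5 := by ring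
    simp only [e, e']
    exact D.kp _ _ (by omega) (by omega)
  K1 i j l hij hjl hli := D.K1 _ _ _ (by omega) (by omega) (by omega)
  K2 i := by
    have e : i + 5 + m = i + m + 5 := by ring
    simp only [e]; exact D.K2 _
  Db k := by
    rcases D.Db (k + m) with h | h
    · left
      intro j h1 h2 h3
      exact h (j + m) (by omega) (by omega) h3
    · right
      intro j h1 h2 h3
      exact h (j + m) (by omega) (by omega) h3
  Da k := by
    rcases D.Da (k + m) with h | h
    · left
      intro j h1 h2 h3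
      exact h (j + m) (by omega) (by omega) h3
    · right
      intro j h1 h2 h3
      exact h (j + m) (by omega) (by omega) h3
  C k := by
    have e : k + 2 + m = k + m + 2 := by ring
    simp only [e]; exact D.C _

theorem Dat.upos (D : Dat u tau z a b κ) : 0 < u := by
  have h0 := D.mono 0
  have h1 := D.mono 1
  have h2 := D.mono 2
  have h3 := D.mono 3
  have h4 := D.mono 4
  have h5 := D.tp 0
  norm_num at h0 h1 h2 h3 h4 h5
  linarith

theorem Dat.b_le (D : Dat u tau z a b κ) (k : ℤ) : b k ≤ tau k + u := by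
  rw [← D.K2 k]
  rcases D.Db k with h | h
  · exact h (k + 5) (by omega) (by omega) (D.zp k).ge
  · exact h (k + 5) (by omega) (by omega) (D.zp k).le

theorem Dat.le_a (D : Dat u tau z a b κ) (k : ℤ) : tau k - u ≤ a k := by
  have h1 := D.K2 (k - 5)
  have h2 := D.tp (k - 5)
  have h3 := D.zp (k - 5)
  have e : k - 5 + 5 = k := by ring
  rw [e] at h1 h2 h3
  have : κ (k - 5) k ≤ a k := by
    rcases D.Da k with h | h
    · exact h (k - 5) (by omega) (by omega) h3.le
    · exact h (k - 5) (by omega) (by omega) h3.ge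
  linarith

theorem Dat.R1 (D : Dat u tau z a b κ) {k i j : ℤ} (h1 : k < i) (h2 : i < j) (h3 : j ≤ k + 5)
    (z1 : z k ≤ z i) (z2 : z j ≤ z k) : b k ≤ κ k j := by
  rcases D.Db k with h | h
  · exact (h i h1 (by omega) z1).trans (D.K1 k i j h1 h2 h3).1
  · exact h j (by omega) h3 z2

theorem Dat.R2 (D : Dat u tau z a b κ) {k i j : ℤ} (h1 : k < i) (h2 : i < j) (h3 : j ≤ k + 5)
    (z1 : z i ≤ z k) (z2 : z k ≤ z j) : b k ≤ κ k j := by
  rcases D.Db k with h | h
  · exact h j (by omega) h3 z2
  · exact (h i h1 (by omega) z1).trans (D.K1 k i j h1 h2 h3).1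

theorem Dat.L1 (D : Dat u tau z a b κ) {k i j : ℤ} (h1 : i < k) (h2 : j < i) (h3 : k ≤ j + 5)
    (z1 : z k ≤ z i) (z2 : z j ≤ z k) : κ j k ≤ a k := by
  rcases D.Da k with h | h
  · exact ((D.K1 j i k h2 h1 h3).2.1).trans (h i (by omega) h1 z1)
  · exact h j (by omega) (by omega) z2

theorem Dat.L2 (D : Dat u tau z a b κ) {k i j : ℤ} (h1 : i < k) (h2 : j < i) (h3 : k ≤ j + 5)
    (z1 : z i ≤ z k) (z2 : z k ≤ z j) : κ j k ≤ a k := by
  rcases D.Da k with h | h
  · exact h j (by omega) (by omega) z2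
  · exact ((D.K1 j i k h2 h1 h3).2.1).trans (h i (by omega) h1 z1)

/-- c4b : p = 1 -/
theorem Dat.case1 (D : Dat u tau z a b κ) (h0 : ∀ k, z k ≤ z 0) (h1 : ∀ k, z 1 ≤ z k) :
    False := by
  have z5 : z 5 = z 0 := by simpa using D.zp 0
  have z6 : z 6 = z 1 := by simpa using D.zp 1
  have t6 : tau 6 = tau 1 + 2 * u := by simpa using D.tp 1
  have e1 : κ 0 2 ≤ a 2 := D.L2 (i := 1) (by norm_num) (by norm_num) (by norm_num) (h1 2) (h0 2)
  have e2 : b 4 ≤ κ 4 6 := D.R1 (i := 5) (by norm_num) (by norm_num) (by norm_num)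
    (by rw [z5]; exact h0 4) (by rw [z6]; exact h1 4)
  have c0 : u ≤ b 0 - a 2 := by simpa using D.C 0
  have c4 : u ≤ b 4 - a 6 := by simpa using D.C 4
  have k4 : κ 4 6 = κ (-1) 1 + 2 * u := by simpa using D.kp (-1) 1 (by norm_num) (by norm_num)
  have q1 := (D.K1 (-1) 0 1 (by norm_num) (by norm_num) (by norm_num)).2.1
  have q2 := (D.K1 0 1 2 (by norm_num) (by norm_num) (by norm_num)).1
  have m0 : tau 0 < tau 1 := by simpa using D.mono 0
  have b0 := D.b_le 0
  have a6 := D.le_a 6
  linarith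

/-- c4c : p = 2 -/
theorem Dat.case2 (D : Dat u tau z a b κ) (h0 : ∀ k, z k ≤ z 0) (h1 : ∀ k, z 2 ≤ z k) :
    False := by
  have hu := D.upos
  have z5 : z 5 = z 0 := by simpa using D.zp 0
  have z6 : z 6 = z 1 := by simpa using D.zp 1
  have z7 : z 7 = z 2 := by simpa using D.zp 2
  have t6 : tau 6 = tau 1 + 2 * u := by simpa using D.tp 1
  have c1 : u ≤ b 1 - a 3 := by simpa using D.C 1
  have c2 : u ≤ b 2 - a 4 := by simpa using D.C 2
  have c3 : u ≤ b 3 - a 5 := by simpa using D.C 3
  have c4 : u ≤ b 4 - a 6 := by simpa using D.C 4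
  have k46 : κ 4 6 = κ (-1) 1 + 2 * u := by simpa using D.kp (-1) 1 (by norm_num) (by norm_num)
  have k47 : κ 4 7 = κ (-1) 2 + 2 * u := by simpa using D.kp (-1) 2 (by norm_num) (by norm_num)
  have m2 : tau 2 < tau 3 := by simpa using D.mono 2
  have m4 : tau 4 < tau 5 := by simpa using D.mono 4
  have b1 := D.b_le 1
  have b2 := D.b_le 2
  have b4 := D.b_le 4
  have a3 := D.le_a 3
  have a5 := D.le_a 5
  have a6 := D.le_a 6
  rcases le_total (z 1) (z 3) with hAB | hAB
  · rcases le_total (z 4) (z 3) with hCB | hCB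
    · -- (a1)
      have e1 : κ 2 4 ≤ a 4 := D.L1 (i := 3) (by norm_num) (by norm_num) (by norm_num) hCB (h1 4)
      have e2 : b 1 ≤ κ 1 3 := D.R2 (i := 2) (by norm_num) (by norm_num) (by norm_num) (h1 1) hAB
      have q1 := (D.K1 1 2 3 (by norm_num) (by norm_num) (by norm_num)).2.1
      have q2 := (D.K1 2 3 4 (by norm_num) (by norm_num) (by norm_num)).1
      linarith
    · -- (b2)
      have e1 : b 4 ≤ κ 4 6 := D.R1 (i := 5) (by norm_num) (by norm_num) (by norm_num)
        (by rw [z5]; exact h0 4) (by rw [z6]; exact hAB.trans hCB)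
      have e2 : b 1 ≤ κ 1 3 := D.R2 (i := 2) (by norm_num) (by norm_num) (by norm_num) (h1 1) hAB
      have e3 : κ 0 3 ≤ a 3 := D.L2 (i := 2) (by norm_num) (by norm_num) (by norm_num) (h1 3) (h0 3)
      have q0 : κ 1 3 ≤ κ 1 6 := (D.K1 1 3 6 (by norm_num) (by norm_num) (by norm_num)).1
      have q6 : κ 1 6 = tau 1 + u := by simpa using D.K2 1
      have q1 := (D.K1 (-1) 0 1 (by norm_num) (by norm_num) (by norm_num)).2.1
      obtain ⟨q2, q3, q4, q5⟩ := D.K1 0 1 3 (by norm_num) (by norm_num) (by norm_num)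
      have h := q4 (by linarith)
      linarith
  · rcases le_total (z 4) (z 3) with hCB | hCB
    · -- (a2)
      have e1 : b 3 ≤ κ 3 5 := D.R2 (i := 4) (by norm_num) (by norm_num) (by norm_num) hCB
        (by rw [z5]; exact h0 3)
      have e2 : κ 4 6 ≤ a 6 := D.L1 (i := 5) (by norm_num) (by norm_num) (by norm_num)
        (by rw [z5]; exact h0 6) (by rw [z6]; exact hCB.trans hAB)
      have q1 := (D.K1 3 4 5 (by norm_num) (by norm_num) (by norm_num)).2.1
      have q2 := (D.K1 4 5 6 (by norm_num) (by norm_num) (by norm_num)).1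
      linarith
    · rcases le_total (z 1) (z 4) with hAC | hAC
      · -- (b1)
        have e1 : κ 1 3 ≤ a 3 := D.L2 (i := 2) (by norm_num) (by norm_num) (by norm_num) (h1 3) hAB
        have e2 : b 4 ≤ κ 4 6 := D.R1 (i := 5) (by norm_num) (by norm_num) (by norm_num)
          (by rw [z5]; exact h0 4) (by rw [z6]; exact hAC)
        have e3 : κ 3 6 ≤ a 6 := D.L1 (i := 5) (by norm_num) (by norm_num) (by norm_num)
          (by rw [z5]; exact h0 6) (by rw [z6]; exact hAB)
        have q6 : κ 1 6 = tau 1 + u := by simpa using D.K2 1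
        obtain ⟨q2, q3, q4, q5⟩ := D.K1 1 3 6 (by norm_num) (by norm_num) (by norm_num)
        obtain ⟨p2, p3, p4, p5⟩ := D.K1 (-1) 1 3 (by norm_num) (by norm_num) (by norm_num)
        have h : κ 1 6 ≠ κ 3 6 := by
          intro h
          have := q5 h
          linarith
        have h' : κ 1 6 < κ 3 6 := lt_of_le_of_ne q3 h
        linarith
      · -- (b3)
        have e1 : κ 1 3 ≤ a 3 := D.L2 (i := 2) (by norm_num) (by norm_num) (by norm_num) (h1 3) hAB
        have e2 : b 4 ≤ κ 4 7 := D.R1 (i := 5) (by norm_num) (by norm_num) (by norm_num)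
          (by rw [z5]; exact h0 4) (by rw [z7]; exact h1 4)
        have e3 : κ 4 6 ≤ a 6 := D.L1 (i := 5) (by norm_num) (by norm_num) (by norm_num)
          (by rw [z5]; exact h0 6) (by rw [z6]; exact hAC)
        have q4 : κ (-4) 1 = tau (-4) + u := by simpa using D.K2 (-4)
        have t4 : tau 1 = tau (-4) + 2 * u := by simpa using D.tp (-4)
        have q1 := (D.K1 (-4) (-1) 1 (by norm_num) (by norm_num) (by norm_num)).2.1
        obtain ⟨p2, p3, p4, p5⟩ := D.K1 (-1) 1 2 (by norm_num) (by norm_num) (by norm_num)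
        have q2 := (D.K1 1 2 3 (by norm_num) (by norm_num) (by norm_num)).1
        have h := p5 (by linarith)
        linarith

theorem Dat.zmod (D : Dat u tau z a b κ) (k : ℤ) : z k = z (k % 5) := by
  have hp : Function.Periodic z 5 := D.zp
  have h := hp.int_mul (k / 5) (k % 5)
  have e : k % 5 + ((k / 5 : ℤ) : ℤ) * 5 = k := by omega
  rw [← h]
  congr 1
  push_cast
  omega

/-- c4d -/
theorem Dat.false0 (D : Dat u tau z a b κ) (h0 : ∀ k, z k ≤ z 0) : False := by
  obtain ⟨p, hp, hmin⟩ := Finset.exists_min_image (Finset.Icc (1 : ℤ) 4) z ⟨1, by simp⟩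
  have hall : ∀ k, z p ≤ z k := by
    intro k
    rw [D.zmod k]
    by_cases hk : k % 5 = 0
    · rw [hk]; exact h0 p
    · exact hmin _ (by rw [Finset.mem_Icc]; omega)
  rw [Finset.mem_Icc] at hp
  have hD := D.refl
  have hm : ∀ k, z (-k) ≤ z (-0) := fun k => by simpa using h0 (-k)
  obtain ⟨hp1, hp2⟩ := hp
  interval_cases p
  · exact D.case1 h0 hall
  · exact D.case2 h0 hall
  · refine hD.case2 hm (fun k => ?_)
    have : z (-2) = z 3 := by simpa using (D.zp (-2)).symm
    rw [this]
    exact hall _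
  · refine hD.case1 hm (fun k => ?_)
    have : z (-1) = z 4 := by simpa using (D.zp (-1)).symm
    rw [this]
    exact hall _

theorem Dat.false (D : Dat u tau z a b κ) : False := by
  obtain ⟨m, hm, hmax⟩ := Finset.exists_max_image (Finset.Icc (0 : ℤ) 4) z ⟨0, by simp⟩
  have hall : ∀ k, z k ≤ z m := by
    intro k
    rw [D.zmod k]
    exact hmax _ (by rw [Finset.mem_Icc]; omega)
  exact (D.shift m).false0 (fun k => by simpa using hall (k + m))

end

theorem Chord.shift {ti tj ri rj κ : ℝ} (h : Chord ti tj ri rj κ) (c : ℝ) :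
    Chord (ti + c) (tj + c) ri rj (κ + c) := by
  obtain ⟨ρ, hρ, he⟩ := h.eq
  refine ⟨by linarith [h.lo], by linarith [h.hi], ρ, hρ, fun θ => ?_⟩
  have h1 := he (θ - c)
  have e1 : θ - c - tj = θ - (tj + c) := by ring
  have e2 : θ - c - ti = θ - (ti + c) := by ring
  have e3 : θ - c - κ = θ - (κ + c) := by ring
  rw [e1, e2, e3] at h1
  exact h1

/-- c5 : the real-number row (p = 3, five pairwise disjoint arcs, no coincidence of angles). -/
theorem core5 {tau r z a b al be h : ℤ → ℝ} (hr : ∀ k, 0 < r k)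
    (mono : ∀ k, tau k < tau (k + 1)) (tp : ∀ k, tau (k + 5) = tau k + 2 * (π / 3))
    (rp : ∀ k, r (k + 5) = r k) (zp : ∀ k, z (k + 5) = z k)
    (ap : ∀ k, a (k + 5) = a k + 2 * (π / 3)) (bp : ∀ k, b (k + 5) = b k + 2 * (π / 3))
    (ha : ∀ k, tau k - π / 3 ≤ a k) (hah : ∀ k, a k ≤ h k) (hhb : ∀ k, h k ≤ b k)
    (hb : ∀ k, b k ≤ tau k + π / 3)
    (Sa : ∀ k j, r j * cos (a k - tau j) + al k * z j ≤ r k * cos (a k - tau k) + al k * z k)
    (Sb : ∀ k j, r j * cos (b k - tau j) + be k * z j ≤ r k * cos (b k - tau k) + be k * z k)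
    (Sh : ∀ k j, r j * cos (h k - tau j) ≤ r k * cos (h k - tau k))
    (C : ∀ k, π / 3 ≤ b k - a (k + 2)) : False := by
  have hpi := Real.pi_pos
  have hsm : StrictMono tau := strictMono_int_of_lt_succ mono
  have hle : ∀ i j, j ≤ i + 5 → tau j ≤ tau i + 2 * (π / 3) := by
    intro i j hij
    rw [← tp i]
    exact hsm.monotone hij
  have hch : ∀ i j, ∃ κ, i < j → j ≤ i + 5 → Chord (tau i) (tau j) (r i) (r j) κ := by
    intro i j
    by_cases h1 : i < j
    · by_cases h2 : j ≤ i + 5
      · obtain ⟨κ, hκ⟩ := chord_exists (hr i) (hr j) (hsm h1)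
          (by have := hle i j h2; linarith)
        exact ⟨κ, fun _ _ => hκ⟩
      · exact ⟨0, fun _ h => absurd h h2⟩
    · exact ⟨0, fun h => absurd h h1⟩
  choose κ hκ using hch
  have D : Dat (π / 3) tau z a b κ := by
    refine ⟨mono, tp, zp, ap, bp, ?_, ?_, ?_, ?_, ?_, C⟩
    · intro i j h1 h2
      have c1 := (hκ i j h1 h2).shift (2 * (π / 3))
      have c2 := hκ (i + 5) (j + 5) (by omega) (by omega)
      rw [tp, tp, rp, rp] at c2
      exact Chord.unique (by have := hsm h1; linarith) c2 c1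
    · intro i j l h1 h2 h3
      have a1 := ha j
      have a2 := hah j
      have a3 := hhb j
      have a4 := hb j
      exact chord_K1 (hκ i j h1 (by omega)) (hκ i l (by omega) h3) (hκ j l h2 (by omega))
        (hsm h1) (hsm h2) (by linarith) (by linarith) (Sh j i) (Sh j l)
    · intro i
      have c2 := hκ i (i + 5) (by omega) (by omega)
      rw [tp, rp] at c2
      exact chord_K2 c2
    · intro k
      have a1 := ha k
      have a2 := hah k
      have a3 := hhb k
      have a4 := hb k
      rcases le_total 0 (be k) with h0 | h0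
      · left
        intro j h1 h2 h3
        have c := hκ k j h1 h2
        have c1 := c.lo
        have c2 := c.hi
        have c3 := hsm h1
        refine c.le_of_nonpos (by rw [abs_lt]; constructor <;> linarith) ?_
        have := Sb k j
        have := mul_le_mul_of_nonneg_left h3 h0
        linarith
      · right
        intro j h1 h2 h3
        have c := hκ k j h1 h2
        have c1 := c.lo
        have c2 := c.hi
        have c3 := hsm h1
        refine c.le_of_nonpos (by rw [abs_lt]; constructor <;> linarith) ?_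
        have := Sb k j
        have := mul_le_mul_of_nonpos_left h3 h0
        linarith
    · intro k
      have a1 := ha k
      have a2 := hah k
      have a3 := hhb k
      have a4 := hb k
      rcases le_total 0 (al k) with h0 | h0
      · left
        intro j h1 h2 h3
        have c := hκ j k h2 (by omega)
        have c1 := c.lo
        have c2 := c.hi
        have c3 := hsm h2
        refine c.le_of_nonneg (by rw [abs_lt]; constructor <;> linarith) ?_
        have := Sa k j
        have := mul_le_mul_of_nonneg_left h3 h0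
        linarith
      · right
        intro j h1 h2 h3
        have c := hκ j k h2 (by omega)
        have c1 := c.lo
        have c2 := c.hi
        have c3 := hsm h2
        refine c.le_of_nonneg (by rw [abs_lt]; constructor <;> linarith) ?_
        have := Sa k j
        have := mul_le_mul_of_nonpos_left h3 h0
        linarith
  exact D.false

end Pool.Agent.Lib.MP_5e7226_co.RTC
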