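import Mathlib
import Pool.Agent.Lib.MP_5e7226_co.R3Base
import Pool.Agent.Lib.MP_5e7226_co.RT.IIDefs
import Pool.Agent.Lib.MP_5e7226_co.RT.C5

set_option autoImplicit false

open Real

namespace Pool.Agent.Lib.MP_5e7226_co.RT

/-- `Q` : rotation by `θ` about the axis -/
noncomputable def Rz (θ : ℝ) (x : Q3) : Q3 := (eA θ * x.1, x.2)

lemma pr_Rz (θ : ℝ) (n x : Q3) : pr (Rz θ n) (Rz θ x) = pr n x := by
  unfold pr Rz
  simp only
  rw [dotC_mul_mul, norm_eA]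
  ring

lemma Rz_add (s t : ℝ) (x : Q3) : Rz (s + t) x = Rz s (Rz t x) := by
  unfold Rz
  simp only
  rw [eA_add, mul_assoc]

lemma Rz_zero (x : Q3) : Rz 0 x = x := by
  unfold Rz
  simp [eA_zero]

lemma eA_two_pi : eA (2 * π) = 1 := by
  apply Complex.ext <;> simp

lemma Rz_two_pi (x : Q3) : Rz (2 * π) x = x := by
  unfold Rz
  simp [eA_two_pi]

lemma Rz_pt (θ t r z : ℝ) : Rz θ ((r : ℂ) * eA t, z) = ((r : ℂ) * eA (t + θ), z) := by
  unfold Rz
  simp only [eA_add, Prod.mk.injEq, and_true]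
  ring

lemma Rz_n (θ t s : ℝ) : Rz θ (eA t, s) = (eA (t + θ), s) := by
  unfold Rz
  simp only [eA_add, Prod.mk.injEq, and_true]
  ring

lemma rot_mem {K : Set Q3} (hK : RB 3 K) {x : Q3} (hx : x ∈ K) : Rz (2 * (π / 3)) x ∈ K := by
  have h := hK.rot x hx
  have e : 2 * π / ((3 : ℕ) : ℝ) = 2 * (π / 3) := by push_cast; ring
  rw [e] at h
  exact h

lemma rot_mem' {K : Set Q3} (hK : RB 3 K) {x : Q3} (hx : x ∈ K) : Rz (-(2 * (π / 3))) x ∈ K := by
  have h := rot_mem hK (rot_mem hK hx)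
  rw [← Rz_add] at h
  have e : Rz (2 * (π / 3) + 2 * (π / 3)) x = Rz (-(2 * (π / 3))) x := by
    have e1 : 2 * (π / 3) + 2 * (π / 3) = 2 * π + (-(2 * (π / 3))) := by ring
    rw [e1, Rz_add, Rz_two_pi]
  rw [e] at h
  exact h

lemma Rz_cancel (θ : ℝ) (x : Q3) : Rz θ (Rz (-θ) x) = x := by
  rw [← Rz_add, add_neg_cancel, Rz_zero]

lemma Rz_cancel' (θ : ℝ) (x : Q3) : Rz (-θ) (Rz θ x) = x := by
  rw [← Rz_add, neg_add_cancel, Rz_zero]

lemma Rz_ne {θ : ℝ} {n : Q3} (h : n ≠ 0) : Rz θ n ≠ 0 := by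
  intro h0
  apply h
  have : Rz (-θ) (Rz θ n) = 0 := by
    rw [h0]; unfold Rz; simp
  rwa [Rz_cancel'] at this

lemma nm_rot {K : Set Q3} (hK : RB 3 K) {x n : Q3} (h : Nm K x n) :
    Nm K (Rz (2 * (π / 3)) x) (Rz (2 * (π / 3)) n) := by
  refine ⟨Rz_ne h.1, fun y hy => ?_⟩
  have h1 := h.2 _ (rot_mem' hK hy)
  rw [pr_Rz]
  have h2 : pr (Rz (2 * (π / 3)) n) y = pr n (Rz (-(2 * (π / 3))) y) := by
    rw [← pr_Rz (2 * (π / 3)) n, Rz_cancel]
  rw [h2]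
  exact h1

lemma nm_rot' {K : Set Q3} (hK : RB 3 K) {x n : Q3} (h : Nm K (Rz (2 * (π / 3)) x) n) :
    Nm K x (Rz (-(2 * (π / 3))) n) := by
  refine ⟨Rz_ne h.1, fun y hy => ?_⟩
  have h1 := h.2 _ (rot_mem hK hy)
  have h2 : ∀ y, pr (Rz (-(2 * (π / 3))) n) y = pr n (Rz (2 * (π / 3)) y) := by
    intro y
    rw [← pr_Rz (2 * (π / 3)) (Rz (-(2 * (π / 3))) n) y, Rz_cancel]
  rw [h2, h2]
  exact h1

lemma fan_step {K : Set Q3} (hK : RB 3 K) {t r z a b al be h : ℝ}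
    (F : Fan K t r z a b al be h) : Fan K (t + 2 * (π / 3)) r z (a + 2 * (π / 3))
      (b + 2 * (π / 3)) al be (h + 2 * (π / 3)) := by
  have hmem := rot_mem hK F.mem
  rw [Rz_pt] at hmem
  have hna := nm_rot hK F.na
  have hnb := nm_rot hK F.nb
  have hnh := nm_rot hK F.nh
  rw [Rz_pt, Rz_n] at hna hnb hnh
  refine ⟨F.rpos, hmem, hna, hnb, hnh, by linarith [F.ta], by linarith [F.ah],
    by linarith [F.hb], by linarith [F.bt], ?_⟩
  intro n hn
  rw [← Rz_pt] at hn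
  obtain ⟨s, th, hs, h1, h2, h3⟩ := F.all _ (nm_rot' hK hn)
  refine ⟨s, th + 2 * (π / 3), hs, by linarith, by linarith, ?_⟩
  have h4 : n = Rz (2 * (π / 3)) (Rz (-(2 * (π / 3))) n) := (Rz_cancel _ _).symm
  rw [h4]
  unfold Rz at h3 ⊢
  simp only at h3 ⊢
  rw [h3, eA_add th]
  ring

lemma fan_per {K : Set Q3} {t r z a b al be h : ℝ}
    (F : Fan K t r z a b al be h) : Fan K (t - 2 * π) r z (a - 2 * π) (b - 2 * π) al be
      (h - 2 * π) := by
  have e : ∀ x, eA (x - 2 * π) = eA x := by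
    intro x
    apply Complex.ext <;> simp
  refine ⟨F.rpos, by rw [e]; exact F.mem, by rw [e, e]; exact F.na, by rw [e, e]; exact F.nb,
    by rw [e, e]; exact F.nh, by linarith [F.ta], by linarith [F.ah],
    by linarith [F.hb], by linarith [F.bt], ?_⟩
  intro n hn
  rw [e] at hn
  obtain ⟨s, th, hs, h1, h2, h3⟩ := F.all _ hn
  refine ⟨s, th - 2 * π, hs, by linarith, by linarith, ?_⟩
  rw [e]
  exact h3

theorem fan_rot {K : Set Q3} (hK : RB 3 K) {t r z a b al be h : ℝ}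
    (F : Fan K t r z a b al be h) (m : ℤ) : Fan K (t + m * (2 * (π / 3))) r z
      (a + m * (2 * (π / 3))) (b + m * (2 * (π / 3))) al be (h + m * (2 * (π / 3))) := by
  induction m using Int.induction_on with
  | zero => simpa using F
  | succ i ih =>
    have h1 := fan_step hK ih
    have e : ∀ x : ℝ, x + ((i : ℤ) : ℝ) * (2 * (π / 3)) + 2 * (π / 3) =
        x + (((i : ℤ) + 1 : ℤ) : ℝ) * (2 * (π / 3)) := by
      intro x; push_cast; ring
    rw [e, e, e, e] at h1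
    exact h1
  | pred i ih =>
    have h1 := fan_per (fan_step hK (fan_step hK ih))
    have e : ∀ x : ℝ, x + ((-(i : ℤ) : ℤ) : ℝ) * (2 * (π / 3)) + 2 * (π / 3) + 2 * (π / 3) - 2 * π =
        x + ((-(i : ℤ) - 1 : ℤ) : ℝ) * (2 * (π / 3)) := by
      intro x; push_cast; ring
    rw [e, e, e, e] at h1
    exact h1

lemma pr_pt (th s r t z : ℝ) : pr (eA th, s) ((r : ℂ) * eA t, z) = r * cos (th - t) + s * z := by
  unfold pr
  simp only
  rw [dotC_ofReal_right, dotC_eA]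

lemma nm_of_eq {K : Set Q3} {x y n : Q3} (h : Nm K x n) (hy : pr n x ≤ pr n y) : Nm K y n :=
  ⟨h.1, fun w hw => (h.2 w hw).trans hy⟩

lemma full_of_a {K : Set Q3} (hK : RB 3 K) {t r z a b al be h : ℝ}
    (F : Fan K t r z a b al be h) (e : a = t - π / 3) : Full K t r z al := by
  subst e
  refine ⟨F.rpos, F.mem, ⟨h, F.nh⟩, ?_, F.na⟩
  -- the normal at the rotated point
  have h1 : Nm K ((r : ℂ) * eA (t - 2 * (π / 3)), z) (eA (t - π / 3), al) := by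
    refine nm_of_eq F.na ?_
    rw [pr_pt, pr_pt]
    have e1 : t - π / 3 - t = -(π / 3) := by ring
    have e2 : t - π / 3 - (t - 2 * (π / 3)) = π / 3 := by ring
    rw [e1, e2, cos_neg]
  have h2 := nm_rot hK h1
  rw [Rz_pt, Rz_n] at h2
  have e1 : t - 2 * (π / 3) + 2 * (π / 3) = t := by ring
  have e2 : t - π / 3 + 2 * (π / 3) = t + π / 3 := by ring
  rw [e1, e2] at h2
  exact h2

lemma full_of_b {K : Set Q3} (hK : RB 3 K) {t r z a b al be h : ℝ}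
    (F : Fan K t r z a b al be h) (e : b = t + π / 3) : Full K t r z be := by
  subst e
  refine ⟨F.rpos, F.mem, ⟨h, F.nh⟩, F.nb, ?_⟩
  have h1 : Nm K (Rz (2 * (π / 3)) ((r : ℂ) * eA t, z)) (eA (t + π / 3), be) := by
    rw [Rz_pt]
    refine nm_of_eq F.nb ?_
    rw [pr_pt, pr_pt]
    have e1 : t + π / 3 - t = π / 3 := by ring
    have e2 : t + π / 3 - (t + 2 * (π / 3)) = -(π / 3) := by ring
    rw [e1, e2, cos_neg]
  have h2 := nm_rot' hK h1
  rw [Rz_n] at h2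
  have e2 : t + π / 3 + -(2 * (π / 3)) = t - π / 3 := by ring
  rw [e2] at h2
  exact h2

/-- two full mixed points exactly 60 degrees apart. -/
def PSix (K : Set Q3) : Prop := ∃ t r z s r' z' s', Full K t r z s ∧ Full K (t + π / 3) r' z' s'

lemma P6_of_gap {K : Set Q3} (hK : RB 3 K)
    {t1 r1 z1 a1 b1 al1 be1 h1 t2 r2 z2 a2 b2 al2 be2 h2 t3 r3 z3 a3 b3 al3 be3 h3 : ℝ}
    (F1 : Fan K t1 r1 z1 a1 b1 al1 be1 h1) (F2 : Fan K t2 r2 z2 a2 b2 al2 be2 h2)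
    (F3 : Fan K t3 r3 z3 a3 b3 al3 be3 h3) (c1 : a1 + π ≤ b2) (c2 : a2 + π ≤ b3)
    (g : t3 - t1 ≤ 2 * (π / 3)) : PSix K := by
  have i1 := F1.ta
  have i2 := F2.bt
  have i3 := F2.ta
  have i4 := F3.bt
  have e1 : a1 = t1 - π / 3 := by linarith
  have e2 : t2 = t1 + π / 3 := by linarith
  have e3 : b2 = t2 + π / 3 := by linarith
  have A := full_of_a hK F1 e1
  have B := full_of_b hK F2 e3
  rw [e2] at B
  exact ⟨_, _, _, _, _, _, _, A, B⟩

end Pool.Agent.Lib.MP_5e7226_co.RT
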