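import Mathlib
import Pool.Agent.Lib.MP_5e7226_co.RT.Fan

/-! # MP_5e7226, E^3 rotations, case (II): normals of one point (rows 0 and a) -/

set_option autoImplicit false

open Set Filter Topology
open scoped Real

namespace Pool.Agent.Lib.MP_5e7226_co.RT

lemma mem_rotz {K : Set Q3} (hK : RB 3 K) {x : Q3} (hx : x ∈ K) (j : ℤ) :
    Rz (2 * π / 3 * j) x ∈ K := by
  induction j using Int.induction_on with
  | zero => simpa [Rz_zero] using hx
  | succ i ih =>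
    have h1 := rot_mem hK ih
    rw [← Rz_add] at h1
    have e : 2 * (π / 3) + 2 * π / 3 * ((i : ℤ) : ℝ) = 2 * π / 3 * (((i : ℤ) + 1 : ℤ) : ℝ) := by
      push_cast; ring
    rwa [e] at h1
  | pred i ih =>
    have h1 := rot_mem' hK ih
    rw [← Rz_add] at h1
    have e : -(2 * (π / 3)) + 2 * π / 3 * ((-(i : ℤ) : ℤ) : ℝ) =
        2 * π / 3 * ((-(i : ℤ) - 1 : ℤ) : ℝ) := by
      push_cast; ring
    rwa [e] at h1

/-- Normals are rotated with the points. -/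
theorem rot_Nm {K : Set Q3} (hK : RB 3 K) {x n : Q3} (h : Nm K x n) (j : ℤ) :
    Nm K (eA (2 * π / 3 * j) * x.1, x.2) (eA (2 * π / 3 * j) * n.1, n.2) := by
  refine ⟨Rz_ne h.1, fun y hy => ?_⟩
  have h1 := h.2 _ (mem_rotz hK hy (-j))
  have e : 2 * π / 3 * ((-j : ℤ) : ℝ) = -(2 * π / 3 * j) := by push_cast; ring
  rw [e] at h1
  have h2 : pr (Rz (2 * π / 3 * j) n) y = pr n (Rz (-(2 * π / 3 * j)) y) := by
    rw [← pr_Rz (2 * π / 3 * j) n, Rz_cancel]
  have h3 := pr_Rz (2 * π / 3 * j) n x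
  unfold Rz at h1 h2 h3
  rw [h2, h3]
  exact h1

theorem rot_Sv {K : Set Q3} (hK : RB 3 K) {x v : Q3} (h : Sv K x v) (j : ℤ) :
    Sv K (eA (2 * π / 3 * j) * x.1, x.2) (eA (2 * π / 3 * j) * v.1, v.2) := by
  intro n hn
  have h1 := rot_Nm hK hn (-j)
  have e : 2 * π / 3 * ((-j : ℤ) : ℝ) = -(2 * π / 3 * j) := by push_cast; ring
  rw [e] at h1
  have h2 : Rz (-(2 * π / 3 * j)) (Rz (2 * π / 3 * j) x) = x := Rz_cancel' _ _
  unfold Rz at h2
  simp only at h1 h2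
  rw [h2] at h1
  have h3 := h _ h1
  have h4 := pr_Rz (2 * π / 3 * j) (eA (-(2 * π / 3 * j)) * n.1, n.2) v
  have h5 := Rz_cancel (2 * π / 3 * j) n
  unfold Rz at h4 h5
  simp only at h4 h5
  rw [h5] at h4
  have h6 : pr n (eA (2 * π / 3 * ↑j) * v.1, v.2) = pr (eA (-(2 * π / 3 * ↑j)) * n.1, n.2) v := h4
  rw [h6]
  exact h3

lemma pr_self (n : Q3) : pr n n = ‖n.1‖ ^ 2 + n.2 ^ 2 := by
  unfold pr
  rw [dotC_self]
  ring

lemma pr_smul_r_ah (c : ℝ) (n x : Q3) : pr n (c • x) = c * pr n x := by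
  unfold pr dotC
  simp
  ring

lemma pr_self_pos {n : Q3} (h : n ≠ 0) : 0 < pr n n := by
  rw [pr_self]
  by_cases h1 : n.1 = 0
  · have h2 : n.2 ≠ 0 := fun h2 => h (Prod.ext h1 h2)
    have := norm_nonneg n.1
    positivity
  · have := norm_pos_iff.mpr h1
    positivity

/-- normals are positive at their point. -/
lemma nm_pos {p : ℕ} {K : Set Q3} (hK : RB p K) {x n : Q3} (h : Nm K x n) : 0 < pr n x := by
  have h0 := hK.zero
  rw [mem_interior_iff_mem_nhds] at h0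
  have hc : Tendsto (fun c : ℝ => c • n) (𝓝 0) (𝓝 ((0 : ℝ) • n)) :=
    (continuous_id.smul continuous_const).tendsto 0
  rw [zero_smul] at hc
  have h1 : ∀ᶠ c : ℝ in 𝓝 0, c • n ∈ K := hc h0
  obtain ⟨ε, hε, h2⟩ := Metric.eventually_nhds_iff.mp h1
  have h3 : (ε / 2) • n ∈ K := h2 (by
    rw [dist_zero_right, Real.norm_eq_abs, abs_of_pos (by linarith)]; linarith)
  have h4 := h.2 _ h3
  rw [pr_smul_r_ah] at h4
  have h5 := mul_pos (half_pos hε) (pr_self_pos h.1)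
  linarith

/-- a1: the angle of a normal. -/
theorem normal_angle {K : Set Q3} (hK : RB 3 K) {ρ t : ℝ} (hρ : 0 < ρ) {z : ℝ}
    (hx : ((ρ : ℂ) * eA t, z) ∈ K) {n : Q3} (hn : Nm K ((ρ : ℂ) * eA t, z) n) (h0 : n.1 ≠ 0) :
    ∃ φ l : ℝ, 0 < l ∧ t - π / 3 ≤ φ ∧ φ ≤ t + π / 3 ∧ n.1 = (l : ℂ) * eA φ := by
  have hpi := Real.pi_pos
  obtain ⟨θ, l, hl, hθ1, hθ2, he⟩ : ∃ θ l : ℝ, 0 < l ∧ -π < θ ∧ θ ≤ π ∧
      n.1 = (l : ℂ) * eA (t + θ) := by
    refine ⟨Complex.arg (n.1 / eA t), ‖n.1‖, norm_pos_iff.mpr h0, Complex.neg_pi_lt_arg _,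
      Complex.arg_le_pi _, ?_⟩
    have h := Complex.norm_mul_exp_arg_mul_I (n.1 / eA t)
    rw [norm_div, norm_eA, div_one] at h
    rw [eA_add, eA_eq_exp (Complex.arg _), mul_comm (eA t), ← mul_assoc, h]
    rw [div_mul_cancel₀ _ (eA_ne_zero t)]
  have hs3 : 0 < Real.sin (π / 3) := Real.sin_pos_of_pos_of_lt_pi (by linarith) (by linarith)
  have key : ∀ y : ℝ, ((ρ : ℂ) * eA (t + y), z) ∈ K → Real.cos (θ - y) ≤ Real.cos θ := by
    intro y hy
    have h1 := hn.2 _ hy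
    unfold pr at h1
    simp only at h1
    rw [he, dotC_ofReal_right, dotC_ofReal_left, dotC_eA, dotC_ofReal_right, dotC_ofReal_left,
      dotC_eA] at h1
    have e1 : t + θ - (t + y) = θ - y := by ring
    have e2 : t + θ - t = θ := by ring
    rw [e1, e2] at h1
    have h2 : 0 < ρ * l := mul_pos hρ hl
    have h3 : (ρ * l) * Real.cos (θ - y) ≤ (ρ * l) * Real.cos θ := by linarith
    exact le_of_mul_le_mul_left h3 h2
  have k1 := key (2 * (π / 3)) (by rw [← Rz_pt]; exact rot_mem hK hx)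
  have k2 := key (-(2 * (π / 3))) (by rw [← Rz_pt]; exact rot_mem' hK hx)
  refine ⟨t + θ, l, hl, ?_, ?_, he⟩
  · by_contra hc
    rw [not_le] at hc
    have h1 : Real.sin (θ + π / 3) < 0 :=
      Real.sin_neg_of_neg_of_neg_pi_lt (by linarith) (by linarith)
    have h2 := Real.cos_sub_cos θ (θ - -(2 * (π / 3)))
    have e1 : (θ + (θ - -(2 * (π / 3)))) / 2 = θ + π / 3 := by ring
    have e2 : (θ - (θ - -(2 * (π / 3)))) / 2 = -(π / 3) := by ring
    rw [e1, e2, Real.sin_neg] at h2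
    have h3 := mul_neg_of_neg_of_pos h1 hs3
    linarith
  · by_contra hc
    rw [not_le] at hc
    have h1 : 0 < Real.sin (θ - π / 3) :=
      Real.sin_pos_of_pos_of_lt_pi (by linarith) (by linarith)
    have h2 := Real.cos_sub_cos θ (θ - (2 * (π / 3)))
    have e1 : (θ + (θ - (2 * (π / 3)))) / 2 = θ - π / 3 := by ring
    have e2 : (θ - (θ - (2 * (π / 3)))) / 2 = π / 3 := by ring
    rw [e1, e2] at h2
    have h3 := mul_pos h1 hs3
    linarith

/-- a2: points which are not served by `(0, ±1)` are mixed. -/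
theorem mixed_of {K : Set Q3} (hK : RB 3 K) {x : Q3} (hx : x ∈ K)
    (h1 : ¬ Sv K x ((0 : ℂ), 1)) (h2 : ¬ Sv K x ((0 : ℂ), -1)) : Mx K x := by
  unfold Sv at h1 h2
  push Not at h1 h2
  obtain ⟨n, hn, hn1⟩ := h1
  obtain ⟨m, hm, hm1⟩ := h2
  have e1 : pr n ((0 : ℂ), 1) = n.2 := by unfold pr; simp [dotC_zero_right]
  have e2 : pr m ((0 : ℂ), -1) = -m.2 := by unfold pr; simp [dotC_zero_right]
  rw [e1] at hn1
  rw [e2] at hm1
  refine ⟨hx, ?_⟩
  rcases eq_or_lt_of_le hn1 with h | h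
  · exact ⟨n.1, by
      have : ((n.1, 0) : Q3) = n := Prod.ext rfl h.symm
      rw [this]; exact hn⟩
  · -- combination
    have hpn := nm_pos hK hn
    have hpm := nm_pos hK hm
    have key : ∀ y, pr ((m.2 : ℂ) * n.1 + ((-n.2 : ℝ) : ℂ) * m.1, 0) y =
        m.2 * pr n y + (-n.2) * pr m y := by
      intro y
      unfold pr
      simp only
      rw [dotC_add_left, dotC_ofReal_left, dotC_ofReal_left]
      ring
    refine ⟨(m.2 : ℂ) * n.1 + ((-n.2 : ℝ) : ℂ) * m.1, ?_, ?_⟩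
    · intro h0
      have h3 := key x
      rw [h0] at h3
      have h4 : pr (0 : Q3) x = 0 := by unfold pr; simp [dotC_zero_left]
      rw [h4] at h3
      have h5 : 0 ≤ m.2 * pr n x := mul_nonneg (by linarith) hpn.le
      have h6 : 0 < (-n.2) * pr m x := mul_pos (by linarith) hpm
      linarith
    · intro y hy
      rw [key, key]
      have h5 := mul_le_mul_of_nonneg_left (hn.2 y hy) (show 0 ≤ m.2 by linarith)
      have h6 := mul_le_mul_of_nonneg_left (hm.2 y hy) (show 0 ≤ -n.2 by linarith)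
      linarith

/-- a3: a mixed point is not on the axis and has no vertical normals. -/
theorem mixed_polar {K : Set Q3} (hK : RB 3 K) {h h' : ℝ} (hT : Top K h) (hB : Bot K h') {x : Q3}
    (hx : Mx K x) : (∃ ρ t : ℝ, 0 < ρ ∧ x.1 = (ρ : ℂ) * eA t) ∧ ∀ n, Nm K x n → n.1 ≠ 0 := by
  obtain ⟨hxK, m, hm⟩ := hx
  have hx1 : x.1 ≠ 0 := by
    intro h0
    have h1 := nm_pos hK hm
    unfold pr at h1
    rw [h0] at h1
    simp [dotC_zero_right] at h1
  refine ⟨⟨‖x.1‖, Complex.arg x.1, norm_pos_iff.mpr hx1, ?_⟩, ?_⟩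
  · rw [eA_eq_exp]
    exact (Complex.norm_mul_exp_arg_mul_I x.1).symm
  · intro n hn h0
    have hn2 : n.2 ≠ 0 := fun h2 => hn.1 (Prod.ext h0 h2)
    have key : ∀ y, pr n y = n.2 * y.2 := by
      intro y; unfold pr; rw [h0]; simp [dotC_zero_left]
    rcases lt_or_gt_of_ne hn2 with h3 | h3
    · have h1 := hn.2 _ hB.mem
      rw [key, key] at h1
      have h2 : x.2 ≤ -h' := by
        have : n.2 * (-h') ≤ n.2 * x.2 := h1
        by_contra hc
        rw [not_le] at hc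
        have := mul_lt_mul_of_neg_left hc h3
        linarith
      exact hx1 (hB.eq x hxK (le_antisymm h2 (hB.le x hxK)))
    · have h1 := hn.2 _ hT.mem
      rw [key, key] at h1
      have h2 : h ≤ x.2 := le_of_mul_le_mul_left h1 h3
      exact hx1 (hT.eq x hxK (le_antisymm (hT.le x hxK) h2))

/-- a5: horizontals serve. -/
theorem Fan.serves {K : Set Q3} {t r z a b al be η φ : ℝ} (h : Fan K t r z a b al be η)
    (h1 : b - π / 2 < φ) (h2 : φ < a + π / 2) : Sv K ((r : ℂ) * eA t, z) (eA φ, 0) := by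
  intro n hn
  obtain ⟨s, θ, hs, h3, h4, h5⟩ := h.all n hn
  unfold pr
  simp only
  rw [h5, dotC_ofReal_left, dotC_eA, mul_zero, add_zero]
  exact mul_pos hs (Real.cos_pos_of_mem_Ioo ⟨by linarith, by linarith⟩)

/-- a6: a full point has the other full normal too. -/
theorem full_symm {K : Set Q3} (hK : RB 3 K) {ρ t z σ : ℝ}
    (hn : Nm K ((ρ : ℂ) * eA t, z) (eA (t + π / 3), σ)) :
    Nm K ((ρ : ℂ) * eA t, z) (eA (t - π / 3), σ) := by
  have h1 : Nm K (Rz (2 * (π / 3)) ((ρ : ℂ) * eA t, z)) (eA (t + π / 3), σ) := by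
    rw [Rz_pt]
    refine nm_of_eq hn ?_
    rw [pr_pt, pr_pt]
    have e1 : t + π / 3 - t = π / 3 := by ring
    have e2 : t + π / 3 - (t + 2 * (π / 3)) = -(π / 3) := by ring
    rw [e1, e2, Real.cos_neg]
  have h2 := nm_rot' hK h1
  rw [Rz_n] at h2
  have e2 : t + π / 3 + -(2 * (π / 3)) = t - π / 3 := by ring
  rw [e2] at h2
  exact h2

/-- a7 -/
theorem axis_serves {K : Set Q3} (hK : RB 3 K) {h : ℝ} (hT : Top K h) {z : ℝ}
    (hz : ((0 : ℂ), z) ∈ K) (hzh : 0 ≤ z) (hne : z ≠ h) (v : Q3) : Sv K ((0 : ℂ), z) v := by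
  intro n hn
  exfalso
  have h1 := nm_pos hK hn
  have key : ∀ y : ℝ, pr n ((0 : ℂ), y) = n.2 * y := by
    intro y; unfold pr; simp [dotC_zero_right]
  rw [key] at h1
  have h2 : 0 < n.2 := by
    by_contra hc
    rw [not_lt] at hc
    have := mul_nonpos_of_nonpos_of_nonneg hc hzh
    linarith
  have h3 := hn.2 _ hT.mem
  rw [key, key] at h3
  have h4 : h ≤ z := le_of_mul_le_mul_left h3 h2
  exact hne (le_antisymm (hT.le _ hz) h4)

/-- a4': the extreme normals at a mixed point with a given angle. -/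
theorem exists_fan' {K : Set Q3} (hK : RB 3 K) {h h' : ℝ} (hT : Top K h) (hB : Bot K h')
    {ρ t z : ℝ} (hρ : 0 < ρ) (hx : Mx K ((ρ : ℂ) * eA t, z)) :
    ∃ a b al be η : ℝ, Fan K t ρ z a b al be η := by
  obtain ⟨-, hnv⟩ := mixed_polar hK hT hB hx
  obtain ⟨hxK, m, hm⟩ := hx
  have hne0 : ((ρ : ℂ) * eA t) ≠ 0 :=
    mul_ne_zero (by exact_mod_cast hρ.ne') (eA_ne_zero t)
  have hzh : z < h := by
    rcases lt_or_eq_of_le (hT.le _ hxK) with h1 | h1
    · exact h1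
    · exact absurd (hT.eq _ hxK h1) hne0
  have hzh' : -h' < z := by
    rcases lt_or_eq_of_le (hB.le _ hxK) with h1 | h1
    · exact h1
    · exact absurd (hB.eq _ hxK h1.symm) hne0
  -- bound of the slopes
  have hbd : ∀ φ s : ℝ, Nm K ((ρ : ℂ) * eA t, z) (eA φ, s) →
      s ≤ ρ / (h - z) ∧ -(ρ / (z + h')) ≤ s := by
    intro φ s hn
    have h1 := hn.2 _ hT.mem
    have h2 := hn.2 _ hB.mem
    rw [pr_pt] at h1 h2
    unfold pr at h1 h2
    simp only [dotC_zero_right, zero_add] at h1 h2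
    have h3 : ρ * Real.cos (φ - t) ≤ ρ := by
      have := mul_le_mul_of_nonneg_left (Real.cos_le_one (φ - t)) hρ.le
      linarith
    constructor
    · rw [le_div_iff₀ (by linarith)]
      nlinarith
    · rw [neg_le, le_div_iff₀ (by linarith)]
      nlinarith
  set S : Set (ℝ × ℝ) := {q | q ∈ Set.Icc (t - π / 3, -(ρ / (z + h'))) (t + π / 3, ρ / (h - z)) ∧
    ∀ y ∈ K, pr (eA q.1, q.2) y ≤ pr (eA q.1, q.2) ((ρ : ℂ) * eA t, z)} with hS
  have hcont : ∀ y : Q3, Continuous (fun q : ℝ × ℝ => pr (eA q.1, q.2) y) := by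
    intro y
    unfold pr dotC
    simp only [eA_re, eA_im]
    fun_prop
  have hSc : IsCompact S := by
    have hcl : IsClosed {q : ℝ × ℝ | ∀ y ∈ K, pr (eA q.1, q.2) y ≤
        pr (eA q.1, q.2) ((ρ : ℂ) * eA t, z)} := by
      have : {q : ℝ × ℝ | ∀ y ∈ K, pr (eA q.1, q.2) y ≤ pr (eA q.1, q.2) ((ρ : ℂ) * eA t, z)} =
          ⋂ y ∈ K, {q : ℝ × ℝ | pr (eA q.1, q.2) y ≤ pr (eA q.1, q.2) ((ρ : ℂ) * eA t, z)} := by
        ext q; simp
      rw [this]
      exact isClosed_biInter fun y _ => isClosed_le (hcont y) (hcont _)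
    exact isCompact_Icc.inter_right hcl
  have hSN : ∀ q ∈ S, Nm K ((ρ : ℂ) * eA t, z) (eA q.1, q.2) := by
    intro q hq
    refine ⟨fun h0 => eA_ne_zero q.1 (congrArg Prod.fst h0), hq.2⟩
  have hmemS : ∀ n, Nm K ((ρ : ℂ) * eA t, z) n → ∃ s θ : ℝ, 0 < s ∧ (θ, n.2 / s) ∈ S ∧
      n.1 = (s : ℂ) * eA θ := by
    intro n hn
    obtain ⟨φ, l, hl, h1, h2, h3⟩ := normal_angle hK hρ hxK hn (hnv n hn)
    have hN : Nm K ((ρ : ℂ) * eA t, z) (eA φ, n.2 / l) := by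
      refine ⟨fun h0 => eA_ne_zero φ (congrArg Prod.fst h0), fun y hy => ?_⟩
      have h4 := hn.2 y hy
      have key : ∀ y, pr n y = l * pr (eA φ, n.2 / l) y := by
        intro y
        unfold pr
        simp only
        rw [h3, dotC_ofReal_left]
        field_simp
      rw [key, key] at h4
      exact le_of_mul_le_mul_left h4 hl
    obtain ⟨h4, h5⟩ := hbd _ _ hN
    exact ⟨l, φ, hl, ⟨⟨⟨h1, h5⟩, ⟨h2, h4⟩⟩, hN.2⟩, h3⟩
  -- a horizontal normal
  obtain ⟨s0, η, hs0, hη, he0⟩ := hmemS _ hm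
  simp only [zero_div] at hη
  obtain ⟨qa, hqa, hamin⟩ := hSc.exists_isMinOn ⟨_, hη⟩ continuous_fst.continuousOn
  obtain ⟨qb, hqb, hbmax⟩ := hSc.exists_isMaxOn ⟨_, hη⟩ continuous_fst.continuousOn
  refine ⟨qa.1, qb.1, qa.2, qb.2, η, hρ, hxK, hSN qa hqa, hSN qb hqb, hSN _ hη, hqa.1.1.1,
    hamin hη, hbmax hη, hqb.1.2.1, ?_⟩
  intro n hn
  obtain ⟨s, θ, hs, h1, h2⟩ := hmemS n hn
  exact ⟨s, θ, hs, hamin h1, hbmax h1, h2⟩

/-- a4: the extreme normals of a mixed point. -/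
theorem exists_fan {K : Set Q3} (hK : RB 3 K) {h h' : ℝ} (hT : Top K h) (hB : Bot K h') {x : Q3}
    (hx : Mx K x) : ∃ t r z a b al be η : ℝ, x = ((r : ℂ) * eA t, z) ∧
      Fan K t r z a b al be η := by
  obtain ⟨⟨ρ, t, hρ, he⟩, -⟩ := mixed_polar hK hT hB hx
  have hx' : x = ((ρ : ℂ) * eA t, x.2) := Prod.ext he rfl
  rw [hx'] at hx
  obtain ⟨a, b, al, be, η, hF⟩ := exists_fan' hK hT hB hρ hx
  exact ⟨t, ρ, x.2, a, b, al, be, η, hx', hF⟩

/-- f1: five horizontals serve all mixed points: seven directions. -/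
theorem served_of_five {K : Set Q3} (hK : RB 3 K) (p : Fin 5 → ℝ)
    (h : ∀ w, Mx K w → ∃ i, Sv K w (eA (p i), 0)) : Served K 7 := by
  refine ⟨![((0 : ℂ), 1), ((0 : ℂ), -1), (eA (p 0), 0), (eA (p 1), 0), (eA (p 2), 0),
    (eA (p 3), 0), (eA (p 4), 0)], fun x hx => ?_⟩
  by_cases h1 : Sv K x ((0 : ℂ), 1)
  · exact ⟨0, h1⟩
  by_cases h2 : Sv K x ((0 : ℂ), -1)
  · exact ⟨1, h2⟩
  obtain ⟨i, hi⟩ := h x (mixed_of hK hx h1 h2)
  fin_cases i
  · exact ⟨2, hi⟩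
  · exact ⟨3, hi⟩
  · exact ⟨4, hi⟩
  · exact ⟨5, hi⟩
  · exact ⟨6, hi⟩

end Pool.Agent.Lib.MP_5e7226_co.RT
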