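import Mathlib
import Pool.Agent.Lib.MP_5e7226_co.RT.Fan

set_option autoImplicit false

open Real

namespace Pool.Agent.Lib.MP_5e7226_co.RT

/-- the point of the chain with index `k` -/
def cF (k : ℤ) : Fin 5 :=
  if k % 5 = 0 then 0 else if k % 5 = 1 then 2 else if k % 5 = 2 then 4 else
    if k % 5 = 3 then 1 else 3

/-- and its rotation -/
def mF (k : ℤ) : ℤ :=
  if k % 5 = 0 then k / 5 else if k % 5 = 1 then k / 5 - 1 else if k % 5 = 2 then k / 5 - 2 else
    if k % 5 = 3 then k / 5 else k / 5 - 1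

lemma cF_per (k : ℤ) : cF (k + 5) = cF k := by
  have h : (k + 5) % 5 = k % 5 := by omega
  simp only [cF, h]

lemma mF_per (k : ℤ) : mF (k + 5) = mF k + 1 := by
  have h : (k + 5) % 5 = k % 5 := by omega
  have h' : (k + 5) / 5 = k / 5 + 1 := by omega
  simp only [mF, h, h']
  split_ifs <;> ring

theorem chain_P6 {K : Set Q3} (hK : RB 3 K) {t r z a b al be h : Fin 5 → ℝ}
    (F : ∀ i, Fan K (t i) (r i) (z i) (a i) (b i) (al i) (be i) (h i))
    (c0 : a 0 + π ≤ b 1) (c1 : a 1 + π ≤ b 2) (c2 : a 2 + π ≤ b 3) (c3 : a 3 + π ≤ b 4)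
    (c4 : a 4 + π ≤ b 0 + 2 * π) : PSix K := by
  by_contra hP
  have hpi := Real.pi_pos
  -- the rotated first two points
  have F0 := fan_rot hK (F 0) 3
  have F1 := fan_rot hK (F 1) 3
  have e : ∀ x : ℝ, x + ((3 : ℤ) : ℝ) * (2 * (π / 3)) = x + 2 * π := by
    intro x; push_cast; ring
  rw [e, e, e, e] at F0 F1
  have g0 : 2 * (π / 3) < t 2 - t 0 := by
    by_contra hc
    exact hP (P6_of_gap hK (F 0) (F 1) (F 2) c0 c1 (not_lt.mp hc))
  have g1 : 2 * (π / 3) < t 3 - t 1 := by
    by_contra hc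
    exact hP (P6_of_gap hK (F 1) (F 2) (F 3) c1 c2 (not_lt.mp hc))
  have g2 : 2 * (π / 3) < t 4 - t 2 := by
    by_contra hc
    exact hP (P6_of_gap hK (F 2) (F 3) (F 4) c2 c3 (not_lt.mp hc))
  have g3 : 2 * (π / 3) < (t 0 + 2 * π) - t 3 := by
    by_contra hc
    exact hP (P6_of_gap hK (F 3) (F 4) F0 c3 c4 (not_lt.mp hc))
  have g4 : 2 * (π / 3) < (t 1 + 2 * π) - t 4 := by
    by_contra hc
    exact hP (P6_of_gap hK (F 4) F0 F1 c4 (by linarith) (not_lt.mp hc))
  have FF : ∀ k : ℤ, Fan K (t (cF k) + mF k * (2 * (π / 3))) (r (cF k)) (z (cF k))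
      (a (cF k) + mF k * (2 * (π / 3))) (b (cF k) + mF k * (2 * (π / 3))) (al (cF k))
      (be (cF k)) (h (cF k) + mF k * (2 * (π / 3))) := fun k => fan_rot hK (F (cF k)) (mF k)
  have hcases : ∀ k : ℤ, k % 5 = 0 ∨ k % 5 = 1 ∨ k % 5 = 2 ∨ k % 5 = 3 ∨ k % 5 = 4 := by
    intro k; omega
  refine RTC.core5 (tau := fun k => t (cF k) + mF k * (2 * (π / 3))) (r := fun k => r (cF k))
    (z := fun k => z (cF k)) (a := fun k => a (cF k) + mF k * (2 * (π / 3)))
    (b := fun k => b (cF k) + mF k * (2 * (π / 3))) (al := fun k => al (cF k))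
    (be := fun k => be (cF k)) (h := fun k => h (cF k) + mF k * (2 * (π / 3)))
    (fun k => (FF k).rpos) ?_ ?_ ?_ ?_ ?_ ?_ (fun k => (FF k).ta) (fun k => (FF k).ah)
    (fun k => (FF k).hb) (fun k => (FF k).bt) ?_ ?_ ?_ ?_
  · intro k
    rcases hcases k with h0 | h0 | h0 | h0 | h0
    · have h1 : (k + 1) % 5 = 1 := by omega
      have h2 : (k + 1) / 5 = k / 5 := by omega
      simp only [cF, mF, h0, h1, h2]
      norm_num
      linarith
    · have h1 : (k + 1) % 5 = 2 := by omega
      have h2 : (k + 1) / 5 = k / 5 := by omega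
      simp only [cF, mF, h0, h1, h2]
      norm_num
      linarith
    · have h1 : (k + 1) % 5 = 3 := by omega
      have h2 : (k + 1) / 5 = k / 5 := by omega
      simp only [cF, mF, h0, h1, h2]
      norm_num
      linarith
    · have h1 : (k + 1) % 5 = 4 := by omega
      have h2 : (k + 1) / 5 = k / 5 := by omega
      simp only [cF, mF, h0, h1, h2]
      norm_num
      linarith
    · have h1 : (k + 1) % 5 = 0 := by omega
      have h2 : (k + 1) / 5 = k / 5 + 1 := by omega
      simp only [cF, mF, h0, h1, h2]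
      norm_num
      linarith
  · intro k
    simp only [cF_per, mF_per]
    push_cast
    ring
  · intro k
    simp only [cF_per]
  · intro k
    simp only [cF_per]
  · intro k
    simp only [cF_per, mF_per]
    push_cast
    ring
  · intro k
    simp only [cF_per, mF_per]
    push_cast
    ring
  · intro k j
    have h1 := (FF k).na.2 _ (FF j).mem
    rw [pr_pt, pr_pt] at h1
    exact h1
  · intro k j
    have h1 := (FF k).nb.2 _ (FF j).mem
    rw [pr_pt, pr_pt] at h1
    exact h1
  · intro k j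
    have h1 := (FF k).nh.2 _ (FF j).mem
    rw [pr_pt, pr_pt] at h1
    simpa using h1
  · intro k
    rcases hcases k with h0 | h0 | h0 | h0 | h0
    · have h1 : (k + 2) % 5 = 2 := by omega
      have h2 : (k + 2) / 5 = k / 5 := by omega
      simp only [cF, mF, h0, h1, h2]
      norm_num
      linarith
    · have h1 : (k + 2) % 5 = 3 := by omega
      have h2 : (k + 2) / 5 = k / 5 := by omega
      simp only [cF, mF, h0, h1, h2]
      norm_num
      linarith
    · have h1 : (k + 2) % 5 = 4 := by omega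
      have h2 : (k + 2) / 5 = k / 5 := by omega
      simp only [cF, mF, h0, h1, h2]
      norm_num
      linarith
    · have h1 : (k + 2) % 5 = 0 := by omega
      have h2 : (k + 2) / 5 = k / 5 + 1 := by omega
      simp only [cF, mF, h0, h1, h2]
      norm_num
      linarith
    · have h1 : (k + 2) % 5 = 1 := by omega
      have h2 : (k + 2) / 5 = k / 5 + 1 := by omega
      simp only [cF, mF, h0, h1, h2]
      norm_num
      linarith

end Pool.Agent.Lib.MP_5e7226_co.RT
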