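import Pool.Agent.Lib.MP_5e7226_co.RT.IIIDefs

/-!
# MP_5e7226, E^3 rotations, case (III): small facts, compactness, rims, the double limit
-/

set_option autoImplicit false

open Set Filter Topology

namespace Pool.Agent.Lib.MP_5e7226_co.RT

/-! ### the bilinear form -/

lemma pr_add_left (n m x : Q3) : pr (n + m) x = pr n x + pr m x := by
  simp [pr, dotC]; ring

lemma pr_smul_left (c : ℝ) (n x : Q3) : pr (c • n) x = c * pr n x := by
  simp [pr, dotC]; ring

lemma pr_add_right (n x y : Q3) : pr n (x + y) = pr n x + pr n y := by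
  simp [pr, dotC]; ring

lemma pr_smul_right (c : ℝ) (n x : Q3) : pr n (c • x) = c * pr n x := by
  simp [pr, dotC]; ring

lemma pr_mk (a b : ℂ) (s t : ℝ) : pr (a, s) (b, t) = dotC a b + s * t := rfl

lemma continuous_pr : Continuous (fun p : Q3 × Q3 => pr p.1 p.2) := by
  unfold pr dotC
  fun_prop

lemma tendsto_pr {f g : ℕ → Q3} {a b : Q3} (hf : Tendsto f atTop (𝓝 a))
    (hg : Tendsto g atTop (𝓝 b)) : Tendsto (fun k => pr (f k) (g k)) atTop (𝓝 (pr a b)) :=
  (continuous_pr.tendsto (a, b)).comp (hf.prodMk_nhds hg)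

lemma Nm_smul {K : Set Q3} {x n : Q3} (h : Nm K x n) {c : ℝ} (hc : 0 < c) : Nm K x (c • n) := by
  refine ⟨smul_ne_zero hc.ne' h.1, fun y hy => ?_⟩
  rw [pr_smul_left, pr_smul_left]
  exact mul_le_mul_of_nonneg_left (h.2 y hy) hc.le

/-- the limit of normals. -/
lemma normal_limit {K : Set Q3} {y n : ℕ → Q3} {x : Q3} (hy : Tendsto y atTop (𝓝 x))
    (hn : ∀ k, Nm K (y k) (n k)) :
    ∃ (φ : ℕ → ℕ) (m : Q3), StrictMono φ ∧ Nm K x m ∧
      Tendsto (fun k => ‖n (φ k)‖⁻¹ • n (φ k)) atTop (𝓝 m) := by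
  have hpos : ∀ k, 0 < ‖n k‖ := fun k => norm_pos_iff.2 (hn k).1
  have hu : ∀ k, ‖n k‖⁻¹ • n k ∈ Metric.sphere (0 : Q3) 1 := by
    intro k
    rw [mem_sphere_zero_iff_norm, norm_smul, norm_inv, norm_norm, inv_mul_cancel₀ (hpos k).ne']
  obtain ⟨m, hm, φ, hφ, hlim⟩ := (isCompact_sphere (0 : Q3) 1).tendsto_subseq hu
  refine ⟨φ, m, hφ, ⟨?_, fun z hz => ?_⟩, hlim⟩
  · intro h0
    rw [h0, mem_sphere_zero_iff_norm, norm_zero] at hm
    exact zero_ne_one hm
  · have h1 : Tendsto (fun k => pr (‖n (φ k)‖⁻¹ • n (φ k)) z) atTop (𝓝 (pr m z)) :=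
      tendsto_pr hlim tendsto_const_nhds
    have h2 : Tendsto (fun k => pr (‖n (φ k)‖⁻¹ • n (φ k)) (y (φ k))) atTop (𝓝 (pr m x)) :=
      tendsto_pr hlim (hy.comp hφ.tendsto_atTop)
    exact le_of_tendsto_of_tendsto' h1 h2 fun k =>
      (Nm_smul (hn (φ k)) (inv_pos.2 (hpos _))).2 z hz

/-! ### ROW III.0 -/

theorem isClosed_Mx {K : Set Q3} (hK : IsCompact K) : IsClosed {x | Mx K x} := by
  rw [← isSeqClosed_iff_isClosed]
  intro y x hy hlim
  have hx : x ∈ K := hK.isClosed.isSeqClosed (fun k => (hy k).1) hlim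
  choose m hm using fun k => (hy k).2
  obtain ⟨φ, u, _, hu, hl⟩ := normal_limit hlim hm
  refine ⟨hx, u.1, ?_⟩
  have h2 : u.2 = 0 := by
    have h3 : Tendsto (fun k => (‖((m (φ k), 0) : Q3)‖⁻¹ • ((m (φ k), 0) : Q3)).2) atTop
        (𝓝 u.2) := (continuous_snd.tendsto u).comp hl
    have h4 : (fun k => (‖((m (φ k), 0) : Q3)‖⁻¹ • ((m (φ k), 0) : Q3)).2) = fun _ => (0 : ℝ) := by
      funext k
      simp
    rw [h4] at h3
    exact (tendsto_nhds_unique h3 tendsto_const_nhds)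
  have h5 : ((u.1, 0) : Q3) = u := by rw [← h2]
  rw [h5]
  exact hu

theorem sv_open {K : Set Q3} {x v : Q3} (h : Sv K x v) :
    ∃ δ > 0, ∀ y ∈ K, dist y x < δ → ∀ w, dist w v < δ → Sv K y w := by
  by_contra hcon
  push Not at hcon
  have hseq : ∀ k : ℕ, ∃ y, y ∈ K ∧ dist y x < 1 / ((k : ℝ) + 1) ∧ ∃ w n,
      dist w v < 1 / ((k : ℝ) + 1) ∧ Nm K y n ∧ pr n w ≤ 0 := by
    intro k
    obtain ⟨y, hy, hd, w, hw, hs⟩ := hcon (1 / ((k : ℝ) + 1)) (by positivity)
    unfold Sv at hs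
    push Not at hs
    obtain ⟨n, hn, hle⟩ := hs
    exact ⟨y, hy, hd, w, n, hw, hn, hle⟩
  choose y _ hyd w n hwd hn hle using hseq
  have h0 : Tendsto (fun k : ℕ => 1 / ((k : ℝ) + 1)) atTop (𝓝 0) :=
    tendsto_one_div_add_atTop_nhds_zero_nat
  have hy : Tendsto y atTop (𝓝 x) := by
    rw [tendsto_iff_dist_tendsto_zero]
    exact squeeze_zero (fun _ => dist_nonneg) (fun k => (hyd k).le) h0
  have hw : Tendsto w atTop (𝓝 v) := by
    rw [tendsto_iff_dist_tendsto_zero]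
    exact squeeze_zero (fun _ => dist_nonneg) (fun k => (hwd k).le) h0
  obtain ⟨φ, m, hφ, hm, hlim⟩ := normal_limit hy hn
  have h1 := tendsto_pr hlim (hw.comp hφ.tendsto_atTop)
  have h2 : pr m v ≤ 0 := by
    refine le_of_tendsto' h1 fun k => ?_
    rw [pr_smul_left]
    exact mul_nonpos_of_nonneg_of_nonpos (inv_nonneg.2 (norm_nonneg _)) (hle _)
  exact absurd (h m hm) (not_lt.2 h2)

/-- in a set with interior points, opposite normals do not occur. -/
lemma no_opp {K : Set Q3} (h0 : (interior K).Nonempty) {x n : Q3} (hn : Nm K x n) {c : ℝ}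
    (hc : 0 < c) (h : Nm K x (-(c • n))) : False := by
  obtain ⟨p, hp⟩ := h0
  have heq : ∀ y ∈ K, pr n y = pr n x := by
    intro y hy
    have h1 := hn.2 y hy
    have h2 := h.2 y hy
    have h3 : ∀ z, pr (-(c • n)) z = -(c * pr n z) := by
      intro z
      simp [pr, dotC]; ring
    rw [h3, h3] at h2
    nlinarith
  have hmem : ∀ᶠ t : ℝ in 𝓝 0, p + t • n ∈ K := by
    have h1 : Tendsto (fun t : ℝ => p + t • n) (𝓝 0) (𝓝 p) := by
      have : Continuous (fun t : ℝ => p + t • n) := by fun_prop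
      have h2 := this.tendsto 0
      simpa using h2
    exact h1 (mem_interior_iff_mem_nhds.1 hp)
  have hpK : p ∈ K := interior_subset hp
  obtain ⟨ε, hε, hball⟩ := Metric.eventually_nhds_iff.1 hmem
  have h1 : p + (ε / 2) • n ∈ K := hball (by
    rw [dist_zero_right, Real.norm_eq_abs, abs_of_pos (by positivity)]; linarith)
  have h2 := heq _ h1
  rw [pr_add_right, pr_smul_right, heq p hpK] at h2
  have h3 : pr n n = 0 := by
    have : ε / 2 * pr n n = 0 := by linarith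
    rcases mul_eq_zero.1 this with h | h
    · linarith
    · exact h
  have h4 : n = 0 := by
    have h5 : n.1.re * n.1.re + n.1.im * n.1.im + n.2 * n.2 = 0 := h3
    have h6 : n.1.re = 0 := by nlinarith [mul_self_nonneg n.1.re, mul_self_nonneg n.1.im, mul_self_nonneg n.2]
    have h7 : n.1.im = 0 := by nlinarith [mul_self_nonneg n.1.re, mul_self_nonneg n.1.im, mul_self_nonneg n.2]
    have h8 : n.2 = 0 := by nlinarith [mul_self_nonneg n.1.re, mul_self_nonneg n.1.im, mul_self_nonneg n.2]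
    exact Prod.ext (Complex.ext h6 h7) h8
  exact hn.1 h4

theorem trich {K : Set Q3} (h0 : (interior K).Nonempty) {x : Q3} (hx : x ∈ K) :
    (∀ n, Nm K x n → 0 < n.2) ∨ (∀ n, Nm K x n → n.2 < 0) ∨ Mx K x := by
  by_contra hcon
  push Not at hcon
  obtain ⟨⟨n, hn, hn2⟩, ⟨m, hm, hm2⟩, hMx⟩ := hcon
  apply hMx
  refine ⟨hx, ?_⟩
  rcases hn2.eq_or_lt with h1 | h1
  · refine ⟨n.1, ?_⟩
    rw [show ((n.1, 0) : Q3) = n from Prod.ext rfl h1.symm]
    exact hn
  rcases hm2.eq_or_lt with h2 | h2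
  · refine ⟨m.1, ?_⟩
    rw [show ((m.1, 0) : Q3) = m from Prod.ext rfl h2]
    exact hm
  -- combine
  have hsum : m.2 • n + (-n.2) • m = (m.2 • n.1 + (-n.2) • m.1, 0) := by
    refine Prod.ext rfl ?_
    simp
    ring
  refine ⟨m.2 • n.1 + (-n.2) • m.1, ?_, ?_⟩
  · rw [← hsum]
    intro h3
    have h4 : m = -((m.2 / -n.2) • n) := by
      have h5 : (-n.2) • m = -(m.2 • n) := by
        rw [eq_neg_iff_add_eq_zero, add_comm]
        exact h3
      have h6 : (-n.2)⁻¹ • ((-n.2) • m) = (-n.2)⁻¹ • (-(m.2 • n)) := by rw [h5]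
      rw [smul_smul, inv_mul_cancel₀ (by linarith : (-n.2) ≠ 0), one_smul, smul_neg, smul_smul]
        at h6
      rw [div_eq_inv_mul]
      exact h6
    rw [h4] at hm
    exact no_opp h0 hn (div_pos h2 (by linarith)) hm
  · intro y hy
    rw [← hsum, pr_add_left, pr_add_left, pr_smul_left, pr_smul_left, pr_smul_left, pr_smul_left]
    have h3 := mul_le_mul_of_nonneg_left (hn.2 y hy) h2.le
    have h4 := mul_le_mul_of_nonneg_left (hm.2 y hy) (by linarith : (0 : ℝ) ≤ -n.2)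
    linarith

theorem Nm_fl {K : Set Q3} (x n : Q3) : Nm (fl K) x n ↔ Nm K (x.1, -x.2) (n.1, -n.2) := by
  constructor
  · rintro ⟨h1, h2⟩
    refine ⟨?_, fun y hy => ?_⟩
    · intro h
      apply h1
      have h3 := congrArg Prod.fst h
      have h4 := congrArg Prod.snd h
      simp at h3 h4
      exact Prod.ext h3 h4
    · have h3 := h2 (y.1, -y.2) (by
        show ((y.1, - -y.2) : Q3) ∈ K
        rw [neg_neg]
        exact hy)
      simp only [pr] at h3 ⊢
      linarith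
  · rintro ⟨h1, h2⟩
    refine ⟨?_, fun y hy => ?_⟩
    · intro h
      apply h1
      rw [h]
      simp
    · have h3 := h2 (y.1, -y.2) hy
      simp only [pr] at h3 ⊢
      linarith

theorem Sv_fl {K : Set Q3} (x v : Q3) : Sv (fl K) x v ↔ Sv K (x.1, -x.2) (v.1, -v.2) := by
  constructor
  · intro h n hn
    have h1 := h (n.1, -n.2) ((Nm_fl _ _).2 (by simpa using hn))
    simp only [pr] at h1 ⊢
    linarith
  · intro h n hn
    have h1 := h (n.1, -n.2) ((Nm_fl _ _).1 hn)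
    simp only [pr] at h1 ⊢
    linarith

theorem RB_fl {K : Set Q3} {p : ℕ} (hK : RB p K) : RB p (fl K) := by
  have hcont : Continuous (fun x : Q3 => ((x.1, -x.2) : Q3)) := by fun_prop
  have hpre : fl K = (fun x : Q3 => ((x.1, -x.2) : Q3)) ⁻¹' K := rfl
  have himg : fl K = (fun x : Q3 => ((x.1, -x.2) : Q3)) '' K := by
    ext x
    constructor
    · intro hx
      exact ⟨(x.1, -x.2), hx, by simp⟩
    · rintro ⟨y, hy, rfl⟩
      show ((y.1, - -y.2) : Q3) ∈ K
      rw [neg_neg]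
      exact hy
  refine ⟨hK.p3, ?_, ?_, ?_, ?_⟩
  · rw [himg]
    exact hK.comp.image hcont
  · intro x hx y hy a b ha hb hab
    have h := hK.conv hx hy ha hb hab
    show (((a • x + b • y).1, -(a • x + b • y).2) : Q3) ∈ K
    have h2 : (((a • x + b • y).1, -(a • x + b • y).2) : Q3) =
        a • ((x.1, -x.2) : Q3) + b • ((y.1, -y.2) : Q3) := by
      refine Prod.ext ?_ ?_
      · simp
      · simp
        ring
    rw [h2]
    exact h
  · rw [hpre]
    have h1 : (fun x : Q3 => ((x.1, -x.2) : Q3)) ⁻¹' K ∈ 𝓝 (0 : Q3) := by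
      apply hcont.continuousAt.preimage_mem_nhds
      have : (((0 : Q3).1, -(0 : Q3).2) : Q3) = 0 := by simp
      rw [this]
      exact mem_interior_iff_mem_nhds.1 hK.zero
    exact mem_interior_iff_mem_nhds.2 h1
  · intro x hx
    exact hK.rot (x.1, -x.2) hx

lemma top_pos {K : Set Q3} (h0 : (0 : Q3) ∈ interior K) {h : ℝ} (ht : FlatTop K h) : 0 < h := by
  have hcont : Continuous (fun t : ℝ => ((0, t) : Q3)) := by fun_prop
  have h1 : (fun t : ℝ => ((0, t) : Q3)) ⁻¹' K ∈ 𝓝 (0 : ℝ) :=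
    hcont.continuousAt.preimage_mem_nhds (mem_interior_iff_mem_nhds.1 h0)
  obtain ⟨ε, hε, hb⟩ := Metric.mem_nhds_iff.1 h1
  have h2 : ε / 2 ∈ Metric.ball (0 : ℝ) ε := by
    rw [Metric.mem_ball, dist_zero_right, Real.norm_eq_abs, abs_of_pos (by positivity)]
    linarith
  have h3 := ht.1 _ (hb h2)
  have h4 : ((0, ε / 2) : Q3).2 = ε / 2 := rfl
  rw [h4] at h3
  linarith

/-! ### ROW III.1 -/

theorem exists_small {K : Set Q3} (hK : IsCompact K) (L : Q3 → ℝ → Prop)
    (h : ∀ x ∈ K, ∃ δ > 0, ∀ y ∈ K, dist y x < δ → ∀ ε, 0 < ε → ε < δ → L y ε) :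
    ∃ ε > 0, ∀ x ∈ K, L x ε := by
  by_contra hcon
  push Not at hcon
  have hseq : ∀ k : ℕ, ∃ x ∈ K, ¬ L x (1 / ((k : ℝ) + 1)) := fun k => hcon _ (by positivity)
  choose x hxK hx using hseq
  obtain ⟨y, hy, φ, hφ, hlim⟩ := hK.tendsto_subseq hxK
  obtain ⟨δ, hδ, hd⟩ := h y hy
  have h0 : Tendsto (fun k : ℕ => 1 / ((k : ℝ) + 1)) atTop (𝓝 0) :=
    tendsto_one_div_add_atTop_nhds_zero_nat
  have h1 : ∀ᶠ k in atTop, dist (x (φ k)) y < δ := hlim (Metric.ball_mem_nhds y hδ)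
  have h2 : ∀ᶠ k in atTop, 1 / ((φ k : ℝ) + 1) < δ :=
    (h0.comp hφ.tendsto_atTop).eventually (gt_mem_nhds hδ)
  obtain ⟨k, hk1, hk2⟩ := (h1.and h2).exists
  exact hx (φ k) (hd _ (hxK _) hk1 _ (by positivity) hk2)

/-- serving with a finite family. -/
theorem served_of_fintype {K : Set Q3} {ι : Type*} [Fintype ι] {N : ℕ} (hc : Fintype.card ι = N)
    (v : ι → Q3) (h : ∀ x ∈ K, ∃ i, Sv K x (v i)) : Served K N := by
  classical
  have e : ι ≃ Fin N := Fintype.equivFinOfCardEq hc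
  refine ⟨fun i => v (e.symm i), fun x hx => ?_⟩
  obtain ⟨i, hi⟩ := h x hx
  exact ⟨e i, by simpa using hi⟩

/-! ### ROW III.2 -/

lemma dotC_smul_left' (c : ℝ) (a b : ℂ) : dotC (c • a) b = c * dotC a b := by
  simp [dotC]; ring

/-- planar serving is open, uniformly. -/
lemma plane_open {T : Set ℂ} {q e : ℂ} (hq : q ∈ T) (he : ∀ m, NP T q m → 0 < dotC m e) :
    ∃ δ > 0, ∀ p : ℂ, dist p q < δ → ∀ m : ℂ, m ≠ 0 → (∀ y ∈ T, dotC m y ≤ dotC m p) →
      0 < dotC m e := by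
  by_contra hcon
  push Not at hcon
  have hseq : ∀ k : ℕ, ∃ p m : ℂ, dist p q < 1 / ((k : ℝ) + 1) ∧ m ≠ 0 ∧
      (∀ y ∈ T, dotC m y ≤ dotC m p) ∧ dotC m e ≤ 0 := by
    intro k
    obtain ⟨p, hp, m, hm, h1, h2⟩ := hcon (1 / ((k : ℝ) + 1)) (by positivity)
    exact ⟨p, m, hp, hm, h1, h2⟩
  choose p m hp hm h1 h2 using hseq
  have h0 : Tendsto (fun k : ℕ => 1 / ((k : ℝ) + 1)) atTop (𝓝 0) :=
    tendsto_one_div_add_atTop_nhds_zero_nat
  have hpl : Tendsto p atTop (𝓝 q) := by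
    rw [tendsto_iff_dist_tendsto_zero]
    exact squeeze_zero (fun _ => dist_nonneg) (fun k => (hp k).le) h0
  have hpos : ∀ k, 0 < ‖m k‖ := fun k => norm_pos_iff.2 (hm k)
  have hu : ∀ k, ‖m k‖⁻¹ • m k ∈ Metric.sphere (0 : ℂ) 1 := by
    intro k
    rw [mem_sphere_zero_iff_norm, norm_smul, norm_inv, norm_norm, inv_mul_cancel₀ (hpos k).ne']
  obtain ⟨u, hu1, φ, hφ, hlim⟩ := (isCompact_sphere (0 : ℂ) 1).tendsto_subseq hu
  have hdot : ∀ {f g : ℕ → ℂ} {a b : ℂ}, Tendsto f atTop (𝓝 a) → Tendsto g atTop (𝓝 b) →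
      Tendsto (fun k => dotC (f k) (g k)) atTop (𝓝 (dotC a b)) := by
    intro f g a b hf hg
    exact (continuous_dotC.tendsto (a, b)).comp (hf.prodMk_nhds hg)
  have hN : NP T q u := by
    refine ⟨hq, ?_, fun y hy => ?_⟩
    · intro h
      rw [h, mem_sphere_zero_iff_norm, norm_zero] at hu1
      exact zero_ne_one hu1
    · refine le_of_tendsto_of_tendsto' (hdot hlim (tendsto_const_nhds (x := y)))
        (hdot hlim (hpl.comp hφ.tendsto_atTop)) fun k => ?_
      simp only [Function.comp_apply]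
      rw [dotC_smul_left', dotC_smul_left']
      exact mul_le_mul_of_nonneg_left (h1 _ y hy) (inv_nonneg.2 (hpos _).le)
  have h3 : dotC u e ≤ 0 := by
    refine le_of_tendsto' (hdot hlim (tendsto_const_nhds (x := e))) fun k => ?_
    simp only [Function.comp_apply]
    rw [dotC_smul_left']
    exact mul_nonpos_of_nonneg_of_nonpos (inv_nonneg.2 (hpos _).le) (h2 _)
  exact absurd (he u hN) (not_lt.2 h3)

/-- near the rim, the normals which do not point up are served, uniformly. -/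
lemma low_open {K : Set Q3} (hK : IsCompact K) {x : Q3} {e : ℂ}
    (he : ∀ n, Nm K x n → n.2 ≤ 0 → 0 < dotC n.1 e) :
    ∃ δ > 0, ∀ y ∈ K, dist y x < δ → ∀ τ, 0 < τ → τ < δ → ∀ n, Nm K y n → n.2 ≤ 0 →
      0 < pr n (e, τ) := by
  by_contra hcon
  push Not at hcon
  have hseq : ∀ k : ℕ, ∃ (y : Q3) (τ : ℝ) (n : Q3), dist y x < 1 / ((k : ℝ) + 1) ∧ 0 < τ ∧
      τ < 1 / ((k : ℝ) + 1) ∧ Nm K y n ∧ n.2 ≤ 0 ∧ pr n (e, τ) ≤ 0 := by
    intro k
    obtain ⟨y, _, hd, τ, h1, h2, n, hn, h3, h4⟩ := hcon (1 / ((k : ℝ) + 1)) (by positivity)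
    exact ⟨y, τ, n, hd, h1, h2, hn, h3, h4⟩
  choose y τ n hyd hτ0 hτ hn hn2 hle using hseq
  have h0 : Tendsto (fun k : ℕ => 1 / ((k : ℝ) + 1)) atTop (𝓝 0) :=
    tendsto_one_div_add_atTop_nhds_zero_nat
  have hy : Tendsto y atTop (𝓝 x) := by
    rw [tendsto_iff_dist_tendsto_zero]
    exact squeeze_zero (fun _ => dist_nonneg) (fun k => (hyd k).le) h0
  have ht : Tendsto τ atTop (𝓝 0) :=
    squeeze_zero (fun k => (hτ0 k).le) (fun k => (hτ k).le) h0
  have hw : Tendsto (fun k => ((e, τ k) : Q3)) atTop (𝓝 (e, 0)) :=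
    tendsto_const_nhds.prodMk_nhds ht
  obtain ⟨φ, m, hφ, hm, hlim⟩ := normal_limit hy hn
  have h1 := tendsto_pr hlim (hw.comp hφ.tendsto_atTop)
  have h2 : pr m (e, 0) ≤ 0 := by
    refine le_of_tendsto' h1 fun k => ?_
    rw [pr_smul_left]
    exact mul_nonpos_of_nonneg_of_nonpos (inv_nonneg.2 (norm_nonneg _)) (hle _)
  have h3 : m.2 ≤ 0 := by
    have h4 : Tendsto (fun k => (‖n (φ k)‖⁻¹ • n (φ k)).2) atTop (𝓝 m.2) :=
      (continuous_snd.tendsto m).comp hlim
    refine le_of_tendsto' h4 fun k => ?_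
    rw [Prod.smul_snd, smul_eq_mul]
    exact mul_nonpos_of_nonneg_of_nonpos (inv_nonneg.2 (norm_nonneg _)) (hn2 _)
  have h4 := he m hm h3
  have h5 : pr m (e, 0) = dotC m.1 e := by simp [pr]
  rw [h5] at h2
  linarith

theorem rim_local {K : Set Q3} (hK : IsCompact K) {h : ℝ} (ht : FlatTop K h)
    (h0 : ∃ z < h, ((0, z) : Q3) ∈ K) {q : ℂ} (hq : ((q, h) : Q3) ∈ K) {a : ℝ}
    (ha : ∀ m, NP (Sl K h) q m → 0 < dotC m (eA a)) :
    ∃ δ > 0, ∀ y ∈ K, dist y (q, h) < δ → ∀ τ, 0 < τ → τ < δ → Sv K y (eA a, τ) := by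
  obtain ⟨δ₁, hδ₁, H1⟩ := plane_open (T := Sl K h) hq ha
  have hlow : ∀ n, Nm K (q, h) n → n.2 ≤ 0 → 0 < dotC n.1 (eA a) := by
    intro n hn hn2
    have hne : n.1 ≠ 0 := by
      intro h1
      obtain ⟨z, hz, hzK⟩ := h0
      have h2 := hn.2 _ hzK
      have h3 : n.2 ≠ 0 := by
        intro h4
        exact hn.1 (Prod.ext h1 h4)
      have h5 : n.2 < 0 := lt_of_le_of_ne hn2 h3
      simp only [pr, h1, dotC_zero_left] at h2
      nlinarith
    apply ha
    refine ⟨hq, hne, fun y hy => ?_⟩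
    have h1 := hn.2 _ hy
    simp only [pr] at h1
    linarith
  obtain ⟨δ₂, hδ₂, H2⟩ := low_open hK hlow
  refine ⟨min δ₁ δ₂, lt_min hδ₁ hδ₂, fun y hy hd τ hτ0 hτ n hn => ?_⟩
  rcases le_or_gt n.2 0 with h1 | h1
  · exact H2 y hy (hd.trans_le (min_le_right _ _)) τ hτ0 (hτ.trans_le (min_le_right _ _)) n hn h1
  · by_cases h2 : n.1 = 0
    · simp only [pr, h2, dotC_zero_left]
      have := mul_pos h1 hτ0
      linarith
    · have h3 : dist y.1 q < δ₁ := by
        have h4 : dist y.1 q ≤ dist y (q, h) := by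
          rw [Prod.dist_eq]
          exact le_max_left _ _
        exact lt_of_le_of_lt h4 (hd.trans_le (min_le_left _ _))
      have h4 := H1 y.1 h3 n.1 h2 (fun p hp => by
        have h5 := hn.2 _ hp
        have h6 := ht.1 y hy
        simp only [pr] at h5
        nlinarith)
      simp only [pr]
      have := mul_pos h1 hτ0
      linarith

/-! ### ROW III.3 -/

/-- the seven directions -/
noncomputable def D7 (a b : Fin 3 → ℝ) (τ₁ τ₂ : ℝ) : Option (Fin 3 ⊕ Fin 3) → Q3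
  | none => (0, 1)
  | some (Sum.inl j) => (eA (a j), τ₁)
  | some (Sum.inr j) => (eA (b j), -τ₂)

theorem three_three {K : Set Q3} (hK : IsCompact K) (h0 : (0 : Q3) ∈ interior K) {h h' : ℝ}
    (ht : FlatTop K h) (hb : FlatTop (fl K) h') (a b : Fin 3 → ℝ)
    (hT : ∀ q, ((q, h) : Q3) ∈ K → Mx K (q, h) →
      ∃ j, ∀ m, NP (Sl K h) q m → 0 < dotC m (eA (a j)))
    (hB : ∀ q, ((q, -h') : Q3) ∈ K → ∃ j, ∀ m, NP (Sl K (-h')) q m → 0 < dotC m (eA (b j)))
    (hM : ∀ x ∈ K, -h' < x.2 → x.2 < h → Mx K x →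
      (∃ j, Sv K x (eA (a j), 0)) ∨ ∃ j, Sv K x (eA (b j), 0))
    (hL : ∀ x ∈ K, -h' < x.2 → (∀ n, Nm K x n → n.2 < 0) → ∀ τ > 0,
      (∃ j, Sv K x (eA (a j), 0)) ∨ ∃ j, Sv K x (eA (b j), -τ)) :
    Served K 7 := by
  have h0K : (0 : Q3) ∈ K := interior_subset h0
  have hh : 0 < h := top_pos h0 ht
  have hfl0 : (0 : Q3) ∈ interior (fl K) := by
    have hcont : Continuous (fun x : Q3 => ((x.1, -x.2) : Q3)) := by fun_prop
    have h1 : (fun x : Q3 => ((x.1, -x.2) : Q3)) ⁻¹' K ∈ 𝓝 (0 : Q3) := by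
      apply hcont.continuousAt.preimage_mem_nhds
      have : (((0 : Q3).1, -(0 : Q3).2) : Q3) = 0 := by simp
      rw [this]
      exact mem_interior_iff_mem_nhds.1 h0
    exact mem_interior_iff_mem_nhds.2 h1
  have hh' : 0 < h' := top_pos hfl0 hb
  have hKfl : IsCompact (fl K) := by
    have himg : fl K = (fun x : Q3 => ((x.1, -x.2) : Q3)) '' K := by
      ext x
      constructor
      · intro hx
        exact ⟨(x.1, -x.2), hx, by simp⟩
      · rintro ⟨y, hy, rfl⟩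
        show ((y.1, - -y.2) : Q3) ∈ K
        rw [neg_neg]
        exact hy
    rw [himg]
    exact hK.image (by fun_prop)
  -- the local predicate
  set L : Q3 → ℝ → Prop := fun y τ₂ => ∃ δ > 0, ∀ y' ∈ K, dist y' y < δ →
    ∀ τ₁, 0 < τ₁ → τ₁ < δ → ∃ i, Sv K y' (D7 a b τ₁ τ₂ i) with hLdef
  have Lup : ∀ y τ₂, Sv K y (0, 1) → L y τ₂ := by
    intro y τ₂ hs
    obtain ⟨δ, hδ, H⟩ := sv_open hs
    refine ⟨δ, hδ, fun y' hy' hd τ₁ _ _ => ⟨none, ?_⟩⟩
    exact H y' hy' hd _ (by rw [D7, dist_self]; exact hδ)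
  have La : ∀ y τ₂ j, Sv K y (eA (a j), 0) → L y τ₂ := by
    intro y τ₂ j hs
    obtain ⟨δ, hδ, H⟩ := sv_open hs
    refine ⟨δ, hδ, fun y' hy' hd τ₁ h1 h2 => ⟨some (Sum.inl j), ?_⟩⟩
    refine H y' hy' hd _ ?_
    rw [D7, Prod.dist_eq, dist_self, Real.dist_eq, sub_zero, abs_of_pos h1, max_lt_iff]
    exact ⟨hδ, h2⟩
  have Lb : ∀ y τ₂ j, Sv K y (eA (b j), -τ₂) → L y τ₂ := by
    intro y τ₂ j hs
    obtain ⟨δ, hδ, H⟩ := sv_open hs
    refine ⟨δ, hδ, fun y' hy' hd τ₁ _ _ => ⟨some (Sum.inr j), ?_⟩⟩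
    exact H y' hy' hd _ (by rw [D7, dist_self]; exact hδ)
  have claim : ∀ x ∈ K, ∃ δ > 0, ∀ y ∈ K, dist y x < δ → ∀ ε, 0 < ε → ε < δ → L y ε := by
    intro x hx
    have hup : (∀ n, Nm K x n → 0 < n.2) →
        ∃ δ > 0, ∀ y ∈ K, dist y x < δ → ∀ ε, 0 < ε → ε < δ → L y ε := by
      intro h1
      have hs : Sv K x (0, 1) := by
        intro n hn
        have := h1 n hn
        simpa [pr, dotC_zero_right] using this
      obtain ⟨δ, hδ, H⟩ := sv_open hs
      exact ⟨δ, hδ, fun y hy hd ε _ _ => Lup y ε (H y hy hd _ (by rw [dist_self]; exact hδ))⟩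
    have hle : x.2 ≤ h := ht.1 x hx
    have hge : -h' ≤ x.2 := by
      have h1 := hb.1 (x.1, -x.2) (by
        show ((x.1, - -x.2) : Q3) ∈ K
        rw [neg_neg]; exact hx)
      have h2 : ((x.1, -x.2) : Q3).2 = -x.2 := rfl
      rw [h2] at h1
      linarith
    rcases hge.eq_or_lt with hbot | hbot
    · -- the bottom face
      have hxe : x = (x.1, -h') := Prod.ext rfl hbot.symm
      obtain ⟨j, hj⟩ := hB x.1 (by rw [← hxe]; exact hx)
      have hSl : Sl (fl K) h' = Sl K (-h') := rfl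
      obtain ⟨δ, hδ, H⟩ := rim_local hKfl hb ⟨0, hh', by
        show ((0, -0) : Q3) ∈ K
        rw [neg_zero]; exact h0K⟩ (q := x.1) (by
        show ((x.1, -h') : Q3) ∈ K
        rw [← hxe]; exact hx) (a := b j) (by rw [hSl]; exact hj)
      refine ⟨δ, hδ, fun y hy hd ε h1 h2 => Lb y ε j ?_⟩
      have h3 := H (y.1, -y.2) (by
        show ((y.1, - -y.2) : Q3) ∈ K
        rw [neg_neg]; exact hy) (by
        rw [Prod.dist_eq] at hd ⊢
        have h4 : dist (-y.2) h' = dist y.2 x.2 := by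
          rw [← hbot, Real.dist_eq, Real.dist_eq, ← abs_neg]
          congr 1
          ring
        rw [h4]
        exact hd) ε h1 h2
      rw [Sv_fl] at h3
      simpa using h3
    · rcases hle.eq_or_lt with htop | htop
      · -- the top face
        have hxe : x = (x.1, h) := Prod.ext rfl htop
        rcases trich ⟨0, h0⟩ hx with h1 | h1 | h1
        · exact hup h1
        · exfalso
          have h2 : Nm K x (0, 1) := by
            refine ⟨?_, fun y hy => ?_⟩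
            · intro h3
              have := congrArg Prod.snd h3
              simp at this
            · have h4 := ht.1 y hy
              simp only [pr, dotC_zero_left, htop]
              linarith
          have := h1 _ h2
          simp at this
          linarith
        · obtain ⟨j, hj⟩ := hT x.1 (by rw [← hxe]; exact hx) (by rw [← hxe]; exact h1)
          obtain ⟨δ, hδ, H⟩ := rim_local hK ht ⟨0, hh, h0K⟩ (q := x.1) (by rw [← hxe]; exact hx)
            (a := a j) hj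
          refine ⟨δ / 2, by positivity, fun y hy hd ε _ _ => ?_⟩
          refine ⟨δ / 2, by positivity, fun y' hy' hd' τ₁ h2 h3 => ⟨some (Sum.inl j), ?_⟩⟩
          refine H y' hy' ?_ τ₁ h2 (by linarith)
          rw [← hxe]
          have h4 := dist_triangle y' y x
          linarith
      · -- between the faces
        rcases trich ⟨0, h0⟩ hx with h1 | h1 | h1
        · exact hup h1
        · have hs : Sv K x (0, -1) := by
            intro n hn
            have := h1 n hn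
            simp only [pr, dotC_zero_right]
            linarith
          obtain ⟨δ, hδ, H⟩ := sv_open hs
          refine ⟨min δ (x.2 + h'), lt_min hδ (by linarith), fun y hy hd ε h2 _ => ?_⟩
          have h3 : ∀ n, Nm K y n → n.2 < 0 := by
            intro n hn
            have := H y hy (hd.trans_le (min_le_left _ _)) _ (by rw [dist_self]; exact hδ) n hn
            simp only [pr, dotC_zero_right] at this
            linarith
          have h4 : -h' < y.2 := by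
            have h5 : dist y.2 x.2 ≤ dist y x := by
              rw [Prod.dist_eq (x := y)]
              exact le_max_right _ _
            have h6 : dist y.2 x.2 < x.2 + h' :=
              lt_of_le_of_lt h5 (hd.trans_le (min_le_right _ _))
            rw [Real.dist_eq] at h6
            have := (abs_lt.1 h6).1
            linarith
          rcases hL y hy h4 h3 ε h2 with ⟨j, hj⟩ | ⟨j, hj⟩
          · exact La y ε j hj
          · exact Lb y ε j hj
        · rcases hM x hx hbot htop h1 with ⟨j, hj⟩ | ⟨j, hj⟩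
          · obtain ⟨δ, hδ, H⟩ := sv_open hj
            exact ⟨δ, hδ, fun y hy hd ε _ _ =>
              La y ε j (H y hy hd _ (by rw [dist_self]; exact hδ))⟩
          · obtain ⟨δ, hδ, H⟩ := sv_open hj
            refine ⟨δ, hδ, fun y hy hd ε h2 h3 => Lb y ε j (H y hy hd _ ?_)⟩
            rw [Prod.dist_eq, dist_self, Real.dist_eq, sub_zero, abs_neg, abs_of_pos h2,
              max_lt_iff]
            exact ⟨hδ, h3⟩
  obtain ⟨τ₂, _, hτ₂⟩ := exists_small hK L claim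
  obtain ⟨τ₁, _, hτ₁⟩ := exists_small hK (fun y τ₁ => ∃ i, Sv K y (D7 a b τ₁ τ₂ i))
    (fun x hx => by
      obtain ⟨δ, hδ, H⟩ := hτ₂ x hx
      exact ⟨δ, hδ, fun y hy hd ε h1 h2 => H y hy hd ε h1 h2⟩)
  exact served_of_fintype (by simp) (D7 a b τ₁ τ₂) hτ₁

end Pool.Agent.Lib.MP_5e7226_co.RT
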