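import Mathlib
import Pool.Agent.Lib.MP_5e7226_co.RT.AH
import Pool.Agent.Lib.MP_5e7226_co.RT.IIIA

/-! # MP_5e7226, E^3 rotations, case (II): the top and the bottom scheme (d5, d5') -/

set_option autoImplicit false

open Set Filter Topology
open scoped Real

namespace Pool.Agent.Lib.MP_5e7226_co.RT

lemma eA_add_int (θ : ℝ) (q : ℤ) : eA (θ + q * (2 * π)) = eA θ := by
  apply Complex.ext
  · rw [eA_re, eA_re]; exact Real.cos_add_int_mul_two_pi θ q
  · rw [eA_im, eA_im]; exact Real.sin_add_int_mul_two_pi θ q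

lemma eA_mod3 (θ : ℝ) (j : ℤ) : ∃ i : Fin 3, eA (θ + 2 * π / 3 * j) =
    eA (θ + 2 * π / 3 * ((i : ℕ) : ℝ)) := by
  have h1 : 0 ≤ j % 3 := Int.emod_nonneg j (by norm_num)
  have h2 : j % 3 < 3 := Int.emod_lt_of_pos j (by norm_num)
  refine ⟨⟨(j % 3).toNat, by omega⟩, ?_⟩
  have h3 : (((j % 3).toNat : ℕ) : ℝ) = ((j % 3 : ℤ) : ℝ) := by
    have : (((j % 3).toNat : ℕ) : ℤ) = j % 3 := Int.toNat_of_nonneg h1
    exact_mod_cast congrArg (fun z : ℤ => (z : ℝ)) this
  have h4 : (j : ℝ) = ((j % 3 : ℤ) : ℝ) + 3 * ((j / 3 : ℤ) : ℝ) := by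
    have : j = j % 3 + 3 * (j / 3) := by omega
    exact_mod_cast congrArg (fun z : ℤ => (z : ℝ)) this
  simp only
  rw [h3, h4]
  have e : θ + 2 * π / 3 * (((j % 3 : ℤ) : ℝ) + 3 * ((j / 3 : ℤ) : ℝ)) =
      θ + 2 * π / 3 * ((j % 3 : ℤ) : ℝ) + ((j / 3 : ℤ) : ℝ) * (2 * π) := by ring
  rw [e, eA_add_int]

/-- every angle can be rotated to `[-60, 60]`. -/
lemma exists_sector (t : ℝ) : ∃ j : ℤ, -(π / 3) ≤ t + 2 * π / 3 * j ∧
    t + 2 * π / 3 * j ≤ π / 3 := by
  have hpi := Real.pi_pos
  refine ⟨-⌊(t + π / 3) / (2 * π / 3)⌋, ?_, ?_⟩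
  · have h := Int.floor_le ((t + π / 3) / (2 * π / 3))
    rw [le_div_iff₀ (by positivity)] at h
    push_cast
    linarith
  · have h := Int.lt_floor_add_one ((t + π / 3) / (2 * π / 3))
    rw [div_lt_iff₀ (by positivity)] at h
    push_cast
    linarith

/-- the general scheme with the pole below: `(0,-1)`, three horizontals, three upwards. -/
theorem scheme_gen {K : Set Q3} (hK : RB 3 K) {h a X : ℝ} (hT : Top K h) (hs : HS K a X) {s : ℝ}
    (hs0 : 0 < s) (hA : Sv K ((0 : ℂ), h) ((s : ℂ), 1)) (hx : Sv K ((a : ℂ), X) ((s : ℂ), 1)) :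
    Served K 7 := by
  have hpi := Real.pi_pos
  -- enough: integer rotations
  suffices H : ∀ x ∈ K, Sv K x ((0 : ℂ), -1) ∨ (∃ j : ℤ, Sv K x (eA (π / 3 + 2 * π / 3 * j), 0)) ∨
      ∃ j : ℤ, Sv K x ((s : ℂ) * eA (0 + 2 * π / 3 * j), 1) by
    refine served_of_fintype (ι := Option (Fin 3 ⊕ Fin 3)) (by simp) (fun o => match o with
      | none => ((0 : ℂ), -1)
      | some (Sum.inl i) => (eA (π / 3 + 2 * π / 3 * ((i : ℕ) : ℝ)), 0)
      | some (Sum.inr i) => ((s : ℂ) * eA (0 + 2 * π / 3 * ((i : ℕ) : ℝ)), 1)) ?_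
    intro x hx
    rcases H x hx with h1 | ⟨j, h1⟩ | ⟨j, h1⟩
    · exact ⟨none, h1⟩
    · obtain ⟨i, hi⟩ := eA_mod3 (π / 3) j
      rw [hi] at h1
      exact ⟨some (Sum.inl i), h1⟩
    · obtain ⟨i, hi⟩ := eA_mod3 0 j
      rw [hi] at h1
      exact ⟨some (Sum.inr i), h1⟩
  intro x hxK
  by_cases h1 : Sv K x ((0 : ℂ), -1)
  · exact Or.inl h1
  right
  by_cases h2 : Sv K x ((0 : ℂ), 1)
  · -- strictly upper
    have hup : ∀ n, Nm K x n → 0 < n.2 := by
      intro n hn
      have := h2 n hn
      unfold pr at this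
      simpa [dotC_zero_right] using this
    by_cases hx0 : x.1 = 0
    · right
      refine ⟨0, ?_⟩
      have hxe : x = ((0 : ℂ), x.2) := Prod.ext hx0 rfl
      by_cases hxh : x.2 = h
      · rw [hxe, hxh]
        simpa [eA_zero] using hA
      · intro n hn
        exfalso
        have h3 := hn.2 _ hT.mem
        rw [hxe] at h3
        unfold pr at h3
        simp only [dotC_zero_right, zero_add] at h3
        have h4 := le_of_mul_le_mul_left h3 (hup n hn)
        exact hxh (le_antisymm (hT.le _ hxK) h4)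
    · -- polar coordinates and rotation
      obtain ⟨j, hj1, hj2⟩ := exists_sector (Complex.arg x.1)
      set ρ := ‖x.1‖ with hρ
      have hρ0 : 0 < ρ := norm_pos_iff.mpr hx0
      set t := Complex.arg x.1 + 2 * π / 3 * j with ht
      have hxe : x = ((ρ : ℂ) * eA (Complex.arg x.1), x.2) := by
        refine Prod.ext ?_ rfl
        rw [eA_eq_exp]
        exact (Complex.norm_mul_exp_arg_mul_I x.1).symm
      have hye : (eA (2 * π / 3 * j) * x.1, x.2) = ((ρ : ℂ) * eA t, x.2) := by
        have := Rz_pt (2 * π / 3 * j) (Complex.arg x.1) ρ x.2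
        rw [← hxe] at this
        exact this
      have hyK : ((ρ : ℂ) * eA t, x.2) ∈ K := by
        have := mem_rotz hK hxK j
        unfold Rz at this
        rwa [hye] at this
      have hback : ∀ v : Q3, Sv K ((ρ : ℂ) * eA t, x.2) v →
          Sv K x (eA (2 * π / 3 * ((-j : ℤ) : ℝ)) * v.1, v.2) := by
        intro v hv
        have h3 := rot_Sv hK hv (-j)
        have h4 : (eA (2 * π / 3 * ((-j : ℤ) : ℝ)) * ((ρ : ℂ) * eA t), x.2) = x := by
          have h5 := Rz_pt (2 * π / 3 * ((-j : ℤ) : ℝ)) t ρ x.2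
          unfold Rz at h5
          simp only at h5
          rw [h5, ht]
          have e : Complex.arg x.1 + 2 * π / 3 * (j : ℝ) + 2 * π / 3 * ((-j : ℤ) : ℝ) =
              Complex.arg x.1 := by push_cast; ring
          rw [e]
          exact hxe.symm
        simp only at h3
        rw [h4] at h3
        exact h3
      have hup' : ∀ n, Nm K ((ρ : ℂ) * eA t, x.2) n → 0 < n.2 ∧ ∃ φ l : ℝ, 0 < l ∧
          t - π / 3 ≤ φ ∧ φ ≤ t + π / 3 ∧ n.1 = (l : ℂ) * eA φ := by
        intro n hn
        have hn2 : 0 < n.2 := by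
          have h5 := rot_Nm hK hn (-j)
          simp only at h5
          have h4 : (eA (2 * π / 3 * ((-j : ℤ) : ℝ)) * ((ρ : ℂ) * eA t), x.2) = x := by
            have h5 := Rz_pt (2 * π / 3 * ((-j : ℤ) : ℝ)) t ρ x.2
            unfold Rz at h5
            simp only at h5
            rw [h5, ht]
            have e : Complex.arg x.1 + 2 * π / 3 * (j : ℝ) + 2 * π / 3 * ((-j : ℤ) : ℝ) =
                Complex.arg x.1 := by push_cast; ring
            rw [e]
            exact hxe.symm
          rw [h4] at h5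
          have h6 := hup _ h5
          exact h6
        refine ⟨hn2, ?_⟩
        have hn0 : n.1 ≠ 0 := by
          intro h0
          have h3 := hn.2 _ hT.mem
          unfold pr at h3
          rw [h0] at h3
          simp only [dotC_zero_left, zero_add] at h3
          have h4 := le_of_mul_le_mul_left h3 hn2
          have h5 := hT.eq _ hxK (le_antisymm (hT.le _ hxK) h4)
          exact hx0 h5
        exact normal_angle hK hρ0 hyK hn hn0
      rcases le_or_gt t (π / 6) with c1 | c1
      · rcases le_or_gt (-(π / 6)) t with c2 | c2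
        · -- the middle
          right
          refine ⟨-j, ?_⟩
          have h3 : Sv K ((ρ : ℂ) * eA t, x.2) ((s : ℂ), 1) := by
            intro n hn
            obtain ⟨h4, φ, l, hl, h5, h6, h7⟩ := hup' n hn
            unfold pr
            simp only
            have e : (s : ℂ) = (s : ℂ) * eA 0 := by rw [eA_zero, mul_one]
            rw [h7, e, dotC_ofReal_left, dotC_ofReal_right, dotC_eA, mul_one, sub_zero]
            have h8 : 0 ≤ Real.cos φ := Real.cos_nonneg_of_mem_Icc ⟨by linarith, by linarith⟩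
            have h9 : 0 ≤ l * (s * Real.cos φ) := by positivity
            linarith
          have h4 := hback _ h3
          simp only at h4
          rw [zero_add, mul_comm (s : ℂ)]
          exact h4
        · left
          refine ⟨-1 - j, ?_⟩
          have h3 : Sv K ((ρ : ℂ) * eA t, x.2) (eA (-(π / 3)), 0) := by
            intro n hn
            obtain ⟨h4, φ, l, hl, h5, h6, h7⟩ := hup' n hn
            unfold pr
            simp only
            rw [h7, dotC_ofReal_left, dotC_eA, mul_zero, add_zero]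
            exact mul_pos hl (Real.cos_pos_of_mem_Ioo ⟨by linarith, by linarith⟩)
          have h4 := hback _ h3
          simp only at h4
          rw [← eA_add] at h4
          have e : 2 * π / 3 * ((-j : ℤ) : ℝ) + -(π / 3) =
              π / 3 + 2 * π / 3 * ((-1 - j : ℤ) : ℝ) := by push_cast; ring
          rw [← e]
          exact h4
      · left
        refine ⟨-j, ?_⟩
        have h3 : Sv K ((ρ : ℂ) * eA t, x.2) (eA (π / 3), 0) := by
          intro n hn
          obtain ⟨h4, φ, l, hl, h5, h6, h7⟩ := hup' n hn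
          unfold pr
          simp only
          rw [h7, dotC_ofReal_left, dotC_eA, mul_zero, add_zero]
          exact mul_pos hl (Real.cos_pos_of_mem_Ioo ⟨by linarith, by linarith⟩)
        have h4 := hback _ h3
        simp only at h4
        rw [← eA_add] at h4
        rw [add_comm (π / 3)]
        exact h4
  · -- mixed
    rcases hs x (mixed_of hK hxK h2 h1) with ⟨j, hj⟩ | ⟨j, hj⟩
    · right
      refine ⟨j, ?_⟩
      have h3 := rot_Sv hK hx j
      simp only at h3
      rw [hj, zero_add, mul_comm (s : ℂ), mul_comm (a : ℂ)]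
      exact h3
    · exact Or.inl ⟨j, hj⟩

theorem Mx_fl {K : Set Q3} (x : Q3) : Mx (fl K) x ↔ Mx K (x.1, -x.2) := by
  unfold Mx
  constructor
  · rintro ⟨h1, m, h2⟩
    have := (Nm_fl _ _).1 h2
    simp only [neg_zero] at this
    exact ⟨h1, m, this⟩
  · rintro ⟨h1, m, h2⟩
    refine ⟨h1, m, (Nm_fl _ _).2 ?_⟩
    simpa using h2

theorem fl_top {K : Set Q3} {h : ℝ} (hb : Bot K h) : Top (fl K) h where
  pos := hb.pos
  mem := hb.mem
  le x hx := by
    have := hb.le _ hx
    simp only at this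
    linarith
  eq x hx he := hb.eq (x.1, -x.2) hx (by
    show -x.2 = -h
    rw [he])

theorem fl_bot {K : Set Q3} {h : ℝ} (ht : Top K h) : Bot (fl K) h where
  pos := ht.pos
  mem := by
    show ((0 : ℂ), - -h) ∈ K
    rw [neg_neg]; exact ht.mem
  le x hx := by
    have := ht.le _ hx
    simp only at this
    linarith
  eq x hx he := ht.eq (x.1, -x.2) hx (by
    show -x.2 = h
    rw [he, neg_neg])

theorem fl_served {K : Set Q3} {N : ℕ} (h : Served (fl K) N) : Served K N := by
  obtain ⟨v, hv⟩ := h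
  refine ⟨fun i => ((v i).1, -(v i).2), fun x hx => ?_⟩
  obtain ⟨i, hi⟩ := hv (x.1, -x.2) (by
    show ((x.1, - -x.2) : Q3) ∈ K
    rw [neg_neg]; exact hx)
  refine ⟨i, ?_⟩
  have := (Sv_fl _ _).1 hi
  simpa using this

theorem fl_HS {K : Set Q3} {a X : ℝ} (h : HS K a X) : HS (fl K) a (-X) := by
  intro w hw
  rcases h _ ((Mx_fl _).1 hw) with ⟨j, hj⟩ | ⟨j, hj⟩
  · left
    refine ⟨j, ?_⟩
    have h1 := congrArg Prod.fst hj
    have h2 := congrArg Prod.snd hj
    simp only at h1 h2
    exact Prod.ext h1 (by simp only; linarith)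
  · right
    refine ⟨j, (Sv_fl _ _).2 ?_⟩
    simpa using hj

section P6

variable {K : Set Q3} {h h' a b X Y σ τ : ℝ}

/-- d5: TOP: seven directions. -/
theorem top_scheme (H : P6 K h h' a b X Y σ τ) (hs : HS K a X) {s : ℝ} (hs0 : 0 < s)
    (hA : Sv K ((0 : ℂ), h) ((s : ℂ), 1)) (hx : Sv K ((a : ℂ), X) ((s : ℂ), 1)) :
    Served K 7 := scheme_gen H.rb H.top hs hs0 hA hx

/-- d5': BOTTOM. -/
theorem bot_scheme (H : P6 K h h' a b X Y σ τ) (hs : HS K a X) {s : ℝ} (hs0 : 0 < s)
    (hB : Sv K ((0 : ℂ), -h') ((s : ℂ), -1)) (hx : Sv K ((a : ℂ), X) ((s : ℂ), -1)) :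
    Served K 7 := by
  apply fl_served
  refine scheme_gen (RB_fl H.rb) (fl_top H.bot) (fl_HS hs) hs0 ?_ ?_
  · rw [Sv_fl]; exact hB
  · rw [Sv_fl]
    simp only [neg_neg]
    exact hx

end P6

end Pool.Agent.Lib.MP_5e7226_co.RT
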