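import Pool.Agent.Lib.MP_5e7226_co.RT.IIDefs

/-!
# MP_5e7226, E^3 rotations: rotation about the axis by an arbitrary angle, `Par` under linear maps
-/

set_option autoImplicit false

open Set Filter Topology
open scoped Real

namespace Pool.Agent.Lib.MP_5e7226_co.RT

theorem ro_inv (t : ℝ) : eA (-t) * eA t = 1 := by
  rw [← eA_add, neg_add_cancel, eA_zero]

theorem ro_inv2 (t : ℝ) : eA t * eA (-t) = 1 := by
  rw [mul_comm, ro_inv]

theorem ro_cancel (t : ℝ) (q : ℂ) : eA (-t) * (eA t * q) = q := by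
  rw [← mul_assoc, ro_inv, one_mul]

theorem ro_cancel2 (t : ℝ) (q : ℂ) : eA t * (eA (-t) * q) = q := by
  rw [← mul_assoc, ro_inv2, one_mul]

theorem ro_dot (t : ℝ) (a b : ℂ) : dotC (eA t * a) (eA t * b) = dotC a b := by
  rw [dotC_mul_mul, norm_eA]
  ring

theorem ro_shift (t : ℝ) (a b : ℂ) : dotC (eA t * a) b = dotC a (eA (-t) * b) := by
  conv_lhs => rw [← ro_cancel2 t b]
  rw [ro_dot]

theorem ro_Nm {K : Set Q3} {t : ℝ} {x n : Q3} :
    Nm (ro t K) x n ↔ Nm K (eA (-t) * x.1, x.2) (eA (-t) * n.1, n.2) := by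
  constructor
  · rintro ⟨h1, h2⟩
    refine ⟨fun h => h1 ?_, fun y hy => ?_⟩
    · have h3 := congrArg Prod.fst h
      have h4 := congrArg Prod.snd h
      simp only [Prod.fst_zero, Prod.snd_zero, mul_eq_zero, eA_ne_zero, false_or] at h3 h4
      exact Prod.ext h3 h4
    · have h3 := h2 (eA t * y.1, y.2) (by
        show ((eA (-t) * (eA t * y.1), y.2) : Q3) ∈ K
        rw [ro_cancel]
        exact hy)
      simp only [pr] at h3 ⊢
      rw [ro_dot]
      have h4 : dotC (eA (-t) * n.1) y.1 = dotC n.1 (eA t * y.1) := by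
        rw [ro_shift, neg_neg]
      rw [h4]
      exact h3
  · rintro ⟨h1, h2⟩
    refine ⟨fun h => h1 ?_, fun y hy => ?_⟩
    · rw [h]
      simp
    · have h3 := h2 (eA (-t) * y.1, y.2) hy
      simp only [pr] at h3 ⊢
      rw [ro_dot, ro_dot] at h3
      exact h3

/-- The linear map of a rotation. -/
noncomputable def roL (t : ℝ) : Q3 ≃ₗ[ℝ] Q3 where
  toFun x := (eA (-t) * x.1, x.2)
  invFun x := (eA t * x.1, x.2)
  map_add' x y := by
    refine Prod.ext ?_ ?_
    · simp [mul_add]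
    · simp
  map_smul' c x := by
    refine Prod.ext ?_ ?_
    · simp only [Prod.smul_fst, RingHom.id_apply, Complex.real_smul]
      ring
    · simp
  left_inv x := by
    refine Prod.ext ?_ ?_
    · exact ro_cancel2 t x.1
    · rfl
  right_inv x := by
    refine Prod.ext ?_ ?_
    · exact ro_cancel t x.1
    · rfl

/-- The linear map of the reflection at the horizontal plane. -/
noncomputable def flL : Q3 ≃ₗ[ℝ] Q3 where
  toFun x := (x.1, -x.2)
  invFun x := (x.1, -x.2)
  map_add' x y := by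
    refine Prod.ext ?_ ?_
    · simp
    · simp only [Prod.snd_add, neg_add]
  map_smul' c x := by
    refine Prod.ext ?_ ?_
    · simp
    · simp
  left_inv x := by
    refine Prod.ext ?_ ?_
    · rfl
    · exact neg_neg _
  right_inv x := by
    refine Prod.ext ?_ ?_
    · rfl
    · exact neg_neg _

theorem par_map {K : Set Q3} (L : Q3 ≃ₗ[ℝ] Q3) (h : Par {x | L x ∈ K}) : Par K := by
  obtain ⟨c, v₁, v₂, v₃, hli, hK⟩ := h
  refine ⟨L c, L v₁, L v₂, L v₃, ?_, ?_⟩
  · have h1 := hli.map' L.toLinearMap L.ker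
    have h2 : (L.toLinearMap ∘ ![v₁, v₂, v₃] : Fin 3 → Q3) = ![L v₁, L v₂, L v₃] := by
      funext i
      fin_cases i <;> rfl
    rw [h2] at h1
    exact h1
  · ext x
    have h1 : x ∈ K ↔ L.symm x ∈ {x | L x ∈ K} := by
      show x ∈ K ↔ L (L.symm x) ∈ K
      rw [L.apply_symm_apply]
    rw [h1, hK]
    simp only [Set.mem_ofPred_eq]
    have h2 : ∀ s₁ s₂ s₃ : ℝ, (L.symm x = c + s₁ • v₁ + s₂ • v₂ + s₃ • v₃ ↔
        x = L c + s₁ • L v₁ + s₂ • L v₂ + s₃ • L v₃) := by
      intro s₁ s₂ s₃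
      rw [L.symm_apply_eq]
      simp only [map_add, map_smul]
    simp only [h2]

theorem ro_par {K : Set Q3} {t : ℝ} (h : Par (ro t K)) : Par K := par_map (roL t) h

theorem fl_par {K : Set Q3} (h : Par (fl K)) : Par K := par_map flL h

theorem ro_RB {p : ℕ} {K : Set Q3} (hK : RB p K) (t : ℝ) : RB p (ro t K) := by
  have hcont : Continuous (fun x : Q3 => ((eA (-t) * x.1, x.2) : Q3)) := by fun_prop
  have hcont' : Continuous (fun x : Q3 => ((eA t * x.1, x.2) : Q3)) := by fun_prop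
  have hpre : ro t K = (fun x : Q3 => ((eA (-t) * x.1, x.2) : Q3)) ⁻¹' K := rfl
  have himg : ro t K = (fun x : Q3 => ((eA t * x.1, x.2) : Q3)) '' K := by
    ext x
    constructor
    · intro hx
      exact ⟨(eA (-t) * x.1, x.2), hx, Prod.ext (ro_cancel2 t x.1) rfl⟩
    · rintro ⟨y, hy, rfl⟩
      show ((eA (-t) * (eA t * y.1), y.2) : Q3) ∈ K
      rw [ro_cancel]
      exact hy
  refine ⟨hK.p3, ?_, ?_, ?_, ?_⟩
  · rw [himg]
    exact hK.comp.image hcont'
  · intro x hx y hy a b ha hb hab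
    have h := hK.conv hx hy ha hb hab
    show ((eA (-t) * (a • x + b • y).1, (a • x + b • y).2) : Q3) ∈ K
    have h2 : ((eA (-t) * (a • x + b • y).1, (a • x + b • y).2) : Q3) =
        a • ((eA (-t) * x.1, x.2) : Q3) + b • ((eA (-t) * y.1, y.2) : Q3) := by
      refine Prod.ext ?_ ?_
      · simp only [Prod.fst_add, Prod.smul_fst, Complex.real_smul]
        ring
      · simp
    rw [h2]
    exact h
  · rw [hpre]
    have h1 : (fun x : Q3 => ((eA (-t) * x.1, x.2) : Q3)) ⁻¹' K ∈ 𝓝 (0 : Q3) := by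
      apply hcont.continuousAt.preimage_mem_nhds
      have : ((eA (-t) * (0 : Q3).1, (0 : Q3).2) : Q3) = 0 := by simp
      rw [this]
      exact mem_interior_iff_mem_nhds.1 hK.zero
    exact mem_interior_iff_mem_nhds.2 h1
  · intro x hx
    have h := hK.rot (eA (-t) * x.1, x.2) hx
    show ((eA (-t) * (eA (2 * Real.pi / p) * x.1), x.2) : Q3) ∈ K
    rw [mul_left_comm]
    exact h

theorem ro_served {K : Set Q3} {N : ℕ} {t : ℝ} (h : Served (ro t K) N) : Served K N := by
  obtain ⟨v, hv⟩ := h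
  refine ⟨fun i => (eA (-t) * (v i).1, (v i).2), fun x hx => ?_⟩
  obtain ⟨i, hi⟩ := hv (eA t * x.1, x.2) (by
    show ((eA (-t) * (eA t * x.1), x.2) : Q3) ∈ K
    rw [ro_cancel]
    exact hx)
  refine ⟨i, fun n hn => ?_⟩
  have h1 := hi (eA t * n.1, n.2) (by
    rw [ro_Nm]
    simp only [ro_cancel]
    exact hn)
  simp only [pr] at h1 ⊢
  rw [ro_shift] at h1
  exact h1

theorem ro_top {K : Set Q3} {t h : ℝ} (ht : Top K h) : Top (ro t K) h := by
  refine ⟨ht.pos, ?_, fun x hx => ht.le (eA (-t) * x.1, x.2) hx, fun x hx hxh => ?_⟩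
  · show ((eA (-t) * 0, h) : Q3) ∈ K
    rw [mul_zero]
    exact ht.mem
  · have h1 := ht.eq _ hx hxh
    simpa [eA_ne_zero] using h1

theorem ro_bot {K : Set Q3} {t h : ℝ} (ht : Bot K h) : Bot (ro t K) h := by
  refine ⟨ht.pos, ?_, fun x hx => ht.le (eA (-t) * x.1, x.2) hx, fun x hx hxh => ?_⟩
  · show ((eA (-t) * 0, -h) : Q3) ∈ K
    rw [mul_zero]
    exact ht.mem
  · have h1 := ht.eq _ hx hxh
    simpa [eA_ne_zero] using h1

end Pool.Agent.Lib.MP_5e7226_co.RT
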