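import Pool.Agent.Lib.MP_5e7226_co.RT.E
import Pool.Agent.Lib.MP_5e7226_co.RT.Ro
import Pool.Agent.Lib.MP_5e7226_co.RT.D5

/-!
# MP_5e7226_co, RT, case II, row d1: the normal form (helper19)
Built over the skeleton MP_5e7226_RT_II_h82 (module RT.IISkel here, there `p6_of` under another
name) and IIDefs with the corrected `P6.nt` (`∀ x ∈ K`). Uses from the skeleton: ro_RB, ro_Nm,
ro_served, ro_par, ro_top, ro_bot, RB_fl, Nm_fl, fl_served, fl_par, fl_top, fl_bot, rot_Nm,
tri_case. Replace the import of IISkel by the modules of these rows.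
-/

set_option autoImplicit false

open Set Filter Topology
open scoped Real

namespace Pool.Agent.Lib.MP_5e7226_co.RT

/-- No point has the horizontal normal of its angle plus 60. -/
def D1NT (K : Set Q3) : Prop :=
  ∀ x ∈ K, ∀ ρ t : ℝ, 0 < ρ → x.1 = (ρ : ℂ) * eA t → ¬ Nm K x (eA (t + π / 3), 0)

lemma d1_dot (u v r : ℝ) : dotC (eA u) ((r : ℂ) * eA v) = r * Real.cos (u - v) := by
  rw [dotC_ofReal_right, dotC_eA]

/-- Trigonometry: a direction for which the vertex `r' e_0` of a small radius beats the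
vertices `r e_60`, `r e_-60`, `r e_180`. -/
lemma d1_trig {r r' u : ℝ} (hr : 0 < r) (h0 : 0 < r') (hle : r' ≤ r / 2)
    (h1 : r * Real.cos (u - π / 3) ≤ r' * Real.cos u)
    (h2 : r * Real.cos (u + π / 3) ≤ r' * Real.cos u)
    (h3 : -(r * Real.cos u) ≤ r' * Real.cos u) : r' = r / 2 ∧ eA u = 1 := by
  have hs3 : 0 < √3 := Real.sqrt_pos.mpr (by norm_num)
  rw [Real.cos_sub, Real.cos_pi_div_three, Real.sin_pi_div_three] at h1
  rw [Real.cos_add, Real.cos_pi_div_three, Real.sin_pi_div_three] at h2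
  have hc : 0 ≤ Real.cos u := by
    by_contra hc
    push Not at hc
    nlinarith [mul_pos hr (neg_pos.mpr hc), mul_pos h0 (neg_pos.mpr hc)]
  have hsq := Real.sin_sq_add_cos_sq u
  have hmul : (r - 2 * r') * Real.cos u ≤ 0 := by nlinarith
  have hge : 0 ≤ (r - 2 * r') * Real.cos u := mul_nonneg (by linarith) hc
  have hz : (r - 2 * r') * Real.cos u = 0 := le_antisymm hmul hge
  -- the sine vanishes
  have hrc : r' * Real.cos u = r / 2 * Real.cos u := by nlinarith
  have hk : 0 < r * (√3 / 2) := by positivity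
  have e1 : r * (√3 / 2) * Real.sin u ≤ 0 := by nlinarith
  have e2 : 0 ≤ r * (√3 / 2) * Real.sin u := by nlinarith
  have hs : Real.sin u = 0 := by
    have : r * (√3 / 2) * Real.sin u = 0 := le_antisymm e1 e2
    rcases mul_eq_zero.mp this with h | h
    · exact absurd h hk.ne'
    · exact h
  have hc1 : Real.cos u = 1 := by
    rw [hs] at hsq
    have : Real.cos u ^ 2 = 1 := by linarith
    nlinarith
  refine ⟨?_, ?_⟩
  · rw [hc1] at hz; linarith
  · apply Complex.ext
    · simp [hc1]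
    · simp [hs]

/-- A rotate of a point of `K`. -/
lemma d1_rot_mem {K : Set Q3} (hK : RB 3 K) {r t z : ℝ} (h : ((r : ℂ) * eA t, z) ∈ K) :
    ((r : ℂ) * eA (t + 2 * π / 3), z) ∈ K := by
  have := hK.rot _ h
  have e : ((eA (2 * Real.pi / ((3 : ℕ) : ℝ)) * ((r : ℂ) * eA t), z) : Q3) =
      ((r : ℂ) * eA (t + 2 * π / 3), z) := by
    rw [eA_add]
    push_cast
    ring_nf
  rw [← e]
  exact this

lemma d1_eA_two_pi (u : ℝ) : eA (u + 2 * π) = eA u := by
  apply Complex.ext <;> simp

/-- The other rotate. -/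
lemma d1_rot_mem2 {K : Set Q3} (hK : RB 3 K) {r t z : ℝ} (h : ((r : ℂ) * eA t, z) ∈ K) :
    ((r : ℂ) * eA (t - 2 * π / 3), z) ∈ K := by
  have := d1_rot_mem hK (d1_rot_mem hK h)
  have e : eA (t + 2 * π / 3 + 2 * π / 3) = eA (t - 2 * π / 3) := by
    rw [← d1_eA_two_pi (t - 2 * π / 3)]; congr 1; ring
  rwa [e] at this

/-- The radii: `r' > r / 2`. -/
lemma d1_radius {K : Set Q3} (hK : RB 3 K) (hnt : D1NT K) {t r z r' z' : ℝ} (hr : 0 < r)
    (hx : ((r : ℂ) * eA t, z) ∈ K) (hr' : 0 < r')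
    (hy : ∃ h, Nm K ((r' : ℂ) * eA (t + π / 3), z') (eA h, 0)) : r / 2 < r' := by
  by_contra hcon
  push Not at hcon
  obtain ⟨h, -, hh⟩ := hy
  have hR := d1_rot_mem hK hx
  have hR' := d1_rot_mem2 hK hx
  have a1 := hh _ hx
  have a2 := hh _ hR
  have a3 := hh _ hR'
  simp only [pr, d1_dot, zero_mul, add_zero] at a1 a2 a3
  have b := d1_trig (u := h - (t + π / 3)) hr hr' hcon
    (by convert a2 using 3; ring) (by convert a1 using 3; ring)
    (by
      have : Real.cos (h - (t - 2 * π / 3)) = -Real.cos (h - (t + π / 3)) := by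
        rw [← Real.cos_add_pi]; congr 1; ring
      rw [this] at a3
      linarith)
  obtain ⟨b1, b2⟩ := b
  have hh' : eA h = eA (t + π / 3) := by
    have : eA h = eA (t + π / 3) * eA (h - (t + π / 3)) := by
      rw [← eA_add]; congr 1; ring
    rw [this, b2, mul_one]
  refine hnt ((r : ℂ) * eA t, z) hx r t hr rfl ⟨?_, ?_⟩
  · intro h0
    exact eA_ne_zero (t + π / 3) (congrArg Prod.fst h0)
  · intro q hq
    have := hh q hq
    simp only [pr, zero_mul, add_zero, d1_dot] at this ⊢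
    rw [hh'] at this
    have c0 : Real.cos (h - (t + π / 3)) = 1 := by
      have := congrArg Complex.re b2
      simpa using this
    have c2 : Real.cos (t + π / 3 - t) = 1 / 2 := by
      rw [show t + π / 3 - t = π / 3 by ring, Real.cos_pi_div_three]
    rw [c0] at this
    rw [c2]
    linarith

/-- The radii: `r > r' / 2`. -/
lemma d1_radius' {K : Set Q3} (hK : RB 3 K) (hnt : D1NT K) {t r z r' z' : ℝ} (hr : 0 < r)
    (hx : ∃ h, Nm K ((r : ℂ) * eA t, z) (eA h, 0)) (hr' : 0 < r')
    (hy : ((r' : ℂ) * eA (t + π / 3), z') ∈ K) : r' / 2 < r := by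
  have hy' : ((r' : ℂ) * eA (t - π / 3), z') ∈ K := by
    have := d1_rot_mem2 hK hy
    rwa [show t + π / 3 - 2 * π / 3 = t - π / 3 by ring] at this
  refine d1_radius (t := t - π / 3) (z' := z) hK hnt hr' hy' hr ?_
  rwa [show t - π / 3 + π / 3 = t by ring]

/-- The two slopes have opposite signs. -/
lemma d1_key {K : Set Q3} (hK : RB 3 K) (hnt : D1NT K) {t r z s r' z' s' : ℝ}
    (hx : Full K t r z s) (hy : Full K (t + π / 3) r' z' s') :
    0 < s * (z - z') ∧ 0 < s' * (z' - z) := by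
  have h1 := d1_radius hK hnt hx.rpos hx.mem hy.rpos hy.hor
  have h2 := d1_radius' hK hnt hx.rpos hx.hor hy.rpos hy.mem
  have e1 := hx.np.2 _ hy.mem
  have e2 := hy.nm.2 _ hx.mem
  simp only [pr, d1_dot] at e1 e2
  have c1 : Real.cos (t + π / 3 - (t + π / 3)) = 1 := by simp
  have c2 : Real.cos (t + π / 3 - t) = 1 / 2 := by
    rw [show t + π / 3 - t = π / 3 by ring, Real.cos_pi_div_three]
  have c3 : Real.cos (t + π / 3 - π / 3 - t) = 1 := by
    rw [show t + π / 3 - π / 3 - t = 0 by ring, Real.cos_zero]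
  have c4 : Real.cos (t + π / 3 - π / 3 - (t + π / 3)) = 1 / 2 := by
    rw [show t + π / 3 - π / 3 - (t + π / 3) = -(π / 3) by ring, Real.cos_neg,
      Real.cos_pi_div_three]
  rw [c1, c2] at e1
  rw [c3, c4] at e2
  constructor <;> nlinarith

lemma d1_ro_NT {K : Set Q3} (h : D1NT K) (t : ℝ) : D1NT (ro t K) := by
  intro x hxK ρ u hρ hx hn
  rw [ro_Nm] at hn
  refine h (eA (-t) * x.1, x.2) hxK ρ (u - t) hρ ?_ ?_
  · simp only
    rw [hx, sub_eq_add_neg, add_comm, eA_add]
    ring
  · have e : eA (u - t + π / 3) = eA (-t) * eA (u + π / 3) := by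
      rw [← eA_add]; congr 1; ring
    rw [e]
    exact hn

lemma d1_fl_NT {K : Set Q3} (h : D1NT K) : D1NT (fl K) := by
  intro x hxK ρ u hρ hx hn
  rw [Nm_fl] at hn
  refine h (x.1, -x.2) hxK ρ u hρ hx ?_
  simpa using hn

lemma d1_nn (t u : ℝ) : eA (- -t) * eA u = eA (t + u) := by
  rw [neg_neg, eA_add]

/-- The normal form when `r ≤ r'`. -/
lemma d1_le {K : Set Q3} (hK : RB 3 K) (hnt : D1NT K) {h h' : ℝ} (hT : Top K h) (hB : Bot K h')
    {t r z s r' z' s' : ℝ} (hx : Full K t r z s) (hy : Full K (t + π / 3) r' z' s')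
    (hrr : r ≤ r')
    (goal : ∀ (K' : Set Q3) (h h' a b X Y σ τ : ℝ), P6 K' h h' a b X Y σ τ →
      Served K' 7 ∨ Par K') : Served K 7 ∨ Par K := by
  obtain ⟨k1, k2⟩ := d1_key hK hnt hx hy
  -- the rotated body
  have hK1 := ro_RB hK (-t)
  have hT1 := ro_top hT (t := -t)
  have hB1 := ro_bot hB (t := -t)
  have hnt1 := d1_ro_NT hnt (-t)
  have px : (((r : ℂ), z) : Q3) ∈ ro (-t) K := by
    change (eA (- -t) * (r : ℂ), z) ∈ K
    have := hx.mem
    rwa [mul_comm (r : ℂ), ← neg_neg t] at this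
  have py : (((r' : ℂ) * eA (π / 3), z') : Q3) ∈ ro (-t) K := by
    change (eA (- -t) * ((r' : ℂ) * eA (π / 3)), z') ∈ K
    have := hy.mem
    have e : eA (- -t) * ((r' : ℂ) * eA (π / 3)) = (r' : ℂ) * eA (t + π / 3) := by
      rw [neg_neg, eA_add]; ring
    rwa [e]
  have ex : ((eA (- -t) * (r : ℂ), z) : Q3) = ((r : ℂ) * eA t, z) := by
    rw [neg_neg, mul_comm]
  have ey : ((eA (- -t) * ((r' : ℂ) * eA (π / 3)), z') : Q3) =
      ((r' : ℂ) * eA (t + π / 3), z') := by
    rw [neg_neg, eA_add]; ring_nf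
  have nx : Nm (ro (-t) K) ((r : ℂ), z) (eA (π / 3), s) := by
    rw [ro_Nm]
    simp only
    rw [ex, d1_nn]
    exact hx.np
  have ny : Nm (ro (-t) K) ((r' : ℂ) * eA (π / 3), z') (1, s') := by
    rw [ro_Nm]
    simp only
    rw [ey, mul_one, neg_neg]
    have := hy.nm
    rwa [show t + π / 3 - π / 3 = t by ring] at this
  have mx : Mx (ro (-t) K) ((r : ℂ), z) := by
    refine ⟨px, ?_⟩
    obtain ⟨η, hη⟩ := hx.hor
    refine ⟨eA (η - t), ?_⟩
    rw [ro_Nm]
    simp only
    rw [ex, d1_nn, show t + (η - t) = η by ring]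
    exact hη
  have my : Mx (ro (-t) K) ((r' : ℂ) * eA (π / 3), z') := by
    refine ⟨py, ?_⟩
    obtain ⟨η, hη⟩ := hy.hor
    refine ⟨eA (η - t), ?_⟩
    rw [ro_Nm]
    simp only
    rw [ey, d1_nn, show t + (η - t) = η by ring]
    exact hη
  rcases lt_trichotomy s 0 with hs | hs | hs
  · -- flip
    have hz : z < z' := by nlinarith
    have hs' : 0 < s' := by nlinarith
    have H : P6 (fl (ro (-t) K)) h' h r r' (-z) (-z') (-s) s' :=
      { rb := RB_fl hK1
        top := fl_top hB1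
        bot := fl_bot hT1
        a0 := hx.rpos
        ab := hrr
        s0 := by linarith
        t0 := hs'
        mx := by
          refine ⟨?_, ?_⟩
          · change ((r : ℂ), - -z) ∈ ro (-t) K
            rw [neg_neg]; exact px
          · obtain ⟨m, hm⟩ := mx.2
            refine ⟨m, ?_⟩
            rw [Nm_fl]
            simpa using hm
        my := by
          refine ⟨?_, ?_⟩
          · change ((r' : ℂ) * eA (π / 3), - -z') ∈ ro (-t) K
            rw [neg_neg]; exact py
          · obtain ⟨m, hm⟩ := my.2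
            refine ⟨m, ?_⟩
            rw [Nm_fl]
            simpa using hm
        nx := by
          rw [Nm_fl]
          simpa using nx
        ny := by
          rw [Nm_fl]
          simpa using ny
        nt := d1_fl_NT hnt1 }
    rcases goal _ _ _ _ _ _ _ _ _ H with hg | hg
    · exact Or.inl (ro_served (fl_served hg))
    · exact Or.inr (ro_par (fl_par hg))
  · rw [hs] at k1
    simp at k1
  · have hz : z' < z := by nlinarith
    have hs' : s' < 0 := by nlinarith
    have H : P6 (ro (-t) K) h h' r r' z z' s (-s') :=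
      { rb := hK1
        top := hT1
        bot := hB1
        a0 := hx.rpos
        ab := hrr
        s0 := hs
        t0 := by linarith
        mx := mx
        my := my
        nx := nx
        ny := by rw [neg_neg]; exact ny
        nt := hnt1 }
    rcases goal _ _ _ _ _ _ _ _ _ H with hg | hg
    · exact Or.inl (ro_served hg)
    · exact Or.inr (ro_par hg)

/-- A full point, rotated by 120. -/
lemma d1_full_rot {K : Set Q3} (hK : RB 3 K) {t r z s : ℝ} (h : Full K t r z s) :
    Full K (t + 2 * π / 3) r z s := by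
  have e0 : ∀ u : ℝ, eA (2 * π / 3 * ((1 : ℤ) : ℝ)) * eA u = eA (u + 2 * π / 3) := by
    intro u
    rw [← eA_add]; congr 1; push_cast; ring
  have e1 : ((eA (2 * π / 3 * ((1 : ℤ) : ℝ)) * ((r : ℂ) * eA t), z) : Q3) =
      ((r : ℂ) * eA (t + 2 * π / 3), z) := by
    rw [← e0]; ring_nf
  refine ⟨h.rpos, d1_rot_mem hK h.mem, ?_, ?_, ?_⟩
  · obtain ⟨η, hη⟩ := h.hor
    refine ⟨η + 2 * π / 3, ?_⟩
    have := rot_Nm hK hη 1
    simp only at this
    rwa [e1, e0] at this
  · have := rot_Nm hK h.np 1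
    simp only at this
    rw [e1, e0] at this
    rwa [show t + 2 * π / 3 + π / 3 = t + π / 3 + 2 * π / 3 by ring]
  · have := rot_Nm hK h.nm 1
    simp only at this
    rw [e1, e0] at this
    rwa [show t + 2 * π / 3 - π / 3 = t - π / 3 + 2 * π / 3 by ring]

/-- d1: the normal form can be reached (uses e8 `tri_case` and the rows 0). -/
theorem p6_of {K : Set Q3} (hK : RB 3 K) {h h' : ℝ} (hT : Top K h) (hB : Bot K h')
    {t r z s r' z' s' : ℝ} (hx : Full K t r z s) (hy : Full K (t + π / 3) r' z' s')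
    (goal : ∀ (K' : Set Q3) (h h' a b X Y σ τ : ℝ), P6 K' h h' a b X Y σ τ →
      Served K' 7 ∨ Par K') : Served K 7 ∨ Par K := by
  by_cases hnt : D1NT K
  · rcases le_total r r' with hrr | hrr
    · exact d1_le hK hnt hT hB hx hy hrr goal
    · have h2 := d1_full_rot hK hx
      rw [show t + 2 * π / 3 = t + π / 3 + π / 3 by ring] at h2
      exact d1_le hK hnt hT hB hy h2 hrr goal
  · simp only [D1NT, not_forall, not_not] at hnt
    obtain ⟨x, hxK, ρ, u, hρ, hxu, hn⟩ := hnt
    left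
    have hxe : x = ((ρ : ℂ) * eA u, x.2) := Prod.ext hxu rfl
    rw [hxe] at hn hxK
    exact tri_case hK hT hB hρ hxK hn

end Pool.Agent.Lib.MP_5e7226_co.RT
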