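import Mathlib
import Pool.Agent.Lib.MP_5e7226_co.RT.D5

/-! # MP_5e7226, E^3 rotations, case (II): rows d10 and d12 -/

set_option autoImplicit false

open Set Filter Topology
open scoped Real

namespace Pool.Agent.Lib.MP_5e7226_co.RT

section P6

variable {K : Set Q3} {h h' a b X Y σ τ : ℝ}

/-- d10: the exceptional case: the bound (`ε = π / 18`). -/
theorem exc_bound (H : P6 K h h' a b X Y σ τ) (hE : Nm K ((a : ℂ), X) (eA (π / 6), 0)) :
    ∃ M : ℝ, ∀ ρ t z φ l : ℝ, 0 < ρ → π / 6 ≤ t → t ≤ π / 6 + π / 18 → 0 < l →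
      ((ρ : ℂ) * eA t, z) ∈ K → Nm K ((ρ : ℂ) * eA t, z) ((l : ℂ) * eA φ, 1) →
      π / 2 ≤ φ → φ ≤ π / 2 + π / 18 → l ≤ M := by
  have hpi := Real.pi_pos
  have ha := H.a0
  have c10 : 0 < Real.cos (π / 18) := Real.cos_pos_of_mem_Ioo ⟨by linarith, by linarith⟩
  have c50 : 0 < Real.cos (5 * π / 18) := Real.cos_pos_of_mem_Ioo ⟨by linarith, by linarith⟩
  have m1 : Real.cos (5 * π / 18) < Real.cos (2 * π / 9) :=
    Real.cos_lt_cos_of_nonneg_of_le_pi (by positivity) (by linarith) (by linarith)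
  have m2 : Real.cos (π / 6) < Real.cos (π / 18) :=
    Real.cos_lt_cos_of_nonneg_of_le_pi (by positivity) (by linarith) (by linarith)
  have hδ : 0 < Real.cos (2 * π / 9) * Real.cos (π / 18) -
      Real.cos (π / 6) * Real.cos (5 * π / 18) := by
    have h1 := mul_lt_mul_of_pos_right m1 c10
    have h2 := mul_lt_mul_of_pos_right m2 c50
    nlinarith
  refine ⟨(h + h') / (a * (Real.cos (2 * π / 9) * Real.cos (π / 18) -
      Real.cos (π / 6) * Real.cos (5 * π / 18))), ?_⟩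
  intro ρ t z φ l hρ ht1 ht2 hl hw hn hφ1 hφ2
  rw [le_div_iff₀ (by positivity)]
  -- the support inequalities
  have e1 := hn.2 _ H.my.1
  have e2 := hE.2 _ hw
  have ea : ((a : ℂ), X) = ((a : ℂ) * eA 0, X) := by rw [eA_zero, mul_one]
  rw [ea, pr_pt, pr_pt] at e2
  have key : ∀ r s y : ℝ, pr ((l : ℂ) * eA φ, 1) ((r : ℂ) * eA s, y) =
      l * (r * Real.cos (φ - s)) + y := by
    intro r s y
    unfold pr
    simp only
    rw [dotC_ofReal_left, dotC_ofReal_right, dotC_eA, one_mul]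
  rw [key, key] at e1
  have hz := H.top.le _ hw
  have hY := H.bot.le _ H.my.1
  simp only at hz hY
  -- trigonometric bounds
  have b1 : Real.cos (2 * π / 9) ≤ Real.cos (φ - π / 3) :=
    Real.cos_le_cos_of_nonneg_of_le_pi (by linarith) (by linarith) (by linarith)
  have b2 : Real.cos (φ - t) ≤ Real.cos (5 * π / 18) :=
    Real.cos_le_cos_of_nonneg_of_le_pi (by linarith) (by linarith) (by linarith)
  have b3 : Real.cos (π / 18) ≤ Real.cos (π / 6 - t) := by
    have e : Real.cos (π / 6 - t) = Real.cos (t - π / 6) := by rw [← Real.cos_neg]; ring_nf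
    rw [e]
    exact Real.cos_le_cos_of_nonneg_of_le_pi (by linarith) (by linarith) (by linarith)
  have c40 : 0 < Real.cos (2 * π / 9) := c50.trans m1
  rw [sub_zero, zero_mul, zero_mul, add_zero, add_zero] at e2
  -- rho cos 10 <= a cos 30
  have r1 : ρ * Real.cos (π / 18) ≤ a * Real.cos (π / 6) :=
    (mul_le_mul_of_nonneg_left b3 hρ.le).trans e2
  have r2 : ρ * Real.cos (φ - t) ≤ ρ * Real.cos (5 * π / 18) :=
    mul_le_mul_of_nonneg_left b2 hρ.le
  have r3 : a * Real.cos (2 * π / 9) ≤ b * Real.cos (φ - π / 3) := by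
    have q1 := mul_le_mul_of_nonneg_left b1 ha.le
    have q2 := mul_le_mul_of_nonneg_right H.ab (c40.le.trans b1)
    linarith
  -- the bracket
  have r4 : a * (Real.cos (2 * π / 9) * Real.cos (π / 18) -
      Real.cos (π / 6) * Real.cos (5 * π / 18)) ≤
      (b * Real.cos (φ - π / 3) - ρ * Real.cos (φ - t)) * Real.cos (π / 18) := by
    have q1 := mul_le_mul_of_nonneg_right r3 c10.le
    have q2 := mul_le_mul_of_nonneg_right r2 c10.le
    have q3 := mul_le_mul_of_nonneg_right r1 c50.le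
    nlinarith
  have r5 := mul_le_mul_of_nonneg_left r4 hl.le
  have r6 : l * (b * Real.cos (φ - π / 3) - ρ * Real.cos (φ - t)) ≤ h + h' := by nlinarith
  have r7 : 0 ≤ h + h' := by linarith [H.top.pos, H.bot.pos]
  have r8 : l * (b * Real.cos (φ - π / 3) - ρ * Real.cos (φ - t)) * Real.cos (π / 18) ≤
      (h + h') * Real.cos (π / 18) := mul_le_mul_of_nonneg_right r6 c10.le
  have r9 : (h + h') * Real.cos (π / 18) ≤ (h + h') * 1 :=
    mul_le_mul_of_nonneg_left (Real.cos_le_one _) r7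
  nlinarith

end P6

theorem full_symm' {K : Set Q3} (hK : RB 3 K) {ρ t z σ : ℝ}
    (hn : Nm K ((ρ : ℂ) * eA t, z) (eA (t - π / 3), σ)) :
    Nm K ((ρ : ℂ) * eA t, z) (eA (t + π / 3), σ) := by
  have h1 : Nm K ((ρ : ℂ) * eA (t - 2 * (π / 3)), z) (eA (t - π / 3), σ) := by
    refine nm_of_eq hn ?_
    rw [pr_pt, pr_pt]
    have e1 : t - π / 3 - t = -(π / 3) := by ring
    have e2 : t - π / 3 - (t - 2 * (π / 3)) = π / 3 := by ring
    rw [e1, e2, Real.cos_neg]
  have h2 := nm_rot hK h1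
  rw [Rz_pt, Rz_n] at h2
  have e1 : t - 2 * (π / 3) + 2 * (π / 3) = t := by ring
  have e2 : t - π / 3 + 2 * (π / 3) = t + π / 3 := by ring
  rw [e1, e2] at h2
  exact h2

/-! ### the mirror image -/

lemma conj_eA (t : ℝ) : (starRingEnd ℂ) (eA t) = eA (-t) := by
  apply Complex.ext <;> simp

lemma dotC_conj (u v : ℂ) : dotC ((starRingEnd ℂ) u) ((starRingEnd ℂ) v) = dotC u v := by
  unfold dotC; simp

lemma mi_mi (K : Set Q3) : mi (mi K) = K := by
  ext x
  unfold mi
  simp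

theorem mi_Nm {K : Set Q3} {x n : Q3} :
    Nm (mi K) x n ↔ Nm K ((starRingEnd ℂ) x.1, x.2) ((starRingEnd ℂ) n.1, n.2) := by
  have key : ∀ u v : Q3, pr ((starRingEnd ℂ) u.1, u.2) ((starRingEnd ℂ) v.1, v.2) = pr u v := by
    intro u v
    unfold pr
    simp only
    rw [dotC_conj]
  constructor
  · rintro ⟨h1, h2⟩
    refine ⟨?_, fun y hy => ?_⟩
    · intro h0
      apply h1
      have h3 := congrArg Prod.fst h0
      have h4 := congrArg Prod.snd h0
      simp at h3 h4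
      exact Prod.ext h3 h4
    · have h3 := h2 ((starRingEnd ℂ) y.1, y.2) (by
        show ((starRingEnd ℂ) ((starRingEnd ℂ) y.1), y.2) ∈ K
        rw [Complex.conj_conj]; exact hy)
      rw [key]
      have h4 := key n ((starRingEnd ℂ) y.1, y.2)
      have h6 : (((starRingEnd ℂ) ((starRingEnd ℂ) y.1), y.2) : Q3) = y := by
        rw [Complex.conj_conj]
      simp only at h4
      rw [h6] at h4
      rw [h4]
      exact h3
  · rintro ⟨h1, h2⟩
    refine ⟨?_, fun y hy => ?_⟩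
    · intro h0
      apply h1
      rw [h0]; simp
    · have h3 := h2 _ (show ((starRingEnd ℂ) y.1, y.2) ∈ K from hy)
      rw [key, key] at h3
      exact h3

theorem mi_Mx {K : Set Q3} {x : Q3} : Mx (mi K) x ↔ Mx K ((starRingEnd ℂ) x.1, x.2) := by
  unfold Mx
  constructor
  · rintro ⟨h1, m, h2⟩
    exact ⟨h1, _, mi_Nm.1 h2⟩
  · rintro ⟨h1, m, h2⟩
    refine ⟨h1, (starRingEnd ℂ) m, mi_Nm.2 ?_⟩
    simpa using h2

theorem mi_Sv {K : Set Q3} {x v : Q3} (h : Sv (mi K) x v) :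
    Sv K ((starRingEnd ℂ) x.1, x.2) ((starRingEnd ℂ) v.1, v.2) := by
  intro n hn
  have h1 := h ((starRingEnd ℂ) n.1, n.2) (mi_Nm.2 (by simpa using hn))
  unfold pr at h1 ⊢
  simp only at h1 ⊢
  rw [← dotC_conj, Complex.conj_conj] at h1
  exact h1

theorem mi_served {K : Set Q3} {N : ℕ} (h : Served (mi K) N) : Served K N := by
  obtain ⟨v, hv⟩ := h
  refine ⟨fun i => ((starRingEnd ℂ) (v i).1, (v i).2), fun x hx => ?_⟩
  obtain ⟨i, hi⟩ := hv ((starRingEnd ℂ) x.1, x.2) (by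
    show ((starRingEnd ℂ) ((starRingEnd ℂ) x.1), x.2) ∈ K
    rw [Complex.conj_conj]; exact hx)
  refine ⟨i, ?_⟩
  have := mi_Sv hi
  simpa using this

theorem mi_RB {K : Set Q3} (hK : RB 3 K) : RB 3 (mi K) := by
  have hcont : Continuous (fun x : Q3 => (((starRingEnd ℂ) x.1, x.2) : Q3)) :=
    (Complex.continuous_conj.comp continuous_fst).prodMk continuous_snd
  have himg : mi K = (fun x : Q3 => (((starRingEnd ℂ) x.1, x.2) : Q3)) '' K := by
    ext x
    constructor
    · intro hx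
      exact ⟨((starRingEnd ℂ) x.1, x.2), hx, by simp⟩
    · rintro ⟨y, hy, rfl⟩
      show ((starRingEnd ℂ) ((starRingEnd ℂ) y.1), y.2) ∈ K
      rw [Complex.conj_conj]
      exact hy
  refine ⟨hK.p3, ?_, ?_, ?_, ?_⟩
  · rw [himg]
    exact hK.comp.image hcont
  · intro x hx y hy u v hu hv huv
    have h := hK.conv hx hy hu hv huv
    show (((starRingEnd ℂ) (u • x + v • y).1, (u • x + v • y).2) : Q3) ∈ K
    have h2 : (((starRingEnd ℂ) (u • x + v • y).1, (u • x + v • y).2) : Q3) =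
        u • (((starRingEnd ℂ) x.1, x.2) : Q3) + v • (((starRingEnd ℂ) y.1, y.2) : Q3) := by
      refine Prod.ext ?_ ?_
      · simp
      · simp
    rw [h2]
    exact h
  · have h1 : (fun x : Q3 => (((starRingEnd ℂ) x.1, x.2) : Q3)) ⁻¹' K ∈ 𝓝 (0 : Q3) := by
      apply hcont.continuousAt.preimage_mem_nhds
      have : (((starRingEnd ℂ) (0 : Q3).1, (0 : Q3).2) : Q3) = 0 := by simp
      rw [this]
      exact mem_interior_iff_mem_nhds.1 hK.zero
    exact mem_interior_iff_mem_nhds.2 h1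
  · intro x hx
    show ((starRingEnd ℂ) (eA (2 * π / (3 : ℕ)) * x.1), x.2) ∈ K
    have h1 := rot_mem' hK (show ((starRingEnd ℂ) x.1, x.2) ∈ K from hx)
    unfold Rz at h1
    simp only at h1
    have e : -(2 * (π / 3)) = -(2 * π / ((3 : ℕ) : ℝ)) := by push_cast; ring
    rw [map_mul, conj_eA, ← e]
    exact h1

theorem mi_top {K : Set Q3} {h : ℝ} (ht : Top K h) : Top (mi K) h where
  pos := ht.pos
  mem := by
    show ((starRingEnd ℂ) (0 : ℂ), h) ∈ K
    rw [map_zero]; exact ht.mem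
  le x hx := ht.le ((starRingEnd ℂ) x.1, x.2) hx
  eq x hx he := by
    have := ht.eq ((starRingEnd ℂ) x.1, x.2) hx he
    simpa using this

theorem mi_bot {K : Set Q3} {h : ℝ} (ht : Bot K h) : Bot (mi K) h where
  pos := ht.pos
  mem := by
    show ((starRingEnd ℂ) (0 : ℂ), -h) ∈ K
    rw [map_zero]; exact ht.mem
  le x hx := ht.le ((starRingEnd ℂ) x.1, x.2) hx
  eq x hx he := by
    have := ht.eq ((starRingEnd ℂ) x.1, x.2) hx he
    simpa using this

lemma rot_Mx {K : Set Q3} (hK : RB 3 K) {x : Q3} (h : Mx K x) (j : ℤ) :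
    Mx K (eA (2 * π / 3 * j) * x.1, x.2) := by
  obtain ⟨h1, m, h2⟩ := h
  exact ⟨mem_rotz hK h1 j, _, rot_Nm hK h2 j⟩

/-- d12: the mirror image of the normal form. -/
theorem p6_mi {K : Set Q3} {h h' a b X Y σ τ : ℝ} (H : P6 K h h' a b X Y σ τ) :
    P6 (mi K) h h' a b X Y σ τ where
  rb := mi_RB H.rb
  top := mi_top H.top
  bot := mi_bot H.bot
  a0 := H.a0
  ab := H.ab
  s0 := H.s0
  t0 := H.t0
  mx := by
    rw [mi_Mx]
    simpa using H.mx
  my := by
    rw [mi_Mx]
    have h1 := rot_Mx H.rb H.my (-1)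
    simp only at h1 ⊢
    rw [map_mul, Complex.conj_ofReal, conj_eA]
    have e : eA (2 * π / 3 * ((-1 : ℤ) : ℝ)) * ((b : ℂ) * eA (π / 3)) = (b : ℂ) * eA (-(π / 3)) := by
      rw [mul_left_comm, ← eA_add]
      congr 2
      push_cast; ring
    rw [e] at h1
    exact h1
  nx := by
    rw [mi_Nm]
    simp only
    rw [Complex.conj_ofReal, conj_eA]
    have h1 : Nm K ((a : ℂ) * eA 0, X) (eA (0 + π / 3), σ) := by
      rw [eA_zero, mul_one, zero_add]; exact H.nx
    have h2 := full_symm H.rb h1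
    rw [eA_zero, mul_one, zero_sub] at h2
    exact h2
  ny := by
    rw [mi_Nm]
    simp only
    rw [map_mul, Complex.conj_ofReal, conj_eA, map_one]
    have h0 : ((1 : ℂ), -τ) = (eA 0, -τ) := by rw [eA_zero]
    have h1 := H.ny
    rw [h0] at h1 ⊢
    refine nm_of_eq h1 ?_
    rw [pr_pt, pr_pt, zero_sub, zero_sub, neg_neg, Real.cos_neg]
  nt x hxK ρ t hρ hx hn := by
    rw [mi_Nm] at hn
    simp only at hn
    rw [hx, map_mul, Complex.conj_ofReal, conj_eA, conj_eA] at hn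
    have e : -(t + π / 3) = -t - π / 3 := by ring
    rw [e] at hn
    have h1 := full_symm' H.rb hn
    have hm : ((ρ : ℂ) * eA (-t), x.2) ∈ K := by
      have h2 : ((starRingEnd ℂ) x.1, x.2) ∈ K := hxK
      rwa [hx, map_mul, Complex.conj_ofReal, conj_eA] at h2
    exact H.nt ((ρ : ℂ) * eA (-t), x.2) hm ρ (-t) hρ rfl h1

end Pool.Agent.Lib.MP_5e7226_co.RT
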