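import Pool.Agent.Lib.MP_5e7226_co.RT.IIDefs

/-!
# MP_5e7226_co, RT: case II, rows d7 (p6_eq) and d8 (p6_par)
-/

set_option autoImplicit false

open Set Filter Topology
open scoped Real

namespace Pool.Agent.Lib.MP_5e7226_co.RT

theorem d7_e60 : eA (π / 3) = ⟨1 / 2, √3 / 2⟩ := by
  apply Complex.ext
  · simp [eA_re, Real.cos_pi_div_three]
  · simp [eA_im, Real.sin_pi_div_three]

theorem d7_e120 : eA (2 * π / 3) = ⟨-(1 / 2), √3 / 2⟩ := by
  have e : 2 * π / 3 = π - π / 3 := by ring
  apply Complex.ext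
  · rw [eA_re, e, Real.cos_pi_sub, Real.cos_pi_div_three]
  · rw [eA_im, e, Real.sin_pi_sub, Real.sin_pi_div_three]

theorem d7_rot {K : Set Q3} (hK : RB 3 K) {x : Q3} (hx : x ∈ K) :
    ((⟨-(1 / 2), √3 / 2⟩ : ℂ) * x.1, x.2) ∈ K := by
  have h := hK.rot x hx
  have e : (2 * Real.pi / ((3 : ℕ) : ℝ)) = 2 * π / 3 := by norm_num
  rw [e, d7_e120] at h
  exact h

/-- d7: both schemes fail: all inequalities are equalities. -/
theorem p6_eq {K : Set Q3} {h h' a b X Y σ τ : ℝ} (H : P6 K h h' a b X Y σ τ) {m M m' M' : ℂ}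
    (h1 : Nm K ((a : ℂ), X) (m, -1))
    (h2 : Nm K ((0 : ℂ), h) (M, 1)) (h3 : dotC 1 m ≤ dotC (eA (π / 3)) M)
    (h1' : Nm K ((a : ℂ), X) (m', 1)) (h2' : Nm K ((0 : ℂ), -h') (M', -1))
    (h3' : dotC 1 m' ≤ dotC (eA (π / 3)) M') :
    a = b ∧ 3 * X = 2 * h - h' ∧ 3 * Y = h - 2 * h' ∧ σ * (h + h') = 3 * a / 2 ∧
      τ * (h + h') = 3 * a / 2 := by
  have hs3 : (√3 : ℝ) * √3 = 3 := Real.mul_self_sqrt (by norm_num)
  have hA := H.top.mem
  have hB := H.bot.mem
  have hh := H.top.pos
  have hh' := H.bot.pos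
  have ha := H.a0
  have hab := H.ab
  have hb : 0 < b := lt_of_lt_of_le ha hab
  have hx := H.mx.1
  have hy := H.my.1
  have hRx := d7_rot H.rb hx
  rw [d7_e60] at h3 h3' hy
  have q1 := h1.2 _ hB
  have q2 := h2.2 _ hy
  have q3 := h1'.2 _ hA
  have q4 := h2'.2 _ hy
  have q5 := h2.2 _ hx
  have q6 := h2.2 _ hRx
  have nx := H.nx.2
  have ny := H.ny.2
  rw [d7_e60] at nx ny
  have q7 := nx _ hA
  have q8 := nx _ hy
  have q9 := ny _ hB
  have q10 := ny _ hx
  simp only [pr, dotC, Complex.one_re, Complex.one_im, Complex.ofReal_re, Complex.ofReal_im,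
    Complex.mul_re, Complex.mul_im, Complex.zero_re, Complex.zero_im] at *
  have hσ := H.s0
  have hτ := H.t0
  set S := √3 with hS
  -- (1)
  have r1 : h' + X ≤ a * m.re := by linarith
  have r2 : b * (M.re * (1 / 2) + M.im * (S / 2)) + Y ≤ h := by linarith
  have r3 : m.re ≤ M.re * (1 / 2) + M.im * (S / 2) := by linarith
  have r1' : h ≤ a * m'.re + X := by linarith
  have r2' : b * (M'.re * (1 / 2) + M'.im * (S / 2)) - Y ≤ h' := by linarith
  have r3' : m'.re ≤ M'.re * (1 / 2) + M'.im * (S / 2) := by linarith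
  set u := M.re * (1 / 2) + M.im * (S / 2) with hu
  set u' := M'.re * (1 / 2) + M'.im * (S / 2) with hu'
  have t1 : h' + X ≤ a * u := le_trans r1 (mul_le_mul_of_nonneg_left r3 ha.le)
  have t2 : h - X ≤ a * u' := by
    have := mul_le_mul_of_nonneg_left r3' ha.le
    linarith
  have t3 : h + h' ≤ a * (u + u') := by linarith
  have t4 : b * (u + u') ≤ h + h' := by linarith
  have t5 : 0 < u + u' := by
    by_contra hc
    push Not at hc
    have := mul_nonpos_of_nonneg_of_nonpos ha.le hc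
    linarith
  have hab' : b ≤ a := le_of_mul_le_mul_right (le_trans t4 t3) t5
  have eab : a = b := le_antisymm hab hab'
  subst eab
  have t6 : a * (u + u') = h + h' := le_antisymm t4 t3
  have t7 : a * u = h' + X := by linarith
  have t8 : X + Y = h - h' := by linarith
  -- M·e60 = M·e0 + M·e120
  have t9 : a * u ≤ 2 * (h - X) := by
    have : u = M.re + (M.re * (-(1 / 2)) + M.im * (S / 2)) := by rw [hu]; ring
    rw [this]
    nlinarith
  have t10 : 3 * X ≤ 2 * h - h' := by linarith
  have t11 : σ * (h - X) ≤ a / 2 := by linarith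
  have t12 : a / 2 ≤ σ * (X - Y) := by nlinarith
  have t13 : h - X ≤ X - Y := by
    have : σ * (h - X) ≤ σ * (X - Y) := le_trans t11 t12
    exact le_of_mul_le_mul_left this hσ
  have t14 : 3 * X = 2 * h - h' := by linarith
  have t15 : 3 * Y = h - 2 * h' := by linarith
  have t16 : h - X = (h + h') / 3 := by linarith
  have t17 : X - Y = (h + h') / 3 := by linarith
  have t18 : h' + Y = (h + h') / 3 := by linarith
  refine ⟨rfl, t14, t15, ?_, ?_⟩
  · rw [t16] at t11
    rw [t17] at t12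
    linarith
  · have t19 : τ * (h' + Y) ≤ a / 2 := by nlinarith
    have t20 : a / 2 ≤ τ * (X - Y) := by nlinarith
    rw [t18] at t19
    rw [t17] at t20
    linarith

theorem d8_seg {K : Set Q3} (hc : Convex ℝ K) {x v : Q3} (h1 : x + v ∈ K) (h2 : x - v ∈ K)
    {s : ℝ} (hs : |s| ≤ 1) : x + s • v ∈ K := by
  rw [abs_le] at hs
  have h := hc h1 h2 (a := (1 + s) / 2) (b := (1 - s) / 2) (by linarith) (by linarith) (by ring)
  have e : x + s • v = ((1 + s) / 2) • (x + v) + ((1 - s) / 2) • (x - v) := by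
    module
  rw [e]; exact h

theorem d8_box {K : Set Q3} (hc : Convex ℝ K) {c v₁ v₂ v₃ : Q3}
    (h1 : c + v₁ + v₂ + v₃ ∈ K) (h2 : c + v₁ + v₂ - v₃ ∈ K) (h3 : c + v₁ - v₂ + v₃ ∈ K)
    (h4 : c + v₁ - v₂ - v₃ ∈ K) (h5 : c - v₁ + v₂ + v₃ ∈ K) (h6 : c - v₁ + v₂ - v₃ ∈ K)
    (h7 : c - v₁ - v₂ + v₃ ∈ K) (h8 : c - v₁ - v₂ - v₃ ∈ K) {s₁ s₂ s₃ : ℝ} (b1 : |s₁| ≤ 1)
    (b2 : |s₂| ≤ 1) (b3 : |s₃| ≤ 1) : c + s₁ • v₁ + s₂ • v₂ + s₃ • v₃ ∈ K := by
  have a1 : (c + v₂ + v₃) + s₁ • v₁ ∈ K :=
    d8_seg hc (by convert h1 using 1; abel) (by convert h5 using 1; abel) b1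
  have a2 : (c + v₂ - v₃) + s₁ • v₁ ∈ K :=
    d8_seg hc (by convert h2 using 1; abel) (by convert h6 using 1; abel) b1
  have a3 : (c - v₂ + v₃) + s₁ • v₁ ∈ K :=
    d8_seg hc (by convert h3 using 1; abel) (by convert h7 using 1; abel) b1
  have a4 : (c - v₂ - v₃) + s₁ • v₁ ∈ K :=
    d8_seg hc (by convert h4 using 1; abel) (by convert h8 using 1; abel) b1
  have c1 : (c + v₃ + s₁ • v₁) + s₂ • v₂ ∈ K :=
    d8_seg hc (by convert a1 using 1; abel) (by convert a3 using 1; abel) b2
  have c2 : (c - v₃ + s₁ • v₁) + s₂ • v₂ ∈ K :=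
    d8_seg hc (by convert a2 using 1; abel) (by convert a4 using 1; abel) b2
  exact d8_seg hc (by convert c1 using 1; abel) (by convert c2 using 1; abel) b3

/-- d8: then `K` is a parallelepiped. -/
theorem p6_par {K : Set Q3} {h h' a b X Y σ τ : ℝ} (H : P6 K h h' a b X Y σ τ) (h1 : a = b)
    (h2 : 3 * X = 2 * h - h')
    (h3 : 3 * Y = h - 2 * h') (h4 : σ * (h + h') = 3 * a / 2) (h5 : τ * (h + h') = 3 * a / 2) :
    Par K := by
  have hs3 : (√3 : ℝ) * √3 = 3 := Real.mul_self_sqrt (by norm_num)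
  have hA := H.top.mem
  have hB := H.bot.mem
  have hh := H.top.pos
  have hh' := H.bot.pos
  have ha := H.a0
  have hx := H.mx.1
  have hy := H.my.1
  have nx := H.nx.2
  have ny := H.ny.2
  rw [d7_e60] at nx ny hy
  subst h1
  have hH : 0 < h + h' := by linarith
  have hX : X = (2 * h - h') / 3 := by linarith
  have hY : Y = (h - 2 * h') / 3 := by linarith
  have est : σ = τ := by
    have : σ * (h + h') = τ * (h + h') := by rw [h4, h5]
    exact mul_right_cancel₀ hH.ne' this
  subst est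
  have hσ : σ = 3 * a / (2 * (h + h')) := by
    rw [eq_div_iff (by positivity)]; linarith
  have hRx := d7_rot H.rb hx
  have hRRx := d7_rot H.rb hRx
  have hRy := d7_rot H.rb hy
  have hRRy := d7_rot H.rb hRy
  set S := √3 with hS
  have ex1 : ((⟨-(1 / 2), S / 2⟩ : ℂ) * (a : ℂ)) = ⟨-(a / 2), S * a / 2⟩ := by
    apply Complex.ext
    · simp; ring
    · simp; ring
  have ex2 : ((⟨-(1 / 2), S / 2⟩ : ℂ) * (⟨-(a / 2), S * a / 2⟩ : ℂ)) = ⟨-(a / 2), -(S * a / 2)⟩ := by
    apply Complex.ext
    · simp only [Complex.mul_re]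
      linear_combination (-(a / 4)) * hs3
    · simp only [Complex.mul_im]; ring
  have ey0 : ((a : ℂ) * (⟨1 / 2, S / 2⟩ : ℂ)) = ⟨a / 2, S * a / 2⟩ := by
    apply Complex.ext
    · simp; ring
    · simp; ring
  have ey1 : ((⟨-(1 / 2), S / 2⟩ : ℂ) * (⟨a / 2, S * a / 2⟩ : ℂ)) = ⟨-a, 0⟩ := by
    apply Complex.ext
    · simp only [Complex.mul_re]
      linear_combination (-(a / 4)) * hs3
    · simp only [Complex.mul_im]; ring
  have ey2 : ((⟨-(1 / 2), S / 2⟩ : ℂ) * (⟨-a, 0⟩ : ℂ)) = ⟨a / 2, -(S * a / 2)⟩ := by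
    apply Complex.ext
    · simp only [Complex.mul_re]; ring
    · simp only [Complex.mul_im]; ring
  simp only [ex1, ex2] at hRx hRRx
  simp only [ey0] at hy hRy hRRy
  simp only [ey1] at hRy hRRy
  simp only [ey2] at hRRy
  have ea : (a : ℂ) = ⟨a, 0⟩ := rfl
  have e0 : (0 : ℂ) = ⟨0, 0⟩ := rfl
  rw [ea] at hx
  rw [e0] at hA hB
  -- the six half-spaces
  have up0 : ∀ p ∈ K, p.1.re * (1 / 2) + p.1.im * (S / 2) + σ * p.2 ≤ σ * h := by
    intro p hp
    have q := nx p hp
    simp only [pr, dotC, Complex.ofReal_re, Complex.ofReal_im] at q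
    have : σ * h = a / 2 + σ * X := by
      rw [hX, hσ]; field_simp; ring
    rw [this]; linarith
  have dn0 : ∀ p ∈ K, p.1.re - σ * p.2 ≤ σ * h' := by
    intro p hp
    have q := ny p hp
    rw [ey0] at q
    simp only [pr, dotC, Complex.one_re, Complex.one_im] at q
    have : σ * h' = a / 2 - σ * Y := by
      rw [hY, hσ]; field_simp; ring
    rw [this]; linarith
  have rot : ∀ p ∈ K, ((⟨-(p.1.re / 2) - S * p.1.im / 2, S * p.1.re / 2 - p.1.im / 2⟩ : ℂ), p.2) ∈ K := by
    intro p hp
    have q := d7_rot H.rb hp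
    rw [← hS] at q
    have e : ((⟨-(1 / 2), S / 2⟩ : ℂ) * p.1)
        = ⟨-(p.1.re / 2) - S * p.1.im / 2, S * p.1.re / 2 - p.1.im / 2⟩ := by
      apply Complex.ext
      · simp only [Complex.mul_re]; ring
      · simp only [Complex.mul_im]; ring
    rw [e] at q
    exact q
  have up1 : ∀ p ∈ K, -p.1.re + σ * p.2 ≤ σ * h := by
    intro p hp
    have q := up0 _ (rot _ (rot _ hp))
    have w1 : p.1.re * (S * S) = p.1.re * 3 := by rw [hs3]
    have w2 : p.1.im * (S * S) = p.1.im * 3 := by rw [hs3]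
    have w3 : p.1.im * S * (S * S) = p.1.im * S * 3 := by rw [hs3]
    simp only at q
    linarith
  have up2 : ∀ p ∈ K, p.1.re * (1 / 2) - p.1.im * (S / 2) + σ * p.2 ≤ σ * h := by
    intro p hp
    have q := up1 _ (rot _ (rot _ hp))
    have w1 : p.1.re * (S * S) = p.1.re * 3 := by rw [hs3]
    simp only at q
    linarith
  have dn1 : ∀ p ∈ K, -(p.1.re * (1 / 2)) - p.1.im * (S / 2) - σ * p.2 ≤ σ * h' := by
    intro p hp
    have q := dn0 _ (rot _ hp)
    simp only at q
    linarith
  have dn2 : ∀ p ∈ K, -(p.1.re * (1 / 2)) + p.1.im * (S / 2) - σ * p.2 ≤ σ * h' := by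
    intro p hp
    have q := dn1 _ (rot _ hp)
    have w1 : p.1.re * (S * S) = p.1.re * 3 := by rw [hs3]
    have w2 : p.1.im * (S * S) = p.1.im * 3 := by rw [hs3]
    have w3 : p.1.im * S * (S * S) = p.1.im * S * 3 := by rw [hs3]
    simp only at q
    linarith
  refine ⟨((⟨0, 0⟩ : ℂ), (h - h') / 2), ((⟨a / 2, 0⟩ : ℂ), -((h + h') / 6)),
    ((⟨-(a / 4), S * a / 4⟩ : ℂ), -((h + h') / 6)),
    ((⟨-(a / 4), -(S * a / 4)⟩ : ℂ), -((h + h') / 6)), ?_, ?_⟩
  · rw [Fintype.linearIndependent_iff]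
    intro g hg
    rw [Fin.sum_univ_three] at hg
    simp only [Matrix.cons_val_zero, Matrix.cons_val_one, Matrix.cons_val_two,
      Matrix.head_cons, Matrix.tail_cons] at hg
    have g1 := congrArg (fun q : Q3 => q.1.re) hg
    have g2 := congrArg (fun q : Q3 => q.1.im) hg
    have g3 := congrArg (fun q : Q3 => q.2) hg
    simp at g1 g2 g3
    have hS0 : 0 < S := by rw [hS]; positivity
    have f1 : a * (2 * g 0 - g 1 - g 2) = 0 := by linarith
    have f2 : (S * a) * (g 1 - g 2) = 0 := by linarith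
    have f3 : (h + h') * (g 0 + g 1 + g 2) = 0 := by linarith
    have f1' := (mul_eq_zero.mp f1).resolve_left ha.ne'
    have f2' := (mul_eq_zero.mp f2).resolve_left (mul_pos hS0 ha).ne'
    have f3' := (mul_eq_zero.mp f3).resolve_left hH.ne'
    intro i
    fin_cases i
    · show g 0 = 0
      linarith
    · show g 1 = 0
      linarith
    · show g 2 = 0
      linarith
  · ext p
    constructor
    · intro hp
      have hbd : ∀ u : ℝ, u ≤ σ * (p.2 + h') → σ * (p.2 - h) ≤ u →
          |4 * u / (3 * a) + (h - h' - 2 * p.2) / (h + h')| ≤ 1 := by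
        intro u hu1 hu2
        have k1 : 4 * u / (3 * a) ≤ 2 * (p.2 + h') / (h + h') := by
          rw [div_le_iff₀ (by positivity)]
          have : 2 * (p.2 + h') / (h + h') * (3 * a) = 4 * (σ * (p.2 + h')) := by
            rw [hσ]; field_simp; ring
          rw [this]; linarith
        have k2 : 2 * (p.2 - h) / (h + h') ≤ 4 * u / (3 * a) := by
          rw [le_div_iff₀ (by positivity)]
          have : 2 * (p.2 - h) / (h + h') * (3 * a) = 4 * (σ * (p.2 - h)) := by
            rw [hσ]; field_simp; ring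
          rw [this]; linarith
        have k3 : 2 * (p.2 + h') / (h + h') + (h - h' - 2 * p.2) / (h + h') = 1 := by
          field_simp; ring
        have k4 : 2 * (p.2 - h) / (h + h') + (h - h' - 2 * p.2) / (h + h') = -1 := by
          field_simp; ring
        rw [abs_le]
        constructor <;> linarith
      have a0 := up0 p hp
      have a1 := up1 p hp
      have a2 := up2 p hp
      have c0 := dn0 p hp
      have c1 := dn1 p hp
      have c2 := dn2 p hp
      refine ⟨4 * p.1.re / (3 * a) + (h - h' - 2 * p.2) / (h + h'),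
        4 * (-(p.1.re * (1 / 2)) + p.1.im * (S / 2)) / (3 * a) + (h - h' - 2 * p.2) / (h + h'),
        4 * (-(p.1.re * (1 / 2)) - p.1.im * (S / 2)) / (3 * a) + (h - h' - 2 * p.2) / (h + h'),
        hbd _ (by linarith) (by linarith), hbd _ (by linarith) (by linarith),
        hbd _ (by linarith) (by linarith), ?_⟩
      have ha' := ha.ne'
      have hH' := hH.ne'
      apply Prod.ext
      · apply Complex.ext
        · simp only [Prod.fst_add, Prod.smul_fst, Complex.add_re, Complex.real_smul,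
            Complex.mul_re, Complex.ofReal_re, Complex.ofReal_im]
          field_simp
          ring
        · simp only [Prod.fst_add, Prod.smul_fst, Complex.add_im, Complex.real_smul,
            Complex.mul_im, Complex.ofReal_re, Complex.ofReal_im]
          field_simp
          linear_combination (-8 * p.1.im * a * (h + h')) * hs3
      · simp only [Prod.snd_add, Prod.smul_snd, smul_eq_mul]
        field_simp
        ring
    · rintro ⟨s1, s2, s3, b1, b2, b3, rfl⟩
      apply d8_box H.rb.conv _ _ _ _ _ _ _ _ b1 b2 b3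
      · convert hB using 1
        apply Prod.ext
        · apply Complex.ext <;> simp <;> ring
        · simp; ring
      · convert hy using 1
        apply Prod.ext
        · apply Complex.ext <;> simp <;> ring
        · simp [hY]; ring
      · convert hRRy using 1
        apply Prod.ext
        · apply Complex.ext <;> simp <;> ring
        · simp [hY]; ring
      · convert hx using 1
        apply Prod.ext
        · apply Complex.ext <;> simp <;> ring
        · simp [hX]; ring
      · convert hRy using 1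
        apply Prod.ext
        · apply Complex.ext <;> simp <;> ring
        · simp [hY]; ring
      · convert hRx using 1
        apply Prod.ext
        · apply Complex.ext <;> simp <;> ring
        · simp [hX]; ring
      · convert hRRx using 1
        apply Prod.ext
        · apply Complex.ext <;> simp <;> ring
        · simp [hX]; ring
      · convert hA using 1
        apply Prod.ext
        · apply Complex.ext <;> simp <;> ring
        · simp; ring

end Pool.Agent.Lib.MP_5e7226_co.RT
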