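import Pool.Agent.Lib.MP_5e7226_co.RT.IIDefs
import Pool.Agent.Lib.MP_5e7226_co.RT.D78

/-!
# MP_5e7226_co, RT: case II, row d6 (top_alt, bot_alt)
-/

set_option autoImplicit false

open Set Filter Topology
open scoped Real

namespace Pool.Agent.Lib.MP_5e7226_co.RT

theorem d6_pr_smul (c : ℝ) (n z : Q3) : pr (c • n) z = c * pr n z := by
  simp [pr, dotC]; ring

theorem d6_pr_smul' (c : ℝ) (n z : Q3) : pr n (c • z) = c * pr n z := by
  simp [pr, dotC]; ring

theorem d6_scale {K : Set Q3} {x n : Q3} (h : Nm K x n) {c : ℝ} (hc : 0 < c) :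
    Nm K x (c • n) := by
  refine ⟨smul_ne_zero hc.ne' h.1, fun y hy => ?_⟩
  rw [d6_pr_smul, d6_pr_smul]
  exact mul_le_mul_of_nonneg_left (h.2 y hy) hc.le

theorem d6_self {n : Q3} (h : n ≠ 0) : 0 < pr n n := by
  simp only [pr, dotC]
  by_cases h1 : n.1 = 0
  · have h2 : n.2 ≠ 0 := fun h2 => h (Prod.ext h1 h2)
    rw [h1]
    simp only [Complex.zero_re, Complex.zero_im]
    have := mul_self_pos.mpr h2
    linarith
  · have h2 : n.1.re ≠ 0 ∨ n.1.im ≠ 0 := by
      by_contra hc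
      push Not at hc
      exact h1 (Complex.ext hc.1 hc.2)
    rcases h2 with h2 | h2
    · have := mul_self_pos.mpr h2
      nlinarith [mul_self_nonneg n.1.im, mul_self_nonneg n.2]
    · have := mul_self_pos.mpr h2
      nlinarith [mul_self_nonneg n.1.re, mul_self_nonneg n.2]

theorem d6_pos {K : Set Q3} (h0 : (0 : Q3) ∈ interior K) {x n : Q3} (hn : Nm K x n) :
    0 < pr n x := by
  rw [mem_interior_iff_mem_nhds, Metric.mem_nhds_iff] at h0
  obtain ⟨ε, hε, hb⟩ := h0
  have hc : 0 < ε / (2 * (‖n‖ + 1)) := by positivity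
  have hm : (ε / (2 * (‖n‖ + 1))) • n ∈ K := by
    apply hb
    rw [mem_ball_zero_iff, norm_smul, Real.norm_of_nonneg hc.le]
    rw [div_mul_eq_mul_div, div_lt_iff₀ (by positivity)]
    nlinarith [norm_nonneg n]
  have h1 := hn.2 _ hm
  rw [d6_pr_smul'] at h1
  exact lt_of_lt_of_le (mul_pos hc (d6_self hn.1)) h1

theorem d6_closed (K : Set Q3) (x : Q3) (e : ℝ) :
    IsClosed {m : ℂ | ∀ y ∈ K, pr (m, e) y ≤ pr (m, e) x} := by
  have : {m : ℂ | ∀ y ∈ K, pr (m, e) y ≤ pr (m, e) x}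
      = ⋂ y ∈ K, {m : ℂ | pr (m, e) y ≤ pr (m, e) x} := by
    ext m; simp
  rw [this]
  refine isClosed_biInter fun y _ => isClosed_le ?_ ?_
  · simp only [pr, dotC]; fun_prop
  · simp only [pr, dotC]; fun_prop

/-- normals at a point `(a, X)` -/
theorem d6_cone {K : Set Q3} (hK : RB 3 K) {a X : ℝ} (ha : 0 < a) (hx : ((a : ℂ), X) ∈ K)
    {n : Q3} (hn : Nm K ((a : ℂ), X) n) : ‖n.1‖ ≤ 2 * n.1.re := by
  have hs3 : (√3 : ℝ) * √3 = 3 := Real.mul_self_sqrt (by norm_num)
  have hs0 : (0 : ℝ) < √3 := by positivity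
  have h1 := hn.2 _ (d7_rot hK hx)
  have h2 := hn.2 _ (d7_rot hK (d7_rot hK hx))
  simp only [pr, dotC, Complex.mul_re, Complex.mul_im, Complex.ofReal_re,
    Complex.ofReal_im] at h1 h2
  set S := √3 with hS
  have w : n.1.re * a * (S * S) = n.1.re * a * 3 := by rw [hs3]
  have h1' : a * (S * (n.1.im)) ≤ a * (3 * n.1.re) := by linarith
  have h2' : a * (-(S * (n.1.im))) ≤ a * (3 * n.1.re) := by linarith
  have h3 := le_of_mul_le_mul_left h1' ha
  have h4 := le_of_mul_le_mul_left h2' ha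
  have hre : 0 ≤ n.1.re := by linarith
  have h5 : (S * n.1.im) ^ 2 ≤ (3 * n.1.re) ^ 2 := by
    apply sq_le_sq'
    · linarith
    · exact h3
  have h6 : n.1.im ^ 2 ≤ 3 * n.1.re ^ 2 := by nlinarith
  have h7 : ‖n.1‖ ^ 2 ≤ (2 * n.1.re) ^ 2 := by
    rw [Complex.sq_norm, Complex.normSq_apply]; nlinarith
  exact abs_le_of_sq_le_sq' h7 (by positivity) |>.2

theorem d6_axis_rot {K : Set Q3} (hK : RB 3 K) {z e : ℝ} {M : ℂ}
    (h : ∀ y ∈ K, pr (M, e) y ≤ pr (M, e) ((0 : ℂ), z)) :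
    ∀ y ∈ K, pr ((⟨-(M.re / 2) + √3 * M.im / 2, -(√3 * M.re / 2) - M.im / 2⟩ : ℂ), e) y ≤
      pr ((⟨-(M.re / 2) + √3 * M.im / 2, -(√3 * M.re / 2) - M.im / 2⟩ : ℂ), e) ((0 : ℂ), z) := by
  intro y hy
  have h1 := h _ (d7_rot hK hy)
  simp only [pr, dotC, Complex.mul_re, Complex.mul_im, Complex.zero_re, Complex.zero_im] at h1 ⊢
  linarith

theorem alt_gen {K : Set Q3} (hK : RB 3 K) {e : ℝ} (he : e * e = 1) {H a X : ℝ} (hH : 0 < H)
    (hA : ((0 : ℂ), e * H) ∈ K) (hle : ∀ y ∈ K, e * y.2 ≤ H) (ha : 0 < a)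
    (hx : ((a : ℂ), X) ∈ K) (hno : ∀ n, Nm K ((a : ℂ), X) n → n.1 ≠ 0) :
    (∃ s : ℝ, 0 < s ∧ Sv K ((0 : ℂ), e * H) ((s : ℂ), e) ∧ Sv K ((a : ℂ), X) ((s : ℂ), e)) ∨
    ∃ m M : ℂ, Nm K ((a : ℂ), X) (m, -e) ∧ Nm K ((0 : ℂ), e * H) (M, e) ∧
      dotC 1 m ≤ dotC (eA (π / 3)) M := by
  have he0 : e ≠ 0 := by rintro rfl; norm_num at he
  set SM : Set ℂ := {m : ℂ | ∀ y ∈ K, pr (m, e) y ≤ pr (m, e) ((0 : ℂ), e * H)} with hSM
  set Sm : Set ℂ := {m : ℂ | ∀ y ∈ K, pr (m, -e) y ≤ pr (m, -e) ((a : ℂ), X)} with hSm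
  have nmM : ∀ M ∈ SM, Nm K ((0 : ℂ), e * H) (M, e) := by
    intro M hM
    exact ⟨fun h => he0 (congrArg Prod.snd h), hM⟩
  have nmm : ∀ m ∈ Sm, Nm K ((a : ℂ), X) (m, -e) := by
    intro m hm
    refine ⟨fun h => he0 ?_, hm⟩
    have := congrArg Prod.snd h
    simpa using this
  -- `SM` is bounded
  have hbd : ∃ C : ℝ, 0 < C ∧ ∀ M ∈ SM, ‖M‖ ≤ C := by
    have h0 := hK.zero
    rw [mem_interior_iff_mem_nhds, Metric.mem_nhds_iff] at h0
    obtain ⟨ε, hε, hb⟩ := h0
    refine ⟨2 * H / ε, by positivity, fun M hM => ?_⟩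
    by_cases hM0 : M = 0
    · rw [hM0, norm_zero]; positivity
    have hn : 0 < ‖M‖ := norm_pos_iff.mpr hM0
    have hm : ((((ε / (2 * ‖M‖) : ℝ) : ℂ) * M, (0 : ℝ)) : Q3) ∈ K := by
      apply hb
      rw [mem_ball_zero_iff, Prod.norm_def]
      simp only [norm_zero, norm_mul, Complex.norm_real]
      rw [Real.norm_of_nonneg (by positivity), max_eq_left (by positivity)]
      rw [div_mul_eq_mul_div, div_lt_iff₀ (by positivity)]
      nlinarith
    have h1 := hM _ hm
    have h2 : pr (M, e) ((((ε / (2 * ‖M‖) : ℝ) : ℂ) * M, (0 : ℝ)) : Q3) = ε / 2 * ‖M‖ := by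
      simp only [pr]
      rw [dotC_ofReal_right, dotC_self]
      field_simp
      ring
    have h3 : pr (M, e) ((0 : ℂ), e * H) = H := by
      simp only [pr, dotC, Complex.zero_re, Complex.zero_im]
      linear_combination H * he
    rw [h2, h3] at h1
    rw [le_div_iff₀ hε]
    linarith
  obtain ⟨C, hC, hCM⟩ := hbd
  have hSMc : IsCompact SM := by
    apply Metric.isCompact_of_isClosed_isBounded (d6_closed K _ _)
    rw [isBounded_iff_forall_norm_le]
    exact ⟨C, hCM⟩
  have h0M : (0 : ℂ) ∈ SM := by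
    intro y hy
    have := hle y hy
    simp only [pr, dotC, Complex.zero_re, Complex.zero_im]
    have : e * (e * H) = H := by linear_combination H * he
    linarith
  obtain ⟨Ms, hMs, hmax⟩ := hSMc.exists_isMaxOn ⟨0, h0M⟩
    (f := fun M => dotC (eA (π / 3)) M) (by simp only [dotC]; fun_prop)
  have hmax' : ∀ M ∈ SM, dotC (eA (π / 3)) M ≤ dotC (eA (π / 3)) Ms := fun M hM => hmax hM
  have hlow : ∀ M ∈ SM, -(dotC (eA (π / 3)) Ms) ≤ M.re := by
    intro M hM
    have h1 := hmax' _ (d6_axis_rot hK hM)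
    have hs3 : (√3 : ℝ) * √3 = 3 := Real.mul_self_sqrt (by norm_num)
    rw [d7_e60] at h1 ⊢
    simp only [dotC] at h1 ⊢
    have w : M.re * (√3 * √3) = M.re * 3 := by rw [hs3]
    linarith
  have hH1 : 0 ≤ dotC (eA (π / 3)) Ms := by
    have := hmax' 0 h0M
    simpa [dotC] using this
  -- serving at the top
  have hsvA : ∀ s : ℝ, 0 < s → s * dotC (eA (π / 3)) Ms < 1 →
      Sv K ((0 : ℂ), e * H) ((s : ℂ), e) := by
    intro s hs hs1 n hn
    have h1 := d6_pos hK.zero hn
    have h2 : 0 < n.2 * e := by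
      have : pr n ((0 : ℂ), e * H) = (n.2 * e) * H := by
        simp only [pr, dotC, Complex.zero_re, Complex.zero_im]; ring
      rw [this] at h1
      exact (mul_pos_iff_of_pos_right hH).mp h1
    have h3 := d6_scale hn (inv_pos.mpr h2)
    have h4 : (n.2 * e)⁻¹ • n = ((n.2 * e)⁻¹ • n.1, e) := by
      apply Prod.ext
      · rfl
      · simp only [Prod.smul_snd, smul_eq_mul]
        rw [inv_mul_eq_div, div_eq_iff h2.ne']
        linear_combination (-n.2) * he
    rw [h4] at h3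
    have h5 := hlow _ h3.2
    have h6 : ((n.2 * e)⁻¹ • n.1).re = (n.2 * e)⁻¹ * n.1.re := by simp
    rw [h6] at h5
    have hcc := mul_inv_cancel₀ h2.ne'
    have h7 : pr n ((s : ℂ), e) = (n.2 * e) * (s * ((n.2 * e)⁻¹ * n.1.re) + 1) := by
      simp only [pr, dotC, Complex.ofReal_re, Complex.ofReal_im]
      linear_combination (-s * n.1.re) * hcc
    rw [h7]
    apply mul_pos h2
    nlinarith
  by_cases hne : Sm.Nonempty
  · obtain ⟨m0, hm0⟩ := hne
    have hcone : ∀ m ∈ Sm, ‖m‖ ≤ 2 * m.re := fun m hm => d6_cone hK ha hx (nmm m hm)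
    have hcl : IsClosed (Sm ∩ {m : ℂ | m.re ≤ m0.re}) :=
      (d6_closed K _ _).inter (isClosed_le (by fun_prop) (by fun_prop))
    have hcp : IsCompact (Sm ∩ {m : ℂ | m.re ≤ m0.re}) := by
      apply Metric.isCompact_of_isClosed_isBounded hcl
      rw [isBounded_iff_forall_norm_le]
      refine ⟨2 * m0.re, fun m hm => ?_⟩
      have h1 := hcone m hm.1
      have h2 : m.re ≤ m0.re := hm.2
      linarith
    obtain ⟨ms, hms, hmin⟩ := hcp.exists_isMinOn ⟨m0, hm0, le_refl m0.re⟩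
      (f := fun m : ℂ => m.re) (by fun_prop)
    have hmin' : ∀ m ∈ Sm, ms.re ≤ m.re := by
      intro m hm
      by_cases hmm : m.re ≤ m0.re
      · exact hmin ⟨hm, hmm⟩
      · push Not at hmm
        have : ms.re ≤ m0.re := hms.2
        linarith
    by_cases hc : ms.re ≤ dotC (eA (π / 3)) Ms
    · right
      refine ⟨ms, Ms, nmm ms hms.1, nmM Ms hMs, ?_⟩
      simpa [dotC] using hc
    · left
      push Not at hc
      have hsum : 0 < dotC (eA (π / 3)) Ms + ms.re := by linarith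
      refine ⟨2 / (dotC (eA (π / 3)) Ms + ms.re), by positivity, hsvA _ (by positivity) ?_, ?_⟩
      · rw [div_mul_eq_mul_div, div_lt_one hsum]; linarith
      · intro n hn
        have hn0 := hno n hn
        have hcn := d6_cone hK ha hx hn
        have hre : 0 < n.1.re := by
          have := norm_pos_iff.mpr hn0
          linarith
        by_cases hz : 0 ≤ n.2 * e
        · have : pr n (((2 / (dotC (eA (π / 3)) Ms + ms.re) : ℝ) : ℂ), e)
              = n.1.re * (2 / (dotC (eA (π / 3)) Ms + ms.re)) + n.2 * e := by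
            simp only [pr, dotC, Complex.ofReal_re, Complex.ofReal_im]; ring
          rw [this]
          positivity
        · push Not at hz
          have h2 : 0 < -(n.2 * e) := by linarith
          have h3 := d6_scale hn (inv_pos.mpr h2)
          have h4 : (-(n.2 * e))⁻¹ • n = ((-(n.2 * e))⁻¹ • n.1, -e) := by
            apply Prod.ext
            · rfl
            · simp only [Prod.smul_snd, smul_eq_mul]
              rw [inv_mul_eq_div, div_eq_iff h2.ne']
              linear_combination (-n.2) * he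
          rw [h4] at h3
          have h5 := hmin' _ h3.2
          have h6 : ((-(n.2 * e))⁻¹ • n.1).re = (-(n.2 * e))⁻¹ * n.1.re := by simp
          rw [h6] at h5
          set s := 2 / (dotC (eA (π / 3)) Ms + ms.re) with hs
          have hs0 : 0 < s := by positivity
          have hs1 : 1 < s * ms.re := by
            rw [hs, div_mul_eq_mul_div, lt_div_iff₀ hsum]; linarith
          have hcc := mul_inv_cancel₀ h2.ne'
          have h7 : pr n ((s : ℂ), e)
              = (-(n.2 * e)) * (s * ((-(n.2 * e))⁻¹ * n.1.re) - 1) := by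
            simp only [pr, dotC, Complex.ofReal_re, Complex.ofReal_im]
            linear_combination (-s * n.1.re) * hcc
          rw [h7]
          apply mul_pos h2
          nlinarith
  · left
    refine ⟨1 / (dotC (eA (π / 3)) Ms + 1), by positivity, hsvA _ (by positivity) ?_, ?_⟩
    · rw [div_mul_eq_mul_div, div_lt_one (by positivity)]; linarith
    · intro n hn
      have hn0 := hno n hn
      have hcn := d6_cone hK ha hx hn
      have hre : 0 < n.1.re := by
        have := norm_pos_iff.mpr hn0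
        linarith
      by_cases hz : 0 ≤ n.2 * e
      · have : pr n (((1 / (dotC (eA (π / 3)) Ms + 1) : ℝ) : ℂ), e)
            = n.1.re * (1 / (dotC (eA (π / 3)) Ms + 1)) + n.2 * e := by
          simp only [pr, dotC, Complex.ofReal_re, Complex.ofReal_im]; ring
        rw [this]
        positivity
      · exfalso
        push Not at hz
        have h2 : 0 < -(n.2 * e) := by linarith
        have h3 := d6_scale hn (inv_pos.mpr h2)
        have h4 : (-(n.2 * e))⁻¹ • n = ((-(n.2 * e))⁻¹ • n.1, -e) := by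
          apply Prod.ext
          · rfl
          · simp only [Prod.smul_snd, smul_eq_mul]
            rw [inv_mul_eq_div, div_eq_iff h2.ne']
            linear_combination (-n.2) * he
        rw [h4] at h3
        exact hne ⟨_, h3.2⟩

theorem d6_novert {K : Set Q3} {h h' a X : ℝ} (hT : Top K h) (hB : Bot K h') (ha : 0 < a)
    (hx : ((a : ℂ), X) ∈ K) : ∀ n, Nm K ((a : ℂ), X) n → n.1 ≠ 0 := by
  intro n hn h1
  have hA := hn.2 _ hT.mem
  have hBm := hn.2 _ hB.mem
  have hn2 : n.2 ≠ 0 := fun h2 => hn.1 (Prod.ext h1 h2)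
  have a1 := hT.le _ hx
  have a2 := hB.le _ hx
  simp only [pr, dotC, h1, Complex.zero_re, Complex.zero_im] at hA hBm
  simp only at a1 a2
  rcases lt_or_gt_of_ne hn2 with h2 | h2
  · have h3 : X ≤ -h' := by
      by_contra hc
      push Not at hc
      nlinarith
    have h4 := hB.eq _ hx (le_antisymm h3 a2)
    simp only [Complex.ofReal_eq_zero] at h4
    linarith
  · have h3 : h ≤ X := by
      by_contra hc
      push Not at hc
      nlinarith
    have h4 := hT.eq _ hx (le_antisymm a1 h3)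
    simp only [Complex.ofReal_eq_zero] at h4
    linarith

/-- d6: there is a good `s`, or there are two normals (compactness). -/
theorem top_alt {K : Set Q3} {h h' a b X Y σ τ : ℝ} (H : P6 K h h' a b X Y σ τ) :
    (∃ s : ℝ, 0 < s ∧ Sv K ((0 : ℂ), h) ((s : ℂ), 1) ∧ Sv K ((a : ℂ), X) ((s : ℂ), 1)) ∨
    ∃ m M : ℂ, Nm K ((a : ℂ), X) (m, -1) ∧ Nm K ((0 : ℂ), h) (M, 1) ∧
      dotC 1 m ≤ dotC (eA (π / 3)) M := by
  have h1 := alt_gen H.rb (e := 1) (by norm_num) H.top.pos (by rw [one_mul]; exact H.top.mem)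
    (fun y hy => by rw [one_mul]; exact H.top.le y hy) H.a0 H.mx.1
    (d6_novert H.top H.bot H.a0 H.mx.1)
  rw [one_mul] at h1
  exact h1

theorem bot_alt {K : Set Q3} {h h' a b X Y σ τ : ℝ} (H : P6 K h h' a b X Y σ τ) :
    (∃ s : ℝ, 0 < s ∧ Sv K ((0 : ℂ), -h') ((s : ℂ), -1) ∧ Sv K ((a : ℂ), X) ((s : ℂ), -1)) ∨
    ∃ m M : ℂ, Nm K ((a : ℂ), X) (m, 1) ∧ Nm K ((0 : ℂ), -h') (M, -1) ∧
      dotC 1 m ≤ dotC (eA (π / 3)) M := by
  have h1 := alt_gen H.rb (e := -1) (by norm_num) H.bot.pos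
    (by rw [neg_one_mul]; exact H.bot.mem)
    (fun y hy => by have := H.bot.le y hy; linarith) H.a0 H.mx.1
    (d6_novert H.top H.bot H.a0 H.mx.1)
  rw [neg_one_mul, neg_neg] at h1
  exact h1

end Pool.Agent.Lib.MP_5e7226_co.RT
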