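import Pool.Agent.Lib.MP_5e7226_co.RT.AH

/-!
# MP_5e7226_co, RT: case II, two full points 60 apart: rows d2, d3, d4, d9 (helper82)
-/

set_option autoImplicit false

open Set Filter Topology
open scoped Real

namespace Pool.Agent.Lib.MP_5e7226_co.RT


/-! ## Plane trigonometry -/

lemma iid_comb_dot (m : ℂ) (s t u : ℝ) : Real.sin (u - s) * dotC m (eA t) =
    Real.sin (u - t) * dotC m (eA s) + Real.sin (t - s) * dotC m (eA u) := by
  simp only [dotC, eA_re, eA_im, Real.sin_sub]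
  ring

lemma iid_chord_le {c c₁ c₂ r₁ r₂ r A B D : ℝ} (h1 : 0 < r₁) (h2 : 0 < r₂) (hA : 0 ≤ A)
    (hB : 0 ≤ B) (hc : 0 < c) (hD : D * c = A * c₁ + B * c₂)
    (hq1 : r₁ * c₁ ≤ r * c) (hq2 : r₂ * c₂ ≤ r * c) :
    r₁ * r₂ * D ≤ r * (r₂ * A + r₁ * B) := by
  have h : (r₁ * r₂ * D) * c ≤ (r * (r₂ * A + r₁ * B)) * c := by
    have e : (r₁ * r₂ * D) * c = (r₂ * A) * (r₁ * c₁) + (r₁ * B) * (r₂ * c₂) := by
      linear_combination (r₁ * r₂) * hD
    rw [e]
    have i1 : (r₂ * A) * (r₁ * c₁) ≤ (r₂ * A) * (r * c) :=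
      mul_le_mul_of_nonneg_left hq1 (mul_nonneg h2.le hA)
    have i2 : (r₁ * B) * (r₂ * c₂) ≤ (r₁ * B) * (r * c) :=
      mul_le_mul_of_nonneg_left hq2 (mul_nonneg h1.le hB)
    nlinarith
  exact le_of_mul_le_mul_right h hc

lemma iid_chord_eq {c c₁ c₂ r₁ r₂ r A B D : ℝ} (h1 : 0 < r₁) (h2 : 0 < r₂) (hA : 0 < A)
    (hB : 0 < B) (hD : D * c = A * c₁ + B * c₂)
    (hq1 : r₁ * c₁ ≤ r * c) (hq2 : r₂ * c₂ ≤ r * c)
    (he : r * (r₂ * A + r₁ * B) ≤ r₁ * r₂ * D) (hc : 0 < c) :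
    r₁ * c₁ = r * c ∧ r₂ * c₂ = r * c := by
  have e : (r₁ * r₂ * D) * c = (r₂ * A) * (r₁ * c₁) + (r₁ * B) * (r₂ * c₂) := by
    linear_combination (r₁ * r₂) * hD
  have i0 : (r * (r₂ * A + r₁ * B)) * c ≤ (r₁ * r₂ * D) * c :=
    mul_le_mul_of_nonneg_right he hc.le
  have p1 : 0 < r₂ * A := mul_pos h2 hA
  have p2 : 0 < r₁ * B := mul_pos h1 hB
  have i1 : (r₂ * A) * (r₁ * c₁) ≤ (r₂ * A) * (r * c) := mul_le_mul_of_nonneg_left hq1 p1.le
  have i2 : (r₁ * B) * (r₂ * c₂) ≤ (r₁ * B) * (r * c) := mul_le_mul_of_nonneg_left hq2 p2.le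
  constructor
  · have : (r₂ * A) * (r * c) ≤ (r₂ * A) * (r₁ * c₁) := by nlinarith
    exact le_antisymm hq1 (le_of_mul_le_mul_left this p1)
  · have : (r₁ * B) * (r * c) ≤ (r₁ * B) * (r₂ * c₂) := by nlinarith
    exact le_antisymm hq2 (le_of_mul_le_mul_left this p2)

lemma iid_dotC_sym {m : ℂ} {s θ : ℝ} (h : dotC m (eA (s - θ)) = dotC m (eA (s + θ)))
    (hθ : Real.sin θ ≠ 0) : m = ((dotC m (eA s) : ℝ) : ℂ) * eA s := by
  have h1 : Real.sin θ * (m.im * Real.cos s - m.re * Real.sin s) = 0 := by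
    simp only [dotC, eA_re, eA_im, Real.cos_sub, Real.cos_add, Real.sin_sub, Real.sin_add] at h
    linear_combination (-1 / 2 : ℝ) * h
  have h2 : m.im * Real.cos s - m.re * Real.sin s = 0 := by
    rcases mul_eq_zero.1 h1 with h | h
    · exact absurd h hθ
    · exact h
  have h3 := Real.sin_sq_add_cos_sq s
  apply Complex.ext
  · simp only [dotC, Complex.mul_re, Complex.ofReal_re, Complex.ofReal_im, eA_re, eA_im]
    linear_combination (-m.re) * h3 - Real.sin s * h2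
  · simp only [dotC, Complex.mul_im, Complex.ofReal_re, Complex.ofReal_im, eA_re, eA_im]
    linear_combination (-m.im) * h3 + Real.cos s * h2

/-- d3, the numbers. -/
lemma iid_cut_num {a b ρ t z X Y φ ψ : ℝ} (ha : 0 < a) (hab : a ≤ b) (hρ : 0 < ρ)
    (h0 : -(π / 3) < t) (h1 : t ≤ 0) (hzX : z < X) (hYz : Y < z)
    (chord : ρ * b * Real.sin (π / 3 - t) ≤ a * (b * Real.sin (π / 3) + ρ * Real.sin (-t)))
    (hx : a * Real.cos φ + ψ * X ≤ ρ * Real.cos (φ - t) + ψ * z)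
    (hy : b * Real.cos (φ - π / 3) + ψ * Y ≤ ρ * Real.cos (φ - t) + ψ * z)
    (hφ : π / 6 ≤ φ) (hφ' : φ ≤ π / 3) :
    a = b ∧ φ = π / 6 ∧ ψ = 0 ∧ ρ * Real.cos (φ - t) = a * Real.cos φ ∧
      b * Real.cos (φ - π / 3) = a * Real.cos φ := by
  have hpi := Real.pi_pos
  have hb : 0 < b := ha.trans_le hab
  set W := ρ * Real.cos (φ - t) with hW
  set V := b * Real.cos (φ - π / 3) with hV
  set U := a * Real.cos φ with hU
  set S := Real.sin (π / 3 - t) with hS
  set s6 := Real.sin (π / 3) with hs6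
  set s := Real.sin (-t) with hs
  have hSpos : 0 < S := Real.sin_pos_of_pos_of_lt_pi (by linarith) (by linarith)
  have hs6pos : 0 < s6 := Real.sin_pos_of_pos_of_lt_pi (by linarith) (by linarith)
  have hspos : 0 ≤ s := Real.sin_nonneg_of_nonneg_of_le_pi (by linarith) (by linarith)
  have hid : S * Real.cos φ = s6 * Real.cos (φ - t) + s * Real.cos (φ - π / 3) := by
    have e := iid_comb_dot (eA φ) t 0 (π / 3)
    rw [dotC_eA, dotC_eA, dotC_eA, sub_zero, sub_zero, zero_sub] at e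
    exact e
  have hcos1 : Real.cos φ ≤ Real.cos (φ - π / 3) := by
    rw [← Real.cos_neg (φ - π / 3)]
    exact Real.cos_le_cos_of_nonneg_of_le_pi (by linarith) (by linarith) (by linarith)
  have hcos0 : 0 < Real.cos φ := Real.cos_pos_of_mem_Ioo ⟨by linarith, by linarith⟩
  have hUpos : 0 < U := mul_pos ha hcos0
  have hVpos : 0 < V := mul_pos hb (hcos0.trans_le hcos1)
  have hUV : U ≤ V := by
    calc U = a * Real.cos φ := rfl
      _ ≤ a * Real.cos (φ - π / 3) := mul_le_mul_of_nonneg_left hcos1 ha.le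
      _ ≤ b * Real.cos (φ - π / 3) := mul_le_mul_of_nonneg_right hab (hcos0.trans_le hcos1).le
  have hid2 : U * (ρ * b * S) = (a * b * s6) * W + (a * ρ * s) * V := by
    rw [hU, hW, hV]
    linear_combination (a * ρ * b) * hid
  have q1 : 0 < a * b * s6 := mul_pos (mul_pos ha hb) hs6pos
  have q2 : 0 ≤ a * ρ * s := mul_nonneg (mul_pos ha hρ).le hspos
  have q3 : 0 < ρ * b * S := mul_pos (mul_pos hρ hb) hSpos
  have chord' : ρ * b * S ≤ a * b * s6 + a * ρ * s := by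
    have e : a * (b * s6 + ρ * s) = a * b * s6 + a * ρ * s := by ring
    rw [← e]; exact chord
  have hA : V ≤ W := by
    by_contra hc
    push Not at hc
    have hψ : 0 < ψ := by
      by_contra h
      push Not at h
      nlinarith [mul_nonneg (neg_nonneg.2 h) (sub_pos.2 hYz).le]
    have hWU : U < W := by
      have : 0 < ψ * (X - z) := mul_pos hψ (by linarith)
      nlinarith
    have hWpos : 0 < W := hUpos.trans hWU
    have i1 : (ρ * b * S) * W ≤ (a * b * s6 + a * ρ * s) * W :=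
      mul_le_mul_of_nonneg_right chord' hWpos.le
    have i2 : (a * ρ * s) * W ≤ (a * ρ * s) * V := mul_le_mul_of_nonneg_left hc.le q2
    have i3 : (ρ * b * S) * W ≤ (ρ * b * S) * U := by nlinarith
    exact absurd (le_of_mul_le_mul_left i3 q3) (not_le.2 hWU)
  have i1 : (ρ * b * S) * V ≤ (a * b * s6 + a * ρ * s) * V :=
    mul_le_mul_of_nonneg_right chord' hVpos.le
  have i2 : (a * b * s6) * V ≤ (a * b * s6) * W := mul_le_mul_of_nonneg_left hA q1.le
  have hVU : V ≤ U := by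
    have i3 : (ρ * b * S) * V ≤ (ρ * b * S) * U := by nlinarith
    exact le_of_mul_le_mul_left i3 q3
  have hE : U = V := le_antisymm hUV hVU
  have hWV : W = V := by
    have i3 : (a * b * s6) * W ≤ (a * b * s6) * V := by
      have : U * (ρ * b * S) ≤ (a * b * s6 + a * ρ * s) * V := by rw [hE]; nlinarith
      nlinarith
    exact le_antisymm (le_of_mul_le_mul_left i3 q1) hA
  have hc' : 0 < Real.cos (φ - π / 3) := hcos0.trans_le hcos1
  have hab' : a = b := by
    have i3 : b * Real.cos (φ - π / 3) ≤ a * Real.cos (φ - π / 3) := by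
      calc b * Real.cos (φ - π / 3) = V := rfl
        _ = U := hE.symm
        _ = a * Real.cos φ := rfl
        _ ≤ a * Real.cos (φ - π / 3) := mul_le_mul_of_nonneg_left hcos1 ha.le
    exact le_antisymm hab (le_of_mul_le_mul_right i3 hc')
  have hφe : φ = π / 6 := by
    have e1 : a * Real.cos φ = a * Real.cos (φ - π / 3) := by
      have : U = b * Real.cos (φ - π / 3) := hE
      rw [← hab'] at this
      exact this
    have e2 : Real.cos φ = Real.cos (π / 3 - φ) := by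
      rw [← Real.cos_neg (π / 3 - φ), neg_sub]
      exact mul_left_cancel₀ ha.ne' e1
    have e3 := Real.injOn_cos ⟨by linarith, by linarith⟩ ⟨by linarith, by linarith⟩ e2
    linarith
  refine ⟨hab', hφe, ?_, by rw [hWV, hE], hE.symm⟩
  have e1 : ψ * (X - z) ≤ 0 := by nlinarith
  have e2 : 0 ≤ ψ * (z - Y) := by nlinarith
  have e3 : 0 ≤ ψ := by
    by_contra h
    push Not at h
    nlinarith [mul_pos (neg_pos.2 h) (sub_pos.2 hYz)]
  have e4 : ψ ≤ 0 := by
    by_contra h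
    push Not at h
    nlinarith [mul_pos h (sub_pos.2 hzX)]
  exact le_antisymm e4 e3


lemma iid_prd (m : ℂ) (κ r s Z : ℝ) : pr (m, κ) ((r : ℂ) * eA s, Z) = r * dotC m (eA s) + κ * Z := by
  simp only [pr]
  rw [dotC_ofReal_right]

lemma iid_sector_geo {K : Set Q3} (hK : RB 3 K)
    (hnt : ∀ x ∈ K, ∀ ρ t : ℝ, 0 < ρ → x.1 = (ρ : ℂ) * eA t → ¬ Nm K x (eA (t + π / 3), 0))
    {r s Z : ℝ} (hr : 0 < r)
    (hp : ((r : ℂ) * eA s, Z) ∈ K) (hp2 : ((r : ℂ) * eA (s + 2 * π / 3), Z) ∈ K)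
    {ρ t z : ℝ} (hρ : 0 < ρ) (hw : Mx K ((ρ : ℂ) * eA t, z)) (hst : s ≤ t)
    (hts : t ≤ s + 2 * π / 3) :
    r / 2 ≤ ρ * Real.cos (s + π / 3 - t) ∧
      (ρ * Real.cos (s + π / 3 - t) = r / 2 → (t = s ∨ t = s + 2 * π / 3) ∧ ρ = r) := by
  have hpi := Real.pi_pos
  obtain ⟨hwK, m, hm⟩ := hw
  have hpos := nm_pos hK hm
  have hq1 := hm.2 _ hp
  have hq2 := hm.2 _ hp2
  rw [iid_prd] at hpos
  rw [iid_prd, iid_prd, zero_mul, zero_mul, add_zero, add_zero] at hq1 hq2
  rw [zero_mul, add_zero] at hpos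
  have hD := iid_comb_dot m s t (s + 2 * π / 3)
  have e1 : s + 2 * π / 3 - s = 2 * π / 3 := by ring
  rw [e1] at hD
  have hs3 : Real.sin (2 * π / 3) = Real.sin (π / 3) := by
    rw [← Real.sin_pi_sub]; congr 1; ring
  have hs6 : 0 < Real.sin (π / 3) := Real.sin_pos_of_pos_of_lt_pi (by linarith) (by linarith)
  have hA0 : 0 ≤ Real.sin (s + 2 * π / 3 - t) :=
    Real.sin_nonneg_of_nonneg_of_le_pi (by linarith) (by linarith)
  have hB0 : 0 ≤ Real.sin (t - s) :=
    Real.sin_nonneg_of_nonneg_of_le_pi (by linarith) (by linarith)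
  have hAB : Real.sin (s + 2 * π / 3 - t) + Real.sin (t - s) =
      2 * Real.sin (π / 3) * Real.cos (s + π / 3 - t) := by
    have e2 : s + 2 * π / 3 - t = π / 3 + (s + π / 3 - t) := by ring
    have e3 : t - s = π / 3 - (s + π / 3 - t) := by ring
    rw [e2, e3, Real.sin_add (π / 3) (s + π / 3 - t), Real.sin_sub (π / 3) (s + π / 3 - t)]
    ring
  have hhalf : Real.cos (s + π / 3 - s) = 1 / 2 := by
    rw [add_sub_cancel_left, Real.cos_pi_div_three]
  have hc : 0 < dotC m (eA t) := by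
    by_contra h
    push Not at h
    nlinarith [mul_nonneg hρ.le (neg_nonneg.2 h)]
  have hch := iid_chord_le hr hr hA0 hB0 hc hD hq1 hq2
  rw [← mul_add, hAB, hs3] at hch
  have hge : r / 2 ≤ ρ * Real.cos (s + π / 3 - t) := by
    have h1 : (2 * r * Real.sin (π / 3)) * (r / 2) ≤
        (2 * r * Real.sin (π / 3)) * (ρ * Real.cos (s + π / 3 - t)) := by
      linarith
    exact le_of_mul_le_mul_left h1 (by positivity)
  refine ⟨hge, fun heq => ?_⟩
  have hend : t = s ∨ t = s + 2 * π / 3 := by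
    by_contra hcon
    push Not at hcon
    have h1 : s < t := lt_of_le_of_ne hst (Ne.symm hcon.1)
    have h2 : t < s + 2 * π / 3 := lt_of_le_of_ne hts hcon.2
    have hA : 0 < Real.sin (s + 2 * π / 3 - t) :=
      Real.sin_pos_of_pos_of_lt_pi (by linarith) (by linarith)
    have hB : 0 < Real.sin (t - s) :=
      Real.sin_pos_of_pos_of_lt_pi (by linarith) (by linarith)
    have hle : ρ * (r * Real.sin (s + 2 * π / 3 - t) + r * Real.sin (t - s)) ≤
        r * r * Real.sin (2 * π / 3) := by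
      rw [← mul_add, hAB, hs3]
      have : ρ * (r * (2 * Real.sin (π / 3) * Real.cos (s + π / 3 - t))) =
        (2 * r * Real.sin (π / 3)) * (ρ * Real.cos (s + π / 3 - t)) := by ring
      rw [this, heq]
      apply le_of_eq
      ring
    obtain ⟨g1, g2⟩ := iid_chord_eq hr hr hA hB hD hq1 hq2 hle hc
    have g3 : dotC m (eA (s + π / 3 - π / 3)) = dotC m (eA (s + π / 3 + π / 3)) := by
      have e2 : s + π / 3 - π / 3 = s := by ring
      have e3 : s + π / 3 + π / 3 = s + 2 * π / 3 := by ring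
      rw [e2, e3]
      exact mul_left_cancel₀ hr.ne' (g1.trans g2.symm)
    have g4 := iid_dotC_sym g3 hs6.ne'
    set c := dotC m (eA (s + π / 3)) with hcdef
    have g5 : dotC m (eA s) = c * (1 / 2) := by
      rw [g4, dotC_ofReal_left, dotC_eA, hhalf]
    have hcpos : 0 < c := by
      have : 0 < r * dotC m (eA s) := by rw [g1]; exact hpos
      rw [g5] at this
      by_contra h
      push Not at h
      nlinarith [mul_nonneg hr.le (neg_nonneg.2 h)]
    refine hnt ((r : ℂ) * eA s, Z) hp r s hr rfl ⟨?_, fun q hq => ?_⟩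
    · intro h
      exact eA_ne_zero _ (congrArg Prod.fst h)
    · have h3 := hm.2 q hq
      rw [iid_prd, zero_mul, add_zero, ← g1, g5] at h3
      rw [iid_prd, zero_mul, add_zero, dotC_eA, hhalf]
      simp only [pr, zero_mul, add_zero] at h3 ⊢
      rw [g4, dotC_ofReal_left] at h3
      have h4 : c * dotC (eA (s + π / 3)) q.1 ≤ c * (r * (1 / 2)) := by linarith
      exact le_of_mul_le_mul_left h4 hcpos
  refine ⟨hend, ?_⟩
  rcases hend with h | h
  · rw [h, hhalf] at heq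
    linarith
  · rw [h] at heq
    have e2 : s + π / 3 - (s + 2 * π / 3) = -(π / 3) := by ring
    rw [e2, Real.cos_neg, Real.cos_pi_div_three] at heq
    linarith

lemma iid_sector {K : Set Q3} (hK : RB 3 K)
    (hnt : ∀ x ∈ K, ∀ ρ t : ℝ, 0 < ρ → x.1 = (ρ : ℂ) * eA t → ¬ Nm K x (eA (t + π / 3), 0))
    {r s Z κ : ℝ} (hr : 0 < r) (hn : Nm K ((r : ℂ) * eA s, Z) (eA (s + π / 3), κ))
    (hp : ((r : ℂ) * eA s, Z) ∈ K) (hp2 : ((r : ℂ) * eA (s + 2 * π / 3), Z) ∈ K)
    {ρ t z : ℝ} (hρ : 0 < ρ) (hw : Mx K ((ρ : ℂ) * eA t, z)) (hst : s ≤ t)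
    (hts : t ≤ s + 2 * π / 3) :
    0 ≤ κ * (Z - z) ∧ (κ * (Z - z) = 0 → (t = s ∨ t = s + 2 * π / 3) ∧ ρ = r) := by
  obtain ⟨hge, heq⟩ := iid_sector_geo hK hnt hr hp hp2 hρ hw hst hts
  have hn2 := hn.2 _ hw.1
  rw [iid_prd, iid_prd, dotC_eA, dotC_eA, add_sub_cancel_left, Real.cos_pi_div_three] at hn2
  exact ⟨by linarith, fun h0 => heq (by linarith)⟩

/-- rotates, in angles. -/
lemma iid_rot_ang {K : Set Q3} (hK : RB 3 K) {r s Z : ℝ} (h : ((r : ℂ) * eA s, Z) ∈ K) (j : ℤ) :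
    ((r : ℂ) * eA (s + 2 * π / 3 * j), Z) ∈ K := by
  have := mem_rotz hK h j
  rwa [Rz_pt] at this

lemma iid_nm_ang {K : Set Q3} (hK : RB 3 K) {r s Z θ κ : ℝ} (h : Nm K ((r : ℂ) * eA s, Z) (eA θ, κ))
    (j : ℤ) : Nm K ((r : ℂ) * eA (s + 2 * π / 3 * j), Z) (eA (θ + 2 * π / 3 * j), κ) := by
  have h1 := rot_Nm hK h j
  have e1 : eA (2 * π / 3 * j) * ((r : ℂ) * eA s) = (r : ℂ) * eA (s + 2 * π / 3 * j) := by
    rw [eA_add]; ring
  have e2 : eA (2 * π / 3 * j) * eA θ = eA (θ + 2 * π / 3 * j) := by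
    rw [eA_add]; ring
  rw [← e1, ← e2]
  exact h1

lemma iid_nml_ang {K : Set Q3} (hK : RB 3 K) {r s Z θ κ l : ℝ}
    (h : Nm K ((r : ℂ) * eA s, Z) ((l : ℂ) * eA θ, κ))
    (j : ℤ) : Nm K ((r : ℂ) * eA (s + 2 * π / 3 * j), Z) ((l : ℂ) * eA (θ + 2 * π / 3 * j), κ) := by
  have h1 := rot_Nm hK h j
  have e1 : eA (2 * π / 3 * j) * ((r : ℂ) * eA s) = (r : ℂ) * eA (s + 2 * π / 3 * j) := by
    rw [eA_add]; ring
  have e2 : eA (2 * π / 3 * j) * ((l : ℂ) * eA θ) = (l : ℂ) * eA (θ + 2 * π / 3 * j) := by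
    rw [eA_add]; ring
  rw [← e1, ← e2]
  exact h1

lemma iid_mx_ang {K : Set Q3} (hK : RB 3 K) {r s Z : ℝ} (h : Mx K ((r : ℂ) * eA s, Z)) (j : ℤ) :
    Mx K ((r : ℂ) * eA (s + 2 * π / 3 * j), Z) := by
  obtain ⟨h1, m, hm⟩ := h
  refine ⟨iid_rot_ang hK h1 j, eA (2 * π / 3 * j) * m, ?_⟩
  have h2 := rot_Nm hK hm j
  have e1 : eA (2 * π / 3 * j) * ((r : ℂ) * eA s) = (r : ℂ) * eA (s + 2 * π / 3 * j) := by
    rw [eA_add]; ring
  rw [← e1]
  exact h2

/-- the other full normal, reversed. -/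
lemma iid_full_symm' {K : Set Q3} (hK : RB 3 K) {ρ t z σ : ℝ}
    (hn : Nm K ((ρ : ℂ) * eA t, z) (eA (t - π / 3), σ)) :
    Nm K ((ρ : ℂ) * eA t, z) (eA (t + π / 3), σ) := by
  have h1 : Nm K ((ρ : ℂ) * eA (t - 2 * π / 3), z) (eA (t - π / 3), σ) := by
    refine nm_of_eq hn ?_
    rw [iid_prd, iid_prd, dotC_eA, dotC_eA]
    have e1 : t - π / 3 - t = -(π / 3) := by ring
    have e2 : t - π / 3 - (t - 2 * π / 3) = π / 3 := by ring
    rw [e1, e2, Real.cos_neg]
  have h2 := iid_nm_ang hK h1 1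
  have e1 : t - 2 * π / 3 + 2 * π / 3 * ((1 : ℤ) : ℝ) = t := by push_cast; ring
  have e2 : t - π / 3 + 2 * π / 3 * ((1 : ℤ) : ℝ) = t + π / 3 := by push_cast; ring
  rw [e1, e2] at h2
  exact h2

section P6

variable {K : Set Q3} {h h' a b X Y σ τ : ℝ}

lemma P6.iid_x0 (H : P6 K h h' a b X Y σ τ) : Mx K ((a : ℂ) * eA 0, X) := by
  have := H.mx
  rwa [eA_zero, mul_one]

lemma P6.iid_nx0 (H : P6 K h h' a b X Y σ τ) : Nm K ((a : ℂ) * eA 0, X) (eA (0 + π / 3), σ) := by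
  have := H.nx
  rwa [eA_zero, mul_one, zero_add]

lemma P6.iid_ny0 (H : P6 K h h' a b X Y σ τ) :
    Nm K ((b : ℂ) * eA (π / 3), Y) (eA (π / 3 - π / 3), -τ) := by
  have := H.ny
  rwa [sub_self, eA_zero]

lemma P6.iid_b0 (H : P6 K h h' a b X Y σ τ) : 0 < b := H.a0.trans_le H.ab

lemma iid_p6_low (H : P6 K h h' a b X Y σ τ) : Y < X := by
  have h1 := H.iid_nx0.2 _ H.my.1
  rw [iid_prd, iid_prd, dotC_eA, dotC_eA] at h1
  have e1 : 0 + π / 3 - π / 3 = 0 := by ring
  have e2 : 0 + π / 3 - 0 = π / 3 := by ring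
  rw [e1, e2, Real.cos_zero, Real.cos_pi_div_three] at h1
  have ha := H.a0
  have hab := H.ab
  by_contra hc
  push Not at hc
  nlinarith [mul_nonneg H.s0.le (sub_nonneg.2 hc)]

theorem p6_lt (H : P6 K h h' a b X Y σ τ) : Y < X ∧ b < 2 * a := by
  have hpi := Real.pi_pos
  refine ⟨iid_p6_low H, ?_⟩
  have hm1 := iid_rot_ang H.rb H.my.1 (-1)
  have e1 : π / 3 + 2 * π / 3 * ((-1 : ℤ) : ℝ) = -(π / 3) := by push_cast; ring
  rw [e1] at hm1
  have hm2 : ((b : ℂ) * eA (-(π / 3) + 2 * π / 3), Y) ∈ K := by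
    have e3 : -(π / 3) + 2 * π / 3 = π / 3 := by ring
    rw [e3]; exact H.my.1
  obtain ⟨h1, h2⟩ := iid_sector_geo H.rb H.nt H.iid_b0 hm1 hm2 H.a0 H.iid_x0 (by linarith) (by linarith)
  have e4 : -(π / 3) + π / 3 - 0 = 0 := by ring
  rw [e4, Real.cos_zero, mul_one] at h1 h2
  rcases lt_or_eq_of_le h1 with h3 | h3
  · linarith
  · rcases (h2 h3.symm).1 with h4 | h4 <;> linarith

theorem p6_top (H : P6 K h h' a b X Y σ τ) {ρ t z : ℝ} (hρ : 0 < ρ) (h0 : -(π / 3) ≤ t)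
    (h1 : t ≤ π / 3) (hw : Mx K ((ρ : ℂ) * eA t, z)) :
    z ≤ X ∧ (z = X → t = 0 ∧ ρ = a) := by
  have hpi := Real.pi_pos
  rcases le_total 0 t with ht | ht
  · have hm2 := iid_rot_ang H.rb H.iid_x0.1 1
    have e1 : 0 + 2 * π / 3 * ((1 : ℤ) : ℝ) = 0 + 2 * π / 3 := by push_cast; ring
    rw [e1] at hm2
    obtain ⟨g1, g2⟩ := iid_sector H.rb H.nt H.a0 H.iid_nx0 H.iid_x0.1 hm2 hρ hw ht (by linarith)
    refine ⟨?_, fun he => ?_⟩
    · by_contra hc
      push Not at hc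
      nlinarith [mul_pos H.s0 (sub_pos.2 hc)]
    · obtain ⟨g3, g4⟩ := g2 (by rw [he]; ring)
      rcases g3 with g5 | g5
      · exact ⟨g5, g4⟩
      · exfalso; linarith
  · have hm1 := iid_rot_ang H.rb H.iid_x0.1 (-1)
    have hn1 := iid_nm_ang H.rb H.iid_nx0 (-1)
    have e1 : 0 + 2 * π / 3 * ((-1 : ℤ) : ℝ) = -(2 * π / 3) := by push_cast; ring
    have e2 : 0 + π / 3 + 2 * π / 3 * ((-1 : ℤ) : ℝ) = -(2 * π / 3) + π / 3 := by
      push_cast; ring
    rw [e1] at hm1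
    rw [e1, e2] at hn1
    have hm2 : ((a : ℂ) * eA (-(2 * π / 3) + 2 * π / 3), X) ∈ K := by
      rw [neg_add_cancel]; exact H.iid_x0.1
    obtain ⟨g1, g2⟩ := iid_sector H.rb H.nt H.a0 hn1 hm1 hm2 hρ hw (by linarith) (by linarith)
    refine ⟨?_, fun he => ?_⟩
    · by_contra hc
      push Not at hc
      nlinarith [mul_pos H.s0 (sub_pos.2 hc)]
    · obtain ⟨g3, g4⟩ := g2 (by rw [he]; ring)
      rcases g3 with g5 | g5
      · exfalso; linarith
      · exact ⟨by linarith, g4⟩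

theorem p6_bot (H : P6 K h h' a b X Y σ τ) {ρ t z : ℝ} (hρ : 0 < ρ) (h0 : 0 ≤ t)
    (h1 : t ≤ 2 * π / 3) (hw : Mx K ((ρ : ℂ) * eA t, z)) :
    Y ≤ z ∧ (z = Y → t = π / 3 ∧ ρ = b) := by
  have hpi := Real.pi_pos
  have hyp := iid_full_symm' H.rb H.iid_ny0
  rcases le_total t (π / 3) with ht | ht
  · have hm1 := iid_rot_ang H.rb H.my.1 (-1)
    have hn1 := iid_nm_ang H.rb hyp (-1)
    have e1 : π / 3 + 2 * π / 3 * ((-1 : ℤ) : ℝ) = -(π / 3) := by push_cast; ring
    have e2 : π / 3 + π / 3 + 2 * π / 3 * ((-1 : ℤ) : ℝ) = -(π / 3) + π / 3 := by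
      push_cast; ring
    rw [e1] at hm1
    rw [e1, e2] at hn1
    have hm2 : ((b : ℂ) * eA (-(π / 3) + 2 * π / 3), Y) ∈ K := by
      have e3 : -(π / 3) + 2 * π / 3 = π / 3 := by ring
      rw [e3]; exact H.my.1
    obtain ⟨g1, g2⟩ := iid_sector H.rb H.nt H.iid_b0 hn1 hm1 hm2 hρ hw (by linarith) (by linarith)
    refine ⟨?_, fun he => ?_⟩
    · by_contra hc
      push Not at hc
      nlinarith [mul_pos H.t0 (sub_pos.2 hc)]
    · obtain ⟨g3, g4⟩ := g2 (by rw [he]; ring)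
      rcases g3 with g5 | g5
      · exfalso; linarith
      · exact ⟨by linarith, g4⟩
  · have hm2 := iid_rot_ang H.rb H.my.1 1
    have e1 : π / 3 + 2 * π / 3 * ((1 : ℤ) : ℝ) = π / 3 + 2 * π / 3 := by push_cast; ring
    rw [e1] at hm2
    obtain ⟨g1, g2⟩ := iid_sector H.rb H.nt H.iid_b0 hyp H.my.1 hm2 hρ hw ht (by linarith)
    refine ⟨?_, fun he => ?_⟩
    · by_contra hc
      push Not at hc
      nlinarith [mul_pos H.t0 (sub_pos.2 hc)]
    · obtain ⟨g3, g4⟩ := g2 (by rw [he]; ring)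
      rcases g3 with g5 | g5
      · exact ⟨g5, g4⟩
      · exfalso; linarith

/-- strict heights: `t` in `(-60, 60)`, not `x`. -/
lemma iid_p6_heights (H : P6 K h h' a b X Y σ τ) {ρ t z : ℝ} (hρ : 0 < ρ) (h0 : -(π / 3) < t)
    (h1 : t < π / 3) (hw : Mx K ((ρ : ℂ) * eA t, z)) (hne : ¬ (t = 0 ∧ ρ = a ∧ z = X)) :
    z < X ∧ Y < z := by
  have hpi := Real.pi_pos
  constructor
  · obtain ⟨g1, g2⟩ := p6_top H hρ h0.le h1.le hw
    refine lt_of_le_of_ne g1 fun he => hne ?_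
    exact ⟨(g2 he).1, (g2 he).2, he⟩
  · rcases le_total 0 t with ht | ht
    · obtain ⟨g1, g2⟩ := p6_bot H hρ ht (by linarith) hw
      refine lt_of_le_of_ne g1 fun he => ?_
      have := (g2 he.symm).1
      linarith
    · have hw' := iid_mx_ang H.rb hw 1
      have e1 : t + 2 * π / 3 * ((1 : ℤ) : ℝ) = t + 2 * π / 3 := by push_cast; ring
      rw [e1] at hw'
      obtain ⟨g1, g2⟩ := p6_bot H hρ (by linarith) (by linarith) hw'
      refine lt_of_le_of_ne g1 fun he => ?_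
      have := (g2 he.symm).1
      linarith

end P6


lemma iid_dot_one_eq (a : ℝ) (θ : ℝ) : dotC (eA θ) (a : ℂ) = a * Real.cos θ := by
  simp [dotC]; ring

lemma iid_nm_of_cut {K : Set Q3} {a ρ t z X θ l : ℝ} (hl : 0 < l)
    (hn : Nm K ((ρ : ℂ) * eA t, z) ((l : ℂ) * eA θ, 0))
    (he : ρ * Real.cos (θ - t) = a * Real.cos θ) : Nm K ((a : ℂ), X) (eA θ, 0) := by
  refine ⟨fun h => eA_ne_zero _ (congrArg Prod.fst h), fun q hq => ?_⟩
  have h1 := hn.2 q hq
  rw [iid_prd, dotC_ofReal_left, dotC_eA, zero_mul, add_zero] at h1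
  simp only [pr, zero_mul, add_zero] at h1 ⊢
  rw [dotC_ofReal_left] at h1
  rw [iid_dot_one_eq, ← he]
  have h2 : l * dotC (eA θ) q.1 ≤ l * (ρ * Real.cos (θ - t)) := by linarith
  exact le_of_mul_le_mul_left h2 hl

section P6

variable {K : Set Q3} {h h' a b X Y σ τ : ℝ}

/-- the chord from `w` to `y`. -/
lemma iid_p6_chord (H : P6 K h h' a b X Y σ τ) {ρ t z : ℝ} (hρ : 0 < ρ) (h0 : -(π / 3) < t)
    (h1 : t ≤ 0) (hw : ((ρ : ℂ) * eA t, z) ∈ K) :
    ρ * b * Real.sin (π / 3 - t) ≤ a * (b * Real.sin (π / 3) + ρ * Real.sin (-t)) := by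
  have hpi := Real.pi_pos
  obtain ⟨-, m, hm⟩ := H.iid_x0
  have hpos := nm_pos H.rb hm
  have hq1 := hm.2 _ hw
  have hq2 := hm.2 _ H.my.1
  rw [iid_prd, zero_mul, add_zero] at hpos
  rw [iid_prd, iid_prd, zero_mul, zero_mul, add_zero, add_zero] at hq1 hq2
  have hD := iid_comb_dot m t 0 (π / 3)
  rw [sub_zero, zero_sub] at hD
  have hc : 0 < dotC m (eA 0) := by
    by_contra h
    push Not at h
    nlinarith [mul_nonneg H.a0.le (neg_nonneg.2 h)]
  exact iid_chord_le hρ H.iid_b0 (Real.sin_nonneg_of_nonneg_of_le_pi (by linarith) (by linarith))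
    (Real.sin_nonneg_of_nonneg_of_le_pi (by linarith) (by linarith)) hc hD hq1 hq2

lemma P6.iid_my' (H : P6 K h h' a b X Y σ τ) : ((b : ℂ) * eA (-(π / 3)), Y) ∈ K := by
  have hm1 := iid_rot_ang H.rb H.my.1 (-1)
  have e1 : π / 3 + 2 * π / 3 * ((-1 : ℤ) : ℝ) = -(π / 3) := by push_cast; ring
  rwa [e1] at hm1

lemma iid_p6_chord' (H : P6 K h h' a b X Y σ τ) {ρ t z : ℝ} (hρ : 0 < ρ) (h0 : 0 ≤ t)
    (h1 : t < π / 3) (hw : ((ρ : ℂ) * eA t, z) ∈ K) :
    ρ * b * Real.sin (π / 3 - (-t)) ≤ a * (b * Real.sin (π / 3) + ρ * Real.sin (-(-t))) := by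
  have hpi := Real.pi_pos
  obtain ⟨-, m, hm⟩ := H.iid_x0
  have hpos := nm_pos H.rb hm
  have hq1 := hm.2 _ hw
  have hq2 := hm.2 _ H.iid_my'
  rw [iid_prd, zero_mul, add_zero] at hpos
  rw [iid_prd, iid_prd, zero_mul, zero_mul, add_zero, add_zero] at hq1 hq2
  have hD := iid_comb_dot m (-(π / 3)) 0 t
  have e1 : t - -(π / 3) = π / 3 - -t := by ring
  have e2 : 0 - -(π / 3) = π / 3 := by ring
  rw [sub_zero, e1, e2] at hD
  have hc : 0 < dotC m (eA 0) := by
    by_contra h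
    push Not at h
    nlinarith [mul_nonneg H.a0.le (neg_nonneg.2 h)]
  have := iid_chord_le H.iid_b0 hρ (Real.sin_nonneg_of_nonneg_of_le_pi (by linarith) (by linarith))
    (Real.sin_nonneg_of_nonneg_of_le_pi (by linarith) (by linarith)) hc hD hq2 hq1
  rw [neg_neg]
  linarith

theorem p6_cut (H : P6 K h h' a b X Y σ τ) {ρ t z φ ψ l : ℝ} (hρ : 0 < ρ) (h0 : -(π / 3) < t)
    (h1 : t ≤ 0) (hw : Mx K ((ρ : ℂ) * eA t, z)) (hne : ¬ (t = 0 ∧ ρ = a ∧ z = X)) (hl : 0 < l)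
    (hn : Nm K ((ρ : ℂ) * eA t, z) ((l : ℂ) * eA φ, ψ)) (hφ : π / 6 ≤ φ) (hφ' : φ ≤ t + π / 3) :
    a = b ∧ φ = π / 6 ∧ Nm K ((a : ℂ), X) (eA (π / 6), 0) ∧
      dotC (eA (π / 6)) ((ρ : ℂ) * eA t) = dotC (eA (π / 6)) (a : ℂ) := by
  have hpi := Real.pi_pos
  obtain ⟨hzX, hYz⟩ := iid_p6_heights H hρ h0 (by linarith) hw hne
  have hx := hn.2 _ H.iid_x0.1
  have hy := hn.2 _ H.my.1
  rw [iid_prd, iid_prd, dotC_ofReal_left, dotC_ofReal_left, dotC_eA, dotC_eA] at hx hy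
  rw [sub_zero] at hx
  have hx' : a * Real.cos φ + (ψ / l) * X ≤ ρ * Real.cos (φ - t) + (ψ / l) * z := by
    have e : l * (a * Real.cos φ + (ψ / l) * X) ≤ l * (ρ * Real.cos (φ - t) + (ψ / l) * z) := by
      have e1 : l * (a * Real.cos φ + (ψ / l) * X) = a * (l * Real.cos φ) + ψ * X := by
        field_simp
      have e2 : l * (ρ * Real.cos (φ - t) + (ψ / l) * z) = ρ * (l * Real.cos (φ - t)) + ψ * z := by
        field_simp
      rw [e1, e2]; exact hx
    exact le_of_mul_le_mul_left e hl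
  have hy' : b * Real.cos (φ - π / 3) + (ψ / l) * Y ≤ ρ * Real.cos (φ - t) + (ψ / l) * z := by
    have e : l * (b * Real.cos (φ - π / 3) + (ψ / l) * Y) ≤
        l * (ρ * Real.cos (φ - t) + (ψ / l) * z) := by
      have e1 : l * (b * Real.cos (φ - π / 3) + (ψ / l) * Y) =
          b * (l * Real.cos (φ - π / 3)) + ψ * Y := by
        field_simp
      have e2 : l * (ρ * Real.cos (φ - t) + (ψ / l) * z) = ρ * (l * Real.cos (φ - t)) + ψ * z := by
        field_simp
      rw [e1, e2]; exact hy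
    exact le_of_mul_le_mul_left e hl
  obtain ⟨r1, r2, r3, r4, -⟩ := iid_cut_num H.a0 H.ab hρ h0 h1 hzX hYz (iid_p6_chord H hρ h0 h1 hw.1)
    hx' hy' hφ (by linarith)
  have hψ : ψ = 0 := by
    have := (div_eq_zero_iff).1 r3
    rcases this with h | h
    · exact h
    · exact absurd h hl.ne'
  rw [hψ, r2] at hn
  rw [r2] at r4
  refine ⟨r1, r2, iid_nm_of_cut hl hn r4, ?_⟩
  rw [iid_dot_one_eq, dotC_ofReal_right, dotC_eA]
  exact r4

theorem p6_cut' (H : P6 K h h' a b X Y σ τ) {ρ t z φ ψ l : ℝ} (hρ : 0 < ρ) (h0 : 0 ≤ t)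
    (h1 : t < π / 3) (hw : Mx K ((ρ : ℂ) * eA t, z)) (hne : ¬ (t = 0 ∧ ρ = a ∧ z = X)) (hl : 0 < l)
    (hn : Nm K ((ρ : ℂ) * eA t, z) ((l : ℂ) * eA φ, ψ)) (hφ : φ ≤ -(π / 6))
    (hφ' : t - π / 3 ≤ φ) :
    a = b ∧ φ = -(π / 6) ∧ Nm K ((a : ℂ), X) (eA (-(π / 6)), 0) ∧
      dotC (eA (-(π / 6))) ((ρ : ℂ) * eA t) = dotC (eA (-(π / 6))) (a : ℂ) := by
  have hpi := Real.pi_pos
  obtain ⟨hzX, hYz⟩ := iid_p6_heights H hρ (by linarith) h1 hw hne
  have hx := hn.2 _ H.iid_x0.1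
  have hy := hn.2 _ H.iid_my'
  rw [iid_prd, iid_prd, dotC_ofReal_left, dotC_ofReal_left, dotC_eA, dotC_eA] at hx hy
  rw [sub_zero] at hx
  have c1 : Real.cos (-φ) = Real.cos φ := Real.cos_neg φ
  have c2 : Real.cos (-φ - -t) = Real.cos (φ - t) := by
    rw [← Real.cos_neg (φ - t)]; congr 1; ring
  have c3 : Real.cos (-φ - π / 3) = Real.cos (φ - -(π / 3)) := by
    rw [← Real.cos_neg (φ - -(π / 3))]; congr 1; ring
  have hx' : a * Real.cos (-φ) + (ψ / l) * X ≤ ρ * Real.cos (-φ - -t) + (ψ / l) * z := by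
    rw [c1, c2]
    have e : l * (a * Real.cos φ + (ψ / l) * X) ≤ l * (ρ * Real.cos (φ - t) + (ψ / l) * z) := by
      have e1 : l * (a * Real.cos φ + (ψ / l) * X) = a * (l * Real.cos φ) + ψ * X := by
        field_simp
      have e2 : l * (ρ * Real.cos (φ - t) + (ψ / l) * z) = ρ * (l * Real.cos (φ - t)) + ψ * z := by
        field_simp
      rw [e1, e2]; exact hx
    exact le_of_mul_le_mul_left e hl
  have hy' : b * Real.cos (-φ - π / 3) + (ψ / l) * Y ≤ ρ * Real.cos (-φ - -t) + (ψ / l) * z := by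
    rw [c3, c2]
    have e : l * (b * Real.cos (φ - -(π / 3)) + (ψ / l) * Y) ≤
        l * (ρ * Real.cos (φ - t) + (ψ / l) * z) := by
      have e1 : l * (b * Real.cos (φ - -(π / 3)) + (ψ / l) * Y) =
          b * (l * Real.cos (φ - -(π / 3))) + ψ * Y := by
        field_simp
      have e2 : l * (ρ * Real.cos (φ - t) + (ψ / l) * z) = ρ * (l * Real.cos (φ - t)) + ψ * z := by
        field_simp
      rw [e1, e2]; exact hy
    exact le_of_mul_le_mul_left e hl
  obtain ⟨r1, r2, r3, r4, -⟩ := iid_cut_num (t := -t) (φ := -φ) H.a0 H.ab hρ (by linarith) (by linarith)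
    hzX hYz (iid_p6_chord' H hρ h0 h1 hw.1) hx' hy' (by linarith) (by linarith)
  have hψ : ψ = 0 := by
    have := (div_eq_zero_iff).1 r3
    rcases this with h | h
    · exact h
    · exact absurd h hl.ne'
  have r2' : φ = -(π / 6) := by linarith
  rw [c1, c2] at r4
  rw [hψ, r2'] at hn
  rw [r2'] at r4
  refine ⟨r1, r2', iid_nm_of_cut hl hn r4, ?_⟩
  rw [iid_dot_one_eq, dotC_ofReal_right, dotC_eA]
  exact r4

/-- every angle is a rotate of an angle in `(-60, 60]`. -/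
lemma iid_angle_reduce (t : ℝ) : ∃ (j : ℤ) (t' : ℝ), -(π / 3) < t' ∧ t' ≤ π / 3 ∧
    t = t' + 2 * π / 3 * j := by
  have hpi := Real.pi_pos
  have hp : (0 : ℝ) < 2 * π / 3 := by positivity
  refine ⟨toIocDiv hp (-(π / 3)) t, toIocMod hp (-(π / 3)) t, ?_, ?_, ?_⟩
  · exact (toIocMod_mem_Ioc hp _ t).1
  · have := (toIocMod_mem_Ioc hp (-(π / 3)) t).2
    linarith
  · have := toIocMod_add_toIocDiv_zsmul hp (-(π / 3)) t
    rw [zsmul_eq_mul] at this
    linarith

/-- HS from the cuts. -/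
lemma iid_hs_of_cuts (H : P6 K h h' a b X Y σ τ)
    (hc1 : ∀ ρ t z l φ ψ : ℝ, 0 < ρ → -(π / 3) < t → t ≤ 0 → Mx K ((ρ : ℂ) * eA t, z) →
      ¬ (t = 0 ∧ ρ = a ∧ z = X) → 0 < l → Nm K ((ρ : ℂ) * eA t, z) ((l : ℂ) * eA φ, ψ) →
      φ ≤ t + π / 3 → φ < π / 6)
    (hc2 : ∀ ρ t z l φ ψ : ℝ, 0 < ρ → 0 ≤ t → t < π / 3 → Mx K ((ρ : ℂ) * eA t, z) →
      ¬ (t = 0 ∧ ρ = a ∧ z = X) → 0 < l → Nm K ((ρ : ℂ) * eA t, z) ((l : ℂ) * eA φ, ψ) →
      t - π / 3 ≤ φ → -(π / 6) < φ) : HS K a X := by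
  have hpi := Real.pi_pos
  intro w hw
  obtain ⟨⟨ρ, t, hρ, he⟩, -⟩ := mixed_polar H.rb H.top H.bot hw
  obtain ⟨j, t', ht1, ht2, htt⟩ := iid_angle_reduce t
  have hwe : w = ((ρ : ℂ) * eA t, w.2) := Prod.ext he rfl
  set z := w.2 with hz
  rw [hwe] at hw
  have hw' : Mx K ((ρ : ℂ) * eA t', z) := by
    have := iid_mx_ang H.rb hw (-j)
    have e : t + 2 * π / 3 * ((-j : ℤ) : ℝ) = t' := by rw [htt]; push_cast; ring
    rwa [e] at this
  by_cases hx : t' = 0 ∧ ρ = a ∧ z = X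
  · left
    refine ⟨j, ?_⟩
    rw [hwe, htt, hx.1, hx.2.1, hx.2.2, zero_add]
  right
  have key : ∃ i : ℤ, Sv K ((ρ : ℂ) * eA t', z) (eA (π / 3 + 2 * π / 3 * i), 0) := by
    obtain ⟨a', b', al, be, η, F⟩ := exists_fan' H.rb H.top H.bot hρ hw'
    have F1 := F.ta
    have F2 := F.ah
    have F3 := F.hb
    have F4 := F.bt
    rcases lt_or_eq_of_le ht2 with h3 | h3
    · rcases le_total t' 0 with h4 | h4
      · refine ⟨-1, ?_⟩
        have e : π / 3 + 2 * π / 3 * ((-1 : ℤ) : ℝ) = -(π / 3) := by push_cast; ring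
        rw [e]
        have h5 : b' < π / 6 := hc1 ρ t' z 1 b' be hρ ht1 h4 hw' hx one_pos
          (by rw [Complex.ofReal_one, one_mul]; exact F.nb) F4
        exact F.serves (by linarith) (by linarith)
      · refine ⟨0, ?_⟩
        have e : π / 3 + 2 * π / 3 * ((0 : ℤ) : ℝ) = π / 3 := by push_cast; ring
        rw [e]
        have h5 : -(π / 6) < a' := hc2 ρ t' z 1 a' al hρ h4 h3 hw' hx one_pos
          (by rw [Complex.ofReal_one, one_mul]; exact F.na) F1
        exact F.serves (by linarith) (by linarith)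
    · refine ⟨0, ?_⟩
      have e : π / 3 + 2 * π / 3 * ((0 : ℤ) : ℝ) = π / 3 := by push_cast; ring
      rw [e]
      exact F.serves (by linarith) (by linarith)
  obtain ⟨i, hi⟩ := key
  refine ⟨i + j, ?_⟩
  have h5 := rot_Sv H.rb hi j
  have e1 : eA (2 * π / 3 * j) * ((ρ : ℂ) * eA t') = (ρ : ℂ) * eA t := by
    rw [htt, eA_add]; ring
  have e2 : eA (2 * π / 3 * j) * eA (π / 3 + 2 * π / 3 * i) =
      eA (π / 3 + 2 * π / 3 * ((i + j : ℤ) : ℝ)) := by
    rw [← eA_add]; congr 1; push_cast; ring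
  simp only at h5
  rw [e1, e2] at h5
  rw [hwe]
  exact h5

theorem hs_gen (H : P6 K h h' a b X Y σ τ) (h1 : ¬ Nm K ((a : ℂ), X) (eA (π / 6), 0))
    (h2 : ¬ Nm K ((a : ℂ), X) (eA (-(π / 6)), 0)) : HS K a X := by
  refine iid_hs_of_cuts H ?_ ?_
  · intro ρ t z l φ ψ hρ h0 h3 hw hne hl hn hφ
    by_contra hc
    push Not at hc
    exact h1 (p6_cut H hρ h0 h3 hw hne hl hn hc hφ).2.2.1
  · intro ρ t z l φ ψ hρ h0 h3 hw hne hl hn hφ
    by_contra hc
    push Not at hc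
    exact h2 (p6_cut' H hρ h0 h3 hw hne hl hn hc hφ).2.2.1

end P6


lemma iid_combC (s t u : ℝ) : ((Real.sin (u - s) : ℝ) : ℂ) * eA t =
    ((Real.sin (u - t) : ℝ) : ℂ) * eA s + ((Real.sin (t - s) : ℝ) : ℂ) * eA u := by
  apply Complex.ext
  · simp only [Complex.mul_re, Complex.add_re, Complex.ofReal_re, Complex.ofReal_im, eA_re, eA_im,
      Real.sin_sub]
    ring
  · simp only [Complex.mul_im, Complex.add_im, Complex.ofReal_re, Complex.ofReal_im, eA_re, eA_im,
      Real.sin_sub]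
    ring

/-- a point on a segment, in polar coordinates. -/
lemma iid_seg_pt {ρ t r u a s θ c0 : ℝ} (hρ : 0 < ρ) (hr : 0 < r) (ha : 0 < a) (hc0 : 0 < c0)
    (h1 : ρ * Real.cos (θ - t) = c0) (h2 : r * Real.cos (θ - u) = c0)
    (h3 : a * Real.cos (θ - s) = c0) (hD : 0 < Real.sin (u - t)) (hA : 0 < Real.sin (u - s))
    (hB : 0 < Real.sin (s - t)) :
    ∃ c : ℝ, 0 < c ∧ c < 1 ∧ (a : ℂ) * eA s =
      ((1 - c : ℝ) : ℂ) * ((ρ : ℂ) * eA t) + ((c : ℝ) : ℂ) * ((r : ℂ) * eA u) := by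
  have e0 := iid_combC t s u
  set D := Real.sin (u - t)
  set A := Real.sin (u - s)
  set B := Real.sin (s - t)
  have hDC : (D : ℂ) ≠ 0 := by exact_mod_cast hD.ne'
  have hρC : (ρ : ℂ) ≠ 0 := by exact_mod_cast hρ.ne'
  have hrC : (r : ℂ) ≠ 0 := by exact_mod_cast hr.ne'
  have e1 : (a : ℂ) * eA s = ((a * A / (ρ * D) : ℝ) : ℂ) * ((ρ : ℂ) * eA t) +
      ((a * B / (r * D) : ℝ) : ℂ) * ((r : ℂ) * eA u) := by
    have e5 : (a : ℂ) * eA s * (D : ℂ) = (a : ℂ) * ((A : ℂ) * eA t + (B : ℂ) * eA u) := by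
      rw [← e0]; ring
    push_cast
    field_simp
    linear_combination e5
  have hα : 0 < a * A / (ρ * D) := by positivity
  have hβ : 0 < a * B / (r * D) := by positivity
  have hsum : a * A / (ρ * D) + a * B / (r * D) = 1 := by
    have e2 := congrArg (fun q => dotC (eA θ) q) e1
    simp only [dotC_add_right, dotC_ofReal_right, dotC_eA] at e2
    rw [h1, h2, h3] at e2
    have e3 : (a * A / (ρ * D) + a * B / (r * D)) * c0 = 1 * c0 := by linarith
    exact mul_right_cancel₀ hc0.ne' e3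
  refine ⟨a * B / (r * D), hβ, by linarith, ?_⟩
  have e4 : 1 - a * B / (r * D) = a * A / (ρ * D) := by linarith
  rw [e4]
  exact e1

lemma iid_seg_mem {K : Set Q3} (hc : Convex ℝ K) {p q : ℂ} {z Z c : ℝ} (h0 : 0 < c) (h1 : c < 1)
    (hp : (p, z) ∈ K) (hq : (q, Z) ∈ K) :
    (((1 - c : ℝ) : ℂ) * p + ((c : ℝ) : ℂ) * q, (1 - c) * z + c * Z) ∈ K := by
  have := hc hp hq (sub_nonneg.2 h1.le) h0.le (by ring)
  simpa using this

section P6

variable {K : Set Q3} {h h' a b X Y σ τ : ℝ}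

theorem hs_deg (H : P6 K h h' a b X Y σ τ) (hf : ∀ z, ((a : ℂ), z) ∈ K → z = X) : HS K a X := by
  have hpi := Real.pi_pos
  have hc30 : 0 < Real.cos (π / 6) := Real.cos_pos_of_mem_Ioo ⟨by linarith, by linarith⟩
  have hlt := iid_p6_low H
  refine iid_hs_of_cuts H ?_ ?_
  · intro ρ t z l φ ψ hρ h0 h3 hw hne hl hn hφ
    by_contra hc
    push Not at hc
    obtain ⟨r1, r2, r3, r4⟩ := p6_cut H hρ h0 h3 hw hne hl hn hc hφ
    rw [iid_dot_one_eq, dotC_ofReal_right, dotC_eA] at r4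
    obtain ⟨hzX, hYz⟩ := iid_p6_heights H hρ h0 (by linarith) hw hne
    rcases lt_or_eq_of_le h3 with h4 | h4
    · obtain ⟨c, hc0, hc1, he⟩ := iid_seg_pt (θ := π / 6) (c0 := a * Real.cos (π / 6)) (a := a) (s := 0)
        (u := π / 3) (r := b) hρ H.iid_b0 H.a0 (mul_pos H.a0 hc30) r4
        (by rw [← r1, ← Real.cos_neg (π / 6 - π / 3)]; congr 2; ring)
        (by rw [sub_zero]) (Real.sin_pos_of_pos_of_lt_pi (by linarith) (by linarith))
        (Real.sin_pos_of_pos_of_lt_pi (by linarith) (by linarith))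
        (Real.sin_pos_of_pos_of_lt_pi (by linarith) (by linarith))
      have h5 := iid_seg_mem H.rb.conv hc0 hc1 hw.1 H.my.1
      rw [← he, eA_zero, mul_one] at h5
      have h6 := hf _ h5
      nlinarith
    · rw [h4, sub_zero] at r4
      have h5 : ρ = a := mul_right_cancel₀ hc30.ne' r4
      have h6 := hw.1
      rw [h4, h5, eA_zero, mul_one] at h6
      exact hne ⟨h4, h5, hf _ h6⟩
  · intro ρ t z l φ ψ hρ h0 h3 hw hne hl hn hφ
    by_contra hc
    push Not at hc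
    obtain ⟨r1, r2, r3, r4⟩ := p6_cut' H hρ h0 h3 hw hne hl hn hc hφ
    rw [iid_dot_one_eq, dotC_ofReal_right, dotC_eA] at r4
    obtain ⟨hzX, hYz⟩ := iid_p6_heights H hρ (by linarith) h3 hw hne
    have hcn : Real.cos (-(π / 6)) = Real.cos (π / 6) := Real.cos_neg _
    rcases lt_or_eq_of_le h0 with h4 | h4
    · obtain ⟨c, hc0, hc1, he⟩ := iid_seg_pt (θ := -(π / 6)) (c0 := a * Real.cos (-(π / 6))) (a := a)
        (s := 0) (t := -(π / 3)) (ρ := b) (r := ρ) (u := t) H.iid_b0 hρ H.a0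
        (mul_pos H.a0 (by rw [hcn]; exact hc30))
        (by
          have e7 : -(π / 6) - -(π / 3) = π / 6 := by ring
          rw [← r1, e7, hcn]) r4
        (by rw [sub_zero]) (Real.sin_pos_of_pos_of_lt_pi (by linarith) (by linarith))
        (Real.sin_pos_of_pos_of_lt_pi (by linarith) (by linarith))
        (Real.sin_pos_of_pos_of_lt_pi (by linarith) (by linarith))
      have h5 := iid_seg_mem H.rb.conv hc0 hc1 H.iid_my' hw.1
      rw [← he, eA_zero, mul_one] at h5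
      have h6 := hf _ h5
      nlinarith
    · rw [← h4, sub_zero] at r4
      have h5 : ρ = a := mul_right_cancel₀ (by rw [hcn]; exact hc30.ne') r4
      have h6 := hw.1
      rw [← h4, h5, eA_zero, mul_one] at h6
      exact hne ⟨h4.symm, h5, hf _ h6⟩

theorem exc_mixed (H : P6 K h h' a b X Y σ τ) (hE : Nm K ((a : ℂ), X) (eA (π / 6), 0)) {z₁ : ℝ}
    (hz : z₁ < X) (hz₁ : ((a : ℂ), z₁) ∈ K) {ε : ℝ} (he : 0 < ε) (he' : ε < π / 6) {w : Q3}
    (hw : Mx K w) : (∃ j : ℤ, w = ((a : ℂ) * eA (2 * π / 3 * j), X)) ∨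
      ∃ j : ℤ, Sv K w (eA (π / 3 + ε + 2 * π / 3 * j), 0) := by
  have hpi := Real.pi_pos
  have hc30 : 0 < Real.cos (π / 6) := Real.cos_pos_of_mem_Ioo ⟨by linarith, by linarith⟩
  have hlt := iid_p6_low H
  have hE' : ∀ {ρ t z : ℝ}, ((ρ : ℂ) * eA t, z) ∈ K → ρ * Real.cos (π / 6 - t) ≤
      a * Real.cos (π / 6) := by
    intro ρ t z hq
    have h1 := hE.2 _ hq
    rw [iid_prd, zero_mul, add_zero, dotC_eA] at h1
    simp only [pr, zero_mul, add_zero] at h1
    rwa [iid_dot_one_eq] at h1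
  have hc36 : Real.cos (π / 6 - π / 3) = Real.cos (π / 6) := by
    rw [← Real.cos_neg (π / 6 - π / 3)]; congr 1; ring
  have hab : a = b := by
    have h1 := hE' H.my.1
    rw [hc36] at h1
    exact le_antisymm H.ab (le_of_mul_le_mul_right h1 hc30)
  obtain ⟨⟨ρ, t, hρ, hew⟩, -⟩ := mixed_polar H.rb H.top H.bot hw
  obtain ⟨j, t', ht1, ht2, htt⟩ := iid_angle_reduce t
  have hwe : w = ((ρ : ℂ) * eA t, w.2) := Prod.ext hew rfl
  set z := w.2 with hzdef
  rw [hwe] at hw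
  have hw' : Mx K ((ρ : ℂ) * eA t', z) := by
    have := iid_mx_ang H.rb hw (-j)
    have e : t + 2 * π / 3 * ((-j : ℤ) : ℝ) = t' := by rw [htt]; push_cast; ring
    rwa [e] at this
  by_cases hx : t' = 0 ∧ ρ = a ∧ z = X
  · left
    refine ⟨j, ?_⟩
    rw [hwe, htt, hx.1, hx.2.1, hx.2.2, zero_add]
  right
  have key : ∃ i : ℤ, Sv K ((ρ : ℂ) * eA t', z) (eA (π / 3 + ε + 2 * π / 3 * i), 0) := by
    obtain ⟨a', b', al, be, η, F⟩ := exists_fan' H.rb H.top H.bot hρ hw'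
    have F1 := F.ta
    have F2 := F.ah
    have F3 := F.hb
    have F4 := F.bt
    have eneg : π / 3 + ε + 2 * π / 3 * ((-1 : ℤ) : ℝ) = -(π / 3) + ε := by push_cast; ring
    have ezero : π / 3 + ε + 2 * π / 3 * ((0 : ℤ) : ℝ) = π / 3 + ε := by push_cast; ring
    rcases lt_or_eq_of_le ht2 with h3 | h3
    · rcases le_or_gt t' 0 with h4 | h4
      · refine ⟨-1, ?_⟩
        rw [eneg]
        have h5 : b' ≤ π / 6 := by
          by_contra hc
          push Not at hc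
          have := (p6_cut H (l := 1) hρ ht1 h4 hw' hx one_pos
            (by rw [Complex.ofReal_one, one_mul]; exact F.nb) hc.le F4).2.1
          linarith
        exact F.serves (by linarith) (by linarith)
      · obtain ⟨hzX, hYz⟩ := iid_p6_heights H hρ ht1 h3 hw' hx
        -- the point is over the segment
        have hline : ρ * Real.cos (π / 6 - t') = a * Real.cos (π / 6) := by
          refine le_antisymm (hE' hw'.1) ?_
          obtain ⟨-, m, hm⟩ := hw'
          have hpos := nm_pos H.rb hm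
          have hq1 := hm.2 _ H.iid_x0.1
          have hq2 := hm.2 _ H.my.1
          rw [iid_prd, zero_mul, add_zero] at hpos
          rw [iid_prd, iid_prd, zero_mul, zero_mul, add_zero, add_zero] at hq1 hq2
          have hD := iid_comb_dot m 0 t' (π / 3)
          rw [sub_zero, sub_zero] at hD
          have hc : 0 < dotC m (eA t') := by
            by_contra h
            push Not at h
            nlinarith [mul_nonneg hρ.le (neg_nonneg.2 h)]
          have h6 := iid_chord_le H.a0 H.iid_b0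
            (Real.sin_nonneg_of_nonneg_of_le_pi (by linarith) (by linarith))
            (Real.sin_nonneg_of_nonneg_of_le_pi (by linarith) (by linarith)) hc hD hq1 hq2
          rw [← hab, ← mul_add] at h6
          have e2 : Real.sin (π / 3 - t') + Real.sin t' = Real.cos (π / 6 - t') := by
            have e3 : π / 3 - t' = π / 6 + (π / 6 - t') := by ring
            have e4 : t' = π / 6 - (π / 6 - t') := by ring
            have e5 : Real.sin t' = Real.sin (π / 6 - (π / 6 - t')) := by rw [← e4]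
            have e6 : ∀ q : ℝ, Real.sin (π / 6 + q) + Real.sin (π / 6 - q) = Real.cos q := by
              intro q
              rw [Real.sin_add, Real.sin_sub, Real.sin_pi_div_six]
              ring
            rw [e3, e5]
            exact e6 _
          have e6 : Real.sin (π / 3) = Real.cos (π / 6) := by
            rw [Real.sin_pi_div_three, Real.cos_pi_div_six]
          rw [e2, e6] at h6
          have h7 : a * (a * Real.cos (π / 6)) ≤ a * (ρ * Real.cos (π / 6 - t')) := by linarith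
          exact le_of_mul_le_mul_left h7 H.a0
        obtain ⟨c, hc0, hc1, hce⟩ := iid_seg_pt (θ := π / 6) (c0 := a * Real.cos (π / 6)) (a := ρ)
          (s := t') (t := 0) (ρ := a) (u := π / 3) (r := b) H.a0 H.iid_b0 hρ (mul_pos H.a0 hc30)
          (by rw [sub_zero]) (by rw [← hab, hc36]) hline
          (Real.sin_pos_of_pos_of_lt_pi (by linarith) (by linarith))
          (Real.sin_pos_of_pos_of_lt_pi (by linarith) (by linarith))
          (Real.sin_pos_of_pos_of_lt_pi (by linarith) (by linarith))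
        have hdot : ∀ θ : ℝ, ρ * Real.cos (θ - t') = (1 - c) * (a * Real.cos θ) +
            c * (a * Real.cos (θ - π / 3)) := by
          intro θ
          have e2 := congrArg (fun q => dotC (eA θ) q) hce
          simp only [dotC_add_right, dotC_ofReal_right, dotC_eA] at e2
          rw [sub_zero, ← hab] at e2
          exact e2
        have hu1 := iid_seg_mem H.rb.conv hc0 hc1 H.iid_x0.1 H.my.1
        have hz0 : ((a : ℂ) * eA 0, z₁) ∈ K := by rw [eA_zero, mul_one]; exact hz₁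
        have hu0 := iid_seg_mem H.rb.conv hc0 hc1 hz0 H.my.1
        rw [← hce] at hu1 hu0
        have hfib : ∃ z', z' ≠ z ∧ ((ρ : ℂ) * eA t', z') ∈ K := by
          by_cases h6 : (1 - c) * X + c * Y = z
          · refine ⟨(1 - c) * z₁ + c * Y, ?_, hu0⟩
            rw [← h6]
            intro h7
            have h8 : (1 - c) * (X - z₁) = 0 := by linarith
            rcases mul_eq_zero.1 h8 with h9 | h9 <;> linarith
          · exact ⟨_, h6, hu1⟩
        obtain ⟨z', hz'ne, hz'K⟩ := hfib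
        rcases lt_or_gt_of_ne hz'ne with h6 | h6
        · -- a lower point exists: no normal under 30
          refine ⟨0, ?_⟩
          rw [ezero]
          have hal : 0 ≤ al := by
            have h7 := F.na.2 _ hz'K
            rw [iid_prd, iid_prd] at h7
            by_contra h8
            push Not at h8
            nlinarith [mul_pos (neg_pos.2 h8) (sub_pos.2 h6)]
          have ha' : π / 6 ≤ a' := by
            by_contra h8
            push Not at h8
            have h9 := F.na.2 _ H.iid_x0.1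
            rw [iid_prd, iid_prd, dotC_eA, dotC_eA, sub_zero, hdot] at h9
            have h10 : Real.cos (a' - π / 3) < Real.cos a' := by
              rw [← Real.cos_abs a', ← Real.cos_neg (a' - π / 3)]
              refine Real.cos_lt_cos_of_nonneg_of_le_pi (abs_nonneg _) (by linarith) ?_
              rw [abs_lt]; constructor <;> linarith
            have h11 : 0 < c * (a * (Real.cos a' - Real.cos (a' - π / 3))) :=
              mul_pos hc0 (mul_pos H.a0 (sub_pos.2 h10))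
            have h12 : 0 ≤ al * (X - z) := mul_nonneg hal (sub_nonneg.2 hzX.le)
            nlinarith
          exact F.serves (by linarith) (by linarith)
        · refine ⟨-1, ?_⟩
          rw [eneg]
          have hbe : be ≤ 0 := by
            have h7 := F.nb.2 _ hz'K
            rw [iid_prd, iid_prd] at h7
            by_contra h8
            push Not at h8
            nlinarith [mul_pos h8 (sub_pos.2 h6)]
          have hb' : b' ≤ π / 6 := by
            by_contra h8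
            push Not at h8
            have h9 := F.nb.2 _ H.my.1
            rw [iid_prd, iid_prd, dotC_eA, dotC_eA, hdot, ← hab] at h9
            have h10 : Real.cos b' < Real.cos (b' - π / 3) := by
              rw [← Real.cos_abs (b' - π / 3)]
              refine Real.cos_lt_cos_of_nonneg_of_le_pi (abs_nonneg _) (by linarith) ?_
              rw [abs_lt]; constructor <;> linarith
            have h11 : 0 < (1 - c) * (a * (Real.cos (b' - π / 3) - Real.cos b')) :=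
              mul_pos (sub_pos.2 hc1) (mul_pos H.a0 (sub_pos.2 h10))
            have h12 : 0 ≤ (-be) * (z - Y) := mul_nonneg (neg_nonneg.2 hbe) (sub_nonneg.2 hYz.le)
            nlinarith
          exact F.serves (by linarith) (by linarith)
    · refine ⟨0, ?_⟩
      rw [ezero]
      exact F.serves (by linarith) (by linarith)
  obtain ⟨i, hi⟩ := key
  refine ⟨i + j, ?_⟩
  have h5 := rot_Sv H.rb hi j
  have e1 : eA (2 * π / 3 * j) * ((ρ : ℂ) * eA t') = (ρ : ℂ) * eA t := by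
    rw [htt, eA_add]; ring
  have e2 : eA (2 * π / 3 * j) * eA (π / 3 + ε + 2 * π / 3 * i) =
      eA (π / 3 + ε + 2 * π / 3 * ((i + j : ℤ) : ℝ)) := by
    rw [← eA_add]; congr 1; push_cast; ring
  simp only at h5
  rw [e1, e2] at h5
  rw [hwe]
  exact h5

end P6

end Pool.Agent.Lib.MP_5e7226_co.RT
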