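import Mathlib
import Pool.Agent.Lib.MP_5e7226_co.RT.D10
import Pool.Agent.Lib.MP_5e7226_co.RT.IId
import Pool.Agent.Lib.MP_5e7226_co.RT.D6

/-! # MP_5e7226, E^3 rotations, case (II): rows d11 and p6_end -/

set_option autoImplicit false

open Set Filter Topology
open scoped Real

namespace Pool.Agent.Lib.MP_5e7226_co.RT

/-- every angle can be rotated to `[c, c + 120]`. -/
lemma exists_sector_c (c t : ℝ) : ∃ j : ℤ, c ≤ t + 2 * π / 3 * j ∧
    t + 2 * π / 3 * j ≤ c + 2 * π / 3 := by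
  obtain ⟨j, h1, h2⟩ := exists_sector (t - c - π / 3)
  exact ⟨j, by linarith, by linarith⟩

/-- a family of directions which is invariant under the rotation serves all strictly upper
points if it does so for the angles in one sector. -/
theorem upper_gen {K : Set Q3} (hK : RB 3 K) {h : ℝ} (hT : Top K h) (V : Set Q3)
    (hV : ∀ v ∈ V, ∀ j : ℤ, ((eA (2 * π / 3 * j) * v.1, v.2) : Q3) ∈ V) (c : ℝ)
    (loc : ∀ ρ t z : ℝ, 0 < ρ → c ≤ t → t ≤ c + 2 * π / 3 → ((ρ : ℂ) * eA t, z) ∈ K →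
      (∀ n, Nm K ((ρ : ℂ) * eA t, z) n → 0 < n.2 ∧ ∃ φ l : ℝ, 0 < l ∧
          t - π / 3 ≤ φ ∧ φ ≤ t + π / 3 ∧ n.1 = (l : ℂ) * eA φ) →
      ∃ v ∈ V, Sv K ((ρ : ℂ) * eA t, z) v)
    (hA : ∃ v ∈ V, Sv K ((0 : ℂ), h) v) :
    ∀ x ∈ K, Sv K x ((0 : ℂ), 1) → ∃ v ∈ V, Sv K x v := by
  intro x hxK h2
  have hup : ∀ n, Nm K x n → 0 < n.2 := by
    intro n hn
    have := h2 n hn
    unfold pr at this
    simpa [dotC_zero_right] using this
  by_cases hx0 : x.1 = 0
  · have hxe : x = ((0 : ℂ), x.2) := Prod.ext hx0 rfl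
    obtain ⟨v, hv, hs⟩ := hA
    refine ⟨v, hv, ?_⟩
    by_cases hxh : x.2 = h
    · rw [hxe, hxh]
      exact hs
    · intro n hn
      exfalso
      have h3 := hn.2 _ hT.mem
      rw [hxe] at h3
      unfold pr at h3
      simp only [dotC_zero_right, zero_add] at h3
      have h4 := le_of_mul_le_mul_left h3 (hup n hn)
      exact hxh (le_antisymm (hT.le _ hxK) h4)
  · obtain ⟨j, hj1, hj2⟩ := exists_sector_c c (Complex.arg x.1)
    have hρ0 : 0 < ‖x.1‖ := norm_pos_iff.mpr hx0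
    have hxe : x = ((‖x.1‖ : ℂ) * eA (Complex.arg x.1), x.2) := by
      refine Prod.ext ?_ rfl
      rw [eA_eq_exp]
      exact (Complex.norm_mul_exp_arg_mul_I x.1).symm
    have hye : (eA (2 * π / 3 * j) * x.1, x.2) =
        ((‖x.1‖ : ℂ) * eA (Complex.arg x.1 + 2 * π / 3 * j), x.2) := by
      have := Rz_pt (2 * π / 3 * j) (Complex.arg x.1) ‖x.1‖ x.2
      rw [← hxe] at this
      exact this
    have hyK : ((‖x.1‖ : ℂ) * eA (Complex.arg x.1 + 2 * π / 3 * j), x.2) ∈ K := by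
      have := mem_rotz hK hxK j
      unfold Rz at this
      rwa [hye] at this
    have h4 : (eA (2 * π / 3 * ((-j : ℤ) : ℝ)) *
        ((‖x.1‖ : ℂ) * eA (Complex.arg x.1 + 2 * π / 3 * j)), x.2) = x := by
      have h5 := Rz_pt (2 * π / 3 * ((-j : ℤ) : ℝ)) (Complex.arg x.1 + 2 * π / 3 * j) ‖x.1‖ x.2
      unfold Rz at h5
      simp only at h5
      rw [h5]
      have e : Complex.arg x.1 + 2 * π / 3 * (j : ℝ) + 2 * π / 3 * ((-j : ℤ) : ℝ) =
          Complex.arg x.1 := by push_cast; ring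
      rw [e]
      exact hxe.symm
    obtain ⟨v, hv, hs⟩ := loc _ _ _ hρ0 hj1 hj2 hyK (by
      intro n hn
      have hn2 : 0 < n.2 := by
        have h5 := rot_Nm hK hn (-j)
        simp only at h5
        rw [h4] at h5
        have h6 := hup _ h5
        exact h6
      refine ⟨hn2, ?_⟩
      have hn0 : n.1 ≠ 0 := by
        intro h0
        have h3 := hn.2 _ hT.mem
        unfold pr at h3
        rw [h0] at h3
        simp only [dotC_zero_left, zero_add] at h3
        have h7 := le_of_mul_le_mul_left h3 hn2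
        exact hx0 (hT.eq _ hxK (le_antisymm (hT.le _ hxK) h7))
      exact normal_angle hK hρ0 hyK hn hn0)
    refine ⟨_, hV v hv (-j), ?_⟩
    have h3 := rot_Sv hK hs (-j)
    simp only at h3
    rw [h4] at h3
    exact h3

section P6

variable {K : Set Q3} {h h' a b X Y σ τ : ℝ}

/-- the point `x` has no lower normals if there is a point below it. -/
lemma up_of_below {K : Set Q3} {x₁ : ℂ} {z z₁ : ℝ} (hz : z₁ < z) (hz₁ : (x₁, z₁) ∈ K) {n : Q3}
    (hn : Nm K (x₁, z) n) : 0 ≤ n.2 := by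
  have h1 := hn.2 _ hz₁
  unfold pr at h1
  simp only at h1
  by_contra hc
  rw [not_le] at hc
  have := mul_lt_mul_of_neg_left hz hc
  linarith

/-- `(s, 1)` serves the top point if `s` is small. -/
lemma small_top (hK : RB 3 K) {h : ℝ} (hT : Top K h) : ∃ ε : ℝ, 0 < ε ∧ ∀ s : ℝ, 0 < s → s < ε →
    Sv K ((0 : ℂ), h) ((s : ℂ), 1) := by
  have h0 : Sv K ((0 : ℂ), h) ((0 : ℂ), 1) := by
    intro n hn
    have h1 := nm_pos hK hn
    unfold pr at h1 ⊢
    simp only [dotC_zero_right, zero_add, mul_one] at h1 ⊢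
    by_contra hc
    rw [not_lt] at hc
    have := mul_nonpos_of_nonpos_of_nonneg hc hT.pos.le
    linarith
  obtain ⟨δ, hδ, hd⟩ := sv_open h0
  refine ⟨δ, hδ, fun s hs1 hs2 => hd _ hT.mem (by rw [dist_self]; exact hδ) _ ?_⟩
  rw [Prod.dist_eq, dist_self, dist_zero_right, Complex.norm_real, Real.norm_eq_abs,
    abs_of_pos hs1, max_lt_iff]
  exact ⟨hs2, hδ⟩

/-- d11: the exceptional case: seven directions (uses d9, d10). -/
theorem exc_served (H : P6 K h h' a b X Y σ τ) (hE : Nm K ((a : ℂ), X) (eA (π / 6), 0)) {z₁ : ℝ}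
    (hz : z₁ < X) (hz₁ : ((a : ℂ), z₁) ∈ K) : Served K 7 := by
  have hpi := Real.pi_pos
  have hK := H.rb
  obtain ⟨M, hM⟩ := exc_bound H hE
  obtain ⟨ε₁, hε₁, hsm⟩ := small_top hK H.top
  -- the small number
  obtain ⟨s, hs0, hs1, hs2⟩ : ∃ s : ℝ, 0 < s ∧ s < ε₁ ∧ s * M < 1 := by
    refine ⟨min (ε₁ / 2) (1 / (2 * (|M| + 1))), by positivity, ?_, ?_⟩
    · exact (min_le_left _ _).trans_lt (by linarith)
    · have h1 : min (ε₁ / 2) (1 / (2 * (|M| + 1))) * M ≤ 1 / (2 * (|M| + 1)) * |M| := by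
        calc min (ε₁ / 2) (1 / (2 * (|M| + 1))) * M ≤ min (ε₁ / 2) (1 / (2 * (|M| + 1))) * |M| :=
              mul_le_mul_of_nonneg_left (le_abs_self M) (by positivity)
          _ ≤ _ := mul_le_mul_of_nonneg_right (min_le_right _ _) (abs_nonneg M)
      have h2 : 1 / (2 * (|M| + 1)) * |M| < 1 := by
        rw [div_mul_eq_mul_div, one_mul, div_lt_one (by positivity)]
        have := abs_nonneg M
        linarith
      linarith
  have hA := hsm s hs0 hs1
  set ε := π / 18 with hε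
  have hXs : Sv K ((a : ℂ), X) ((s : ℂ), 1) := by
    intro n hn
    have h1 := up_of_below hz hz₁ hn
    have es : (s : ℂ) = (s : ℂ) * eA 0 := by rw [eA_zero, mul_one]
    by_cases h0 : n.1 = 0
    · have h2 : n.2 ≠ 0 := fun h2 => hn.1 (Prod.ext h0 h2)
      unfold pr
      rw [h0]
      simp only [dotC_zero_left, zero_add, mul_one]
      exact lt_of_le_of_ne h1 (Ne.symm h2)
    · have ea : ((a : ℂ), X) = ((a : ℂ) * eA 0, X) := by rw [eA_zero, mul_one]
      rw [ea] at hn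
      obtain ⟨φ, l, hl, h2, h3, h4⟩ := normal_angle hK H.a0 (by rw [← ea]; exact H.mx.1) hn h0
      unfold pr
      simp only
      rw [h4, es, dotC_ofReal_left, dotC_ofReal_right, dotC_eA, mul_one, sub_zero]
      have h5 : 0 < Real.cos φ := Real.cos_pos_of_mem_Ioo ⟨by linarith, by linarith⟩
      have h6 : 0 < l * (s * Real.cos φ) := by positivity
      linarith
  set V : Set Q3 := {v | (∃ j : ℤ, v = (eA (π / 3 + ε + 2 * π / 3 * j), 0)) ∨
    ∃ j : ℤ, v = ((s : ℂ) * eA (0 + 2 * π / 3 * j), 1)} with hVd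
  have hV : ∀ v ∈ V, ∀ j : ℤ, ((eA (2 * π / 3 * j) * v.1, v.2) : Q3) ∈ V := by
    rintro v (⟨i, rfl⟩ | ⟨i, rfl⟩) j
    · left
      refine ⟨i + j, ?_⟩
      simp only
      rw [← eA_add]
      congr 2
      push_cast; ring
    · right
      refine ⟨i + j, ?_⟩
      simp only
      rw [mul_left_comm, ← eA_add]
      congr 3
      push_cast; ring
  have hup := upper_gen hK H.top V hV (-(5 * π / 18)) (by
    intro ρ t z hρ ht1 ht2 hw hn
    rcases le_or_gt t (-(π / 6)) with c1 | c1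
    · -- e_{-50}
      refine ⟨_, Or.inl ⟨-1, rfl⟩, ?_⟩
      intro n hnn
      obtain ⟨h2, φ, l, hl, h3, h4, h5⟩ := hn n hnn
      unfold pr
      simp only
      rw [h5, dotC_ofReal_left, dotC_eA, mul_zero, add_zero]
      refine mul_pos hl (Real.cos_pos_of_mem_Ioo ⟨?_, ?_⟩)
      · push_cast; rw [hε]; linarith
      · push_cast; rw [hε]; linarith
    rcases lt_or_ge (π / 6 + π / 18) t with c2 | c2
    · -- e_70
      refine ⟨_, Or.inl ⟨0, rfl⟩, ?_⟩
      intro n hnn
      obtain ⟨h2, φ, l, hl, h3, h4, h5⟩ := hn n hnn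
      unfold pr
      simp only
      rw [h5, dotC_ofReal_left, dotC_eA, mul_zero, add_zero]
      refine mul_pos hl (Real.cos_pos_of_mem_Ioo ⟨?_, ?_⟩)
      · push_cast; rw [hε]; linarith
      · push_cast; rw [hε]; linarith
    · -- (s,1)
      refine ⟨_, Or.inr ⟨0, rfl⟩, ?_⟩
      intro n hnn
      obtain ⟨h2, φ, l, hl, h3, h4, h5⟩ := hn n hnn
      unfold pr
      simp only
      rw [h5, dotC_ofReal_left, dotC_ofReal_right, dotC_eA, mul_one]
      push_cast
      rw [mul_zero, add_zero, sub_zero]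
      rcases le_or_gt φ (π / 2) with c3 | c3
      · have h6 : 0 ≤ Real.cos φ := Real.cos_nonneg_of_mem_Icc ⟨by linarith, c3⟩
        have h7 : 0 ≤ l * (s * Real.cos φ) := by positivity
        linarith
      · have hN : Nm K ((ρ : ℂ) * eA t, z) (((l / n.2 : ℝ) : ℂ) * eA φ, 1) := by
          have h6 := Nm_smul hnn (show 0 < n.2⁻¹ by positivity)
          have h7 : n.2⁻¹ • n = (((l / n.2 : ℝ) : ℂ) * eA φ, 1) := by
            refine Prod.ext ?_ ?_
            · show n.2⁻¹ • n.1 = _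
              rw [h5, Complex.real_smul]
              push_cast
              ring
            · show n.2⁻¹ • n.2 = 1
              rw [smul_eq_mul, inv_mul_cancel₀ h2.ne']
          rwa [h7] at h6
        have h8 := hM ρ t z φ (l / n.2) hρ (by linarith) c2 (by positivity) hw hN c3.le
          (by linarith)
        rw [div_le_iff₀ h2] at h8
        have h9 : -1 ≤ Real.cos φ := Real.neg_one_le_cos φ
        have h10 : -(l * s) ≤ l * (s * Real.cos φ) := by
          have := mul_le_mul_of_nonneg_left h9 (show 0 ≤ l * s by positivity)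
          linarith
        have h11 : s * l ≤ s * (M * n.2) := mul_le_mul_of_nonneg_left h8 hs0.le
        have h12 : s * M * n.2 < 1 * n.2 := mul_lt_mul_of_pos_right hs2 h2
        linarith)
    ⟨_, Or.inr ⟨0, rfl⟩, by
      push_cast
      rw [mul_zero, add_zero, eA_zero, mul_one]
      exact hA⟩
  -- all points
  suffices HH : ∀ x ∈ K, Sv K x ((0 : ℂ), -1) ∨ ∃ v ∈ V, Sv K x v by
    refine served_of_fintype (ι := Option (Fin 3 ⊕ Fin 3)) (by simp) (fun o => match o with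
      | none => ((0 : ℂ), -1)
      | some (Sum.inl i) => (eA (π / 3 + ε + 2 * π / 3 * ((i : ℕ) : ℝ)), 0)
      | some (Sum.inr i) => ((s : ℂ) * eA (0 + 2 * π / 3 * ((i : ℕ) : ℝ)), 1)) ?_
    intro x hx
    rcases HH x hx with h1 | ⟨v, ⟨j, rfl⟩ | ⟨j, rfl⟩, h1⟩
    · exact ⟨none, h1⟩
    · obtain ⟨i, hi⟩ := eA_mod3 (π / 3 + ε) j
      rw [hi] at h1
      exact ⟨some (Sum.inl i), h1⟩
    · obtain ⟨i, hi⟩ := eA_mod3 0 j
      rw [hi] at h1
      exact ⟨some (Sum.inr i), h1⟩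
  intro x hx
  by_cases h1 : Sv K x ((0 : ℂ), -1)
  · exact Or.inl h1
  right
  by_cases h2 : Sv K x ((0 : ℂ), 1)
  · exact hup x hx h2
  · rcases exc_mixed H hE hz hz₁ (show 0 < ε by positivity) (by rw [hε]; linarith)
      (mixed_of hK hx h2 h1) with ⟨j, hj⟩ | ⟨j, hj⟩
    · refine ⟨_, Or.inr ⟨j, rfl⟩, ?_⟩
      have h3 := rot_Sv hK hXs j
      simp only at h3
      rw [hj, zero_add, mul_comm (s : ℂ), mul_comm (a : ℂ)]
      exact h3
    · exact ⟨_, Or.inl ⟨j, rfl⟩, hj⟩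

/-- d13: the end of the case (uses d4 - d12). -/
theorem p6_end (H : P6 K h h' a b X Y σ τ) : Served K 7 ∨ Par K := by
  by_cases hf : ∀ z, ((a : ℂ), z) ∈ K → z = X
  · have hs := hs_deg H hf
    rcases top_alt H with ⟨s, h1, h2, h3⟩ | ⟨m, M, h1, h2, h3⟩
    · exact Or.inl (top_scheme H hs h1 h2 h3)
    rcases bot_alt H with ⟨s, k1, k2, k3⟩ | ⟨m', M', k1, k2, k3⟩
    · exact Or.inl (bot_scheme H hs k1 k2 k3)
    obtain ⟨e1, e2, e3, e4, e5⟩ := p6_eq H h1 h2 h3 k1 k2 k3
    exact Or.inr (p6_par H e1 e2 e3 e4 e5)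
  · left
    push Not at hf
    obtain ⟨z₁, hz₁, hne⟩ := hf
    have hpi := Real.pi_pos
    have hz : z₁ < X := by
      have hM : Mx K ((a : ℂ) * eA 0, z₁) := by
        rw [eA_zero, mul_one]
        obtain ⟨-, m, hm⟩ := H.mx
        refine ⟨hz₁, m, nm_of_eq hm ?_⟩
        unfold pr
        simp
      exact lt_of_le_of_ne (p6_top H H.a0 (by linarith) (by linarith) hM).1 hne
    by_cases h1 : Nm K ((a : ℂ), X) (eA (π / 6), 0)
    · exact exc_served H h1 hz hz₁
    by_cases h2 : Nm K ((a : ℂ), X) (eA (-(π / 6)), 0)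
    · apply mi_served
      refine exc_served (p6_mi H) (z₁ := z₁) ?_ hz ?_
      · rw [mi_Nm]
        simp only
        rw [Complex.conj_ofReal, conj_eA]
        exact h2
      · show ((starRingEnd ℂ) (a : ℂ), z₁) ∈ K
        rw [Complex.conj_ofReal]
        exact hz₁
    have hs := hs_gen H h1 h2
    rcases top_alt H with ⟨s, k1, k2, k3⟩ | ⟨m, M, k1, k2, k3⟩
    · exact top_scheme H hs k1 k2 k3
    · exfalso
      have := up_of_below hz hz₁ k1
      simp only at this
      linarith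

end P6

end Pool.Agent.Lib.MP_5e7226_co.RT
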