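import Mathlib

set_option autoImplicit false

open Filter Topology Set

namespace Pool.Agent.Lib.MP_5e7226_co.RT

/-- `B l r`: some arc of the family lies inside `[l, r]`. -/
def BArc (Lf : Set (ℝ × ℝ)) (l r : ℝ) : Prop := ∃ p ∈ Lf, l ≤ p.1 ∧ p.2 ≤ r

/-- Piercing of a closed periodic family of arcs of the circle (lifted to the line):
either five points pierce all arcs, or there are five pairwise disjoint arcs. -/
theorem pierce5 (Lf : Set (ℝ × ℝ)) (hne : Lf.Nonempty)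
    (hlen : ∀ p ∈ Lf, p.1 + Real.pi / 3 ≤ p.2 ∧ p.2 ≤ p.1 + 2 * Real.pi)
    (hper : ∀ p ∈ Lf, ∀ k : ℤ, (p.1 + 2 * Real.pi * k, p.2 + 2 * Real.pi * k) ∈ Lf)
    (hC : ∀ u : ℕ → ℝ × ℝ, (∀ n, u n ∈ Lf) → ∀ q, Tendsto u atTop (𝓝 q) →
      ∃ p ∈ Lf, q.1 ≤ p.1 ∧ p.2 ≤ q.2) :
    (∃ p : Fin 5 → ℝ, ∀ a ∈ Lf, ∃ i, ∃ k : ℤ,
        a.1 < p i + 2 * Real.pi * k ∧ p i + 2 * Real.pi * k < a.2) ∨
    (∃ u : Fin 5 → ℝ × ℝ, (∀ i, u i ∈ Lf) ∧ (u 0).2 ≤ (u 1).1 ∧ (u 1).2 ≤ (u 2).1 ∧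
        (u 2).2 ≤ (u 3).1 ∧ (u 3).2 ≤ (u 4).1 ∧ (u 4).2 ≤ (u 0).1 + 2 * Real.pi) := by
  have hpi := Real.pi_pos
  -- closedness of B
  have hcl : ∀ (l r : ℕ → ℝ) (l0 r0 : ℝ), Tendsto l atTop (𝓝 l0) → Tendsto r atTop (𝓝 r0) →
      (∀ n, BArc Lf (l n) (r n)) → BArc Lf l0 r0 := by
    intro l r l0 r0 hl hr hB
    choose p hp hp1 hp2 using hB
    -- boundedness
    obtain ⟨Cl, hCl⟩ := hl.bddBelow_range
    obtain ⟨Cr, hCr⟩ := hr.bddAbove_range
    have hmem : ∀ n, p n ∈ Set.Icc (Cl, Cl) (Cr, Cr) := by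
      intro n
      have h1 : Cl ≤ l n := hCl ⟨n, rfl⟩
      have h2 : r n ≤ Cr := hCr ⟨n, rfl⟩
      have h3 := (hlen _ (hp n)).1
      have h4 := hp1 n
      have h5 := hp2 n
      refine ⟨⟨?_, ?_⟩, ⟨?_, ?_⟩⟩ <;> simp <;> linarith
    obtain ⟨q, -, φ, hφ, hq⟩ := (isCompact_Icc (a := ((Cl, Cl) : ℝ × ℝ)) (b := (Cr, Cr))).tendsto_subseq hmem
    obtain ⟨p', hp', h1, h2⟩ := hC (p ∘ φ) (fun n => hp _) q hq
    refine ⟨p', hp', ?_, ?_⟩
    · have : l0 ≤ q.1 := le_of_tendsto_of_tendsto (hl.comp hφ.tendsto_atTop)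
        ((continuous_fst.tendsto q).comp hq) (Eventually.of_forall fun n => hp1 _)
      linarith
    · have : q.2 ≤ r0 := le_of_tendsto_of_tendsto ((continuous_snd.tendsto q).comp hq)
        (hr.comp hφ.tendsto_atTop) (Eventually.of_forall fun n => hp2 _)
      linarith
  have hmono : ∀ l r l' r', BArc Lf l r → l' ≤ l → r ≤ r' → BArc Lf l' r' := by
    rintro l r l' r' ⟨p, hp, h1, h2⟩ h3 h4
    exact ⟨p, hp, by linarith, by linarith⟩
  have hpos : ∀ l r, BArc Lf l r → l + Real.pi / 3 ≤ r := by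
    rintro l r ⟨p, hp, h1, h2⟩
    have := (hlen _ hp).1
    linarith
  -- existence of arcs to the right of every point
  have hex : ∀ l, ∃ r, BArc Lf l r := by
    intro l
    obtain ⟨p, hp⟩ := hne
    obtain ⟨k, hk⟩ := exists_int_gt ((l - p.1) / (2 * Real.pi))
    refine ⟨p.2 + 2 * Real.pi * k, _, hper p hp k, ?_, le_refl _⟩
    have : (l - p.1) < 2 * Real.pi * k := by
      rw [div_lt_iff₀ (by positivity)] at hk
      linarith
    simp only
    linarith
  -- the greedy function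
  have hN : ∀ l, ∃ r, BArc Lf l r ∧ ∀ r', BArc Lf l r' → r ≤ r' := by
    intro l
    have hbdd : BddBelow {r | BArc Lf l r} := ⟨l + Real.pi / 3, fun r hr => hpos l r hr⟩
    have hne' : {r | BArc Lf l r}.Nonempty := hex l
    obtain ⟨v, hv⟩ := exists_seq_tendsto_sInf hne' hbdd
    refine ⟨sInf {r | BArc Lf l r}, ?_, fun r' hr' => csInf_le hbdd hr'⟩
    exact hcl (fun _ => l) v l _ tendsto_const_nhds hv.2.1 (fun n => hv.2.2 n)
  choose N hN1 hN2 using hN
  -- left continuity in the form: not B l r => not B l' r for some l' < l, l' > c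
  have hleft : ∀ l r c, c < l → ¬ BArc Lf l r → ∃ l', c < l' ∧ l' < l ∧ ¬ BArc Lf l' r := by
    intro l r c hc hB
    by_contra hcon
    push Not at hcon
    apply hB
    -- sequence l' → l from the left
    have : ∃ v : ℕ → ℝ, (∀ n, c < v n ∧ v n < l) ∧ Tendsto v atTop (𝓝 l) := by
      obtain ⟨v, hv1, hv2, hv3⟩ := exists_seq_strictMono_tendsto' hc
      exact ⟨v, fun n => ⟨(hv2 n).1, (hv2 n).2⟩, hv3⟩
    obtain ⟨v, hv1, hv2⟩ := this
    exact hcl v (fun _ => r) l r hv2 tendsto_const_nhds (fun n => hcon _ (hv1 n).1 (hv1 n).2)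
  set q1 := N 0 with hq1
  set q2 := N q1 with hq2
  set q3 := N q2 with hq3
  set q4 := N q3 with hq4
  set q5 := N q4 with hq5
  have e1 : 0 + Real.pi / 3 ≤ q1 := hpos _ _ (hN1 0)
  have e2 : q1 + Real.pi / 3 ≤ q2 := hpos _ _ (hN1 q1)
  have e3 : q2 + Real.pi / 3 ≤ q3 := hpos _ _ (hN1 q2)
  have e4 : q3 + Real.pi / 3 ≤ q4 := hpos _ _ (hN1 q3)
  rcases le_or_gt q5 (2 * Real.pi) with h5 | h5
  · right
    obtain ⟨p0, hp0, a0, b0⟩ := hN1 0
    obtain ⟨p1, hp1, a1, b1⟩ := hN1 q1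
    obtain ⟨p2, hp2, a2, b2⟩ := hN1 q2
    obtain ⟨p3, hp3, a3, b3⟩ := hN1 q3
    obtain ⟨p4, hp4, a4, b4⟩ := hN1 q4
    refine ⟨![p0, p1, p2, p3, p4], ?_, ?_⟩
    · intro i
      fin_cases i <;> simpa
    · refine ⟨?_, ?_, ?_, ?_, ?_⟩ <;> simp <;> linarith
  · left
    have n4 : ¬ BArc Lf q4 (2 * Real.pi) := fun h => by
      have := hN2 q4 _ h
      linarith
    obtain ⟨c4, c4a, c4b, c4c⟩ := hleft q4 (2 * Real.pi) q3 (by linarith) n4
    have n3 : ¬ BArc Lf q3 c4 := fun h => by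
      have := hN2 q3 _ h
      linarith
    obtain ⟨c3, c3a, c3b, c3c⟩ := hleft q3 c4 q2 (by linarith) n3
    have n2 : ¬ BArc Lf q2 c3 := fun h => by
      have := hN2 q2 _ h
      linarith
    obtain ⟨c2, c2a, c2b, c2c⟩ := hleft q2 c3 q1 (by linarith) n2
    have n1 : ¬ BArc Lf q1 c2 := fun h => by
      have := hN2 q1 _ h
      linarith
    obtain ⟨c1, c1a, c1b, c1c⟩ := hleft q1 c2 0 (by linarith) n1
    have n0 : ¬ BArc Lf 0 c1 := fun h => by
      have := hN2 0 _ h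
      linarith
    refine ⟨![0, c1, c2, c3, c4], ?_⟩
    intro a ha
    by_contra hcon
    push Not at hcon
    -- shift a so that a.1 in [0, 2 pi)
    obtain ⟨k, hk1, hk2⟩ : ∃ k : ℤ, 0 ≤ a.1 + 2 * Real.pi * k ∧ a.1 + 2 * Real.pi * k < 2 * Real.pi := by
      refine ⟨-⌊a.1 / (2 * Real.pi)⌋, ?_, ?_⟩
      · have := Int.floor_le (a.1 / (2 * Real.pi))
        rw [le_div_iff₀ (by positivity)] at this
        push_cast
        nlinarith
      · have := Int.lt_floor_add_one (a.1 / (2 * Real.pi))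
        rw [div_lt_iff₀ (by positivity)] at this
        push_cast
        nlinarith
    have hb := hper a ha k
    set l := a.1 + 2 * Real.pi * k with hl
    set r := a.2 + 2 * Real.pi * k with hr
    have hlenb := (hlen _ ha).1
    -- no point strictly inside (l, r)
    have hno : ∀ i : Fin 5, ∀ m : ℤ, l < ![0, c1, c2, c3, c4] i + 2 * Real.pi * m →
        r ≤ ![0, c1, c2, c3, c4] i + 2 * Real.pi * m := by
      intro i m h
      have := hcon i (m - k) (by push_cast; rw [hl] at h; linarith)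
      push_cast at this
      rw [hr]
      linarith
    have hB : ∀ s t, s ≤ l → r ≤ t → BArc Lf s t := fun s t h1 h2 => ⟨_, hb, h1, h2⟩
    rcases lt_or_ge l c1 with h1 | h1
    · have := hno 1 0 (by simpa using h1)
      exact n0 (hB _ _ hk1 (by simpa using this))
    rcases lt_or_ge l c2 with h2 | h2
    · have := hno 2 0 (by simpa using h2)
      exact c1c (hB _ _ h1 (by simpa using this))
    rcases lt_or_ge l c3 with h3 | h3
    · have := hno 3 0 (by simpa using h3)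
      exact c2c (hB _ _ h2 (by simpa using this))
    rcases lt_or_ge l c4 with h4 | h4
    · have := hno 4 0 (by simpa using h4)
      exact c3c (hB _ _ h3 (by simpa using this))
    · have := hno 0 1 (by simpa using hk2)
      exact c4c (hB _ _ h4 (by simpa using this))

end Pool.Agent.Lib.MP_5e7226_co.RT
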