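import Pool.Agent.Lib.MP_5e7226_co.RT.IIDefs
import Pool.Agent.Lib.MP_5e7226_co.RT.Pierce

set_option autoImplicit false

open Set Filter Topology

namespace Pool.Agent.Lib.MP_5e7226_co.RT

theorem eA_lift (t : ℝ) (k : ℤ) : eA (t + 2 * Real.pi * k) = eA t := by
  apply Complex.ext
  · have := Real.cos_add_int_mul_two_pi t k
    simp only [eA_re]
    rw [← this]; ring_nf
  · have := Real.sin_add_int_mul_two_pi t k
    simp only [eA_im]
    rw [← this]; ring_nf

theorem eA_eq {s t : ℝ} (h : eA s = eA t) : ∃ k : ℤ, s = t + 2 * Real.pi * k := by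
  have h1 : Real.cos s = Real.cos t := by simpa using congrArg Complex.re h
  have h2 : Real.sin s = Real.sin t := by simpa using congrArg Complex.im h
  have h3 : Real.cos (s - t) = 1 := by
    rw [Real.cos_sub, h1, h2]
    nlinarith [Real.sin_sq_add_cos_sq t]
  obtain ⟨k, hk⟩ := (Real.cos_eq_one_iff _).1 h3
  exact ⟨k, by linarith⟩

theorem fan_lift {K : Set Q3} {t r z a b al be h : ℝ} (F : Fan K t r z a b al be h) (k : ℤ) :
    Fan K (t + 2 * Real.pi * k) r z (a + 2 * Real.pi * k) (b + 2 * Real.pi * k) al be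
      (h + 2 * Real.pi * k) := by
  obtain ⟨h0, h1, h2, h3, h4, h5, h6, h7, h8, h9⟩ := F
  refine ⟨h0, ?_, ?_, ?_, ?_, by linarith, by linarith, by linarith, by linarith, ?_⟩
  · rwa [eA_lift]
  · rw [eA_lift, eA_lift]; exact h2
  · rw [eA_lift, eA_lift]; exact h3
  · rw [eA_lift, eA_lift]; exact h4
  · intro n hn
    rw [eA_lift] at hn
    obtain ⟨s, th, hs, ha, hb, he⟩ := h9 n hn
    exact ⟨s, th + 2 * Real.pi * k, hs, by linarith, by linarith, by rw [eA_lift]; exact he⟩

theorem continuous_eA' : Continuous eA := by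
  have : eA = fun t : ℝ => Complex.exp (t * Complex.I) := by
    funext t; exact eA_eq_exp t
  rw [this]
  fun_prop

theorem continuous_dotC' : Continuous fun p : ℂ × ℂ => dotC p.1 p.2 := by
  unfold dotC
  fun_prop

theorem continuous_prF : Continuous fun p : Q3 × Q3 => pr p.1 p.2 := by
  unfold pr dotC
  fun_prop

/-- limits of normals are normals -/
theorem nm_limit {K : Set Q3} {x n : ℕ → Q3} {x0 n0 : Q3} (hx : Tendsto x atTop (𝓝 x0))
    (hn : Tendsto n atTop (𝓝 n0)) (h0 : n0 ≠ 0) (h : ∀ i, Nm K (x i) (n i)) : Nm K x0 n0 := by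
  refine ⟨h0, fun y hy => ?_⟩
  have h1 : Tendsto (fun i => pr (n i) y) atTop (𝓝 (pr n0 y)) :=
    (continuous_prF.tendsto (n0, y)).comp (hn.prodMk_nhds tendsto_const_nhds)
  have h2 : Tendsto (fun i => pr (n i) (x i)) atTop (𝓝 (pr n0 x0)) :=
    (continuous_prF.tendsto (n0, x0)).comp (hn.prodMk_nhds hx)
  exact le_of_tendsto_of_tendsto h1 h2 (Eventually.of_forall fun i => (h i).2 y hy)

theorem Nm.smul {K : Set Q3} {x n : Q3} (h : Nm K x n) {c : ℝ} (hc : 0 < c) :
    Nm K x (((c : ℂ) * n.1, c * n.2) : Q3) := by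
  refine ⟨?_, fun y hy => ?_⟩
  · intro h0
    apply h.1
    have h1 := congrArg Prod.fst h0
    have h2 := congrArg Prod.snd h0
    simp only [Prod.fst_zero, Prod.snd_zero, mul_eq_zero, Complex.ofReal_eq_zero] at h1 h2
    have e1 : n.1 = 0 := by
      rcases h1 with h1 | h1
      · exact absurd h1 hc.ne'
      · exact h1
    have e2 : n.2 = 0 := by
      rcases h2 with h2 | h2
      · exact absurd h2 hc.ne'
      · exact h2
    exact Prod.ext e1 e2
  · have := h.2 y hy
    unfold pr at *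
    simp only [dotC_ofReal_left]
    nlinarith

/-- the limit of an angle of normals at points converging to a fan point is in the fan. -/
theorem angle_limit {K : Set Q3} {x : ℕ → Q3} {x0 : Q3} (hx : Tendsto x atTop (𝓝 x0))
    {a al : ℕ → ℝ} {a0 : ℝ} (ha : Tendsto a atTop (𝓝 a0)) (hn : ∀ i, Nm K (x i) (eA (a i), al i))
    (hnv : ∀ n, Nm K x0 n → n.1 ≠ 0) : ∃ c d : ℝ, 0 < c ∧ Nm K x0 ((c : ℂ) * eA a0, d) := by
  set c : ℕ → ℝ := fun i => (Real.sqrt (1 + al i ^ 2))⁻¹ with hc
  have hcpos : ∀ i, 0 < c i := fun i => by rw [hc]; positivity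
  have hsq : ∀ i, (c i) ^ 2 + (c i * al i) ^ 2 = 1 := by
    intro i
    have h1 : 0 < Real.sqrt (1 + al i ^ 2) := by positivity
    have h2 : Real.sqrt (1 + al i ^ 2) ^ 2 = 1 + al i ^ 2 := Real.sq_sqrt (by positivity)
    rw [hc]
    field_simp
    linarith
  have hmem : ∀ i, (c i, c i * al i) ∈ Set.Icc ((-1, -1) : ℝ × ℝ) (1, 1) := by
    intro i
    have h1 := hsq i
    have h2 := abs_le_of_sq_le_sq' (a := c i) (b := 1) (by nlinarith [sq_nonneg (c i * al i)]) zero_le_one
    have h3 := abs_le_of_sq_le_sq' (a := c i * al i) (b := 1) (by nlinarith [sq_nonneg (c i)]) zero_le_one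
    exact ⟨⟨h2.1, h3.1⟩, ⟨h2.2, h3.2⟩⟩
  obtain ⟨q, -, φ, hφ, hq⟩ := (isCompact_Icc (a := ((-1, -1) : ℝ × ℝ)) (b := (1, 1))).tendsto_subseq hmem
  have hq1 : Tendsto (fun i => c (φ i)) atTop (𝓝 q.1) := (continuous_fst.tendsto q).comp hq
  have hq2 : Tendsto (fun i => c (φ i) * al (φ i)) atTop (𝓝 q.2) := (continuous_snd.tendsto q).comp hq
  have hqs : q.1 ^ 2 + q.2 ^ 2 = 1 := by
    have h1 : Tendsto (fun i => (c (φ i)) ^ 2 + (c (φ i) * al (φ i)) ^ 2) atTop (𝓝 (q.1 ^ 2 + q.2 ^ 2)) :=
      (hq1.pow 2).add (hq2.pow 2)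
    have h2 : (fun i => (c (φ i)) ^ 2 + (c (φ i) * al (φ i)) ^ 2) = fun _ => (1 : ℝ) := by
      funext i; exact hsq _
    rw [h2] at h1
    exact (tendsto_nhds_unique h1 tendsto_const_nhds)
  have hq0 : 0 ≤ q.1 := ge_of_tendsto' hq1 fun i => (hcpos _).le
  have hlim : Tendsto (fun i => (((c (φ i) : ℂ) * eA (a (φ i)), c (φ i) * al (φ i)) : Q3)) atTop
      (𝓝 ((q.1 : ℂ) * eA a0, q.2)) := by
    refine Tendsto.prodMk_nhds ?_ hq2
    refine Tendsto.mul ?_ ?_
    · exact (Complex.continuous_ofReal.tendsto _).comp hq1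
    · exact (continuous_eA'.tendsto _).comp (ha.comp hφ.tendsto_atTop)
  have hne : (((q.1 : ℂ) * eA a0, q.2) : Q3) ≠ 0 := by
    intro h0
    have h1 := congrArg Prod.fst h0
    have h2 := congrArg Prod.snd h0
    simp only [Prod.fst_zero, Prod.snd_zero, mul_eq_zero, Complex.ofReal_eq_zero] at h1 h2
    have e1 : q.1 = 0 := by
      rcases h1 with h1 | h1
      · exact h1
      · exact absurd h1 (eA_ne_zero _)
    rw [e1, h2] at hqs
    norm_num at hqs
  have hN : Nm K x0 (((q.1 : ℂ) * eA a0, q.2) : Q3) := by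
    refine nm_limit (hx.comp hφ.tendsto_atTop) hlim hne (fun i => ?_)
    exact (hn (φ i)).smul (hcpos _)
  refine ⟨q.1, q.2, ?_, hN⟩
  rcases lt_or_eq_of_le hq0 with h | h
  · exact h
  · exfalso
    apply hnv _ hN
    simp [← h]

/-- the lifted arcs of the mixed points -/
def LfK (K : Set Q3) : Set (ℝ × ℝ) :=
  {p | ∃ t r z a b al be h, Fan K t r z a b al be h ∧ p = (b - Real.pi / 2, a + Real.pi / 2)}

theorem LfK_len {K : Set Q3} (p : ℝ × ℝ) (hp : p ∈ LfK K) :
    p.1 + Real.pi / 3 ≤ p.2 ∧ p.2 ≤ p.1 + 2 * Real.pi := by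
  obtain ⟨t, r, z, a, b, al, be, h, F, rfl⟩ := hp
  have := F.ta
  have := F.bt
  have := F.ah
  have := F.hb
  have := Real.pi_pos
  constructor <;> simp only <;> linarith

theorem LfK_per {K : Set Q3} (p : ℝ × ℝ) (hp : p ∈ LfK K) (k : ℤ) :
    (p.1 + 2 * Real.pi * k, p.2 + 2 * Real.pi * k) ∈ LfK K := by
  obtain ⟨t, r, z, a, b, al, be, h, F, rfl⟩ := hp
  exact ⟨_, _, _, _, _, _, _, _, fan_lift F k, by simp only [Prod.mk.injEq]; constructor <;> ring⟩

theorem LfK_closed {K : Set Q3} (hK : IsCompact K)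
    (hnv : ∀ x, Mx K x → ∀ n, Nm K x n → n.1 ≠ 0)
    (rowa : ∀ x, Mx K x → ∃ t r z a b al be h : ℝ, x = (((r : ℂ) * eA t, z) : Q3) ∧
      Fan K t r z a b al be h)
    (u : ℕ → ℝ × ℝ) (hu : ∀ n, u n ∈ LfK K) (q : ℝ × ℝ) (hq : Tendsto u atTop (𝓝 q)) :
    ∃ p ∈ LfK K, q.1 ≤ p.1 ∧ p.2 ≤ q.2 := by
  have hpi := Real.pi_pos
  choose t r z a b al be h F hu' using hu
  have hb : Tendsto b atTop (𝓝 (q.1 + Real.pi / 2)) := by
    have h1 : Tendsto (fun n => (u n).1 + Real.pi / 2) atTop (𝓝 (q.1 + Real.pi / 2)) :=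
      ((continuous_fst.tendsto q).comp hq).add_const _
    refine h1.congr fun n => ?_
    rw [hu' n]; simp
  have ha : Tendsto a atTop (𝓝 (q.2 - Real.pi / 2)) := by
    have h1 : Tendsto (fun n => (u n).2 - Real.pi / 2) atTop (𝓝 (q.2 - Real.pi / 2)) :=
      ((continuous_snd.tendsto q).comp hq).sub_const _
    refine h1.congr fun n => ?_
    rw [hu' n]; simp
  obtain ⟨Ca, hCa⟩ := ha.bddBelow_range
  obtain ⟨Cb, hCb⟩ := hb.bddAbove_range
  have hCa' : ∀ n, Ca ≤ a n := fun n => hCa ⟨n, rfl⟩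
  have hCb' : ∀ n, b n ≤ Cb := fun n => hCb ⟨n, rfl⟩
  -- subsequence for x, t, h
  have hmem : ∀ n, ((((r n : ℂ) * eA (t n), z n) : Q3), (t n, h n)) ∈
      K ×ˢ Set.Icc ((Ca - Real.pi, Ca) : ℝ × ℝ) (Cb + Real.pi, Cb) := by
    intro n
    have f1 := (F n).ta
    have f2 := (F n).bt
    have f3 := (F n).ah
    have f4 := (F n).hb
    have f5 := hCa' n
    have f6 := hCb' n
    exact ⟨(F n).mem, ⟨⟨by simp only; linarith, by simp only; linarith⟩, ⟨by simp only; linarith, by simp only; linarith⟩⟩⟩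
  obtain ⟨w, hw, φ, hφ, hlim⟩ := (hK.prod isCompact_Icc).tendsto_subseq hmem
  obtain ⟨x0, t0, h0⟩ := w
  have hx : Tendsto (fun n => (((r (φ n) : ℂ) * eA (t (φ n)), z (φ n)) : Q3)) atTop (𝓝 x0) :=
    (continuous_fst.tendsto _).comp hlim
  have ht : Tendsto (fun n => t (φ n)) atTop (𝓝 t0) :=
    ((continuous_fst.comp continuous_snd).tendsto _).comp hlim
  have hh : Tendsto (fun n => h (φ n)) atTop (𝓝 h0) :=
    ((continuous_snd.comp continuous_snd).tendsto _).comp hlim
  have hMx : Mx K x0 := by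
    refine ⟨hw.1, eA h0, ?_⟩
    refine nm_limit hx (n := fun n => ((eA (h (φ n)), 0) : Q3)) ?_ ?_ (fun n => (F (φ n)).nh)
    · exact ((continuous_eA'.tendsto _).comp hh).prodMk_nhds tendsto_const_nhds
    · intro h00
      exact eA_ne_zero h0 (congrArg Prod.fst h00)
  obtain ⟨t1, r1, z1, a1, b1, al1, be1, h1, hx1, F1⟩ := rowa x0 hMx
  -- the angle t1 agrees with t0 modulo 2 pi
  have hrlim : Tendsto (fun n => r (φ n)) atTop (𝓝 r1) := by
    have e1 : Tendsto (fun n => ‖(((r (φ n) : ℂ) * eA (t (φ n)), z (φ n)) : Q3).1‖) atTop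
        (𝓝 ‖x0.1‖) := ((continuous_norm.comp continuous_fst).tendsto _).comp hx
    have e2 : ‖x0.1‖ = r1 := by
      rw [hx1]
      simp only [norm_mul, norm_eA, mul_one, Complex.norm_real, Real.norm_eq_abs]
      exact abs_of_pos F1.rpos
    rw [e2] at e1
    refine e1.congr fun n => ?_
    simp only [norm_mul, norm_eA, mul_one, Complex.norm_real, Real.norm_eq_abs]
    exact abs_of_pos (F (φ n)).rpos
  have heq : eA t1 = eA t0 := by
    have e1 : Tendsto (fun n => ((r (φ n) : ℂ) * eA (t (φ n)))) atTop (𝓝 ((r1 : ℂ) * eA t0)) :=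
      ((Complex.continuous_ofReal.tendsto _).comp hrlim).mul ((continuous_eA'.tendsto _).comp ht)
    have e2 : Tendsto (fun n => ((r (φ n) : ℂ) * eA (t (φ n)))) atTop (𝓝 x0.1) :=
      (continuous_fst.tendsto _).comp hx
    have e3 := tendsto_nhds_unique e1 e2
    rw [hx1] at e3
    simp only at e3
    have hr1 : (r1 : ℂ) ≠ 0 := by exact_mod_cast F1.rpos.ne'
    exact (mul_left_cancel₀ hr1 e3).symm
  obtain ⟨k, hk⟩ := eA_eq heq.symm
  have F2 := fan_lift F1 k
  rw [← hk] at F2
  have hxx : x0 = (((r1 : ℂ) * eA t0, z1) : Q3) := by rw [hx1, heq]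
  refine ⟨(b1 + 2 * Real.pi * k - Real.pi / 2, a1 + 2 * Real.pi * k + Real.pi / 2),
    ⟨_, _, _, _, _, _, _, _, F2, rfl⟩, ?_, ?_⟩
  · -- b
    obtain ⟨c, d, hc, hcd⟩ := angle_limit hx (hb.comp hφ.tendsto_atTop)
      (fun n => (F (φ n)).nb) (hnv x0 hMx)
    rw [hxx] at hcd
    obtain ⟨s, th, hs, hth1, hth2, he⟩ := F2.all _ hcd
    simp only at he
    have hcs : c = s := by
      have := congrArg norm he
      simpa [norm_mul, norm_eA, abs_of_pos hc, abs_of_pos hs] using this
    have he' : eA (q.1 + Real.pi / 2) = eA th := by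
      rw [hcs] at he
      have : (s : ℂ) ≠ 0 := by exact_mod_cast hs.ne'
      exact mul_left_cancel₀ this he
    obtain ⟨m, hm⟩ := eA_eq he'
    have l1 : q.1 + Real.pi / 2 ≤ t0 + Real.pi / 3 :=
      le_of_tendsto_of_tendsto (hb.comp hφ.tendsto_atTop) (ht.add_const _)
        (Eventually.of_forall fun n => (F (φ n)).bt)
    have l2 : t0 - Real.pi / 3 ≤ q.1 + Real.pi / 2 :=
      le_of_tendsto_of_tendsto (ht.sub_const _) (hb.comp hφ.tendsto_atTop)
        (Eventually.of_forall fun n => by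
          have f1 := (F (φ n)).ta
          have f3 := (F (φ n)).ah
          have f4 := (F (φ n)).hb
          simp only [Function.comp]
          linarith)
    have l3 := F2.ta
    have l4 := F2.bt
    have hm0 : m = 0 := by
      have h1 : (-1 : ℝ) < m := by
        by_contra hcon
        push Not at hcon
        nlinarith
      have h2 : (m : ℝ) < 1 := by
        by_contra hcon
        push Not at hcon
        nlinarith
      have h3 : (-1 : ℤ) < m := by exact_mod_cast h1
      have h4 : m < (1 : ℤ) := by exact_mod_cast h2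
      omega
    rw [hm0] at hm
    simp only [Int.cast_zero, mul_zero, add_zero] at hm
    simp only
    linarith
  · -- a
    obtain ⟨c, d, hc, hcd⟩ := angle_limit hx (ha.comp hφ.tendsto_atTop)
      (fun n => (F (φ n)).na) (hnv x0 hMx)
    rw [hxx] at hcd
    obtain ⟨s, th, hs, hth1, hth2, he⟩ := F2.all _ hcd
    simp only at he
    have hcs : c = s := by
      have := congrArg norm he
      simpa [norm_mul, norm_eA, abs_of_pos hc, abs_of_pos hs] using this
    have he' : eA (q.2 - Real.pi / 2) = eA th := by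
      rw [hcs] at he
      have : (s : ℂ) ≠ 0 := by exact_mod_cast hs.ne'
      exact mul_left_cancel₀ this he
    obtain ⟨m, hm⟩ := eA_eq he'
    have l1 : q.2 - Real.pi / 2 ≤ t0 + Real.pi / 3 :=
      le_of_tendsto_of_tendsto (ha.comp hφ.tendsto_atTop) (ht.add_const _)
        (Eventually.of_forall fun n => by
          have f2 := (F (φ n)).bt
          have f3 := (F (φ n)).ah
          have f4 := (F (φ n)).hb
          simp only [Function.comp]
          linarith)
    have l2 : t0 - Real.pi / 3 ≤ q.2 - Real.pi / 2 :=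
      le_of_tendsto_of_tendsto (ht.sub_const _) (ha.comp hφ.tendsto_atTop)
        (Eventually.of_forall fun n => (F (φ n)).ta)
    have l3 := F2.ta
    have l4 := F2.bt
    have hm0 : m = 0 := by
      have h1 : (-1 : ℝ) < m := by
        by_contra hcon
        push Not at hcon
        nlinarith
      have h2 : (m : ℝ) < 1 := by
        by_contra hcon
        push Not at hcon
        nlinarith
      have h3 : (-1 : ℤ) < m := by exact_mod_cast h1
      have h4 : m < (1 : ℤ) := by exact_mod_cast h2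
      omega
    rw [hm0] at hm
    simp only [Int.cast_zero, mul_zero, add_zero] at hm
    simp only
    linarith

/-- at a point of `K`: all normals up, all normals down, or mixed. -/
theorem trich' {K : Set Q3} (h0 : (interior K).Nonempty) {x : Q3} (hx : x ∈ K) :
    Sv K x (0, 1) ∨ Sv K x (0, -1) ∨ Mx K x := by
  by_cases hM : Mx K x
  · exact Or.inr (Or.inr hM)
  have hne : ∀ n, Nm K x n → n.2 ≠ 0 := by
    intro n hn h
    apply hM
    refine ⟨hx, n.1, ?_⟩
    have : ((n.1, 0) : Q3) = n := Prod.ext rfl h.symm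
    rw [this]; exact hn
  by_cases hup : ∀ n, Nm K x n → 0 < n.2
  · left
    intro n hn
    have := hup n hn
    simp [pr, dotC]
    exact this
  push Not at hup
  obtain ⟨n1, hn1, hn1'⟩ := hup
  have hn1neg : n1.2 < 0 := lt_of_le_of_ne hn1' (hne n1 hn1)
  right; left
  intro n hn
  rcases lt_or_gt_of_ne (hne n hn) with h | h
  · simp [pr, dotC]
    exact h
  · exfalso
    -- combine n and n1
    set m : ℂ := ((-n1.2 : ℝ) : ℂ) * n.1 + ((n.2 : ℝ) : ℂ) * n1.1 with hm
    have hin : ∀ y ∈ K, dotC m y.1 ≤ dotC m x.1 := by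
      intro y hy
      have e1 := hn.2 y hy
      have e2 := hn1.2 y hy
      unfold pr at e1 e2
      rw [hm, dotC_add_left, dotC_add_left, dotC_ofReal_left, dotC_ofReal_left,
        dotC_ofReal_left, dotC_ofReal_left]
      nlinarith
    by_cases hm0 : m = 0
    · -- then n and n1 are opposite: K in a hyperplane
      have hflat : ∀ y ∈ K, pr n y = pr n x := by
        intro y hy
        have e1 := hn.2 y hy
        have e2 := hn1.2 y hy
        have e3 : dotC m y.1 = 0 := by rw [hm0, dotC_zero_left]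
        have e4 : dotC m x.1 = 0 := by rw [hm0, dotC_zero_left]
        rw [hm, dotC_add_left, dotC_ofReal_left, dotC_ofReal_left] at e3 e4
        unfold pr at e1 e2 ⊢
        apply le_antisymm e1
        -- n.2 * (pr n1 y - pr n1 x) ≤ 0 and relation
        have e5 : n.2 * (dotC n1.1 y.1 + n1.2 * y.2) ≤ n.2 * (dotC n1.1 x.1 + n1.2 * x.2) :=
          mul_le_mul_of_nonneg_left e2 h.le
        have e6 : (-n1.2) * (dotC n.1 x.1 + n.2 * x.2) ≤ (-n1.2) * (dotC n.1 y.1 + n.2 * y.2) := by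
          nlinarith
        exact le_of_mul_le_mul_left e6 (by linarith)
      obtain ⟨p, hp⟩ := h0
      rw [mem_interior_iff_mem_nhds, Metric.mem_nhds_iff] at hp
      obtain ⟨ε, hε, hball⟩ := hp
      have hp0 : p ∈ K := hball (Metric.mem_ball_self hε)
      have hp1 : ((p.1, p.2 + ε / 2) : Q3) ∈ K := by
        apply hball
        rw [Metric.mem_ball, Prod.dist_eq]
        simp [Real.dist_eq, abs_of_pos hε]
        exact hε
      have f1 := hflat _ hp0
      have f2 := hflat _ hp1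
      unfold pr at f1 f2
      simp only at f2
      have : n.2 * (ε / 2) = 0 := by linarith
      have : 0 < n.2 * (ε / 2) := by positivity
      linarith
    · apply hM
      refine ⟨hx, m, ?_, ?_⟩
      · intro h00
        exact hm0 (congrArg Prod.fst h00)
      · intro y hy
        have := hin y hy
        simpa [pr] using this

/-- ROW (b): five horizontal directions and the two poles, or five pairwise disjoint arcs. -/
theorem fan_pierce {K : Set Q3} (hK : RB 3 K) (hnv : ∀ x, Mx K x → ∀ n, Nm K x n → n.1 ≠ 0)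
    (rowa : ∀ x, Mx K x → ∃ t r z a b al be h : ℝ, x = (((r : ℂ) * eA t, z) : Q3) ∧
      Fan K t r z a b al be h) :
    Served K 7 ∨ ∃ t r z a b al be h : Fin 5 → ℝ,
      (∀ i, Fan K (t i) (r i) (z i) (a i) (b i) (al i) (be i) (h i)) ∧
      a 0 + Real.pi ≤ b 1 ∧ a 1 + Real.pi ≤ b 2 ∧ a 2 + Real.pi ≤ b 3 ∧ a 3 + Real.pi ≤ b 4 ∧
      a 4 + Real.pi ≤ b 0 + 2 * Real.pi := by
  have hpi := Real.pi_pos
  have hint : (interior K).Nonempty := ⟨0, hK.zero⟩
  by_cases hne : (LfK K).Nonempty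
  · rcases pierce5 (LfK K) hne LfK_len LfK_per (LfK_closed hK.comp hnv rowa) with hp | hp
    · left
      obtain ⟨p, hp⟩ := hp
      refine ⟨![(eA (p 0), 0), (eA (p 1), 0), (eA (p 2), 0), (eA (p 3), 0), (eA (p 4), 0), (0, 1),
        (0, -1)], ?_⟩
      intro x hx
      rcases trich' hint hx with h | h | h
      · exact ⟨5, h⟩
      · exact ⟨6, h⟩
      · obtain ⟨t, r, z, a, b, al, be, h', hx', F⟩ := rowa x h
        obtain ⟨i, k, h1, h2⟩ := hp _ ⟨t, r, z, a, b, al, be, h', F, rfl⟩
        simp only at h1 h2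
        have hS : Sv K x (eA (p i), 0) := by
          intro n hn
          rw [hx'] at hn
          obtain ⟨s, th, hs, e1, e2, e3⟩ := F.all n hn
          have : pr n (eA (p i), 0) = s * Real.cos (th - (p i + 2 * Real.pi * k)) := by
            unfold pr
            simp only [mul_zero, add_zero]
            rw [e3, dotC_ofReal_left, ← eA_lift (p i) k, dotC_eA]
          rw [this]
          apply mul_pos hs
          apply Real.cos_pos_of_mem_Ioo
          constructor <;> linarith
        fin_cases i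
        · exact ⟨0, hS⟩
        · exact ⟨1, hS⟩
        · exact ⟨2, hS⟩
        · exact ⟨3, hS⟩
        · exact ⟨4, hS⟩
    · right
      obtain ⟨u, hu, h01, h12, h23, h34, h40⟩ := hp
      choose t r z a b al be h F hu' using hu
      refine ⟨t, r, z, a, b, al, be, h, F, ?_⟩
      simp only [hu'] at h01 h12 h23 h34 h40
      refine ⟨by linarith, by linarith, by linarith, by linarith, by linarith⟩
  · left
    refine ⟨![(0, 1), (0, -1), 0, 0, 0, 0, 0], ?_⟩
    intro x hx
    rcases trich' hint hx with h | h | h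
    · exact ⟨0, h⟩
    · exact ⟨1, h⟩
    · exfalso
      obtain ⟨t, r, z, a, b, al, be, h', hx', F⟩ := rowa x h
      exact hne ⟨_, t, r, z, a, b, al, be, h', F, rfl⟩

end Pool.Agent.Lib.MP_5e7226_co.RT
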