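import Mathlib
import Pool.Agent.Lib.MP_5e7226_co.RT.FanC
import Pool.Agent.Lib.MP_5e7226_co.RT.Chain
import Pool.Agent.Lib.MP_5e7226_co.RT.D11
import Pool.Agent.Lib.MP_5e7226_co.RT.D1

/-! # MP_5e7226, E^3 rotations, case (II): assembly -/

set_option autoImplicit false

open Set Filter Topology
open scoped Real

namespace Pool.Agent.Lib.MP_5e7226_co.RT

/-- f2: the case (II). -/
theorem case_II {K : Set Q3} (hK : RB 3 K) {h h' : ℝ} (hT : Top K h) (hB : Bot K h') :
    Served K 7 ∨ Par K := by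
  rcases fan_pierce hK (fun x hx => (mixed_polar hK hT hB hx).2)
    (fun x hx => exists_fan hK hT hB hx) with h1 | ⟨t, r, z, a, b, al, be, η, F, c0, c1, c2, c3, c4⟩
  · exact Or.inl h1
  · obtain ⟨t, r, z, s, r', z', s', hx, hy⟩ := chain_P6 hK F c0 c1 c2 c3 c4
    exact p6_of hK hT hB hx hy (fun K' h h' a b X Y σ τ H => p6_end H)

end Pool.Agent.Lib.MP_5e7226_co.RT
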