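import Pool.Agent.Lib.MP_5e7226_co.RT.R35

/-!
# MP_5e7226, E^3 rotations, case (III), row III.6: the choice of `f`
-/

set_option autoImplicit false

open Set Filter Topology

namespace Pool.Agent.Lib.MP_5e7226_co.RT



lemma r6_cont_eA : Continuous eA := by
  have : eA = fun t : ℝ => Complex.exp (t * Complex.I) := by
    funext t
    exact eA_eq_exp t
  rw [this]
  fun_prop

lemma r6_limit {T : Set ℂ} (hT : IsCompact T) {q : ℕ → ℂ} {u : ℕ → ℝ} {q0 : ℂ} {u0 : ℝ}
    (hq : Tendsto q atTop (𝓝 q0)) (hu : Tendsto u atTop (𝓝 u0))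
    (h : ∀ k, NP T (q k) (eA (u k))) : NP T q0 (eA u0) := by
  have hdot : ∀ {f g : ℕ → ℂ} {a b : ℂ}, Tendsto f atTop (𝓝 a) → Tendsto g atTop (𝓝 b) →
      Tendsto (fun k => dotC (f k) (g k)) atTop (𝓝 (dotC a b)) := by
    intro f g a b hf hg
    exact (continuous_dotC.tendsto (a, b)).comp (hf.prodMk_nhds hg)
  have he : Tendsto (fun k => eA (u k)) atTop (𝓝 (eA u0)) := (r6_cont_eA.tendsto u0).comp hu
  refine ⟨hT.isClosed.isSeqClosed (fun k => (h k).1) hq, eA_ne_zero _, fun y hy => ?_⟩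
  exact le_of_tendsto_of_tendsto' (hdot he (tendsto_const_nhds (x := y))) (hdot he hq)
    fun k => (h k).2.2 y hy

lemma r6_closed_Cor {T : Set ℂ} (hT : IsCompact T) (w : ℝ) : IsClosed {u | Cor T u w} := by
  rw [← isSeqClosed_iff_isClosed]
  intro u u0 hu hlim
  choose q h1 h2 using hu
  obtain ⟨q0, _, φ, hφ, hl⟩ := hT.tendsto_subseq fun k => (h1 k).1
  refine ⟨q0, r6_limit hT hl (hlim.comp hφ.tendsto_atTop) fun k => h1 _, ?_⟩
  exact r6_limit hT (u := fun k => u (φ k) + w) hl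
    ((hlim.comp hφ.tendsto_atTop).add_const w) fun k => h2 _

lemma r6_rot {T : Set ℂ} (hT : P3 T) {q m : ℂ} (h : NP T q m) :
    NP T (eA (2 * Real.pi / 3) * q) (eA (2 * Real.pi / 3) * m) := by
  have hw : ‖eA (2 * Real.pi / 3)‖ = 1 := norm_eA _
  refine ⟨hT.rot _ h.1, mul_ne_zero (eA_ne_zero _) h.2.1, fun y hy => ?_⟩
  have h3 : eA (2 * Real.pi / 3) * (eA (2 * Real.pi / 3) * (eA (2 * Real.pi / 3) * y)) = y := by
    rw [← mul_assoc, ← mul_assoc, ← eA_add, ← eA_add]
    have : 2 * Real.pi / 3 + 2 * Real.pi / 3 + 2 * Real.pi / 3 = 2 * Real.pi := by ring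
    rw [this]
    have h4 : eA (2 * Real.pi) = 1 := by
      apply Complex.ext
      · rw [eA_re, Real.cos_two_pi]; rfl
      · rw [eA_im, Real.sin_two_pi]; rfl
    rw [h4, one_mul]
  have h4 := h.2.2 _ (hT.rot _ (hT.rot _ hy))
  rw [← h3, dotC_mul_mul, dotC_mul_mul, hw]
  simp only [one_pow, one_mul]
  exact h4

lemma r6_Cor_rot {T : Set ℂ} (hT : P3 T) {u w : ℝ} (h : Cor T u w) :
    Cor T (u + 2 * Real.pi / 3) w := by
  obtain ⟨q, h1, h2⟩ := h
  refine ⟨eA (2 * Real.pi / 3) * q, ?_, ?_⟩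
  · have := r6_rot hT h1
    rw [← eA_add, add_comm (2 * Real.pi / 3) u] at this
    exact this
  · have := r6_rot hT h2
    rw [← eA_add] at this
    have e : 2 * Real.pi / 3 + (u + w) = u + 2 * Real.pi / 3 + w := by ring
    rw [e] at this
    exact this

/-- a point with a normal is not the origin. -/
lemma r6_ne {T : Set ℂ} (hT : P3 T) {q m : ℂ} (h : NP T q m) : q ≠ 0 := by
  intro hq
  have h1 : ∀ᶠ t : ℝ in 𝓝 0, (t : ℂ) * m ∈ T := by
    have h2 : Continuous (fun t : ℝ => (t : ℂ) * m) := by fun_prop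
    have h3 := h2.tendsto 0
    simp only [Complex.ofReal_zero, zero_mul] at h3
    exact h3 (mem_interior_iff_mem_nhds.1 hT.zero)
  obtain ⟨ε, hε, hb⟩ := Metric.eventually_nhds_iff.1 h1
  have h2 : ((ε / 2 : ℝ) : ℂ) * m ∈ T := hb (by
    rw [dist_zero_right, Real.norm_eq_abs, abs_of_pos (by positivity)]; linarith)
  have h3 := h.2.2 _ h2
  rw [hq, dotC_zero_right, dotC_ofReal_right, dotC_self] at h3
  have h4 : 0 < ‖m‖ := norm_pos_iff.2 h.2.1
  have : 0 < ε / 2 * ‖m‖ ^ 2 := by positivity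
  linarith

/-- the width of a corner is at most 120 degrees. -/
lemma r6_width {T : Set ℂ} (hT : P3 T) {q : ℂ} {u w : ℝ} (h1 : NP T q (eA u))
    (h2 : NP T q (eA w)) (hu : u < w) (hw : w < u + Real.pi) : w - u ≤ 2 * Real.pi / 3 := by
  have hq := r6_ne hT h1
  obtain ⟨t, ht⟩ := exists_polar 1 q one_ne_zero
  have hr : 0 < ‖q‖ := norm_pos_iff.2 hq
  have ht' : q = (‖q‖ : ℂ) * eA t := by
    have : ((‖q‖ / ‖(1 : ℂ)‖ : ℝ) : ℂ) = (‖q‖ : ℂ) := by simp
    rw [this, one_mul] at ht
    exact ht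
  obtain ⟨c, s, hc, hs, he⟩ := NP_angle hT hr ht' h1
  obtain ⟨c', s', hc', hs', he'⟩ := NP_angle hT hr ht' h2
  have hn : ∀ {c s u : ℝ}, 0 < c → eA u = (c : ℂ) * eA (t + s) → eA u = eA (t + s) := by
    intro c s u hc h
    have h3 := congrArg norm h
    rw [norm_mul, norm_eA, norm_eA, Complex.norm_real, Real.norm_eq_abs, abs_of_pos hc,
      mul_one] at h3
    rw [← h3, Complex.ofReal_one, one_mul] at h
    exact h
  have e1 := hn hc he
  have e2 := hn hc' he'
  have h3 : Real.cos (w - u) = Real.cos (s' - s) := by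
    rw [← dotC_eA, ← dotC_eA, e1, e2, dotC_eA, dotC_eA]
    congr 1
    ring
  have hpi := Real.pi_pos
  have h4 : |s' - s| ≤ 2 * Real.pi / 3 := by
    rw [abs_le] at *
    constructor <;> linarith [hs.1, hs.2, hs'.1, hs'.2]
  by_contra hcon
  push Not at hcon
  have h5 : Real.cos (w - u) < Real.cos (2 * Real.pi / 3) :=
    Real.cos_lt_cos_of_nonneg_of_le_pi (by positivity) (by linarith) hcon
  have h6 : Real.cos (2 * Real.pi / 3) ≤ Real.cos (|s' - s|) :=
    Real.cos_le_cos_of_nonneg_of_le_pi (abs_nonneg _) (by linarith) h4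
  rw [Real.cos_abs] at h6
  linarith

/-- no corner near the last normal of a point. -/
lemma r6_gap {T : Set ℂ} (hT : P3 T) {q : ℂ} {B : ℝ} (hB : NP T q (eA B))
    (hlast : ∀ β, B < β → β < B + Real.pi / 3 → ¬ NP T q (eA β)) {θ : ℝ}
    (h1 : B - Real.pi / 6 < θ) (h2 : θ < B + Real.pi / 6) :
    ¬ Cor T (θ - Real.pi / 6) (Real.pi / 3) := by
  rintro ⟨q', h3, h4⟩
  have hpi := Real.pi_pos
  have e : θ - Real.pi / 6 + Real.pi / 3 = θ + Real.pi / 6 := by ring
  rw [e] at h4
  obtain ⟨_, h5⟩ := Cor_glue hT h3 h4 hB (by linarith) (by linarith) (by linarith)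
  rw [← h5] at h4
  exact hlast _ (by linarith) (by linarith) h4

/-- an interval of corners of width 60 is one corner. -/
lemma r6_long {T : Set ℂ} (hT : P3 T) {c : ℝ}
    (h : ∀ θ, c < θ → θ < c + Real.pi / 3 → Cor T (θ - Real.pi / 6) (Real.pi / 3)) :
    Cor T (c - Real.pi / 6) (2 * Real.pi / 3) := by
  have hpi := Real.pi_pos
  obtain ⟨q, h1, h2⟩ := h (c + Real.pi / 6) (by linarith) (by linarith)
  have e1 : c + Real.pi / 6 - Real.pi / 6 = c := by ring
  rw [e1] at h1 h2
  have hseq : Tendsto (fun k : ℕ => Real.pi / 12 * (1 / ((k : ℝ) + 1))) atTop (𝓝 0) := by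
    have := (tendsto_one_div_add_atTop_nhds_zero_nat (𝕜 := ℝ)).const_mul (Real.pi / 12)
    simpa using this
  have hpos : ∀ k : ℕ, 0 < Real.pi / 12 * (1 / ((k : ℝ) + 1)) := fun k => by positivity
  have hle : ∀ k : ℕ, Real.pi / 12 * (1 / ((k : ℝ) + 1)) ≤ Real.pi / 12 := by
    intro k
    have : 1 / ((k : ℝ) + 1) ≤ 1 := by
      rw [div_le_one (by positivity)]
      have : (0 : ℝ) ≤ k := Nat.cast_nonneg k
      linarith
    nlinarith
  refine ⟨q, ?_, ?_⟩
  · refine r6_limit hT.comp (q := fun _ => q)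
      (u := fun k : ℕ => c - Real.pi / 6 + Real.pi / 12 * (1 / ((k : ℝ) + 1)))
      tendsto_const_nhds (by simpa using hseq.const_add (c - Real.pi / 6)) fun k => ?_
    obtain ⟨q', h3, h4⟩ := h (c + Real.pi / 12 * (1 / ((k : ℝ) + 1))) (by linarith [hpos k])
      (by linarith [hle k])
    have e2 : c + Real.pi / 12 * (1 / ((k : ℝ) + 1)) - Real.pi / 6 + Real.pi / 3 =
      c + Real.pi / 6 + Real.pi / 12 * (1 / ((k : ℝ) + 1)) := by ring
    rw [e2] at h4
    obtain ⟨_, h5⟩ := Cor_glue hT h1 h2 h4 (by linarith [hpos k]) (by linarith [hle k])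
      (by linarith)
    rw [h5] at h3
    have e3 : c + Real.pi / 12 * (1 / ((k : ℝ) + 1)) - Real.pi / 6 =
      c - Real.pi / 6 + Real.pi / 12 * (1 / ((k : ℝ) + 1)) := by ring
    rw [e3] at h3
    exact h3
  · have e4 : c - Real.pi / 6 + 2 * Real.pi / 3 = c + Real.pi / 2 := by ring
    rw [e4]
    refine r6_limit hT.comp (q := fun _ => q)
      (u := fun k : ℕ => c + Real.pi / 2 - Real.pi / 12 * (1 / ((k : ℝ) + 1)))
      tendsto_const_nhds (by simpa using hseq.const_sub (c + Real.pi / 2)) fun k => ?_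
    obtain ⟨q', h3, h4⟩ := h (c + Real.pi / 3 - Real.pi / 12 * (1 / ((k : ℝ) + 1)))
      (by linarith [hle k]) (by linarith [hpos k])
    have e2 : c + Real.pi / 3 - Real.pi / 12 * (1 / ((k : ℝ) + 1)) - Real.pi / 6 =
      c + Real.pi / 6 - Real.pi / 12 * (1 / ((k : ℝ) + 1)) := by ring
    rw [e2] at h3 h4
    obtain ⟨_, h5⟩ := Cor_glue hT h1 h2 h3 (by linarith [hle k]) (by linarith [hpos k])
      (by linarith)
    rw [h5] at h4
    have e3 : c + Real.pi / 6 - Real.pi / 12 * (1 / ((k : ℝ) + 1)) + Real.pi / 3 =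
      c + Real.pi / 2 - Real.pi / 12 * (1 / ((k : ℝ) + 1)) := by ring
    rw [e3] at h4
    exact h4

/-- the last normal of a corner. -/
lemma r6_last {T : Set ℂ} (hT : P3 T) {u : ℝ} (h : Cor T u (Real.pi / 3)) :
    ∃ q B, NP T q (eA B) ∧ ∀ β, B < β → β < B + Real.pi / 3 → ¬ NP T q (eA β) := by
  have hpi := Real.pi_pos
  obtain ⟨q, h1, h2⟩ := h
  set A : Set ℝ := {β | u + Real.pi / 3 ≤ β ∧ β ≤ u + 2 * Real.pi / 3 ∧ NP T q (eA β)} with hA
  have hne : A.Nonempty := ⟨u + Real.pi / 3, le_refl _, by linarith, h2⟩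
  have hclosed : IsClosed A := by
    rw [← isSeqClosed_iff_isClosed]
    intro β β0 hβ hlim
    exact ⟨ge_of_tendsto' hlim fun k => (hβ k).1, le_of_tendsto' hlim fun k => (hβ k).2.1,
      r6_limit hT.comp (q := fun _ => q) tendsto_const_nhds hlim fun k => (hβ k).2.2⟩
  have hbdd : BddAbove A := ⟨u + 2 * Real.pi / 3, fun β hβ => hβ.2.1⟩
  have hmem : sSup A ∈ A := hclosed.csSup_mem hne hbdd
  refine ⟨q, sSup A, hmem.2.2, fun β hβ hβ' hN => ?_⟩
  have h3 : β < u + Real.pi := by linarith [hmem.2.1]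
  have h4 := r6_width hT h1 hN (by linarith [hmem.1]) h3
  have h5 : β ∈ A := ⟨by linarith [hmem.1], by linarith, hN⟩
  have h6 := le_csSup hbdd h5
  linarith

theorem choice {T S : Set ℂ} (hT : P3 T) (hS : P3 S) :
    (∃ a b, a < b ∧ ∀ f, a < f → f < b → GoodP T f ∧ GoodP S (f + Real.pi / 3)) ∨
    ∃ u, Cor T u (2 * Real.pi / 3) ∧ Cor S u (2 * Real.pi / 3) := by
  have hpi := Real.pi_pos
  by_cases hex : ∃ f0, ¬ Cor T (f0 + Real.pi / 6) (Real.pi / 3) ∧
      ¬ Cor S (f0 + Real.pi / 2) (Real.pi / 3)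
  · left
    obtain ⟨f0, h1, h2⟩ := hex
    have hU1 : ∀ᶠ f in 𝓝 f0, ¬ Cor T (f + Real.pi / 6) (Real.pi / 3) := by
      have h3 : IsOpen {f : ℝ | ¬ Cor T (f + Real.pi / 6) (Real.pi / 3)} :=
        ((r6_closed_Cor hT.comp (Real.pi / 3)).preimage
          (continuous_id.add (continuous_const (y := Real.pi / 6)))).isOpen_compl
      exact h3.mem_nhds h1
    have hU2 : ∀ᶠ f in 𝓝 f0, ¬ Cor S (f + Real.pi / 2) (Real.pi / 3) := by
      have h3 : IsOpen {f : ℝ | ¬ Cor S (f + Real.pi / 2) (Real.pi / 3)} :=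
        ((r6_closed_Cor hS.comp (Real.pi / 3)).preimage
          (continuous_id.add (continuous_const (y := Real.pi / 2)))).isOpen_compl
      exact h3.mem_nhds h2
    obtain ⟨ε, hε, hb⟩ := Metric.eventually_nhds_iff.1 (hU1.and hU2)
    refine ⟨f0 - ε, f0 + ε, by linarith, fun f hf hf' => ?_⟩
    obtain ⟨h3, h4⟩ := hb (y := f) (by
      rw [Real.dist_eq, abs_lt]
      constructor <;> linarith)
    refine ⟨(good_or_bad hT f).resolve_right h3, (good_or_bad hS _).resolve_right ?_⟩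
    have e : f + Real.pi / 3 + Real.pi / 6 = f + Real.pi / 2 := by ring
    rw [e]
    exact h4
  · right
    push Not at hex
    -- `MT (f + π/3)` or `MS f`
    have hall : ∀ f, Cor T (f + Real.pi / 3 - Real.pi / 6) (Real.pi / 3) ∨
        Cor S (f - Real.pi / 6) (Real.pi / 3) := by
      intro f
      by_cases h : Cor T (f + Real.pi / 3 - Real.pi / 6) (Real.pi / 3)
      · exact Or.inl h
      · right
        have h1 := hex (f - 2 * Real.pi / 3)
        by_contra h2
        have h3 := hex f (by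
          have e : f + Real.pi / 3 - Real.pi / 6 = f + Real.pi / 6 := by ring
          rw [e] at h
          exact h)
        -- `Cor S (f + π/2)`: rotate twice more
        have h4 := r6_Cor_rot hS (r6_Cor_rot hS h3)
        obtain ⟨q, h5, h6⟩ := h4
        apply h2
        have per : ∀ s : ℝ, eA (s + 2 * Real.pi) = eA s := by
          intro s
          apply Complex.ext
          · rw [eA_re, eA_re, Real.cos_add_two_pi]
          · rw [eA_im, eA_im, Real.sin_add_two_pi]
        refine ⟨q, ?_, ?_⟩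
        · have e : f + Real.pi / 2 + 2 * Real.pi / 3 + 2 * Real.pi / 3 =
            (f - Real.pi / 6) + 2 * Real.pi := by ring
          rw [e, per] at h5
          exact h5
        · have e : f + Real.pi / 2 + 2 * Real.pi / 3 + 2 * Real.pi / 3 + Real.pi / 3 =
            (f - Real.pi / 6 + Real.pi / 3) + 2 * Real.pi := by ring
          rw [e, per] at h6
          exact h6
    -- the last step, from a gap of `T`
    have key : ∀ B q, NP T q (eA B) → (∀ β, B < β → β < B + Real.pi / 3 → ¬ NP T q (eA β)) →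
        ∃ u, Cor T u (2 * Real.pi / 3) ∧ Cor S u (2 * Real.pi / 3) := by
      intro B q hB hlast
      have hS1 : Cor S ((B - Real.pi / 2) - Real.pi / 6) (2 * Real.pi / 3) := by
        apply r6_long hS
        intro θ h1 h2
        rcases hall θ with h | h
        · exact absurd h (r6_gap hT hB hlast (θ := θ + Real.pi / 3) (by linarith)
            (by linarith))
        · exact h
      obtain ⟨q', h1, h2⟩ := hS1
      have e1 : B - Real.pi / 2 - Real.pi / 6 + 2 * Real.pi / 3 = B := by ring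
      rw [e1] at h2
      have hT1 : Cor T ((B + Real.pi / 6) - Real.pi / 6) (2 * Real.pi / 3) := by
        apply r6_long hT
        intro θ h3 h4
        rcases hall (θ - Real.pi / 3) with h | h
        · have e : θ - Real.pi / 3 + Real.pi / 3 - Real.pi / 6 = θ - Real.pi / 6 := by ring
          rw [e] at h
          exact h
        · refine absurd h (r6_gap hS h2 (fun β h5 h6 h7 => ?_) (by linarith) (by linarith))
          have h8 := r6_width hS h1 h7 (by linarith) (by linarith)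
          linarith
      have e2 : B + Real.pi / 6 - Real.pi / 6 = B := by ring
      rw [e2] at hT1
      refine ⟨B, hT1, ?_⟩
      have h3 : Cor S (B - Real.pi / 2 - Real.pi / 6) (2 * Real.pi / 3) := ⟨q', h1, by
        rw [e1]; exact h2⟩
      have h4 := r6_Cor_rot hS h3
      have e3 : B - Real.pi / 2 - Real.pi / 6 + 2 * Real.pi / 3 = B := by ring
      rw [e3] at h4
      exact h4
    by_cases hMT : ∃ u, Cor T u (Real.pi / 3)
    · obtain ⟨u, hu⟩ := hMT
      obtain ⟨q, B, hB, hlast⟩ := r6_last hT hu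
      exact key B q hB hlast
    · exfalso
      push Not at hMT
      have hMS : ∀ f, Cor S (f - Real.pi / 6) (Real.pi / 3) := fun f =>
        (hall f).resolve_left (hMT _)
      obtain ⟨q, B, hB, hlast⟩ := r6_last hS (hMS 0)
      exact r6_gap hS hB hlast (θ := B) (by linarith) (by linarith) (hMS B)

end Pool.Agent.Lib.MP_5e7226_co.RT
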