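import Pool.Agent.Lib.MP_5e7226_co.RT.R311

set_option autoImplicit false

open Set Filter Topology

namespace Pool.Agent.Lib.MP_5e7226_co.RT

/-- served by one of the six horizontal directions. -/
def G6 (K : Set Q3) (s : ℝ) (x : Q3) : Prop :=
  (∃ j, Sv K x (eA (tw (Real.pi / 6 - s) j), 0)) ∨
    ∃ j, Sv K x (eA (tw (-(Real.pi / 6) + s) j), 0)

lemma r311_svrot {K : Set Q3} (hK : RB 3 K) {x : Q3} {a : ℝ}
    (h : ∃ j, Sv K (eA (2 * Real.pi / 3) * x.1, x.2) (eA (tw a j), 0)) :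
    ∃ j, Sv K x (eA (tw a j), 0) := by
  obtain ⟨j, hj⟩ := h
  have e1 : tw a j = 2 * Real.pi / 3 + (a + ((j : ℕ) - 1 : ℤ) * (2 * Real.pi / 3)) := by
    simp only [tw]; push_cast; ring
  obtain ⟨i, hi⟩ := r35_tw a ((j : ℕ) - 1 : ℤ)
  refine ⟨i, fun n hn => ?_⟩
  have := hj _ (r34_nmrot hK hn)
  simp only [pr] at this ⊢
  rw [e1, eA_add, dotC_mul_mul, norm_eA, ← hi] at this
  linarith

lemma r311_grot {K : Set Q3} (hK : RB 3 K) {s : ℝ} {x : Q3}
    (h : G6 K s (eA (2 * Real.pi / 3) * x.1, x.2)) : G6 K s x := by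
  rcases h with h | h
  · exact Or.inl (r311_svrot hK h)
  · exact Or.inr (r311_svrot hK h)

lemma r311_main {K : Set Q3} {h h' : ℝ} (H : Prism K h h' 1) {x : Q3}
    (h1 : -h' < x.2) (h2 : x.2 < h) (hZ : dotC (vt 1 2) x.1 ≤ -(1 / 2))
    (hX : -(1 / 2) ≤ dotC (vt 1 0) x.1) (hY : -(1 / 2) ≤ dotC (vt 1 1) x.1)
    {s δ : ℝ} (hc : 0 < Real.cos s) (hw : 0 < √3 * Real.sin s) (hwc : √3 * Real.sin s < Real.cos s)
    (hm0 : √3 * Real.sin s * (2 / 3 * (dotC (vt 1 0) x.1 + 2 * dotC (vt 1 1) x.1)) <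
      2 * Real.cos s * δ)
    (hm1 : √3 * Real.sin s * (2 / 3 * (dotC (vt 1 1) x.1 + 2 * dotC (vt 1 0) x.1)) <
      2 * Real.cos s * δ)
    (hd : dotC (vt 1 0) x.1 ≤ 1 - δ ∨ dotC (vt 1 1) x.1 ≤ 1 - δ) : G6 K s x := by
  have h3 : 0 < √3 := Real.sqrt_pos.mpr (by norm_num)
  have s2 := r39_sum 1 x.1
  rcases hd with hd | hd
  · right
    refine ⟨1, fun n hn => ?_⟩
    obtain ⟨hn1, hnj⟩ := r311_nm H h1 h2 hn
    have s1 := r39_sum 1 n.1
    have hAB := r311_ne hn1
    simp only [pr]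
    rw [r311_e1]
    have := r311_key (M := dotC n.1 x.1) hc hw hwc (r311_dot n.1 x.1) (hnj 0) (hnj 1)
      (by have := hnj 2; linarith) hAB hX (by linarith)
      (by
        refine hm0.trans_le ?_
        exact mul_le_mul_of_nonneg_left (by linarith) (by linarith))
    have h4 : 0 < 1 / √3 := by positivity
    have := mul_pos h4 this
    linarith
  · left
    refine ⟨0, fun n hn => ?_⟩
    obtain ⟨hn1, hnj⟩ := r311_nm H h1 h2 hn
    have s1 := r39_sum 1 n.1
    have hAB := r311_ne hn1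
    simp only [pr]
    rw [r311_e0]
    have := r311_key (M := dotC n.1 x.1) (X := dotC (vt 1 1) x.1) (Y := dotC (vt 1 0) x.1)
      (A := dotC (vt 1 1) n.1) (B := dotC (vt 1 0) n.1) hc hw hwc
      (by rw [r311_dot n.1 x.1]; ring) (hnj 1) (hnj 0)
      (by have := hnj 2; linarith) hAB.symm hY (by linarith)
      (by
        refine hm1.trans_le ?_
        exact mul_le_mul_of_nonneg_left (by linarith) (by linarith))
    have h4 : 0 < 1 / √3 := by positivity
    have := mul_pos h4 this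
    linarith

/-- pointwise margin. -/
lemma r311_pt {K : Set Q3} {h h' : ℝ} (H : Prism K h h' 1) (hh : -h' < h)
    (hf : ∀ z, ((far, z) : Q3) ∉ K) {x : Q3} (hx : x ∈ K) :
    dotC (vt 1 0) x.1 < 1 ∨ dotC (vt 1 1) x.1 < 1 := by
  by_contra hcon
  push Not at hcon
  obtain ⟨hX, hY⟩ := hcon
  obtain ⟨m, hm0, hm⟩ := H.sup
  have a0 := hm _ hx
  have a2 := hm _ (r34_rotmem H.rb (r34_rotmem H.rb hx))
  have b1 := hm _ (r311_tri_mem H 1 (z := h) (by linarith) le_rfl)
  have b2 := hm _ (r311_tri_mem H 2 (z := h) (by linarith) le_rfl)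
  have e1 : dotC m 1 = dotC (vt 1 0) m := by rw [dotC_comm, r39_vt0]
  rw [e1] at a0 a2 b1 b2
  simp only at a0 a2 b1 b2
  rw [dotC_comm m (vt 1 1)] at b1
  rw [dotC_comm m (vt 1 2)] at b2
  rw [r311_dot m] at a0 a2
  rw [r311_rot0, r311_rot1, r311_rot2, r311_rot0] at a2
  have s1 := r39_sum 1 m
  have s2 := r39_sum 1 x.1
  have hAB := r311_ne hm0
  have key : dotC (vt 1 0) x.1 = 1 ∧ dotC (vt 1 1) x.1 = 1 := by
    generalize dotC (vt 1 0) m = A at *
    generalize dotC (vt 1 1) m = B at *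
    generalize dotC (vt 1 2) m = C at *
    generalize dotC (vt 1 0) x.1 = X at *
    generalize dotC (vt 1 1) x.1 = Y at *
    generalize dotC (vt 1 2) x.1 = Z at *
    have hC : C = -A - B := by linarith
    have hZ : Z = -X - Y := by linarith
    subst hC hZ
    have hA : 0 < A := by
      by_contra hc
      push Not at hc
      have hA0 : A = 0 := by linarith
      have hB0 : B = 0 := by linarith
      rcases hAB with h5 | h5
      · exact h5 hA0
      · exact h5 hB0
    rcases lt_trichotomy (A + 2 * B) 0 with h5 | h5 | h5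
    · exfalso
      nlinarith [mul_pos (by linarith : 0 < 2 * X + Y) (neg_pos.mpr h5),
        mul_nonneg (by linarith : 0 ≤ Y - 1) hA.le]
    · constructor
      · have : B = -A / 2 := by linarith
        subst this
        nlinarith [mul_nonneg (by linarith : 0 ≤ X - 1) hA.le]
      · have : B = -A / 2 := by linarith
        subst this
        nlinarith [mul_nonneg (by linarith : 0 ≤ Y - 1) hA.le]
    · exfalso
      nlinarith [mul_pos (by linarith : 0 < X + 2 * Y) h5,
        mul_nonneg (by linarith : 0 ≤ X - 1) hA.le]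
  apply hf x.2
  have : (far, x.2) = x := by
    apply Prod.ext
    · simp only
      rw [r311_far]
      obtain ⟨k1, k2⟩ := key
      rw [r311_v0] at k1
      rw [r311_v1, k1] at k2
      have h3 : √3 * √3 = 3 := Real.mul_self_sqrt (by norm_num)
      have h3' : √3 ≠ 0 := (Real.sqrt_pos.mpr (by norm_num)).ne'
      apply Complex.ext
      · exact k1.symm
      · have h5 : √3 * (x.1.im - √3) = 0 := by linarith
        have := (mul_eq_zero.mp h5).resolve_left h3'
        simp only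
        linarith
    · rfl
  rw [this]; exact hx

theorem free_margin {K : Set Q3} {h h' : ℝ} (H : Prism K h h' 1) (hf : ∀ z, ((far, z) : Q3) ∉ K) :
    ∃ δ > 0, ∀ x ∈ K, ∀ j : Fin 3, dotC (vt 1 j) x.1 ≤ 1 - δ ∨ dotC (vt 1 (j + 1)) x.1 ≤ 1 - δ := by
  have hh : -h' < h := by
    have a1 := top_pos H.rb.zero H.top
    have a2 := top_pos (RB_fl H.rb).zero H.bot
    linarith
  have hc : ∀ j, Continuous (fun x : Q3 => dotC (vt 1 j) x.1) := by
    intro j
    simp only [dotC]
    fun_prop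
  set g : Q3 → ℝ := fun x => max (min (dotC (vt 1 0) x.1) (dotC (vt 1 1) x.1))
    (max (min (dotC (vt 1 1) x.1) (dotC (vt 1 2) x.1))
      (min (dotC (vt 1 2) x.1) (dotC (vt 1 0) x.1))) with hg
  have hgc : Continuous g := by
    exact ((hc 0).min (hc 1)).max (((hc 1).min (hc 2)).max ((hc 2).min (hc 0)))
  obtain ⟨x0, hx0, hmax⟩ := H.rb.comp.exists_isMaxOn ⟨0, interior_subset H.rb.zero⟩ hgc.continuousOn
  have hlt : ∀ x ∈ K, g x < 1 := by
    intro x hx
    have c0 := r311_pt H hh hf hx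
    have c1 := r311_pt H hh hf (r34_rotmem H.rb hx)
    have c2 := r311_pt H hh hf (r34_rotmem H.rb (r34_rotmem H.rb hx))
    simp only at c1 c2
    rw [r311_rot0, r311_rot1] at c1
    rw [r311_rot0, r311_rot1, r311_rot2, r311_rot0] at c2
    simp only [hg]
    rw [max_lt_iff, max_lt_iff, min_lt_iff, min_lt_iff, min_lt_iff]
    exact ⟨c0, c2, c1⟩
  have hx0' := hlt x0 hx0
  refine ⟨1 - g x0, by linarith, fun x hx j => ?_⟩
  have hle : g x ≤ g x0 := hmax hx
  have hle' : g x ≤ 1 - (1 - g x0) := by linarith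
  simp only [hg] at hle'
  rw [max_le_iff, max_le_iff, min_le_iff, min_le_iff, min_le_iff] at hle'
  obtain ⟨d0, d1, d2⟩ := hle'
  fin_cases j
  · exact d0
  · exact d1
  · exact d2

theorem free_side {K : Set Q3} {h h' : ℝ} (H : Prism K h h' 1) {δ : ℝ} (hδ : 0 < δ)
    (hd : ∀ x ∈ K, ∀ j : Fin 3, dotC (vt 1 j) x.1 ≤ 1 - δ ∨ dotC (vt 1 (j + 1)) x.1 ≤ 1 - δ) :
    ∃ s, 0 < s ∧ s < Real.pi / 12 ∧ ∀ x ∈ K, -h' < x.2 → x.2 < h →
      (∃ j, Sv K x (eA (tw (Real.pi / 6 - s) j), 0)) ∨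
        ∃ j, Sv K x (eA (tw (-(Real.pi / 6) + s) j), 0) := by
  have hh : -h' < h := by
    have a1 := top_pos H.rb.zero H.top
    have a2 := top_pos (RB_fl H.rb).zero H.bot
    linarith
  have hpi := Real.pi_pos
  have hpi3 := Real.pi_lt_d2
  have h3 : 0 < √3 := Real.sqrt_pos.mpr (by norm_num)
  have h32 : √3 < 2 := by
    rw [Real.sqrt_lt' (by norm_num)]; norm_num
  obtain ⟨R, hR⟩ := H.rb.comp.isBounded.exists_norm_le
  have hR0 : 0 ≤ R := (norm_nonneg _).trans (hR 0 (interior_subset H.rb.zero))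
  set s : ℝ := min (Real.pi / 24) (δ / (8 * (R + 1))) with hs
  have hs0 : 0 < s := lt_min (by positivity) (by positivity)
  have hs1 : s ≤ Real.pi / 24 := min_le_left _ _
  have hs2 : s ≤ δ / (8 * (R + 1)) := min_le_right _ _
  have hs3 : s < 0.14 := by
    have : Real.pi / 24 < 0.14 := by linarith
    linarith
  have hsin : Real.sin s ≤ s := (Real.sin_lt hs0).le
  have hsin0 : 0 < Real.sin s := Real.sin_pos_of_pos_of_lt_pi hs0 (by linarith)
  have hcos : 1 / 2 < Real.cos s := by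
    have := Real.one_sub_sq_div_two_le_cos (x := s)
    nlinarith
  have hc : 0 < Real.cos s := by linarith
  have hw : 0 < √3 * Real.sin s := mul_pos h3 hsin0
  have hw2 : √3 * Real.sin s ≤ 2 * s := by nlinarith
  have hwc : √3 * Real.sin s < Real.cos s := by linarith
  have hbd : ∀ x ∈ K, ∀ j, dotC (vt 1 j) x.1 ≤ R := by
    intro x hx j
    have h4 := dotC_le (vt 1 j) x.1
    have h5 : ‖vt 1 j‖ = 1 := by simp [vt, norm_eA]
    rw [h5, one_mul] at h4
    have h6 : ‖x.1‖ ≤ ‖x‖ := norm_fst_le x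
    exact h4.trans (h6.trans (hR x hx))
  have hmu : ∀ b : ℝ, b ≤ 3 * R → √3 * Real.sin s * (2 / 3 * b) < 2 * Real.cos s * δ := by
    intro b hb
    have h4 : √3 * Real.sin s * (2 / 3 * b) ≤ 2 * s * (2 * R) := by
      have h5 : √3 * Real.sin s * (2 / 3 * b) ≤ √3 * Real.sin s * (2 * R) :=
        mul_le_mul_of_nonneg_left (by linarith) hw.le
      exact h5.trans (mul_le_mul_of_nonneg_right hw2 (by linarith))
    have h5 : s * (8 * (R + 1)) ≤ δ := by
      rwa [le_div_iff₀ (by positivity)] at hs2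
    have h6 : 2 * s * (2 * R) < δ := by nlinarith
    have h7 : δ < 2 * Real.cos s * δ := by nlinarith
    linarith
  refine ⟨s, hs0, by linarith, ?_⟩
  intro x hx h1 h2
  change G6 K s x
  -- the main case for all points
  have main : ∀ y : Q3, y ∈ K → -h' < y.2 → y.2 < h → dotC (vt 1 2) y.1 ≤ -(1 / 2) →
      -(1 / 2) ≤ dotC (vt 1 0) y.1 → -(1 / 2) ≤ dotC (vt 1 1) y.1 → G6 K s y := by
    intro y hy k1 k2 kZ kX kY
    have l0 := hbd y hy 0
    have l1 := hbd y hy 1
    exact r311_main H k1 k2 kZ kX kY hc hw hwc (hmu _ (by linarith)) (hmu _ (by linarith))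
      (hd y hy 0)
  have hx1 := r34_rotmem H.rb hx
  have hx2 := r34_rotmem H.rb hx1
  have n0 := r311_behind H hh hx
  have n1 := r311_behind H hh hx1
  have n2 := r311_behind H hh hx2
  simp only at n0 n1 n2
  rw [r311_rot0, r311_rot2] at n1
  rw [r311_rot0, r311_rot2, r311_rot2, r311_rot1] at n2
  by_cases c2 : dotC (vt 1 2) x.1 < -(1 / 2)
  · refine main x hx h1 h2 c2.le ?_ ?_
    · rcases n0 with h | h
      · exact h
      · linarith
    · rcases n1 with h | h
      · linarith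
      · exact h
  by_cases c1 : dotC (vt 1 1) x.1 < -(1 / 2)
  · apply r311_grot H.rb
    refine main _ hx1 h1 h2 ?_ ?_ ?_
    · simp only; rw [r311_rot2]; exact c1.le
    · simp only; rw [r311_rot0]; linarith
    · simp only; rw [r311_rot1]
      rcases n2 with h | h
      · linarith
      · exact h
  by_cases c0 : dotC (vt 1 0) x.1 < -(1 / 2)
  · apply r311_grot H.rb
    apply r311_grot H.rb
    refine main _ hx2 h1 h2 ?_ ?_ ?_
    · simp only; rw [r311_rot2, r311_rot1]; exact c0.le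
    · simp only; rw [r311_rot0, r311_rot2]; linarith
    · simp only; rw [r311_rot1, r311_rot0]; linarith
  -- in the triangle
  push Not at c0 c1 c2
  by_cases d2 : dotC (vt 1 2) x.1 = -(1 / 2)
  · exact main x hx h1 h2 d2.le c0 c1
  by_cases d1 : dotC (vt 1 1) x.1 = -(1 / 2)
  · apply r311_grot H.rb
    refine main _ hx1 h1 h2 ?_ ?_ ?_
    · simp only; rw [r311_rot2]; exact d1.le
    · simp only; rw [r311_rot0]; exact c2
    · simp only; rw [r311_rot1]; exact c0
  by_cases d0 : dotC (vt 1 0) x.1 = -(1 / 2)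
  · apply r311_grot H.rb
    apply r311_grot H.rb
    refine main _ hx2 h1 h2 ?_ ?_ ?_
    · simp only; rw [r311_rot2, r311_rot1]; exact d0.le
    · simp only; rw [r311_rot0, r311_rot2]; exact c1
    · simp only; rw [r311_rot1, r311_rot0]; exact c2
  refine Or.inl ⟨0, fun n hn => absurd hn (r311_interior H h1 h2 ?_ n)⟩
  intro j
  fin_cases j
  · exact lt_of_le_of_ne c0 (Ne.symm d0)
  · exact lt_of_le_of_ne c1 (Ne.symm d1)
  · exact lt_of_le_of_ne c2 (Ne.symm d2)

/-- every triangle is served by `e_f, e_(f+120), e_(f+240)` for `|f| < 30`. -/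
lemma r311_good {T : Set ℂ} (hT : P3 T)
    (htri : ∀ q, q ∈ T ↔ ∀ j, -(‖(1 : ℂ)‖ ^ 2 / 2) ≤ dotC (vt 1 j) q) {f : ℝ}
    (hf : |f| < Real.pi / 6) : GoodP T f := by
  intro q hq
  have hq' := (htri q).mp hq
  rw [norm_one] at hq'
  have s2 := r39_sum 1 q
  -- the nearest corner
  obtain ⟨j, hj⟩ : ∃ j, 0 ≤ dotC (vt 1 j) q := by
    by_contra hc
    push Not at hc
    linarith [hc 0, hc 1, hc 2]
  refine ⟨j, fun m hm => ?_⟩
  -- `m` is a normal at the corner
  have hvT : ∀ i, vt 1 i ∈ T := by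
    intro i
    rw [htri, norm_one]
    intro k
    have h3 : √3 * √3 = 3 := Real.mul_self_sqrt (by norm_num)
    fin_cases i <;> fin_cases k <;>
      simp [r39_vt0, r39_vt1', r39_vt2', dotC] <;> nlinarith
  have hle : ∀ i, dotC m (vt 1 i) ≤ dotC m q := fun i => hm.2.2 _ (hvT i)
  have hb := congrArg (dotC m) (r39_bary one_ne_zero q)
  rw [dotC_add_right, dotC_add_right, dotC_ofReal_right, dotC_ofReal_right, dotC_ofReal_right,
    norm_one] at hb
  have hmj : dotC m (vt 1 j) = dotC m q := by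
    have p0 := hq' 0
    have p1 := hq' 1
    have p2 := hq' 2
    have r0 := hle 0
    have r1 := hle 1
    have r2 := hle 2
    have t0 := mul_nonneg (by linarith : 0 ≤ (1 + 2 * dotC (vt 1 0) q / 1 ^ 2) / 3)
      (sub_nonneg.mpr r0)
    have t1 := mul_nonneg (by linarith : 0 ≤ (1 + 2 * dotC (vt 1 1) q / 1 ^ 2) / 3)
      (sub_nonneg.mpr r1)
    have t2 := mul_nonneg (by linarith : 0 ≤ (1 + 2 * dotC (vt 1 2) q / 1 ^ 2) / 3)
      (sub_nonneg.mpr r2)
    have hsum : (1 + 2 * dotC (vt 1 0) q / 1 ^ 2) / 3 * (dotC m q - dotC m (vt 1 0)) +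
        (1 + 2 * dotC (vt 1 1) q / 1 ^ 2) / 3 * (dotC m q - dotC m (vt 1 1)) +
        (1 + 2 * dotC (vt 1 2) q / 1 ^ 2) / 3 * (dotC m q - dotC m (vt 1 2)) = 0 := by
      linear_combination hb + (2 / 3 * dotC m q) * s2
    have hz : (1 + 2 * dotC (vt 1 j) q / 1 ^ 2) / 3 * (dotC m q - dotC m (vt 1 j)) = 0 := by
      fin_cases j
      · simp only [Fin.zero_eta] at hj ⊢; linarith
      · simp only [Fin.mk_one] at hj ⊢; linarith
      · have e2 : (((⟨2, by decide⟩ : Fin 3)) : Fin 3) = 2 := rfl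
        rw [e2]; linarith
    have := (mul_eq_zero.mp hz).resolve_left (by
      have : 0 < (1 + 2 * dotC (vt 1 j) q / 1 ^ 2) / 3 := by linarith
      exact this.ne')
    linarith
  have hNP : NP T (vt 1 j) m := by
    refine ⟨hvT j, hm.2.1, fun y hy => ?_⟩
    rw [hmj]; exact hm.2.2 y hy
  have hvj : vt 1 j = ((1 : ℝ) : ℂ) * eA (2 * Real.pi * (j : ℕ) / 3) := by
    simp [vt]
  obtain ⟨c, s, hc, hs, hms⟩ := NP_angle hT one_pos hvj hNP
  rw [hms, dotC_ofReal_left, dotC_eA]
  rw [abs_le] at hs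
  rw [abs_lt] at hf
  have : 2 * Real.pi * (j : ℕ) / 3 + s - tw f j = s - f := by simp only [tw]; ring
  rw [this]
  exact mul_pos hc (Real.cos_pos_of_mem_Ioo ⟨by linarith, by linarith⟩)

theorem free_rim {K : Set Q3} {h h' : ℝ} (H : Prism K h h' 1) {f : ℝ} (hf : |f| < Real.pi / 6) :
    GoodP (Sl K h) f ∧ GoodP (Sl K (-h')) f :=
  ⟨r311_good (r39_P3_top H.rb H.top) H.tri hf, r311_good (r39_P3_bot H.rb H.bot) H.tri' hf⟩

theorem prism_free {K : Set Q3} {h h' : ℝ} (H : Prism K h h' 1)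
    (hf : ∀ z, ((far, z) : Q3) ∉ K) : Served K 7 := by
  obtain ⟨δ, hδ, hd⟩ := free_margin H hf
  obtain ⟨s, hs0, hs1, hs⟩ := free_side H hδ hd
  have hpi := Real.pi_pos
  have g1 := (free_rim H (f := Real.pi / 6 - s) (by rw [abs_lt]; constructor <;> linarith)).1
  have g2 := (free_rim H (f := -(Real.pi / 6) + s) (by rw [abs_lt]; constructor <;> linarith)).2
  refine three_three H.rb.comp H.rb.zero H.top H.bot (tw (Real.pi / 6 - s))
    (tw (-(Real.pi / 6) + s)) (fun q hq _ => g1 q hq) (fun q hq => g2 q hq)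
    (fun x hx h1 h2 _ => hs x hx h1 h2) ?_
  intro x hx h1 hn τ hτ
  have h2 : x.2 < h := by
    rcases eq_or_lt_of_le (H.top.1 x hx) with h2 | h2
    · exfalso
      have : Nm K x (0, 1) := by
        refine ⟨fun h0 => ?_, fun y hy => ?_⟩
        · have := congrArg Prod.snd h0
          simp at this
        · simp only [pr, dotC_zero_left, one_mul, zero_add]
          rw [h2]; exact H.top.1 y hy
      have := hn _ this
      simp only at this
      linarith
    · exact h2
  rcases hs x hx h1 h2 with h3 | ⟨j, hj⟩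
  · exact Or.inl h3
  · refine Or.inr ⟨j, fun n hnn => ?_⟩
    have a := hj n hnn
    have b := hn n hnn
    simp only [pr] at a ⊢
    nlinarith [mul_pos (neg_pos.mpr b) hτ]

end Pool.Agent.Lib.MP_5e7226_co.RT
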