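import Pool.Agent.Lib.MP_5e7226_co.RT.R312

set_option autoImplicit false

open Set Filter Topology

namespace Pool.Agent.Lib.MP_5e7226_co.RT

lemma r312_fv0 : dotC (vt 1 0) far = 1 := by
  rw [r311_v0, r311_far]

lemma r312_fv1 : dotC (vt 1 1) far = 1 := by
  have h3 : √3 * √3 = 3 := Real.mul_self_sqrt (by norm_num)
  rw [r311_v1, r311_far]
  simp only
  linear_combination (1 / 2) * h3

/-- `v_j · y ≤ 1`. -/
lemma r312_le {K : Set Q3} {h h' : ℝ} (H : Prism K h h' 1) {z : ℝ} (hz : ((far, z) : Q3) ∈ K)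
    {y : Q3} (hy : y ∈ K) : dotC (vt 1 0) y.1 ≤ 1 ∧ dotC (vt 1 1) y.1 ≤ 1 ∧
      dotC (vt 1 2) y.1 ≤ 1 := by
  obtain ⟨m, hm0, hm⟩ := H.sup
  have e1 : dotC m 1 = dotC (vt 1 0) m := by rw [dotC_comm, r39_vt0]
  have hh : ∀ y ∈ K, dotC (vt 1 0) y.1 ≤ 1 := by
    have c1 := hm _ hz
    have c2 := hm _ (r34_rotmem H.rb (r34_rotmem H.rb hz))
    have s1 := r39_sum 1 m
    have hAB := r311_ne hm0
    simp only at c1 c2
    rw [r311_dot m, e1, r312_fv0, r312_fv1] at c1
    rw [r311_dot m, e1, r311_rot0, r311_rot2, r311_rot1, r311_rot0] at c2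
    have s2 := r39_sum 1 far
    rw [r312_fv0, r312_fv1] at s2
    rw [r312_fv1, show dotC (vt 1 2) far = -2 by linarith] at c2
    intro y hy
    have c3 := hm y hy
    rw [r311_dot m, e1] at c3
    generalize dotC (vt 1 0) m = A at *
    generalize dotC (vt 1 1) m = B at *
    generalize dotC (vt 1 0) y.1 = X at *
    generalize dotC (vt 1 1) y.1 = Y at *
    have hB : B = -A / 2 := by linarith
    subst hB
    have hA0 : A ≠ 0 := by
      rintro rfl
      rcases hAB with h5 | h5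
      · exact h5 rfl
      · exact h5 (by ring)
    -- `A > 0`
    have hA : 0 < A := by
      have c4 := hm _ (interior_subset H.rb.zero)
      simp only [Prod.fst_zero, dotC_zero_right] at c4
      rw [e1] at c4
      exact lt_of_le_of_ne c4 (Ne.symm hA0)
    by_contra hc
    push Not at hc
    nlinarith [mul_pos (sub_pos.mpr hc) hA]
  refine ⟨hh y hy, ?_, ?_⟩
  · have := hh _ (r34_rotmem H.rb (r34_rotmem H.rb hy))
    simp only at this
    rwa [r311_rot0, r311_rot2] at this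
  · have := hh _ (r34_rotmem H.rb hy)
    simp only at this
    rwa [r311_rot0] at this

/-- the data of a normal at a point of `K`. -/
lemma r312_nd {K : Set Q3} {h h' : ℝ} (H : Prism K h h' 1) (hh : -h' < h) {z : ℝ}
    (hz : ((far, z) : Q3) ∈ K) {x n : Q3} (hn : Nm K x n) :
    ND h h' z (dotC (vt 1 0) x.1) (dotC (vt 1 1) x.1) x.2 (dotC (vt 1 0) n.1)
      (dotC (vt 1 1) n.1) n.2 (dotC n.1 x.1) := by
  have s1 := r39_sum 1 n.1
  have top : ∀ j, dotC (vt 1 j) n.1 + n.2 * h ≤ dotC n.1 x.1 + n.2 * x.2 := by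
    intro j
    have := hn.2 _ (r311_tri_mem H j (z := h) hh.le le_rfl)
    simp only [pr] at this
    rw [dotC_comm (vt 1 j)]; exact this
  have bot : ∀ j, dotC (vt 1 j) n.1 - n.2 * h' ≤ dotC n.1 x.1 + n.2 * x.2 := by
    intro j
    have := hn.2 _ (r311_tri_mem H j (z := -h') le_rfl hh.le)
    simp only [pr] at this
    rw [dotC_comm (vt 1 j)]; linarith
  have f0 := hn.2 _ hz
  have f1 := hn.2 _ (r34_rotmem H.rb hz)
  have f2 := hn.2 _ (r34_rotmem H.rb (r34_rotmem H.rb hz))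
  simp only [pr] at f0 f1 f2
  have s2 := r39_sum 1 far
  rw [r312_fv0, r312_fv1] at s2
  have e2 : dotC (vt 1 2) far = -2 := by linarith
  rw [r311_dot n.1 far, r312_fv0, r312_fv1] at f0
  rw [r311_dot n.1 (eA (2 * Real.pi / 3) * far), r311_rot0, r311_rot1, r312_fv0, e2] at f1
  rw [r311_dot n.1 (eA (2 * Real.pi / 3) * (eA (2 * Real.pi / 3) * far)), r311_rot0, r311_rot2,
    r311_rot1, r311_rot0, r312_fv1, e2] at f2
  have e3 : dotC (vt 1 2) n.1 = -dotC (vt 1 0) n.1 - dotC (vt 1 1) n.1 := by linarith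
  have t2 := top 2
  have b2 := bot 2
  rw [e3] at t2 b2
  refine ⟨r311_dot n.1 x.1, top 0, top 1, t2, bot 0, bot 1, b2, ?_, ?_, ?_, ?_⟩
  · linarith
  · linarith
  · linarith
  · by_contra hc
    push Not at hc
    obtain ⟨c0, c1, c2⟩ := hc
    have : n.1 = 0 := by
      by_contra hne
      rcases r311_ne hne with h5 | h5
      · exact h5 c0
      · exact h5 c1
    exact hn.1 (Prod.ext this c2)

/-- the six vectors. -/
lemma r312_pr (n : Q3) (j : Fin 3) (τ : ℝ) : pr n (-vt 1 j, τ) = n.2 * τ - dotC (vt 1 j) n.1 := by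
  simp only [pr]
  rw [dotC_neg_right, dotC_comm n.1]
  ring

def G3 (K : Set Q3) (τ τ' : ℝ) (x : Q3) : Prop :=
  ∃ j : Fin 3, Sv K x (-vt 1 j, τ) ∨ Sv K x (-vt 1 j, -τ')

lemma r312_svrot {K : Set Q3} (hK : RB 3 K) {x : Q3} {j : Fin 3} {τ : ℝ}
    (h : Sv K (eA (2 * Real.pi / 3) * x.1, x.2) (-vt 1 j, τ)) :
    ∃ i : Fin 3, Sv K x (-vt 1 i, τ) := by
  have key : ∀ i : Fin 3, (∀ p : ℂ, dotC (vt 1 j) (eA (2 * Real.pi / 3) * p) = dotC (vt 1 i) p) →
      ∃ i : Fin 3, Sv K x (-vt 1 i, τ) := by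
    intro i hi
    refine ⟨i, fun n hn => ?_⟩
    have := h _ (r34_nmrot hK hn)
    rw [r312_pr] at this ⊢
    simp only at this
    rwa [hi] at this
  fin_cases j
  · exact key 2 r311_rot0
  · exact key 0 r311_rot1
  · exact key 1 r311_rot2

lemma r312_grot {K : Set Q3} (hK : RB 3 K) {x : Q3} {τ τ' : ℝ}
    (h : G3 K τ τ' (eA (2 * Real.pi / 3) * x.1, x.2)) : G3 K τ τ' x := by
  obtain ⟨j, hj | hj⟩ := h
  · obtain ⟨i, hi⟩ := r312_svrot hK hj
    exact ⟨i, Or.inl hi⟩
  · obtain ⟨i, hi⟩ := r312_svrot hK hj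
    exact ⟨i, Or.inr hi⟩

lemma r312_main {K : Set Q3} {h h' : ℝ} (H : Prism K h h' 1) (hh : -h' < h) {z : ℝ}
    (hz : ((far, z) : Q3) ∈ K) (hz1 : z ≤ h) {τ τ' : ℝ} (hτ : h - z < 3 * τ)
    (hτ0 : 0 < τ) (hτ2 : 3 * τ < 2 * (h' + z)) (hτ' : h' + z < 3 * τ') (hτ'0 : 0 < τ')
    {x : Q3} (hx : x ∈ K) (h20 : dotC (vt 1 2) x.1 ≤ dotC (vt 1 0) x.1)
    (h21 : dotC (vt 1 2) x.1 ≤ dotC (vt 1 1) x.1) : G3 K τ τ' x := by
  obtain ⟨l0, l1, l2⟩ := r312_le H hz hx
  have s2 := r39_sum 1 x.1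
  have e2 : dotC (vt 1 2) x.1 = -dotC (vt 1 0) x.1 - dotC (vt 1 1) x.1 := by linarith
  have hxt := H.top.1 x hx
  have hxb : -h' ≤ x.2 := by
    have := H.bot.1 (x.1, -x.2) (by
      change ((x.1, - -x.2) : Q3) ∈ K
      rw [neg_neg]; exact hx)
    linarith
  rw [e2] at h20 h21 l2
  rcases lt_or_ge (-dotC (vt 1 0) x.1 - dotC (vt 1 1) x.1) (-(1 / 2)) with hX | hX
  · -- beyond the edge
    have htt : x.2 < h := by
      rcases eq_or_lt_of_le hxt with h1 | h1
      · exfalso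
        have : ((x.1, h) : Q3) ∈ K := by rw [← h1]; exact hx
        have := (H.tri x.1).mp this 2
        rw [norm_one, e2] at this
        linarith
      · exact h1
    have hbb : -h' < x.2 := by
      rcases eq_or_lt_of_le hxb with h1 | h1
      · exfalso
        have : ((x.1, -h') : Q3) ∈ K := by rw [h1]; exact hx
        have := (H.tri' x.1).mp this 2
        rw [norm_one, e2] at this
        linarith
      · exact h1
    rcases lt_trichotomy x.2 z with h1 | h1 | h1
    · refine ⟨2, Or.inr fun n hn => ?_⟩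
      have N := r312_nd H hh hz hn
      have n1 := N.sign l0 l1 l2
      have n2 := N.neg l0 l1 hX htt hbb
      have hν : n.2 ≤ 0 := by
        by_contra hc
        push Not at hc
        nlinarith [mul_pos hc (sub_pos.mpr h1)]
      have s1 := r39_sum 1 n.1
      rw [r312_pr]
      nlinarith [mul_nonneg (neg_nonneg.mpr hν) hτ'0.le]
    · refine ⟨2, Or.inl fun n hn => ?_⟩
      have N := r312_nd H hh hz hn
      have n2 := N.neg l0 l1 hX htt hbb
      obtain ⟨-, n3⟩ := N.edge l0 l1 hX.le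
      have s1 := r39_sum 1 n.1
      rw [r312_pr]
      rcases le_or_gt 0 n.2 with h3 | h3
      · nlinarith [mul_nonneg h3 hτ0.le]
      · -- `b (|X2| - 1/2) ≥ μ B`, `|X2| - 1/2 ≤ 3/2`
        have hb : 0 < dotC (vt 1 0) n.1 + dotC (vt 1 1) n.1 := by linarith
        have h5 : (dotC (vt 1 0) n.1 + dotC (vt 1 1) n.1) *
            (dotC (vt 1 0) x.1 + dotC (vt 1 1) x.1 - 1 / 2) ≤
            (dotC (vt 1 0) n.1 + dotC (vt 1 1) n.1) * (3 / 2) :=
          mul_le_mul_of_nonneg_left (by linarith) hb.le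
        have h6 : -n.2 * (h' + z) ≤ (dotC (vt 1 0) n.1 + dotC (vt 1 1) n.1) * (3 / 2) := by
          rw [← h1]; linarith
        nlinarith [mul_lt_mul_of_pos_left hτ2 (neg_pos.mpr h3)]
    · refine ⟨2, Or.inl fun n hn => ?_⟩
      have N := r312_nd H hh hz hn
      have n1 := N.sign l0 l1 l2
      have n2 := N.neg l0 l1 hX htt hbb
      have hν : 0 ≤ n.2 := by
        by_contra hc
        push Not at hc
        nlinarith [mul_pos (neg_pos.mpr hc) (sub_pos.mpr h1)]
      have s1 := r39_sum 1 n.1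
      rw [r312_pr]
      nlinarith [mul_nonneg hν hτ0.le]
  · -- over the triangle
    have hX0 : -(1 / 2) ≤ dotC (vt 1 0) x.1 := by linarith
    have hX1 : -(1 / 2) ≤ dotC (vt 1 1) x.1 := by linarith
    rcases eq_or_lt_of_le hxt with h1 | h1
    · refine ⟨2, Or.inl fun n hn => ?_⟩
      have N := r312_nd H hh hz hn
      have s1 := r39_sum 1 n.1
      have := N.top hX0 hX1 hX h20 h21 h1 hh hz1 hτ hτ0
      rw [r312_pr]
      linarith
    rcases eq_or_lt_of_le hxb with h2 | h2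
    · refine ⟨2, Or.inr fun n hn => ?_⟩
      have N := (r312_nd H hh hz hn).flip
      have s1 := r39_sum 1 n.1
      have := N.top hX0 hX1 hX h20 h21 (by linarith) (by linarith) (by linarith)
        (τ := τ') (by linarith) hτ'0
      rw [r312_pr]
      linarith
    · refine ⟨2, Or.inl fun n hn => ?_⟩
      have N := r312_nd H hh hz hn
      have s1 := r39_sum 1 n.1
      obtain ⟨n1, n2⟩ := N.mid hX0 hX1 hX h20 h21 h1 h2
      rw [r312_pr, n1]
      linarith

theorem prism_full {K : Set Q3} {h h' : ℝ} (H : Prism K h h' 1) {z : ℝ}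
    (hz : ((far, z) : Q3) ∈ K) (hA : h - z < 2 * (h' + z)) : Served K 6 := by
  have hh : -h' < h := by
    have a1 := top_pos H.rb.zero H.top
    have a2 := top_pos (RB_fl H.rb).zero H.bot
    linarith
  have hz1 : z ≤ h := H.top.1 _ hz
  have hz2 : -h' ≤ z := by
    have := H.bot.1 (far, -z) (by
      change ((far, - -z) : Q3) ∈ K
      rw [neg_neg]; exact hz)
    simp only at this
    linarith
  set τ : ℝ := (h - z + 2 * (h' + z)) / 6 with hτd
  set τ' : ℝ := (h' + z) / 3 + 1 with hτd'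
  have k1 : h - z < 3 * τ := by rw [hτd]; linarith
  have k2 : 3 * τ < 2 * (h' + z) := by rw [hτd]; linarith
  have k3 : 0 < τ := by rw [hτd]; linarith
  have k4 : h' + z < 3 * τ' := by rw [hτd']; linarith
  have k5 : 0 < τ' := by rw [hτd']; linarith
  have all : ∀ x ∈ K, G3 K τ τ' x := by
    intro x hx
    have main : ∀ y ∈ K, dotC (vt 1 2) y.1 ≤ dotC (vt 1 0) y.1 →
        dotC (vt 1 2) y.1 ≤ dotC (vt 1 1) y.1 → G3 K τ τ' y := fun y hy =>
      r312_main H hh hz hz1 k1 k3 k2 k4 k5 hy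
    have hx1 := r34_rotmem H.rb hx
    have hx2 := r34_rotmem H.rb hx1
    by_cases c2 : dotC (vt 1 2) x.1 ≤ dotC (vt 1 0) x.1 ∧ dotC (vt 1 2) x.1 ≤ dotC (vt 1 1) x.1
    · exact main x hx c2.1 c2.2
    by_cases c1 : dotC (vt 1 1) x.1 ≤ dotC (vt 1 0) x.1 ∧ dotC (vt 1 1) x.1 ≤ dotC (vt 1 2) x.1
    · apply r312_grot H.rb
      refine main _ hx1 ?_ ?_
      · simp only; rw [r311_rot2, r311_rot0]; exact c1.2
      · simp only; rw [r311_rot2, r311_rot1]; exact c1.1
    · apply r312_grot H.rb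
      apply r312_grot H.rb
      refine main _ hx2 ?_ ?_
      · simp only
        rw [r311_rot2, r311_rot1, r311_rot0, r311_rot2]
        by_contra hc
        push Not at hc
        push Not at c1 c2
        rcases le_total (dotC (vt 1 1) x.1) (dotC (vt 1 2) x.1) with h5 | h5
        · exact absurd (c1 hc.le) (by linarith)
        · exact absurd (c2 (by linarith)) (by linarith)
      · simp only
        rw [r311_rot2, r311_rot1, r311_rot1, r311_rot0]
        by_contra hc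
        push Not at hc
        push Not at c1 c2
        have := c2 hc.le
        have := c1 (by linarith)
        linarith
  refine served_of_fintype (ι := Fin 3 × Bool) (by simp)
    (fun i => if i.2 then (-vt 1 i.1, τ) else (-vt 1 i.1, -τ')) ?_
  intro x hx
  obtain ⟨j, hj | hj⟩ := all x hx
  · exact ⟨(j, true), by simpa using hj⟩
  · exact ⟨(j, false), by simpa using hj⟩

lemma r312_mono {K : Set Q3} (h : Served K 6) : Served K 7 := by
  obtain ⟨v, hv⟩ := h
  refine ⟨fun i => if hi : (i : ℕ) < 6 then v ⟨i, hi⟩ else 0, fun x hx => ?_⟩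
  obtain ⟨i, hi⟩ := hv x hx
  refine ⟨⟨i, by omega⟩, ?_⟩
  simpa using hi

lemma r312_fl {K : Set Q3} {h h' : ℝ} (H : Prism K h h' 1) : Prism (fl K) h' h 1 := by
  have hff : fl (fl K) = K := by
    ext x
    change ((x.1, - -x.2) : Q3) ∈ K ↔ x ∈ K
    rw [neg_neg]
  refine ⟨RB_fl H.rb, H.bot, ?_, H.v0, ?_, ?_, ?_⟩
  · rw [hff]; exact H.top
  · intro q
    exact H.tri' q
  · intro q
    change ((q, - -h) : Q3) ∈ K ↔ _
    rw [neg_neg]
    exact H.tri q
  · obtain ⟨m, hm0, hm⟩ := H.sup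
    exact ⟨m, hm0, fun y hy => hm (y.1, -y.2) hy⟩

theorem prism_full' {K : Set Q3} {h h' : ℝ} (H : Prism K h h' 1) {z : ℝ}
    (hz : ((far, z) : Q3) ∈ K) : Served K 7 := by
  have hh : -h' < h := by
    have a1 := top_pos H.rb.zero H.top
    have a2 := top_pos (RB_fl H.rb).zero H.bot
    linarith
  rcases lt_or_ge (h - z) (2 * (h' + z)) with hA | hA
  · exact r312_mono (prism_full H hz hA)
  · have hz' : ((far, -z) : Q3) ∈ fl K := by
      change ((far, - -z) : Q3) ∈ K
      rw [neg_neg]; exact hz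
    have hz1 : z ≤ h := H.top.1 _ hz
    have := r312_mono (prism_full (r312_fl H) hz' (by linarith))
    obtain ⟨v, hv⟩ := this
    refine ⟨fun i => ((v i).1, -(v i).2), fun x hx => ?_⟩
    obtain ⟨i, hi⟩ := hv (x.1, -x.2) (by
      change ((x.1, - -x.2) : Q3) ∈ K
      rw [neg_neg]; exact hx)
    refine ⟨i, ?_⟩
    rw [Sv_fl] at hi
    simpa using hi

end Pool.Agent.Lib.MP_5e7226_co.RT
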