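import Pool.Agent.Lib.MP_5e7226_co.RT.R39
import Pool.Agent.Lib.MP_5e7226_co.RT.IIIA

set_option autoImplicit false

open Set Filter Topology

namespace Pool.Agent.Lib.MP_5e7226_co.RT

/-! ### III.7: the bad angles are countable -/

lemma r37_rotZ {K : Set Q3} (hK : RB 3 K) {y : Q3} (hy : y ∈ K) (k : ℤ) :
    ((eA (k * (2 * Real.pi / 3)) * y.1, y.2) : Q3) ∈ K := by
  have nat : ∀ n : ℕ, ((eA (n * (2 * Real.pi / 3)) * y.1, y.2) : Q3) ∈ K := by
    intro n
    induction n with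
    | zero => simpa [eA_zero] using hy
    | succ n ih =>
      have h2 := r34_rotmem hK ih
      simp only at h2
      rw [← mul_assoc, ← eA_add] at h2
      have e : 2 * Real.pi / 3 + n * (2 * Real.pi / 3) = ((n + 1 : ℕ) : ℝ) * (2 * Real.pi / 3) := by
        push_cast; ring
      rwa [e] at h2
  have hn' : (((k % 3).toNat : ℕ) : ℤ) = k % 3 :=
    Int.toNat_of_nonneg (Int.emod_nonneg _ (by norm_num))
  have hk : k = 3 * (k / 3) + (k % 3).toNat := by
    rw [hn']; exact (Int.mul_ediv_add_emod k 3).symm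
  have hkr : (k : ℝ) = 3 * ((k / 3 : ℤ) : ℝ) + ((k % 3).toNat : ℕ) := by exact_mod_cast hk
  have : (k : ℝ) * (2 * Real.pi / 3) =
      ((k % 3).toNat : ℕ) * (2 * Real.pi / 3) + ((k / 3 : ℤ) : ℝ) * (2 * Real.pi) := by
    rw [hkr]; ring
  rw [this, r35_per]
  exact nat _

/-- strict version of `r39_vmax`. -/
lemma r37_vmax {v : ℂ} (hv : v ≠ 0) {q : ℂ} (hq : ∀ j, -(‖v‖ ^ 2 / 2) < dotC (vt v j) q) {m : ℂ}
    (hm : m ≠ 0) : ∃ j, dotC m q < dotC m (vt v j) := by
  have hn2 : 0 < ‖v‖ ^ 2 := by have := norm_pos_iff.mpr hv; positivity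
  have hl : ∀ j, 0 < (1 + 2 * dotC (vt v j) q / ‖v‖ ^ 2) / 3 := by
    intro j
    have := hq j
    have h4 : -1 < 2 * dotC (vt v j) q / ‖v‖ ^ 2 := by
      rw [lt_div_iff₀ hn2]; linarith
    linarith
  have hs : (1 + 2 * dotC (vt v 0) q / ‖v‖ ^ 2) / 3 + (1 + 2 * dotC (vt v 1) q / ‖v‖ ^ 2) / 3 +
      (1 + 2 * dotC (vt v 2) q / ‖v‖ ^ 2) / 3 = 1 := by
    have := r39_sum v q
    have h5 : 2 * dotC (vt v 0) q / ‖v‖ ^ 2 + 2 * dotC (vt v 1) q / ‖v‖ ^ 2 +
        2 * dotC (vt v 2) q / ‖v‖ ^ 2 = 0 := by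
      rw [← add_div, ← add_div]
      have : 2 * dotC (vt v 0) q + 2 * dotC (vt v 1) q + 2 * dotC (vt v 2) q = 0 := by linarith
      rw [this, zero_div]
    linarith
  by_contra hcon
  push Not at hcon
  have c0 := hcon 0
  have c1 := hcon 1
  have c2 := hcon 2
  have hb := congrArg (dotC m) (r39_bary hv q)
  rw [dotC_add_right, dotC_add_right, dotC_ofReal_right, dotC_ofReal_right,
    dotC_ofReal_right] at hb
  have h0 := hl 0
  have h1 := hl 1
  have h2 := hl 2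
  have sm := r39_sum v m
  rw [dotC_comm _ m, dotC_comm _ m, dotC_comm _ m] at sm
  have hfin : dotC m (vt v 0) = 0 ∧ dotC m (vt v 1) = 0 := by
    generalize (1 + 2 * dotC (vt v 0) q / ‖v‖ ^ 2) / 3 = l0 at *
    generalize (1 + 2 * dotC (vt v 1) q / ‖v‖ ^ 2) / 3 = l1 at *
    generalize (1 + 2 * dotC (vt v 2) q / ‖v‖ ^ 2) / 3 = l2 at *
    generalize dotC m q = d at *
    generalize dotC m (vt v 0) = d0 at *
    generalize dotC m (vt v 1) = d1 at *
    generalize dotC m (vt v 2) = d2 at *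
    have e : l0 * (d - d0) + l1 * (d - d1) + l2 * (d - d2) = 0 := by
      linear_combination d * hs + hb
    have p0 := mul_nonneg h0.le (sub_nonneg.mpr c0)
    have p1 := mul_nonneg h1.le (sub_nonneg.mpr c1)
    have p2 := mul_nonneg h2.le (sub_nonneg.mpr c2)
    have z0 := (mul_eq_zero.mp (by linarith : l0 * (d - d0) = 0)).resolve_left h0.ne'
    have z1 := (mul_eq_zero.mp (by linarith : l1 * (d - d1) = 0)).resolve_left h1.ne'
    have z2 := (mul_eq_zero.mp (by linarith : l2 * (d - d2) = 0)).resolve_left h2.ne'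
    constructor <;> linarith
  obtain ⟨f0, f1⟩ := hfin
  rw [r39_vt0] at f0
  rw [r39_vt1'] at f1
  simp only [dotC] at f0 f1
  have h3 : √3 * √3 = 3 := Real.mul_self_sqrt (by norm_num)
  have h3' : √3 ≠ 0 := (Real.sqrt_pos.mpr (by norm_num)).ne'
  have g1 : √3 * (m.im * v.re - m.re * v.im) = 0 := by linear_combination 2 * f1 + f0
  have g2 := (mul_eq_zero.mp g1).resolve_left h3'
  have g3 : (v.re ^ 2 + v.im ^ 2) * m.re = 0 := by linear_combination v.re * f0 - v.im * g2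
  have g4 : (v.re ^ 2 + v.im ^ 2) * m.im = 0 := by linear_combination v.im * f0 + v.re * g2
  rw [← r39_nsq] at g3 g4
  apply hm
  apply Complex.ext
  · simpa using (mul_eq_zero.mp g3).resolve_left hn2.ne'
  · simpa using (mul_eq_zero.mp g4).resolve_left hn2.ne'

/-- `x` is full and mixed, at the angle `t`, and `f` is its bad angle. -/
structure FM (K : Set Q3) (f : ℝ) (x : Q3) (t r ν : ℝ) (k : ℤ) : Prop where
  mem : x ∈ K
  mx : Mx K x
  pos : 0 < r
  pol : x.1 = (r : ℂ) * eA t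
  nm : Nm K x (eA (t + Real.pi / 3), ν)
  ang : f = t - Real.pi / 6 - k * (Real.pi / 3)

lemma FM.le {K : Set Q3} (hK : RB 3 K) {f : ℝ} {x : Q3} {t r ν : ℝ} {k : ℤ}
    (F : FM K f x t r ν k) {y : Q3} (hy : y ∈ K) (l : ℤ) :
    dotC (eA (t + Real.pi / 3 + l * (2 * Real.pi / 3))) y.1 + ν * (y.2 - x.2) ≤ r / 2 := by
  have h1 := F.nm.2 _ (r37_rotZ hK hy (-l))
  simp only [pr] at h1
  rw [F.pol, dotC_ofReal_right, dotC_eA] at h1
  have e1 : t + Real.pi / 3 - t = Real.pi / 3 := by ring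
  rw [e1, Real.cos_pi_div_three] at h1
  have e2 : dotC (eA (t + Real.pi / 3)) (eA (((-l : ℤ) : ℝ) * (2 * Real.pi / 3)) * y.1) =
      dotC (eA (t + Real.pi / 3 + l * (2 * Real.pi / 3))) y.1 := by
    have e3 : eA (t + Real.pi / 3) = eA (((-l : ℤ) : ℝ) * (2 * Real.pi / 3)) *
        eA (t + Real.pi / 3 + l * (2 * Real.pi / 3)) := by
      rw [← eA_add]
      congr 1
      push_cast; ring
    rw [e3, dotC_mul_mul, norm_eA]; ring
  rw [e2] at h1
  linarith

lemma FM.ge {K : Set Q3} (hK : RB 3 K) {f : ℝ} {x : Q3} {t r ν : ℝ} {k : ℤ}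
    (F : FM K f x t r ν k) {y : Q3} (hy : Mx K y) :
    ∃ l : ℤ, r / 2 ≤ dotC (eA (t + Real.pi / 3 + l * (2 * Real.pi / 3))) y.1 := by
  by_contra hcon
  push Not at hcon
  obtain ⟨hyK, m, hm⟩ := hy
  have hm0 : m ≠ 0 := by
    rintro rfl; exact hm.1 rfl
  have hv : x.1 ≠ 0 := by
    rw [F.pol]
    exact mul_ne_zero (by exact_mod_cast F.pos.ne') (eA_ne_zero _)
  have hn : ‖x.1‖ = r := by
    rw [F.pol, norm_mul, norm_eA, Complex.norm_real, Real.norm_eq_abs, abs_of_pos F.pos, mul_one]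
  have hq : ∀ j, -(‖x.1‖ ^ 2 / 2) < dotC (vt x.1 j) y.1 := by
    intro j
    have h1 := hcon ((j : ℕ) + 1 : ℤ)
    have e : vt x.1 j = ((-r : ℝ) : ℂ) *
        eA (t + Real.pi / 3 + (((j : ℕ) + 1 : ℤ) : ℝ) * (2 * Real.pi / 3)) := by
      have e3 : t + Real.pi / 3 + (((j : ℕ) + 1 : ℤ) : ℝ) * (2 * Real.pi / 3) =
          2 * Real.pi * (j : ℕ) / 3 + t + Real.pi := by push_cast; ring
      rw [e3]
      have e4 : ∀ a : ℝ, eA (a + Real.pi) = -eA a := by
        intro a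
        apply Complex.ext
        · simp [Real.cos_add_pi]
        · simp [Real.sin_add_pi]
      rw [e4, eA_add]
      simp only [vt]
      rw [F.pol]; push_cast; ring
    rw [e, dotC_ofReal_left, hn]
    nlinarith [mul_lt_mul_of_pos_left h1 F.pos]
  obtain ⟨j, hj⟩ := r37_vmax hv hq hm0
  have hjK : ((vt x.1 j, x.2) : Q3) ∈ K := by
    have := r37_rotZ hK F.mem ((j : ℕ) : ℤ)
    have e : eA ((((j : ℕ) : ℤ) : ℝ) * (2 * Real.pi / 3)) * x.1 = vt x.1 j := by
      simp only [vt]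
      congr 2
      push_cast; ring
    rwa [e] at this
  have := hm.2 _ hjK
  simp only [pr] at this
  linarith

/-- the planar step. -/
lemma r37_plane {t t' r r' : ℝ} (hr : 0 < r) (hr' : 0 < r')
    (h1 : ∀ l : ℤ, r' * Real.cos (t + Real.pi / 3 + l * (2 * Real.pi / 3) - t') ≤ r / 2)
    (h2 : ∀ l : ℤ, r * Real.cos (t' + Real.pi / 3 + l * (2 * Real.pi / 3) - t) ≤ r' / 2) :
    ∃ l : ℤ, t' = t + l * (2 * Real.pi / 3) := by
  have hpi := Real.pi_pos
  have gen : ∀ (a b ra rb : ℝ), 0 < rb →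
      (∀ l : ℤ, rb * Real.cos (a + Real.pi / 3 + l * (2 * Real.pi / 3) - b) ≤ ra / 2) →
      ∃ l : ℤ, |a + Real.pi / 3 + l * (2 * Real.pi / 3) - b| ≤ Real.pi / 3 ∧ rb ≤ ra := by
    intro a b ra rb hrb H
    set k : ℤ := ⌊(b - a) / (2 * Real.pi / 3)⌋ with hk
    have hk1 : (k : ℝ) * (2 * Real.pi / 3) ≤ b - a := by
      have := Int.floor_le ((b - a) / (2 * Real.pi / 3))
      rw [← hk, le_div_iff₀ (by positivity)] at this
      exact this
    have hk2 : b - a < ((k : ℝ) + 1) * (2 * Real.pi / 3) := by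
      have := Int.lt_floor_add_one ((b - a) / (2 * Real.pi / 3))
      rw [← hk, div_lt_iff₀ (by positivity)] at this
      exact this
    have hab : |a + Real.pi / 3 + k * (2 * Real.pi / 3) - b| ≤ Real.pi / 3 := by
      rw [abs_le]; constructor <;> linarith
    refine ⟨k, hab, ?_⟩
    have hcos : 1 / 2 ≤ Real.cos (a + Real.pi / 3 + k * (2 * Real.pi / 3) - b) := by
      rw [← Real.cos_pi_div_three, ← Real.cos_abs (a + Real.pi / 3 + k * (2 * Real.pi / 3) - b)]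
      exact Real.cos_le_cos_of_nonneg_of_le_pi (abs_nonneg _) (by linarith) hab
    have := H k
    nlinarith [mul_le_mul_of_nonneg_left hcos hrb.le]
  obtain ⟨l, hl, hle⟩ := gen t t' r r' hr' h1
  obtain ⟨-, -, hle'⟩ := gen t' t r' r hr h2
  have hrr : r' = r := le_antisymm hle hle'
  have hc := h1 l
  rw [hrr] at hc
  have hc' : Real.cos (t + Real.pi / 3 + l * (2 * Real.pi / 3) - t') ≤ 1 / 2 := by
    by_contra hcon
    push Not at hcon
    nlinarith [mul_lt_mul_of_pos_left hcon hr]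
  have habs : |t + Real.pi / 3 + l * (2 * Real.pi / 3) - t'| = Real.pi / 3 := by
    by_contra hne
    have hlt := lt_of_le_of_ne hl hne
    have : Real.cos (Real.pi / 3) < Real.cos (|t + Real.pi / 3 + l * (2 * Real.pi / 3) - t'|) :=
      Real.cos_lt_cos_of_nonneg_of_le_pi (abs_nonneg _) (by linarith) hlt
    rw [Real.cos_pi_div_three, Real.cos_abs] at this
    linarith
  rcases abs_eq (by positivity) |>.mp habs with h | h
  · exact ⟨l, by linarith⟩
  · refine ⟨l + 1, ?_⟩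
    push_cast; linarith

lemma FM.pair {K : Set Q3} (hK : RB 3 K) {f f' : ℝ} {x x' : Q3} {t r ν t' r' ν' : ℝ} {k k' : ℤ}
    (F : FM K f x t r ν k) (F' : FM K f' x' t' r' ν' k')
    (hs : (0 < ν ∧ 0 < ν') ∨ (ν < 0 ∧ ν' < 0) ∨ (ν = 0 ∧ ν' = 0)) :
    ∃ n : ℤ, f' = f + n * (Real.pi / 3) := by
  obtain ⟨l, hl⟩ := F.ge hK F'.mx
  obtain ⟨l', hl'⟩ := F'.ge hK F.mx
  have a := F.le hK F'.mem l
  have a' := F'.le hK F.mem l'
  have b : ν * (x'.2 - x.2) ≤ 0 := by linarith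
  have b' : ν' * (x.2 - x'.2) ≤ 0 := by linarith
  have z : ν * (x'.2 - x.2) = 0 ∧ ν' * (x.2 - x'.2) = 0 := by
    rcases hs with ⟨h1, h2⟩ | ⟨h1, h2⟩ | ⟨h1, h2⟩
    · have c1 : x'.2 - x.2 ≤ 0 := by
        by_contra hc; push Not at hc; nlinarith [mul_pos h1 hc]
      have c2 : x.2 - x'.2 ≤ 0 := by
        by_contra hc; push Not at hc; nlinarith [mul_pos h2 hc]
      have : x'.2 = x.2 := by linarith
      rw [this]; simp
    · have c1 : 0 ≤ x'.2 - x.2 := by
        by_contra hc; push Not at hc; nlinarith [mul_pos_of_neg_of_neg h1 hc]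
      have c2 : 0 ≤ x.2 - x'.2 := by
        by_contra hc; push Not at hc; nlinarith [mul_pos_of_neg_of_neg h2 hc]
      have : x'.2 = x.2 := by linarith
      rw [this]; simp
    · rw [h1, h2]; simp
  obtain ⟨n, hn⟩ := r37_plane (t := t) (t' := t') F.pos F'.pos
    (by
      intro l
      have := F.le hK F'.mem l
      rw [F'.pol, dotC_ofReal_right, dotC_eA, z.1] at this
      linarith)
    (by
      intro l
      have := F'.le hK F.mem l
      rw [F.pol, dotC_ofReal_right, dotC_eA, z.2] at this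
      linarith)
  refine ⟨2 * n + k - k', ?_⟩
  rw [F.ang, F'.ang, hn]
  push_cast; ring

lemma r37_count {S : Set ℝ} (h : ∀ f ∈ S, ∀ f' ∈ S, ∃ n : ℤ, f' = f + n * (Real.pi / 3)) :
    S.Countable := by
  rcases S.eq_empty_or_nonempty with rfl | ⟨f0, hf0⟩
  · exact countable_empty
  · refine (countable_range (fun n : ℤ => f0 + n * (Real.pi / 3))).mono ?_
    intro f hf
    obtain ⟨n, hn⟩ := h f0 hf0 f hf
    exact ⟨n, hn.symm⟩

lemma r37_full {K : Set Q3} (hK : RB 3 K) {h h' : ℝ} (ht : FlatTop K h) (hb : FlatTop (fl K) h')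
    {f : ℝ} {x : Q3} (hx : x ∈ K) (h1 : -h' < x.2) (h2 : x.2 < h) (hm : Mx K x)
    (b1 : ¬ ∃ j, Sv K x (eA (tw f j), 0)) (b2 : ¬ ∃ j, Sv K x (eA (tw (f + Real.pi / 3) j), 0)) :
    ∃ t r ν k, FM K f x t r ν k := by
  have hpi := Real.pi_pos
  have hx0 : x.1 ≠ 0 := by
    intro h0
    obtain ⟨-, m, hm⟩ := hm
    have hm0 : m ≠ 0 := by rintro rfl; exact hm.1 rfl
    obtain ⟨ε, hε, H⟩ := ht.2
    have hn : 0 < ‖m‖ := norm_pos_iff.mpr hm0
    have hy : ((((ε / 2 / ‖m‖ : ℝ) : ℂ) * m, h) : Q3) ∈ K := by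
      apply H
      rw [norm_mul, Complex.norm_real, Real.norm_eq_abs, abs_of_pos (by positivity)]
      have : ε / 2 / ‖m‖ * ‖m‖ = ε / 2 := by field_simp
      rw [this]; linarith
    have := hm.2 _ hy
    simp only [pr] at this
    rw [dotC_ofReal_right, dotC_self, h0, dotC_zero_right] at this
    have h5 : 0 < ε / 2 / ‖m‖ * ‖m‖ ^ 2 := by positivity
    linarith
  have top0 : ((0, h) : Q3) ∈ K := by
    obtain ⟨ε, hε, H⟩ := ht.2
    exact H 0 (by simpa using hε)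
  have bot0 : ((0, -h') : Q3) ∈ K := by
    obtain ⟨ε, hε, H⟩ := hb.2
    exact H 0 (by simpa using hε)
  have hn1 : ∀ n, Nm K x n → n.1 ≠ 0 := by
    intro n hn h0
    have a1 := hn.2 _ top0
    have a2 := hn.2 _ bot0
    simp only [pr, h0, dotC_zero_left, zero_add] at a1 a2
    rcases lt_trichotomy n.2 0 with h3 | h3 | h3
    · nlinarith
    · exact hn.1 (Prod.ext h0 h3)
    · nlinarith
  set t : ℝ := Complex.arg x.1 with htt
  have hr : 0 < ‖x.1‖ := norm_pos_iff.mpr hx0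
  have hqt : x.1 = (‖x.1‖ : ℂ) * eA t := by
    rw [eA_eq_exp, htt]; exact (Complex.norm_mul_exp_arg_mul_I x.1).symm
  have key : ∀ n, Nm K x n → ∃ (c s : ℝ), 0 < c ∧ |s| ≤ Real.pi / 3 ∧
      n.1 = (c : ℂ) * eA (t + s) := by
    intro n h
    have r1 := r34_rotmem hK hx
    have r2 := r34_rotmem hK r1
    have a1 := h.2 _ r1
    have a2 := h.2 _ r2
    simp only [pr] at a1 a2
    exact r34_ang hr hqt (hn1 n h) (by linarith) (by linarith)
  -- none of the six directions serves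
  have six : ∀ k : ℤ, ¬ Sv K x (eA (f + k * (Real.pi / 3)), 0) := by
    intro k hS
    rcases Int.even_or_odd' k with ⟨l, rfl | rfl⟩
    · obtain ⟨j, hj⟩ := r35_tw f l
      apply b1
      refine ⟨j, ?_⟩
      rw [hj]
      have e : f + ((2 * l : ℤ) : ℝ) * (Real.pi / 3) = f + l * (2 * Real.pi / 3) := by
        push_cast; ring
      rwa [e] at hS
    · obtain ⟨j, hj⟩ := r35_tw (f + Real.pi / 3) l
      apply b2
      refine ⟨j, ?_⟩
      rw [hj]
      have e : f + ((2 * l + 1 : ℤ) : ℝ) * (Real.pi / 3) = f + Real.pi / 3 + l * (2 * Real.pi / 3) := by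
        push_cast; ring
      rwa [e] at hS
  -- a direction nearer than 30 degrees serves
  have near : ∀ a : ℝ, |t - a| < Real.pi / 6 → Sv K x (eA a, 0) := by
    intro a ha n hn
    obtain ⟨c, s, hc, hs, hns⟩ := key n hn
    simp only [pr]
    rw [hns, dotC_ofReal_left, dotC_eA]
    rw [abs_le] at hs
    rw [abs_lt] at ha
    have hcos : 0 < Real.cos (t + s - a) :=
      Real.cos_pos_of_mem_Ioo ⟨by linarith, by linarith⟩
    nlinarith [mul_pos hc hcos]
  set k : ℤ := ⌊(t - f) / (Real.pi / 3)⌋ with hk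
  have hk1 : (k : ℝ) * (Real.pi / 3) ≤ t - f := by
    have := Int.floor_le ((t - f) / (Real.pi / 3))
    rw [← hk, le_div_iff₀ (by positivity)] at this
    exact this
  have hk2 : t - f < ((k : ℝ) + 1) * (Real.pi / 3) := by
    have := Int.lt_floor_add_one ((t - f) / (Real.pi / 3))
    rw [← hk, div_lt_iff₀ (by positivity)] at this
    exact this
  have hd : t - f - k * (Real.pi / 3) = Real.pi / 6 := by
    rcases lt_trichotomy (t - f - k * (Real.pi / 3)) (Real.pi / 6) with h5 | h5 | h5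
    · exact absurd (near _ (by rw [abs_lt]; constructor <;> linarith)) (six k)
    · exact h5
    · exfalso
      apply six (k + 1)
      apply near
      push_cast
      rw [abs_lt]; constructor <;> linarith
  -- the direction `t - 30` does not serve: a normal at `t + 60`
  have hns := six k
  simp only [Sv] at hns
  push Not at hns
  obtain ⟨n, hn, hle⟩ := hns
  obtain ⟨c, s, hc, hs, hnsa⟩ := key n hn
  simp only [pr] at hle
  rw [hnsa, dotC_ofReal_left, dotC_eA, mul_zero, add_zero] at hle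
  have hcos : Real.cos (t + s - (f + k * (Real.pi / 3))) ≤ 0 := by
    by_contra hcon
    push Not at hcon
    have := mul_pos hc hcon
    linarith
  rw [abs_le] at hs
  have hs' : s = Real.pi / 3 := by
    by_contra hne
    have hlt := lt_of_le_of_ne hs.2 hne
    have : 0 < Real.cos (t + s - (f + k * (Real.pi / 3))) :=
      Real.cos_pos_of_mem_Ioo ⟨by linarith, by linarith⟩
    linarith
  subst hs'
  refine ⟨t, ‖x.1‖, n.2 / c, k, hx, hm, hr, hqt, ⟨?_, fun y hy => ?_⟩, by linarith⟩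
  · intro h0
    exact eA_ne_zero _ (congrArg Prod.fst h0)
  · have := hn.2 y hy
    simp only [pr] at this ⊢
    rw [hnsa, dotC_ofReal_left, dotC_ofReal_left] at this
    have e : ∀ w u : ℝ, c * (w + n.2 / c * u) = c * w + n.2 * u := by
      intro w u; field_simp
    refine le_of_mul_le_mul_left ?_ hc
    rw [e, e]
    exact this

theorem lemC {K : Set Q3} (hK : RB 3 K) {h h' : ℝ} (ht : FlatTop K h) (hb : FlatTop (fl K) h') :
    {f : ℝ | ∃ x ∈ K, -h' < x.2 ∧ x.2 < h ∧ Mx K x ∧ (¬ ∃ j, Sv K x (eA (tw f j), 0)) ∧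
      ¬ ∃ j, Sv K x (eA (tw (f + Real.pi / 3) j), 0)}.Countable := by
  have c1 : {f : ℝ | ∃ x t r ν k, FM K f x t r ν k ∧ 0 < ν}.Countable := by
    apply r37_count
    rintro f ⟨x, t, r, ν, k, F, hν⟩ f' ⟨x', t', r', ν', k', F', hν'⟩
    exact F.pair hK F' (Or.inl ⟨hν, hν'⟩)
  have c2 : {f : ℝ | ∃ x t r ν k, FM K f x t r ν k ∧ ν < 0}.Countable := by
    apply r37_count
    rintro f ⟨x, t, r, ν, k, F, hν⟩ f' ⟨x', t', r', ν', k', F', hν'⟩
    exact F.pair hK F' (Or.inr (Or.inl ⟨hν, hν'⟩))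
  have c3 : {f : ℝ | ∃ x t r ν k, FM K f x t r ν k ∧ ν = 0}.Countable := by
    apply r37_count
    rintro f ⟨x, t, r, ν, k, F, hν⟩ f' ⟨x', t', r', ν', k', F', hν'⟩
    exact F.pair hK F' (Or.inr (Or.inr ⟨hν, hν'⟩))
  refine (c1.union (c2.union c3)).mono ?_
  rintro f ⟨x, hx, h1, h2, hm, b1, b2⟩
  obtain ⟨t, r, ν, k, F⟩ := r37_full hK ht hb hx h1 h2 hm b1 b2
  rcases lt_trichotomy ν 0 with h5 | h5 | h5
  · exact Or.inr (Or.inl ⟨x, t, r, ν, k, F, h5⟩)
  · exact Or.inr (Or.inr ⟨x, t, r, ν, k, F, h5⟩)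
  · exact Or.inl ⟨x, t, r, ν, k, F, h5⟩

/-- the angles of the full mixed points are countable. -/
theorem full_countable {K : Set Q3} (hK : RB 3 K) :
    {t : ℝ | ∃ r z s : ℝ, 0 < r ∧ Mx K ((r : ℂ) * eA t, z) ∧
      Nm K ((r : ℂ) * eA t, z) (eA (t + Real.pi / 3), s)}.Countable := by
  have mk : ∀ (t r z s : ℝ), 0 < r → Mx K ((r : ℂ) * eA t, z) →
      Nm K ((r : ℂ) * eA t, z) (eA (t + Real.pi / 3), s) →
      FM K (t - Real.pi / 6) ((r : ℂ) * eA t, z) t r s 0 := by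
    intro t r z s hr hm hn
    exact ⟨hm.1, hm, hr, rfl, hn, by push_cast; ring⟩
  have cnt : ∀ P : ℝ → Prop, (∀ s s', P s → P s' →
      (0 < s ∧ 0 < s') ∨ (s < 0 ∧ s' < 0) ∨ (s = 0 ∧ s' = 0)) →
      {t : ℝ | ∃ r z s : ℝ, 0 < r ∧ Mx K ((r : ℂ) * eA t, z) ∧
        Nm K ((r : ℂ) * eA t, z) (eA (t + Real.pi / 3), s) ∧ P s}.Countable := by
    intro P hP
    apply r37_count
    rintro t ⟨r, z, s, hr, hm, hn, hs⟩ t' ⟨r', z', s', hr', hm', hn', hs'⟩
    obtain ⟨n, hn⟩ := (mk t r z s hr hm hn).pair hK (mk t' r' z' s' hr' hm' hn') (hP s s' hs hs')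
    exact ⟨n, by linarith⟩
  refine ((cnt (fun s => 0 < s) (fun s s' a b => Or.inl ⟨a, b⟩)).union
    ((cnt (fun s => s < 0) (fun s s' a b => Or.inr (Or.inl ⟨a, b⟩))).union
      (cnt (fun s => s = 0) (fun s s' a b => Or.inr (Or.inr ⟨a, b⟩))))).mono ?_
  rintro t ⟨r, z, s, hr, hm, hn⟩
  rcases lt_trichotomy s 0 with h5 | h5 | h5
  · exact Or.inr (Or.inl ⟨r, z, s, hr, hm, hn, h5⟩)
  · exact Or.inr (Or.inr ⟨r, z, s, hr, hm, hn, h5⟩)
  · exact Or.inl ⟨r, z, s, hr, hm, hn, h5⟩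

end Pool.Agent.Lib.MP_5e7226_co.RT
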