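import Pool.Agent.Lib.MP_5e7226_co.RT.IIIA
import Pool.Agent.Lib.MP_5e7226_co.RT.R37
import Pool.Agent.Lib.MP_5e7226_co.RT.R311b
import Pool.Agent.Lib.MP_5e7226_co.RT.R312b
import Pool.Agent.Lib.MP_5e7226_co.RT.IIIB

/-!
# MP_5e7226, E^3 rotations, case (III): rows III.8, III.10 and the assembly
-/

set_option autoImplicit false

open Set Filter Topology

namespace Pool.Agent.Lib.MP_5e7226_co.RT



theorem P3_top {K : Set Q3} (hK : RB 3 K) {h : ℝ} (ht : FlatTop K h) : P3 (Sl K h) := by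
  have hc : Continuous (fun q : ℂ => ((q, h) : Q3)) := by fun_prop
  refine ⟨?_, ?_, ?_, ?_⟩
  · refine (hK.comp.image continuous_fst).of_isClosed_subset (hK.comp.isClosed.preimage hc) ?_
    intro q hq
    exact ⟨(q, h), hq, rfl⟩
  · intro x hx y hy a b ha hb hab
    have h1 := hK.conv hx hy ha hb hab
    show (((a • x + b • y), h) : Q3) ∈ K
    have h2 : (((a • x + b • y), h) : Q3) = a • ((x, h) : Q3) + b • ((y, h) : Q3) := by
      refine Prod.ext rfl ?_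
      show h = a * h + b * h
      rw [← add_mul, hab, one_mul]
    rw [h2]
    exact h1
  · obtain ⟨ε, hε, hd⟩ := ht.2
    rw [mem_interior_iff_mem_nhds]
    refine Filter.mem_of_superset (Metric.ball_mem_nhds (0 : ℂ) hε) fun q hq => ?_
    rw [mem_ball_zero_iff] at hq
    exact hd q hq
  · intro q hq
    have h1 := hK.rot _ hq
    have h2 : 2 * Real.pi / ((3 : ℕ) : ℝ) = 2 * Real.pi / 3 := by norm_num
    rw [h2] at h1
    exact h1

theorem P3_bot {K : Set Q3} (hK : RB 3 K) {h' : ℝ} (hb : FlatTop (fl K) h') :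
    P3 (Sl K (-h')) := P3_top (RB_fl hK) hb

/-! ROW III.8 -/
theorem generic {K : Set Q3} (hK : RB 3 K) {h h' : ℝ} (ht : FlatTop K h) (hb : FlatTop (fl K) h')
    {a b : ℝ} (hab : a < b)
    (hg : ∀ f, a < f → f < b → GoodP (Sl K h) f ∧ GoodP (Sl K (-h')) (f + Real.pi / 3)) :
    Served K 7 := by
  obtain ⟨f, ⟨hf1, hf2⟩, hfC⟩ : ∃ f, f ∈ Ioo a b ∧ f ∉ {f : ℝ | ∃ x ∈ K, -h' < x.2 ∧ x.2 < h ∧
      Mx K x ∧ (¬ ∃ j, Sv K x (eA (tw f j), 0)) ∧
      ¬ ∃ j, Sv K x (eA (tw (f + Real.pi / 3) j), 0)} := by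
    by_contra hcon
    have h1 : (Ioo a b).Countable := (lemC hK ht hb).mono fun f hf =>
      by_contra fun h => hcon ⟨f, hf, h⟩
    exact (Cardinal.Real.Ioo_countable_iff.1 h1).not_gt hab
  obtain ⟨hg1, hg2⟩ := hg f hf1 hf2
  refine three_three hK.comp hK.zero ht hb (tw f) (tw (f + Real.pi / 3))
    (fun q hq _ => hg1 q hq) (fun q hq => hg2 q hq) ?_ ?_
  · intro x hx h1 h2 h3
    by_contra hcon
    rw [not_or] at hcon
    exact hfC ⟨x, hx, h1, h2, h3, hcon.1, hcon.2⟩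
  · intro x hx h1 h2 τ hτ
    refine lower_served hK hx h2 (fun n hn h3 => ?_) f hτ
    obtain ⟨ε, hε, hd⟩ := hb.2
    have h4 : ((0, -h') : Q3) ∈ K := hd 0 (by simpa using hε)
    have h5 := hn.2 _ h4
    have h6 := h2 n hn
    simp only [pr, h3, dotC_zero_left] at h5
    nlinarith

/-! ROW III.10 -/
lemma dotC_conj_mul (c a b : ℂ) : dotC ((starRingEnd ℂ) c * a) b = dotC a (c * b) := by
  simp [dotC]; ring

theorem served_smul {K : Set Q3} {c : ℂ} (hc : c ≠ 0) {N : ℕ}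
    (h : Served {x : Q3 | ((c * x.1, x.2) : Q3) ∈ K} N) : Served K N := by
  obtain ⟨v, hv⟩ := h
  refine ⟨fun i => (c * (v i).1, (v i).2), fun x hx => ?_⟩
  obtain ⟨i, hi⟩ := hv (c⁻¹ * x.1, x.2) (by
    show ((c * (c⁻¹ * x.1), x.2) : Q3) ∈ K
    rw [mul_inv_cancel_left₀ hc]
    exact hx)
  refine ⟨i, fun n hn => ?_⟩
  have h1 := hi ((starRingEnd ℂ) c * n.1, n.2) ⟨?_, fun y hy => ?_⟩
  · simp only [pr, dotC_conj_mul] at h1 ⊢
    exact h1
  · intro h2
    apply hn.1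
    have h3 := congrArg Prod.fst h2
    have h4 := congrArg Prod.snd h2
    simp only [Prod.fst_zero, Prod.snd_zero] at h3 h4
    refine Prod.ext ?_ h4
    exact (mul_eq_zero.1 h3).resolve_left ((map_ne_zero _).2 hc)
  · have h2 := hn.2 _ hy
    simp only [pr, dotC_conj_mul] at h2 ⊢
    rw [mul_inv_cancel_left₀ hc]
    exact h2

theorem prism_smul {K : Set Q3} {h h' : ℝ} {v : ℂ} (H : Prism K h h' v) :
    Prism {x : Q3 | ((v * x.1, x.2) : Q3) ∈ K} h h' 1 := by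
  have hv : v ≠ 0 := H.v0
  have hnv : 0 < ‖v‖ := norm_pos_iff.2 hv
  have hcont : Continuous (fun x : Q3 => ((v * x.1, x.2) : Q3)) := by fun_prop
  have himg : {x : Q3 | ((v * x.1, x.2) : Q3) ∈ K} =
      (fun x : Q3 => ((v⁻¹ * x.1, x.2) : Q3)) '' K := by
    ext x
    constructor
    · intro hx
      refine ⟨(v * x.1, x.2), hx, ?_⟩
      refine Prod.ext ?_ rfl
      exact inv_mul_cancel_left₀ hv _
    · rintro ⟨y, hy, rfl⟩
      show ((v * (v⁻¹ * y.1), y.2) : Q3) ∈ K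
      rw [mul_inv_cancel_left₀ hv]
      exact hy
  have hdisc : ∀ {z : ℝ} {ε : ℝ}, 0 < ε → (∀ q : ℂ, ‖q‖ < ε → ((q, z) : Q3) ∈ K) →
      ∃ ε' > 0, ∀ q : ℂ, ‖q‖ < ε' → ((v * q, z) : Q3) ∈ K := by
    intro z ε hε hd
    refine ⟨ε / ‖v‖, by positivity, fun q hq => hd _ ?_⟩
    rw [norm_mul]
    rw [lt_div_iff₀ hnv] at hq
    linarith
  have hvt : ∀ (j : Fin 3) (q : ℂ), dotC (vt v j) (v * q) = ‖v‖ ^ 2 * dotC (vt 1 j) q := by
    intro j q
    rw [vt, vt, mul_comm (eA _) v, dotC_mul_mul, mul_one]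
  have htri : ∀ q : ℂ, (∀ j, -(‖v‖ ^ 2 / 2) ≤ dotC (vt v j) (v * q)) ↔
      ∀ j, -(‖(1 : ℂ)‖ ^ 2 / 2) ≤ dotC (vt 1 j) q := by
    intro q
    refine forall_congr' fun j => ?_
    rw [hvt]
    have h2 : 0 < ‖v‖ ^ 2 := by positivity
    have h3 : ‖(1 : ℂ)‖ = 1 := by simp
    rw [h3]
    constructor
    · intro h4
      have h5 : ‖v‖ ^ 2 * -(1 ^ 2 / 2) ≤ ‖v‖ ^ 2 * dotC (vt 1 j) q := by linarith
      exact le_of_mul_le_mul_left h5 h2
    · intro h4
      have := mul_le_mul_of_nonneg_left h4 h2.le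
      linarith
  refine ⟨⟨H.rb.p3, ?_, ?_, ?_, ?_⟩, ⟨fun y hy => H.top.1 (v * y.1, y.2) hy, ?_⟩, ⟨fun y hy => ?_, ?_⟩,
    one_ne_zero, fun q => ?_, fun q => ?_, ?_⟩
  · rw [himg]
    exact H.rb.comp.image (by fun_prop)
  · intro x hx y hy a b ha hb hab
    have h1 := H.rb.conv hx hy ha hb hab
    show ((v * (a • x + b • y).1, (a • x + b • y).2) : Q3) ∈ K
    have h2 : ((v * (a • x + b • y).1, (a • x + b • y).2) : Q3) =
        a • ((v * x.1, x.2) : Q3) + b • ((v * y.1, y.2) : Q3) := by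
      refine Prod.ext ?_ rfl
      show v * (a • x.1 + b • y.1) = a • (v * x.1) + b • (v * y.1)
      rw [mul_add, mul_smul_comm, mul_smul_comm]
    rw [h2]
    exact h1
  · rw [mem_interior_iff_mem_nhds]
    have h1 : (fun x : Q3 => ((v * x.1, x.2) : Q3)) ⁻¹' K ∈ 𝓝 (0 : Q3) := by
      apply hcont.continuousAt.preimage_mem_nhds
      have : ((v * (0 : Q3).1, (0 : Q3).2) : Q3) = 0 := by simp
      rw [this]
      exact mem_interior_iff_mem_nhds.1 H.rb.zero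
    exact h1
  · intro x hx
    have h1 := H.rb.rot _ hx
    show ((v * (eA _ * x.1), x.2) : Q3) ∈ K
    rw [← mul_assoc, mul_comm v, mul_assoc]
    exact h1
  · obtain ⟨ε, hε, hd⟩ := H.top.2
    exact hdisc hε hd
  · have h1 := H.bot.1 (v * y.1, y.2) (by
      have h2 : ((v * y.1, -y.2) : Q3) ∈ K := hy
      exact h2)
    exact h1
  · obtain ⟨ε, hε, hd⟩ := H.bot.2
    exact hdisc (z := -h') hε hd
  · rw [← htri]
    exact H.tri _
  · rw [← htri]
    exact H.tri' _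
  · obtain ⟨m, hm, hs⟩ := H.sup
    refine ⟨(starRingEnd ℂ) v * m, mul_ne_zero ((map_ne_zero _).2 hv) hm, fun y hy => ?_⟩
    rw [dotC_conj_mul, dotC_conj_mul, mul_one]
    exact hs _ hy

/-! ROW III: the case -/
theorem caseIII {K : Set Q3} (hK : RB 3 K) {h h' : ℝ} (ht : FlatTop K h)
    (hb : FlatTop (fl K) h') (hm : ∃ q, Mx K (q, h)) (hm' : ∃ q, Mx K (q, -h')) :
    Served K 7 := by
  rcases choice (P3_top hK ht) (P3_bot hK hb) with ⟨a, b, hab, hg⟩ | ⟨u, h1, h2⟩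
  · exact generic hK ht hb hab hg
  · obtain ⟨v, H⟩ := prism_of hK ht hb h1 h2 hm hm'
    apply served_smul H.v0
    have H' := prism_smul H
    by_cases hf : ∃ z, ((far, z) : Q3) ∈ {x : Q3 | ((v * x.1, x.2) : Q3) ∈ K}
    · obtain ⟨z, hz⟩ := hf
      exact prism_full' H' hz
    · push Not at hf
      exact prism_free H' hf

end Pool.Agent.Lib.MP_5e7226_co.RT
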