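import Pool.Agent.Lib.MP_5e7226_co.RT.IVD
import Pool.Agent.Lib.MP_5e7226_co.RT.IIDefs

/-!
# MP_5e7226, E^3 rotations, case (III), order at least four: the statement with `Par` (helper55)
-/

set_option autoImplicit false
set_option linter.unusedVariables false

open Set Filter Topology

namespace Pool.Agent.Lib.MP_5e7226_co.RT.IV

lemma box_smulR (c : ℝ) (a b : ℂ) : dotC a (c • b) = c * dotC a b := by
  have : (c • b : ℂ) = (c : ℂ) * b := by rfl
  rw [this, dotC_ofReal_right]

/-- The box is a parallelepiped. -/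
lemma box_par {K : Set Q3} {h h' : ℝ} (hh : 0 < h + h') {b : ℂ} (hb : b ≠ 0)
    (hK : ∀ x : Q3, x ∈ K ↔ (|dotC b x.1| ≤ 1 ∧ |dotC (Complex.I * b) x.1| ≤ 1) ∧
      -h' ≤ x.2 ∧ x.2 ≤ h) : Par K := by
  have hN : 0 < dotC b b := by
    rw [dotC_self]
    positivity
  set N := dotC b b with hNdef
  have hI1 : dotC (Complex.I * b) b = 0 := dot_I_self b
  have hI2 : dotC b (Complex.I * b) = 0 := by
    unfold dotC at hI1 ⊢
    linarith
  have hI3 : dotC (Complex.I * b) (Complex.I * b) = N := dot_I_I b b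
  refine ⟨((0 : ℂ), (h - h') / 2), (((N⁻¹ : ℝ) • b : ℂ), 0), (((N⁻¹ : ℝ) • (Complex.I * b) : ℂ), 0),
    ((0 : ℂ), (h + h') / 2), ?_, ?_⟩
  · rw [Fintype.linearIndependent_iff]
    intro g hg
    rw [Fin.sum_univ_three] at hg
    have h1 : g 0 • ((N⁻¹ : ℝ) • b : ℂ) + g 1 • ((N⁻¹ : ℝ) • (Complex.I * b) : ℂ) = 0 := by
      have := congrArg Prod.fst hg
      simpa using this
    have h2 : g 2 * ((h + h') / 2) = 0 := by
      have := congrArg Prod.snd hg
      simpa using this
    have h3 : dotC b (g 0 • ((N⁻¹ : ℝ) • b : ℂ) + g 1 • ((N⁻¹ : ℝ) • (Complex.I * b) : ℂ)) = g 0 := by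
      rw [dotC_add_right, box_smulR, box_smulR, box_smulR, box_smulR, hI2, ← hNdef]
      field_simp
      ring
    have h4 : dotC (Complex.I * b) (g 0 • ((N⁻¹ : ℝ) • b : ℂ) +
        g 1 • ((N⁻¹ : ℝ) • (Complex.I * b) : ℂ)) = g 1 := by
      rw [dotC_add_right, box_smulR, box_smulR, box_smulR, box_smulR, hI1, hI3]
      field_simp
      ring
    rw [h1] at h3 h4
    have hz : ∀ a : ℂ, dotC a 0 = 0 := fun a => by simp [dotC]
    rw [hz] at h3 h4
    intro i
    fin_cases i
    · exact h3.symm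
    · exact h4.symm
    · have : (h + h') / 2 ≠ 0 := by positivity
      exact (mul_eq_zero.mp h2).resolve_right this
  · ext x
    rw [hK x]
    simp only [Set.mem_setOf_eq]
    constructor
    · rintro ⟨⟨h1, h2⟩, h3, h4⟩
      obtain ⟨α, β, hab⟩ := coords hb x.1
      have e1 : dotC b x.1 = α * N := by
        rw [hab, dotC_add_right, box_smulR, box_smulR, hI2, ← hNdef]; ring
      have e2 : dotC (Complex.I * b) x.1 = β * N := by
        rw [hab, dotC_add_right, box_smulR, box_smulR, hI1, hI3]; ring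
      refine ⟨α * N, β * N, (x.2 - (h - h') / 2) / ((h + h') / 2), by rw [← e1]; exact h1,
        by rw [← e2]; exact h2, ?_, ?_⟩
      · rw [abs_div, abs_of_pos (by linarith : 0 < (h + h') / 2), div_le_one (by linarith), abs_le]
        constructor <;> linarith
      · ext1
        · show x.1 = (0 : ℂ) + (α * N) • ((N⁻¹ : ℝ) • b : ℂ) +
            (β * N) • ((N⁻¹ : ℝ) • (Complex.I * b) : ℂ) +
            ((x.2 - (h - h') / 2) / ((h + h') / 2)) • (0 : ℂ)
          rw [smul_smul, smul_smul, smul_zero, zero_add, add_zero, mul_assoc, mul_assoc,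
            mul_inv_cancel₀ hN.ne', mul_one, mul_one]
          exact hab
        · show x.2 = (h - h') / 2 + (α * N) * 0 + (β * N) * 0 +
            ((x.2 - (h - h') / 2) / ((h + h') / 2)) * ((h + h') / 2)
          have : (h + h') / 2 ≠ 0 := by positivity
          rw [div_mul_cancel₀ _ this]
          ring
    · rintro ⟨s1, s2, s3, hs1, hs2, hs3, rfl⟩
      have e0 : (((0 : ℂ), (h - h') / 2) + s1 • (((N⁻¹ : ℝ) • b : ℂ), (0 : ℝ)) +
          s2 • (((N⁻¹ : ℝ) • (Complex.I * b) : ℂ), (0 : ℝ)) + s3 • ((0 : ℂ), (h + h') / 2) : Q3) =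
          (s1 • ((N⁻¹ : ℝ) • b : ℂ) + s2 • ((N⁻¹ : ℝ) • (Complex.I * b) : ℂ),
            (h - h') / 2 + s3 * ((h + h') / 2)) := by
        ext1
        · simp
        · simp
      rw [e0]
      have e1 : dotC b (s1 • ((N⁻¹ : ℝ) • b : ℂ) + s2 • ((N⁻¹ : ℝ) • (Complex.I * b) : ℂ)) = s1 := by
        rw [dotC_add_right, box_smulR, box_smulR, box_smulR, box_smulR, hI2, ← hNdef]
        field_simp
        ring
      have e2 : dotC (Complex.I * b) (s1 • ((N⁻¹ : ℝ) • b : ℂ) +
          s2 • ((N⁻¹ : ℝ) • (Complex.I * b) : ℂ)) = s2 := by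
        rw [dotC_add_right, box_smulR, box_smulR, box_smulR, box_smulR, hI1, hI3]
        field_simp
        ring
      obtain ⟨h5, h6⟩ := abs_le.mp hs3
      refine ⟨⟨by rw [e1]; exact hs1, by rw [e2]; exact hs2⟩, ?_, ?_⟩
      · show -h' ≤ (h - h') / 2 + s3 * ((h + h') / 2)
        nlinarith
      · show (h - h') / 2 + s3 * ((h + h') / 2) ≤ h
        nlinarith

/-- **Case (III), order at least four.** -/
theorem caseIII4 {p : ℕ} (hp : 4 ≤ p) {K : Set Q3} (hK : RB p K) {h h' : ℝ} (ht : FlatTop K h)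
    (hb : FlatTop (fl K) h') : Served K 7 ∨ Par K := by
  have hh : 0 < h := top_pos hK.zero ht
  have hh' : 0 < h' := top_pos (RB_fl hK).zero hb
  rcases caseIV hp hK ht hb with h1 | ⟨b, hb0, h1⟩
  · exact Or.inl h1
  · exact Or.inr (box_par (by linarith) hb0 h1)

end Pool.Agent.Lib.MP_5e7226_co.RT.IV
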