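import Pool.Agent.Lib.MP_5e7226_co.RT.R37

set_option autoImplicit false

open Set Filter Topology

namespace Pool.Agent.Lib.MP_5e7226_co.RT

/-- serving against the normals which do not point down. -/
def Svu (K : Set Q3) (x v : Q3) : Prop := ∀ n, Nm K x n → 0 ≤ n.2 → 0 < pr n v

theorem svu_open {K : Set Q3} {x v : Q3} (h : Svu K x v) :
    ∃ δ > 0, ∀ y ∈ K, dist y x < δ → ∀ w, dist w v < δ → Svu K y w := by
  by_contra hcon
  push Not at hcon
  have hseq : ∀ k : ℕ, ∃ y, y ∈ K ∧ dist y x < 1 / ((k : ℝ) + 1) ∧ ∃ w n,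
      dist w v < 1 / ((k : ℝ) + 1) ∧ Nm K y n ∧ 0 ≤ n.2 ∧ pr n w ≤ 0 := by
    intro k
    obtain ⟨y, hy, hd, w, hw, hs⟩ := hcon (1 / ((k : ℝ) + 1)) (by positivity)
    unfold Svu at hs
    push Not at hs
    obtain ⟨n, hn, hn2, hle⟩ := hs
    exact ⟨y, hy, hd, w, n, hw, hn, hn2, hle⟩
  choose y _ hyd w n hwd hn hn2 hle using hseq
  have h0 : Tendsto (fun k : ℕ => 1 / ((k : ℝ) + 1)) atTop (𝓝 0) :=
    tendsto_one_div_add_atTop_nhds_zero_nat
  have hy : Tendsto y atTop (𝓝 x) := by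
    rw [tendsto_iff_dist_tendsto_zero]
    exact squeeze_zero (fun _ => dist_nonneg) (fun k => (hyd k).le) h0
  have hw : Tendsto w atTop (𝓝 v) := by
    rw [tendsto_iff_dist_tendsto_zero]
    exact squeeze_zero (fun _ => dist_nonneg) (fun k => (hwd k).le) h0
  obtain ⟨φ, m, hφ, hm, hlim⟩ := normal_limit hy hn
  have h1 := tendsto_pr hlim (hw.comp hφ.tendsto_atTop)
  have h2 : pr m v ≤ 0 := by
    refine le_of_tendsto' h1 fun k => ?_
    rw [pr_smul_left]
    exact mul_nonpos_of_nonneg_of_nonpos (inv_nonneg.2 (norm_nonneg _)) (hle _)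
  have h3 : 0 ≤ m.2 := by
    have h4 : Tendsto (fun k => (‖n (φ k)‖⁻¹ • n (φ k)).2) atTop (𝓝 m.2) :=
      (continuous_snd.tendsto m).comp hlim
    refine ge_of_tendsto' h4 fun k => ?_
    simp only [Prod.smul_snd, smul_eq_mul]
    exact mul_nonneg (inv_nonneg.2 (norm_nonneg _)) (hn2 _)
  exact absurd (h m hm h3) (not_lt.2 h2)

/-- six angles. -/
noncomputable def sx (f : ℝ) (j : Fin 6) : ℝ := f + (j : ℕ) * (Real.pi / 3)

lemma m2_sx (f : ℝ) (k : ℤ) : ∃ j : Fin 6, eA (sx f j) = eA (f + k * (Real.pi / 3)) := by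
  have h6 : (k % 6).toNat < 6 := by
    have := Int.emod_lt_of_pos k (show (0 : ℤ) < 6 by norm_num)
    have := Int.emod_nonneg k (show (6 : ℤ) ≠ 0 by norm_num)
    omega
  refine ⟨⟨(k % 6).toNat, h6⟩, ?_⟩
  have hn' : (((k % 6).toNat : ℕ) : ℤ) = k % 6 :=
    Int.toNat_of_nonneg (Int.emod_nonneg _ (by norm_num))
  have hk : k = 6 * (k / 6) + (k % 6).toNat := by
    rw [hn']; exact (Int.mul_ediv_add_emod k 6).symm
  have hkr : (k : ℝ) = 6 * ((k / 6 : ℤ) : ℝ) + ((k % 6).toNat : ℕ) := by exact_mod_cast hk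
  have : f + k * (Real.pi / 3) = sx f ⟨(k % 6).toNat, h6⟩ + ((k / 6 : ℤ) : ℝ) * (2 * Real.pi) := by
    rw [hkr]; simp only [sx]; ring
  rw [this, r35_per]

/-- polar form with the angle near `a`. -/
lemma m2_polar {q : ℂ} (hq : q ≠ 0) (a : ℝ)
    (h : Real.cos (Real.pi / 6) * ‖q‖ ≤ dotC q (eA a)) :
    ∃ d : ℝ, |d| ≤ Real.pi / 6 ∧ q = (‖q‖ : ℂ) * eA (a + d) := by
  have hpi := Real.pi_pos
  have hc : 0 < ‖q‖ := norm_pos_iff.mpr hq
  set d : ℝ := Complex.arg (q / eA a) with hd
  have hms : q = (‖q‖ : ℂ) * eA (a + d) := by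
    have h := Complex.norm_mul_exp_arg_mul_I (q / eA a)
    have hn : ‖q / eA a‖ = ‖q‖ := by rw [norm_div, norm_eA, div_one]
    rw [hn, ← hd] at h
    rw [eA_add, eA_eq_exp d]
    have h0 := eA_ne_zero a
    calc q = eA a * (q / eA a) := by field_simp
      _ = _ := by rw [← h]; ring
  refine ⟨d, ?_, hms⟩
  rw [hms, dotC_ofReal_left, dotC_eA] at h
  have e : a + d - a = d := by ring
  rw [e, ← hms] at h
  have h1 : Real.cos (Real.pi / 6) ≤ Real.cos d := by
    have : ‖q‖ * Real.cos (Real.pi / 6) ≤ ‖q‖ * Real.cos d := by linarith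
    exact le_of_mul_le_mul_left this hc
  by_contra hcon
  push Not at hcon
  have h2 : Real.cos |d| < Real.cos (Real.pi / 6) :=
    Real.cos_lt_cos_of_nonneg_of_le_pi (by positivity) (Complex.abs_arg_le_pi _) hcon
  rw [Real.cos_abs] at h2
  linarith

/-- the nearest of the six angles. -/
lemma m2_near (f : ℝ) (q : ℂ) : ∃ j : Fin 6,
    Real.cos (Real.pi / 6) * ‖q‖ ≤ dotC q (eA (sx f j)) := by
  have hpi := Real.pi_pos
  by_cases hq : q = 0
  · exact ⟨0, by rw [hq]; simp [dotC_zero_left]⟩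
  set t : ℝ := Complex.arg q with ht
  have hqt : q = (‖q‖ : ℂ) * eA t := by
    rw [eA_eq_exp, ht]; exact (Complex.norm_mul_exp_arg_mul_I q).symm
  set k : ℤ := ⌊(t - f + Real.pi / 6) / (Real.pi / 3)⌋ with hk
  have hk1 : (k : ℝ) * (Real.pi / 3) ≤ t - f + Real.pi / 6 := by
    have := Int.floor_le ((t - f + Real.pi / 6) / (Real.pi / 3))
    rw [← hk, le_div_iff₀ (by positivity)] at this
    exact this
  have hk2 : t - f + Real.pi / 6 < ((k : ℝ) + 1) * (Real.pi / 3) := by
    have := Int.lt_floor_add_one ((t - f + Real.pi / 6) / (Real.pi / 3))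
    rw [← hk, div_lt_iff₀ (by positivity)] at this
    exact this
  obtain ⟨j, hj⟩ := m2_sx f k
  refine ⟨j, ?_⟩
  rw [hj]
  have e : dotC q (eA (f + k * (Real.pi / 3))) = ‖q‖ * Real.cos (t - (f + k * (Real.pi / 3))) := by
    conv_lhs => rw [hqt]
    rw [dotC_ofReal_left, dotC_eA]
  rw [e, mul_comm]
  apply mul_le_mul_of_nonneg_left _ (norm_nonneg _)
  rw [← Real.cos_abs (t - (f + k * (Real.pi / 3)))]
  exact Real.cos_le_cos_of_nonneg_of_le_pi (abs_nonneg _) (by linarith)
    (by rw [abs_le]; constructor <;> linarith)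

/-- all normals have a nonnegative product with the nearest angles. -/
lemma m2_nonneg {K : Set Q3} (hK : RB 3 K) {x : Q3} (hx : x ∈ K) (hx0 : x.1 ≠ 0) {a : ℝ}
    (ha : Real.cos (Real.pi / 6) * ‖x.1‖ ≤ dotC x.1 (eA a)) {n : Q3} (hn : Nm K x n) :
    0 ≤ dotC n.1 (eA a) := by
  by_cases h1 : n.1 = 0
  · rw [h1, dotC_zero_left]
  obtain ⟨d, hd, hq⟩ := m2_polar hx0 a ha
  have hr : 0 < ‖x.1‖ := norm_pos_iff.mpr hx0
  have r1 := r34_rotmem hK hx
  have r2 := r34_rotmem hK r1
  have a1 := hn.2 _ r1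
  have a2 := hn.2 _ r2
  simp only [pr] at a1 a2
  obtain ⟨c, s, hc, hs, hns⟩ := r34_ang hr hq h1 (by linarith) (by linarith)
  rw [hns, dotC_ofReal_left, dotC_eA]
  rw [abs_le] at hs hd
  exact mul_nonneg hc.le (Real.cos_nonneg_of_mem_Icc ⟨by linarith, by linarith⟩)

/-- the local statement at a point. -/
lemma m2_svu {K : Set Q3} (hK : RB 3 K) {h h' : ℝ} (h0 : ((0, h) : Q3) ∈ K)
    (htop : ∀ x ∈ K, x.2 = h → Sv K x (0, 1)) (hle : ∀ x ∈ K, x.2 ≤ h)
    (hb : FlatTop (fl K) h') {f : ℝ}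
    (hf : ∀ t ∈ {t : ℝ | ∃ r z s : ℝ, 0 < r ∧ Mx K ((r : ℂ) * eA t, z) ∧
      Nm K ((r : ℂ) * eA t, z) (eA (t + Real.pi / 3), s)}, ∀ k : ℤ,
      f ≠ t - Real.pi / 6 - k * (Real.pi / 3))
    {x : Q3} (hx : x ∈ K) (hns : ¬ Sv K x (0, 1)) {j : Fin 6}
    (hj : Real.cos (Real.pi / 6) * ‖x.1‖ ≤ dotC x.1 (eA (sx f j))) :
    Svu K x (eA (sx f j), 0) := by
  have hpi := Real.pi_pos
  intro n hn hn2
  simp only [pr, mul_zero, add_zero]
  by_contra hcon
  push Not at hcon
  have hxh : x.2 < h := by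
    rcases eq_or_lt_of_le (hle x hx) with h1 | h1
    · exact absurd (htop x hx h1) hns
    · exact h1
  -- the horizontal part is not zero
  have hn1 : n.1 ≠ 0 := by
    intro h1
    have h2 := hn.2 _ h0
    simp only [pr, h1, dotC_zero_left, zero_add] at h2
    have h3 : 0 < n.2 := lt_of_le_of_ne hn2 (fun h3 => hn.1 (Prod.ext h1 h3.symm))
    nlinarith
  -- `x` is not on the axis
  have hx1 : x.1 ≠ 0 := by
    intro hx1
    have a1 := hn.2 _ h0
    simp only [pr, hx1, dotC_zero_right, zero_add] at a1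
    have hz : n.2 = 0 := by
      by_contra hne
      have : 0 < n.2 := lt_of_le_of_ne hn2 (Ne.symm hne)
      nlinarith
    obtain ⟨ε, hε, H⟩ := hb.2
    have hnn : 0 < ‖n.1‖ := norm_pos_iff.mpr hn1
    have hy : ((((ε / 2 / ‖n.1‖ : ℝ) : ℂ) * n.1, -h') : Q3) ∈ K := by
      apply H
      rw [norm_mul, Complex.norm_real, Real.norm_eq_abs, abs_of_pos (by positivity)]
      have : ε / 2 / ‖n.1‖ * ‖n.1‖ = ε / 2 := by field_simp
      rw [this]; linarith
    have := hn.2 _ hy
    simp only [pr] at this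
    rw [dotC_ofReal_right, dotC_self, hx1, dotC_zero_right, hz] at this
    have h5 : 0 < ε / 2 / ‖n.1‖ * ‖n.1‖ ^ 2 := by positivity
    linarith
  obtain ⟨d, hd, hq⟩ := m2_polar hx1 _ hj
  have hr : 0 < ‖x.1‖ := norm_pos_iff.mpr hx1
  have r1 := r34_rotmem hK hx
  have r2 := r34_rotmem hK r1
  have a1 := hn.2 _ r1
  have a2 := hn.2 _ r2
  simp only [pr] at a1 a2
  obtain ⟨c, s, hc, hs, hnsa⟩ := r34_ang hr hq hn1 (by linarith) (by linarith)
  -- mixed
  have hm : Mx K x := by
    rcases trich ⟨0, hK.zero⟩ hx with h1 | h1 | h1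
    · exfalso
      apply hns
      intro m hm
      have := h1 m hm
      simp only [pr, dotC_zero_right, mul_one, zero_add]
      exact this
    · exact absurd (h1 n hn) (by linarith)
    · exact h1
  rw [hnsa, dotC_ofReal_left, dotC_eA] at hcon
  have hcos : Real.cos (sx f j + d + s - sx f j) ≤ 0 := by
    by_contra h1
    push Not at h1
    have := mul_pos hc h1
    linarith
  have e : sx f j + d + s - sx f j = d + s := by ring
  rw [e] at hcos
  rw [abs_le] at hs hd
  -- unit normal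
  have hu : Nm K x (eA (sx f j + d + s), n.2 / c) := by
    refine ⟨fun h0 => eA_ne_zero _ (congrArg Prod.fst h0), fun y hy => ?_⟩
    have := hn.2 y hy
    simp only [pr] at this ⊢
    rw [hnsa, dotC_ofReal_left, dotC_ofReal_left] at this
    have e : ∀ w u : ℝ, c * (w + n.2 / c * u) = c * w + n.2 * u := by
      intro w u; field_simp
    refine le_of_mul_le_mul_left ?_ hc
    rw [e, e]
    exact this
  have hxe : x = (((‖x.1‖ : ℝ) : ℂ) * eA (sx f j + d), x.2) := Prod.ext hq rfl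
  rcases le_or_gt (Real.pi / 2) (d + s) with h1 | h1
  · -- `d = 30`, `s = 60`
    have hd' : d = Real.pi / 6 := by linarith
    have hs' : s = Real.pi / 3 := by linarith
    refine hf (sx f j + d) ⟨‖x.1‖, x.2, n.2 / c, hr, ?_, ?_⟩ ((j : ℕ) : ℤ) ?_
    · rw [← hxe]; exact hm
    · rw [← hxe, ← hs']; exact hu
    · rw [hd']; simp only [sx]; push_cast; ring
  · have h2 : d + s ≤ -(Real.pi / 2) := by
      by_contra h3
      push Not at h3
      have : 0 < Real.cos (d + s) := Real.cos_pos_of_mem_Ioo ⟨by linarith, by linarith⟩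
      linarith
    have hd' : d = -(Real.pi / 6) := by linarith
    have hs' : s = -(Real.pi / 3) := by linarith
    refine hf (sx f j + d) ⟨‖x.1‖, x.2, n.2 / c, hr, ?_, ?_⟩ ((j : ℕ) - 1 : ℤ) ?_
    · rw [← hxe]; exact hm
    · rw [← hxe]
      -- the normal `e_(t-60)` at `x` is a normal at the rotated point; rotate it back
      refine ⟨fun h0 => eA_ne_zero _ (congrArg Prod.fst h0), fun y hy => ?_⟩
      have hy2 := r34_rotmem hK (r34_rotmem hK hy)
      have h3 := hu.2 _ hy2
      simp only [pr] at h3 ⊢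
      have e1 : dotC (eA (sx f j + d + s))
          (eA (2 * Real.pi / 3) * (eA (2 * Real.pi / 3) * y.1)) =
          dotC (eA (sx f j + d + Real.pi / 3)) y.1 := by
        have e2 : eA (2 * Real.pi / 3) * (eA (2 * Real.pi / 3) *
            eA (sx f j + d + Real.pi / 3)) = eA (sx f j + d + s) := by
          rw [← eA_add, ← eA_add]
          have : 2 * Real.pi / 3 + (2 * Real.pi / 3 + (sx f j + d + Real.pi / 3)) =
              sx f j + d + s + ((1 : ℤ) : ℝ) * (2 * Real.pi) := by rw [hs']; push_cast; ring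
          rw [this, r35_per]
        rw [← e2, dotC_mul_mul, dotC_mul_mul, norm_eA]; ring
      rw [e1] at h3
      have e3 : dotC (eA (sx f j + d + s)) x.1 = dotC (eA (sx f j + d + Real.pi / 3)) x.1 := by
        rw [hq, dotC_ofReal_right, dotC_ofReal_right, dotC_eA, dotC_eA]
        have q1 : sx f j + d + s - (sx f j + d) = -(Real.pi / 3) := by rw [hs']; ring
        have q2 : sx f j + d + Real.pi / 3 - (sx f j + d) = Real.pi / 3 := by ring
        rw [q1, q2, Real.cos_neg]
      rw [e3] at h3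
      exact h3
    · rw [hd']; simp only [sx]; push_cast; ring

theorem caseI3 {K : Set Q3} (hK : RB 3 K) {h h' : ℝ} (hle : ∀ x ∈ K, x.2 ≤ h)
    (h0 : ((0, h) : Q3) ∈ K)
    (htop : ∀ x ∈ K, x.2 = h → Sv K x (0, 1)) (hb : FlatTop (fl K) h') : Served K 7 := by
  have hpi := Real.pi_pos
  -- the choice of `f`
  obtain ⟨f, hf⟩ : ∃ f : ℝ, ∀ t ∈ {t : ℝ | ∃ r z s : ℝ, 0 < r ∧ Mx K ((r : ℂ) * eA t, z) ∧
      Nm K ((r : ℂ) * eA t, z) (eA (t + Real.pi / 3), s)}, ∀ k : ℤ,
      f ≠ t - Real.pi / 6 - k * (Real.pi / 3) := by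
    have hc := full_countable hK
    set C := {t : ℝ | ∃ r z s : ℝ, 0 < r ∧ Mx K ((r : ℂ) * eA t, z) ∧
      Nm K ((r : ℂ) * eA t, z) (eA (t + Real.pi / 3), s)}
    have hc2 : (⋃ k : ℤ, (fun t : ℝ => t - Real.pi / 6 - k * (Real.pi / 3)) '' C).Countable :=
      countable_iUnion fun k => hc.image _
    obtain ⟨f, hf⟩ := (hc2.dense_compl ℝ).nonempty
    refine ⟨f, fun t ht k hfk => hf ?_⟩
    rw [mem_iUnion]
    exact ⟨k, t, ht, hfk.symm⟩
  obtain ⟨τ, hτ, H⟩ := exists_small hK.comp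
    (fun x τ => Sv K x (0, 1) ∨ ∃ j : Fin 6, Sv K x (eA (sx f j), -τ)) (by
      intro x hx
      by_cases hs : Sv K x (0, 1)
      · obtain ⟨δ, hδ, hd⟩ := sv_open hs
        exact ⟨δ, hδ, fun y hy hyx τ _ _ => Or.inl (hd y hy hyx _ (by rwa [dist_self]))⟩
      · -- the radius for one `j`
        have one : ∀ j : Fin 6, ∃ δ > 0, ∀ y ∈ K, dist y x < δ →
            Real.cos (Real.pi / 6) * ‖y.1‖ ≤ dotC y.1 (eA (sx f j)) →
            ∀ τ, 0 < τ → τ < δ → Svu K y (eA (sx f j), -τ) := by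
          intro j
          by_cases hj : Real.cos (Real.pi / 6) * ‖x.1‖ ≤ dotC x.1 (eA (sx f j))
          · obtain ⟨δ, hδ, hd⟩ := svu_open (m2_svu hK h0 htop hle hb hf hx hs hj)
            refine ⟨δ, hδ, fun y hy hyx _ τ h1 h2 => hd y hy hyx _ ?_⟩
            rw [Prod.dist_eq]
            simp only [dist_self]
            rw [Real.dist_eq, max_lt_iff]
            refine ⟨hδ, ?_⟩
            rw [abs_lt]; constructor <;> linarith
          · push Not at hj
            have hcont : Continuous (fun y : Q3 =>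
                Real.cos (Real.pi / 6) * ‖y.1‖ - dotC y.1 (eA (sx f j))) := by
              simp only [dotC]; fun_prop
            have hopen : ∀ᶠ y in 𝓝 x, 0 < Real.cos (Real.pi / 6) * ‖y.1‖ -
                dotC y.1 (eA (sx f j)) :=
              hcont.continuousAt.eventually (lt_mem_nhds (by linarith))
            obtain ⟨δ, hδ, hd⟩ := Metric.eventually_nhds_iff.mp hopen
            refine ⟨δ, hδ, fun y _ hyx hle' => ?_⟩
            have := hd hyx
            linarith
        choose δ hδ hd using one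
        have hx2 : x.2 < h := by
          rcases eq_or_lt_of_le (hle x hx) with h1 | h1
          · exact absurd (htop x hx h1) hs
          · exact h1
        set δ₀ : ℝ := Finset.univ.inf' ⟨0, Finset.mem_univ _⟩ δ with hδ₀
        have hpos : 0 < δ₀ := by
          rw [hδ₀, Finset.lt_inf'_iff]
          exact fun j _ => hδ j
        have hle₀ : ∀ j, δ₀ ≤ δ j := fun j => Finset.inf'_le _ (Finset.mem_univ j)
        refine ⟨δ₀, hpos, fun y hy hyx τ h1 h2 => Or.inr ?_⟩
        obtain ⟨j, hj⟩ := m2_near f y.1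
        refine ⟨j, fun n hn => ?_⟩
        rcases le_or_gt 0 n.2 with h3 | h3
        · exact hd j y hy (hyx.trans_le (hle₀ j)) hj τ h1 (h2.trans_le (hle₀ j)) n hn h3
        · have h4 : 0 ≤ dotC n.1 (eA (sx f j)) := by
            by_cases hy0 : y.1 = 0
            · -- on the axis: the horizontal part is zero
              have hn1 : n.1 = 0 := by
                by_contra hn1
                obtain ⟨ε, hε, H⟩ := hb.2
                have hnn : 0 < ‖n.1‖ := norm_pos_iff.mpr hn1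
                have hyK : ((((ε / 2 / ‖n.1‖ : ℝ) : ℂ) * n.1, -h') : Q3) ∈ K := by
                  apply H
                  rw [norm_mul, Complex.norm_real, Real.norm_eq_abs, abs_of_pos (by positivity)]
                  have : ε / 2 / ‖n.1‖ * ‖n.1‖ = ε / 2 := by field_simp
                  rw [this]; linarith
                have := hn.2 _ hyK
                simp only [pr] at this
                rw [dotC_ofReal_right, dotC_self, hy0, dotC_zero_right] at this
                have h5 : 0 < ε / 2 / ‖n.1‖ * ‖n.1‖ ^ 2 := by positivity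
                have h6 : -y.2 ≤ h' := hb.1 (y.1, -y.2) (by
                  change ((y.1, - -y.2) : Q3) ∈ K
                  rw [neg_neg]; exact hy)
                nlinarith [mul_nonneg (neg_pos.mpr h3).le (by linarith : 0 ≤ h' + y.2)]
              rw [hn1, dotC_zero_left]
            · exact m2_nonneg hK hy hy0 hj hn
          simp only [pr]
          nlinarith [mul_pos (neg_pos.mpr h3) h1])
  -- assembly
  refine served_of_fintype (ι := Option (Fin 6)) (by simp)
    (fun i => match i with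
      | none => (0, 1)
      | some j => (eA (sx f j), -τ)) ?_
  intro x hx
  rcases H x hx with h1 | ⟨j, hj⟩
  · exact ⟨none, h1⟩
  · exact ⟨some j, hj⟩

end Pool.Agent.Lib.MP_5e7226_co.RT
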