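import Pool.Agent.Lib.MP_5e7226_co.RT.IIIA
import Pool.Agent.Lib.MP_5e7226_co.RT.IIDefs

/-!
# MP_5e7226, E^3 rotations, row M3: order at least four
-/

set_option autoImplicit false

open Set Filter Topology
open scoped Real

namespace Pool.Agent.Lib.MP_5e7226_co.RT

lemma m3_prim {p : ℕ} (hp : 3 ≤ p) : IsPrimitiveRoot (eA (2 * Real.pi / p)) p := by
  have h := Complex.isPrimitiveRoot_exp p (by omega)
  rw [eA_eq_exp]
  have e : ((2 * Real.pi / p : ℝ) : ℂ) * Complex.I = 2 * Real.pi * Complex.I / p := by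
    push_cast
    ring
  rw [e]
  exact h

lemma m3_pow (t : ℝ) (k : ℕ) : eA t ^ k = eA (k * t) := by
  rw [eA_eq_exp, eA_eq_exp, ← Complex.exp_nat_mul]
  congr 1
  push_cast
  ring

lemma m3_rot {p : ℕ} {K : Set Q3} (hK : RB p K) {x : Q3} (hx : x ∈ K) (k : ℕ) :
    ((eA (2 * Real.pi / p) ^ k * x.1, x.2) : Q3) ∈ K := by
  induction k with
  | zero => simpa using hx
  | succ k ih =>
    have h := hK.rot _ ih
    have e : eA (2 * Real.pi / p) ^ (k + 1) * x.1 =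
        eA (2 * Real.pi / p) * (eA (2 * Real.pi / p) ^ k * x.1) := by rw [pow_succ]; ring
    rw [e]
    exact h

/-- The angle of a normal, any `p`: `⟪n.1, x.1⟫ ≥ cos (π/p) |n.1| |x.1|`. -/
theorem angle_dot {p : ℕ} {K : Set Q3} (hK : RB p K) {x n : Q3} (hx : x ∈ K) (hn : Nm K x n) :
    Real.cos (π / p) * ‖n.1‖ * ‖x.1‖ ≤ dotC n.1 x.1 := by
  have hp := hK.p3
  obtain ⟨k, hk⟩ := exists_rot_gen (by omega) (m3_prim hp) n.1 x.1
  have h1 := hn.2 _ (m3_rot hK hx k)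
  unfold pr at h1
  simp only at h1
  linarith

lemma m3_polar (x z : ℂ) (hx : x ≠ 0) :
    ∃ t : ℝ, |t| ≤ π ∧ z = ((‖z‖ / ‖x‖ : ℝ) : ℂ) * (x * eA t) := by
  refine ⟨Complex.arg (z / x), Complex.abs_arg_le_pi _, ?_⟩
  have h := Complex.norm_mul_exp_arg_mul_I (z / x)
  rw [eA_eq_exp]
  have h1 : ((‖z‖ / ‖x‖ : ℝ) : ℂ) = (‖z / x‖ : ℂ) := by
    rw [norm_div]
  rw [h1]
  calc z = x * (z / x) := by field_simp
    _ = x * (‖z / x‖ * Complex.exp (Complex.arg (z / x) * Complex.I)) := by rw [h]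
    _ = _ := by ring

lemma m3_abs_le {t α : ℝ} (ht : |t| ≤ π) (hα : 0 ≤ α) (h : Real.cos α ≤ Real.cos t) :
    |t| ≤ α := by
  by_contra hc
  rw [not_le] at hc
  have h1 := Real.cos_lt_cos_of_nonneg_of_le_pi hα ht hc
  rw [Real.cos_abs] at h1
  linarith

lemma m3_angle {n x e : ℂ} {α β : ℝ} (hx : x ≠ 0) (hα : 0 ≤ α) (hβ : 0 ≤ β) (hab : α + β ≤ π)
    (h1 : Real.cos α * ‖n‖ * ‖x‖ ≤ dotC n x) (h2 : Real.cos β * ‖x‖ * ‖e‖ ≤ dotC x e) :
    Real.cos (α + β) * ‖n‖ * ‖e‖ ≤ dotC n e := by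
  by_cases hn0 : n = 0
  · rw [hn0]; simp [dotC]
  by_cases he0 : e = 0
  · rw [he0]; simp [dotC]
  have hN : 0 < ‖n‖ := norm_pos_iff.2 hn0
  have hE : 0 < ‖e‖ := norm_pos_iff.2 he0
  have hX : 0 < ‖x‖ := norm_pos_iff.2 hx
  obtain ⟨s, hs, hns⟩ := m3_polar x n hx
  obtain ⟨t, ht, het⟩ := m3_polar x e hx
  have d1 : dotC n x = ‖n‖ * ‖x‖ * Real.cos s := by
    have e1 : dotC n x = dotC (((‖n‖ / ‖x‖ : ℝ) : ℂ) * (x * eA s)) (x * eA 0) := by
      rw [← hns, eA_zero, mul_one]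
    rw [e1, dotC_ofReal_left, dotC_mul_eA, sub_zero]
    field_simp
  have d2 : dotC x e = ‖x‖ * ‖e‖ * Real.cos t := by
    have e1 : dotC x e = dotC (x * eA 0) (((‖e‖ / ‖x‖ : ℝ) : ℂ) * (x * eA t)) := by
      rw [← het, eA_zero, mul_one]
    rw [e1, dotC_ofReal_right, dotC_mul_eA, zero_sub, Real.cos_neg]
    field_simp
  have d3 : dotC n e = ‖n‖ * ‖e‖ * Real.cos (s - t) := by
    have e1 : dotC n e = dotC (((‖n‖ / ‖x‖ : ℝ) : ℂ) * (x * eA s))
        (((‖e‖ / ‖x‖ : ℝ) : ℂ) * (x * eA t)) := by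
      rw [← hns, ← het]
    rw [e1, dotC_ofReal_left, dotC_ofReal_right, dotC_mul_eA]
    field_simp
  have c1 : Real.cos α ≤ Real.cos s := by
    rw [d1] at h1
    have : Real.cos α * (‖n‖ * ‖x‖) ≤ Real.cos s * (‖n‖ * ‖x‖) := by linarith
    exact le_of_mul_le_mul_right this (by positivity)
  have c2 : Real.cos β ≤ Real.cos t := by
    rw [d2] at h2
    have : Real.cos β * (‖x‖ * ‖e‖) ≤ Real.cos t * (‖x‖ * ‖e‖) := by linarith
    exact le_of_mul_le_mul_right this (by positivity)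
  have a1 := m3_abs_le hs hα c1
  have a2 := m3_abs_le ht hβ c2
  have a3 : |s - t| ≤ α + β := (abs_sub s t).trans (by linarith)
  have c3 : Real.cos (α + β) ≤ Real.cos (s - t) := by
    rw [← Real.cos_abs (s - t)]
    exact Real.cos_le_cos_of_nonneg_of_le_pi (abs_nonneg _) hab a3
  rw [d3]
  have h0 : 0 ≤ ‖n‖ * ‖e‖ := by positivity
  nlinarith [mul_le_mul_of_nonneg_right c3 h0]

/-- For `p ≥ 4` one of five horizontals is strongly positive on all normals. -/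
theorem five_dirs {p : ℕ} (hp : 4 ≤ p) {K : Set Q3} (hK : RB p K) : ∃ c : ℝ, 0 < c ∧
    ∀ x ∈ K, x.1 ≠ 0 → ∃ j : Fin 5, ∀ n, Nm K x n →
      c * ‖n.1‖ ≤ dotC n.1 (eA (2 * π * (j : ℕ) / 5)) := by
  have hpi := Real.pi_pos
  refine ⟨Real.cos (π / 4 + π / 5), Real.cos_pos_of_mem_Ioo ⟨by linarith, by linarith⟩, ?_⟩
  intro x hx hx0
  obtain ⟨k, hk⟩ := exists_rot_gen (show 2 ≤ 5 by norm_num) (m3_prim (show 3 ≤ 5 by norm_num)) x.1 1
  have hk5 : eA (2 * Real.pi / (5 : ℕ)) ^ k * 1 = eA (2 * π * ((k % 5 : ℕ) : ℝ) / 5) := by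
    have h1 : eA (2 * Real.pi / (5 : ℕ)) ^ k = eA (2 * Real.pi / (5 : ℕ)) ^ (k % 5) := by
      conv_lhs => rw [← Nat.div_add_mod k 5]
      rw [pow_add, pow_mul, (m3_prim (show 3 ≤ 5 by norm_num)).pow_eq_one, one_pow, one_mul]
    rw [h1, m3_pow, mul_one]
    congr 1
    push_cast
    ring
  rw [hk5] at hk
  refine ⟨⟨k % 5, Nat.mod_lt _ (by norm_num)⟩, ?_⟩
  intro n hn
  have h1 := angle_dot hK hx hn
  have hp4 : (4 : ℝ) ≤ p := by exact_mod_cast hp
  have h2 : Real.cos (π / 4) ≤ Real.cos (π / p) :=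
    Real.cos_le_cos_of_nonneg_of_le_pi (by positivity) (by linarith)
      (div_le_div_of_nonneg_left hpi.le (by norm_num) hp4)
  have h3 : Real.cos (π / 4) * ‖n.1‖ * ‖x.1‖ ≤ dotC n.1 x.1 := by
    have h0 : 0 ≤ ‖n.1‖ * ‖x.1‖ := by positivity
    have := mul_le_mul_of_nonneg_right h2 h0
    linarith
  have h4 : Real.cos (π / 5) * ‖x.1‖ * ‖eA (2 * π * ((k % 5 : ℕ) : ℝ) / 5)‖ ≤
      dotC x.1 (eA (2 * π * ((k % 5 : ℕ) : ℝ) / 5)) := by
    rw [norm_eA]
    simpa using hk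
  have h5 := m3_angle hx0 (by positivity) (by positivity) (by linarith) h3 h4
  rw [norm_eA, mul_one] at h5
  exact h5

lemma m3_pos {p : ℕ} {K : Set Q3} (hK : RB p K) {x n : Q3} (h : Nm K x n) : 0 < pr n x := by
  have h0 := hK.zero
  rw [mem_interior_iff_mem_nhds] at h0
  have hc : Tendsto (fun c : ℝ => c • n) (𝓝 0) (𝓝 ((0 : ℝ) • n)) :=
    (continuous_id.smul continuous_const).tendsto 0
  rw [zero_smul] at hc
  have h1 : ∀ᶠ c : ℝ in 𝓝 0, c • n ∈ K := hc h0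
  obtain ⟨ε, hε, h2⟩ := Metric.eventually_nhds_iff.mp h1
  have h3 : (ε / 2) • n ∈ K := h2 (by
    rw [dist_zero_right, Real.norm_eq_abs, abs_of_pos (by linarith)]; linarith)
  have h4 := h.2 _ h3
  rw [pr_smul_right] at h4
  have h6 : 0 < pr n n := by
    have e : pr n n = ‖n.1‖ ^ 2 + n.2 * n.2 := by
      unfold pr
      rw [dotC_self]
    rw [e]
    by_contra hc
    push Not at hc
    have g1 : ‖n.1‖ ^ 2 = 0 := by nlinarith [sq_nonneg ‖n.1‖, mul_self_nonneg n.2]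
    have g2 : n.2 * n.2 = 0 := by nlinarith [sq_nonneg ‖n.1‖, mul_self_nonneg n.2]
    have g3 : n.1 = 0 := by
      have := pow_eq_zero_iff (two_ne_zero) |>.1 g1
      exact norm_eq_zero.1 this
    have g4 : n.2 = 0 := mul_self_eq_zero.1 g2
    exact h.1 (Prod.ext g3 g4)
  have h5 := mul_pos (half_pos hε) h6
  linarith

lemma m3_pr_zero (n : Q3) (z : ℝ) : pr n ((0 : ℂ), z) = n.2 * z := by
  unfold pr
  rw [dotC_zero_right, zero_add]

/-- Case II, `p ≥ 4`: the vectors `(0, 1)`, `(0, -1)` and `(eA (2 π j / 5), 0)`. -/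
theorem caseII4 {p : ℕ} (hp : 4 ≤ p) {K : Set Q3} (hK : RB p K) {h h' : ℝ} (hT : Top K h)
    (hB : Bot K h') : Served K 7 := by
  obtain ⟨c, hc, hfive⟩ := five_dirs hp hK
  refine served_of_fintype (ι := Bool ⊕ Fin 5) (by simp)
    (Sum.elim (fun b : Bool => if b then (0, 1) else (0, -1))
      (fun j : Fin 5 => (eA (2 * π * (j : ℕ) / 5), 0))) ?_
  intro x hx
  by_cases hx1 : x.1 = 0
  · have hpr : ∀ n, Nm K x n → 0 < n.2 * x.2 := by
      intro n hn
      have h1 := m3_pos hK hn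
      have h2 : x = ((0 : ℂ), x.2) := Prod.ext hx1 rfl
      rw [h2, m3_pr_zero] at h1
      exact h1
    rcases le_total 0 x.2 with hz | hz
    · refine ⟨Sum.inl true, fun n hn => ?_⟩
      have h1 := hpr n hn
      have h2 : 0 < n.2 := by
        by_contra hcon
        rw [not_lt] at hcon
        have := mul_nonpos_of_nonpos_of_nonneg hcon hz
        linarith
      have h3 : pr n (0, 1) = n.2 * 1 := m3_pr_zero n 1
      show 0 < pr n (if true = true then ((0, 1) : Q3) else (0, -1))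
      rw [if_pos rfl, h3]
      linarith
    · refine ⟨Sum.inl false, fun n hn => ?_⟩
      have h1 := hpr n hn
      have h2 : n.2 < 0 := by
        by_contra hcon
        rw [not_lt] at hcon
        have := mul_nonpos_of_nonneg_of_nonpos hcon hz
        linarith
      have h3 : pr n (0, -1) = n.2 * (-1) := m3_pr_zero n (-1)
      show 0 < pr n (if false = true then ((0, 1) : Q3) else (0, -1))
      rw [if_neg (by decide), h3]
      linarith
  · obtain ⟨j, hj⟩ := hfive x hx hx1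
    refine ⟨Sum.inr j, fun n hn => ?_⟩
    have hn1 : n.1 ≠ 0 := by
      intro h0
      have hn2 : n.2 ≠ 0 := fun h2 => hn.1 (Prod.ext h0 h2)
      have e1 : ∀ y : Q3, pr n y = n.2 * y.2 := by
        intro y
        unfold pr
        rw [h0, dotC_zero_left, zero_add]
      rcases lt_or_gt_of_ne hn2 with hlt | hgt
      · have h1 := hn.2 _ hB.mem
        rw [e1, e1] at h1
        have h2 : x.2 ≤ -h' := by
          by_contra hcon
          rw [not_le] at hcon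
          have := mul_lt_mul_of_neg_left hcon hlt
          simp only at h1
          linarith
        exact hx1 (hB.eq x hx (le_antisymm h2 (hB.le x hx)))
      · have h1 := hn.2 _ hT.mem
        rw [e1, e1] at h1
        have h2 : h ≤ x.2 := by
          by_contra hcon
          rw [not_le] at hcon
          have := mul_lt_mul_of_pos_left hcon hgt
          simp only at h1
          linarith
        exact hx1 (hT.eq x hx (le_antisymm (hT.le x hx) h2))
    have h1 := hj n hn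
    have h2 : 0 < c * ‖n.1‖ := mul_pos hc (norm_pos_iff.2 hn1)
    show 0 < pr n (eA (2 * π * (j : ℕ) / 5), 0)
    unfold pr
    simp only [mul_zero, add_zero]
    linarith

/-- points not served by `(0, 1)` have no steep upward normals -/
lemma m3_slope {p : ℕ} {K : Set Q3} (hK : RB p K) {h : ℝ} (hle : ∀ x ∈ K, x.2 ≤ h)
    (hmem : ((0 : ℂ), h) ∈ K) (htop : ∀ x ∈ K, x.2 = h → Sv K x (0, 1)) :
    ∃ C : ℝ, 0 < C ∧ ∀ x ∈ K, ¬ Sv K x (0, 1) → ∀ n, Nm K x n → n.2 ≤ C * ‖n.1‖ := by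
  by_contra hcon
  push Not at hcon
  have hseq : ∀ k : ℕ, ∃ x, x ∈ K ∧ ¬ Sv K x (0, 1) ∧ ∃ n, Nm K x n ∧
      ((k : ℝ) + 1) * ‖n.1‖ < n.2 := fun k => hcon ((k : ℝ) + 1) (by positivity)
  choose x hxK hxs n hn hlt using hseq
  obtain ⟨x0, hx0, φ, hφ, hlim⟩ := hK.comp.tendsto_subseq hxK
  obtain ⟨ψ, m, hψ, hm, hl⟩ := normal_limit (y := x ∘ φ) (n := n ∘ φ) hlim
    (fun k => hn (φ k))
  have h0 : Tendsto (fun k : ℕ => 1 / ((k : ℝ) + 1)) atTop (𝓝 0) :=
    tendsto_one_div_add_atTop_nhds_zero_nat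
  have hbd : ∀ k, ‖(‖(n ∘ φ) (ψ k)‖⁻¹ • (n ∘ φ) (ψ k)).1‖ ≤ 1 / ((k : ℝ) + 1) := by
    intro k
    have hpos : 0 < ‖(n ∘ φ) (ψ k)‖ := norm_pos_iff.2 (hn _).1
    have h1 := hlt (φ (ψ k))
    have h2 : ‖((n ∘ φ) (ψ k)).2‖ ≤ ‖(n ∘ φ) (ψ k)‖ := norm_snd_le _
    have h3 : ((n ∘ φ) (ψ k)).2 ≤ ‖(n ∘ φ) (ψ k)‖ := (le_abs_self _).trans h2
    have h4 : (k : ℝ) + 1 ≤ (φ (ψ k) : ℝ) + 1 := by
      have : k ≤ φ (ψ k) := (hψ.id_le k).trans (hφ.id_le _)
      have : (k : ℝ) ≤ (φ (ψ k) : ℝ) := by exact_mod_cast this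
      linarith
    have h5 : ((k : ℝ) + 1) * ‖((n ∘ φ) (ψ k)).1‖ ≤ ‖(n ∘ φ) (ψ k)‖ := by
      have := mul_le_mul_of_nonneg_right h4 (norm_nonneg ((n ∘ φ) (ψ k)).1)
      have h6 : ((φ (ψ k) : ℝ) + 1) * ‖((n ∘ φ) (ψ k)).1‖ < ((n ∘ φ) (ψ k)).2 := h1
      linarith
    rw [Prod.smul_fst, norm_smul, norm_inv, norm_norm, inv_mul_le_iff₀ hpos]
    rw [mul_one_div, le_div_iff₀ (by positivity)]
    linarith
  have hm1 : m.1 = 0 := by
    have h1 : Tendsto (fun k => ‖(‖(n ∘ φ) (ψ k)‖⁻¹ • (n ∘ φ) (ψ k)).1‖) atTop (𝓝 ‖m.1‖) :=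
      ((continuous_fst.tendsto m).comp hl).norm
    have h2 : ‖m.1‖ ≤ 0 := le_of_tendsto_of_tendsto' h1 h0 hbd
    exact norm_le_zero_iff.1 h2
  have hm2 : 0 ≤ m.2 := by
    have h1 : Tendsto (fun k => (‖(n ∘ φ) (ψ k)‖⁻¹ • (n ∘ φ) (ψ k)).2) atTop (𝓝 m.2) :=
      (continuous_snd.tendsto m).comp hl
    refine ge_of_tendsto' h1 (fun k => ?_)
    have h2 := hlt (φ (ψ k))
    have h3 : 0 ≤ ((φ (ψ k) : ℝ) + 1) * ‖(n (φ (ψ k))).1‖ := by positivity
    have h4 : 0 ≤ (n (φ (ψ k))).2 := by linarith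
    have h5 : 0 ≤ ‖n (φ (ψ k))‖⁻¹ := inv_nonneg.2 (norm_nonneg _)
    exact mul_nonneg h5 h4
  have hm3 : 0 < m.2 := lt_of_le_of_ne hm2 (fun h2 => hm.1 (Prod.ext hm1 h2.symm))
  have hx2 : x0.2 = h := by
    have h1 := hm.2 _ hmem
    have e1 : ∀ y : Q3, pr m y = m.2 * y.2 := by
      intro y
      unfold pr
      rw [hm1, dotC_zero_left, zero_add]
    rw [e1, e1] at h1
    exact le_antisymm (hle x0 hx0) (le_of_mul_le_mul_left h1 hm3)
  obtain ⟨δ, hδ, hop⟩ := sv_open (htop x0 hx0 hx2)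
  have h1 : ∀ᶠ k in atTop, dist ((x ∘ φ) k) x0 < δ := hlim (Metric.ball_mem_nhds x0 hδ)
  obtain ⟨k, hk⟩ := h1.exists
  exact hxs (φ k) (hop _ (hxK _) hk _ (by simpa using hδ))

/-- Case I, `p ≥ 4`: the vectors `(0, 1)` and `(eA (2 π j / 5), -τ)`. -/
theorem caseI4 {p : ℕ} (hp : 4 ≤ p) {K : Set Q3} (hK : RB p K) {h h' : ℝ} (hle : ∀ x ∈ K, x.2 ≤ h)
    (hmem : ((0 : ℂ), h) ∈ K)
    (htop : ∀ x ∈ K, x.2 = h → Sv K x (0, 1)) (hb : FlatTop (fl K) h') : Served K 7 := by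
  obtain ⟨c, hc, hfive⟩ := five_dirs hp hK
  obtain ⟨C, hC, hslope⟩ := m3_slope hK hle hmem htop
  obtain ⟨hb1, ε, hε, hdisc⟩ := hb
  set τ : ℝ := c / (2 * C) with hτ
  have hτ0 : 0 < τ := by positivity
  have hτC : τ * C = c / 2 := by rw [hτ]; field_simp
  refine served_of_fintype (ι := Bool ⊕ Fin 5) (by simp)
    (Sum.elim (fun _ : Bool => (0, 1))
      (fun j : Fin 5 => (eA (2 * π * (j : ℕ) / 5), -τ))) ?_
  intro x hx
  by_cases hs : Sv K x (0, 1)
  · exact ⟨Sum.inl true, hs⟩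
  by_cases hx1 : x.1 = 0
  · have hpr : ∀ n, Nm K x n → 0 < n.2 * x.2 := by
      intro n hn
      have h1 := m3_pos hK hn
      have h2 : x = ((0 : ℂ), x.2) := Prod.ext hx1 rfl
      rw [h2, m3_pr_zero] at h1
      exact h1
    rcases le_total 0 x.2 with hz | hz
    · exfalso
      apply hs
      intro n hn
      have h1 := hpr n hn
      have h2 : 0 < n.2 := by
        by_contra hcon
        rw [not_lt] at hcon
        have := mul_nonpos_of_nonpos_of_nonneg hcon hz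
        linarith
      have h3 : pr n (0, 1) = n.2 * 1 := m3_pr_zero n 1
      rw [h3]
      linarith
    · refine ⟨Sum.inr 0, fun n hn => ?_⟩
      have h1 := hpr n hn
      have h2 : n.2 < 0 := by
        by_contra hcon
        rw [not_lt] at hcon
        have := mul_nonpos_of_nonneg_of_nonpos hcon hz
        linarith
      have hxh : -h' ≤ x.2 := by
        have h3 : ((x.1, -x.2) : Q3) ∈ fl K := by
          show ((x.1, - -x.2) : Q3) ∈ K
          rw [neg_neg]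
          exact hx
        have := hb1 _ h3
        simp only at this
        linarith
      have h4 : n.1 = 0 := by
        by_contra hne
        have hN : 0 < ‖n.1‖ := norm_pos_iff.2 hne
        have h5 : (((ε / 2 / ‖n.1‖ : ℝ) : ℂ) * n.1, h') ∈ fl K := by
          apply hdisc
          rw [norm_mul, Complex.norm_real, Real.norm_eq_abs, abs_of_pos (by positivity)]
          have : ε / 2 / ‖n.1‖ * ‖n.1‖ = ε / 2 := by field_simp
          rw [this]
          linarith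
        have h6 := hn.2 _ h5
        unfold pr at h6
        simp only at h6
        rw [dotC_ofReal_right, dotC_self, hx1, dotC_zero_right] at h6
        have h7 : ε / 2 / ‖n.1‖ * ‖n.1‖ ^ 2 = ε / 2 * ‖n.1‖ := by field_simp
        rw [h7] at h6
        have h8 : 0 < ε / 2 * ‖n.1‖ := by positivity
        have h9 : n.2 * x.2 ≤ n.2 * (-h') := mul_le_mul_of_nonpos_left hxh h2.le
        linarith
      show 0 < pr n (eA (2 * π * ((0 : Fin 5) : ℕ) / 5), -τ)
      unfold pr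
      rw [h4, dotC_zero_left, zero_add]
      simp only
      exact mul_pos_of_neg_of_neg h2 (by linarith)
  · obtain ⟨j, hj⟩ := hfive x hx hx1
    refine ⟨Sum.inr j, fun n hn => ?_⟩
    have h1 := hj n hn
    have h2 := hslope x hx hs n hn
    show 0 < pr n (eA (2 * π * (j : ℕ) / 5), -τ)
    unfold pr
    simp only
    by_cases hn1 : n.1 = 0
    · have hn2 : n.2 ≠ 0 := fun h3 => hn.1 (Prod.ext hn1 h3)
      rw [hn1, norm_zero, mul_zero] at h2
      have h3 : n.2 < 0 := lt_of_le_of_ne h2 hn2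
      rw [hn1, dotC_zero_left, zero_add]
      exact mul_pos_of_neg_of_neg h3 (by linarith)
    · have hN : 0 < ‖n.1‖ := norm_pos_iff.2 hn1
      have h3 : τ * n.2 ≤ τ * (C * ‖n.1‖) := mul_le_mul_of_nonneg_left h2 hτ0.le
      have h4 : τ * (C * ‖n.1‖) = c / 2 * ‖n.1‖ := by rw [← mul_assoc, hτC]
      have h5 : 0 < c / 2 * ‖n.1‖ := by positivity
      nlinarith

end Pool.Agent.Lib.MP_5e7226_co.RT
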