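import Pool.Agent.Lib.MP_5e7226_co.RT.IIIA
import Pool.Agent.Lib.MP_5e7226_co.RT.IIDefs

/-!
# MP_5e7226, E^3 rotations, rows M6: the top face, the flip, more vectors
-/

set_option autoImplicit false

open Set Filter Topology
open scoped Real

namespace Pool.Agent.Lib.MP_5e7226_co.RT

theorem fl_fl (K : Set Q3) : fl (fl K) = K := by
  ext x
  show ((x.1, - -x.2) : Q3) ∈ K ↔ x ∈ K
  rw [neg_neg]

lemma m6_mem_fl {K : Set Q3} {x : Q3} (hx : x ∈ K) : ((x.1, -x.2) : Q3) ∈ fl K := by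
  show ((x.1, - -x.2) : Q3) ∈ K
  rw [neg_neg]
  exact hx

theorem served_fl {K : Set Q3} {N : ℕ} (h : Served (fl K) N) : Served K N := by
  obtain ⟨v, hv⟩ := h
  refine ⟨fun i => ((v i).1, -(v i).2), fun x hx => ?_⟩
  obtain ⟨i, hi⟩ := hv (x.1, -x.2) (m6_mem_fl hx)
  refine ⟨i, ?_⟩
  have h1 := (Sv_fl (K := K) (x.1, -x.2) (v i)).1 hi
  rw [neg_neg] at h1
  exact h1

theorem served_mono {K : Set Q3} {M N : ℕ} (hM : 0 < M) (hMN : M ≤ N) (h : Served K M) :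
    Served K N := by
  obtain ⟨v, hv⟩ := h
  refine ⟨fun i => if hi : (i : ℕ) < M then v ⟨i, hi⟩ else v ⟨0, hM⟩, fun x hx => ?_⟩
  obtain ⟨i, hi⟩ := hv x hx
  refine ⟨⟨i, lt_of_lt_of_le i.2 hMN⟩, ?_⟩
  simpa using hi

theorem bot_of_top {K : Set Q3} {h : ℝ} (hT : Top (fl K) h) : Bot K h := by
  obtain ⟨h1, h2, h3, h4⟩ := hT
  refine ⟨h1, h2, fun x hx => ?_, fun x hx hx2 => ?_⟩
  · have : -x.2 ≤ h := h3 _ (m6_mem_fl hx)
    linarith
  · exact h4 (x.1, -x.2) (m6_mem_fl hx) (by show -x.2 = h; linarith)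

/-- the flip as a linear equivalence. -/
noncomputable def m6_F : Q3 ≃ₗ[ℝ] Q3 :=
  LinearEquiv.prodCongr (LinearEquiv.refl ℝ ℂ) (LinearEquiv.neg ℝ)

lemma m6_F_apply (x : Q3) : m6_F x = (x.1, -x.2) := rfl

theorem par_fl {K : Set Q3} (h : Par (fl K)) : Par K := by
  obtain ⟨c, v₁, v₂, v₃, hli, hK⟩ := h
  refine ⟨m6_F c, m6_F v₁, m6_F v₂, m6_F v₃, ?_, ?_⟩
  · have h1 := hli.map' (m6_F : Q3 →ₗ[ℝ] Q3) (LinearEquiv.ker m6_F)
    have h2 : (m6_F : Q3 →ₗ[ℝ] Q3) ∘ ![v₁, v₂, v₃] = ![m6_F v₁, m6_F v₂, m6_F v₃] := by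
      funext i
      fin_cases i <;> rfl
    rw [h2] at h1
    exact h1
  · have hinv : ∀ x : Q3, m6_F (m6_F x) = x := fun x => by
      rw [m6_F_apply, m6_F_apply]
      simp
    ext x
    have hx : x ∈ K ↔ m6_F x ∈ fl K := by
      constructor
      · intro hx
        exact m6_mem_fl hx
      · intro hx
        have : ((x.1, - -x.2) : Q3) ∈ K := hx
        rw [neg_neg] at this
        exact this
    rw [hx, hK]
    show (∃ s₁ s₂ s₃ : ℝ, |s₁| ≤ 1 ∧ |s₂| ≤ 1 ∧ |s₃| ≤ 1 ∧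
      m6_F x = c + s₁ • v₁ + s₂ • v₂ + s₃ • v₃) ↔ ∃ s₁ s₂ s₃ : ℝ, |s₁| ≤ 1 ∧ |s₂| ≤ 1 ∧ |s₃| ≤ 1 ∧
      x = m6_F c + s₁ • m6_F v₁ + s₂ • m6_F v₂ + s₃ • m6_F v₃
    constructor
    · rintro ⟨s₁, s₂, s₃, a1, a2, a3, h4⟩
      refine ⟨s₁, s₂, s₃, a1, a2, a3, ?_⟩
      rw [← hinv x, h4]
      simp only [map_add, map_smul]
    · rintro ⟨s₁, s₂, s₃, a1, a2, a3, h4⟩
      refine ⟨s₁, s₂, s₃, a1, a2, a3, ?_⟩
      rw [h4]
      simp only [map_add, map_smul, hinv]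

/-- there is a point of positive height on the axis. -/
lemma m6_up {K : Set Q3} (h0 : (0 : Q3) ∈ interior K) : ∃ t : ℝ, 0 < t ∧ ((0, t) : Q3) ∈ K := by
  have hcont : Continuous (fun t : ℝ => ((0, t) : Q3)) := by fun_prop
  have h1 : (fun t : ℝ => ((0, t) : Q3)) ⁻¹' K ∈ 𝓝 (0 : ℝ) :=
    hcont.continuousAt.preimage_mem_nhds (mem_interior_iff_mem_nhds.1 h0)
  obtain ⟨ε, hε, hb⟩ := Metric.mem_nhds_iff.1 h1
  have h2 : ε / 2 ∈ Metric.ball (0 : ℝ) ε := by
    rw [Metric.mem_ball, dist_zero_right, Real.norm_eq_abs, abs_of_pos (by positivity)]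
    linarith
  exact ⟨ε / 2, by positivity, hb h2⟩

lemma m6_prim {p : ℕ} (hp : 3 ≤ p) : IsPrimitiveRoot (eA (2 * Real.pi / p)) p := by
  have h1 : eA (2 * Real.pi / p) = Complex.exp (2 * Real.pi * Complex.I / p) := by
    rw [eA_eq_exp]
    congr 1
    push_cast
    ring
  rw [h1]
  exact Complex.isPrimitiveRoot_exp p (by omega)

lemma m6_dotC_cast (a b : ℂ) :
    ((dotC a b : ℝ) : ℂ) = ((starRingEnd ℂ) a * b + a * (starRingEnd ℂ) b) / 2 := by
  apply Complex.ext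
  · simp [dotC]
  · simp [dotC]
    ring

/-- A point of the height `h` off the axis gives a disc. -/
lemma m6_disc {p : ℕ} {K : Set Q3} (hK : RB p K) {h : ℝ} {w : ℂ} (hw : w ≠ 0)
    (hm : ((w, h) : Q3) ∈ K) {q : ℂ} (hq : ‖q‖ ≤ ‖w‖ / 2) : ((q, h) : Q3) ∈ K := by
  have hp := hK.p3
  set ζ : ℂ := eA (2 * Real.pi / p) with hζ
  have hprim : IsPrimitiveRoot ζ p := m6_prim hp
  have hζn : ‖ζ‖ = 1 := norm_eA _
  have hmem : ∀ j : ℕ, ((ζ ^ j * w, h) : Q3) ∈ K := by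
    intro j
    induction j with
    | zero => simpa using hm
    | succ j ih =>
      have := hK.rot _ ih
      rw [pow_succ', mul_assoc]
      exact this
  have hwn : 0 < ‖w‖ := norm_pos_iff.2 hw
  have hp0 : (0 : ℝ) < p := by
    have : 0 < p := by omega
    exact_mod_cast this
  have hpC : (p : ℂ) ≠ 0 := by
    have : p ≠ 0 := by omega
    exact_mod_cast this
  have hnj : ∀ j : ℕ, ‖ζ ^ j * w‖ = ‖w‖ := by
    intro j
    rw [norm_mul, norm_pow, hζn, one_pow, one_mul]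
  have G1 : ∑ j ∈ Finset.range p, ζ ^ j = 0 := hprim.geom_sum_eq_zero (by omega)
  have G2 : ∑ j ∈ Finset.range p, (ζ ^ 2) ^ j = 0 := by
    have h1 := geom_sum_mul (ζ ^ 2) p
    have h2 : (ζ ^ 2) ^ p = 1 := by rw [← pow_mul, mul_comm, pow_mul, hprim.pow_eq_one, one_pow]
    have h3 : ζ ^ 2 - 1 ≠ 0 := sub_ne_zero.2 (hprim.pow_ne_one_of_pos_of_lt (by norm_num) (by omega))
    rw [h2, sub_self] at h1
    exact (mul_eq_zero.1 h1).resolve_right h3
  set c : ℕ → ℝ := fun j => 1 / p + 2 / (p * ‖w‖ ^ 2) * dotC (ζ ^ j * w) q with hc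
  have hc0 : ∀ j ∈ Finset.range p, 0 ≤ c j := by
    intro j _
    have h1 : -dotC (ζ ^ j * w) q ≤ ‖w‖ * ‖q‖ := by
      have := dotC_le (-(ζ ^ j * w)) q
      rw [dotC_neg_left, norm_neg, hnj] at this
      exact this
    have h2 : -dotC (ζ ^ j * w) q ≤ ‖w‖ ^ 2 / 2 := by nlinarith
    have h3 : 2 / (p * ‖w‖ ^ 2) * (-(‖w‖ ^ 2 / 2)) ≤ 2 / (p * ‖w‖ ^ 2) * dotC (ζ ^ j * w) q :=
      mul_le_mul_of_nonneg_left (by linarith) (by positivity)
    have h4 : 2 / (p * ‖w‖ ^ 2) * (-(‖w‖ ^ 2 / 2)) = -(1 / p) := by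
      field_simp
    simp only [hc]
    linarith
  have hc1 : ∑ j ∈ Finset.range p, c j = 1 := by
    have h1 : ∑ j ∈ Finset.range p, dotC (ζ ^ j * w) q =
        dotC ((∑ j ∈ Finset.range p, ζ ^ j) * w) q := by
      simp only [dotC]
      rw [Finset.sum_add_distrib, ← Finset.sum_mul, ← Finset.sum_mul, ← Complex.re_sum,
        ← Complex.im_sum, ← Finset.sum_mul]
    simp only [hc]
    rw [Finset.sum_add_distrib, ← Finset.mul_sum, h1, G1, zero_mul, dotC_zero_left, mul_zero,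
      add_zero, Finset.sum_const, Finset.card_range, nsmul_eq_mul]
    field_simp
  have hsum := hK.conv.sum_mem hc0 hc1 (fun j _ => hmem j)
  have heq : ∑ j ∈ Finset.range p, c j • ((ζ ^ j * w, h) : Q3) = (q, h) := by
    refine Prod.ext ?_ ?_
    · rw [Prod.fst_sum]
      have hterm : ∀ j ∈ Finset.range p, (c j • ((ζ ^ j * w, h) : Q3)).1 =
          (1 / p : ℂ) * w * ζ ^ j + (1 / p) * q +
            (1 / (p * (‖w‖ : ℂ) ^ 2)) * (w ^ 2 * (starRingEnd ℂ) q) * (ζ ^ 2) ^ j := by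
        intro j _
        have h1 : (c j • ((ζ ^ j * w, h) : Q3)).1 = ((c j : ℝ) : ℂ) * (ζ ^ j * w) := by
          simp [Complex.real_smul]
        have hN : (starRingEnd ℂ) (ζ ^ j * w) * (ζ ^ j * w) = (‖w‖ : ℂ) ^ 2 := by
          rw [Complex.conj_mul', hnj]
        have hwC : (‖w‖ : ℂ) ≠ 0 := by exact_mod_cast hwn.ne'
        rw [h1]
        simp only [hc]
        push_cast
        rw [m6_dotC_cast]
        have h2 : (1 / (p : ℂ) + 2 / (p * (‖w‖ : ℂ) ^ 2) *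
            (((starRingEnd ℂ) (ζ ^ j * w) * q + ζ ^ j * w * (starRingEnd ℂ) q) / 2)) * (ζ ^ j * w) =
            1 / p * w * ζ ^ j + (1 / (p * (‖w‖ : ℂ) ^ 2)) *
              (((starRingEnd ℂ) (ζ ^ j * w) * (ζ ^ j * w)) * q) +
              (1 / (p * (‖w‖ : ℂ) ^ 2)) * (w ^ 2 * (starRingEnd ℂ) q) * (ζ ^ 2) ^ j := by
          rw [← pow_mul, mul_comm 2 j, pow_mul]
          ring
        rw [h2, hN]
        field_simp
      rw [Finset.sum_congr rfl hterm, Finset.sum_add_distrib, Finset.sum_add_distrib]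
      have e1 : ∑ j ∈ Finset.range p, (1 / p : ℂ) * w * ζ ^ j = 0 := by
        rw [← Finset.mul_sum, G1, mul_zero]
      have e2 : ∑ _j ∈ Finset.range p, (1 / p : ℂ) * q = q := by
        rw [Finset.sum_const, Finset.card_range, nsmul_eq_mul]
        field_simp
      have e3 : ∑ j ∈ Finset.range p,
          (1 / (p * (‖w‖ : ℂ) ^ 2)) * (w ^ 2 * (starRingEnd ℂ) q) * (ζ ^ 2) ^ j = 0 := by
        rw [← Finset.mul_sum, G2, mul_zero]
      rw [e1, e2, e3]
      simp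
    · rw [Prod.snd_sum]
      have h1 : ∀ j ∈ Finset.range p, (c j • ((ζ ^ j * w, h) : Q3)).2 = c j * h := fun j _ => rfl
      rw [Finset.sum_congr rfl h1, ← Finset.sum_mul, hc1, one_mul]
  rw [← heq]
  exact hsum

theorem top_cases {p : ℕ} {K : Set Q3} (hK : RB p K) :
    ∃ h : ℝ, 0 < h ∧ (Top K h ∨ FlatTop K h) := by
  obtain ⟨t, ht, htK⟩ := m6_up hK.zero
  obtain ⟨q, hq, hmax⟩ := hK.comp.exists_isMaxOn ⟨_, htK⟩
    (continuous_snd.continuousOn (s := K) : ContinuousOn (fun x : Q3 => x.2) K)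
  have hmax' : ∀ y ∈ K, y.2 ≤ q.2 := fun y hy => hmax hy
  have hpos : 0 < q.2 := lt_of_lt_of_le ht (hmax' _ htK)
  refine ⟨q.2, hpos, ?_⟩
  by_cases hc : ∀ x ∈ K, x.2 = q.2 → x.1 = 0
  · left
    refine ⟨hpos, ?_, hmax', hc⟩
    have h1 := hc q hq rfl
    rw [← h1]
    exact hq
  · right
    push Not at hc
    obtain ⟨x, hx, hx2, hx1⟩ := hc
    refine ⟨hmax', ‖x.1‖ / 2, by positivity, fun w hw => ?_⟩
    have hx' : ((x.1, q.2) : Q3) ∈ K := by
      rw [← hx2]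
      exact hx
    exact m6_disc hK hx1 hx' hw.le

/-- `pr n x > 0` for a normal. -/
lemma m6_pr_pos {K : Set Q3} (h0 : (0 : Q3) ∈ interior K) {x n : Q3} (hn : Nm K x n) :
    0 < pr n x := by
  have hmem : ∀ᶠ t : ℝ in 𝓝 0, t • n ∈ K := by
    have h1 : Tendsto (fun t : ℝ => t • n) (𝓝 0) (𝓝 (0 : Q3)) := by
      have : Continuous (fun t : ℝ => t • n) := by fun_prop
      have h2 := this.tendsto 0
      simpa using h2
    exact h1 (mem_interior_iff_mem_nhds.1 h0)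
  obtain ⟨ε, hε, hball⟩ := Metric.eventually_nhds_iff.1 hmem
  have h1 : (ε / 2) • n ∈ K := hball (by
    rw [dist_zero_right, Real.norm_eq_abs, abs_of_pos (by positivity)]; linarith)
  have h2 := hn.2 _ h1
  rw [pr_smul_right] at h2
  have h3 : 0 < pr n n := by
    have hnn : pr n n = n.1.re * n.1.re + n.1.im * n.1.im + n.2 * n.2 := rfl
    rw [hnn]
    by_contra hcon
    push Not at hcon
    have h6 : n.1.re = 0 := by
      nlinarith [mul_self_nonneg n.1.re, mul_self_nonneg n.1.im, mul_self_nonneg n.2]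
    have h7 : n.1.im = 0 := by
      nlinarith [mul_self_nonneg n.1.re, mul_self_nonneg n.1.im, mul_self_nonneg n.2]
    have h8 : n.2 = 0 := by
      nlinarith [mul_self_nonneg n.1.re, mul_self_nonneg n.1.im, mul_self_nonneg n.2]
    exact hn.1 (Prod.ext (Complex.ext h6 h7) h8)
  have h4 : 0 < ε / 2 * pr n n := by positivity
  linarith

/-- The point top is served by `(0, 1)` (no normal of the top point has `n.2 ≤ 0`). -/
theorem top_serves {p : ℕ} {K : Set Q3} (hK : RB p K) {h : ℝ} (hT : Top K h) :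
    ∀ x ∈ K, x.2 = h → Sv K x (0, 1) := by
  intro x hx hx2 n hn
  have h1 := hT.eq x hx hx2
  have h2 := m6_pr_pos hK.zero hn
  have h3 : pr n x = n.2 * h := by
    simp only [pr, h1, hx2, dotC_zero_right, zero_add]
  have h4 : pr n ((0, 1) : Q3) = n.2 := by
    simp only [pr, dotC_zero_right, zero_add, mul_one]
  rw [h4]
  rw [h3] at h2
  exact (mul_pos_iff_of_pos_right hT.pos).1 h2

/-- A flat top without mixed points is served by `(0, 1)`. -/
theorem flat_serves {p : ℕ} {K : Set Q3} (hK : RB p K) {h : ℝ} (hT : FlatTop K h)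
    (hm : ¬ ∃ q, Mx K (q, h)) : ∀ x ∈ K, x.2 = h → Sv K x (0, 1) := by
  intro x hx hx2 n hn
  have h4 : pr n ((0, 1) : Q3) = n.2 := by
    simp only [pr, dotC_zero_right, zero_add, mul_one]
  rw [h4]
  have hint : (interior K).Nonempty := ⟨0, hK.zero⟩
  have hup : Nm K x ((0, 1) : Q3) := by
    refine ⟨fun h => ?_, fun y hy => ?_⟩
    · have := congrArg Prod.snd h
      simp at this
    · simp only [pr, dotC_zero_left, zero_add, one_mul, hx2]
      exact hT.1 y hy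
  rcases trich hint hx with h | h | h
  · exact h n hn
  · exfalso
    have := h _ hup
    simp only at this
    linarith
  · exfalso
    apply hm
    refine ⟨x.1, ?_⟩
    rw [← hx2]
    exact h

end Pool.Agent.Lib.MP_5e7226_co.RT
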