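import Pool.Agent.Lib.MP_5e7226_co.RT.CaseII
import Pool.Agent.Lib.MP_5e7226_co.RT.IIIC
import Pool.Agent.Lib.MP_5e7226_co.RT.IVE
import Pool.Agent.Lib.MP_5e7226_co.RT.M2
import Pool.Agent.Lib.MP_5e7226_co.RT.M3
import Pool.Agent.Lib.MP_5e7226_co.RT.M6

set_option autoImplicit false

/-! Bodies in `E^3` with a rotation: seven vectors or a parallelepiped. -/

namespace Pool.Agent.Lib.MP_5e7226_co.RT

theorem FlatTop.mem {K : Set Q3} {h : ℝ} (ht : FlatTop K h) : ((0 : ℂ), h) ∈ K := by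
  obtain ⟨ε, hε, h1⟩ := ht.2
  exact h1 0 (by simpa using hε)

theorem core3 {K : Set Q3} (hK : RB 3 K) : Served K 7 ∨ Par K := by
  obtain ⟨h, -, ht⟩ := top_cases hK
  obtain ⟨h', -, hb⟩ := top_cases (RB_fl hK)
  rcases ht with ht | ht
  · rcases hb with hb | hb
    · exact case_II hK ht (bot_of_top hb)
    · exact Or.inl (caseI3 hK ht.le ht.mem (top_serves hK ht) hb)
  · have ht' : FlatTop (fl (fl K)) h := by rw [fl_fl]; exact ht
    rcases hb with hb | hb
    · exact Or.inl (served_fl (caseI3 (RB_fl hK) hb.le hb.mem (top_serves (RB_fl hK) hb) ht'))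
    · by_cases hm : ∃ q, Mx K (q, h)
      · by_cases hm' : ∃ q, Mx (fl K) (q, h')
        · obtain ⟨q, hq⟩ := hm'
          exact Or.inl (caseIII hK ht hb hm ⟨q, (Mx_fl (q, h')).1 hq⟩)
        · exact Or.inl (served_fl (caseI3 (RB_fl hK) hb.1 hb.mem (flat_serves (RB_fl hK) hb hm') ht'))
      · exact Or.inl (caseI3 hK ht.1 ht.mem (flat_serves hK ht hm) hb)

theorem core4 {p : ℕ} (hp : 4 ≤ p) {K : Set Q3} (hK : RB p K) : Served K 7 ∨ Par K := by
  obtain ⟨h, -, ht⟩ := top_cases hK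
  obtain ⟨h', -, hb⟩ := top_cases (RB_fl hK)
  rcases ht with ht | ht
  · rcases hb with hb | hb
    · exact Or.inl (caseII4 hp hK ht (bot_of_top hb))
    · exact Or.inl (caseI4 hp hK ht.le ht.mem (top_serves hK ht) hb)
  · have ht' : FlatTop (fl (fl K)) h := by rw [fl_fl]; exact ht
    rcases hb with hb | hb
    · exact Or.inl (served_fl (caseI4 hp (RB_fl hK) hb.le hb.mem (top_serves (RB_fl hK) hb) ht'))
    · exact IV.caseIII4 hp hK ht hb

/-- The core theorem. -/
theorem core {p : ℕ} {K : Set Q3} (hK : RB p K) : Served K 7 ∨ Par K := by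
  rcases Nat.lt_or_ge 3 p with h | h
  · exact core4 h hK
  · obtain rfl : p = 3 := le_antisymm h hK.p3
    exact core3 hK

end Pool.Agent.Lib.MP_5e7226_co.RT
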