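import Pool.Agent.Lib.MP_5e7226_co.RT.AH
import Pool.Agent.Lib.MP_5e7226_co.RT.IIIA

/-!
# MP_5e7226, E^3 rotations, case (II), row e: the projection is a triangle
-/

set_option autoImplicit false

open Set Filter Topology
open scoped Real

namespace Pool.Agent.Lib.MP_5e7226_co.RT

/-! ### coordinates -/

lemma e41_eA_re' (t : ℝ) : (eA t).re = Real.cos t := rfl
lemma e41_eA_im' (t : ℝ) : (eA t).im = Real.sin t := rfl

lemma e41_s3_sq : √3 * √3 = (3 : ℝ) := Real.mul_self_sqrt (by norm_num)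
lemma e41_s3_pos : 0 < √3 := Real.sqrt_pos.2 (by norm_num)

lemma e41_eA_60 : eA (π / 3) = ⟨1 / 2, √3 / 2⟩ := by
  apply Complex.ext
  · rw [e41_eA_re']; exact Real.cos_pi_div_three
  · rw [e41_eA_im']; exact Real.sin_pi_div_three

lemma e41_eA_pi' : eA π = ⟨-1, 0⟩ := by
  apply Complex.ext
  · rw [e41_eA_re']; exact Real.cos_pi
  · rw [e41_eA_im']; exact Real.sin_pi

lemma e41_eA_120 : eA (2 * π / 3) = ⟨-(1 / 2), √3 / 2⟩ := by
  have e : 2 * π / 3 = π - π / 3 := by ring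
  apply Complex.ext
  · rw [e41_eA_re', e, Real.cos_pi_sub, Real.cos_pi_div_three]
  · rw [e41_eA_im', e, Real.sin_pi_sub, Real.sin_pi_div_three]

lemma e41_eA_240 : eA (4 * π / 3) = ⟨-(1 / 2), -(√3 / 2)⟩ := by
  have e : 4 * π / 3 = π / 3 + π := by ring
  apply Complex.ext
  · rw [e41_eA_re', e, Real.cos_add_pi, Real.cos_pi_div_three]
  · rw [e41_eA_im', e, Real.sin_add_pi, Real.sin_pi_div_three]

lemma e41_eA_300 : eA (5 * π / 3) = ⟨1 / 2, -(√3 / 2)⟩ := by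
  have e : 5 * π / 3 = 2 * π - π / 3 := by ring
  apply Complex.ext
  · rw [e41_eA_re', e, Real.cos_two_pi_sub, Real.cos_pi_div_three]
  · rw [e41_eA_im', e, Real.sin_two_pi_sub, Real.sin_pi_div_three]

lemma e41_eA_150 : eA (π / 3 + π / 2) = ⟨-(√3 / 2), 1 / 2⟩ := by
  apply Complex.ext
  · rw [e41_eA_re', Real.cos_add_pi_div_two, Real.sin_pi_div_three]
  · rw [e41_eA_im', Real.sin_add_pi_div_two, Real.cos_pi_div_three]

lemma e41_eA_per (t : ℝ) (k : ℤ) : eA (t + k * (2 * π)) = eA t := by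
  apply Complex.ext
  · rw [e41_eA_re', e41_eA_re', Real.cos_add_int_mul_two_pi]
  · rw [e41_eA_im', e41_eA_im', Real.sin_add_int_mul_two_pi]

lemma e41_dotC_def (a b : ℂ) : dotC a b = a.re * b.re + a.im * b.im := rfl

/-- the decomposition of a vector along `e_σ` and `e_(σ + 90)`. -/
lemma e41_dot_decomp (σ : ℝ) (m q : ℂ) :
    dotC m q = dotC m (eA σ) * dotC (eA σ) q +
      dotC m (eA (σ + π / 2)) * dotC (eA (σ + π / 2)) q := by
  have h := Real.sin_sq_add_cos_sq σ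
  simp only [e41_dotC_def, e41_eA_re', e41_eA_im', Real.cos_add_pi_div_two, Real.sin_add_pi_div_two]
  linear_combination (-(m.re * q.re) - m.im * q.im) * h

lemma e41_eq_of_dots {σ : ℝ} {p q : ℂ} (h1 : dotC (eA σ) p = dotC (eA σ) q)
    (h2 : dotC (eA (σ + π / 2)) p = dotC (eA (σ + π / 2)) q) : p = q := by
  apply Complex.ext
  · have h3 := e41_dot_decomp σ 1 p
    have h4 := e41_dot_decomp σ 1 q
    rw [h1, h2, ← h4] at h3
    simpa [e41_dotC_def] using h3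
  · have h3 := e41_dot_decomp σ Complex.I p
    have h4 := e41_dot_decomp σ Complex.I q
    rw [h1, h2, ← h4] at h3
    simpa [e41_dotC_def] using h3

/-- the projections of `K` and the three half planes. -/
lemma e41_tri_le {K : Set Q3} (hK : RB 3 K) {a z₀ : ℝ}
    (hn : Nm K ((a : ℂ), z₀) (eA (π / 3), 0)) (j : ℤ) {y : Q3} (hy : y ∈ K) :
    dotC (eA (π / 3 + 2 * π / 3 * j)) y.1 ≤ a / 2 := by
  have h1 := mem_rotz hK hy (-j)
  have h2 := hn.2 _ h1
  have e : 2 * π / 3 * ((-j : ℤ) : ℝ) = -(2 * π / 3 * j) := by push_cast; ring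
  rw [e] at h2
  have h3 := pr_Rz (2 * π / 3 * j) ((eA (π / 3), 0) : Q3) (Rz (-(2 * π / 3 * j)) y)
  rw [Rz_cancel, Rz_n] at h3
  rw [← h3] at h2
  simp only [pr, zero_mul, add_zero] at h2
  have h4 : dotC (eA (π / 3)) (a : ℂ) = a / 2 := by
    rw [e41_eA_60, e41_dotC_def]
    simp
    ring
  rw [h4] at h2
  exact h2

lemma e41_tri_le0 {K : Set Q3} (hK : RB 3 K) {a z₀ : ℝ}
    (hn : Nm K ((a : ℂ), z₀) (eA (π / 3), 0)) {y : Q3} (hy : y ∈ K) :
    dotC (eA (π / 3)) y.1 ≤ a / 2 := by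
  have h := e41_tri_le hK hn 0 hy
  simpa using h

lemma e41_tri_le1 {K : Set Q3} (hK : RB 3 K) {a z₀ : ℝ}
    (hn : Nm K ((a : ℂ), z₀) (eA (π / 3), 0)) {y : Q3} (hy : y ∈ K) :
    dotC (eA π) y.1 ≤ a / 2 := by
  have h := e41_tri_le hK hn 1 hy
  have e : π / 3 + 2 * π / 3 * ((1 : ℤ) : ℝ) = π := by push_cast; ring
  rwa [e] at h

lemma e41_tri_le2 {K : Set Q3} (hK : RB 3 K) {a z₀ : ℝ}
    (hn : Nm K ((a : ℂ), z₀) (eA (π / 3), 0)) {y : Q3} (hy : y ∈ K) :
    dotC (eA (5 * π / 3)) y.1 ≤ a / 2 := by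
  have h := e41_tri_le hK hn 2 hy
  have e : π / 3 + 2 * π / 3 * ((2 : ℤ) : ℝ) = 5 * π / 3 := by push_cast; ring
  rwa [e] at h

lemma e41_tri_v1 {K : Set Q3} (hK : RB 3 K) {a z₀ : ℝ} (hx : ((a : ℂ), z₀) ∈ K) :
    ((a : ℂ) * eA (2 * π / 3), z₀) ∈ K := by
  have h := mem_rotz hK hx 1
  unfold Rz at h
  have e : 2 * π / 3 * ((1 : ℤ) : ℝ) = 2 * π / 3 := by push_cast; ring
  rw [e, mul_comm] at h
  exact h

lemma e41_tri_v2 {K : Set Q3} (hK : RB 3 K) {a z₀ : ℝ} (hx : ((a : ℂ), z₀) ∈ K) :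
    ((a : ℂ) * eA (4 * π / 3), z₀) ∈ K := by
  have h := mem_rotz hK hx 2
  unfold Rz at h
  have e : 2 * π / 3 * ((2 : ℤ) : ℝ) = 4 * π / 3 := by push_cast; ring
  rw [e, mul_comm] at h
  exact h

/-- e1 with three indices. -/
lemma e41_tri_mixed3 {K : Set Q3} (hK : RB 3 K) {a z₀ : ℝ} (_ha : 0 < a)
    (hx : ((a : ℂ), z₀) ∈ K) (hn : Nm K ((a : ℂ), z₀) (eA (π / 3), 0)) {w : Q3} (hw : Mx K w) :
    dotC (eA (π / 3)) w.1 = a / 2 ∨ dotC (eA π) w.1 = a / 2 ∨
      dotC (eA (5 * π / 3)) w.1 = a / 2 := by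
  by_contra hcon
  push Not at hcon
  obtain ⟨c0, c1, c2⟩ := hcon
  obtain ⟨hwK, m, hm⟩ := hw
  have i0 := lt_of_le_of_ne (e41_tri_le0 hK hn hwK) c0
  have i1 := lt_of_le_of_ne (e41_tri_le1 hK hn hwK) c1
  have i2 := lt_of_le_of_ne (e41_tri_le2 hK hn hwK) c2
  have hpos := nm_pos hK hm
  have k0 := hm.2 _ hx
  have k1 := hm.2 _ (e41_tri_v1 hK hx)
  have k2 := hm.2 _ (e41_tri_v2 hK hx)
  simp only [pr, zero_mul, add_zero] at hpos k0 k1 k2
  rw [dotC_ofReal_right] at k1 k2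
  rw [e41_eA_60] at i0
  rw [e41_eA_pi'] at i1
  rw [e41_eA_300] at i2
  rw [e41_eA_120] at k1
  rw [e41_eA_240] at k2
  simp only [e41_dotC_def, Complex.ofReal_re, Complex.ofReal_im, mul_zero, add_zero] at *
  set p := w.1.re
  set q := w.1.im
  set x := m.re
  set y := m.im
  have h3 := e41_s3_sq
  set s := √3
  -- barycentric weights times `3 a`
  have l0 : 0 < a + 2 * p := by linarith
  have l1 : 0 < a - p + s * q := by linarith
  have l2 : 0 < a - p - s * q := by linarith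
  have d0 : 0 ≤ x * p + y * q - x * a := by linarith
  have d1 : 0 ≤ x * p + y * q - a * (x * -(1 / 2) + y * (s / 2)) := by linarith
  have d2 : 0 ≤ x * p + y * q - a * (x * -(1 / 2) + y * -(s / 2)) := by linarith
  have key : (a + 2 * p) * (x * p + y * q - x * a) +
      (a - p + s * q) * (x * p + y * q - a * (x * -(1 / 2) + y * (s / 2))) +
      (a - p - s * q) * (x * p + y * q - a * (x * -(1 / 2) + y * -(s / 2))) = 0 := by
    linear_combination (-(a * y * q)) * h3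
  have z0 : (a + 2 * p) * (x * p + y * q - x * a) = 0 := by
    have := mul_nonneg l0.le d0
    have := mul_nonneg l1.le d1
    have := mul_nonneg l2.le d2
    linarith
  have z1 : (a - p + s * q) * (x * p + y * q - a * (x * -(1 / 2) + y * (s / 2))) = 0 := by
    have := mul_nonneg l0.le d0
    have := mul_nonneg l1.le d1
    have := mul_nonneg l2.le d2
    linarith
  have z2 : (a - p - s * q) * (x * p + y * q - a * (x * -(1 / 2) + y * -(s / 2))) = 0 := by
    have := mul_nonneg l0.le d0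
    have := mul_nonneg l1.le d1
    have := mul_nonneg l2.le d2
    linarith
  have y0 := (mul_eq_zero.1 z0).resolve_left l0.ne'
  have y1 := (mul_eq_zero.1 z1).resolve_left l1.ne'
  have y2 := (mul_eq_zero.1 z2).resolve_left l2.ne'
  linarith

/-- e1: over the boundary of the triangle. -/
theorem tri_mixed {K : Set Q3} (hK : RB 3 K) {a z₀ : ℝ} (ha : 0 < a)
    (hx : ((a : ℂ), z₀) ∈ K) (hn : Nm K ((a : ℂ), z₀) (eA (π / 3), 0)) {w : Q3} (hw : Mx K w) :
    ∃ j : ℤ, dotC (eA (π / 3 + 2 * π / 3 * j)) w.1 = a / 2 := by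
  rcases e41_tri_mixed3 hK ha hx hn hw with h | h | h
  · exact ⟨0, by simpa using h⟩
  · refine ⟨1, ?_⟩
    have e : π / 3 + 2 * π / 3 * ((1 : ℤ) : ℝ) = π := by push_cast; ring
    rwa [e]
  · refine ⟨2, ?_⟩
    have e : π / 3 + 2 * π / 3 * ((2 : ℤ) : ℝ) = 5 * π / 3 := by push_cast; ring
    rwa [e]

/-- e4: from local to global. -/
theorem loc_glob {K : Set Q3} (hK : IsCompact K) {N : ℕ} (v : ℝ → Fin N → Q3)
    (h : ∀ w ∈ K, ∃ ε : ℝ, 0 < ε ∧ ∀ s : ℝ, 0 < s → s < ε → ∀ y ∈ K, dist y w < ε →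
      ∃ i, Sv K y (v s i)) : Served K N := by
  obtain ⟨ε, _, hε⟩ := exists_small hK (fun y s => ∃ i, Sv K y (v s i)) (by
    intro x hx
    obtain ⟨ε, hε, H⟩ := h x hx
    exact ⟨ε, hε, fun y hy hd s h1 h2 => H s h1 h2 y hy hd⟩)
  exact ⟨v ε, hε⟩

set_option linter.unusedVariables false in
/-- e5: serving is open. -/
theorem loc_open {K : Set Q3} (hK : IsCompact K) (hi : (interior K).Nonempty) {w : Q3}
    (v : ℝ → Q3) (hv : ContinuousAt v 0) (h : Sv K w (v 0)) :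
    ∃ ε : ℝ, 0 < ε ∧ ∀ s : ℝ, 0 < s → s < ε → ∀ y ∈ K, dist y w < ε → Sv K y (v s) := by
  obtain ⟨δ, hδ, H⟩ := sv_open h
  obtain ⟨δ', hδ', H'⟩ := Metric.continuousAt_iff.1 hv δ hδ
  refine ⟨min δ δ', lt_min hδ hδ', fun s h1 h2 y hy hd => ?_⟩
  refine H y hy (hd.trans_le (min_le_left _ _)) _ (H' ?_)
  rw [dist_zero_right, Real.norm_eq_abs, abs_of_pos h1]
  exact h2.trans_le (min_le_right _ _)

set_option linter.unusedVariables false in
/-- e3: local serving at an upper end over an open side. `p₁`, `p₂` are points of the face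
below `w` on both sides. -/
theorem loc_upper {K : Set Q3} (hK : IsCompact K) (hi : (interior K).Nonempty) {w p₁ p₂ : Q3}
    {σ c : ℝ} (hw : w ∈ K) (hp₁ : p₁ ∈ K) (hp₂ : p₂ ∈ K)
    (hle : ∀ p ∈ K, dotC (eA σ) p.1 ≤ c) (hwc : dotC (eA σ) w.1 = c)
    (h1c : dotC (eA σ) p₁.1 = c) (h2c : dotC (eA σ) p₂.1 = c) (h1z : p₁.2 < w.2)
    (h2z : p₂.2 < w.2) (h1l : dotC (eA (σ + π / 2)) p₁.1 < dotC (eA (σ + π / 2)) w.1)
    (h2l : dotC (eA (σ + π / 2)) w.1 < dotC (eA (σ + π / 2)) p₂.1)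
    {χ : ℝ} (hχ : 0 < Real.cos (χ - σ)) :
    ∃ ε : ℝ, 0 < ε ∧ ∀ s : ℝ, 0 < s → s < ε → ∀ y ∈ K, dist y w < ε →
      Sv K y ((s : ℂ) * eA χ, 1) := by
  by_contra hcon
  push Not at hcon
  have hseq : ∀ k : ℕ, ∃ (y : Q3) (s : ℝ) (n : Q3), y ∈ K ∧ dist y w < 1 / ((k : ℝ) + 1) ∧
      0 < s ∧ s < 1 / ((k : ℝ) + 1) ∧ Nm K y n ∧ pr n ((s : ℂ) * eA χ, 1) ≤ 0 := by
    intro k
    obtain ⟨s, h1, h2, y, hy, hd, hns⟩ := hcon (1 / ((k : ℝ) + 1)) (by positivity)
    unfold Sv at hns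
    push Not at hns
    obtain ⟨n, hn, hle'⟩ := hns
    exact ⟨y, s, n, hy, hd, h1, h2, hn, hle'⟩
  choose y s n hyK hyd hs0 hs1 hn hnle using hseq
  have h0 : Tendsto (fun k : ℕ => 1 / ((k : ℝ) + 1)) atTop (𝓝 0) :=
    tendsto_one_div_add_atTop_nhds_zero_nat
  have hy : Tendsto y atTop (𝓝 w) := by
    rw [tendsto_iff_dist_tendsto_zero]
    exact squeeze_zero (fun _ => dist_nonneg) (fun k => (hyd k).le) h0
  have hs : Tendsto s atTop (𝓝 0) := squeeze_zero (fun k => (hs0 k).le) (fun k => (hs1 k).le) h0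
  obtain ⟨φ, m, hφ, hm, hlim⟩ := normal_limit hy hn
  have hpos : ∀ k, 0 < ‖n k‖⁻¹ := fun k => inv_pos.2 (norm_pos_iff.2 (hn k).1)
  set N : ℕ → Q3 := fun k => ‖n (φ k)‖⁻¹ • n (φ k) with hN
  have hNm : ∀ k, Nm K (y (φ k)) (N k) := fun k => Nm_smul (hn (φ k)) (hpos _)
  have hNle : ∀ k, s (φ k) * dotC (N k).1 (eA χ) + (N k).2 ≤ 0 := by
    intro k
    have h1 : pr (N k) (((s (φ k) : ℝ) : ℂ) * eA χ, 1) ≤ 0 := by
      rw [hN]
      simp only
      rw [pr_smul_left]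
      exact mul_nonpos_of_nonneg_of_nonpos (hpos _).le (hnle _)
    simp only [pr, mul_one] at h1
    rw [dotC_ofReal_right] at h1
    exact h1
  have hyφ : Tendsto (fun k => y (φ k)) atTop (𝓝 w) := hy.comp hφ.tendsto_atTop
  have hsφ : Tendsto (fun k => s (φ k)) atTop (𝓝 0) := hs.comp hφ.tendsto_atTop
  have hN1 : Tendsto (fun k => (N k).1) atTop (𝓝 m.1) := (continuous_fst.tendsto m).comp hlim
  have hN2 : Tendsto (fun k => (N k).2) atTop (𝓝 m.2) := (continuous_snd.tendsto m).comp hlim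
  have hdl : ∀ e : ℂ, Tendsto (fun k => dotC (N k).1 e) atTop (𝓝 (dotC m.1 e)) := by
    intro e
    have hc : Continuous (fun x : ℂ => dotC x e) := by unfold dotC; fun_prop
    exact (hc.tendsto m.1).comp hN1
  have hdr : ∀ e : ℂ, Tendsto (fun k => dotC e (y (φ k)).1) atTop (𝓝 (dotC e w.1)) := by
    intro e
    have hc : Continuous (fun x : Q3 => dotC e x.1) := by unfold dotC; fun_prop
    exact (hc.tendsto w).comp hyφ
  -- the limit
  have hm2 : m.2 ≤ 0 := by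
    have h1 : Tendsto (fun k => s (φ k) * dotC (N k).1 (eA χ) + (N k).2) atTop
        (𝓝 (0 * dotC m.1 (eA χ) + m.2)) := (hsφ.mul (hdl _)).add hN2
    rw [zero_mul, zero_add] at h1
    exact le_of_tendsto' h1 hNle
  set A := dotC m.1 (eA σ) with hA
  set B := dotC m.1 (eA (σ + π / 2)) with hB
  have hdec : ∀ q : Q3, pr m q = A * dotC (eA σ) q.1 + B * dotC (eA (σ + π / 2)) q.1 +
      m.2 * q.2 := by
    intro q
    unfold pr
    rw [e41_dot_decomp σ m.1 q.1]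
  have k1 := hm.2 _ hp₁
  have k2 := hm.2 _ hp₂
  rw [hdec, hdec, hwc] at k1 k2
  rw [h1c] at k1
  rw [h2c] at k2
  have hB0 : B = 0 := by
    apply le_antisymm
    · by_contra hc
      rw [not_le] at hc
      have h1 := mul_pos hc (sub_pos.2 h2l)
      have h2 := mul_nonneg (neg_nonneg.2 hm2) (sub_pos.2 h2z).le
      nlinarith
    · by_contra hc
      rw [not_le] at hc
      have h1 := mul_pos (neg_pos.2 hc) (sub_pos.2 h1l)
      have h2 := mul_nonneg (neg_nonneg.2 hm2) (sub_pos.2 h1z).le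
      nlinarith
  have hm20 : m.2 = 0 := by
    apply le_antisymm hm2
    by_contra hc
    rw [not_le] at hc
    have h2 := mul_pos (neg_pos.2 hc) (sub_pos.2 h1z)
    rw [hB0] at k1
    nlinarith
  have hApos : 0 < A := by
    obtain ⟨q, hq⟩ := hi
    have hqlt : dotC (eA σ) q.1 < c := by
      have h1 : Tendsto (fun t : ℝ => q + t • ((eA σ, 0) : Q3)) (𝓝 0) (𝓝 q) := by
        have : Continuous (fun t : ℝ => q + t • ((eA σ, 0) : Q3)) := by fun_prop
        simpa using this.tendsto 0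
      obtain ⟨ε, hε, hb⟩ := Metric.eventually_nhds_iff.1
        (h1 (mem_interior_iff_mem_nhds.1 hq))
      have h2 : q + (ε / 2) • ((eA σ, 0) : Q3) ∈ K := hb (by
        rw [dist_zero_right, Real.norm_eq_abs, abs_of_pos (by positivity)]; linarith)
      have h3 := hle _ h2
      have h4 : dotC (eA σ) (q + (ε / 2) • ((eA σ, 0) : Q3)).1 =
          dotC (eA σ) q.1 + ε / 2 := by
        have h5 : (q + (ε / 2) • ((eA σ, 0) : Q3)).1 = q.1 + ((ε / 2 : ℝ) : ℂ) * eA σ := by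
          simp
        rw [h5, dotC_add_right, dotC_ofReal_right, dotC_self, norm_eA]
        ring
      rw [h4] at h3
      linarith
    have h2 := hm.2 _ (interior_subset hq)
    rw [hdec, hdec, hwc, hB0, hm20] at h2
    have hA0 : 0 ≤ A := by
      by_contra hc
      rw [not_le] at hc
      nlinarith
    refine lt_of_le_of_ne hA0 fun h3 => hm.1 (Prod.ext (e41_eq_of_dots (σ := σ) ?_ ?_) hm20)
    · rw [dotC_comm, ← hA, ← h3]
      simp [dotC_zero_right]
    · rw [dotC_comm, ← hB, hB0]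
      simp [dotC_zero_right]
  have hχ1 : 0 < dotC m.1 (eA χ) := by
    have h1 : m.1 = ((A : ℝ) : ℂ) * eA σ := by
      apply e41_eq_of_dots (σ := σ)
      · rw [dotC_comm, ← hA, dotC_ofReal_right, dotC_self, norm_eA]
        ring
      · rw [dotC_comm, ← hB, hB0, dotC_ofReal_right, dotC_eA]
        have : σ + π / 2 - σ = π / 2 := by ring
        rw [this, Real.cos_pi_div_two, mul_zero]
    rw [h1, dotC_ofReal_left, dotC_eA, ← Real.cos_neg, neg_sub]
    exact mul_pos hApos hχ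
  -- a good index
  have e1 : ∀ᶠ k in atTop, 0 < dotC (N k).1 (eA χ) := (hdl _).eventually (lt_mem_nhds hχ1)
  have e2 : ∀ᶠ k in atTop, 0 < dotC (N k).1 (eA σ) := (hdl _).eventually (lt_mem_nhds hApos)
  have e3 : ∀ᶠ k in atTop, dotC (eA (σ + π / 2)) p₁.1 < dotC (eA (σ + π / 2)) (y (φ k)).1 :=
    (hdr _).eventually (lt_mem_nhds h1l)
  have e4 : ∀ᶠ k in atTop, dotC (eA (σ + π / 2)) (y (φ k)).1 < dotC (eA (σ + π / 2)) p₂.1 :=
    (hdr _).eventually (gt_mem_nhds h2l)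
  have hy2 : Tendsto (fun k => (y (φ k)).2) atTop (𝓝 w.2) := (continuous_snd.tendsto w).comp hyφ
  have e5 : ∀ᶠ k in atTop, p₁.2 < (y (φ k)).2 := hy2.eventually (lt_mem_nhds h1z)
  have e6 : ∀ᶠ k in atTop, p₂.2 < (y (φ k)).2 := hy2.eventually (lt_mem_nhds h2z)
  obtain ⟨k, f1, f2, f3, f4, f5, f6⟩ :=
    (e1.and (e2.and (e3.and (e4.and (e5.and e6))))).exists
  have g1 := hNle k
  have g2 : (N k).2 < 0 := by
    have := mul_pos (hs0 (φ k)) f1
    linarith
  have g3 := (hNm k).2 _ hp₁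
  have g4 := (hNm k).2 _ hp₂
  have g5 := hle _ (hyK (φ k))
  unfold pr at g3 g4
  rw [e41_dot_decomp σ (N k).1 p₁.1, e41_dot_decomp σ (N k).1 (y (φ k)).1, h1c] at g3
  rw [e41_dot_decomp σ (N k).1 p₂.1, e41_dot_decomp σ (N k).1 (y (φ k)).1, h2c] at g4
  have g6 := mul_nonneg f2.le (sub_nonneg.2 g5)
  rcases le_or_gt 0 (dotC (N k).1 (eA (σ + π / 2))) with g7 | g7
  · have g8 := mul_nonneg g7 (sub_pos.2 f4).le
    have g9 := mul_pos (neg_pos.2 g2) (sub_pos.2 f6)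
    nlinarith
  · have g8 := mul_pos (neg_pos.2 g7) (sub_pos.2 f3)
    have g9 := mul_pos (neg_pos.2 g2) (sub_pos.2 f5)
    nlinarith

/-! ### points over a side -/

lemma e41_side_re {a : ℝ} {p : ℂ} (h : dotC (eA (π / 3)) p = a / 2) : p.re = a - √3 * p.im := by
  rw [e41_eA_60, e41_dotC_def] at h
  simp only at h
  linarith

lemma e41_side_of_re {a : ℝ} {p : ℂ} (h : p.re = a - √3 * p.im) :
    dotC (eA (π / 3)) p = a / 2 := by
  rw [e41_eA_60, e41_dotC_def]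
  simp only
  rw [h]
  ring

lemma e41_side_comb {K : Set Q3} (hc : Convex ℝ K) {a : ℝ} {p q : Q3} {w : ℂ} (hp : p ∈ K)
    (hq : q ∈ K) (h1 : dotC (eA (π / 3)) p.1 = a / 2) (h2 : dotC (eA (π / 3)) q.1 = a / 2)
    (h3 : dotC (eA (π / 3)) w = a / 2) {l : ℝ} (hl0 : 0 ≤ l) (hl1 : l ≤ 1)
    (him : (1 - l) * p.1.im + l * q.1.im = w.im) : (w, (1 - l) * p.2 + l * q.2) ∈ K := by
  have h := hc hp hq (sub_nonneg.2 hl1) hl0 (by ring : (1 - l) + l = 1)
  have e : (1 - l) • p + l • q = (w, (1 - l) * p.2 + l * q.2) := by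
    refine Prod.ext ?_ ?_
    · apply Complex.ext
      · have e1 := e41_side_re h1
        have e2 := e41_side_re h2
        have e3 := e41_side_re h3
        simp only [Prod.fst_add, Prod.smul_fst, Complex.add_re, Complex.real_smul,
          Complex.mul_re, Complex.ofReal_re, Complex.ofReal_im, zero_mul, sub_zero]
        rw [e1, e2, e3, ← him]
        ring
      · simp only [Prod.fst_add, Prod.smul_fst, Complex.add_im, Complex.real_smul,
          Complex.mul_im, Complex.ofReal_re, Complex.ofReal_im, zero_mul, add_zero]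
        exact him
    · simp
  rw [e] at h
  exact h

lemma e41_side_v0 (a : ℝ) : dotC (eA (π / 3)) (a : ℂ) = a / 2 :=
  e41_side_of_re (by simp)

lemma e41_v1_im (a : ℝ) : ((a : ℂ) * eA (2 * π / 3)).im = √3 / 2 * a := by
  rw [e41_eA_120]; simp; ring

lemma e41_v1_re (a : ℝ) : ((a : ℂ) * eA (2 * π / 3)).re = -(a / 2) := by
  rw [e41_eA_120]; simp; ring

lemma e41_v2_im (a : ℝ) : ((a : ℂ) * eA (4 * π / 3)).im = -(√3 / 2 * a) := by
  rw [e41_eA_240]; simp; ring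

lemma e41_v2_re (a : ℝ) : ((a : ℂ) * eA (4 * π / 3)).re = -(a / 2) := by
  rw [e41_eA_240]; simp; ring

lemma e41_side_v1 (a : ℝ) : dotC (eA (π / 3)) ((a : ℂ) * eA (2 * π / 3)) = a / 2 := by
  apply e41_side_of_re
  rw [e41_v1_im, e41_v1_re]
  linear_combination (a / 2) * e41_s3_sq

/-- the position over the side. -/
lemma e41_side_range {K : Set Q3} (hK : RB 3 K) {a z₀ : ℝ}
    (hn : Nm K ((a : ℂ), z₀) (eA (π / 3), 0)) {w : Q3} (hw : w ∈ K)
    (hws : dotC (eA (π / 3)) w.1 = a / 2) : 0 ≤ w.1.im ∧ w.1.im ≤ √3 / 2 * a := by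
  have h1 := e41_tri_le1 hK hn hw
  have h2 := e41_tri_le2 hK hn hw
  have h3 := e41_side_re hws
  rw [e41_eA_pi', e41_dotC_def] at h1
  rw [e41_eA_300, e41_dotC_def] at h2
  simp only at h1 h2
  rw [h3] at h1 h2
  have hs := e41_s3_pos
  have hs2 := e41_s3_sq
  constructor
  · by_contra hc
    rw [not_le] at hc
    have := mul_pos hs (neg_pos.2 hc)
    linarith
  · have h4 : √3 * w.1.im ≤ √3 * (√3 / 2 * a) := by
      have : √3 * (√3 / 2 * a) = 3 / 2 * a := by linear_combination (a / 2) * hs2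
      rw [this]
      linarith
    exact le_of_mul_le_mul_left h4 hs

lemma e41_side_open {K : Set Q3} (hK : RB 3 K) {a z₀ : ℝ}
    (hn : Nm K ((a : ℂ), z₀) (eA (π / 3), 0)) {w : Q3} (hw : w ∈ K)
    (hws : dotC (eA (π / 3)) w.1 = a / 2) (hx1 : w.1 ≠ (a : ℂ))
    (hx2 : w.1 ≠ (a : ℂ) * eA (2 * π / 3)) : 0 < w.1.im ∧ w.1.im < √3 / 2 * a := by
  obtain ⟨h1, h2⟩ := e41_side_range hK hn hw hws
  have h3 := e41_side_re hws
  constructor
  · refine lt_of_le_of_ne h1 fun h => hx1 ?_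
    apply Complex.ext
    · rw [h3, ← h]; simp
    · rw [← h]; simp
  · refine lt_of_le_of_ne h2 fun h => hx2 ?_
    apply Complex.ext
    · rw [h3, h, e41_v1_re]
      linear_combination (-(a / 2)) * e41_s3_sq
    · rw [h, e41_v1_im]

/-- e6: the points over the open side: not over a vertex, the fibre is not degenerate. -/
theorem tri_side {K : Set Q3} (hK : RB 3 K) {a z₀ : ℝ} (ha : 0 < a)
    (hx : ((a : ℂ), z₀) ∈ K) (hn : Nm K ((a : ℂ), z₀) (eA (π / 3), 0)) {w₀ : Q3} (hw₀ : w₀ ∈ K)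
    (h₀ : dotC (eA (π / 3)) w₀.1 = a / 2) (hz₀ : w₀.2 ≠ z₀) {w : Q3} (hw : w ∈ K)
    (hws : dotC (eA (π / 3)) w.1 = a / 2) (hx1 : w.1 ≠ (a : ℂ))
    (hx2 : w.1 ≠ (a : ℂ) * eA (2 * π / 3)) :
    ∃ z : ℝ, z ≠ w.2 ∧ (w.1, z) ∈ K := by
  obtain ⟨i1, i2⟩ := e41_side_open hK hn hw hws hx1 hx2
  have hY : 0 < √3 / 2 * a := by have := e41_s3_pos; positivity
  by_cases hz : w.2 = z₀
  · rcases lt_trichotomy w₀.1.im w.1.im with h | h | h
    · -- the segment to `R x`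
      have hd : 0 < √3 / 2 * a - w₀.1.im := by linarith
      have h1 := e41_side_comb hK.conv hw₀ (e41_tri_v1 hK hx) h₀ (e41_side_v1 a) hws
        (l := (w.1.im - w₀.1.im) / (√3 / 2 * a - w₀.1.im))
        (div_nonneg (by linarith) hd.le) ((div_le_one hd).2 (by linarith)) (by
          have hg : ∀ Y u v : ℝ, 0 < Y - u → (1 - (v - u) / (Y - u)) * u + (v - u) / (Y - u) * Y =
              v := by
            intro Y u v h
            field_simp
            ring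
          simp only [e41_v1_im]
          exact hg _ _ _ hd)
      refine ⟨_, ?_, h1⟩
      have hl : (w.1.im - w₀.1.im) / (√3 / 2 * a - w₀.1.im) < 1 := (div_lt_one hd).2 (by linarith)
      set l := (w.1.im - w₀.1.im) / (√3 / 2 * a - w₀.1.im)
      intro h2
      simp only at h2
      rw [hz] at h2
      have h3 : (1 - l) * (w₀.2 - z₀) = 0 := by linarith
      rcases mul_eq_zero.1 h3 with h4 | h4
      · linarith
      · exact hz₀ (by linarith)
    · refine ⟨w₀.2, by rw [hz]; exact hz₀, ?_⟩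
      have h1 : w.1 = w₀.1 := by
        apply Complex.ext
        · rw [e41_side_re hws, e41_side_re h₀, h]
        · exact h.symm
      rw [h1]
      exact hw₀
    · -- the segment to `x`
      have hd : 0 < w₀.1.im := by linarith
      have h1 := e41_side_comb hK.conv hw₀ hx h₀ (e41_side_v0 a) hws
        (l := (w₀.1.im - w.1.im) / w₀.1.im)
        (div_nonneg (by linarith) hd.le) ((div_le_one hd).2 (by linarith)) (by
          simp only [Complex.ofReal_im]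
          field_simp
          ring)
      refine ⟨_, ?_, h1⟩
      have hl : (w₀.1.im - w.1.im) / w₀.1.im < 1 := (div_lt_one hd).2 (by linarith)
      set l := (w₀.1.im - w.1.im) / w₀.1.im
      intro h2
      simp only at h2
      rw [hz] at h2
      have h3 : (1 - l) * (w₀.2 - z₀) = 0 := by linarith
      rcases mul_eq_zero.1 h3 with h4 | h4
      · linarith
      · exact hz₀ (by linarith)
  · refine ⟨z₀, fun h => hz h.symm, ?_⟩
    have h1 := e41_side_comb hK.conv hx (e41_tri_v1 hK hx) (e41_side_v0 a) (e41_side_v1 a) hws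
      (l := w.1.im / (√3 / 2 * a)) (div_nonneg i1.le hY.le) ((div_le_one hY).2 i2.le) (by
        simp only [e41_v1_im, Complex.ofReal_im]
        field_simp
        ring)
    have e : (1 - w.1.im / (√3 / 2 * a)) * ((a : ℂ), z₀).2 +
        w.1.im / (√3 / 2 * a) * ((a : ℂ) * eA (2 * π / 3), z₀).2 = z₀ := by
      simp only
      ring
    rw [e] at h1
    exact h1

/-- normals over the open side which are orthogonal to the side. -/
lemma e41_side_normal {K : Set Q3} (hK : RB 3 K) {a z₀ : ℝ} (ha : 0 < a)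
    (hx : ((a : ℂ), z₀) ∈ K) {w n : Q3}
    (hws : dotC (eA (π / 3)) w.1 = a / 2) (i1 : 0 < w.1.im) (i2 : w.1.im < √3 / 2 * a)
    (hN : Nm K w n) (hz : n.2 * z₀ = n.2 * w.2) (h1 : n.1 ≠ 0) :
    0 < pr n (eA (2 * π / 3 * (0 : ℤ)), 0) := by
  have k0 := hN.2 _ hx
  have k1 := hN.2 _ (e41_tri_v1 hK hx)
  have k2 := hN.2 _ (e41_tri_v2 hK hx)
  have e0 : pr n (eA (2 * π / 3 * (0 : ℤ)), 0) = n.1.re := by
    have : 2 * π / 3 * ((0 : ℤ) : ℝ) = 0 := by push_cast; ring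
    rw [this, eA_zero]
    simp [pr, e41_dotC_def]
  rw [e0]
  simp only [pr] at k0 k1 k2
  rw [e41_dotC_def, e41_dotC_def] at k0 k1 k2
  rw [e41_v1_re, e41_v1_im] at k1
  rw [e41_v2_re, e41_v2_im] at k2
  rw [e41_side_re hws] at k0 k1 k2
  simp only [Complex.ofReal_re, Complex.ofReal_im, mul_zero, add_zero] at k0
  have hs := e41_s3_pos
  have hs2 := e41_s3_sq
  set s := √3
  set y := w.1.im
  set m := n.1.re with hm
  set k := n.1.im with hk
  have j0 : s * m ≤ k := by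
    by_contra hc
    rw [not_le] at hc
    have := mul_pos i1 (sub_pos.2 hc)
    nlinarith
  have j1 : k ≤ s * m := by
    by_contra hc
    rw [not_le] at hc
    have h5 := mul_pos (sub_pos.2 i2) (sub_pos.2 hc)
    have h6 : s / 2 * a * (k - s * m) = k * (s / 2 * a) - 3 / 2 * m * a := by
      linear_combination (-(m * a / 2)) * hs2
    nlinarith
  have j : k = s * m := le_antisymm j1 j0
  have j2 : 0 ≤ m := by
    rw [j] at k2
    have h6 : s * m * -(s / 2 * a) = -(3 / 2 * m * a) := by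
      linear_combination (-(m * a / 2)) * hs2
    rw [h6] at k2
    have h7 : s * m * y = m * (s * y) := by ring
    have h8 : 0 ≤ m * a := by nlinarith
    exact nonneg_of_mul_nonneg_left h8 ha
  refine lt_of_le_of_ne j2 fun h => h1 ?_
  apply Complex.ext
  · rw [Complex.zero_re, ← hm, ← h]
  · rw [Complex.zero_im, ← hk, j, ← h, mul_zero]

/-- a mixed point over a vertex. -/
lemma e41_tri_vertex {K : Set Q3} (hK : RB 3 K) {h h' : ℝ} (hT : Top K h) (hB : Bot K h') {a : ℝ}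
    (ha : 0 < a) {w : Q3} (hw : Mx K w) (hwa : w.1 = (a : ℂ)) :
    Sv K w (eA (2 * π / 3 * (0 : ℤ)), 0) := by
  intro n hn
  have h1 := (mixed_polar hK hT hB hw).2 n hn
  have e : w = ((a : ℂ) * eA 0, w.2) := by
    refine Prod.ext ?_ rfl
    rw [eA_zero, mul_one]
    exact hwa
  have hwK := hw.1
  rw [e] at hn hwK
  obtain ⟨φ, l, hl, h2, h3, h4⟩ := normal_angle hK ha hwK hn h1
  have e0 : 2 * π / 3 * ((0 : ℤ) : ℝ) = 0 := by push_cast; ring
  rw [e0]
  simp only [pr, mul_zero, add_zero]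
  rw [h4, dotC_ofReal_left, dotC_eA, sub_zero]
  have hpi := Real.pi_pos
  exact mul_pos hl (Real.cos_pos_of_mem_Ioo ⟨by linarith, by linarith⟩)

lemma e41_hor3 (k : ℤ) : ∃ i : Fin 3, eA (2 * π / 3 * k) = eA (2 * π / 3 * ((i : ℕ) : ℝ)) := by
  have h1 := Int.emod_add_mul_ediv k 3
  have h2 : (k : ℝ) = ((k % 3 : ℤ) : ℝ) + 3 * ((k / 3 : ℤ) : ℝ) := by
    exact_mod_cast h1.symm
  have h3 : 2 * π / 3 * (k : ℝ) = 2 * π / 3 * ((k % 3 : ℤ) : ℝ) + ((k / 3 : ℤ) : ℝ) * (2 * π) := by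
    rw [h2]; ring
  have h4 : 0 ≤ k % 3 := Int.emod_nonneg _ (by norm_num)
  have h5 : k % 3 < 3 := Int.emod_lt_of_pos _ (by norm_num)
  refine ⟨⟨(k % 3).toNat, by omega⟩, ?_⟩
  rw [h3, e41_eA_per]
  congr 2
  simp only
  have h6 : (((k % 3).toNat : ℤ) : ℝ) = ((k % 3 : ℤ) : ℝ) := by rw [Int.toNat_of_nonneg h4]
  rw [← h6, Int.cast_natCast]

/-- rotation of `w` back. -/
lemma e41_Sv_back {K : Set Q3} (hK : RB 3 K) {w : Q3} {j k : ℤ}
    (h : Sv K (Rz (-(2 * π / 3 * j)) w) (eA (2 * π / 3 * k), 0)) :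
    Sv K w (eA (2 * π / 3 * ((j + k : ℤ) : ℝ)), 0) := by
  have h1 := rot_Sv hK h j
  have h2 : Rz (2 * π / 3 * j) (Rz (-(2 * π / 3 * j)) w) = w := Rz_cancel _ _
  unfold Rz at h2
  simp only at h2
  unfold Rz at h1
  simp only at h1
  rw [h2, ← eA_add] at h1
  have e : 2 * π / 3 * (j : ℝ) + 2 * π / 3 * (k : ℝ) = 2 * π / 3 * ((j + k : ℤ) : ℝ) := by
    push_cast; ring
  rw [e] at h1
  exact h1

lemma e41_Mx_rot {K : Set Q3} (hK : RB 3 K) {w : Q3} (h : Mx K w) (j : ℤ) :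
    Mx K (Rz (-(2 * π / 3 * j)) w) := by
  obtain ⟨hw, m, hm⟩ := h
  have e : 2 * π / 3 * ((-j : ℤ) : ℝ) = -(2 * π / 3 * j) := by push_cast; ring
  have h1 := mem_rotz hK hw (-j)
  have h2 := rot_Nm hK hm (-j)
  rw [e] at h1 h2
  exact ⟨h1, _, h2⟩

/-- over the side `60` after a rotation. -/
lemma e41_side_rot {K : Set Q3} (hK : RB 3 K) {a z₀ : ℝ} (ha : 0 < a)
    (hx : ((a : ℂ), z₀) ∈ K) (hn : Nm K ((a : ℂ), z₀) (eA (π / 3), 0)) {w : Q3} (hw : Mx K w) :
    ∃ j : ℤ, (j = 0 ∨ j = 1 ∨ j = 2) ∧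
      dotC (eA (π / 3)) (Rz (-(2 * π / 3 * j)) w).1 = a / 2 := by
  have key : ∀ j : ℤ, dotC (eA (π / 3 + 2 * π / 3 * j)) w.1 = a / 2 →
      dotC (eA (π / 3)) (Rz (-(2 * π / 3 * j)) w).1 = a / 2 := by
    intro j hj
    have h3 := pr_Rz (2 * π / 3 * j) ((eA (π / 3), 0) : Q3) (Rz (-(2 * π / 3 * j)) w)
    rw [Rz_cancel, Rz_n] at h3
    simp only [pr, zero_mul, add_zero] at h3
    rw [← h3]
    exact hj
  rcases e41_tri_mixed3 hK ha hx hn hw with h | h | h
  · exact ⟨0, Or.inl rfl, key 0 (by simpa using h)⟩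
  · refine ⟨1, Or.inr (Or.inl rfl), key 1 ?_⟩
    have e : π / 3 + 2 * π / 3 * ((1 : ℤ) : ℝ) = π := by push_cast; ring
    rwa [e]
  · refine ⟨2, Or.inr (Or.inr rfl), key 2 ?_⟩
    have e : π / 3 + 2 * π / 3 * ((2 : ℤ) : ℝ) = 5 * π / 3 := by push_cast; ring
    rwa [e]

/-- over a vertex of the side `60`. -/
lemma e41_vertex_sv {K : Set Q3} (hK : RB 3 K) {h h' : ℝ} (hT : Top K h) (hB : Bot K h') {a : ℝ}
    (ha : 0 < a) {w : Q3} (hw : Mx K w) (hv : w.1 = (a : ℂ) ∨ w.1 = (a : ℂ) * eA (2 * π / 3)) :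
    ∃ k : ℤ, Sv K w (eA (2 * π / 3 * k), 0) := by
  rcases hv with hv | hv
  · exact ⟨0, e41_tri_vertex hK hT hB ha hw hv⟩
  · have h1 := e41_Mx_rot hK hw 1
    have h2 : (Rz (-(2 * π / 3 * ((1 : ℤ) : ℝ))) w).1 = (a : ℂ) := by
      unfold Rz
      simp only
      rw [hv]
      have e : 2 * π / 3 * ((1 : ℤ) : ℝ) = 2 * π / 3 := by push_cast; ring
      rw [e, mul_comm, mul_assoc, ← eA_add, add_neg_cancel, eA_zero, mul_one]
    exact ⟨_, e41_Sv_back hK (e41_tri_vertex hK hT hB ha h1 h2)⟩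

/-- e2: the face over one side is a horizontal segment: three horizontals. -/
theorem tri_one {K : Set Q3} (hK : RB 3 K) {h h' : ℝ} (hT : Top K h) (hB : Bot K h') {a z₀ : ℝ}
    (ha : 0 < a) (hx : ((a : ℂ), z₀) ∈ K) (hn : Nm K ((a : ℂ), z₀) (eA (π / 3), 0))
    (hF : ∀ w ∈ K, dotC (eA (π / 3)) w.1 = a / 2 → w.2 = z₀) : Served K 7 := by
  apply served_of_five hK ![0, 2 * π / 3, 4 * π / 3, 0, 0]
  intro w hw
  obtain ⟨j, -, hj⟩ := e41_side_rot hK ha hx hn hw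
  have hw' := e41_Mx_rot hK hw j
  set w' := Rz (-(2 * π / 3 * (j : ℝ))) w with hwd
  have hk : ∃ k : ℤ, Sv K w' (eA (2 * π / 3 * k), 0) := by
    by_cases h1 : w'.1 = (a : ℂ)
    · exact e41_vertex_sv hK hT hB ha hw' (Or.inl h1)
    by_cases h2 : w'.1 = (a : ℂ) * eA (2 * π / 3)
    · exact e41_vertex_sv hK hT hB ha hw' (Or.inr h2)
    obtain ⟨i1, i2⟩ := e41_side_open hK hn hw'.1 hj h1 h2
    refine ⟨0, fun n hN => ?_⟩
    exact e41_side_normal hK ha hx hj i1 i2 hN (by rw [hF _ hw'.1 hj])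
      ((mixed_polar hK hT hB hw').2 n hN)
  obtain ⟨k, hk⟩ := hk
  have h1 := e41_Sv_back hK hk
  obtain ⟨i, hi⟩ := e41_hor3 (j + k)
  rw [hi] at h1
  fin_cases i
  · exact ⟨0, by simpa using h1⟩
  · exact ⟨1, by simpa using h1⟩
  · refine ⟨2, ?_⟩
    have e : 2 * π / 3 * (((⟨2, by norm_num⟩ : Fin 3) : ℕ) : ℝ) = 4 * π / 3 := by
      norm_num
      ring
    simp only at h1
    have e2 : (![0, 2 * π / 3, 4 * π / 3, 0, 0] : Fin 5 → ℝ) 2 = 4 * π / 3 := rfl
    rw [e2, ← e]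
    exact h1

/-! ### e7 -/

/-- local serving -/
def e41_LSv (K : Set Q3) (w : Q3) (v : ℝ → Q3) : Prop :=
  ∃ ε : ℝ, 0 < ε ∧ ∀ s : ℝ, 0 < s → s < ε → ∀ y ∈ K, dist y w < ε → Sv K y (v s)

lemma e41_dist_Rz (θ : ℝ) (x y : Q3) : dist (Rz θ x) (Rz θ y) = dist x y := by
  unfold Rz
  rw [Prod.dist_eq, Prod.dist_eq]
  simp only
  congr 1
  rw [Complex.dist_eq, Complex.dist_eq, ← mul_sub, norm_mul, norm_eA, one_mul]

lemma e41_LSv_rot {K : Set Q3} (hK : RB 3 K) {w : Q3} {j : ℤ} {χ c : ℝ}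
    (h : e41_LSv K (Rz (-(2 * π / 3 * j)) w) (fun s => ((s : ℂ) * eA χ, c))) :
    e41_LSv K w (fun s => ((s : ℂ) * eA (χ + 2 * π / 3 * j), c)) := by
  obtain ⟨ε, hε, H⟩ := h
  refine ⟨ε, hε, fun s h1 h2 y hy hd => ?_⟩
  have e : 2 * π / 3 * ((-j : ℤ) : ℝ) = -(2 * π / 3 * j) := by push_cast; ring
  have h3 := mem_rotz hK hy (-j)
  rw [e] at h3
  have h4 := rot_Sv hK (H s h1 h2 _ h3 (by rw [e41_dist_Rz]; exact hd)) j
  have h5 : Rz (2 * π / 3 * j) (Rz (-(2 * π / 3 * j)) y) = y := Rz_cancel _ _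
  have h6 : Sv K (Rz (2 * π / 3 * j) (Rz (-(2 * π / 3 * j)) y))
      (Rz (2 * π / 3 * j) ((s : ℂ) * eA χ, c)) := h4
  rw [h5, Rz_pt] at h6
  exact h6

lemma e41_LSv_fl {K : Set Q3} {w : Q3} {χ : ℝ}
    (h : e41_LSv (fl K) (w.1, -w.2) (fun s => ((s : ℂ) * eA χ, 1))) :
    e41_LSv K w (fun s => ((s : ℂ) * eA χ, -1)) := by
  obtain ⟨ε, hε, H⟩ := h
  refine ⟨ε, hε, fun s h1 h2 y hy hd => ?_⟩
  have h3 := H s h1 h2 (y.1, -y.2) (by
    show ((y.1, - -y.2) : Q3) ∈ K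
    rw [neg_neg]
    exact hy) (by
    rw [Prod.dist_eq] at hd ⊢
    have h4 : dist (-y.2) (-w.2) = dist y.2 w.2 := dist_neg_neg _ _
    simp only
    rw [h4]
    exact hd)
  rw [Sv_fl] at h3
  simpa using h3

/-- the upper end of a fibre over the open side. -/
lemma e41_tri_up {K : Set Q3} (hK : RB 3 K) {a z₀ : ℝ}
    (hx : ((a : ℂ), z₀) ∈ K) (hn : Nm K ((a : ℂ), z₀) (eA (π / 3), 0)) {w : Q3} (hw : w ∈ K)
    (hws : dotC (eA (π / 3)) w.1 = a / 2) (i1 : 0 < w.1.im) (i2 : w.1.im < √3 / 2 * a)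
    {z : ℝ} (hz : z < w.2) (hzK : (w.1, z) ∈ K) (hup : ∀ z', (w.1, z') ∈ K → z' ≤ w.2)
    {χ : ℝ} (hχ : 0 < Real.cos (χ - π / 3)) : e41_LSv K w (fun s => ((s : ℂ) * eA χ, 1)) := by
  have hY : 0 < √3 / 2 * a := by linarith
  have ha0 : a ≠ 0 := by
    rintro rfl
    simp at hY
  have h0 : z₀ ≤ w.2 := by
    apply hup
    have h1 := e41_side_comb hK.conv hx (e41_tri_v1 hK hx) (e41_side_v0 a) (e41_side_v1 a) hws
      (l := w.1.im / (√3 / 2 * a)) (div_nonneg i1.le hY.le) ((div_le_one hY).2 i2.le) (by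
        simp only [e41_v1_im, Complex.ofReal_im]
        field_simp
        ring)
    have e : (1 - w.1.im / (√3 / 2 * a)) * ((a : ℂ), z₀).2 +
        w.1.im / (√3 / 2 * a) * ((a : ℂ) * eA (2 * π / 3), z₀).2 = z₀ := by
      simp only
      ring
    rw [e] at h1
    exact h1
  have hdir : ∀ q : ℂ, dotC (eA (π / 3)) q = a / 2 →
      dotC (eA (π / 3 + π / 2)) q = -(√3 / 2 * a) + 2 * q.im := by
    intro q hq
    rw [e41_eA_150, e41_dotC_def]
    simp only
    rw [e41_side_re hq]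
    linear_combination (q.im / 2) * e41_s3_sq
  have hmid : ∀ x' : Q3, x' ∈ K → dotC (eA (π / 3)) x'.1 = a / 2 → x'.2 = z₀ →
      ∃ p : Q3, p ∈ K ∧ dotC (eA (π / 3)) p.1 = a / 2 ∧ p.2 < w.2 ∧
        p.1.im = (w.1.im + x'.1.im) / 2 := by
    intro x' h1 h2 h3
    refine ⟨(1 / 2 : ℝ) • (w.1, z) + (1 / 2 : ℝ) • x', hK.conv hzK h1 (by norm_num)
      (by norm_num) (by norm_num), ?_, ?_, ?_⟩
    · have e : ((1 / 2 : ℝ) • ((w.1, z) : Q3) + (1 / 2 : ℝ) • x').1 =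
          ((1 / 2 : ℝ) : ℂ) * w.1 + ((1 / 2 : ℝ) : ℂ) * x'.1 := by
        simp
      rw [e, dotC_add_right, dotC_ofReal_right, dotC_ofReal_right, hws, h2]
      ring
    · have e : ((1 / 2 : ℝ) • ((w.1, z) : Q3) + (1 / 2 : ℝ) • x').2 =
          1 / 2 * z + 1 / 2 * x'.2 := by simp
      rw [e, h3]
      linarith
    · have e : ((1 / 2 : ℝ) • ((w.1, z) : Q3) + (1 / 2 : ℝ) • x').1.im =
          1 / 2 * w.1.im + 1 / 2 * x'.1.im := by simp
      rw [e]
      ring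
  obtain ⟨p, p1, p2, p3, p4⟩ := hmid _ hx (e41_side_v0 a) rfl
  obtain ⟨q, q1, q2, q3, q4⟩ := hmid _ (e41_tri_v1 hK hx) (e41_side_v1 a) rfl
  refine loc_upper hK.comp ⟨0, hK.zero⟩ hw p1 q1 (fun y hy => e41_tri_le0 hK hn hy) hws p2 q2 p3 q3
    ?_ ?_ hχ
  · rw [hdir _ p2, hdir _ hws, p4]
    simp only [Complex.ofReal_im]
    linarith
  · rw [hdir _ q2, hdir _ hws, q4]
    simp only [e41_v1_im]
    linarith

/-- the seven directions -/
noncomputable def e41_V7 (s : ℝ) : Fin 3 ⊕ (Bool × Bool) → Q3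
  | Sum.inl i => (eA (2 * π / 3 * ((i : ℕ) : ℝ)), 0)
  | Sum.inr (b, c) => ((s : ℂ) * eA (if b then 2 * π / 3 else 5 * π / 3), if c then 1 else -1)

/-- e7: two-dimensional face over the side: seven directions (uses e1, e3, e4, e5, e6). -/
theorem tri_two {K : Set Q3} (hK : RB 3 K) {h h' : ℝ} (hT : Top K h) (hB : Bot K h') {a z₀ : ℝ}
    (ha : 0 < a) (hx : ((a : ℂ), z₀) ∈ K) (hn : Nm K ((a : ℂ), z₀) (eA (π / 3), 0)) {w₀ : Q3}
    (hw₀ : w₀ ∈ K) (h₀ : dotC (eA (π / 3)) w₀.1 = a / 2) (hz₀ : w₀.2 ≠ z₀) :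
    Served K 7 := by
  have hint : (interior K).Nonempty := ⟨0, hK.zero⟩
  -- a good index at every point
  have claim : ∀ w ∈ K, ∃ i, e41_LSv K w (fun s => e41_V7 s i) := by
    intro w hw
    -- vertical directions
    have hvert : ∀ c : Bool, Sv K w ((0 : ℂ), if c then 1 else -1) →
        ∃ i, e41_LSv K w (fun s => e41_V7 s i) := by
      intro c hs
      refine ⟨Sum.inr (true, c), ?_⟩
      have e : (fun s : ℝ => e41_V7 s (Sum.inr (true, c))) =
          fun s : ℝ => (((s : ℂ) * eA (2 * π / 3), if c then 1 else -1) : Q3) := by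
        funext s
        simp [e41_V7]
      rw [e]
      apply loc_open hK.comp hint _ _ _
      · apply Continuous.continuousAt
        fun_prop
      · simpa using hs
    by_cases h1 : Sv K w ((0 : ℂ), 1)
    · exact hvert true (by simpa using h1)
    by_cases h2 : Sv K w ((0 : ℂ), -1)
    · exact hvert false (by simpa using h2)
    have hMx := mixed_of hK hw h1 h2
    -- horizontal directions
    have hhor : (∃ k : ℤ, Sv K w (eA (2 * π / 3 * k), 0)) →
        ∃ i, e41_LSv K w (fun s => e41_V7 s i) := by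
      rintro ⟨k, hk⟩
      obtain ⟨i, hi⟩ := e41_hor3 k
      rw [hi] at hk
      refine ⟨Sum.inl i, ?_⟩
      apply loc_open hK.comp hint _ _ _
      · exact continuousAt_const
      · exact hk
    obtain ⟨j, hj3, hj⟩ := e41_side_rot hK ha hx hn hMx
    have hw' := e41_Mx_rot hK hMx j
    by_cases h3 : (Rz (-(2 * π / 3 * (j : ℝ))) w).1 = (a : ℂ)
    · obtain ⟨k, hk⟩ := e41_vertex_sv hK hT hB ha hw' (Or.inl h3)
      exact hhor ⟨_, e41_Sv_back hK hk⟩
    by_cases h4 : (Rz (-(2 * π / 3 * (j : ℝ))) w).1 = (a : ℂ) * eA (2 * π / 3)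
    · obtain ⟨k, hk⟩ := e41_vertex_sv hK hT hB ha hw' (Or.inr h4)
      exact hhor ⟨_, e41_Sv_back hK hk⟩
    obtain ⟨i1, i2⟩ := e41_side_open hK hn hw'.1 hj h3 h4
    obtain ⟨z, hzne, hzK⟩ := tri_side hK ha hx hn hw₀ h₀ hz₀ hw'.1 hj h3 h4
    -- the direction
    have hch : ∃ (b : Bool) (χ : ℝ), 0 < Real.cos (χ - π / 3) ∧
        eA (χ + 2 * π / 3 * j) = eA (if b then 2 * π / 3 else 5 * π / 3) := by
      rcases hj3 with hj3 | hj3 | hj3
      · refine ⟨true, 2 * π / 3, ?_, ?_⟩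
        · have e : 2 * π / 3 - π / 3 = π / 3 := by ring
          rw [e, Real.cos_pi_div_three]; norm_num
        · rw [hj3]; simp
      · refine ⟨true, 0, ?_, ?_⟩
        · rw [zero_sub, Real.cos_neg, Real.cos_pi_div_three]; norm_num
        · rw [hj3]; simp
      · refine ⟨false, π / 3, ?_, ?_⟩
        · rw [sub_self, Real.cos_zero]; norm_num
        · rw [hj3]
          simp only [Bool.false_eq_true, if_false]
          congr 1
          push_cast
          ring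
    obtain ⟨b, χ, hχ, hb⟩ := hch
    by_cases hab : ∃ z', (Rz (-(2 * π / 3 * (j : ℝ))) w).2 < z' ∧
        ((Rz (-(2 * π / 3 * (j : ℝ))) w).1, z') ∈ K
    · by_cases hbe : ∃ z', z' < (Rz (-(2 * π / 3 * (j : ℝ))) w).2 ∧
          ((Rz (-(2 * π / 3 * (j : ℝ))) w).1, z') ∈ K
      · -- points above and below
        obtain ⟨z1, hz1, hz1K⟩ := hab
        obtain ⟨z2, hz2, hz2K⟩ := hbe
        apply hhor
        suffices hsv : Sv K (Rz (-(2 * π / 3 * (j : ℝ))) w) (eA (2 * π / 3 * (0 : ℤ)), 0) from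
          ⟨_, e41_Sv_back hK hsv⟩
        intro n hN
        have hn2 : n.2 = 0 := by
          have k1 := hN.2 _ hz1K
          have k2 := hN.2 _ hz2K
          simp only [pr] at k1 k2
          apply le_antisymm
          · by_contra hc
            rw [not_le] at hc
            nlinarith
          · by_contra hc
            rw [not_le] at hc
            nlinarith
        exact e41_side_normal hK ha hx hj i1 i2 hN (by rw [hn2]; ring)
          ((mixed_polar hK hT hB hw').2 n hN)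
      · -- nothing below
        push Not at hbe
        have hzgt : (Rz (-(2 * π / 3 * (j : ℝ))) w).2 < z := by
          rcases lt_or_gt_of_ne hzne with h5 | h5
          · exact absurd hzK (hbe z h5)
          · exact h5
        refine ⟨Sum.inr (b, false), ?_⟩
        have hfl : ∀ (q : ℂ) (u : ℝ), (q, u) ∈ fl K ↔ (q, -u) ∈ K := fun _ _ => Iff.rfl
        have hx' : ((a : ℂ), -z₀) ∈ fl K := by
          rw [hfl, neg_neg]; exact hx
        have hn' : Nm (fl K) ((a : ℂ), -z₀) (eA (π / 3), 0) := by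
          rw [Nm_fl]
          simpa using hn
        have L := e41_tri_up (RB_fl hK) hx' hn'
          (w := ((Rz (-(2 * π / 3 * (j : ℝ))) w).1, -(Rz (-(2 * π / 3 * (j : ℝ))) w).2)) (by
            rw [hfl, neg_neg]; exact hw'.1) hj i1 i2 (z := -z) (by simpa using hzgt) (by
            rw [hfl, neg_neg]; exact hzK) (by
            intro z' hz'
            rw [hfl] at hz'
            by_contra hc
            rw [not_le] at hc
            simp only at hc
            exact hbe (-z') (by linarith) hz') hχ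
        have L2 := e41_LSv_rot hK (e41_LSv_fl L)
        rw [hb] at L2
        have e : (fun s : ℝ => e41_V7 s (Sum.inr (b, false))) = fun s : ℝ =>
            (((s : ℂ) * eA (if b then 2 * π / 3 else 5 * π / 3), -1) : Q3) := by
          funext s
          simp [e41_V7]
        rw [e]
        exact L2
    · -- nothing above
      push Not at hab
      have hzlt : z < (Rz (-(2 * π / 3 * (j : ℝ))) w).2 := by
        rcases lt_or_gt_of_ne hzne with h5 | h5
        · exact h5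
        · exact absurd hzK (hab z h5)
      refine ⟨Sum.inr (b, true), ?_⟩
      have L := e41_tri_up hK hx hn hw'.1 hj i1 i2 hzlt hzK (by
        intro z' hz'
        by_contra hc
        rw [not_le] at hc
        exact hab z' hc hz') hχ
      have L2 := e41_LSv_rot hK L
      rw [hb] at L2
      have e : (fun s : ℝ => e41_V7 s (Sum.inr (b, true))) = fun s : ℝ =>
          (((s : ℂ) * eA (if b then 2 * π / 3 else 5 * π / 3), 1) : Q3) := by
        funext s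
        simp [e41_V7]
      rw [e]
      exact L2
  obtain ⟨ε, _, hε⟩ := exists_small hK.comp (fun y s => ∃ i, Sv K y (e41_V7 s i)) (by
    intro x hx
    obtain ⟨i, ε, hε, H⟩ := claim x hx
    exact ⟨ε, hε, fun y hy hd s h1 h2 => ⟨i, H s h1 h2 y hy hd⟩⟩)
  exact served_of_fintype (by simp) (e41_V7 ε) hε

/-! ### e8 -/

lemma e41_ro_mem_e {K : Set Q3} {t : ℝ} {x : Q3} : x ∈ ro t K ↔ Rz (-t) x ∈ K := Iff.rfl

lemma e41_Rz_cont (t : ℝ) : Continuous (Rz t) := by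
  unfold Rz
  fun_prop

lemma e41_ro_RB_e {p : ℕ} {K : Set Q3} (hK : RB p K) (t : ℝ) : RB p (ro t K) := by
  refine ⟨hK.p3, ?_, ?_, ?_, ?_⟩
  · have himg : ro t K = Rz t '' K := by
      ext x
      constructor
      · intro hx
        exact ⟨Rz (-t) x, hx, Rz_cancel _ _⟩
      · rintro ⟨y, hy, rfl⟩
        rw [e41_ro_mem_e, Rz_cancel']
        exact hy
    rw [himg]
    exact hK.comp.image (e41_Rz_cont t)
  · intro x hx y hy a b ha hb hab
    have h := hK.conv hx hy ha hb hab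
    rw [e41_ro_mem_e]
    have e : Rz (-t) (a • x + b • y) = a • Rz (-t) x + b • Rz (-t) y := by
      unfold Rz
      refine Prod.ext ?_ ?_
      · simp
        ring
      · simp
    rw [e]
    exact h
  · have h1 : Rz (-t) ⁻¹' K ∈ 𝓝 (0 : Q3) := by
      apply (e41_Rz_cont (-t)).continuousAt.preimage_mem_nhds
      have : Rz (-t) (0 : Q3) = 0 := by unfold Rz; simp
      rw [this]
      exact mem_interior_iff_mem_nhds.1 hK.zero
    exact mem_interior_iff_mem_nhds.2 h1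
  · intro x hx
    have h1 := hK.rot _ hx
    show (eA (-t) * (eA (2 * π / p) * x.1), x.2) ∈ K
    have e : eA (-t) * (eA (2 * π / p) * x.1) = eA (2 * π / p) * (eA (-t) * x.1) := by ring
    rw [e]
    exact h1

lemma e41_ro_Nm_e {K : Set Q3} {t : ℝ} {x n : Q3} :
    Nm (ro t K) x n ↔ Nm K (Rz (-t) x) (Rz (-t) n) := by
  constructor
  · rintro ⟨h1, h2⟩
    refine ⟨Rz_ne h1, fun y hy => ?_⟩
    have h3 := h2 (Rz t y) (by rw [e41_ro_mem_e, Rz_cancel']; exact hy)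
    rw [pr_Rz]
    rw [← pr_Rz (-t) n (Rz t y), Rz_cancel'] at h3
    exact h3
  · rintro ⟨h1, h2⟩
    refine ⟨fun h0 => h1 ?_, fun y hy => ?_⟩
    · rw [h0]; unfold Rz; simp
    · have h3 : pr (Rz (-t) n) (Rz (-t) y) ≤ pr (Rz (-t) n) (Rz (-t) x) := h2 _ hy
      rw [pr_Rz, pr_Rz] at h3
      exact h3

lemma e41_ro_served_e {K : Set Q3} {N : ℕ} {t : ℝ} (h : Served (ro t K) N) : Served K N := by
  obtain ⟨v, hv⟩ := h
  refine ⟨fun i => Rz (-t) (v i), fun x hx => ?_⟩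
  obtain ⟨i, hi⟩ := hv (Rz t x) (by rw [e41_ro_mem_e, Rz_cancel']; exact hx)
  refine ⟨i, fun n hn => ?_⟩
  have h1 := hi (Rz t n) (by
    rw [e41_ro_Nm_e, Rz_cancel', Rz_cancel']
    exact hn)
  rw [← pr_Rz (-t), Rz_cancel'] at h1
  exact h1

lemma e41_ro_top_e {K : Set Q3} {t h : ℝ} (ht : Top K h) : Top (ro t K) h := by
  refine ⟨ht.pos, ?_, fun x hx => ht.le (Rz (-t) x) hx, fun x hx h1 => ?_⟩
  · show ((eA (-t) * 0, h) : Q3) ∈ K
    rw [mul_zero]
    exact ht.mem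
  · have h2 : (Rz (-t) x).1 = 0 := ht.eq _ hx h1
    exact (mul_eq_zero.1 h2).resolve_left (eA_ne_zero _)

lemma e41_ro_bot_e {K : Set Q3} {t h : ℝ} (ht : Bot K h) : Bot (ro t K) h := by
  refine ⟨ht.pos, ?_, fun x hx => ht.le (Rz (-t) x) hx, fun x hx h1 => ?_⟩
  · show ((eA (-t) * 0, -h) : Q3) ∈ K
    rw [mul_zero]
    exact ht.mem
  · have h2 : (Rz (-t) x).1 = 0 := ht.eq _ hx h1
    exact (mul_eq_zero.1 h2).resolve_left (eA_ne_zero _)

/-- e8 (e2, e7, ro): the triangle case at any angle. -/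
theorem tri_case {K : Set Q3} (hK : RB 3 K) {h h' : ℝ} (hT : Top K h) (hB : Bot K h')
    {a t z₀ : ℝ} (ha : 0 < a) (hx : ((a : ℂ) * eA t, z₀) ∈ K)
    (hn : Nm K ((a : ℂ) * eA t, z₀) (eA (t + π / 3), 0)) : Served K 7 := by
  have e1 : Rz (-(-t)) ((a : ℂ), z₀) = ((a : ℂ) * eA t, z₀) := by
    unfold Rz
    simp only [neg_neg]
    rw [mul_comm]
  have e2 : Rz (-(-t)) (eA (π / 3), 0) = (eA (t + π / 3), 0) := by
    rw [Rz_n]
    congr 2
    ring
  have hK' := e41_ro_RB_e hK (-t)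
  have hx' : ((a : ℂ), z₀) ∈ ro (-t) K := by
    rw [e41_ro_mem_e, e1]
    exact hx
  have hn' : Nm (ro (-t) K) ((a : ℂ), z₀) (eA (π / 3), 0) := by
    rw [e41_ro_Nm_e, e1, e2]
    exact hn
  apply e41_ro_served_e (t := -t)
  by_cases hF : ∀ w ∈ ro (-t) K, dotC (eA (π / 3)) w.1 = a / 2 → w.2 = z₀
  · exact tri_one hK' (e41_ro_top_e hT) (e41_ro_bot_e hB) ha hx' hn' hF
  · push Not at hF
    obtain ⟨w, hw, h1, h2⟩ := hF
    exact tri_two hK' (e41_ro_top_e hT) (e41_ro_bot_e hB) ha hx' hn' hw h1 h2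

end Pool.Agent.Lib.MP_5e7226_co.RT
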