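import Pool.Agent.Lib.MP_5e7226_co.RT.TmpDefs

/-!
# MP_5e7226, E^3 rotations, case (III): definitions
-/

set_option autoImplicit false

open Set Filter Topology

namespace Pool.Agent.Lib.MP_5e7226_co.RT

/-- The slice at height `z`. -/
def Sl (K : Set Q3) (z : ℝ) : Set ℂ := {q | ((q, z) : Q3) ∈ K}

/-- `m ≠ 0` is a planar normal of `T` at the point `q` of `T`. -/
def NP (T : Set ℂ) (q m : ℂ) : Prop := q ∈ T ∧ m ≠ 0 ∧ ∀ y ∈ T, dotC m y ≤ dotC m q

/-- The angles `f`, `f + 120`, `f + 240`. -/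
noncomputable def tw (f : ℝ) (j : Fin 3) : ℝ := f + 2 * Real.pi * (j : ℕ) / 3

/-- A planar convex body with a three-fold symmetry. -/
structure P3 (T : Set ℂ) : Prop where
  comp : IsCompact T
  conv : Convex ℝ T
  zero : (0 : ℂ) ∈ interior T
  rot : ∀ q ∈ T, eA (2 * Real.pi / 3) * q ∈ T

/-- Every point of `T` is served in the plane by one of `e_f, e_(f+120), e_(f+240)`. -/
def GoodP (T : Set ℂ) (f : ℝ) : Prop :=
  ∀ q ∈ T, ∃ j : Fin 3, ∀ m, NP T q m → 0 < dotC m (eA (tw f j))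

/-- `T` has a corner with the normals `e_u` and `e_(u+w)`. -/
def Cor (T : Set ℂ) (u w : ℝ) : Prop := ∃ q, NP T q (eA u) ∧ NP T q (eA (u + w))

/-- The three corners of the triangle. -/
noncomputable def vt (v : ℂ) (j : Fin 3) : ℂ := eA (2 * Real.pi * (j : ℕ) / 3) * v

/-- `K` has the two faces `T × {h}`, `T × {-h'}`, `T` the triangle with the corners `v_j`,
and the projection of `K` is supported at `v`. -/
structure Prism (K : Set Q3) (h h' : ℝ) (v : ℂ) : Prop where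
  rb : RB 3 K
  top : FlatTop K h
  bot : FlatTop (fl K) h'
  v0 : v ≠ 0
  tri : ∀ q, ((q, h) : Q3) ∈ K ↔ ∀ j, -(‖v‖ ^ 2 / 2) ≤ dotC (vt v j) q
  tri' : ∀ q, ((q, -h') : Q3) ∈ K ↔ ∀ j, -(‖v‖ ^ 2 / 2) ≤ dotC (vt v j) q
  sup : ∃ m : ℂ, m ≠ 0 ∧ ∀ y ∈ K, dotC m y.1 ≤ dotC m v

/-- the far corner. -/
noncomputable def far : ℂ := 2 * eA (Real.pi / 3)

end Pool.Agent.Lib.MP_5e7226_co.RT
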