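import Pool.Agent.Lib.MP_5e7226_co.RT.IIIA

/-!
# MP_5e7226, E^3 rotations, order at least four, both polar faces flat: angles, planar facts and the
two limits (helper55)
-/

set_option autoImplicit false

open Set Filter Topology

namespace Pool.Agent.Lib.MP_5e7226_co.RT.IV

/-! ### angles -/

lemma arg_polar (m : ℂ) (t : ℝ) : ∃ s : ℝ, -Real.pi < s ∧ s ≤ Real.pi ∧
    m = (‖m‖ : ℂ) * eA (t + s) := by
  refine ⟨Complex.arg (m / eA t), Complex.neg_pi_lt_arg _, Complex.arg_le_pi _, ?_⟩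
  have h := Complex.norm_mul_exp_arg_mul_I (m / eA t)
  have h1 : ‖m / eA t‖ = ‖m‖ := by rw [norm_div, norm_eA, div_one]
  rw [h1] at h
  rw [eA_add, eA_eq_exp (Complex.arg (m / eA t))]
  calc m = eA t * (m / eA t) := by rw [mul_div_cancel₀ _ (eA_ne_zero t)]
    _ = eA t * (‖m‖ * Complex.exp (Complex.arg (m / eA t) * Complex.I)) := by rw [h]
    _ = _ := by ring

lemma dot_polar (r s t : ℝ) : dotC ((r : ℂ) * eA s) (eA t) = r * Real.cos (s - t) := by
  rw [dotC_ofReal_left, dotC_eA]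

lemma polar_near {m : ℂ} {t : ℝ} (hm : m ≠ 0)
    (h : Real.cos (Real.pi / 4) * ‖m‖ ≤ dotC m (eA t)) :
    ∃ s : ℝ, |s| ≤ Real.pi / 4 ∧ m = (‖m‖ : ℂ) * eA (t + s) := by
  obtain ⟨s, h1, h2, h3⟩ := arg_polar m t
  refine ⟨s, ?_, h3⟩
  have hpos : 0 < ‖m‖ := norm_pos_iff.2 hm
  have h4 : dotC m (eA t) = ‖m‖ * Real.cos s := by
    conv_lhs => rw [h3]
    rw [dot_polar]
    congr 2
    ring
  rw [h4, mul_comm] at h
  have h5 : Real.cos (Real.pi / 4) ≤ Real.cos s := le_of_mul_le_mul_left h hpos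
  by_contra hcon
  push Not at hcon
  have h6 : Real.cos |s| < Real.cos (Real.pi / 4) := by
    apply Real.cos_lt_cos_of_nonneg_of_le_pi
    · positivity
    · rw [abs_le]; constructor <;> linarith
    · exact hcon
  rw [Real.cos_abs] at h6
  linarith

/-- the four lower directions: gaps `90 - 2δ` (three times) and `90 + 6δ`, the long one about `c` -/
noncomputable def ph (c δ : ℝ) : Fin 4 → ℝ :=
  ![c + Real.pi / 4 + 3 * δ, c + 3 * Real.pi / 4 + δ, c - 3 * Real.pi / 4 - δ,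
    c - Real.pi / 4 - 3 * δ]

lemma far_of {x m : ℂ} {t φ : ℝ} (hm : m ≠ 0)
    (h : Real.cos (Real.pi / 4) * ‖m‖ ≤ dotC m (eA t)) (hle : dotC m (eA φ) ≤ 0) :
    ¬ |t - φ| < Real.pi / 4 := by
  intro hlt
  obtain ⟨s, hs, hms⟩ := polar_near hm h
  have hpos : 0 < ‖m‖ := norm_pos_iff.2 hm
  rw [hms, dot_polar] at hle
  have h1 : 0 < Real.cos (t + s - φ) := by
    apply Real.cos_pos_of_mem_Ioo
    rw [abs_lt] at hlt
    rw [abs_le] at hs
    constructor <;> linarith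
  have := mul_pos hpos h1
  linarith

/-- **Planar lemma.** -/
lemma plan {c δ : ℝ} (hδ0 : 0 < δ) (hδ : δ < Real.pi / 36) {x : ℂ} (hx : x ≠ 0)
    (m : Fin 4 → ℂ) (hm0 : ∀ j, m j ≠ 0)
    (hm : ∀ j, Real.cos (Real.pi / 4) * ‖m j‖ * ‖x‖ ≤ dotC (m j) x)
    (hle : ∀ j, dotC (m j) (eA (ph c δ j)) ≤ 0) :
    ∃ t : ℝ, x = (‖x‖ : ℂ) * eA t ∧ |t - c| ≤ 3 * δ ∧
      (∃ s : ℝ, |s - (c - Real.pi / 4)| ≤ 3 * δ ∧ m 0 = (‖m 0‖ : ℂ) * eA s) ∧
      ∃ s : ℝ, |s - (c + Real.pi / 4)| ≤ 3 * δ ∧ m 3 = (‖m 3‖ : ℂ) * eA s := by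
  obtain ⟨t', h1, h2, h3⟩ := arg_polar x c
  have hxpos : 0 < ‖x‖ := norm_pos_iff.2 hx
  have hpi := Real.pi_pos
  set t := c + t' with ht
  have hm' : ∀ j, Real.cos (Real.pi / 4) * ‖m j‖ ≤ dotC (m j) (eA t) := by
    intro j
    have h4 := hm j
    rw [h3, dotC_ofReal_right] at h4
    rw [← h3, mul_comm] at h4
    exact le_of_mul_le_mul_left h4 hxpos
  have hfar : ∀ j, ¬ |t - ph c δ j| < Real.pi / 4 := fun j => far_of (x := x) (hm0 j) (hm' j) (hle j)
  have f0 : ¬ |t - (c + Real.pi / 4 + 3 * δ)| < Real.pi / 4 := hfar 0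
  have f1 : ¬ |t - (c + 3 * Real.pi / 4 + δ)| < Real.pi / 4 := hfar 1
  have f2 : ¬ |t - (c - 3 * Real.pi / 4 - δ)| < Real.pi / 4 := hfar 2
  have f3 : ¬ |t - (c - Real.pi / 4 - 3 * δ)| < Real.pi / 4 := hfar 3
  have htc : |t - c| ≤ 3 * δ := by
    by_contra hcon
    push Not at hcon
    rcases lt_abs.1 hcon with h4 | h4
    · rcases lt_or_ge t (c + Real.pi / 2 + 3 * δ) with h5 | h5
      · apply f0
        rw [abs_lt]; constructor <;> linarith
      · apply f1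
        rw [abs_lt]; constructor <;> linarith
    · rcases lt_or_ge (c - Real.pi / 2 - 3 * δ) t with h5 | h5
      · apply f3
        rw [abs_lt]; constructor <;> linarith
      · apply f2
        rw [abs_lt]; constructor <;> linarith
  rw [abs_le] at htc
  refine ⟨t, h3, abs_le.2 htc, ?_, ?_⟩
  · obtain ⟨s, hs, hms⟩ := polar_near (hm0 0) (hm' 0)
    refine ⟨t + s, ?_, hms⟩
    rw [abs_le] at hs
    have h4 := hle 0
    rw [hms, dot_polar] at h4
    have hpos : 0 < ‖m 0‖ := norm_pos_iff.2 (hm0 0)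
    have h5 : ph c δ 0 = c + Real.pi / 4 + 3 * δ := rfl
    rw [h5] at h4
    have h6 : t + s ≤ c - Real.pi / 4 + 3 * δ := by
      by_contra hcon
      push Not at hcon
      have h7 : 0 < Real.cos (t + s - (c + Real.pi / 4 + 3 * δ)) := by
        apply Real.cos_pos_of_mem_Ioo
        constructor <;> linarith
      have := mul_pos hpos h7
      linarith
    rw [abs_le]; constructor <;> linarith
  · obtain ⟨s, hs, hms⟩ := polar_near (hm0 3) (hm' 3)
    refine ⟨t + s, ?_, hms⟩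
    rw [abs_le] at hs
    have h4 := hle 3
    rw [hms, dot_polar] at h4
    have hpos : 0 < ‖m 3‖ := norm_pos_iff.2 (hm0 3)
    have h5 : ph c δ 3 = c - Real.pi / 4 - 3 * δ := rfl
    rw [h5] at h4
    have h6 : c + Real.pi / 4 - 3 * δ ≤ t + s := by
      by_contra hcon
      push Not at hcon
      have h7 : 0 < Real.cos (t + s - (c - Real.pi / 4 - 3 * δ)) := by
        apply Real.cos_pos_of_mem_Ioo
        constructor <;> linarith
      have := mul_pos hpos h7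
      linarith
    rw [abs_le]; constructor <;> linarith

/-! ### rotations -/

lemma cos_le {p : ℕ} (hp : 4 ≤ p) : Real.cos (Real.pi / 4) ≤ Real.cos (Real.pi / p) := by
  have hp' : (4 : ℝ) ≤ p := by exact_mod_cast hp
  have hpi := Real.pi_pos
  apply Real.cos_le_cos_of_nonneg_of_le_pi
  · positivity
  · linarith
  · exact div_le_div_of_nonneg_left hpi.le (by norm_num) hp'

lemma prim {p : ℕ} (hp : 4 ≤ p) : IsPrimitiveRoot (eA (2 * Real.pi / p)) p := by
  have h := Complex.isPrimitiveRoot_exp p (by omega)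
  have h1 : eA (2 * Real.pi / p) = Complex.exp (2 * Real.pi * Complex.I / p) := by
    rw [eA_eq_exp]
    congr 1
    push_cast
    ring
  rw [h1]
  exact h

lemma angle_of {p : ℕ} (hp : 4 ≤ p) {m x : ℂ}
    (h : ∀ k : ℕ, dotC m (eA (2 * Real.pi / p) ^ k * x) ≤ dotC m x) :
    Real.cos (Real.pi / 4) * ‖m‖ * ‖x‖ ≤ dotC m x := by
  obtain ⟨k, hk⟩ := exists_rot_gen (by omega) (prim hp) m x
  refine le_trans ?_ (hk.trans (h k))
  have := cos_le hp
  gcongr

lemma nm_angle {p : ℕ} (hp : 4 ≤ p) {K : Set Q3} (hK : RB p K) {x n : Q3} (hx : x ∈ K)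
    (hn : Nm K x n) : Real.cos (Real.pi / 4) * ‖n.1‖ * ‖x.1‖ ≤ dotC n.1 x.1 := by
  apply angle_of hp
  intro k
  have h1 : ((eA (2 * Real.pi / p) ^ k * x.1, x.2) : Q3) ∈ K := by
    induction k with
    | zero => simpa using hx
    | succ k ih =>
      have := hK.rot _ ih
      rw [pow_succ, mul_comm (eA (2 * Real.pi / p) ^ k), mul_assoc]
      exact this
  have h2 := hn.2 _ h1
  simp only [pr] at h2
  linarith

/-- A planar convex body with a symmetry of order at least four. -/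
structure PB (p : ℕ) (T : Set ℂ) : Prop where
  p4 : 4 ≤ p
  comp : IsCompact T
  conv : Convex ℝ T
  ball : ∃ ε > 0, ∀ q : ℂ, ‖q‖ < ε → q ∈ T
  rot : ∀ q ∈ T, eA (2 * Real.pi / p) * q ∈ T

lemma PB.pow {p : ℕ} {T : Set ℂ} (hT : PB p T) {q : ℂ} (hq : q ∈ T) (k : ℕ) :
    eA (2 * Real.pi / p) ^ k * q ∈ T := by
  induction k with
  | zero => simpa using hq
  | succ k ih =>
    have := hT.rot _ ih
    rw [pow_succ, mul_comm (eA (2 * Real.pi / p) ^ k), mul_assoc]
    exact this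

lemma np_angle {p : ℕ} {T : Set ℂ} (hT : PB p T) {q m : ℂ} (h : NP T q m) :
    Real.cos (Real.pi / 4) * ‖m‖ * ‖q‖ ≤ dotC m q :=
  angle_of hT.p4 fun k => h.2.2 _ (hT.pow h.1 k)

lemma np_pos {p : ℕ} {T : Set ℂ} (hT : PB p T) {q m : ℂ} (h : NP T q m) : 0 < dotC m q := by
  obtain ⟨ε, hε, hb⟩ := hT.ball
  have hpos : 0 < ‖m‖ := norm_pos_iff.2 h.2.1
  have h1 : ((ε / 2 / ‖m‖ : ℝ) : ℂ) * m ∈ T := by
    apply hb
    rw [norm_mul, Complex.norm_real, Real.norm_of_nonneg (by positivity), div_mul_cancel₀ _ hpos.ne']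
    linarith
  have h2 := h.2.2 _ h1
  rw [dotC_ofReal_right, dotC_self] at h2
  refine lt_of_lt_of_le ?_ h2
  positivity

lemma np_ne {p : ℕ} {T : Set ℂ} (hT : PB p T) {q m : ℂ} (h : NP T q m) : q ≠ 0 := by
  rintro rfl
  have := np_pos hT h
  rw [dotC_zero_right] at this
  exact lt_irrefl _ this

lemma pb_top {p : ℕ} (hp : 4 ≤ p) {K : Set Q3} (hK : RB p K) {h : ℝ} (ht : FlatTop K h) :
    PB p (Sl K h) := by
  refine ⟨hp, ?_, ?_, ht.2, fun q hq => hK.rot _ hq⟩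
  · have himg : Sl K h = Prod.fst '' (K ∩ {x : Q3 | x.2 = h}) := by
      ext q
      constructor
      · intro hq
        exact ⟨(q, h), ⟨hq, rfl⟩, rfl⟩
      · rintro ⟨x, ⟨hx, hx2⟩, rfl⟩
        show ((x.1, h) : Q3) ∈ K
        have : x = (x.1, h) := Prod.ext rfl hx2
        rw [← this]
        exact hx
    rw [himg]
    exact (hK.comp.inter_right (isClosed_eq continuous_snd continuous_const)).image continuous_fst
  · intro q hq q' hq' a b ha hb hab
    have h1 := hK.conv hq hq' ha hb hab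
    show ((a • q + b • q', h) : Q3) ∈ K
    have h2 : a • ((q, h) : Q3) + b • ((q', h) : Q3) = (a • q + b • q', h) := by
      ext1
      · rfl
      · show a * h + b * h = h
        rw [← add_mul, hab, one_mul]
    rw [← h2]
    exact h1

/-! ### points between the faces -/

lemma bot_mem {K : Set Q3} {h' : ℝ} (hb : FlatTop (fl K) h') {q : ℂ} :
    ((q, h') : Q3) ∈ fl K ↔ ((q, -h') : Q3) ∈ K := Iff.rfl

lemma side_ne {K : Set Q3} (hconv : Convex ℝ K) {h h' : ℝ} (ht : FlatTop K h)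
    (hb : FlatTop (fl K) h') {y : Q3} (h1 : -h' < y.2) (h2 : y.2 < h)
    {n : Q3} (hn : Nm K y n) : n.1 ≠ 0 ∧ y.1 ≠ 0 := by
  obtain ⟨ε, hε, hd⟩ := ht.2
  obtain ⟨ε', hε', hd'⟩ := hb.2
  have hne : n.1 ≠ 0 := by
    intro h3
    have h4 : n.2 ≠ 0 := fun h4 => hn.1 (Prod.ext h3 h4)
    have h5 := hn.2 _ (hd 0 (by simpa using hε))
    have h6 := hn.2 _ (bot_mem hb |>.1 (hd' 0 (by simpa using hε')))
    simp only [pr, h3, dotC_zero_left, zero_add] at h5 h6
    rcases lt_or_gt_of_ne h4 with h7 | h7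
    · nlinarith
    · nlinarith
  refine ⟨hne, fun h3 => hne ?_⟩
  have hpos : 0 < ‖n.1‖ := norm_pos_iff.2 hne
  set ρ := min ε ε' / 2 with hρ
  have hρ0 : 0 < ρ := by positivity
  set q : ℂ := ((ρ / ‖n.1‖ : ℝ) : ℂ) * n.1 with hq
  have hqn : ‖q‖ = ρ := by
    rw [hq, norm_mul, Complex.norm_real, Real.norm_of_nonneg (by positivity),
      div_mul_cancel₀ _ hpos.ne']
  have hq1 : ((q, h) : Q3) ∈ K := hd q (by
    rw [hqn, hρ]; have := min_le_left ε ε'; linarith)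
  have hq2 : ((q, -h') : Q3) ∈ K := bot_mem hb |>.1 (hd' q (by
    rw [hqn, hρ]; have := min_le_right ε ε'; linarith))
  have hlen : 0 < h + h' := by linarith
  have h4 := hconv hq1 hq2 (a := (y.2 + h') / (h + h')) (b := (h - y.2) / (h + h'))
    (div_nonneg (by linarith) hlen.le) (div_nonneg (by linarith) hlen.le) (by
      rw [← add_div]; rw [div_eq_one_iff_eq hlen.ne']; ring)
  have h5 : ((y.2 + h') / (h + h')) • ((q, h) : Q3) + ((h - y.2) / (h + h')) • ((q, -h') : Q3) =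
      (q, y.2) := by
    ext1
    · show ((y.2 + h') / (h + h')) • q + ((h - y.2) / (h + h')) • q = q
      rw [← add_smul, ← add_div]
      have : y.2 + h' + (h - y.2) = h + h' := by ring
      rw [this, div_self hlen.ne', one_smul]
    · show (y.2 + h') / (h + h') * h + (h - y.2) / (h + h') * (-h') = y.2
      field_simp
      ring
  rw [h5] at h4
  have h6 := hn.2 _ h4
  simp only [pr, h3, dotC_zero_right, zero_add] at h6
  have h7 : dotC n.1 q = ρ / ‖n.1‖ * ‖n.1‖ ^ 2 := by rw [hq, dotC_ofReal_right, dotC_self]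
  rw [h7] at h6
  have h8 : 0 < ρ / ‖n.1‖ * ‖n.1‖ ^ 2 := by positivity
  linarith

/-- Between the faces: one of the four horizontal directions, or a normal cone about `c`. -/
lemma side_served {p : ℕ} (hp : 4 ≤ p) {K : Set Q3} (hK : RB p K) {h h' : ℝ}
    (ht : FlatTop K h) (hb : FlatTop (fl K) h') {c δ ψ : ℝ} (hδ0 : 0 < δ)
    (hδ : δ < Real.pi / 36) (hψ : |ψ - c| ≤ Real.pi / 12) {y : Q3} (hy : y ∈ K)
    (h1 : -h' < y.2) (h2 : y.2 < h) :
    (∃ j, Sv K y (eA (ph c δ j), 0)) ∨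
      ∀ n, Nm K y n → Real.cos (5 * Real.pi / 12) * ‖n.1‖ ≤ dotC n.1 (eA ψ) := by
  by_cases hcase : ∃ j, Sv K y (eA (ph c δ j), 0)
  · exact Or.inl hcase
  right
  intro n hn
  push Not at hcase
  have h3 : ∀ j, ∃ n, Nm K y n ∧ dotC n.1 (eA (ph c δ j)) ≤ 0 := by
    intro j
    have := hcase j
    unfold Sv at this
    push Not at this
    obtain ⟨n, hn, hle⟩ := this
    refine ⟨n, hn, ?_⟩
    simpa [pr] using hle
  choose m hm hle using h3
  obtain ⟨hn1, hy1⟩ := side_ne hK.conv ht hb h1 h2 hn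
  obtain ⟨t, ht1, ht2, -, -⟩ := plan hδ0 hδ hy1 (fun j => (m j).1)
    (fun j => (side_ne hK.conv ht hb h1 h2 (hm j)).1)
    (fun j => nm_angle hp hK hy (hm j)) hle
  have h4 := nm_angle hp hK hy hn
  have hypos : 0 < ‖y.1‖ := norm_pos_iff.2 hy1
  rw [ht1, dotC_ofReal_right] at h4
  rw [← ht1, mul_comm] at h4
  have h5 := le_of_mul_le_mul_left h4 hypos
  obtain ⟨s, hs, hns⟩ := polar_near hn1 h5
  have hpi := Real.pi_pos
  rw [abs_le] at hs ht2 hψ
  conv_rhs => rw [hns]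
  rw [dot_polar, mul_comm]
  apply mul_le_mul_of_nonneg_left _ (norm_nonneg _)
  rw [← Real.cos_abs (t + s - ψ)]
  apply Real.cos_le_cos_of_nonneg_of_le_pi (abs_nonneg _) (by linarith)
  rw [abs_le]; constructor <;> linarith

end Pool.Agent.Lib.MP_5e7226_co.RT.IV
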