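import Pool.Agent.Lib.MP_5e7226_co.RT.IVA

/-!
# MP_5e7226, E^3 rotations, order at least four, both polar faces flat: the choice of the four lower
directions and the two limits (helper55)
-/

set_option autoImplicit false

open Set Filter Topology

namespace Pool.Agent.Lib.MP_5e7226_co.RT.IV

lemma cont_eA : Continuous eA := by
  have h : eA = fun t : ℝ => Complex.exp (t * Complex.I) := funext eA_eq_exp
  rw [h]
  fun_prop

lemma tendsto_dotC {f g : ℕ → ℂ} {a b : ℂ} (hf : Tendsto f atTop (𝓝 a))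
    (hg : Tendsto g atTop (𝓝 b)) : Tendsto (fun k => dotC (f k) (g k)) atTop (𝓝 (dotC a b)) :=
  (continuous_dotC.tendsto (a, b)).comp (hf.prodMk_nhds hg)

lemma np_smul {T : Set ℂ} {q m : ℂ} {r : ℝ} (hr : r ≠ 0) (h0 : 0 ≤ r)
    (h : NP T q ((r : ℂ) * m)) : NP T q m := by
  have hr0 : 0 < r := lt_of_le_of_ne h0 (Ne.symm hr)
  refine ⟨h.1, ?_, fun y hy => ?_⟩
  · rintro rfl
    exact h.2.1 (mul_zero _)
  · have := h.2.2 y hy
    rw [dotC_ofReal_left, dotC_ofReal_left] at this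
    exact le_of_mul_le_mul_left this hr0

lemma np_limit {T : Set ℂ} {q : ℕ → ℂ} {u : ℕ → ℝ} {q0 : ℂ} {u0 : ℝ} (hq0 : q0 ∈ T)
    (hq : Tendsto q atTop (𝓝 q0)) (hu : Tendsto u atTop (𝓝 u0))
    (h : ∀ k, NP T (q k) (eA (u k))) : NP T q0 (eA u0) := by
  refine ⟨hq0, eA_ne_zero _, fun y hy => ?_⟩
  have hu' : Tendsto (fun k => eA (u k)) atTop (𝓝 (eA u0)) := (cont_eA.tendsto u0).comp hu
  exact le_of_tendsto_of_tendsto' (tendsto_dotC hu' (tendsto_const_nhds (x := y)))
    (tendsto_dotC hu' hq) fun k => (h k).2.2 y hy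

/-- `T` has a corner with the normals `e_(c-45)`, `e_(c+45)`. -/
def CR (T : Set ℂ) (c : ℝ) : Prop :=
  ∃ q, NP T q (eA (c - Real.pi / 4)) ∧ NP T q (eA (c + Real.pi / 4))

lemma good_of {p : ℕ} {T : Set ℂ} (hT : PB p T) {c : ℝ} (hc : ¬ CR T c) :
    ∃ δ₀ > 0, ∀ δ, 0 < δ → δ < δ₀ → ∀ q ∈ T, ∃ j, ∀ m, NP T q m → 0 < dotC m (eA (ph c δ j)) := by
  by_contra hcon
  push Not at hcon
  have hpi := Real.pi_pos
  have hstep : ∀ k : ℕ, ∃ (δ : ℝ) (q : ℂ) (s s' : ℝ), 0 < δ ∧ δ < 1 / ((k : ℝ) + 1) ∧ q ∈ T ∧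
      |s - (c - Real.pi / 4)| ≤ 3 * δ ∧ |s' - (c + Real.pi / 4)| ≤ 3 * δ ∧
      NP T q (eA s) ∧ NP T q (eA s') := by
    intro k
    obtain ⟨δ, hδ0, hδ, q, hq, hj⟩ := hcon (min (1 / ((k : ℝ) + 1)) (Real.pi / 36))
      (lt_min (by positivity) (by positivity))
    choose m hm hle using hj
    obtain ⟨t, -, -, ⟨s, hs1, hs2⟩, s', hs1', hs2'⟩ := plan hδ0
      (hδ.trans_le (min_le_right _ _)) (np_ne hT (hm 0)) m (fun j => (hm j).2.1)
      (fun j => np_angle hT (hm j)) hle
    refine ⟨δ, q, s, s', hδ0, hδ.trans_le (min_le_left _ _), hq, hs1, hs1', ?_, ?_⟩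
    · have h1 := hm 0
      rw [hs2] at h1
      exact np_smul (norm_ne_zero_iff.2 (hm 0).2.1) (norm_nonneg _) h1
    · have h1 := hm 3
      rw [hs2'] at h1
      exact np_smul (norm_ne_zero_iff.2 (hm 3).2.1) (norm_nonneg _) h1
  choose δ q s s' hδ0 hδ hq hs hs' h1 h2 using hstep
  obtain ⟨q0, hq0, φ, hφ, hlim⟩ := hT.comp.tendsto_subseq hq
  have h0 : Tendsto (fun k : ℕ => 1 / ((k : ℝ) + 1)) atTop (𝓝 0) :=
    tendsto_one_div_add_atTop_nhds_zero_nat
  have hδl : Tendsto (fun k => 3 * δ (φ k)) atTop (𝓝 0) := by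
    have h3 : Tendsto (fun k => δ (φ k)) atTop (𝓝 0) :=
      squeeze_zero (fun k => (hδ0 _).le) (fun k => (hδ _).le) (h0.comp hφ.tendsto_atTop)
    simpa using h3.const_mul 3
  have hsl : Tendsto (fun k => s (φ k)) atTop (𝓝 (c - Real.pi / 4)) := by
    rw [tendsto_iff_dist_tendsto_zero]
    exact squeeze_zero (fun _ => dist_nonneg) (fun k => hs (φ k)) hδl
  have hsl' : Tendsto (fun k => s' (φ k)) atTop (𝓝 (c + Real.pi / 4)) := by
    rw [tendsto_iff_dist_tendsto_zero]
    exact squeeze_zero (fun _ => dist_nonneg) (fun k => hs' (φ k)) hδl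
  exact hc ⟨q0, np_limit hq0 hlim hsl fun k => h1 (φ k), np_limit hq0 hlim hsl' fun k => h2 (φ k)⟩

lemma eq_of_dot {u v : ℝ} (huv : Real.sin (v - u) ≠ 0) {a b : ℂ}
    (h1 : dotC (eA u) a = dotC (eA u) b) (h2 : dotC (eA v) a = dotC (eA v) b) : a = b := by
  simp only [dotC, eA_re, eA_im] at h1 h2
  rw [Real.sin_sub] at huv
  have e1 : (Real.sin v * Real.cos u - Real.cos v * Real.sin u) * (a.re - b.re) = 0 := by
    linear_combination (Real.sin v) * h1 - (Real.sin u) * h2
  have e2 : (Real.sin v * Real.cos u - Real.cos v * Real.sin u) * (a.im - b.im) = 0 := by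
    linear_combination (- Real.cos v) * h1 + (Real.cos u) * h2
  have e3 := (mul_eq_zero.1 e1).resolve_left huv
  have e4 := (mul_eq_zero.1 e2).resolve_left huv
  exact Complex.ext (by linarith) (by linarith)

/-- two corners with different axes do not occur. -/
lemma not_both {p : ℕ} {T : Set ℂ} (hT : PB p T) {ψ : ℝ} (h1 : CR T ψ)
    (h2 : CR T (ψ + Real.pi / 12)) : False := by
  obtain ⟨q, ha, hb⟩ := h1
  obtain ⟨q', ha', hb'⟩ := h2
  have hpi := Real.pi_pos
  have hc : 0 < Real.cos (Real.pi / 12) :=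
    Real.cos_pos_of_mem_Ioo ⟨by linarith, by linarith⟩
  have hs : 0 < Real.sin (Real.pi / 12) := Real.sin_pos_of_pos_of_lt_pi (by positivity) (by linarith)
  have hcomb : ∀ y : ℂ, dotC (eA (ψ + Real.pi / 12 - Real.pi / 4)) y =
      Real.cos (Real.pi / 12) * dotC (eA (ψ - Real.pi / 4)) y +
        Real.sin (Real.pi / 12) * dotC (eA (ψ + Real.pi / 4)) y := by
    intro y
    have e1 : ψ + Real.pi / 12 - Real.pi / 4 = (ψ - Real.pi / 4) + Real.pi / 12 := by ring
    have e2 : ψ + Real.pi / 4 = (ψ - Real.pi / 4) + Real.pi / 2 := by ring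
    simp only [dotC, eA_re, eA_im]
    rw [e1, e2, Real.cos_add (ψ - Real.pi / 4), Real.sin_add (ψ - Real.pi / 4),
      Real.cos_add_pi_div_two, Real.sin_add_pi_div_two]
    ring
  have g1 := ha.2.2 q' ha'.1
  have g2 := hb.2.2 q' ha'.1
  have g3 := ha'.2.2 q ha.1
  rw [hcomb, hcomb] at g3
  have e1 : dotC (eA (ψ - Real.pi / 4)) q = dotC (eA (ψ - Real.pi / 4)) q' := by nlinarith
  have e2 : dotC (eA (ψ + Real.pi / 4)) q = dotC (eA (ψ + Real.pi / 4)) q' := by nlinarith
  have hqq : q = q' := by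
    apply eq_of_dot _ e1 e2
    have : ψ + Real.pi / 4 - (ψ - Real.pi / 4) = Real.pi / 2 := by ring
    rw [this, Real.sin_pi_div_two]
    exact one_ne_zero
  rw [← hqq] at hb'
  have hq0 := np_ne hT ha
  have hqpos : 0 < ‖q‖ := norm_pos_iff.2 hq0
  obtain ⟨t, ht1, ht2, ht3⟩ := arg_polar q (ψ - Real.pi / 4)
  have k1 := np_angle hT ha
  have k2 := np_angle hT hb'
  rw [norm_eA, mul_one, mul_comm] at k1 k2
  have k3 : ∀ u, dotC (eA u) q = ‖q‖ * Real.cos (ψ - Real.pi / 4 + t - u) := by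
    intro u
    rw [dotC_comm]
    conv_lhs => rw [ht3]
    rw [dot_polar]
  rw [k3] at k1 k2
  have k4 := le_of_mul_le_mul_left k1 hqpos
  have k5 := le_of_mul_le_mul_left k2 hqpos
  have e3 : ψ - Real.pi / 4 + t - (ψ - Real.pi / 4) = t := by ring
  have e4 : ψ - Real.pi / 4 + t - (ψ + Real.pi / 12 + Real.pi / 4) = t - 7 * Real.pi / 12 := by
    ring
  rw [e3] at k4
  rw [e4] at k5
  have k6 : |t| ≤ Real.pi / 4 := by
    by_contra hcon
    push Not at hcon
    have h6 : Real.cos |t| < Real.cos (Real.pi / 4) :=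
      Real.cos_lt_cos_of_nonneg_of_le_pi (by positivity)
        (by rw [abs_le]; constructor <;> linarith) hcon
    rw [Real.cos_abs] at h6
    linarith
  rw [abs_le] at k6
  have h6 : Real.cos |t - 7 * Real.pi / 12| < Real.cos (Real.pi / 4) := by
    rw [abs_of_neg (by linarith)]
    apply Real.cos_lt_cos_of_nonneg_of_le_pi (by positivity)
    · linarith
    · linarith
  rw [Real.cos_abs] at h6
  linarith

/-- the choice of the four lower directions, given an upper one. -/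
lemma exists_c {p : ℕ} {T : Set ℂ} (hT : PB p T) (ψ : ℝ) :
    ∃ c δ : ℝ, |ψ - c| ≤ Real.pi / 12 ∧ 0 < δ ∧ δ < Real.pi / 36 ∧
      ∀ q ∈ T, ∃ j, ∀ m, NP T q m → 0 < dotC m (eA (ph c δ j)) := by
  have hpi := Real.pi_pos
  have key : ∃ c, |ψ - c| ≤ Real.pi / 12 ∧ ¬ CR T c := by
    by_cases h1 : CR T ψ
    · refine ⟨ψ + Real.pi / 12, ?_, fun h2 => not_both hT h1 h2⟩
      rw [abs_le]; constructor <;> linarith
    · exact ⟨ψ, by rw [sub_self, abs_zero]; positivity, h1⟩
  obtain ⟨c, hc1, hc2⟩ := key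
  obtain ⟨δ₀, h0, hδ⟩ := good_of hT hc2
  refine ⟨c, min δ₀ (Real.pi / 36) / 2, hc1, by positivity, ?_, ?_⟩
  · have := min_le_right δ₀ (Real.pi / 36)
    linarith
  · apply hδ
    · positivity
    · have := min_le_left δ₀ (Real.pi / 36)
      have h3 : 0 < min δ₀ (Real.pi / 36) := by positivity
      linarith

/-! ### near the top, the normals which point down are steep -/

lemma steep {K : Set Q3} (hK : IsCompact K) (h0 : (0 : Q3) ∈ K) {h : ℝ} (hh : 0 < h) :
    ∃ κ > 0, ∀ y ∈ K, h / 2 ≤ y.2 → ∀ n, Nm K y n → κ * (-n.2) ≤ ‖n.1‖ := by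
  obtain ⟨R, hR⟩ := hK.isBounded.exists_norm_le
  have hR0 : 0 ≤ R := (norm_nonneg _).trans (hR 0 h0)
  refine ⟨h / 2 / (R + 1), by positivity, fun y hy h1 n hn => ?_⟩
  rcases le_or_gt 0 n.2 with h2 | h2
  · have h3 : h / 2 / (R + 1) * (-n.2) ≤ 0 :=
      mul_nonpos_of_nonneg_of_nonpos (by positivity) (by linarith)
    exact h3.trans (norm_nonneg _)
  · have h3 := hn.2 0 h0
    have h4 : pr n 0 = 0 := by simp [pr, dotC]
    rw [h4] at h3
    simp only [pr] at h3
    have h5 : dotC n.1 y.1 ≤ ‖n.1‖ * (R + 1) := by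
      refine (dotC_le _ _).trans ?_
      apply mul_le_mul_of_nonneg_left _ (norm_nonneg _)
      have : ‖y.1‖ ≤ ‖y‖ := norm_fst_le y
      linarith [hR y hy]
    rw [div_mul_eq_mul_div, div_le_iff₀ (by positivity)]
    nlinarith

/-- the seven directions -/
noncomputable def D (ψ c δ : ℝ) (v : ℝ → Fin 2 → Q3) (τ₁ τ₂ : ℝ) : Option (Fin 2 ⊕ Fin 4) → Q3
  | none => (eA ψ, τ₁)
  | some (Sum.inl i) => v τ₁ i
  | some (Sum.inr j) => (eA (ph c δ j), -τ₂)

/-- **Three up, four down.** -/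
theorem four_three {p : ℕ} (hp : 4 ≤ p) {K : Set Q3} (hK : RB p K) {h h' : ℝ}
    (ht : FlatTop K h) (hb : FlatTop (fl K) h') (ψ : ℝ) (v : ℝ → Fin 2 → Q3)
    (hT : ∀ x ∈ K, x.2 = h → ∃ δ > 0, ∀ y ∈ K, dist y x < δ → y.2 = h → ∀ τ, 0 < τ → τ < δ →
      Sv K y (eA ψ, τ) ∨ ∃ i, Sv K y (v τ i)) : Served K 7 := by
  have hpi := Real.pi_pos
  have h0K : (0 : Q3) ∈ K := interior_subset hK.zero
  have hh : 0 < h := top_pos hK.zero ht
  have hKf := RB_fl hK
  have hh' : 0 < h' := top_pos hKf.zero hb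
  have hS : PB p (Sl (fl K) h') := pb_top hp hKf hb
  have hSl : Sl (fl K) h' = Sl K (-h') := rfl
  obtain ⟨c, δ, hψ, hδ0, hδ, hB⟩ := exists_c hS ψ
  obtain ⟨κ, hκ, hst⟩ := steep hK.comp h0K hh
  have hη : 0 < Real.cos (5 * Real.pi / 12) := Real.cos_pos_of_mem_Ioo ⟨by linarith, by linarith⟩
  have hge : ∀ x ∈ K, -h' ≤ x.2 := by
    intro x hx
    have h1 := hb.1 (x.1, -x.2) (by
      show ((x.1, - -x.2) : Q3) ∈ K
      rw [neg_neg]; exact hx)
    have h2 : ((x.1, -x.2) : Q3).2 = -x.2 := rfl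
    rw [h2] at h1
    linarith
  -- first limit
  have step1 : ∃ τ₁ > 0, ∀ y ∈ K, (∃ j, Sv K y (eA (ph c δ j), 0)) ∨
      (Sv K y (eA ψ, τ₁) ∨ ∃ i, Sv K y (v τ₁ i)) ∨ y.2 = -h' := by
    apply exists_small hK.comp (fun y τ₁ => (∃ j, Sv K y (eA (ph c δ j), 0)) ∨
      (Sv K y (eA ψ, τ₁) ∨ ∃ i, Sv K y (v τ₁ i)) ∨ y.2 = -h')
    intro x hx
    rcases (hge x hx).eq_or_lt with hbot | hbot
    · -- the bottom face
      have hxe : x = (x.1, -h') := Prod.ext rfl hbot.symm
      have hxf : ((x.1, h') : Q3) ∈ fl K := by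
        show ((x.1, -h') : Q3) ∈ K
        rw [← hxe]; exact hx
      obtain ⟨j, hj⟩ := hB x.1 hxf
      obtain ⟨δ₁, hδ₁, H1⟩ := plane_open (T := Sl (fl K) h') hxf hj
      have hlow : ∀ n, Nm (fl K) (x.1, h') n → n.2 ≤ 0 → 0 < dotC n.1 (eA (ph c δ j)) := by
        intro n hn hn2
        have hne : n.1 ≠ 0 := by
          intro h1
          have h2 := hn.2 0 (interior_subset hKf.zero)
          have h3 : n.2 ≠ 0 := fun h4 => hn.1 (Prod.ext h1 h4)
          have h5 : n.2 < 0 := lt_of_le_of_ne hn2 h3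
          simp only [pr, h1, dotC_zero_left, Prod.snd_zero, mul_zero, zero_add] at h2
          nlinarith
        apply hj
        refine ⟨hxf, hne, fun y hy => ?_⟩
        have h1 := hn.2 _ hy
        simp only [pr] at h1
        linarith
      obtain ⟨δ₂, hδ₂, H2⟩ := low_open hKf.comp hlow
      refine ⟨min (min δ₁ δ₂) h', by positivity, fun y hy hd ε _ _ => ?_⟩
      rcases (hge y hy).eq_or_lt with hyb | hyb
      · exact Or.inr (Or.inr hyb.symm)
      left
      refine ⟨j, fun n hn => ?_⟩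
      have hdy : dist y.2 x.2 < h' := by
        have h5 : dist y.2 x.2 ≤ dist y x := by
          rw [Prod.dist_eq (x := y)]
          exact le_max_right _ _
        exact lt_of_le_of_lt h5 (hd.trans_le (min_le_right _ _))
      have hyt : y.2 < h := by
        rw [← hbot, Real.dist_eq] at hdy
        have := (abs_lt.1 hdy).2
        linarith
      have hne := (side_ne hK.conv ht hb hyb hyt hn).1
      have hnf : Nm (fl K) (y.1, -y.2) (n.1, -n.2) := by
        rw [Nm_fl]
        simpa using hn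
      have hyf : ((y.1, -y.2) : Q3) ∈ fl K := by
        show ((y.1, - -y.2) : Q3) ∈ K
        rw [neg_neg]; exact hy
      have hdf : dist ((y.1, -y.2) : Q3) (x.1, h') < min δ₁ δ₂ := by
        have h4 : dist ((y.1, -y.2) : Q3) (x.1, h') = dist y x := by
          rw [Prod.dist_eq, Prod.dist_eq (x := y)]
          have : dist (-y.2) h' = dist y.2 x.2 := by
            rw [← hbot, Real.dist_eq, Real.dist_eq, ← abs_neg]
            congr 1
            ring
          rw [this]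
        rw [h4]
        exact hd.trans_le (min_le_left _ _)
      have hgoal : 0 < dotC n.1 (eA (ph c δ j)) := by
        rcases le_or_gt (-n.2) 0 with h1 | h1
        · have h2 := H2 _ hyf (hdf.trans_le (min_le_right _ _)) (δ₂ / 2) (by positivity)
            (by linarith) _ hnf h1
          simp only [pr] at h2
          nlinarith
        · have h3 : dist y.1 x.1 < δ₁ := by
            have h4 : dist y.1 x.1 ≤ dist ((y.1, -y.2) : Q3) (x.1, h') := by
              rw [Prod.dist_eq]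
              exact le_max_left _ _
            exact lt_of_le_of_lt h4 (hdf.trans_le (min_le_left _ _))
          exact H1 y.1 h3 n.1 hne (fun q hq => by
            have h5 := hnf.2 _ hq
            have h6 := hb.1 _ hyf
            simp only [pr] at h5 h6
            nlinarith)
      simpa [pr] using hgoal
    · rcases (ht.1 x hx).eq_or_lt with htop | htop
      · -- the top face
        obtain ⟨δ₁, hδ₁, H1⟩ := hT x hx htop
        refine ⟨min (min δ₁ (h / 2)) (κ * Real.cos (5 * Real.pi / 12)), by positivity,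
          fun y hy hd ε h1 h2 => ?_⟩
        have hdy : dist y.2 x.2 < h / 2 := by
          have h5 : dist y.2 x.2 ≤ dist y x := by
            rw [Prod.dist_eq (x := y)]
            exact le_max_right _ _
          exact lt_of_le_of_lt h5 (hd.trans_le ((min_le_left _ _).trans (min_le_right _ _)))
        rw [htop, Real.dist_eq] at hdy
        have hy2 : h / 2 ≤ y.2 := by
          have := (abs_lt.1 hdy).1
          linarith
        rcases (ht.1 y hy).eq_or_lt with hyt | hyt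
        · exact Or.inr (Or.inl (H1 y hy (hd.trans_le ((min_le_left _ _).trans (min_le_left _ _)))
            hyt ε h1 (h2.trans_le ((min_le_left _ _).trans (min_le_left _ _)))))
        · rcases side_served hp hK ht hb hδ0 hδ hψ hy (by linarith) hyt with h3 | h3
          · exact Or.inl h3
          · refine Or.inr (Or.inl (Or.inl fun n hn => ?_))
            have h4 := h3 n hn
            have h5 := hst y hy hy2 n hn
            have hne := (side_ne hK.conv ht hb (by linarith) hyt hn).1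
            have hpos : 0 < ‖n.1‖ := norm_pos_iff.2 hne
            have h6 : ε < κ * Real.cos (5 * Real.pi / 12) := h2.trans_le (min_le_right _ _)
            simp only [pr]
            rcases le_or_gt 0 n.2 with h7 | h7
            · have := mul_pos hη hpos
              nlinarith
            · -- ε * (-n.2) < κ cos * (-n.2) ≤ cos * ‖n.1‖
              have h8 : ε * (-n.2) < κ * Real.cos (5 * Real.pi / 12) * (-n.2) :=
                mul_lt_mul_of_pos_right h6 (by linarith)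
              have h9 : Real.cos (5 * Real.pi / 12) * (κ * (-n.2)) ≤
                  Real.cos (5 * Real.pi / 12) * ‖n.1‖ := mul_le_mul_of_nonneg_left h5 hη.le
              nlinarith
      · -- between the faces
        rcases side_served hp hK ht hb hδ0 hδ hψ hx hbot htop with ⟨j, hj⟩ | h3
        · obtain ⟨δ₁, hδ₁, H⟩ := sv_open hj
          exact ⟨δ₁, hδ₁, fun y hy hd ε _ _ =>
            Or.inl ⟨j, H y hy hd _ (by rw [dist_self]; exact hδ₁)⟩⟩
        · have hs : Sv K x (eA ψ, 0) := by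
            intro n hn
            have h4 := h3 n hn
            have hne := (side_ne hK.conv ht hb hbot htop hn).1
            have hpos : 0 < ‖n.1‖ := norm_pos_iff.2 hne
            have := mul_pos hη hpos
            simp only [pr, mul_zero, add_zero]
            linarith
          obtain ⟨δ₁, hδ₁, H⟩ := sv_open hs
          refine ⟨δ₁, hδ₁, fun y hy hd ε h1 h2 => Or.inr (Or.inl (Or.inl (H y hy hd _ ?_)))⟩
          rw [Prod.dist_eq, dist_self, Real.dist_eq, sub_zero, abs_of_pos h1, max_lt_iff]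
          exact ⟨hδ₁, h2⟩
  obtain ⟨τ₁, _, hL⟩ := step1
  -- second limit
  have step2 : ∃ τ₂ > 0, ∀ y ∈ K, ∃ i, Sv K y (D ψ c δ v τ₁ τ₂ i) := by
    apply exists_small hK.comp (fun y τ₂ => ∃ i, Sv K y (D ψ c δ v τ₁ τ₂ i))
    intro x hx
    rcases hL x hx with ⟨j, hj⟩ | (hs | ⟨i, hi⟩) | hbot
    · obtain ⟨δ₁, hδ₁, H⟩ := sv_open hj
      refine ⟨δ₁, hδ₁, fun y hy hd ε h1 h2 => ⟨some (Sum.inr j), H y hy hd _ ?_⟩⟩
      rw [D, Prod.dist_eq, dist_self, Real.dist_eq, sub_zero, abs_neg, abs_of_pos h1, max_lt_iff]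
      exact ⟨hδ₁, h2⟩
    · obtain ⟨δ₁, hδ₁, H⟩ := sv_open hs
      exact ⟨δ₁, hδ₁, fun y hy hd ε _ _ => ⟨none, H y hy hd _ (by rw [D, dist_self]; exact hδ₁)⟩⟩
    · obtain ⟨δ₁, hδ₁, H⟩ := sv_open hi
      exact ⟨δ₁, hδ₁, fun y hy hd ε _ _ =>
        ⟨some (Sum.inl i), H y hy hd _ (by rw [D, dist_self]; exact hδ₁)⟩⟩
    · have hxe : x = (x.1, -h') := Prod.ext rfl hbot
      have hxf : ((x.1, h') : Q3) ∈ fl K := by
        show ((x.1, -h') : Q3) ∈ K
        rw [← hxe]; exact hx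
      obtain ⟨j, hj⟩ := hB x.1 hxf
      obtain ⟨δ₁, hδ₁, H⟩ := rim_local hKf.comp hb ⟨0, hh', interior_subset hKf.zero⟩
        (q := x.1) hxf (a := ph c δ j) hj
      refine ⟨δ₁, hδ₁, fun y hy hd ε h1 h2 => ⟨some (Sum.inr j), ?_⟩⟩
      have h3 := H (y.1, -y.2) (by
        show ((y.1, - -y.2) : Q3) ∈ K
        rw [neg_neg]; exact hy) (by
        rw [Prod.dist_eq] at hd ⊢
        have h4 : dist (-y.2) h' = dist y.2 x.2 := by
          rw [hbot, Real.dist_eq, Real.dist_eq, ← abs_neg]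
          congr 1
          ring
        rw [h4]
        exact hd) ε h1 h2
      rw [Sv_fl] at h3
      simpa [D] using h3
  obtain ⟨τ₂, _, hfin⟩ := step2
  exact served_of_fintype (by simp) (D ψ c δ v τ₁ τ₂) hfin

end Pool.Agent.Lib.MP_5e7226_co.RT.IV
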