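import Pool.Agent.Lib.MP_5e7226_co.RT.IVB
import Pool.Agent.Lib.MP_5e7226_co.Levi

/-!
# MP_5e7226, E^3 rotations, order at least four, both polar faces flat: the upper face (Levi's
theorem, squares) and the case (helper55)
-/

set_option autoImplicit false

open Set Filter Topology

namespace Pool.Agent.Lib.MP_5e7226_co.RT.IV

/-! ### the planar polar body -/

/-- the polar body -/
def PL (T : Set ℂ) : Set ℂ := {m | ∀ y ∈ T, dotC m y ≤ 1}

lemma PL_conv (T : Set ℂ) : Convex ℝ (PL T) := by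
  intro m hm m' hm' a b ha hb hab y hy
  have h1 := hm y hy
  have h2 := hm' y hy
  have h3 : dotC (a • m + b • m') y = a * dotC m y + b * dotC m' y := by
    simp [dotC]; ring
  rw [h3]
  nlinarith

lemma PL_closed (T : Set ℂ) : IsClosed (PL T) := by
  have h : PL T = ⋂ y ∈ T, {m | dotC m y ≤ 1} := by
    ext m
    simp [PL]
  rw [h]
  refine isClosed_biInter fun y _ => isClosed_le ?_ continuous_const
  exact continuous_dotC.comp (continuous_id.prodMk continuous_const)

lemma PL_compact {p : ℕ} {T : Set ℂ} (hT : PB p T) : IsCompact (PL T) := by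
  obtain ⟨ε, hε, hb⟩ := hT.ball
  refine Metric.isCompact_of_isClosed_isBounded (PL_closed T) ?_
  rw [isBounded_iff_forall_norm_le]
  refine ⟨2 / ε, fun m hm => ?_⟩
  by_cases h0 : m = 0
  · rw [h0, norm_zero]; positivity
  have hpos : 0 < ‖m‖ := norm_pos_iff.2 h0
  have h1 : ((ε / 2 / ‖m‖ : ℝ) : ℂ) * m ∈ T := by
    apply hb
    rw [norm_mul, Complex.norm_real, Real.norm_of_nonneg (by positivity), div_mul_cancel₀ _ hpos.ne']
    linarith
  have h2 := hm _ h1
  rw [dotC_ofReal_right, dotC_self] at h2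
  have h3 : ε / 2 / ‖m‖ * ‖m‖ ^ 2 = ε / 2 * ‖m‖ := by
    field_simp
  rw [h3] at h2
  rw [le_div_iff₀ hε]
  linarith

lemma PL_zero {p : ℕ} {T : Set ℂ} (hT : PB p T) : (0 : ℂ) ∈ interior (PL T) := by
  obtain ⟨R, hR⟩ := hT.comp.isBounded.exists_norm_le
  have hR0 : 0 ≤ R := by
    obtain ⟨ε, hε, hb⟩ := hT.ball
    exact (norm_nonneg _).trans (hR 0 (hb 0 (by simpa using hε)))
  rw [mem_interior_iff_mem_nhds, Metric.mem_nhds_iff]
  refine ⟨1 / (R + 1), by positivity, fun m hm y hy => ?_⟩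
  rw [Metric.mem_ball, dist_zero_right] at hm
  refine (dotC_le _ _).trans ?_
  have h1 : ‖m‖ * ‖y‖ ≤ 1 / (R + 1) * (R + 1) :=
    mul_le_mul hm.le (by linarith [hR y hy]) (norm_nonneg _) (by positivity)
  rwa [one_div, inv_mul_cancel₀ (by positivity)] at h1

lemma dotC_smulL (c : ℝ) (a b : ℂ) : dotC (c • a) b = c * dotC a b := by
  simp [dotC]; ring

/-- the vector of a functional -/
lemma fun_eq (w : ℂ →L[ℝ] ℝ) (x : ℂ) : w x = dotC x ⟨w 1, w Complex.I⟩ := by
  have h : x = (x.re : ℝ) • (1 : ℂ) + (x.im : ℝ) • Complex.I := by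
    apply Complex.ext <;> simp
  conv_lhs => rw [h]
  rw [map_add, map_smul, map_smul]
  simp [dotC]

lemma bipolar {p : ℕ} {T : Set ℂ} (hT : PB p T) {q : ℂ} (hq : ∀ m ∈ PL T, dotC m q ≤ 1) :
    q ∈ T := by
  by_contra hcon
  obtain ⟨f, u, h1, h2⟩ := geometric_hahn_banach_closed_point hT.conv hT.comp.isClosed hcon
  obtain ⟨ε, hε, hb⟩ := hT.ball
  have h0 : (0 : ℂ) ∈ T := hb 0 (by simpa using hε)
  have hu : 0 < u := by
    have := h1 0 h0
    simpa using this
  set a : ℂ := ⟨f 1, f Complex.I⟩ with ha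
  have hm : ((u⁻¹ : ℝ) : ℂ) * a ∈ PL T := by
    intro y hy
    rw [dotC_ofReal_left, dotC_comm, ← fun_eq, inv_mul_le_iff₀ hu, mul_one]
    exact (h1 y hy).le
  have h3 := hq _ hm
  rw [dotC_ofReal_left, dotC_comm, ← fun_eq, inv_mul_le_iff₀ hu, mul_one] at h3
  linarith

lemma np_mem_PL {p : ℕ} {T : Set ℂ} (hT : PB p T) {q m : ℂ} (h : NP T q m) :
    (dotC m q)⁻¹ • m ∈ PL T := by
  have hpos := np_pos hT h
  intro y hy
  rw [dotC_smulL, inv_mul_le_iff₀ hpos, mul_one]
  exact h.2.2 y hy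

/-- Levi's theorem, first alternative -/
lemma of_sep {p : ℕ} {T : Set ℂ} (hT : PB p T) (hs : Sep (PL T) 3) :
    ∃ ψ : Fin 3 → ℝ, ∀ q ∈ T, ∃ i, ∀ m, NP T q m → 0 < dotC m (eA (ψ i)) := by
  obtain ⟨w, hw⟩ := hs
  refine ⟨fun i => Complex.arg ⟨w i 1, w i Complex.I⟩, fun q hq => ?_⟩
  by_cases hne : ∃ m, NP T q m
  swap
  · push Not at hne
    exact ⟨0, fun m hm => absurd hm (hne m)⟩
  obtain ⟨m₀, hm₀⟩ := hne
  have hq0 := np_ne hT hm₀
  -- the functional
  let f : ℂ →L[ℝ] ℝ := LinearMap.toContinuousLinearMap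
    { toFun := fun m => dotC m q
      map_add' := fun a b => dotC_add_left a b q
      map_smul' := fun r a => by simp [dotC]; ring }
  have hf : ∀ m, f m = dotC m q := fun m => rfl
  have hf0 : f ≠ 0 := by
    intro h
    have h1 := hf q
    rw [h, dotC_self] at h1
    have : 0 < ‖q‖ ^ 2 := by have := norm_pos_iff.2 hq0; positivity
    simp only [FunLike.coe_zero, Pi.zero_apply] at h1
    linarith
  obtain ⟨i, hi⟩ := hw f hf0
  refine ⟨i, fun m hm => ?_⟩
  have hpos := np_pos hT hm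
  have h1 : (dotC m q)⁻¹ • m ∈ face (PL T) f := by
    refine ⟨np_mem_PL hT hm, fun m' hm' => ?_⟩
    rw [hf, hf]
    have h2 : dotC ((dotC m q)⁻¹ • m) q = 1 := by
      rw [dotC_smulL, inv_mul_cancel₀ hpos.ne']
    rw [h2]
    exact hm' q hq
  have h2 := hi _ h1
  rw [map_smul, smul_eq_mul, fun_eq] at h2
  have h3 : 0 < dotC m ⟨w i 1, w i Complex.I⟩ := by
    by_contra hcon
    push Not at hcon
    have := mul_nonpos_of_nonneg_of_nonpos (inv_nonneg.2 hpos.le) hcon
    linarith
  set a : ℂ := ⟨w i 1, w i Complex.I⟩ with ha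
  have h4 : a = (‖a‖ : ℂ) * eA (Complex.arg a) := by
    rw [eA_eq_exp]
    exact (Complex.norm_mul_exp_arg_mul_I a).symm
  rw [h4, dotC_ofReal_right] at h3
  by_contra hcon
  push Not at hcon
  have := mul_nonpos_of_nonneg_of_nonpos (norm_nonneg a) hcon
  linarith

/-! ### the second alternative: squares -/

/-- the square with the edge normals `b`, `i b`, `-b`, `-i b` -/
def SQ (b : ℂ) : Set ℂ := {q | |dotC b q| ≤ 1 ∧ |dotC (Complex.I * b) q| ≤ 1}

lemma rot_inv {p : ℕ} (hp : 4 ≤ p) (z y : ℂ) :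
    dotC (eA (2 * Real.pi / p) * z) y = dotC z (eA (2 * Real.pi / p) ^ (p - 1) * y) := by
  set ζ := eA (2 * Real.pi / p) with hζ
  have h1 : ζ ^ p = 1 := (prim hp).pow_eq_one
  have h2 : ζ ^ (p - 1) * ζ = 1 := by
    rw [← pow_succ]
    have : p - 1 + 1 = p := by omega
    rw [this, h1]
  have h3 : ζ ^ (p - 1) * y = ζ ^ (p - 1) * y := rfl
  have h4 := dotC_mul_mul ζ z (ζ ^ (p - 1) * y)
  rw [norm_eA, one_pow, one_mul] at h4
  rw [← h4]
  congr 1
  rw [← mul_assoc, mul_comm ζ, h2, one_mul]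

lemma PL_rot {p : ℕ} {T : Set ℂ} (hT : PB p T) {m : ℂ} (hm : m ∈ PL T) :
    eA (2 * Real.pi / p) * m ∈ PL T := by
  intro y hy
  rw [rot_inv hT.p4]
  exact hm _ (hT.pow hy _)

lemma PL_rot_pow {p : ℕ} {T : Set ℂ} (hT : PB p T) {m : ℂ} (hm : m ∈ PL T) (k : ℕ) :
    eA (2 * Real.pi / p) ^ k * m ∈ PL T := by
  induction k with
  | zero => simpa using hm
  | succ k ih =>
    have := PL_rot hT ih
    rw [pow_succ, mul_comm (eA (2 * Real.pi / p) ^ k), mul_assoc]
    exact this

lemma ext_rot {p : ℕ} {T : Set ℂ} (hT : PB p T) {m : ℂ} (hm : m ∈ (PL T).extremePoints ℝ) :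
    eA (2 * Real.pi / p) * m ∈ (PL T).extremePoints ℝ := by
  set ζ := eA (2 * Real.pi / p) with hζ
  have h1 : ζ ^ p = 1 := (prim hT.p4).pow_eq_one
  have h2 : ζ ^ (p - 1) * ζ = 1 := by
    rw [← pow_succ]
    have h4 := hT.p4
    have : p - 1 + 1 = p := by omega
    rw [this, h1]
  rw [mem_extremePoints] at hm ⊢
  refine ⟨PL_rot hT hm.1, fun x hx y hy hxy => ?_⟩
  have hx' := PL_rot_pow hT hx (p - 1)
  have hy' := PL_rot_pow hT hy (p - 1)
  have hseg : m ∈ openSegment ℝ (ζ ^ (p - 1) * x) (ζ ^ (p - 1) * y) := by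
    obtain ⟨a, b, ha, hb, hab, he⟩ := hxy
    refine ⟨a, b, ha, hb, hab, ?_⟩
    calc a • (ζ ^ (p - 1) * x) + b • (ζ ^ (p - 1) * y) = ζ ^ (p - 1) * (a • x + b • y) := by
          simp only [Complex.real_smul]; ring
      _ = m := by rw [he, ← mul_assoc, h2, one_mul]
  obtain ⟨e1, e2⟩ := hm.2 _ hx' _ hy' hseg
  constructor
  · rw [← e1, ← mul_assoc, mul_comm ζ, h2, one_mul]
  · rw [← e2, ← mul_assoc, mul_comm ζ, h2, one_mul]

lemma real_mul_eq {z w : ℂ} {r : ℝ} (hw : w ≠ 0) (h : z * w = (r : ℝ) • w) : z = r := by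
  rw [Complex.real_smul] at h
  exact mul_right_cancel₀ hw h

/-- Levi's theorem, second alternative -/
lemma of_cross {p : ℕ} {T : Set ℂ} (hT : PB p T) (hs : CrossBody 2 (PL T)) :
    p = 4 ∧ ∃ b : ℂ, b ≠ 0 ∧ T = SQ b := by
  obtain ⟨B, t, ht, hL⟩ := hs
  have hp := hT.p4
  set ζ := eA (2 * Real.pi / p) with hζ
  have hprim := prim hp
  rw [← hζ] at hprim
  have hnorm : ‖ζ‖ = 1 := norm_eA _
  set e := B 0 with he
  set g := B 1 with hg
  have he0 : e ≠ 0 := B.ne_zero 0
  have hg0 : g ≠ 0 := B.ne_zero 1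
  have hLF : PL T = convexHull ℝ ({e, -(t 0) • e, g, -(t 1) • g} : Set ℂ) := by
    rw [hL]
    congr 1
    ext z
    simp only [mem_iUnion, Fin.exists_fin_two, mem_insert_iff, mem_singleton_iff]
    tauto
  have hsub : (PL T).extremePoints ℝ ⊆ ({e, -(t 0) • e, g, -(t 1) • g} : Set ℂ) := by
    conv_lhs => rw [hLF]
    exact extremePoints_convexHull_subset
  -- real independence
  have hind : ∀ r : ℝ, g ≠ r • e := by
    intro r h
    have h1 := congrArg (fun z => B.repr z 1) h
    simp only [map_smul, Finsupp.smul_apply, smul_eq_mul] at h1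
    rw [hg, he, B.repr_self, B.repr_self] at h1
    simp at h1
  -- `e` is an extreme point
  have heE : e ∈ (PL T).extremePoints ℝ := by
    by_contra hcon
    let f : ℂ →L[ℝ] ℝ := LinearMap.toContinuousLinearMap (B.coord 0)
    have hfe : f e = 1 := by
      change B.coord 0 (B 0) = 1
      simp
    have hfg : f g = 0 := by
      change B.coord 0 (B 1) = 0
      simp
    have h1 : closure (convexHull ℝ ((PL T).extremePoints ℝ)) ⊆ {x | f x ≤ 0} := by
      apply closure_minimal
      · apply convexHull_min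
        · intro z hz
          have h2 := hsub hz
          simp only [mem_insert_iff, mem_singleton_iff] at h2
          simp only [mem_ofPred_eq]
          rcases h2 with h2 | h2 | h2 | h2
          · rw [h2] at hz
            exact absurd hz hcon
          · rw [h2, map_smul, hfe, smul_eq_mul, mul_one]
            linarith [ht 0]
          · rw [h2, hfg]
          · rw [h2, map_smul, hfg, smul_zero]
        · intro x hx z hz a c ha hc _
          simp only [mem_ofPred_eq] at hx hz ⊢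
          rw [map_add, map_smul, map_smul, smul_eq_mul, smul_eq_mul]
          nlinarith
      · exact isClosed_le f.continuous continuous_const
    rw [closure_convexHull_extremePoints (PL_compact hT) (PL_conv T)] at h1
    have heL : e ∈ PL T := by
      rw [hLF]
      exact subset_convexHull _ _ (by simp)
    have := h1 heL
    simp only [mem_ofPred_eq, hfe] at this
    linarith
  have hk1 : ζ * e ∈ (PL T).extremePoints ℝ := ext_rot hT heE
  have hk2 : ζ * (ζ * e) ∈ (PL T).extremePoints ℝ := ext_rot hT hk1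
  have hk3 : ζ * (ζ * (ζ * e)) ∈ (PL T).extremePoints ℝ := ext_rot hT hk2
  -- `ζ` is not real
  have hnr : ∀ r : ℝ, ζ ≠ r := by
    intro r h
    have h1 : |r| = 1 := by
      rw [h, Complex.norm_real, Real.norm_eq_abs] at hnorm
      exact hnorm
    have h2 : ζ ^ 2 = 1 := by
      rw [h, ← Complex.ofReal_pow, ← sq_abs, h1]
      simp
    have h3 := hprim.dvd_of_pow_eq_one 2 h2
    have := Nat.le_of_dvd (by norm_num) h3
    omega
  have hnr' : ∀ r : ℝ, ζ * e ≠ r • e := fun r h => hnr r (real_mul_eq he0 h)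
  have m1 := hsub hk1
  have m2 := hsub hk2
  have m3 := hsub hk3
  simp only [mem_insert_iff, mem_singleton_iff] at m1 m2 m3
  have hζg : ∃ r : ℝ, r ≠ 0 ∧ g = r • (ζ * e) := by
    rcases m1 with h | h | h | h
    · exact absurd (h.trans (one_smul ℝ e).symm) (hnr' 1)
    · exact absurd h (hnr' _)
    · exact ⟨1, one_ne_zero, by rw [one_smul, h]⟩
    · refine ⟨(-(t 1))⁻¹, inv_ne_zero (neg_ne_zero.2 (ht 1).ne'), ?_⟩
      rw [h, smul_smul, inv_mul_cancel₀ (neg_ne_zero.2 (ht 1).ne'), one_smul]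
  obtain ⟨r, hr0, hr⟩ := hζg
  have hζe0 : ζ * e ≠ 0 := mul_ne_zero (eA_ne_zero _) he0
  -- `ζ² e` is a real multiple of `e`
  have hsq : ∃ s : ℝ, ζ * (ζ * e) = s • e ∧ s = -(t 0) := by
    rcases m2 with h | h | h | h
    · -- ζ² = 1
      exfalso
      have h1 : ζ ^ 2 = 1 := by
        have h2 : ζ ^ 2 * e = 1 * e := by rw [one_mul, pow_two, mul_assoc, h]
        exact mul_right_cancel₀ he0 h2
      have h3 := hprim.dvd_of_pow_eq_one 2 h1
      have := Nat.le_of_dvd (by norm_num) h3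
      omega
    · exact ⟨_, h, rfl⟩
    · exfalso
      rw [hr] at h
      exact hnr r (real_mul_eq hζe0 h)
    · exfalso
      rw [hr, smul_smul] at h
      exact hnr _ (real_mul_eq hζe0 h)
  obtain ⟨s, hs1, hs2⟩ := hsq
  have hζ2 : ζ ^ 2 = (s : ℂ) := by
    have h2 : ζ ^ 2 * e = (s : ℂ) * e := by
      rw [pow_two, mul_assoc, hs1, Complex.real_smul]
    exact mul_right_cancel₀ he0 h2
  have hsabs : |s| = 1 := by
    have h1 : ‖ζ ^ 2‖ = 1 := by rw [norm_pow, hnorm, one_pow]
    rw [hζ2, Complex.norm_real, Real.norm_eq_abs] at h1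
    exact h1
  have hs : s = -1 := by
    rw [hs2, abs_neg, abs_of_pos (ht 0)] at hsabs
    rw [hs2, hsabs]
  have ht0 : t 0 = 1 := by linarith
  have hζ2' : ζ ^ 2 = -1 := by rw [hζ2, hs]; simp
  have hp4 : p = 4 := by
    have h1 : ζ ^ 4 = 1 := by
      have : ζ ^ 4 = (ζ ^ 2) ^ 2 := by ring
      rw [this, hζ2']; ring
    have h3 := hprim.dvd_of_pow_eq_one 4 h1
    have := Nat.le_of_dvd (by norm_num) h3
    omega
  have hζI : ζ = Complex.I := by
    rw [hζ, hp4]
    have : 2 * Real.pi / ((4 : ℕ) : ℝ) = Real.pi / 2 := by push_cast; ring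
    rw [this]
    apply Complex.ext <;> simp
  -- `t 1 = 1` and `g = ± i e`
  have hrt : (g = ζ * e ∨ g = -(ζ * e)) ∧ t 1 = 1 := by
    have hz3 : ζ * (ζ * (ζ * e)) = -(ζ * e) := by
      have : ζ * (ζ * (ζ * e)) = ζ ^ 2 * (ζ * e) := by ring
      rw [this, hζ2']; ring
    rw [hz3] at m3
    have n1 : ‖ζ * e‖ = ‖e‖ := by rw [norm_mul, hnorm, one_mul]
    have hepos : 0 < ‖e‖ := norm_pos_iff.2 he0
    have m1' : ζ * e = g ∨ ζ * e = -(t 1) • g := by
      rcases m1 with h | h | h | h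
      · exact absurd (h.trans (one_smul ℝ e).symm) (hnr' 1)
      · exact absurd h (hnr' _)
      · exact Or.inl h
      · exact Or.inr h
    have m3' : -(ζ * e) = g ∨ -(ζ * e) = -(t 1) • g := by
      rcases m3 with h | h | h | h
      · exfalso
        apply hnr' (-1)
        rw [neg_smul, one_smul]
        exact neg_eq_iff_eq_neg.1 h
      · exfalso
        apply hnr' (t 0)
        have h7 := neg_eq_iff_eq_neg.1 h
        rw [neg_smul, neg_neg] at h7
        exact h7
      · exact Or.inl h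
      · exact Or.inr h
    rcases m1' with h | h
    · rcases m3' with h' | h'
      · exfalso
        rw [← h] at h'
        have : ζ * e = 0 := by
          have h5 : ζ * e + ζ * e = 0 := by
            nth_rewrite 1 [← h']
            ring
          have h6 : (2 : ℂ) * (ζ * e) = 0 := by rw [two_mul]; exact h5
          exact (mul_eq_zero.1 h6).resolve_left two_ne_zero
        exact hζe0 this
      · refine ⟨Or.inl h.symm, ?_⟩
        rw [← h] at h'
        have h5 := congrArg norm h'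
        rw [norm_neg, norm_smul, norm_neg, Real.norm_of_nonneg (ht 1).le] at h5
        have h6 : 0 < ‖ζ * e‖ := norm_pos_iff.2 hζe0
        have h7 : t 1 * ‖ζ * e‖ = 1 * ‖ζ * e‖ := by rw [one_mul, ← h5]
        exact mul_right_cancel₀ h6.ne' h7
    · rcases m3' with h' | h'
      · refine ⟨Or.inr h'.symm, ?_⟩
        have h5 := congrArg norm h
        rw [norm_smul, norm_neg, Real.norm_of_nonneg (ht 1).le, ← h', norm_neg] at h5
        have h6 : 0 < ‖ζ * e‖ := norm_pos_iff.2 hζe0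
        have h7 : t 1 * ‖ζ * e‖ = 1 * ‖ζ * e‖ := by rw [one_mul, ← h5]
        exact mul_right_cancel₀ h6.ne' h7
      · exfalso
        rw [← h] at h'
        have h6 : (2 : ℂ) * (ζ * e) = 0 := by
          rw [two_mul]
          nth_rewrite 1 [← h']
          ring
        exact hζe0 ((mul_eq_zero.1 h6).resolve_left two_ne_zero)
  obtain ⟨hgz, ht1⟩ := hrt
  refine ⟨hp4, e, he0, ?_⟩
  have hmem : ∀ z ∈ ({e, -(t 0) • e, g, -(t 1) • g} : Set ℂ), z ∈ PL T := by
    intro z hz
    rw [hLF]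
    exact subset_convexHull _ _ hz
  rw [ht0, ht1] at hmem hLF
  have hIe : ζ * e = Complex.I * e := by rw [hζI]
  apply Subset.antisymm
  · intro q hq
    have h1 := hmem e (by simp) q hq
    have h2 := hmem (-(1 : ℝ) • e) (by simp) q hq
    have h3 := hmem g (by simp) q hq
    have h4 := hmem (-(1 : ℝ) • g) (by simp) q hq
    have h5 : ∀ z : ℂ, dotC (-(1 : ℝ) • z) q = -dotC z q := by
      intro z; simp [dotC]; ring
    rw [h5] at h2 h4
    refine ⟨abs_le.2 ⟨by linarith, h1⟩, ?_⟩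
    rcases hgz with h6 | h6
    · rw [h6, hIe] at h3 h4
      exact abs_le.2 ⟨by linarith, h3⟩
    · rw [h6, hIe, dotC_neg_left] at h3 h4
      exact abs_le.2 ⟨by linarith, by linarith⟩
  · rintro q ⟨h1, h2⟩
    apply bipolar hT
    intro m hm
    rw [hLF] at hm
    rw [abs_le] at h1 h2
    have hcv : Convex ℝ {m : ℂ | dotC m q ≤ 1} := by
      intro m hm m' hm' a b ha hb hab
      simp only [mem_ofPred_eq] at hm hm' ⊢
      have h3 : dotC (a • m + b • m') q = a * dotC m q + b * dotC m' q := by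
        simp [dotC]; ring
      rw [h3]
      nlinarith
    have h3 : convexHull ℝ ({e, -(1 : ℝ) • e, g, -(1 : ℝ) • g} : Set ℂ) ⊆
        {m : ℂ | dotC m q ≤ 1} := by
      apply convexHull_min _ hcv
      intro z hz
      have h5 : ∀ z : ℂ, dotC (-(1 : ℝ) • z) q = -dotC z q := by
        intro z; simp [dotC]; ring
      simp only [mem_insert_iff, mem_singleton_iff] at hz
      simp only [mem_ofPred_eq]
      rcases hz with h | h | h | h
      · rw [h]; exact h1.2
      · rw [h, h5]; linarith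
      · rcases hgz with h6 | h6
        · rw [h, h6, hIe]; exact h2.2
        · rw [h, h6, hIe, dotC_neg_left]; linarith
      · rw [h, h5]
        rcases hgz with h6 | h6
        · rw [h6, hIe]; linarith
        · rw [h6, hIe, dotC_neg_left]; linarith
    exact h3 hm

/-- Levi's theorem for planar bodies with a symmetry of order at least four. -/
theorem planar_levi {p : ℕ} {T : Set ℂ} (hT : PB p T) :
    (∃ ψ : Fin 3 → ℝ, ∀ q ∈ T, ∃ i, ∀ m, NP T q m → 0 < dotC m (eA (ψ i))) ∨
      (p = 4 ∧ ∃ b : ℂ, b ≠ 0 ∧ T = SQ b) := by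
  rcases levi Complex.finrank_real_complex (PL_compact hT) (PL_conv T) (PL_zero hT) with h | h
  · exact Or.inl (of_sep hT h)
  · exact Or.inr (of_cross hT h)

end Pool.Agent.Lib.MP_5e7226_co.RT.IV
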