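import Pool.Agent.Lib.MP_5e7226_co.RT.IVC

/-!
# MP_5e7226, E^3 rotations, order at least four, both polar faces flat: square faces and the case
(helper55)
-/

set_option autoImplicit false

open Set Filter Topology

namespace Pool.Agent.Lib.MP_5e7226_co.RT.IV

lemma coords {b : ℂ} (hb : b ≠ 0) (m : ℂ) : ∃ α β : ℝ, m = α • b + β • (Complex.I * b) := by
  refine ⟨(m / b).re, (m / b).im, ?_⟩
  rw [Complex.real_smul, Complex.real_smul]
  have h := Complex.re_add_im (m / b)
  calc m = (m / b) * b := by rw [div_mul_cancel₀ _ hb]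
    _ = (((m / b).re : ℂ) + ((m / b).im : ℂ) * Complex.I) * b := by rw [h]
    _ = _ := by ring

lemma dot_I_self (b : ℂ) : dotC (Complex.I * b) b = 0 := by
  simp [dotC]; ring

lemma dot_I_I (a b : ℂ) : dotC (Complex.I * a) (Complex.I * b) = dotC a b := by
  simp [dotC]; ring

lemma dot_coords {b : ℂ} (α β : ℝ) (y : ℂ) :
    dotC (α • b + β • (Complex.I * b)) y = α * dotC b y + β * dotC (Complex.I * b) y := by
  simp [dotC]; ring

/-- no downward or horizontal normal at the square upper face is parallel to an edge normal `± i b`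
if `K` sticks out of the square. -/
lemma no_side {K : Set Q3} (hK : RB 4 K) {h : ℝ} (ht : FlatTop K h) {b : ℂ}
    (hT : Sl K h = SQ b) (hP : ∃ y ∈ K, y.1 ∉ SQ b) {y : Q3} (hy : y ∈ K) (hyh : y.2 = h)
    {n : Q3} (hn : Nm K y n) (hn2 : n.2 ≤ 0) {β : ℝ} (hβ : n.1 = β • (Complex.I * b)) :
    False := by
  have h0K : (0 : Q3) ∈ K := interior_subset hK.zero
  have hh : 0 < h := top_pos hK.zero ht
  have hyS : y.1 ∈ SQ b := by
    rw [← hT]
    show ((y.1, h) : Q3) ∈ K
    have : y = (y.1, h) := Prod.ext rfl hyh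
    rw [← this]
    exact hy
  by_cases hβ0 : β = 0
  · rw [hβ0, zero_smul] at hβ
    have h1 : n.2 ≠ 0 := fun h2 => hn.1 (Prod.ext hβ h2)
    have h2 : n.2 < 0 := lt_of_le_of_ne hn2 h1
    have h3 := hn.2 0 h0K
    simp only [pr, hβ, dotC_zero_left, Prod.snd_zero, mul_zero, zero_add, hyh] at h3
    nlinarith
  · obtain ⟨z, hz, hzS⟩ := hP
    apply hzS
    have hrot : ∀ x ∈ K, ((Complex.I * x.1, x.2) : Q3) ∈ K := by
      intro x hx
      have h1 := hK.rot x hx
      have h2 : eA (2 * Real.pi / ((4 : ℕ) : ℝ)) = Complex.I := by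
        have : 2 * Real.pi / ((4 : ℕ) : ℝ) = Real.pi / 2 := by push_cast; ring
        rw [this]
        apply Complex.ext <;> simp
      rw [h2] at h1
      exact h1
    have key : ∀ x ∈ K, β * dotC (Complex.I * b) x.1 ≤ |β| := by
      intro x hx
      have h1 := hn.2 x hx
      have h2 := ht.1 x hx
      simp only [pr, hβ, hyh] at h1
      have e1 : dotC (β • (Complex.I * b)) x.1 = β * dotC (Complex.I * b) x.1 :=
        dotC_smulL _ _ _
      have e2 : dotC (β • (Complex.I * b)) y.1 = β * dotC (Complex.I * b) y.1 :=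
        dotC_smulL _ _ _
      rw [e1, e2] at h1
      have h3 : β * dotC (Complex.I * b) y.1 ≤ |β| := by
        refine (le_abs_self _).trans ?_
        rw [abs_mul]
        have := hyS.2
        nlinarith [abs_nonneg β]
      nlinarith
    have hβpos : 0 < |β| := abs_pos.2 hβ0
    have f1 := key z hz
    have hz1 := hrot z hz
    have hz2 := hrot _ hz1
    have hz3 := hrot _ hz2
    have f2 := key _ hz1
    have f3 := key _ hz2
    have f4 := key _ hz3
    have g2 : dotC (Complex.I * b) (Complex.I * z.1) = dotC b z.1 := dot_I_I _ _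
    have g3 : dotC (Complex.I * b) (Complex.I * (Complex.I * z.1)) =
        -dotC (Complex.I * b) z.1 := by
      rw [dot_I_I]; simp [dotC]
    have g4 : dotC (Complex.I * b) (Complex.I * (Complex.I * (Complex.I * z.1))) =
        -dotC b z.1 := by
      rw [dot_I_I]; simp [dotC]; ring
    simp only [g2, g3, g4] at f2 f3 f4
    constructor
    · have h5 : |β * dotC b z.1| ≤ |β| := abs_le.2 ⟨by linarith, f2⟩
      rw [abs_mul] at h5
      exact le_of_mul_le_mul_left (by linarith) hβpos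
    · have h5 : |β * dotC (Complex.I * b) z.1| ≤ |β| := abs_le.2 ⟨by linarith, f1⟩
      rw [abs_mul] at h5
      exact le_of_mul_le_mul_left (by linarith) hβpos

/-- the first coordinate of a normal at a point of the square face -/
lemma coord_sign {K : Set Q3} {h : ℝ} {b : ℂ} (hb : b ≠ 0) (hT : Sl K h = SQ b) {y : Q3}
    (hy : y ∈ K) (hyh : y.2 = h) {n : Q3} (hn : Nm K y n) {α β : ℝ}
    (hαβ : n.1 = α • b + β • (Complex.I * b)) :
    (dotC b y.1 < 1 → α ≤ 0) ∧ (-1 < dotC b y.1 → 0 ≤ α) := by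
  have hye : y = (y.1, h) := Prod.ext rfl hyh
  have hyS : y.1 ∈ SQ b := by
    rw [← hT]
    show ((y.1, h) : Q3) ∈ K
    rw [← hye]
    exact hy
  have hbpos : 0 < ‖b‖ ^ 2 := by have := norm_pos_iff.2 hb; positivity
  have hmove : ∀ ε : ℝ, |dotC b y.1 + ε * ‖b‖ ^ 2| ≤ 1 → ε * α ≤ 0 := by
    intro ε hε
    have hmem : y.1 + ε • b ∈ SQ b := by
      have e1 : dotC b (y.1 + ε • b) = dotC b y.1 + ε * ‖b‖ ^ 2 := by
        rw [dotC_add_right, Complex.real_smul, dotC_ofReal_right, dotC_self]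
      have e2 : dotC (Complex.I * b) (y.1 + ε • b) = dotC (Complex.I * b) y.1 := by
        rw [dotC_add_right, Complex.real_smul, dotC_ofReal_right, dot_I_self, mul_zero, add_zero]
      exact ⟨by rw [e1]; exact hε, by rw [e2]; exact hyS.2⟩
    rw [← hT] at hmem
    have h1 := hn.2 _ hmem
    simp only [pr, hyh] at h1
    have e3 : dotC n.1 (y.1 + ε • b) = dotC n.1 y.1 + ε * (α * ‖b‖ ^ 2) := by
      rw [dotC_add_right, Complex.real_smul, dotC_ofReal_right]
      congr 2
      rw [hαβ, dot_coords, dotC_self, dot_I_self]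
      ring
    rw [e3] at h1
    have h2 : ε * α * ‖b‖ ^ 2 ≤ 0 := by nlinarith
    by_contra hcon
    push Not at hcon
    have := mul_pos hcon hbpos
    linarith
  have hS1 := abs_le.1 hyS.1
  constructor
  · intro h1
    set ε := (1 - dotC b y.1) / ‖b‖ ^ 2 with hε
    have hε0 : 0 < ε := div_pos (by linarith) hbpos
    have h2 := hmove ε (by
      rw [hε, div_mul_cancel₀ _ hbpos.ne', abs_le]
      constructor <;> linarith)
    by_contra hcon
    push Not at hcon
    have := mul_pos hε0 hcon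
    linarith
  · intro h1
    set ε := (-1 - dotC b y.1) / ‖b‖ ^ 2 with hε
    have hε0 : ε < 0 := div_neg_of_neg_of_pos (by linarith) hbpos
    have h2 := hmove ε (by
      rw [hε, div_mul_cancel₀ _ hbpos.ne', abs_le]
      constructor <;> linarith)
    by_contra hcon
    push Not at hcon
    have := mul_pos_of_neg_of_neg hε0 hcon
    linarith

/-- one edge: all points of the face near a point of the edge `dotC b = 1`. -/
lemma edge {K : Set Q3} (hK : RB 4 K) {h : ℝ} (ht : FlatTop K h) {b : ℂ} (hb : b ≠ 0)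
    (hT : Sl K h = SQ b) (hP : ∃ y ∈ K, y.1 ∉ SQ b) {x : Q3} (hx : x ∈ K) (hxh : x.2 = h)
    (hx1 : dotC b x.1 = 1) {ψ : ℝ} {r : ℝ} (hr : 0 < r) (hψ : b = (r : ℂ) * eA ψ) :
    ∃ δ > 0, ∀ y ∈ K, dist y x < δ → y.2 = h → ∀ τ, 0 < τ → τ < δ →
      Sv K y (eA ψ, τ) ∨ Sv K y (0, 1) := by
  have hdot : ∀ α β : ℝ, dotC (α • b + β • (Complex.I * b)) (eA ψ) = α * r := by
    intro α β
    have e1 : dotC b (eA ψ) = r := by
      conv_lhs => rw [hψ]
      rw [dot_polar, sub_self, Real.cos_zero, mul_one]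
    have e2 : dotC (Complex.I * b) (eA ψ) = 0 := by
      conv_lhs => rw [hψ]
      have : Complex.I * ((r : ℂ) * eA ψ) = (r : ℂ) * (Complex.I * eA ψ) := by ring
      rw [this, dotC_ofReal_left, dot_I_self, mul_zero]
    rw [dot_coords, e1, e2]
    ring
  have hlow : ∀ n, Nm K x n → n.2 ≤ 0 → 0 < dotC n.1 (eA ψ) := by
    intro n hn hn2
    obtain ⟨α, β, hαβ⟩ := coords hb n.1
    have h1 := (coord_sign hb hT hx hxh hn hαβ).2 (by rw [hx1]; norm_num)
    rw [hαβ, hdot]
    rcases h1.eq_or_lt with h2 | h2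
    · exfalso
      rw [← h2, zero_smul, zero_add] at hαβ
      exact no_side hK ht hT hP hx hxh hn hn2 hαβ
    · exact mul_pos h2 hr
  obtain ⟨δ, hδ, H⟩ := low_open hK.comp hlow
  have hcont : Continuous (fun y : Q3 => dotC b y.1) :=
    continuous_dotC.comp (continuous_const.prodMk continuous_fst)
  have hev : ∀ᶠ y in 𝓝 x, 0 < dotC b y.1 :=
    hcont.continuousAt.eventually (lt_mem_nhds (by simp only [hx1]; norm_num))
  obtain ⟨δ', hδ', H'⟩ := Metric.eventually_nhds_iff.1 hev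
  refine ⟨min δ δ', lt_min hδ hδ', fun y hy hd hyh τ hτ0 hτ => ?_⟩
  have h1 : 0 < dotC b y.1 := H' (hd.trans_le (min_le_right _ _))
  have hyS : y.1 ∈ SQ b := by
    rw [← hT]
    show ((y.1, h) : Q3) ∈ K
    have : y = (y.1, h) := Prod.ext rfl hyh
    rw [← this]
    exact hy
  rcases (abs_le.1 hyS.1).2.eq_or_lt with h2 | h2
  · left
    intro n hn
    rcases le_or_gt n.2 0 with h3 | h3
    · exact H y hy (hd.trans_le (min_le_left _ _)) τ hτ0 (hτ.trans_le (min_le_left _ _)) n hn h3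
    · obtain ⟨α, β, hαβ⟩ := coords hb n.1
      have h4 := (coord_sign hb hT hy hyh hn hαβ).2 (by linarith)
      have h5 : 0 ≤ dotC n.1 (eA ψ) := by
        rw [hαβ, hdot]
        exact mul_nonneg h4 hr.le
      simp only [pr]
      have := mul_pos h3 hτ0
      linarith
  · right
    intro n hn
    obtain ⟨α, β, hαβ⟩ := coords hb n.1
    have h4 := coord_sign hb hT hy hyh hn hαβ
    have h5 : α = 0 := le_antisymm (h4.1 h2) (h4.2 (by linarith))
    rw [h5, zero_smul, zero_add] at hαβ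
    have h6 : 0 < n.2 := by
      by_contra hcon
      push Not at hcon
      exact no_side hK ht hT hP hy hyh hn hcon hαβ
    simpa [pr, dotC_zero_right] using h6

lemma SQ_neg (b : ℂ) : SQ (-b) = SQ b := by
  ext q
  simp only [SQ, mem_ofPred_eq]
  have e1 : dotC (-b) q = -dotC b q := dotC_neg_left _ _
  have e2 : dotC (Complex.I * -b) q = -dotC (Complex.I * b) q := by
    rw [mul_neg, dotC_neg_left]
  rw [e1, e2, abs_neg, abs_neg]

/-- **Square upper face, `K` sticks out.** -/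
theorem square_served {K : Set Q3} (hK : RB 4 K) {h h' : ℝ} (ht : FlatTop K h)
    (hb' : FlatTop (fl K) h') {b : ℂ} (hb : b ≠ 0) (hT : Sl K h = SQ b)
    (hP : ∃ y ∈ K, y.1 ∉ SQ b) : Served K 7 := by
  have hr : 0 < ‖b‖ := norm_pos_iff.2 hb
  set ψ := Complex.arg b with hψ
  have hbe : b = (‖b‖ : ℂ) * eA ψ := by
    rw [eA_eq_exp]
    exact (Complex.norm_mul_exp_arg_mul_I b).symm
  have hneg : -b = (‖b‖ : ℂ) * eA (ψ + Real.pi) := by
    have h1 : eA (ψ + Real.pi) = -eA ψ := by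
      apply Complex.ext <;> simp [Real.cos_add_pi, Real.sin_add_pi]
    rw [h1, mul_neg, ← hbe]
  apply four_three le_rfl hK ht hb' ψ (fun τ => ![(0, 1), (eA (ψ + Real.pi), τ)])
  intro x hx hxh
  have hxS : x.1 ∈ SQ b := by
    rw [← hT]
    show ((x.1, h) : Q3) ∈ K
    have : x = (x.1, h) := Prod.ext rfl hxh
    rw [← this]
    exact hx
  have hcont : Continuous (fun y : Q3 => dotC b y.1) :=
    continuous_dotC.comp (continuous_const.prodMk continuous_fst)
  have hS1 := abs_le.1 hxS.1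
  rcases hS1.2.eq_or_lt with h1 | h1
  · obtain ⟨δ, hδ, H⟩ := edge hK ht hb hT hP hx hxh h1 hr hbe
    refine ⟨δ, hδ, fun y hy hd hyh τ h2 h3 => ?_⟩
    rcases H y hy hd hyh τ h2 h3 with h4 | h4
    · exact Or.inl h4
    · exact Or.inr ⟨0, h4⟩
  rcases hS1.1.eq_or_lt with h2 | h2
  · have hT' : Sl K h = SQ (-b) := by rw [SQ_neg]; exact hT
    have hP' : ∃ y ∈ K, y.1 ∉ SQ (-b) := by rw [SQ_neg]; exact hP
    obtain ⟨δ, hδ, H⟩ := edge hK ht (neg_ne_zero.2 hb) hT' hP' hx hxh
      (by rw [dotC_neg_left]; linarith) hr hneg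
    refine ⟨δ, hδ, fun y hy hd hyh τ h2 h3 => ?_⟩
    rcases H y hy hd hyh τ h2 h3 with h4 | h4
    · exact Or.inr ⟨1, h4⟩
    · exact Or.inr ⟨0, h4⟩
  · have hev : ∀ᶠ y : Q3 in 𝓝 x, dotC b y.1 < 1 ∧ -1 < dotC b y.1 :=
      (hcont.continuousAt.eventually (gt_mem_nhds h1)).and
        (hcont.continuousAt.eventually (lt_mem_nhds h2))
    obtain ⟨δ, hδ, H⟩ := Metric.eventually_nhds_iff.1 hev
    refine ⟨δ, hδ, fun y hy hd hyh τ _ _ => Or.inr ⟨0, fun n hn => ?_⟩⟩
    have h3 := H hd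
    obtain ⟨α, β, hαβ⟩ := coords hb n.1
    have h4 := coord_sign hb hT hy hyh hn hαβ
    have h5 : α = 0 := le_antisymm (h4.1 h3.1) (h4.2 h3.2)
    rw [h5, zero_smul, zero_add] at hαβ
    have h6 : 0 < n.2 := by
      by_contra hcon
      push Not at hcon
      exact no_side hK ht hT hP hy hyh hn hcon hαβ
    show 0 < pr n (0, 1)
    simpa [pr, dotC_zero_right] using h6

/-- one face: seven directions, or `K` is inside the cylinder over its square face. -/
theorem one_face {p : ℕ} (hp : 4 ≤ p) {K : Set Q3} (hK : RB p K) {h h' : ℝ} (ht : FlatTop K h)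
    (hb : FlatTop (fl K) h') :
    Served K 7 ∨ ∃ b : ℂ, b ≠ 0 ∧ Sl K h = SQ b ∧ ∀ y ∈ K, y.1 ∈ SQ b := by
  have h0K : (0 : Q3) ∈ K := interior_subset hK.zero
  have hh : 0 < h := top_pos hK.zero ht
  rcases planar_levi (pb_top hp hK ht) with ⟨ψ, hψ⟩ | ⟨hp4, b, hb0, hT⟩
  · left
    apply four_three hp hK ht hb (ψ 0) (fun τ => ![(eA (ψ 1), τ), (eA (ψ 2), τ)])
    intro x hx hxh
    have hxe : x = (x.1, h) := Prod.ext rfl hxh
    obtain ⟨i, hi⟩ := hψ x.1 (by
      show ((x.1, h) : Q3) ∈ K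
      rw [← hxe]; exact hx)
    obtain ⟨δ, hδ, H⟩ := rim_local hK.comp ht ⟨0, hh, h0K⟩ (q := x.1) (by rw [← hxe]; exact hx) hi
    refine ⟨δ, hδ, fun y hy hd _ τ h1 h2 => ?_⟩
    have h3 := H y hy (by rw [← hxe]; exact hd) τ h1 h2
    fin_cases i
    · exact Or.inl h3
    · exact Or.inr ⟨0, h3⟩
    · exact Or.inr ⟨1, h3⟩
  · subst hp4
    by_cases hP : ∀ y ∈ K, y.1 ∈ SQ b
    · exact Or.inr ⟨b, hb0, hT, hP⟩
    · left
      push Not at hP
      exact square_served hK ht hb hb0 hT hP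

lemma served_fl {K : Set Q3} {N : ℕ} (h : Served (fl K) N) : Served K N := by
  obtain ⟨v, hv⟩ := h
  refine ⟨fun i => ((v i).1, -(v i).2), fun x hx => ?_⟩
  obtain ⟨i, hi⟩ := hv (x.1, -x.2) (by
    show ((x.1, - -x.2) : Q3) ∈ K
    rw [neg_neg]; exact hx)
  refine ⟨i, ?_⟩
  rw [Sv_fl] at hi
  simpa using hi

/-- **Case (III), order at least four**: both polar faces flat. -/
theorem caseIV {p : ℕ} (hp : 4 ≤ p) {K : Set Q3} (hK : RB p K) {h h' : ℝ} (ht : FlatTop K h)
    (hb : FlatTop (fl K) h') :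
    Served K 7 ∨ ∃ b : ℂ, b ≠ 0 ∧ ∀ x : Q3, x ∈ K ↔
      (|dotC b x.1| ≤ 1 ∧ |dotC (Complex.I * b) x.1| ≤ 1) ∧ -h' ≤ x.2 ∧ x.2 ≤ h := by
  have hffl : fl (fl K) = K := by
    ext x
    show ((x.1, - -x.2) : Q3) ∈ K ↔ x ∈ K
    rw [neg_neg]
  rcases one_face hp hK ht hb with h1 | ⟨b, hb0, hT, hP⟩
  · exact Or.inl h1
  rcases one_face hp (RB_fl hK) hb (by rw [hffl]; exact ht) with h1 | ⟨b', hb0', hT', hP'⟩
  · exact Or.inl (served_fl h1)
  right
  have hh : 0 < h := top_pos hK.zero ht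
  have hh' : 0 < h' := top_pos (RB_fl hK).zero hb
  -- the two squares agree
  have hsub : SQ b ⊆ SQ b' := by
    intro q hq
    rw [← hT] at hq
    exact hP' (q, -h) (by
      show ((q, - -h) : Q3) ∈ K
      rw [neg_neg]; exact hq)
  have hsub' : SQ b' ⊆ SQ b := by
    intro q hq
    rw [← hT'] at hq
    exact hP (q, -h') hq
  have hge : ∀ x ∈ K, -h' ≤ x.2 := by
    intro x hx
    have h1 := hb.1 (x.1, -x.2) (by
      show ((x.1, - -x.2) : Q3) ∈ K
      rw [neg_neg]; exact hx)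
    have h2 : ((x.1, -x.2) : Q3).2 = -x.2 := rfl
    rw [h2] at h1
    linarith
  refine ⟨b, hb0, fun x => ⟨fun hx => ⟨hP x hx, hge x hx, ht.1 x hx⟩, ?_⟩⟩
  rintro ⟨hx1, hx2, hx3⟩
  have hx1' : x.1 ∈ SQ b := hx1
  have hq1 : ((x.1, h) : Q3) ∈ K := by
    have : x.1 ∈ Sl K h := by rw [hT]; exact hx1'
    exact this
  have hq2 : ((x.1, -h') : Q3) ∈ K := by
    have : x.1 ∈ Sl (fl K) h' := by rw [hT']; exact hsub hx1'
    exact this
  have hlen : 0 < h + h' := by linarith
  have h4 := hK.conv hq1 hq2 (a := (x.2 + h') / (h + h')) (b := (h - x.2) / (h + h'))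
    (div_nonneg (by linarith) hlen.le) (div_nonneg (by linarith) hlen.le) (by
      rw [← add_div]; rw [div_eq_one_iff_eq hlen.ne']; ring)
  have h5 : ((x.2 + h') / (h + h')) • ((x.1, h) : Q3) + ((h - x.2) / (h + h')) • ((x.1, -h') : Q3) =
      x := by
    ext1
    · show ((x.2 + h') / (h + h')) • x.1 + ((h - x.2) / (h + h')) • x.1 = x.1
      rw [← add_smul, ← add_div]
      have : x.2 + h' + (h - x.2) = h + h' := by ring
      rw [this, div_self hlen.ne', one_smul]
    · show (x.2 + h') / (h + h') * h + (h - x.2) / (h + h') * (-h') = x.2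
      field_simp
      ring
  rw [h5] at h4
  exact h4

end Pool.Agent.Lib.MP_5e7226_co.RT.IV
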