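import Pool.Agent.Lib.MP_5e7226_co.RT.R39
import Pool.Agent.Lib.MP_5e7226_co.RT.IIIA

set_option autoImplicit false

open Set Filter Topology

namespace Pool.Agent.Lib.MP_5e7226_co.RT

/-! ### III.11: coordinates -/

lemma r311_v0 (m : ℂ) : dotC (vt 1 0) m = m.re := by
  rw [r39_vt0]; simp [dotC]

lemma r311_v1 (m : ℂ) : dotC (vt 1 1) m = -(m.re / 2) + √3 / 2 * m.im := by
  rw [r39_vt1']; simp only [dotC, Complex.one_re, Complex.one_im]; ring

lemma r311_v2 (m : ℂ) : dotC (vt 1 2) m = -(m.re / 2) - √3 / 2 * m.im := by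
  rw [r39_vt2']; simp only [dotC, Complex.one_re, Complex.one_im]; ring

/-- the scalar product in the coordinates `v_0, v_1`. -/
lemma r311_dot (m p : ℂ) : dotC m p = 2 / 3 * ((2 * dotC (vt 1 0) p + dotC (vt 1 1) p) *
    dotC (vt 1 0) m + (dotC (vt 1 0) p + 2 * dotC (vt 1 1) p) * dotC (vt 1 1) m) := by
  have h3 : √3 * √3 = 3 := Real.mul_self_sqrt (by norm_num)
  rw [r311_v0, r311_v1, r311_v0, r311_v1]
  simp only [dotC]
  linear_combination (-(1 / 3) * m.im * p.im) * h3

lemma r311_far : far = ⟨1, √3⟩ := by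
  apply Complex.ext
  · simp only [far, Complex.mul_re, eA_re, eA_im, Real.cos_pi_div_three]; norm_num
  · simp only [far, Complex.mul_im, eA_re, eA_im, Real.sin_pi_div_three]; norm_num; ring

/-- the key inequality. -/
lemma r311_key {c w X Y A B M : ℝ} (hc : 0 < c) (hw : 0 < w) (hwc : w < c)
    (hM : M = 2 / 3 * ((2 * X + Y) * A + (X + 2 * Y) * B)) (h1 : A ≤ M) (h2 : B ≤ M)
    (h3 : -A - B ≤ M) (hAB : A ≠ 0 ∨ B ≠ 0) (hX : -(1 / 2) ≤ X) (hXY : 1 / 2 ≤ X + Y)
    (hmu : w * (2 / 3 * (X + 2 * Y)) < 2 * c * (1 - X)) : 0 < (c - w) * A + 2 * c * B := by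
  rcases eq_or_lt_of_le hXY with hS | hS
  · have hY : Y = 1 / 2 - X := by linarith
    subst hY
    have hX1 : 0 < 1 - X := by
      by_contra hcon
      push Not at hcon
      nlinarith [mul_nonneg (neg_nonneg.mpr hcon) (by linarith : 0 ≤ 2 * c - 2 / 3 * w)]
    have hBA : A ≤ B := by
      by_contra hcon
      push Not at hcon
      nlinarith [mul_pos hX1 (sub_pos.mpr hcon)]
    rcases lt_or_ge A 0 with hA | hA
    · have e : 0 ≤ (2 * X + 4) * A + (5 - 2 * X) * B := by nlinarith
      have h5 : 0 < 5 - 2 * X := by linarith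
      have h6 : -A ≤ 2 * B := by
        by_contra hcon
        push Not at hcon
        nlinarith [mul_pos h5 (sub_pos.mpr hcon), mul_nonneg (by linarith : 0 ≤ 6 * X + 3)
          (neg_pos.mpr hA).le]
      nlinarith [mul_le_mul_of_nonneg_left h6 hc.le, mul_pos hw (neg_pos.mpr hA)]
    · have hB : 0 < B := by
        rcases eq_or_lt_of_le (hA.trans hBA) with h | h
        · exfalso
          have : A = 0 := by linarith
          rcases hAB with h' | h'
          · exact h' this
          · exact h' h.symm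
        · exact h
      nlinarith [mul_nonneg (sub_pos.mpr hwc).le hA, mul_pos hc hB]
  · set β : ℝ := 2 / 3 * (X + 2 * Y) with hβ
    have hlam : 0 < c * (2 * X + 1) + w * (β - 1) := by
      rcases lt_or_ge β 1 with h | h
      · have h4 : 3 * (1 - β) ≤ 2 * X + 1 := by rw [hβ]; linarith
        have h5 : 0 < 1 - β := by linarith
        nlinarith [mul_le_mul_of_nonneg_left h4 hc.le, mul_pos hc h5,
          mul_pos (by linarith : 0 < 3 * c - w) h5]
      · rcases eq_or_lt_of_le hX with h' | h'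
        · have : 1 < β := by rw [hβ]; linarith
          have h6 := mul_pos hw (sub_pos.mpr this)
          have : 2 * X + 1 = 0 := by linarith
          rw [this, mul_zero, zero_add]
          exact h6
        · have h6 := mul_nonneg hw.le (sub_nonneg.mpr h)
          have h7 := mul_pos hc (by linarith : 0 < 2 * X + 1)
          linarith
    have hmu' : 0 < 2 * c * (1 - X) - w * β := by linarith
    have P1 : 0 ≤ M - A := by linarith
    have P2 : 0 ≤ M - B := by linarith
    have id1 : (2 * (X + Y) - 1) * ((c - w) * A + 2 * c * B) =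
        (c * (2 * X + 1) + w * (β - 1)) * (M - A) + (2 * c * (1 - X) - w * β) * (M - B) := by
      rw [hM, hβ]; ring
    have hS' : 0 < 2 * (X + Y) - 1 := by linarith
    by_contra hcon
    push Not at hcon
    have q1 := mul_nonneg hlam.le P1
    have q2 := mul_nonneg hmu'.le P2
    have q3 : (2 * (X + Y) - 1) * ((c - w) * A + 2 * c * B) ≤ 0 :=
      mul_nonpos_of_nonneg_of_nonpos hS'.le hcon
    have z1 : M - A = 0 := by
      have : (c * (2 * X + 1) + w * (β - 1)) * (M - A) = 0 := by linarith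
      exact (mul_eq_zero.mp this).resolve_left hlam.ne'
    have z2 : M - B = 0 := by
      have : (2 * c * (1 - X) - w * β) * (M - B) = 0 := by linarith
      exact (mul_eq_zero.mp this).resolve_left hmu'.ne'
    have hAB' : A = B := by linarith
    have hMA : M = A := by linarith
    rw [← hAB', hMA] at hM
    have : (2 * (X + Y) - 1) * A = 0 := by linear_combination -hM
    have hA0 := (mul_eq_zero.mp this).resolve_left hS'.ne'
    rcases hAB with h' | h'
    · exact h' hA0
    · exact h' (by rw [← hAB', hA0])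

/-! ### the points of `K` between the two faces -/

lemma r311_tri_mem {K : Set Q3} {h h' : ℝ} (H : Prism K h h' 1) (j : Fin 3) {z : ℝ}
    (h1 : -h' ≤ z) (h2 : z ≤ h) : ((vt 1 j, z) : Q3) ∈ K := by
  have hT : ((vt 1 j, h) : Q3) ∈ K := by
    rw [H.tri, norm_one]
    intro i
    have h3 : √3 * √3 = 3 := Real.mul_self_sqrt (by norm_num)
    fin_cases i <;> fin_cases j <;>
      simp [r39_vt0, r39_vt1', r39_vt2', dotC] <;> nlinarith
  have hS : ((vt 1 j, -h') : Q3) ∈ K := by
    rw [H.tri', norm_one]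
    intro i
    have h3 : √3 * √3 = 3 := Real.mul_self_sqrt (by norm_num)
    fin_cases i <;> fin_cases j <;>
      simp [r39_vt0, r39_vt1', r39_vt2', dotC] <;> nlinarith
  rcases eq_or_lt_of_le (h1.trans h2) with he | hlt
  · have : z = h := by linarith
    rw [this]; exact hT
  · have hpos : 0 < h + h' := by linarith
    have := H.rb.conv hT hS (a := (z + h') / (h + h')) (b := (h - z) / (h + h'))
      (by apply div_nonneg <;> linarith) (by apply div_nonneg <;> linarith)
      (by field_simp; ring)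
    have e : ((z + h') / (h + h')) • ((vt 1 j, h) : Q3) + ((h - z) / (h + h')) • ((vt 1 j, -h') : Q3)
        = (vt 1 j, z) := by
      apply Prod.ext
      · simp only [Prod.fst_add, Prod.smul_fst]
        rw [← add_smul]
        have : (z + h') / (h + h') + (h - z) / (h + h') = 1 := by field_simp; ring
        rw [this, one_smul]
      · simp only [Prod.snd_add, Prod.smul_snd, smul_eq_mul]
        field_simp; ring
    rwa [e] at this

/-- the horizontal part of a normal strictly between the faces. -/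
lemma r311_nm {K : Set Q3} {h h' : ℝ} (H : Prism K h h' 1) {x : Q3}
    (h1 : -h' < x.2) (h2 : x.2 < h) {n : Q3} (hn : Nm K x n) :
    n.1 ≠ 0 ∧ ∀ j, dotC (vt 1 j) n.1 ≤ dotC n.1 x.1 := by
  constructor
  · intro h0
    have a1 := hn.2 _ (r311_tri_mem H 0 (z := h) (by linarith) le_rfl)
    have a2 := hn.2 _ (r311_tri_mem H 0 (z := -h') le_rfl (by linarith))
    simp only [pr, h0, dotC_zero_left, zero_add] at a1 a2
    rcases lt_trichotomy n.2 0 with h3 | h3 | h3
    · nlinarith
    · exact hn.1 (Prod.ext h0 h3)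
    · nlinarith
  · intro j
    have := hn.2 _ (r311_tri_mem H j h1.le h2.le)
    simp only [pr] at this
    rw [dotC_comm (vt 1 j)]
    linarith

/-- not behind two edges. -/
lemma r311_behind {K : Set Q3} {h h' : ℝ} (H : Prism K h h' 1) (hh : -h' < h) {p : ℂ} {z : ℝ}
    (hp : ((p, z) : Q3) ∈ K) : -(1 / 2) ≤ dotC (vt 1 0) p ∨ -(1 / 2) ≤ dotC (vt 1 2) p := by
  by_contra hcon
  push Not at hcon
  obtain ⟨c0, c2⟩ := hcon
  obtain ⟨m, hm0, hm⟩ := H.sup
  -- the functional rotated to `v_1`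
  set m1 : ℂ := eA (2 * Real.pi / 3) * m with hm1
  have hm1' : ∀ y ∈ K, dotC m1 y.1 ≤ dotC m1 (vt 1 1) := by
    intro y hy
    have := hm _ (r34_rotmem H.rb (r34_rotmem H.rb hy))
    simp only at this
    have e : ∀ w : ℂ, dotC m (eA (2 * Real.pi / 3) * (eA (2 * Real.pi / 3) * w)) = dotC m1 w := by
      intro w
      conv_lhs => rw [← r34_omega3 m]
      rw [dotC_mul_mul, dotC_mul_mul, norm_eA, hm1]; ring
    rw [e] at this
    rw [r39_vt1]
    have e2 : dotC m1 (eA (2 * Real.pi / 3) * 1) = dotC m 1 := by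
      rw [hm1, dotC_mul_mul, norm_eA]; ring
    rw [e2]
    exact this
  have hm10 : m1 ≠ 0 := mul_ne_zero (eA_ne_zero _) hm0
  have b0 := hm1' _ (r311_tri_mem H 0 (z := h) (by linarith) le_rfl)
  have b2 := hm1' _ (r311_tri_mem H 2 (z := h) (by linarith) le_rfl)
  have bp := hm1' _ hp
  simp only at b0 b2 bp
  rw [dotC_comm m1 (vt 1 1)] at b0 b2 bp
  rw [dotC_comm m1 (vt 1 0)] at b0
  rw [dotC_comm m1 (vt 1 2)] at b2
  rw [r311_dot m1 p] at bp
  have s1 := r39_sum 1 m1
  have s2 := r39_sum 1 p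
  have hAB : dotC (vt 1 0) m1 ≠ 0 ∨ dotC (vt 1 1) m1 ≠ 0 := by
    by_contra hc
    push Not at hc
    apply hm10
    rw [r311_v0, r311_v1] at hc
    have h3 : 0 < √3 := Real.sqrt_pos.mpr (by norm_num)
    apply Complex.ext
    · simpa using hc.1
    · have h4 := hc.2
      rw [hc.1] at h4
      have h5 : √3 / 2 * m1.im = 0 := by linarith
      simpa using (mul_eq_zero.mp h5).resolve_left (by positivity)
  generalize dotC (vt 1 0) m1 = A at *
  generalize dotC (vt 1 1) m1 = B at *
  generalize dotC (vt 1 2) m1 = C at *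
  generalize dotC (vt 1 0) p = X at *
  generalize dotC (vt 1 1) p = Y at *
  generalize dotC (vt 1 2) p = Z at *
  -- `B - A ≥ 0`, `B - C ≥ 0`, `(B - A)(-1/2 - X) + (B - C)(-1/2 - Z) ≤ 0`
  have hC : C = -A - B := by linarith
  have hZ : Z = -X - Y := by linarith
  subst hC hZ
  have d1 : 0 ≤ B - A := by linarith
  have d2 : 0 ≤ A + 2 * B := by linarith
  have d3 : 0 < -(1 / 2) - X := by linarith
  have d4 : 0 < -(1 / 2) - (-X - Y) := by linarith
  have id1 : 2 / 3 * ((2 * X + Y) * A + (X + 2 * Y) * B) - B =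
      2 / 3 * ((B - A) * (-(1 / 2) - X) + (A + 2 * B) * (-(1 / 2) - (-X - Y))) := by ring
  have q1 := mul_nonneg d1 d3.le
  have q2 := mul_nonneg d2 d4.le
  have z1 : (B - A) * (-(1 / 2) - X) = 0 := by linarith
  have z2 : (A + 2 * B) * (-(1 / 2) - (-X - Y)) = 0 := by linarith
  have w1 := (mul_eq_zero.mp z1).resolve_right d3.ne'
  have w2 := (mul_eq_zero.mp z2).resolve_right d4.ne'
  have A0 : A = 0 := by linarith
  have B0 : B = 0 := by linarith
  rcases hAB with h5 | h5
  · exact h5 A0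
  · exact h5 B0

lemma r311_rot0 (p : ℂ) : dotC (vt 1 0) (eA (2 * Real.pi / 3) * p) = dotC (vt 1 2) p := by
  rw [r311_v0, r311_v2, Complex.mul_re, r39_re, r39_im]; ring

lemma r311_rot1 (p : ℂ) : dotC (vt 1 1) (eA (2 * Real.pi / 3) * p) = dotC (vt 1 0) p := by
  have h3 : √3 * √3 = 3 := Real.mul_self_sqrt (by norm_num)
  rw [r311_v1, r311_v0, Complex.mul_re, Complex.mul_im, r39_re, r39_im]
  linear_combination (p.re / 4) * h3

lemma r311_rot2 (p : ℂ) : dotC (vt 1 2) (eA (2 * Real.pi / 3) * p) = dotC (vt 1 1) p := by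
  have h3 : √3 * √3 = 3 := Real.mul_self_sqrt (by norm_num)
  rw [r311_v2, r311_v1, Complex.mul_re, Complex.mul_im, r39_re, r39_im]
  linear_combination (-(p.re) / 4) * h3

lemma r311_ne {m : ℂ} (hm : m ≠ 0) : dotC (vt 1 0) m ≠ 0 ∨ dotC (vt 1 1) m ≠ 0 := by
  by_contra hc
  push Not at hc
  apply hm
  rw [r311_v0, r311_v1] at hc
  have h3 : 0 < √3 := Real.sqrt_pos.mpr (by norm_num)
  apply Complex.ext
  · simpa using hc.1
  · have h4 := hc.2
    rw [hc.1] at h4
    have h5 : √3 / 2 * m.im = 0 := by linarith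
    simpa using (mul_eq_zero.mp h5).resolve_left (by positivity)

lemma r311_interior {K : Set Q3} {h h' : ℝ} (H : Prism K h h' 1) {x : Q3}
    (h1 : -h' < x.2) (h2 : x.2 < h) (hall : ∀ j, -(1 / 2) < dotC (vt 1 j) x.1) (n : Q3) :
    ¬ Nm K x n := by
  intro hn
  obtain ⟨hn1, hnj⟩ := r311_nm H h1 h2 hn
  have a0 := hall 0
  have a1 := hall 1
  have a2 := hall 2
  have b0 := hnj 0
  have b1 := hnj 1
  have b2 := hnj 2
  have s1 := r39_sum 1 n.1
  have s2 := r39_sum 1 x.1
  have hAB := r311_ne hn1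
  rw [r311_dot n.1 x.1] at b0 b1 b2
  generalize dotC (vt 1 0) n.1 = A at *
  generalize dotC (vt 1 1) n.1 = B at *
  generalize dotC (vt 1 2) n.1 = C at *
  generalize dotC (vt 1 0) x.1 = X at *
  generalize dotC (vt 1 1) x.1 = Y at *
  generalize dotC (vt 1 2) x.1 = Z at *
  have hC : C = -A - B := by linarith
  have hZ : Z = -X - Y := by linarith
  subst hC hZ
  set M := 2 / 3 * ((2 * X + Y) * A + (X + 2 * Y) * B) with hM
  have id1 : (1 + 2 * X) * (M - A) + (1 + 2 * Y) * (M - B) + (1 + 2 * (-X - Y)) * (M - (-A - B))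
      = 0 := by rw [hM]; ring
  have q0 := mul_nonneg (by linarith : 0 ≤ 1 + 2 * X) (sub_nonneg.mpr b0)
  have q1 := mul_nonneg (by linarith : 0 ≤ 1 + 2 * Y) (sub_nonneg.mpr b1)
  have q2 := mul_nonneg (by linarith : 0 ≤ 1 + 2 * (-X - Y)) (sub_nonneg.mpr b2)
  have z0 := (mul_eq_zero.mp (by linarith : (1 + 2 * X) * (M - A) = 0)).resolve_left
    (by linarith : (0 : ℝ) < 1 + 2 * X).ne'
  have z1 := (mul_eq_zero.mp (by linarith : (1 + 2 * Y) * (M - B) = 0)).resolve_left
    (by linarith : (0 : ℝ) < 1 + 2 * Y).ne'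
  have z2 := (mul_eq_zero.mp (by linarith : (1 + 2 * (-X - Y)) * (M - (-A - B)) = 0)).resolve_left
    (by linarith : (0 : ℝ) < 1 + 2 * (-X - Y)).ne'
  rcases hAB with h5 | h5
  · exact h5 (by linarith)
  · exact h5 (by linarith)

lemma r311_e1 (m : ℂ) (s : ℝ) : dotC m (eA (tw (-(Real.pi / 6) + s) 1)) =
    1 / √3 * ((Real.cos s - √3 * Real.sin s) * dotC (vt 1 0) m +
      2 * Real.cos s * dotC (vt 1 1) m) := by
  have h3 : √3 * √3 = 3 := Real.mul_self_sqrt (by norm_num)
  have hne : √3 ≠ 0 := (Real.sqrt_pos.mpr (by norm_num)).ne'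
  have : tw (-(Real.pi / 6) + s) 1 = s + Real.pi / 2 := by simp only [tw]; simp; ring
  rw [this, r311_v0, r311_v1]
  simp only [dotC, eA_re, eA_im, Real.cos_add_pi_div_two, Real.sin_add_pi_div_two]
  field_simp
  ring

lemma r311_e0 (m : ℂ) (s : ℝ) : dotC m (eA (tw (Real.pi / 6 - s) 0)) =
    1 / √3 * ((Real.cos s - √3 * Real.sin s) * dotC (vt 1 1) m +
      2 * Real.cos s * dotC (vt 1 0) m) := by
  have h3 : √3 * √3 = 3 := Real.mul_self_sqrt (by norm_num)
  have hne : √3 ≠ 0 := (Real.sqrt_pos.mpr (by norm_num)).ne'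
  have : tw (Real.pi / 6 - s) 0 = Real.pi / 6 - s := by simp only [tw]; simp
  rw [this, r311_v0, r311_v1]
  simp only [dotC, eA_re, eA_im, Real.cos_sub, Real.sin_sub, Real.cos_pi_div_six,
    Real.sin_pi_div_six]
  field_simp
  linear_combination (Real.cos s * m.re + Real.sin s * m.im * √3 * 0) * h3

end Pool.Agent.Lib.MP_5e7226_co.RT
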