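import Pool.Agent.Lib.MP_5e7226_co.RT.R311b

set_option autoImplicit false

open Set Filter Topology

namespace Pool.Agent.Lib.MP_5e7226_co.RT

/-! ### III.12: the far corners are in the projection -/

/-- the data of a normal. -/
structure ND (h h' z X0 X1 x3 a0 a1 ν M : ℝ) : Prop where
  hM : M = 2 / 3 * ((2 * X0 + X1) * a0 + (X0 + 2 * X1) * a1)
  t0 : a0 + ν * h ≤ M + ν * x3
  t1 : a1 + ν * h ≤ M + ν * x3
  t2 : (-a0 - a1) + ν * h ≤ M + ν * x3
  b0 : a0 - ν * h' ≤ M + ν * x3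
  b1 : a1 - ν * h' ≤ M + ν * x3
  b2 : (-a0 - a1) - ν * h' ≤ M + ν * x3
  f0 : -2 * a0 + ν * z ≤ M + ν * x3
  f1 : -2 * a1 + ν * z ≤ M + ν * x3
  f2 : -2 * (-a0 - a1) + ν * z ≤ M + ν * x3
  ne : a0 ≠ 0 ∨ a1 ≠ 0 ∨ ν ≠ 0

variable {h h' z X0 X1 x3 a0 a1 ν M : ℝ}

/-- `(p, z)` is in `K`: the sign of `ν`. -/
lemma ND.sign (N : ND h h' z X0 X1 x3 a0 a1 ν M) (h0 : X0 ≤ 1) (h1 : X1 ≤ 1)
    (h2 : -X0 - X1 ≤ 1) : 0 ≤ ν * (x3 - z) := by
  have e := N.hM
  have p0 := mul_le_mul_of_nonneg_left N.f0 (by linarith : 0 ≤ (1 - X0) / 3)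
  have p1 := mul_le_mul_of_nonneg_left N.f1 (by linarith : 0 ≤ (1 - X1) / 3)
  have p2 := mul_le_mul_of_nonneg_left N.f2 (by linarith : 0 ≤ (1 - (-X0 - X1)) / 3)
  have s : (1 - X0) / 3 * (-2 * a0 + ν * z) + (1 - X1) / 3 * (-2 * a1 + ν * z) +
      (1 - (-X0 - X1)) / 3 * (-2 * (-a0 - a1) + ν * z) = M + ν * z := by rw [e]; ring
  have s' : (1 - X0) / 3 * (M + ν * x3) + (1 - X1) / 3 * (M + ν * x3) +
      (1 - (-X0 - X1)) / 3 * (M + ν * x3) = M + ν * x3 := by ring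
  linarith

/-- beyond the edge: the weighted edge inequalities. -/
lemma ND.edge (N : ND h h' z X0 X1 x3 a0 a1 ν M) (h0 : X0 ≤ 1) (h1 : X1 ≤ 1)
    (hX : -X0 - X1 ≤ -(1 / 2)) :
    ν * (h - x3) ≤ (-a0 - a1) * (-X0 - X1 + 1 / 2) ∧
      -ν * (h' + x3) ≤ (-a0 - a1) * (-X0 - X1 + 1 / 2) := by
  have e := N.hM
  -- weights `1/2 + E/3`, `1/2 - E/3`, `E = X0 - X1`
  have w0 : 0 ≤ 1 / 2 + (X0 - X1) / 3 := by linarith
  have w1 : 0 ≤ 1 / 2 - (X0 - X1) / 3 := by linarith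
  have p0 := mul_le_mul_of_nonneg_left N.t0 w0
  have p1 := mul_le_mul_of_nonneg_left N.t1 w1
  have q0 := mul_le_mul_of_nonneg_left N.b0 w0
  have q1 := mul_le_mul_of_nonneg_left N.b1 w1
  have s1 : (1 / 2 + (X0 - X1) / 3) * (a0 + ν * h) + (1 / 2 - (X0 - X1) / 3) * (a1 + ν * h) =
      M + ν * h - (-a0 - a1) * (-X0 - X1 + 1 / 2) := by rw [e]; ring
  have s2 : (1 / 2 + (X0 - X1) / 3) * (M + ν * x3) + (1 / 2 - (X0 - X1) / 3) * (M + ν * x3) =
      M + ν * x3 := by ring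
  have s3 : (1 / 2 + (X0 - X1) / 3) * (a0 - ν * h') + (1 / 2 - (X0 - X1) / 3) * (a1 - ν * h') =
      M - ν * h' - (-a0 - a1) * (-X0 - X1 + 1 / 2) := by rw [e]; ring
  constructor
  · linarith
  · linarith

/-- beyond the edge `a_2 < 0`. -/
lemma ND.neg (N : ND h h' z X0 X1 x3 a0 a1 ν M) (h0 : X0 ≤ 1) (h1 : X1 ≤ 1)
    (hX : -X0 - X1 < -(1 / 2)) (ht : x3 < h) (hb : -h' < x3) : -a0 - a1 < 0 := by
  obtain ⟨e1, e2⟩ := N.edge h0 h1 hX.le
  by_contra hcon
  push Not at hcon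
  have hle : (-a0 - a1) * (-X0 - X1 + 1 / 2) ≤ 0 :=
    mul_nonpos_of_nonneg_of_nonpos hcon (by linarith)
  have hν : ν = 0 := by
    rcases lt_trichotomy ν 0 with h3 | h3 | h3
    · nlinarith [mul_pos (neg_pos.mpr h3) (by linarith : 0 < h' + x3)]
    · exact h3
    · nlinarith [mul_pos h3 (by linarith : 0 < h - x3)]
  subst hν
  have ha : (-a0 - a1) * (-X0 - X1 + 1 / 2) = 0 := by linarith
  have ha2 : -a0 - a1 = 0 := (mul_eq_zero.mp ha).resolve_right (by linarith)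
  have ha1 : a1 = -a0 := by linarith
  have t0 := N.t0
  have t1 := N.t1
  have e := N.hM
  rw [ha1] at t1 e
  have e' : M = 2 / 3 * (X0 - X1) * a0 := by rw [e]; ring
  rw [e'] at t0 t1
  have hE1 : 0 < 3 / 2 - (X0 - X1) := by linarith
  have hE2 : 0 < 3 / 2 + (X0 - X1) := by linarith
  have ha0 : a0 = 0 := by
    rcases lt_trichotomy a0 0 with h3 | h3 | h3
    · nlinarith [mul_pos (neg_pos.mpr h3) hE2]
    · exact h3
    · nlinarith [mul_pos h3 hE1]
  rcases N.ne with h5 | h5 | h5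
  · exact h5 ha0
  · exact h5 (by rw [ha1, ha0]; ring)
  · exact h5 rfl

/-- over the triangle: in the top face. -/
lemma ND.top (N : ND h h' z X0 X1 x3 a0 a1 ν M) (hX0 : -(1 / 2) ≤ X0) (hX1 : -(1 / 2) ≤ X1)
    (hX2 : -(1 / 2) ≤ -X0 - X1) (h20 : -X0 - X1 ≤ X0) (h21 : -X0 - X1 ≤ X1)
    (ht : x3 = h) (hh : -h' < h) (hz : z ≤ h) {τ : ℝ} (hτ : h - z < 3 * τ) (hτ0 : 0 < τ) :
    -a0 - a1 < τ * ν := by
  have e := N.hM
  subst ht
  have hν : 0 ≤ ν := by
    -- `(p, -h')` is in `K`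
    have p0 := mul_le_mul_of_nonneg_left N.b0 (by linarith : 0 ≤ (1 + 2 * X0) / 3)
    have p1 := mul_le_mul_of_nonneg_left N.b1 (by linarith : 0 ≤ (1 + 2 * X1) / 3)
    have p2 := mul_le_mul_of_nonneg_left N.b2 (by linarith : 0 ≤ (1 + 2 * (-X0 - X1)) / 3)
    have s : (1 + 2 * X0) / 3 * (a0 - ν * h') + (1 + 2 * X1) / 3 * (a1 - ν * h') +
        (1 + 2 * (-X0 - X1)) / 3 * ((-a0 - a1) - ν * h') = M - ν * h' := by rw [e]; ring
    have s' : (1 + 2 * X0) / 3 * (M + ν * x3) + (1 + 2 * X1) / 3 * (M + ν * x3) +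
        (1 + 2 * (-X0 - X1)) / 3 * (M + ν * x3) = M + ν * x3 := by ring
    have : 0 ≤ ν * (x3 + h') := by linarith
    by_contra hc
    push Not at hc
    nlinarith [mul_neg_of_neg_of_pos hc (by linarith : 0 < x3 + h')]
  have t0 : a0 ≤ M := by linarith [N.t0]
  have t1 : a1 ≤ M := by linarith [N.t1]
  have t2 : -a0 - a1 ≤ M := by linarith [N.t2]
  rcases eq_or_lt_of_le hX2 with hX | hX
  · -- on the edge
    have hX1' : X1 = 1 / 2 - X0 := by linarith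
    subst hX1'
    -- weights of `p`: `λ0 = (1 + 2 X0)/3`, `λ1 = (2 - 2 X0)/3`
    have w0 : 0 ≤ (1 + 2 * X0) / 3 := by linarith
    have w1 : 0 ≤ (2 - 2 * X0) / 3 := by linarith
    have p0 := mul_le_mul_of_nonneg_left N.f0 w1
    have p1 := mul_le_mul_of_nonneg_left N.f1 w0
    have s : (2 - 2 * X0) / 3 * (-2 * a0 + ν * z) + (1 + 2 * X0) / 3 * (-2 * a1 + ν * z) =
        2 * (-a0 - a1) + 2 * M + ν * z := by rw [e]; ring
    have s' : (2 - 2 * X0) / 3 * (M + ν * x3) + (1 + 2 * X0) / 3 * (M + ν * x3) = M + ν * x3 := by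
      ring
    have key : 2 * (-a0 - a1) + M ≤ ν * (x3 - z) := by linarith
    rcases eq_or_lt_of_le hν with h3 | h3
    · -- `ν = 0`
      rw [← h3] at key ⊢
      rw [mul_zero]
      by_contra hc
      push Not at hc
      have a2 : -a0 - a1 = 0 := by linarith
      have M0 : M = 0 := by linarith
      have f0 := N.f0
      have f1 := N.f1
      rw [← h3] at f0 f1
      have z0 : a0 = 0 := by linarith
      have z1 : a1 = 0 := by linarith
      rcases N.ne with h5 | h5 | h5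
      · exact h5 z0
      · exact h5 z1
      · exact h5 h3.symm
    · nlinarith [mul_lt_mul_of_pos_left hτ h3]
  · -- in the interior
    have q0 := mul_nonneg (by linarith : 0 ≤ 1 + 2 * X0) (sub_nonneg.mpr t0)
    have q1 := mul_nonneg (by linarith : 0 ≤ 1 + 2 * X1) (sub_nonneg.mpr t1)
    have q2 := mul_nonneg (by linarith : 0 ≤ 1 + 2 * (-X0 - X1)) (sub_nonneg.mpr t2)
    have id1 : (1 + 2 * X0) * (M - a0) + (1 + 2 * X1) * (M - a1) +
        (1 + 2 * (-X0 - X1)) * (M - (-a0 - a1)) = 0 := by rw [e]; ring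
    have z0 := (mul_eq_zero.mp (by linarith : (1 + 2 * X0) * (M - a0) = 0)).resolve_left
      (by linarith : (0 : ℝ) < 1 + 2 * X0).ne'
    have z1 := (mul_eq_zero.mp (by linarith : (1 + 2 * X1) * (M - a1) = 0)).resolve_left
      (by linarith : (0 : ℝ) < 1 + 2 * X1).ne'
    have z2 := (mul_eq_zero.mp (by linarith : (1 + 2 * (-X0 - X1)) * (M - (-a0 - a1)) = 0)).resolve_left
      (by linarith : (0 : ℝ) < 1 + 2 * (-X0 - X1)).ne'
    have y0 : a0 = 0 := by linarith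
    have y1 : a1 = 0 := by linarith
    have hν' : 0 < ν := by
      rcases N.ne with h5 | h5 | h5
      · exact absurd y0 h5
      · exact absurd y1 h5
      · exact lt_of_le_of_ne hν (Ne.symm h5)
    rw [y0, y1]
    have := mul_pos hτ0 hν'
    linarith

/-- flip. -/
lemma ND.flip (N : ND h h' z X0 X1 x3 a0 a1 ν M) : ND h' h (-z) X0 X1 (-x3) a0 a1 (-ν) M := by
  refine ⟨N.hM, ?_, ?_, ?_, ?_, ?_, ?_, ?_, ?_, ?_, ?_⟩
  · have := N.b0; linarith
  · have := N.b1; linarith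
  · have := N.b2; linarith
  · have := N.t0; linarith
  · have := N.t1; linarith
  · have := N.t2; linarith
  · have := N.f0; linarith
  · have := N.f1; linarith
  · have := N.f2; linarith
  · rcases N.ne with h5 | h5 | h5
    · exact Or.inl h5
    · exact Or.inr (Or.inl h5)
    · exact Or.inr (Or.inr (neg_ne_zero.mpr h5))

/-- over the triangle, strictly between the faces: `ν = 0` and `a_2 < 0`. -/
lemma ND.mid (N : ND h h' z X0 X1 x3 a0 a1 ν M) (hX0 : -(1 / 2) ≤ X0) (hX1 : -(1 / 2) ≤ X1)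
    (hX2 : -(1 / 2) ≤ -X0 - X1) (h20 : -X0 - X1 ≤ X0) (h21 : -X0 - X1 ≤ X1)
    (ht : x3 < h) (hb : -h' < x3) : ν = 0 ∧ -a0 - a1 < 0 := by
  have e := N.hM
  have w0 : 0 ≤ (1 + 2 * X0) / 3 := by linarith
  have w1 : 0 ≤ (1 + 2 * X1) / 3 := by linarith
  have w2 : 0 ≤ (1 + 2 * (-X0 - X1)) / 3 := by linarith
  have hν : ν = 0 := by
    have p0 := mul_le_mul_of_nonneg_left N.b0 w0
    have p1 := mul_le_mul_of_nonneg_left N.b1 w1
    have p2 := mul_le_mul_of_nonneg_left N.b2 w2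
    have s : (1 + 2 * X0) / 3 * (a0 - ν * h') + (1 + 2 * X1) / 3 * (a1 - ν * h') +
        (1 + 2 * (-X0 - X1)) / 3 * ((-a0 - a1) - ν * h') = M - ν * h' := by rw [e]; ring
    have s' : (1 + 2 * X0) / 3 * (M + ν * x3) + (1 + 2 * X1) / 3 * (M + ν * x3) +
        (1 + 2 * (-X0 - X1)) / 3 * (M + ν * x3) = M + ν * x3 := by ring
    have q0 := mul_le_mul_of_nonneg_left N.t0 w0
    have q1 := mul_le_mul_of_nonneg_left N.t1 w1
    have q2 := mul_le_mul_of_nonneg_left N.t2 w2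
    have u : (1 + 2 * X0) / 3 * (a0 + ν * h) + (1 + 2 * X1) / 3 * (a1 + ν * h) +
        (1 + 2 * (-X0 - X1)) / 3 * ((-a0 - a1) + ν * h) = M + ν * h := by rw [e]; ring
    have k1 : 0 ≤ ν * (x3 + h') := by linarith
    have k2 : ν * (h - x3) ≤ 0 := by linarith
    rcases lt_trichotomy ν 0 with h3 | h3 | h3
    · nlinarith [mul_neg_of_neg_of_pos h3 (by linarith : 0 < x3 + h')]
    · exact h3
    · nlinarith [mul_pos h3 (by linarith : 0 < h - x3)]
  refine ⟨hν, ?_⟩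
  subst hν
  have t0 : a0 ≤ M := by linarith [N.t0]
  have t1 : a1 ≤ M := by linarith [N.t1]
  have t2 : -a0 - a1 ≤ M := by linarith [N.t2]
  rcases eq_or_lt_of_le hX2 with hX | hX
  · have hX1' : X1 = 1 / 2 - X0 := by linarith
    subst hX1'
    have v1 : 0 ≤ (2 - 2 * X0) / 3 := by linarith
    have p0 := mul_le_mul_of_nonneg_left N.f0 v1
    have p1 := mul_le_mul_of_nonneg_left N.f1 w0
    have s : (2 - 2 * X0) / 3 * (-2 * a0 + 0 * z) + (1 + 2 * X0) / 3 * (-2 * a1 + 0 * z) =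
        2 * (-a0 - a1) + 2 * M := by rw [e]; ring
    have s' : (2 - 2 * X0) / 3 * (M + 0 * x3) + (1 + 2 * X0) / 3 * (M + 0 * x3) = M := by
      ring
    have key : 2 * (-a0 - a1) + M ≤ 0 := by linarith
    by_contra hc
    push Not at hc
    have a2 : -a0 - a1 = 0 := by linarith
    have M0 : M = 0 := by linarith
    have f0 := N.f0
    have f1 := N.f1
    have z0 : a0 = 0 := by linarith
    have z1 : a1 = 0 := by linarith
    rcases N.ne with h5 | h5 | h5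
    · exact h5 z0
    · exact h5 z1
    · exact h5 rfl
  · exfalso
    have q0 := mul_nonneg (by linarith : 0 ≤ 1 + 2 * X0) (sub_nonneg.mpr t0)
    have q1 := mul_nonneg (by linarith : 0 ≤ 1 + 2 * X1) (sub_nonneg.mpr t1)
    have q2 := mul_nonneg (by linarith : 0 ≤ 1 + 2 * (-X0 - X1)) (sub_nonneg.mpr t2)
    have id1 : (1 + 2 * X0) * (M - a0) + (1 + 2 * X1) * (M - a1) +
        (1 + 2 * (-X0 - X1)) * (M - (-a0 - a1)) = 0 := by rw [e]; ring
    have z0 := (mul_eq_zero.mp (by linarith : (1 + 2 * X0) * (M - a0) = 0)).resolve_left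
      (by linarith : (0 : ℝ) < 1 + 2 * X0).ne'
    have z1 := (mul_eq_zero.mp (by linarith : (1 + 2 * X1) * (M - a1) = 0)).resolve_left
      (by linarith : (0 : ℝ) < 1 + 2 * X1).ne'
    have z2 := (mul_eq_zero.mp (by linarith : (1 + 2 * (-X0 - X1)) * (M - (-a0 - a1)) = 0)).resolve_left
      (by linarith : (0 : ℝ) < 1 + 2 * (-X0 - X1)).ne'
    have y0 : a0 = 0 := by linarith
    have y1 : a1 = 0 := by linarith
    rcases N.ne with h5 | h5 | h5
    · exact h5 y0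
    · exact h5 y1
    · exact h5 rfl

end Pool.Agent.Lib.MP_5e7226_co.RT
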