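import Pool.Agent.Lib.MP_5e7226_co.RT.R35

set_option autoImplicit false

open Set Filter Topology

namespace Pool.Agent.Lib.MP_5e7226_co.RT

/-- the angle of a functional which is maximal at `q` among `q, ω q, ω² q`. -/
lemma r34_ang {q m : ℂ} {t r : ℝ} (hr : 0 < r) (hq : q = (r : ℂ) * eA t) (hm0 : m ≠ 0)
    (e1 : dotC m (eA (2 * Real.pi / 3) * q) ≤ dotC m q)
    (e2 : dotC m (eA (2 * Real.pi / 3) * (eA (2 * Real.pi / 3) * q)) ≤ dotC m q) :
    ∃ (c s : ℝ), 0 < c ∧ |s| ≤ Real.pi / 3 ∧ m = (c : ℂ) * eA (t + s) := by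
  have hc : 0 < ‖m‖ := norm_pos_iff.mpr hm0
  set s : ℝ := Complex.arg (m / eA t) with hs
  have hms : m = (‖m‖ : ℂ) * eA (t + s) := by
    have h := Complex.norm_mul_exp_arg_mul_I (m / eA t)
    have hn : ‖m / eA t‖ = ‖m‖ := by rw [norm_div, norm_eA, div_one]
    rw [hn, ← hs] at h
    rw [eA_add, eA_eq_exp s]
    have h0 := eA_ne_zero t
    calc m = eA t * (m / eA t) := by field_simp
      _ = _ := by rw [← h]; ring
  have hlo : -Real.pi < s := Complex.neg_pi_lt_arg _
  have hhi : s ≤ Real.pi := Complex.arg_le_pi _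
  refine ⟨‖m‖, s, hc, ?_, hms⟩
  have f0 : dotC m q = ‖m‖ * r * Real.cos s := by
    rw [hms, hq, dotC_ofReal_left, dotC_ofReal_right, dotC_eA]
    rw [← hms]
    have : t + s - t = s := by ring
    rw [this]; ring
  have f1 : dotC m (eA (2 * Real.pi / 3) * q) = ‖m‖ * r * Real.cos (s - 2 * Real.pi / 3) := by
    have : eA (2 * Real.pi / 3) * q = (r : ℂ) * eA (t + 2 * Real.pi / 3) := by
      rw [hq, eA_add]; ring
    rw [this]
    conv_lhs => rw [hms]
    rw [dotC_ofReal_left, dotC_ofReal_right, dotC_eA]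
    have : t + s - (t + 2 * Real.pi / 3) = s - 2 * Real.pi / 3 := by ring
    rw [this]; ring
  have f2 : dotC m (eA (2 * Real.pi / 3) * (eA (2 * Real.pi / 3) * q)) =
      ‖m‖ * r * Real.cos (s + 2 * Real.pi / 3) := by
    have : eA (2 * Real.pi / 3) * (eA (2 * Real.pi / 3) * q) =
        (r : ℂ) * eA (t + 2 * Real.pi / 3 + 2 * Real.pi / 3) := by
      rw [hq, eA_add, eA_add]; ring
    rw [this]
    conv_lhs => rw [hms]
    rw [dotC_ofReal_left, dotC_ofReal_right, dotC_eA]
    have : t + s - (t + 2 * Real.pi / 3 + 2 * Real.pi / 3) = s + 2 * Real.pi / 3 - 2 * Real.pi := by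
      ring
    rw [this, Real.cos_sub_two_pi]; ring
  have hmr : 0 < ‖m‖ * r := mul_pos hc hr
  rw [f0, f1] at e1
  rw [f0, f2] at e2
  have g1 : Real.cos (s - 2 * Real.pi / 3) ≤ Real.cos s := le_of_mul_le_mul_left e1 hmr
  have g2 : Real.cos (s + 2 * Real.pi / 3) ≤ Real.cos s := le_of_mul_le_mul_left e2 hmr
  have hpi := Real.pi_pos
  have hsin : 0 < Real.sin (Real.pi / 3) :=
    Real.sin_pos_of_pos_of_lt_pi (by positivity) (by linarith)
  have k1 : Real.cos s - Real.cos (s - 2 * Real.pi / 3) =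
      -2 * Real.sin (s - Real.pi / 3) * Real.sin (Real.pi / 3) := by
    have := Real.cos_sub_cos s (s - 2 * Real.pi / 3)
    rw [this]
    have a1 : (s + (s - 2 * Real.pi / 3)) / 2 = s - Real.pi / 3 := by ring
    have a2 : (s - (s - 2 * Real.pi / 3)) / 2 = Real.pi / 3 := by ring
    rw [a1, a2]
  have k2 : Real.cos s - Real.cos (s + 2 * Real.pi / 3) =
      2 * Real.sin (s + Real.pi / 3) * Real.sin (Real.pi / 3) := by
    have := Real.cos_sub_cos s (s + 2 * Real.pi / 3)
    rw [this]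
    have a1 : (s + (s + 2 * Real.pi / 3)) / 2 = s + Real.pi / 3 := by ring
    have a2 : (s - (s + 2 * Real.pi / 3)) / 2 = -(Real.pi / 3) := by ring
    rw [a1, a2, Real.sin_neg]; ring
  rw [abs_le]
  constructor
  · by_contra hcon
    push Not at hcon
    have : Real.sin (s + Real.pi / 3) < 0 :=
      Real.sin_neg_of_neg_of_neg_pi_lt (by linarith) (by linarith)
    nlinarith [mul_neg_of_neg_of_pos this hsin]
  · by_contra hcon
    push Not at hcon
    have : 0 < Real.sin (s - Real.pi / 3) :=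
      Real.sin_pos_of_pos_of_lt_pi (by linarith) (by linarith)
    nlinarith [mul_pos this hsin]

lemma r34_omega3 (z : ℂ) :
    eA (2 * Real.pi / 3) * (eA (2 * Real.pi / 3) * (eA (2 * Real.pi / 3) * z)) = z := by
  rw [← mul_assoc, ← mul_assoc, ← eA_add, ← eA_add]
  have : 2 * Real.pi / 3 + 2 * Real.pi / 3 + 2 * Real.pi / 3 = 2 * Real.pi := by ring
  rw [this]
  have h2 : eA (2 * Real.pi) = 1 := by
    apply Complex.ext <;> simp
  rw [h2, one_mul]

lemma r34_rotmem {K : Set Q3} (hK : RB 3 K) {x : Q3} (hx : x ∈ K) :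
    ((eA (2 * Real.pi / 3) * x.1, x.2) : Q3) ∈ K := by
  have := hK.rot x hx
  simpa using this

/-- rotation of a normal. -/
lemma r34_nmrot {K : Set Q3} (hK : RB 3 K) {x n : Q3} (h : Nm K x n) :
    Nm K (eA (2 * Real.pi / 3) * x.1, x.2) (eA (2 * Real.pi / 3) * n.1, n.2) := by
  refine ⟨fun h0 => h.1 ?_, fun y hy => ?_⟩
  · have h1 := congrArg Prod.fst h0
    have h2 := congrArg Prod.snd h0
    simp only [Prod.fst_zero, Prod.snd_zero, mul_eq_zero] at h1 h2
    exact Prod.ext (h1.resolve_left (eA_ne_zero _)) h2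
  · have h1 := r34_rotmem hK (r34_rotmem hK hy)
    have h2 := h.2 _ h1
    have e := r34_omega3 y.1
    simp only [pr] at h2 ⊢
    have e2 : dotC (eA (2 * Real.pi / 3) * n.1) y.1 =
        dotC n.1 (eA (2 * Real.pi / 3) * (eA (2 * Real.pi / 3) * y.1)) := by
      conv_lhs => rw [← e]
      rw [dotC_mul_mul, norm_eA]; ring
    rw [e2, dotC_mul_mul, norm_eA]
    linarith

lemma r34_add {K : Set Q3} {x n n' : Q3} (h : Nm K x n) (h' : Nm K x n') (h0 : n + n' ≠ 0) :
    Nm K x (n + n') := by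
  refine ⟨h0, fun y hy => ?_⟩
  have h1 := h.2 y hy
  have h2 := h'.2 y hy
  simp only [pr, Prod.fst_add, Prod.snd_add, dotC_add_left] at *
  linarith

/-- no normals on the axis below. -/
lemma r34_axis {K : Set Q3} (hK : RB 3 K) {x : Q3}
    (hn : ∀ n, Nm K x n → n.2 < 0) (hn1 : ∀ n, Nm K x n → n.1 ≠ 0) (h0 : x.1 = 0) (n : Q3) :
    ¬ Nm K x n := by
  intro h
  have hx1 : ((eA (2 * Real.pi / 3) * x.1, x.2) : Q3) = x := by
    apply Prod.ext
    · simp [h0]
    · rfl
  have h1 := r34_nmrot hK h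
  rw [hx1] at h1
  have h2 := r34_nmrot hK h1
  rw [hx1] at h2
  have a := hn n h
  have b1 : n + (eA (2 * Real.pi / 3) * n.1, n.2) ≠ 0 := by
    intro hc
    have := congrArg Prod.snd hc
    simp only [Prod.snd_add, Prod.snd_zero] at this
    linarith
  have h3 := r34_add h h1 b1
  have b2 : n + (eA (2 * Real.pi / 3) * n.1, n.2) +
      (eA (2 * Real.pi / 3) * (eA (2 * Real.pi / 3) * n.1, n.2).1,
        ((eA (2 * Real.pi / 3) * n.1, n.2) : Q3).2) ≠ 0 := by
    intro hc
    have := congrArg Prod.snd hc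
    simp only [Prod.snd_add, Prod.snd_zero] at this
    linarith
  have h4 := r34_add h3 h2 b2
  apply hn1 _ h4
  simp only [Prod.fst_add]
  have e : (1 : ℂ) + eA (2 * Real.pi / 3) + eA (2 * Real.pi / 3) * eA (2 * Real.pi / 3) = 0 := by
    have e3 := r34_omega3 1
    rw [mul_one] at e3
    have hne : eA (2 * Real.pi / 3) ≠ 1 := by
      intro hc
      have := congrArg Complex.im hc
      rw [eA_im, Complex.one_im] at this
      have hs : 0 < Real.sin (2 * Real.pi / 3) :=
        Real.sin_pos_of_pos_of_lt_pi (by positivity) (by linarith [Real.pi_pos])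
      linarith
    have : (eA (2 * Real.pi / 3) - 1) * ((1 : ℂ) + eA (2 * Real.pi / 3) +
        eA (2 * Real.pi / 3) * eA (2 * Real.pi / 3)) = 0 := by
      linear_combination e3
    exact (mul_eq_zero.mp this).resolve_left (sub_ne_zero.mpr hne)
  linear_combination n.1 * e

theorem lower_served {K : Set Q3} (hK : RB 3 K) {x : Q3} (hx : x ∈ K)
    (hn : ∀ n, Nm K x n → n.2 < 0) (hn1 : ∀ n, Nm K x n → n.1 ≠ 0) (f : ℝ) {τ : ℝ} (hτ : 0 < τ) :
    (∃ j, Sv K x (eA (tw f j), 0)) ∨ ∃ j, Sv K x (eA (tw (f + Real.pi / 3) j), -τ) := by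
  by_cases h0 : x.1 = 0
  · exact Or.inl ⟨0, fun n h => absurd h (r34_axis hK hn hn1 h0 n)⟩
  have hpi := Real.pi_pos
  set t : ℝ := Complex.arg x.1 with ht
  have hr : 0 < ‖x.1‖ := norm_pos_iff.mpr h0
  have hqt : x.1 = (‖x.1‖ : ℂ) * eA t := by
    rw [eA_eq_exp, ht]; exact (Complex.norm_mul_exp_arg_mul_I x.1).symm
  -- the normals
  have key : ∀ n, Nm K x n → ∃ (c s : ℝ), 0 < c ∧ |s| ≤ Real.pi / 3 ∧
      n.1 = (c : ℂ) * eA (t + s) := by
    intro n h
    have r1 := r34_rotmem hK hx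
    have r2 := r34_rotmem hK r1
    have a1 := h.2 _ r1
    have a2 := h.2 _ r2
    simp only [pr] at a1 a2
    exact r34_ang hr hqt (hn1 n h) (by linarith) (by linarith)
  -- odd multiples
  have odd : ∀ l : ℤ, |t - (f + Real.pi / 3 + l * (2 * Real.pi / 3))| ≤ Real.pi / 6 →
      ∃ j, Sv K x (eA (tw (f + Real.pi / 3) j), -τ) := by
    intro l hl
    obtain ⟨j, hj⟩ := r35_tw (f + Real.pi / 3) l
    refine ⟨j, fun n h => ?_⟩
    obtain ⟨c, s, hc, hs, hns⟩ := key n h
    have h2 := hn n h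
    simp only [pr]
    rw [hj, hns, dotC_ofReal_left, dotC_eA]
    rw [abs_le] at hl hs
    have hcos : 0 ≤ Real.cos (t + s - (f + Real.pi / 3 + l * (2 * Real.pi / 3))) :=
      Real.cos_nonneg_of_mem_Icc ⟨by linarith, by linarith⟩
    nlinarith [mul_nonneg hc.le hcos, mul_pos (neg_pos.mpr h2) hτ]
  have even : ∀ l : ℤ, |t - (f + l * (2 * Real.pi / 3))| < Real.pi / 6 →
      ∃ j, Sv K x (eA (tw f j), 0) := by
    intro l hl
    obtain ⟨j, hj⟩ := r35_tw f l
    refine ⟨j, fun n h => ?_⟩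
    obtain ⟨c, s, hc, hs, hns⟩ := key n h
    simp only [pr]
    rw [hj, hns, dotC_ofReal_left, dotC_eA]
    rw [abs_le] at hs
    rw [abs_lt] at hl
    have hcos : 0 < Real.cos (t + s - (f + l * (2 * Real.pi / 3))) :=
      Real.cos_pos_of_mem_Ioo ⟨by linarith, by linarith⟩
    nlinarith [mul_pos hc hcos]
  set k : ℤ := ⌊(t - f) / (2 * Real.pi / 3)⌋ with hk
  have hk1 : (k : ℝ) * (2 * Real.pi / 3) ≤ t - f := by
    have := Int.floor_le ((t - f) / (2 * Real.pi / 3))
    rw [← hk, le_div_iff₀ (by positivity)] at this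
    exact this
  have hk2 : t - f < ((k : ℝ) + 1) * (2 * Real.pi / 3) := by
    have := Int.lt_floor_add_one ((t - f) / (2 * Real.pi / 3))
    rw [← hk, div_lt_iff₀ (by positivity)] at this
    exact this
  by_cases c1 : t - f - k * (2 * Real.pi / 3) < Real.pi / 6
  · left
    exact even k (by rw [abs_lt]; constructor <;> linarith)
  by_cases c2 : t - f - k * (2 * Real.pi / 3) ≤ Real.pi / 2
  · right
    push Not at c1
    exact odd k (by rw [abs_le]; constructor <;> linarith)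
  · left
    push Not at c2
    apply even (k + 1)
    push_cast
    rw [abs_lt]; constructor <;> linarith

end Pool.Agent.Lib.MP_5e7226_co.RT
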