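import Pool.Agent.Lib.MP_5e7226_co.RT.IIIDefs

set_option autoImplicit false

open Set Filter Topology

namespace Pool.Agent.Lib.MP_5e7226_co.RT

lemma r35_sin (u v w : ℝ) (z : ℂ) : Real.sin (w - u) * dotC (eA v) z =
    Real.sin (w - v) * dotC (eA u) z + Real.sin (v - u) * dotC (eA w) z := by
  simp only [dotC, eA_re, eA_im, Real.sin_sub]
  have e1 := Real.sin_sq_add_cos_sq v
  have e2 := Real.sin_sq_add_cos_sq u
  have e3 := Real.sin_sq_add_cos_sq w
  ring_nf

lemma r35_cone {T : Set ℂ} {q : ℂ} {u v w : ℝ} (h1 : NP T q (eA u)) (h2 : NP T q (eA w))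
    (hu : u ≤ v) (hv : v ≤ w) (hw : w < u + Real.pi) : NP T q (eA v) := by
  refine ⟨h1.1, eA_ne_zero v, fun y hy => ?_⟩
  rcases eq_or_lt_of_le (hu.trans hv) with h | h
  · have : v = u := by linarith
    rw [this]; exact h1.2.2 y hy
  · have hs : 0 < Real.sin (w - u) := Real.sin_pos_of_pos_of_lt_pi (by linarith) (by linarith)
    have hs1 : 0 ≤ Real.sin (w - v) := Real.sin_nonneg_of_nonneg_of_le_pi (by linarith) (by linarith)
    have hs2 : 0 ≤ Real.sin (v - u) := Real.sin_nonneg_of_nonneg_of_le_pi (by linarith) (by linarith)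
    have e := r35_sin u v w (y - q)
    have a1 : dotC (eA u) (y - q) ≤ 0 := by rw [dotC_sub_right]; linarith [h1.2.2 y hy]
    have a2 : dotC (eA w) (y - q) ≤ 0 := by rw [dotC_sub_right]; linarith [h2.2.2 y hy]
    have a3 : Real.sin (w - u) * dotC (eA v) (y - q) ≤ 0 := by
      rw [e]; nlinarith [mul_nonneg hs1 (neg_nonneg.mpr a1), mul_nonneg hs2 (neg_nonneg.mpr a2)]
    have a4 : dotC (eA v) (y - q) ≤ 0 := by
      by_contra hc
      push Not at hc
      have := mul_pos hs hc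
      linarith
    rw [dotC_sub_right] at a4
    linarith

lemma r35_zero {u v : ℝ} {z : ℂ} (h1 : dotC (eA u) z = 0) (h2 : dotC (eA v) z = 0)
    (hs : Real.sin (v - u) ≠ 0) : z = 0 := by
  simp only [dotC, eA_re, eA_im] at h1 h2
  rw [Real.sin_sub] at hs
  have hx : (Real.sin v * Real.cos u - Real.cos v * Real.sin u) * z.re = 0 := by
    linear_combination (Real.sin v) * h1 - (Real.sin u) * h2
  have hy : (Real.sin v * Real.cos u - Real.cos v * Real.sin u) * z.im = 0 := by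
    linear_combination (-Real.cos v) * h1 + (Real.cos u) * h2
  apply Complex.ext
  · simpa using (mul_eq_zero.mp hx).resolve_left hs
  · simpa using (mul_eq_zero.mp hy).resolve_left hs

/-- corners with a common arc coincide. -/
theorem Cor_glue' {T : Set ℂ} {q q' : ℂ} {u w v : ℝ} (h1 : NP T q (eA u))
    (h2 : NP T q (eA w)) (h3 : NP T q' (eA v)) (hu : u < v) (hv : v < w) (hw : w < u + Real.pi) :
    NP T q (eA v) ∧ q' = q := by
  have hc := r35_cone h1 h2 hu.le hv.le hw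
  refine ⟨hc, ?_⟩
  have hs1 : 0 < Real.sin (w - v) := Real.sin_pos_of_pos_of_lt_pi (by linarith) (by linarith)
  have hs2 : 0 < Real.sin (v - u) := Real.sin_pos_of_pos_of_lt_pi (by linarith) (by linarith)
  have e := r35_sin u v w (q' - q)
  have a0 : dotC (eA v) (q' - q) = 0 := by
    rw [dotC_sub_right]
    have := hc.2.2 q' h3.1
    have := h3.2.2 q hc.1
    linarith
  have a1 : dotC (eA u) (q' - q) ≤ 0 := by rw [dotC_sub_right]; linarith [h1.2.2 q' h3.1]
  have a2 : dotC (eA w) (q' - q) ≤ 0 := by rw [dotC_sub_right]; linarith [h2.2.2 q' h3.1]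
  rw [a0, mul_zero] at e
  have b1 : dotC (eA u) (q' - q) = 0 := by
    rcases eq_or_lt_of_le a1 with h | h
    · exact h
    · nlinarith [mul_neg_of_pos_of_neg hs1 h, mul_nonneg hs2.le (neg_nonneg.mpr a2)]
  have := r35_zero b1 a0 hs2.ne'
  exact sub_eq_zero.mp this

theorem Cor_glue {T : Set ℂ} (_hT : P3 T) {q q' : ℂ} {u w v : ℝ} (h1 : NP T q (eA u))
    (h2 : NP T q (eA w)) (h3 : NP T q' (eA v)) (hu : u < v) (hv : v < w) (hw : w < u + Real.pi) :
    NP T q (eA v) ∧ q' = q := Cor_glue' h1 h2 h3 hu hv hw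

/-- the normals of `T` at `q` are within 60 degrees of `q`. -/
theorem NP_angle {T : Set ℂ} (hT : P3 T) {q : ℂ} {t : ℝ} {r : ℝ} (hr : 0 < r)
    (hq : q = (r : ℂ) * eA t) {m : ℂ} (hm : NP T q m) :
    ∃ (c s : ℝ), 0 < c ∧ |s| ≤ Real.pi / 3 ∧ m = (c : ℂ) * eA (t + s) := by
  obtain ⟨hqT, hm0, hmax⟩ := hm
  have hc : 0 < ‖m‖ := norm_pos_iff.mpr hm0
  set s : ℝ := Complex.arg (m / eA t) with hs
  have hms : m = (‖m‖ : ℂ) * eA (t + s) := by
    have h := Complex.norm_mul_exp_arg_mul_I (m / eA t)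
    have hn : ‖m / eA t‖ = ‖m‖ := by rw [norm_div, norm_eA, div_one]
    rw [hn, ← hs] at h
    rw [eA_add, eA_eq_exp s]
    have h0 := eA_ne_zero t
    calc m = eA t * (m / eA t) := by field_simp
      _ = _ := by rw [← h]; ring
  have hlo : -Real.pi < s := Complex.neg_pi_lt_arg _
  have hhi : s ≤ Real.pi := Complex.arg_le_pi _
  refine ⟨‖m‖, s, hc, ?_, hms⟩
  have hω := hT.rot q hqT
  have hω2 := hT.rot _ hω
  have e1 := hmax _ hω
  have e2 := hmax _ hω2
  have f0 : dotC m q = ‖m‖ * r * Real.cos s := by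
    rw [hms, hq, dotC_ofReal_left, dotC_ofReal_right, dotC_eA]
    rw [← hms]
    have : t + s - t = s := by ring
    rw [this]; ring
  have f1 : dotC m (eA (2 * Real.pi / 3) * q) = ‖m‖ * r * Real.cos (s - 2 * Real.pi / 3) := by
    have : eA (2 * Real.pi / 3) * q = (r : ℂ) * eA (t + 2 * Real.pi / 3) := by
      rw [hq, eA_add]; ring
    rw [this]
    conv_lhs => rw [hms]
    rw [dotC_ofReal_left, dotC_ofReal_right, dotC_eA]
    have : t + s - (t + 2 * Real.pi / 3) = s - 2 * Real.pi / 3 := by ring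
    rw [this]; ring
  have f2 : dotC m (eA (2 * Real.pi / 3) * (eA (2 * Real.pi / 3) * q)) =
      ‖m‖ * r * Real.cos (s + 2 * Real.pi / 3) := by
    have : eA (2 * Real.pi / 3) * (eA (2 * Real.pi / 3) * q) =
        (r : ℂ) * eA (t + 2 * Real.pi / 3 + 2 * Real.pi / 3) := by
      rw [hq, eA_add, eA_add]; ring
    rw [this]
    conv_lhs => rw [hms]
    rw [dotC_ofReal_left, dotC_ofReal_right, dotC_eA]
    have : t + s - (t + 2 * Real.pi / 3 + 2 * Real.pi / 3) = s + 2 * Real.pi / 3 - 2 * Real.pi := by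
      ring
    rw [this, Real.cos_sub_two_pi]; ring
  have hmr : 0 < ‖m‖ * r := mul_pos hc hr
  rw [f0, f1] at e1
  rw [f0, f2] at e2
  have g1 : Real.cos (s - 2 * Real.pi / 3) ≤ Real.cos s := le_of_mul_le_mul_left e1 hmr
  have g2 : Real.cos (s + 2 * Real.pi / 3) ≤ Real.cos s := le_of_mul_le_mul_left e2 hmr
  have hpi := Real.pi_pos
  have hsin : 0 < Real.sin (Real.pi / 3) :=
    Real.sin_pos_of_pos_of_lt_pi (by positivity) (by linarith)
  have k1 : Real.cos s - Real.cos (s - 2 * Real.pi / 3) =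
      -2 * Real.sin (s - Real.pi / 3) * Real.sin (Real.pi / 3) := by
    have := Real.cos_sub_cos s (s - 2 * Real.pi / 3)
    rw [this]
    have a1 : (s + (s - 2 * Real.pi / 3)) / 2 = s - Real.pi / 3 := by ring
    have a2 : (s - (s - 2 * Real.pi / 3)) / 2 = Real.pi / 3 := by ring
    rw [a1, a2]
  have k2 : Real.cos s - Real.cos (s + 2 * Real.pi / 3) =
      2 * Real.sin (s + Real.pi / 3) * Real.sin (Real.pi / 3) := by
    have := Real.cos_sub_cos s (s + 2 * Real.pi / 3)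
    rw [this]
    have a1 : (s + (s + 2 * Real.pi / 3)) / 2 = s + Real.pi / 3 := by ring
    have a2 : (s - (s + 2 * Real.pi / 3)) / 2 = -(Real.pi / 3) := by ring
    rw [a1, a2, Real.sin_neg]; ring
  rw [abs_le]
  constructor
  · by_contra hcon
    push Not at hcon
    have : Real.sin (s + Real.pi / 3) < 0 :=
      Real.sin_neg_of_neg_of_neg_pi_lt (by linarith) (by linarith)
    nlinarith [mul_neg_of_neg_of_pos this hsin]
  · by_contra hcon
    push Not at hcon
    have : 0 < Real.sin (s - Real.pi / 3) :=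
      Real.sin_pos_of_pos_of_lt_pi (by linarith) (by linarith)
    nlinarith [mul_pos this hsin]

lemma r35_rot {T : Set ℂ} (hT : P3 T) {q m : ℂ} (h : NP T q m) :
    NP T (eA (2 * Real.pi / 3) * q) (eA (2 * Real.pi / 3) * m) := by
  refine ⟨hT.rot q h.1, mul_ne_zero (eA_ne_zero _) h.2.1, fun y hy => ?_⟩
  have h1 := hT.rot _ (hT.rot y hy)
  have e : y = eA (2 * Real.pi / 3) * (eA (2 * Real.pi / 3) * (eA (2 * Real.pi / 3) * y)) := by
    rw [← mul_assoc, ← mul_assoc, ← eA_add, ← eA_add]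
    have : 2 * Real.pi / 3 + 2 * Real.pi / 3 + 2 * Real.pi / 3 = 2 * Real.pi := by ring
    rw [this]
    have h2 : eA (2 * Real.pi) = 1 := by
      apply Complex.ext <;> simp
    rw [h2, one_mul]
  rw [e, dotC_mul_mul, dotC_mul_mul, norm_eA]
  have := h.2.2 _ h1
  simpa using this

lemma r35_rotn {T : Set ℂ} (hT : P3 T) {q m : ℂ} (h : NP T q m) (n : ℕ) :
    NP T (eA (n * (2 * Real.pi / 3)) * q) (eA (n * (2 * Real.pi / 3)) * m) := by
  induction n with
  | zero => simpa [eA_zero] using h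
  | succ n ih =>
    have h2 := r35_rot hT ih
    have e : ∀ z : ℂ, eA (2 * Real.pi / 3) * (eA (n * (2 * Real.pi / 3)) * z) =
        eA ((n + 1 : ℕ) * (2 * Real.pi / 3)) * z := by
      intro z
      rw [← mul_assoc, ← eA_add]
      congr 2
      push_cast
      ring
    rw [e, e] at h2
    exact h2

lemma r35_per (x : ℝ) (k : ℤ) : eA (x + k * (2 * Real.pi)) = eA x := by
  apply Complex.ext
  · simp [Real.cos_add_int_mul_two_pi]
  · simp [Real.sin_add_int_mul_two_pi]

lemma r35_cor_rot {T : Set ℂ} (hT : P3 T) {u w : ℝ} (h : Cor T u w) (k : ℤ) :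
    Cor T (u + k * (2 * Real.pi / 3)) w := by
  obtain ⟨q, h1, h2⟩ := h
  -- n natural with n = k mod 3
  set n : ℕ := (k % 3).toNat with hn
  have hn' : (n : ℤ) = k % 3 := by rw [hn]; exact Int.toNat_of_nonneg (Int.emod_nonneg _ (by norm_num))
  have hk : k = 3 * (k / 3) + n := by rw [hn']; exact (Int.mul_ediv_add_emod k 3).symm
  have key : ∀ x : ℝ, eA (n * (2 * Real.pi / 3)) * eA x = eA (x + k * (2 * Real.pi / 3)) := by
    intro x
    rw [← eA_add]
    have : x + k * (2 * Real.pi / 3) = n * (2 * Real.pi / 3) + x + ((k / 3 : ℤ) : ℝ) * (2 * Real.pi) := by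
      have hkr : (k : ℝ) = 3 * ((k / 3 : ℤ) : ℝ) + n := by exact_mod_cast hk
      rw [hkr]; ring
    rw [this, r35_per]
  refine ⟨eA (n * (2 * Real.pi / 3)) * q, ?_, ?_⟩
  · have := r35_rotn hT h1 n
    rwa [key] at this
  · have := r35_rotn hT h2 n
    rw [key] at this
    have e : u + w + k * (2 * Real.pi / 3) = u + k * (2 * Real.pi / 3) + w := by ring
    rwa [e] at this

lemma r35_tw (f : ℝ) (k : ℤ) : ∃ j : Fin 3, eA (tw f j) = eA (f + k * (2 * Real.pi / 3)) := by
  have h3 : (k % 3).toNat < 3 := by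
    have := Int.emod_lt_of_pos k (show (0 : ℤ) < 3 by norm_num)
    have := Int.emod_nonneg k (show (3 : ℤ) ≠ 0 by norm_num)
    omega
  refine ⟨⟨(k % 3).toNat, h3⟩, ?_⟩
  have hn' : (((k % 3).toNat : ℕ) : ℤ) = k % 3 :=
    Int.toNat_of_nonneg (Int.emod_nonneg _ (by norm_num))
  have hk : k = 3 * (k / 3) + (k % 3).toNat := by
    rw [hn']; exact (Int.mul_ediv_add_emod k 3).symm
  have hkr : (k : ℝ) = 3 * ((k / 3 : ℤ) : ℝ) + ((k % 3).toNat : ℕ) := by exact_mod_cast hk
  have : f + k * (2 * Real.pi / 3) = tw f ⟨(k % 3).toNat, h3⟩ + ((k / 3 : ℤ) : ℝ) * (2 * Real.pi) := by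
    rw [hkr]; simp only [tw]; ring
  rw [this, r35_per]

lemma r35_ne_zero {T : Set ℂ} (hT : P3 T) {m : ℂ} (h : NP T 0 m) : False := by
  obtain ⟨-, hm0, hmax⟩ := h
  have h0 := hT.zero
  rw [mem_interior_iff_mem_nhds, Metric.mem_nhds_iff] at h0
  obtain ⟨ε, hε, hb⟩ := h0
  have hn : 0 < ‖m‖ := norm_pos_iff.mpr hm0
  have hy : ((ε / 2 / ‖m‖ : ℝ) : ℂ) * m ∈ T := by
    apply hb
    rw [Metric.mem_ball, dist_zero_right, norm_mul, Complex.norm_real, Real.norm_eq_abs,
      abs_of_pos (by positivity)]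
    have : ε / 2 / ‖m‖ * ‖m‖ = ε / 2 := by field_simp
    rw [this]; linarith
  have := hmax _ hy
  rw [dotC_ofReal_right, dotC_self, dotC_zero_right] at this
  have h2 : 0 < ε / 2 / ‖m‖ * ‖m‖ ^ 2 := by positivity
  linarith

theorem good_or_bad {T : Set ℂ} (hT : P3 T) (f : ℝ) :
    GoodP T f ∨ Cor T (f + Real.pi / 6) (Real.pi / 3) := by
  by_cases hcor : Cor T (f + Real.pi / 6) (Real.pi / 3)
  · exact Or.inr hcor
  refine Or.inl fun q hq => ?_
  by_cases hne : ∃ m, NP T q m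
  swap
  · exact ⟨0, fun m hm => absurd ⟨m, hm⟩ hne⟩
  obtain ⟨m0, hm0⟩ := hne
  have hq0 : q ≠ 0 := by
    rintro rfl
    exact r35_ne_zero hT hm0
  set t : ℝ := Complex.arg q with ht
  have hr : 0 < ‖q‖ := norm_pos_iff.mpr hq0
  have hqt : q = (‖q‖ : ℂ) * eA t := by
    rw [eA_eq_exp, ht]; exact (Complex.norm_mul_exp_arg_mul_I q).symm
  have hpi := Real.pi_pos
  set k : ℤ := ⌊(t - f) / (2 * Real.pi / 3)⌋ with hk
  have hk1 : (k : ℝ) * (2 * Real.pi / 3) ≤ t - f := by
    have := Int.floor_le ((t - f) / (2 * Real.pi / 3))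
    rw [← hk, le_div_iff₀ (by positivity)] at this
    exact this
  have hk2 : t - f < ((k : ℝ) + 1) * (2 * Real.pi / 3) := by
    have := Int.lt_floor_add_one ((t - f) / (2 * Real.pi / 3))
    rw [← hk, div_lt_iff₀ (by positivity)] at this
    exact this
  obtain ⟨j, hj⟩ := r35_tw f k
  obtain ⟨j', hj'⟩ := r35_tw f (k + 1)
  set φ : ℝ := f + k * (2 * Real.pi / 3) with hφ
  have hφ' : f + ((k + 1 : ℤ) : ℝ) * (2 * Real.pi / 3) = φ + 2 * Real.pi / 3 := by
    rw [hφ]; push_cast; ring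
  rw [hφ'] at hj'
  by_contra hcon
  push Not at hcon
  obtain ⟨m, hm, hmle⟩ := hcon j
  obtain ⟨m', hm', hmle'⟩ := hcon j'
  obtain ⟨c, s, hc, hs, hms⟩ := NP_angle hT hr hqt hm
  obtain ⟨c', s', hc', hs', hms'⟩ := NP_angle hT hr hqt hm'
  rw [abs_le] at hs hs'
  rw [hj, hms, dotC_ofReal_left, dotC_eA] at hmle
  rw [hj', hms', dotC_ofReal_left, dotC_eA] at hmle'
  have c1 : Real.cos (t + s - φ) ≤ 0 := by
    by_contra h
    push Not at h
    have := mul_pos hc h
    linarith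
  have c2 : Real.cos (t + s' - (φ + 2 * Real.pi / 3)) ≤ 0 := by
    by_contra h
    push Not at h
    have := mul_pos hc' h
    linarith
  have d1 : φ + Real.pi / 2 ≤ t + s := by
    by_contra h
    push Not at h
    have : 0 < Real.cos (t + s - φ) := Real.cos_pos_of_mem_Ioo ⟨by linarith, by linarith⟩
    linarith
  have d2 : t + s' ≤ φ + Real.pi / 6 := by
    by_contra h
    push Not at h
    have : 0 < Real.cos (t + s' - (φ + 2 * Real.pi / 3)) :=
      Real.cos_pos_of_mem_Ioo ⟨by linarith, by linarith⟩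
    linarith
  -- unit normals
  have n1 : NP T q (eA (t + s)) := by
    refine ⟨hq, eA_ne_zero _, fun y hy => ?_⟩
    have := hm.2.2 y hy
    rw [hms, dotC_ofReal_left, dotC_ofReal_left] at this
    exact le_of_mul_le_mul_left this hc
  have n2 : NP T q (eA (t + s')) := by
    refine ⟨hq, eA_ne_zero _, fun y hy => ?_⟩
    have := hm'.2.2 y hy
    rw [hms', dotC_ofReal_left, dotC_ofReal_left] at this
    exact le_of_mul_le_mul_left this hc'
  have p1 : NP T q (eA (φ + Real.pi / 6)) :=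
    r35_cone n2 n1 d2 (by linarith) (by linarith [hs.2, hs'.1])
  have p2 : NP T q (eA (φ + Real.pi / 6 + Real.pi / 3)) :=
    r35_cone n2 n1 (by linarith) (by linarith) (by linarith [hs.2, hs'.1])
  have hC : Cor T (φ + Real.pi / 6) (Real.pi / 3) := ⟨q, p1, p2⟩
  have := r35_cor_rot hT hC (-k)
  apply hcor
  have e : φ + Real.pi / 6 + ((-k : ℤ) : ℝ) * (2 * Real.pi / 3) = f + Real.pi / 6 := by
    rw [hφ]; push_cast; ring
  rwa [e] at this

end Pool.Agent.Lib.MP_5e7226_co.RT
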