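import Pool.Agent.Lib.MP_5e7226_co.RT.R34

set_option autoImplicit false

open Set Filter Topology

namespace Pool.Agent.Lib.MP_5e7226_co.RT

/-! ### the two faces as planar bodies -/

lemma r39_P3 {K : Set Q3} (hK : RB 3 K) {z : ℝ}
    (ht : ∃ ε > 0, ∀ q : ℂ, ‖q‖ < ε → ((q, z) : Q3) ∈ K) : P3 (Sl K z) := by
  refine ⟨?_, ?_, ?_, ?_⟩
  · have hcl : IsClosedEmbedding (fun q : ℂ => ((q, z) : Q3)) := by
      refine IsClosedEmbedding.of_continuous_injective_isClosedMap (by fun_prop) ?_ ?_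
      · intro a b hab; exact congrArg Prod.fst hab
      · intro s hs
        have : (fun q : ℂ => ((q, z) : Q3)) '' s = s ×ˢ {z} := by
          ext ⟨a, b⟩
          simp only [mem_image, Prod.mk.injEq, mem_prod, mem_singleton_iff]
          constructor
          · rintro ⟨x, hx, rfl, rfl⟩; exact ⟨hx, rfl⟩
          · rintro ⟨h1, rfl⟩; exact ⟨a, h1, rfl, rfl⟩
        rw [this]
        exact hs.prod isClosed_singleton
    exact hcl.isCompact_preimage hK.comp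
  · intro a ha b hb s t hs ht' hst
    have := hK.conv ha hb hs ht' hst
    have e : s • ((a, z) : Q3) + t • ((b, z) : Q3) = (s • a + t • b, z) := by
      apply Prod.ext
      · simp
      · simp only [Prod.snd_add, Prod.smul_snd, smul_eq_mul]
        rw [← add_mul, hst, one_mul]
    rw [e] at this
    exact this
  · obtain ⟨ε, hε, h⟩ := ht
    rw [mem_interior_iff_mem_nhds, Metric.mem_nhds_iff]
    refine ⟨ε, hε, fun q hq => h q ?_⟩
    simpa using hq
  · intro q hq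
    exact r34_rotmem hK hq

theorem r39_P3_top {K : Set Q3} (hK : RB 3 K) {h : ℝ} (ht : FlatTop K h) : P3 (Sl K h) :=
  r39_P3 hK ht.2

theorem r39_P3_bot {K : Set Q3} (hK : RB 3 K) {h : ℝ} (ht : FlatTop (fl K) h) : P3 (Sl K (-h)) := by
  obtain ⟨ε, hε, H⟩ := ht.2
  exact r39_P3 hK ⟨ε, hε, fun q hq => H q hq⟩

/-! ### planar: a corner with the opening 120 -/

lemma r39_NP_pos {T : Set ℂ} (hT : P3 T) {q m : ℂ} (h : NP T q m) : 0 < dotC m q := by
  obtain ⟨-, hm0, hmax⟩ := h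
  have h0 := hT.zero
  rw [mem_interior_iff_mem_nhds, Metric.mem_nhds_iff] at h0
  obtain ⟨ε, hε, hb⟩ := h0
  have hn : 0 < ‖m‖ := norm_pos_iff.mpr hm0
  have hy : ((ε / 2 / ‖m‖ : ℝ) : ℂ) * m ∈ T := by
    apply hb
    rw [Metric.mem_ball, dist_zero_right, norm_mul, Complex.norm_real, Real.norm_eq_abs,
      abs_of_pos (by positivity)]
    have : ε / 2 / ‖m‖ * ‖m‖ = ε / 2 := by field_simp
    rw [this]; linarith
  have := hmax _ hy
  rw [dotC_ofReal_right, dotC_self] at this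
  have h2 : 0 < ε / 2 / ‖m‖ * ‖m‖ ^ 2 := by positivity
  linarith

lemma r39_corner {T : Set ℂ} (hT : P3 T) {q : ℂ} {u : ℝ} (h1 : NP T q (eA u))
    (h2 : NP T q (eA (u + 2 * Real.pi / 3))) :
    ∃ r : ℝ, 0 < r ∧ q = (r : ℂ) * eA (u + Real.pi / 3) := by
  have hpi := Real.pi_pos
  set a : ℝ := dotC (eA u) q with ha
  have hapos : 0 < a := r39_NP_pos hT h1
  -- a = b
  have hω := hT.rot q h1.1
  have hω2 := hT.rot _ hω
  have g2 := h2.2.2 _ hω
  have g1 := h1.2.2 _ hω2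
  have e2 : dotC (eA (u + 2 * Real.pi / 3)) (eA (2 * Real.pi / 3) * q) = a := by
    have : eA (u + 2 * Real.pi / 3) = eA (2 * Real.pi / 3) * eA u := by rw [eA_add]; ring
    rw [this, dotC_mul_mul, norm_eA, ha]; ring
  have e1 : dotC (eA u) (eA (2 * Real.pi / 3) * (eA (2 * Real.pi / 3) * q)) =
      dotC (eA (u + 2 * Real.pi / 3)) q := by
    have k1 := r34_omega3 (eA u)
    conv_lhs => rw [← k1]
    rw [dotC_mul_mul, dotC_mul_mul, norm_eA]
    have : eA (u + 2 * Real.pi / 3) = eA (2 * Real.pi / 3) * eA u := by rw [eA_add]; ring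
    rw [this]; ring
  rw [e2] at g2
  rw [e1] at g1
  have hb : dotC (eA (u + 2 * Real.pi / 3)) q = a := le_antisymm g1 g2
  refine ⟨2 * a, by positivity, ?_⟩
  have hc60 : Real.cos (Real.pi / 3) = 1 / 2 := Real.cos_pi_div_three
  have z1 : dotC (eA u) (q - ((2 * a : ℝ) : ℂ) * eA (u + Real.pi / 3)) = 0 := by
    rw [dotC_sub_right, dotC_ofReal_right, dotC_eA]
    have : u - (u + Real.pi / 3) = -(Real.pi / 3) := by ring
    rw [this, Real.cos_neg, hc60, ← ha]; ring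
  have z2 : dotC (eA (u + 2 * Real.pi / 3)) (q - ((2 * a : ℝ) : ℂ) * eA (u + Real.pi / 3)) = 0 := by
    rw [dotC_sub_right, dotC_ofReal_right, dotC_eA]
    have : u + 2 * Real.pi / 3 - (u + Real.pi / 3) = Real.pi / 3 := by ring
    rw [this, hc60, hb]; ring
  have hs : Real.sin (u + 2 * Real.pi / 3 - u) ≠ 0 := by
    have : u + 2 * Real.pi / 3 - u = 2 * Real.pi / 3 := by ring
    rw [this]
    exact (Real.sin_pos_of_pos_of_lt_pi (by positivity) (by linarith)).ne'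
  exact sub_eq_zero.mp (r35_zero z1 z2 hs)

lemma r39_vt0 (v : ℂ) : vt v 0 = v := by
  simp [vt, eA_zero]

lemma r39_vt1 (v : ℂ) : vt v 1 = eA (2 * Real.pi / 3) * v := by
  simp [vt]

lemma r39_vt2 (v : ℂ) : vt v 2 = eA (2 * Real.pi / 3) * (eA (2 * Real.pi / 3) * v) := by
  rw [← mul_assoc, ← eA_add]
  simp only [vt]
  congr 2
  simp only [Fin.val_two]
  push_cast
  ring

lemma r39_re : (eA (2 * Real.pi / 3)).re = -(1 / 2) := by
  rw [eA_re]
  have : 2 * Real.pi / 3 = Real.pi - Real.pi / 3 := by ring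
  rw [this, Real.cos_pi_sub, Real.cos_pi_div_three]

lemma r39_im : (eA (2 * Real.pi / 3)).im = √3 / 2 := by
  rw [eA_im]
  have : 2 * Real.pi / 3 = Real.pi - Real.pi / 3 := by ring
  rw [this, Real.sin_pi_sub, Real.sin_pi_div_three]

lemma r39_vt1' (v : ℂ) : vt v 1 = ⟨-(v.re / 2) - √3 / 2 * v.im, √3 / 2 * v.re - v.im / 2⟩ := by
  rw [r39_vt1]
  apply Complex.ext
  · rw [Complex.mul_re, r39_re, r39_im]; ring
  · rw [Complex.mul_im, r39_re, r39_im]; ring

lemma r39_vt2' (v : ℂ) : vt v 2 = ⟨-(v.re / 2) + √3 / 2 * v.im, -(√3 / 2 * v.re) - v.im / 2⟩ := by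
  have h3 : √3 * √3 = 3 := Real.mul_self_sqrt (by norm_num)
  rw [r39_vt2, ← r39_vt1 v, r39_vt1']
  apply Complex.ext
  · rw [Complex.mul_re, r39_re, r39_im]
    simp only
    linear_combination (-(v.re) / 4) * h3
  · rw [Complex.mul_im, r39_re, r39_im]
    simp only
    linear_combination (-(v.im) / 4) * h3

lemma r39_nsq (v : ℂ) : ‖v‖ ^ 2 = v.re ^ 2 + v.im ^ 2 := by
  rw [← dotC_self]; simp only [dotC]; ring

/-- barycentric coordinates. -/
lemma r39_bary {v : ℂ} (hv : v ≠ 0) (y : ℂ) :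
    y = (((1 + 2 * dotC (vt v 0) y / ‖v‖ ^ 2) / 3 : ℝ) : ℂ) * vt v 0 +
      (((1 + 2 * dotC (vt v 1) y / ‖v‖ ^ 2) / 3 : ℝ) : ℂ) * vt v 1 +
      (((1 + 2 * dotC (vt v 2) y / ‖v‖ ^ 2) / 3 : ℝ) : ℂ) * vt v 2 := by
  have h3 : √3 * √3 = 3 := Real.mul_self_sqrt (by norm_num)
  have hn : (v.re ^ 2 + v.im ^ 2) ≠ 0 := by
    rw [← r39_nsq]; exact pow_ne_zero 2 (norm_ne_zero_iff.mpr hv)
  rw [r39_nsq, r39_vt0, r39_vt1', r39_vt2']
  simp only [dotC]
  apply Complex.ext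
  · simp only [Complex.add_re, Complex.re_ofReal_mul]
    field_simp
    linear_combination (-(2 * y.re * v.im ^ 2) + 2 * y.im * v.re * v.im) * h3
  · simp only [Complex.add_im, Complex.im_ofReal_mul]
    field_simp
    linear_combination ((2 * y.re * v.re * v.im) - 2 * y.im * v.re ^ 2) * h3

lemma r39_sum (v y : ℂ) : dotC (vt v 0) y + dotC (vt v 1) y + dotC (vt v 2) y = 0 := by
  rw [r39_vt0, r39_vt1', r39_vt2']
  simp only [dotC]
  ring

/-- `T` is the triangle. -/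
lemma r39_tri {T : Set ℂ} (hT : P3 T) {u r : ℝ} (hr : 0 < r)
    (h1 : NP T ((r : ℂ) * eA (u + Real.pi / 3)) (eA u))
    (h2 : NP T ((r : ℂ) * eA (u + Real.pi / 3)) (eA (u + 2 * Real.pi / 3))) (y : ℂ) :
    y ∈ T ↔ ∀ j, -(‖(r : ℂ) * eA (u + Real.pi / 3)‖ ^ 2 / 2) ≤
      dotC (vt ((r : ℂ) * eA (u + Real.pi / 3)) j) y := by
  have hpi := Real.pi_pos
  set v : ℂ := (r : ℂ) * eA (u + Real.pi / 3) with hv
  have hnv : ‖v‖ = r := by
    rw [hv, norm_mul, norm_eA, Complex.norm_real, Real.norm_eq_abs, abs_of_pos hr, mul_one]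
  have hv0 : v ≠ 0 := by
    rw [← norm_ne_zero_iff, hnv]; exact hr.ne'
  have hc60 : Real.cos (Real.pi / 3) = 1 / 2 := Real.cos_pi_div_three
  have k1 : vt v 1 = ((-r : ℝ) : ℂ) * eA u := by
    rw [r39_vt1, hv]
    have : eA (2 * Real.pi / 3) * ((r : ℂ) * eA (u + Real.pi / 3)) = (r : ℂ) * eA (u + Real.pi) := by
      have : u + Real.pi = 2 * Real.pi / 3 + (u + Real.pi / 3) := by ring
      rw [this, eA_add (2 * Real.pi / 3)]; ring
    rw [this]
    have e : eA (u + Real.pi) = -eA u := by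
      apply Complex.ext
      · simp [Real.cos_add_pi]
      · simp [Real.sin_add_pi]
    rw [e]; push_cast; ring
  have k2 : vt v 2 = ((-r : ℝ) : ℂ) * eA (u + 2 * Real.pi / 3) := by
    rw [r39_vt2, ← r39_vt1 v, k1]
    have : eA (u + 2 * Real.pi / 3) = eA (2 * Real.pi / 3) * eA u := by rw [eA_add]; ring
    rw [this]; ring
  have a1 : dotC (eA u) v = r / 2 := by
    rw [hv, dotC_ofReal_right, dotC_eA]
    have : u - (u + Real.pi / 3) = -(Real.pi / 3) := by ring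
    rw [this, Real.cos_neg, hc60]; ring
  have a2 : dotC (eA (u + 2 * Real.pi / 3)) v = r / 2 := by
    rw [hv, dotC_ofReal_right, dotC_eA]
    have : u + 2 * Real.pi / 3 - (u + Real.pi / 3) = Real.pi / 3 := by ring
    rw [this, hc60]; ring
  constructor
  · intro hy
    have b1 : ∀ z ∈ T, -(‖v‖ ^ 2 / 2) ≤ dotC (vt v 1) z := by
      intro z hz
      have := h1.2.2 z hz
      rw [a1] at this
      rw [k1, dotC_ofReal_left, hnv]
      nlinarith [mul_le_mul_of_nonneg_left this hr.le]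
    have b2 : ∀ z ∈ T, -(‖v‖ ^ 2 / 2) ≤ dotC (vt v 2) z := by
      intro z hz
      have := h2.2.2 z hz
      rw [a2] at this
      rw [k2, dotC_ofReal_left, hnv]
      nlinarith [mul_le_mul_of_nonneg_left this hr.le]
    intro j
    fin_cases j
    · have := b1 _ (hT.rot y hy)
      rw [r39_vt1, dotC_mul_mul, norm_eA] at this
      simp only [Fin.zero_eta]
      rw [r39_vt0]
      linarith
    · exact b1 y hy
    · exact b2 y hy
  · intro hy
    have hvT : v ∈ T := h1.1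
    have hn2 : 0 < ‖v‖ ^ 2 := by rw [hnv]; positivity
    have hl : ∀ j, 0 ≤ (1 + 2 * dotC (vt v j) y / ‖v‖ ^ 2) / 3 := by
      intro j
      have := hy j
      have h4 : -1 ≤ 2 * dotC (vt v j) y / ‖v‖ ^ 2 := by
        rw [le_div_iff₀ hn2]; linarith
      linarith
    have hT1 : vt v 1 ∈ T := by rw [r39_vt1]; exact hT.rot _ hvT
    have hT2 : vt v 2 ∈ T := by rw [r39_vt2]; exact hT.rot _ (hT.rot _ hvT)
    have hT0 : vt v 0 ∈ T := by rw [r39_vt0]; exact hvT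
    have hs : (1 + 2 * dotC (vt v 0) y / ‖v‖ ^ 2) / 3 + (1 + 2 * dotC (vt v 1) y / ‖v‖ ^ 2) / 3 +
        (1 + 2 * dotC (vt v 2) y / ‖v‖ ^ 2) / 3 = 1 := by
      have := r39_sum v y
      have h5 : 2 * dotC (vt v 0) y / ‖v‖ ^ 2 + 2 * dotC (vt v 1) y / ‖v‖ ^ 2 +
          2 * dotC (vt v 2) y / ‖v‖ ^ 2 = 0 := by
        rw [← add_div, ← add_div]
        have : 2 * dotC (vt v 0) y + 2 * dotC (vt v 1) y + 2 * dotC (vt v 2) y = 0 := by linarith
        rw [this, zero_div]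
      linarith
    have hb := r39_bary hv0 y
    set l0 := (1 + 2 * dotC (vt v 0) y / ‖v‖ ^ 2) / 3
    set l1 := (1 + 2 * dotC (vt v 1) y / ‖v‖ ^ 2) / 3
    set l2 := (1 + 2 * dotC (vt v 2) y / ‖v‖ ^ 2) / 3
    have hmem : l0 • vt v 0 + l1 • vt v 1 + l2 • vt v 2 ∈ T := by
      have := hT.conv.sum_mem (t := Finset.univ) (w := ![l0, l1, l2])
        (z := ![vt v 0, vt v 1, vt v 2])
        (by intro i _; fin_cases i
            · exact hl 0
            · exact hl 1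
            · exact hl 2)
        (by simp [Fin.sum_univ_three, hs])
        (by intro i _; fin_cases i
            · exact hT0
            · exact hT1
            · exact hT2)
      simpa [Fin.sum_univ_three] using this
    rw [hb]
    simpa [Complex.real_smul] using hmem

/-- a linear functional on the triangle is maximal at a corner. -/
lemma r39_vmax {v : ℂ} (hv : v ≠ 0) {q : ℂ} (hq : ∀ j, -(‖v‖ ^ 2 / 2) ≤ dotC (vt v j) q) (m : ℂ) :
    ∃ j, dotC m q ≤ dotC m (vt v j) := by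
  have hn2 : 0 < ‖v‖ ^ 2 := by have := norm_pos_iff.mpr hv; positivity
  have hl : ∀ j, 0 ≤ (1 + 2 * dotC (vt v j) q / ‖v‖ ^ 2) / 3 := by
    intro j
    have := hq j
    have h4 : -1 ≤ 2 * dotC (vt v j) q / ‖v‖ ^ 2 := by
      rw [le_div_iff₀ hn2]; linarith
    linarith
  have hs : (1 + 2 * dotC (vt v 0) q / ‖v‖ ^ 2) / 3 + (1 + 2 * dotC (vt v 1) q / ‖v‖ ^ 2) / 3 +
      (1 + 2 * dotC (vt v 2) q / ‖v‖ ^ 2) / 3 = 1 := by
    have := r39_sum v q
    have h5 : 2 * dotC (vt v 0) q / ‖v‖ ^ 2 + 2 * dotC (vt v 1) q / ‖v‖ ^ 2 +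
        2 * dotC (vt v 2) q / ‖v‖ ^ 2 = 0 := by
      rw [← add_div, ← add_div]
      have : 2 * dotC (vt v 0) q + 2 * dotC (vt v 1) q + 2 * dotC (vt v 2) q = 0 := by linarith
      rw [this, zero_div]
    linarith
  by_contra hcon
  push Not at hcon
  have c0 := hcon 0
  have c1 := hcon 1
  have c2 := hcon 2
  have hb := congrArg (dotC m) (r39_bary hv q)
  rw [dotC_add_right, dotC_add_right, dotC_ofReal_right, dotC_ofReal_right,
    dotC_ofReal_right] at hb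
  have h0 := hl 0
  have h1 := hl 1
  have h2 := hl 2
  generalize (1 + 2 * dotC (vt v 0) q / ‖v‖ ^ 2) / 3 = l0 at *
  generalize (1 + 2 * dotC (vt v 1) q / ‖v‖ ^ 2) / 3 = l1 at *
  generalize (1 + 2 * dotC (vt v 2) q / ‖v‖ ^ 2) / 3 = l2 at *
  generalize dotC m q = d at *
  generalize dotC m (vt v 0) = d0 at *
  generalize dotC m (vt v 1) = d1 at *
  generalize dotC m (vt v 2) = d2 at *
  have e : l0 * (d - d0) + l1 * (d - d1) + l2 * (d - d2) = 0 := by
    linear_combination d * hs + hb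
  have p0 := mul_nonneg h0 (sub_pos.mpr c0).le
  have p1 := mul_nonneg h1 (sub_pos.mpr c1).le
  have p2 := mul_nonneg h2 (sub_pos.mpr c2).le
  have z0 : l0 * (d - d0) = 0 := by linarith
  have z1 : l1 * (d - d1) = 0 := by linarith
  have z2 : l2 * (d - d2) = 0 := by linarith
  have w0 := (mul_eq_zero.mp z0).resolve_right (sub_pos.mpr c0).ne'
  have w1 := (mul_eq_zero.mp z1).resolve_right (sub_pos.mpr c1).ne'
  have w2 := (mul_eq_zero.mp z2).resolve_right (sub_pos.mpr c2).ne'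
  rw [w0, w1, w2] at hs
  norm_num at hs

/-- the projection is supported at the corner `v`. -/
lemma r39_sup {K : Set Q3} (hK : RB 3 K) {v : ℂ} (hv : v ≠ 0) {z : ℝ}
    (htri : ∀ q, ((q, z) : Q3) ∈ K ↔ ∀ j, -(‖v‖ ^ 2 / 2) ≤ dotC (vt v j) q)
    (hm : ∃ q, Mx K (q, z)) : ∃ m : ℂ, m ≠ 0 ∧ ∀ y ∈ K, dotC m y.1 ≤ dotC m v := by
  obtain ⟨q, hq, m, hm0, hmax⟩ := hm
  have hm1 : m ≠ 0 := by
    rintro rfl; exact hm0 rfl
  have hmax' : ∀ y ∈ K, dotC m y.1 ≤ dotC m q := by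
    intro y hy
    have := hmax y hy
    simpa [pr] using this
  obtain ⟨j, hj⟩ := r39_vmax hv ((htri q).mp hq) m
  have hj' : ∀ y ∈ K, dotC m y.1 ≤ dotC m (vt v j) := fun y hy => (hmax' y hy).trans hj
  fin_cases j
  · refine ⟨m, hm1, fun y hy => ?_⟩
    have := hj' y hy
    simp only [Fin.zero_eta] at this
    rwa [r39_vt0] at this
  · refine ⟨eA (2 * Real.pi / 3) * (eA (2 * Real.pi / 3) * m),
      mul_ne_zero (eA_ne_zero _) (mul_ne_zero (eA_ne_zero _) hm1), fun y hy => ?_⟩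
    have := hj' _ (r34_rotmem hK hy)
    simp only [Fin.mk_one] at this
    rw [r39_vt1] at this
    have e : ∀ w : ℂ, dotC m (eA (2 * Real.pi / 3) * w) =
        dotC (eA (2 * Real.pi / 3) * (eA (2 * Real.pi / 3) * m)) w := by
      intro w
      conv_lhs => rw [← r34_omega3 m]
      rw [dotC_mul_mul, norm_eA]; ring
    rwa [e, e] at this
  · refine ⟨eA (2 * Real.pi / 3) * m, mul_ne_zero (eA_ne_zero _) hm1, fun y hy => ?_⟩
    have := hj' _ (r34_rotmem hK (r34_rotmem hK hy))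
    have e2 : (((⟨2, by decide⟩ : Fin 3)) : Fin 3) = 2 := rfl
    rw [e2, r39_vt2] at this
    have e : ∀ w : ℂ, dotC m (eA (2 * Real.pi / 3) * (eA (2 * Real.pi / 3) * w)) =
        dotC (eA (2 * Real.pi / 3) * m) w := by
      intro w
      conv_lhs => rw [← r34_omega3 m]
      rw [dotC_mul_mul, dotC_mul_mul, norm_eA]; ring
    rwa [e, e] at this

/-- a corner of the projection is not closer to the axis than the points of the same direction. -/
lemma r39_le {K : Set Q3} {e : ℂ} {r r' z z' : ℝ} (hr : 0 < r)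
    (hT : P3 (Sl K z)) (hs : ((((r' : ℝ) : ℂ) * e, z') : Q3) ∈ K) {m : ℂ} (hm : m ≠ 0)
    (hv : (((r : ℝ) : ℂ) * e, z) ∈ K)
    (hmax : ∀ y ∈ K, dotC m y.1 ≤ dotC m ((r : ℂ) * e)) : r' ≤ r := by
  have hp : 0 < dotC m ((r : ℂ) * e) := r39_NP_pos hT ⟨hv, hm, fun y hy => hmax _ hy⟩
  have h1 := hmax _ hs
  simp only at h1
  rw [dotC_ofReal_right] at hp h1
  rw [dotC_ofReal_right] at h1
  have h2 : 0 < dotC m e := by
    by_contra hc
    push Not at hc
    nlinarith [mul_nonneg hr.le (neg_nonneg.mpr hc)]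
  exact le_of_mul_le_mul_right h1 h2

theorem prism_of {K : Set Q3} (hK : RB 3 K) {h h' : ℝ} (ht : FlatTop K h)
    (hb : FlatTop (fl K) h') {u : ℝ} (h1 : Cor (Sl K h) u (2 * Real.pi / 3))
    (h2 : Cor (Sl K (-h')) u (2 * Real.pi / 3)) (hm : ∃ q, Mx K (q, h)) (hm' : ∃ q, Mx K (q, -h')) :
    ∃ v, Prism K h h' v := by
  have hT := r39_P3_top hK ht
  have hS := r39_P3_bot hK hb
  obtain ⟨q, hq1, hq2⟩ := h1
  obtain ⟨q', hq1', hq2'⟩ := h2
  obtain ⟨r, hr, rfl⟩ := r39_corner hT hq1 hq2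
  obtain ⟨r', hr', rfl⟩ := r39_corner hS hq1' hq2'
  have t1 := r39_tri hT hr hq1 hq2
  have t2 := r39_tri hS hr' hq1' hq2'
  have hv : (r : ℂ) * eA (u + Real.pi / 3) ≠ 0 :=
    mul_ne_zero (by exact_mod_cast hr.ne') (eA_ne_zero _)
  have hv' : (r' : ℂ) * eA (u + Real.pi / 3) ≠ 0 :=
    mul_ne_zero (by exact_mod_cast hr'.ne') (eA_ne_zero _)
  obtain ⟨m, hm0, hmax⟩ := r39_sup hK hv t1 hm
  obtain ⟨m', hm0', hmax'⟩ := r39_sup hK hv' t2 hm'
  have l1 : r' ≤ r := r39_le hr hT hq1'.1 hm0 hq1.1 hmax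
  have l2 : r ≤ r' := r39_le hr' hS hq1.1 hm0' hq1'.1 hmax'
  have hrr : r' = r := le_antisymm l1 l2
  subst hrr
  exact ⟨_, hK, ht, hb, hv, t1, t2, m, hm0, hmax⟩

end Pool.Agent.Lib.MP_5e7226_co.RT
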