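import Mathlib
import Pool.Agent.Lib.MP_5e7226_co.R3Base

/-! Temporary definitions (helper44's mail), to be replaced by his RT.Defs. -/

set_option autoImplicit false

open Set Filter Topology

namespace Pool.Agent.Lib.MP_5e7226_co.RT

abbrev Q3 := ℂ × ℝ

def pr (n x : Q3) : ℝ := dotC n.1 x.1 + n.2 * x.2

structure RB (p : ℕ) (K : Set Q3) : Prop where
  p3 : 3 ≤ p
  comp : IsCompact K
  conv : Convex ℝ K
  zero : (0 : Q3) ∈ interior K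
  rot : ∀ x ∈ K, ((eA (2 * Real.pi / p) * x.1, x.2) : Q3) ∈ K

def Nm (K : Set Q3) (x n : Q3) : Prop := n ≠ 0 ∧ ∀ y ∈ K, pr n y ≤ pr n x

def Sv (K : Set Q3) (x v : Q3) : Prop := ∀ n, Nm K x n → 0 < pr n v

def Served (K : Set Q3) (N : ℕ) : Prop := ∃ v : Fin N → Q3, ∀ x ∈ K, ∃ i, Sv K x (v i)

def Mx (K : Set Q3) (x : Q3) : Prop := x ∈ K ∧ ∃ m : ℂ, Nm K x (m, 0)

def FlatTop (K : Set Q3) (h : ℝ) : Prop :=
  (∀ y ∈ K, y.2 ≤ h) ∧ ∃ ε > 0, ∀ q : ℂ, ‖q‖ < ε → ((q, h) : Q3) ∈ K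

def fl (K : Set Q3) : Set Q3 := {x | (x.1, -x.2) ∈ K}

end Pool.Agent.Lib.MP_5e7226_co.RT
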